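import Mathlib

open Complex Set MeasureTheory Filter Topology Asymptotics

namespace Pool.Agent.H3Barnes

/-- convergence of Mellin transform for functions continuous on the positive axis, bounded near 0
and exponentially decaying -/
lemma conv_exp {s u : ℂ} (hs : 0 < s.re) (hu : 0 < u.re) :
    MellinConvergent (fun x : ℝ => cexp (-(x * u))) s := by
  refine mellinConvergent_of_isBigO_rpow_exp (a := u.re) (b := 0) hu ?_ ?_ ?_ hs
  · exact (Continuous.continuousOn (by fun_prop)).locallyIntegrableOn measurableSet_Ioi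
  · refine IsBigO.of_bound 1 (Eventually.of_forall fun x => ?_)
    simp [Complex.norm_exp, mul_comm]
  · refine IsBigO.of_bound 1 ?_
    filter_upwards [self_mem_nhdsWithin] with x hx
    simp only [mem_Ioi] at hx
    simp only [Complex.norm_exp, neg_zero, Real.rpow_zero, norm_one, mul_one]
    apply Real.exp_le_one_iff.mpr
    simp
    positivity

lemma diff_gam {s : ℂ} (hs : 0 < s.re) :
    DifferentiableOn ℂ (fun u : ℂ => mellin (fun x : ℝ => cexp (-(x * u))) s) {u | 0 < u.re} := by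
  intro u hu
  simp only [mem_ofPred_eq] at hu
  apply DifferentiableAt.differentiableWithinAt
  have hc : (0:ℝ) < u.re / 2 := by linarith
  have key := hasDerivAt_integral_of_dominated_loc_of_deriv_le
    (μ := volume.restrict (Ioi (0:ℝ))) (x₀ := u) (s := {v : ℂ | u.re / 2 < v.re})
    (F := fun v x => (x:ℂ) ^ (s - 1) • cexp (-(x * v)))
    (F' := fun v x => (x:ℂ) ^ (s - 1) • (cexp (-(x * v)) * (-(x:ℂ))))
    (bound := fun x => ‖(x:ℂ) ^ ((s + 1) - 1) • cexp (-(x * ((u.re / 2 : ℝ) : ℂ)))‖)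
    ?_ ?_ ?_ ?_ ?_ ?_ ?_
  · exact key.2.differentiableAt
  · refine (isOpen_lt continuous_const continuous_re).mem_nhds ?_
    simp only [mem_ofPred_eq]; linarith
  · filter_upwards [(isOpen_lt continuous_const continuous_re).mem_nhds hu] with v hv
    exact (conv_exp hs hv).aestronglyMeasurable
  · exact conv_exp hs hu
  · have h1 : IntegrableOn (fun x : ℝ => (x:ℂ) ^ ((s + 1) - 1) • cexp (-(x * u))) (Ioi 0) :=
      conv_exp (by simp; linarith) hu
    refine (h1.neg.aestronglyMeasurable).congr ?_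
    refine (ae_restrict_mem measurableSet_Ioi).mono fun x hx => ?_
    have hx' : (x:ℂ) ≠ 0 := ofReal_ne_zero.mpr (ne_of_gt hx)
    simp only [Pi.neg_apply, smul_eq_mul]
    rw [show s + 1 - 1 = (s - 1) + 1 by ring, cpow_add _ _ hx', cpow_one]
    ring
  · refine (ae_restrict_mem measurableSet_Ioi).mono fun x hx v hv => ?_
    have hx0 : 0 < x := hx
    have hx' : (x:ℂ) ≠ 0 := ofReal_ne_zero.mpr (ne_of_gt hx)
    simp only [smul_eq_mul, mem_ofPred_eq] at hv ⊢
    rw [show s + 1 - 1 = (s - 1) + 1 by ring, cpow_add _ _ hx', cpow_one]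
    simp only [norm_mul, norm_neg, Complex.norm_exp]
    rw [mul_assoc]
    refine mul_le_mul_of_nonneg_left ?_ (norm_nonneg _)
    rw [mul_comm]
    refine mul_le_mul_of_nonneg_left ?_ (norm_nonneg _)
    apply Real.exp_le_exp.mpr
    simp only [neg_re, mul_re, ofReal_re, ofReal_im, zero_mul, sub_zero, mul_zero]
    nlinarith
  · have h1 : IntegrableOn (fun x : ℝ => (x:ℂ) ^ ((s + 1) - 1) •
        cexp (-(x * ((u.re / 2 : ℝ) : ℂ)))) (Ioi 0) :=
      conv_exp (by simp; linarith) (by simpa using hu)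
    exact h1.norm
  · refine Eventually.of_forall fun x v _ => ?_
    have : HasDerivAt (fun v : ℂ => cexp (-(x * v))) (cexp (-(x * v)) * (-(x:ℂ))) v := by
      have h := ((hasDerivAt_id' v).const_mul (x:ℂ)).neg.cexp
      simpa using h
    exact this.const_smul ((x:ℂ) ^ (s - 1))

lemma halfplane_preconnected (c : ℝ) : IsPreconnected {u : ℂ | c < u.re} :=
  (convex_halfSpace_re_gt c).isPreconnected

lemma halfplane_open (c : ℝ) : IsOpen {u : ℂ | c < u.re} :=
  isOpen_lt continuous_const continuous_re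

lemma mellin_exp {s u : ℂ} (hs : 0 < s.re) (hu : 0 < u.re) :
    mellin (fun x : ℝ => cexp (-(x * u))) s = u ^ (-s) * Gamma s := by
  have h1 := (diff_gam hs).analyticOnNhd (halfplane_open 0)
  have h2 : AnalyticOnNhd ℂ (fun u : ℂ => u ^ (-s) * Gamma s) {u | 0 < u.re} := by
    refine DifferentiableOn.analyticOnNhd ?_ (halfplane_open 0)
    intro v hv
    refine (DifferentiableAt.mul_const ?_ _).differentiableWithinAt
    exact differentiableAt_id.cpow_const (Or.inl hv)
  have h3 : Tendsto ((↑) : ℝ → ℂ) (𝓝[≠] 1) (𝓝[≠] 1) := by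
    rw [tendsto_nhdsWithin_iff]; constructor
    · exact tendsto_nhdsWithin_of_tendsto_nhds continuous_ofReal.continuousAt
    · exact eventually_nhdsWithin_iff.mpr (Eventually.of_forall fun t ht => ofReal_ne_one.mpr ht)
  refine h1.eqOn_of_preconnected_of_frequently_eq h2 (halfplane_preconnected 0)
    (z₀ := 1) (by simp) (h3.frequently (Eventually.frequently ?_)) hu
  filter_upwards [nhdsWithin_le_nhds (lt_mem_nhds (zero_lt_one' ℝ))] with r hr
  have := integral_cpow_mul_exp_neg_mul_Ioi hs hr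
  simp only [mellin, smul_eq_mul]
  simp_rw [mul_comm _ (r:ℂ)]
  rw [this, one_div, inv_cpow _ _ (arg_ofReal_of_nonneg hr.le ▸ Real.pi_pos.ne), cpow_neg]

/-- termwise Mellin transform along a ray -/
lemma hasSum_mellin_ray {ι : Type*} [Countable ι] {p : ι → ℝ} {F : ℝ → ℂ} {s u : ℂ}
    (hp : ∀ i, 0 < p i) (hs : 0 < s.re) (hu : 0 < u.re)
    (hF : ∀ t ∈ Ioi (0:ℝ), HasSum (fun i ↦ cexp (-(t * (p i * u)))) (F t))
    (h_sum : Summable fun i ↦ (p i) ^ (-s.re)) :
    HasSum (fun i ↦ u ^ (-s) * Gamma s * (p i : ℂ) ^ (-s)) (mellin F s) := by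
  have hpu : ∀ i, 0 < ((p i : ℂ) * u).re := fun i => by simpa using mul_pos (hp i) hu
  simp_rw [mellin, smul_eq_mul, ← setIntegral_congr_fun measurableSet_Ioi
    (fun t ht ↦ congr_arg _ (hF t ht).tsum_eq), ← tsum_mul_left]
  have key := hasSum_integral_of_summable_integral_norm (μ := volume.restrict (Ioi (0:ℝ)))
    (F := fun i (t : ℝ) ↦ (t:ℂ) ^ (s - 1) * cexp (-(t * (p i * u))))
      (fun i ↦ conv_exp hs (hpu i)) ?_
  · refine (congrArg (fun f => HasSum f _) (funext fun i => ?_)).mpr key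
    have := mellin_exp hs (hpu i)
    simp only [mellin, smul_eq_mul] at this
    rw [this]
    have hu0 : u ≠ 0 := by rintro rfl; simp at hu
    rw [cpow_def_of_ne_zero (x := (p i : ℂ) * u) (mul_ne_zero (ofReal_ne_zero.mpr (hp i).ne') hu0),
      log_ofReal_mul (hp i) hu0, cpow_def_of_ne_zero hu0,
      cpow_def_of_ne_zero (ofReal_ne_zero.mpr (hp i).ne'), add_mul, Complex.exp_add,
      ofReal_log (hp i).le]
    ring
  · refine (h_sum.mul_left (u.re ^ (-s.re) * Real.Gamma s.re)).congr fun i => ?_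
    have hpi : 0 < p i * u.re := mul_pos (hp i) hu
    have := Real.integral_rpow_mul_exp_neg_mul_Ioi hs hpi
    rw [one_div, Real.inv_rpow hpi.le, ← Real.rpow_neg hpi.le, Real.mul_rpow (hp i).le hu.le] at this
    rw [show u.re ^ (-s.re) * Real.Gamma s.re * p i ^ (-s.re)
      = p i ^ (-s.re) * u.re ^ (-s.re) * Real.Gamma s.re by ring, ← this]
    refine setIntegral_congr_fun measurableSet_Ioi (fun t ht ↦ ?_)
    rw [norm_mul, norm_cpow_eq_rpow_re_of_pos ht, sub_re, one_re, Complex.norm_exp]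
    have : (-((t:ℂ) * (p i * u))).re = -(p i * u.re * t) := by simp; ring
    rw [this]

/-- entire continuation from a recurrence -/
noncomputable def aux (A : ℕ → ℂ → ℂ) (c : ℕ → ℂ) : ℕ → ℕ → ℂ → ℂ
  | 0, N, s => A N s
  | n + 1, N, s => c N + s * aux A c n (N + 1) (s + 1)

section
variable {A : ℕ → ℂ → ℂ} {c : ℕ → ℂ}

lemma aux_diff (hA : ∀ N s, 0 < s.re → DifferentiableAt ℂ (A N) s) :
    ∀ (n N : ℕ) (s : ℂ), -(n:ℝ) < s.re → DifferentiableAt ℂ (aux A c n N) s := by
  intro n
  induction n with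
  | zero => intro N s hs; exact hA N s (by simpa using hs)
  | succ n ih =>
    intro N s hs
    have h := ih (N + 1) (s + 1) (by simp at hs ⊢; linarith)
    have h2 : DifferentiableAt ℂ (fun s => aux A c n (N + 1) (s + 1)) s :=
      h.comp s (differentiableAt_id.add_const 1)
    exact (differentiableAt_id.mul h2).const_add _

lemma aux_succ (hrec : ∀ N s, 0 < s.re → A N s = c N + s * A (N + 1) (s + 1)) :
    ∀ (n N : ℕ) (s : ℂ), -(n:ℝ) < s.re → aux A c (n + 1) N s = aux A c n N s := by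
  intro n
  induction n with
  | zero => intro N s hs; simp only [aux]; exact (hrec N s (by simpa using hs)).symm
  | succ n ih =>
    intro N s hs
    have h := ih (N + 1) (s + 1) (by simp at hs ⊢; linarith)
    rw [aux, h, aux]

lemma aux_le (hrec : ∀ N s, 0 < s.re → A N s = c N + s * A (N + 1) (s + 1))
    (n m N : ℕ) (s : ℂ) (hs : -(n:ℝ) < s.re) (hnm : n ≤ m) : aux A c m N s = aux A c n N s := by
  induction m, hnm using Nat.le_induction with
  | base => rfl
  | succ m hm ih =>
    rw [aux_succ hrec m N s, ih]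
    have : (n:ℝ) ≤ m := by exact_mod_cast hm
    linarith

lemma aux_eq (hrec : ∀ N s, 0 < s.re → A N s = c N + s * A (N + 1) (s + 1))
    (n m N : ℕ) (s : ℂ) (hs : -(n:ℝ) < s.re) (hm : -(m:ℝ) < s.re) :
    aux A c m N s = aux A c n N s := by
  rcases le_total n m with h | h
  · exact aux_le hrec n m N s hs h
  · exact (aux_le hrec m n N s hm h).symm

lemma exists_entire (hA : ∀ N s, 0 < s.re → DifferentiableAt ℂ (A N) s)
    (hrec : ∀ N s, 0 < s.re → A N s = c N + s * A (N + 1) (s + 1)) :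
    ∃ B : ℂ → ℂ, Differentiable ℂ B ∧ (∀ s, 0 < s.re → B s = A 0 s) ∧
      ∀ s, -2 < s.re → B s = c 0 + s * (c 1 + (s + 1) * A 2 (s + 2)) := by
  have hfl : ∀ s : ℂ, -((⌊-s.re⌋₊ + 1 : ℕ) : ℝ) < s.re := fun s => by
    have := Nat.lt_floor_add_one (-s.re)
    push_cast; linarith
  have hB : ∀ (n : ℕ) (s : ℂ), -(n:ℝ) < s.re → aux A c (⌊-s.re⌋₊ + 1) 0 s = aux A c n 0 s :=
    fun n s hs => aux_eq hrec n _ 0 s hs (hfl s)
  refine ⟨fun s => aux A c (⌊-s.re⌋₊ + 1) 0 s, fun s => ?_, fun s hs => ?_, fun s hs => ?_⟩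
  · have h := aux_diff (c := c) hA _ 0 s (hfl s)
    refine h.congr_of_eventuallyEq ?_
    filter_upwards [(halfplane_open _).mem_nhds (hfl s)] with v hv
    exact hB _ v hv
  · simpa [aux] using hB 0 s (by simpa using hs)
  · have := hB 2 s (by simpa using hs)
    beta_reduce
    rw [this]
    simp only [aux]
    rw [show s + 1 + 1 = s + 2 by ring]

end

end Pool.Agent.H3Barnes
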