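import Mathlib

open Filter Topology NormedSpace

namespace Pool.Agent.Lib.helper3.AdComm

variable {A : Type*} [CStarAlgebra A]

theorem ad_two {P Y : A} (hP : IsSelfAdjoint P) (h : Commute P (P * Y - Y * P)) :
    P * Y = Y * P := by
  let _ : NormedAlgebra ℚ A := NormedAlgebra.restrictScalars ℚ ℂ A
  set Z := P * Y - Y * P with hZ
  set Q : A := Complex.I • P with hQ
  have hQs : ∀ t : ℝ, t • Q ∈ skewAdjoint A := by
    intro t
    rw [skewAdjoint.mem_iff, hQ, star_smul, star_smul, hP.star_eq]
    simp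
  have hU : ∀ t : ℝ, exp (t • Q) ∈ unitary A := fun t => exp_mem_unitary_of_mem_skewAdjoint (hQs t)
  have hU' : ∀ t : ℝ, exp (t • (-Q)) ∈ unitary A := fun t => by
    have := hU (-t)
    rwa [neg_smul, ← smul_neg] at this
  have hinv : ∀ t : ℝ, exp (t • Q) * exp (t • (-Q)) = 1 := fun t => by
    rw [← exp_add_of_commute, smul_neg, add_neg_cancel, exp_zero]
    rw [smul_neg]
    exact (Commute.refl _).neg_right
  have hcZ : ∀ t : ℝ, Commute (exp (t • Q)) Z := fun t =>
    Commute.exp_left ((h.smul_left _).smul_left _)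
  have hd : ∀ t : ℝ, HasDerivAt
      (fun u : ℝ => exp (u • Q) * Y * exp (u • (-Q)) - u • (Complex.I • Z)) 0 t := by
    intro t
    have d1 := ((hasDerivAt_exp_smul_const (𝕂 := ℝ) Q t).mul_const Y).mul
      (hasDerivAt_exp_smul_const' (𝕂 := ℝ) (-Q) t)
    have d2 := (hasDerivAt_id t).smul_const (Complex.I • Z)
    refine HasDerivAt.congr_deriv (d1.sub d2) ?_
    have e : exp (t • Q) * Q * Y * exp (t • (-Q)) + exp (t • Q) * Y * (-Q * exp (t • (-Q))) =
        exp (t • Q) * (Q * Y - Y * Q) * exp (t • (-Q)) := by noncomm_ring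
    have e2 : Q * Y - Y * Q = Complex.I • Z := by
      rw [hQ, hZ, smul_mul_assoc, mul_smul_comm, smul_sub]
    rw [e, e2, mul_smul_comm, (hcZ t).eq, smul_mul_assoc, mul_assoc, hinv, mul_one, one_smul,
      sub_self]
  have hc : ∀ t : ℝ, exp (t • Q) * Y * exp (t • (-Q)) - t • (Complex.I • Z) = Y := by
    intro t
    have := is_const_of_deriv_eq_zero (fun u => (hd u).differentiableAt)
      (fun u => (hd u).deriv) t 0
    simpa using this
  have hb : ∀ t : ℝ, |t| * ‖Z‖ ≤ 2 * ‖Y‖ := by
    intro t
    have e : t • (Complex.I • Z) = exp (t • Q) * Y * exp (t • (-Q)) - Y := by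
      rw [eq_sub_iff_add_eq, add_comm, ← eq_sub_iff_add_eq, hc t]
    have n := norm_sub_le (exp (t • Q) * Y * exp (t • (-Q))) Y
    rw [← e, CStarRing.norm_mul_mem_unitary _ (hU' t), CStarRing.norm_mem_unitary_mul _ (hU t),
      norm_smul, norm_smul, Complex.norm_I, one_mul, Real.norm_eq_abs] at n
    linarith
  rw [← sub_eq_zero, ← hZ]
  by_contra hne
  have hp : 0 < ‖Z‖ := norm_pos_iff.2 hne
  have := hb ((2 * ‖Y‖ + 1) / ‖Z‖)
  rw [abs_of_pos (by positivity), div_mul_cancel₀ _ hp.ne'] at this
  linarith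

theorem ad_three {P T : A} (hP : IsSelfAdjoint P)
    (h : P * P * P * T - 3 * (P * P * T * P) + 3 * (P * T * (P * P)) - T * (P * P * P) = 0) :
    P * T = T * P := by
  apply ad_two hP
  apply ad_two hP
  rw [Commute, SemiconjBy, ← sub_eq_zero, ← h]
  noncomm_ring

theorem int_abs {R t : ℝ} (h : |t| ≤ R) : ∫ c in (-R)..R, |t - c| = R ^ 2 + t ^ 2 := by
  have h' := abs_le.1 h
  have i1 : ∀ a b : ℝ, IntervalIntegrable (fun c => |t - c|) MeasureTheory.volume a b :=
    fun a b => (by fun_prop : Continuous fun c : ℝ => |t - c|).intervalIntegrable a b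
  rw [← intervalIntegral.integral_add_adjacent_intervals (i1 (-R) t) (i1 t R),
    intervalIntegral.integral_congr (g := fun c => t - c) (a := -R) (b := t),
    intervalIntegral.integral_congr (g := fun c => c - t) (a := t) (b := R)]
  · rw [intervalIntegral.integral_sub (by simp) (by simp), intervalIntegral.integral_sub (by simp)
      (by simp)]
    simp only [integral_id, intervalIntegral.integral_const, smul_eq_mul]
    ring
  · intro c hc
    rw [Set.uIcc_of_le h'.2] at hc
    change |t - c| = c - t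
    rw [abs_sub_comm, abs_of_nonneg (by linarith [hc.1])]
  · intro c hc
    rw [Set.uIcc_of_le h'.1] at hc
    change |t - c| = t - c
    rw [abs_of_nonneg (by linarith [hc.2])]

theorem int_mul_abs {R t : ℝ} (h : |t| ≤ R) :
    ∫ c in (-R)..R, c * |t - c| = t ^ 3 / 3 - R ^ 2 * t := by
  have h' := abs_le.1 h
  have i1 : ∀ a b : ℝ, IntervalIntegrable (fun c => c * |t - c|) MeasureTheory.volume a b :=
    fun a b => (by fun_prop : Continuous fun c : ℝ => c * |t - c|).intervalIntegrable a b
  have i2 : ∀ a b : ℝ, IntervalIntegrable (fun c => t * c) MeasureTheory.volume a b :=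
    fun a b => (by fun_prop : Continuous fun c : ℝ => t * c).intervalIntegrable a b
  have i3 : ∀ a b : ℝ, IntervalIntegrable (fun c : ℝ => c ^ 2) MeasureTheory.volume a b :=
    fun a b => (by fun_prop : Continuous fun c : ℝ => c ^ 2).intervalIntegrable a b
  rw [← intervalIntegral.integral_add_adjacent_intervals (i1 (-R) t) (i1 t R),
    intervalIntegral.integral_congr (g := fun c => t * c - c ^ 2) (a := -R) (b := t),
    intervalIntegral.integral_congr (g := fun c => c ^ 2 - t * c) (a := t) (b := R)]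
  · rw [intervalIntegral.integral_sub (i2 _ _) (i3 _ _),
      intervalIntegral.integral_sub (i3 _ _) (i2 _ _), intervalIntegral.integral_const_mul,
      intervalIntegral.integral_const_mul]
    simp only [integral_id, integral_pow]
    push_cast
    ring
  · intro c hc
    rw [Set.uIcc_of_le h'.2] at hc
    change c * |t - c| = c ^ 2 - t * c
    rw [abs_sub_comm, abs_of_nonneg (by linarith [hc.1])]
    ring
  · intro c hc
    rw [Set.uIcc_of_le h'.1] at hc
    change c * |t - c| = t * c - c ^ 2
    rw [abs_of_nonneg (by linarith [hc.2])]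
    ring

variable {K : Type*} [TopologicalSpace K] [CompactSpace K]

/-- `|x - c|` -/
noncomputable def absSub (x : C(K, ℝ)) (c : ℝ) : C(K, ℝ) := ⟨fun s => |x s - c|, by fun_prop⟩

omit [CompactSpace K] in
theorem continuous_absSub (x : C(K, ℝ)) : Continuous (absSub x) :=
  ContinuousMap.continuous_of_continuous_uncurry _ (by
    change Continuous fun q : ℝ × K => |x q.2 - q.1|
    fun_prop)

theorem commute_of_abs (φ : C(K, ℝ) →ₐ[ℝ] A) (hφ : ∀ f, ‖φ f‖ ≤ ‖f‖) (x : C(K, ℝ))
    (hP : IsSelfAdjoint (φ x)) (T : A)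
    (h : ∀ c : ℝ, φ x * T * φ (absSub x c) - φ (absSub x c) * T * φ x =
      c • (T * φ (absSub x c) - φ (absSub x c) * T)) : φ x * T = T * φ x := by
  let Φ : C(K, ℝ) →L[ℝ] A := φ.toLinearMap.mkContinuous 1 fun f => by simpa using hφ f
  let L1 : C(K, ℝ) →L[ℝ] A :=
    ((ContinuousLinearMap.mul ℝ A (φ x * T)) - (ContinuousLinearMap.mul ℝ A).flip (T * φ x)).comp Φ
  let L2 : C(K, ℝ) →L[ℝ] A :=
    ((ContinuousLinearMap.mul ℝ A T) - (ContinuousLinearMap.mul ℝ A).flip T).comp Φ
  have hL1 : ∀ f, L1 f = φ x * T * φ f - φ f * (T * φ x) := fun f => rfl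
  have hL2 : ∀ f, L2 f = T * φ f - φ f * T := fun f => rfl
  set R := ‖x‖ with hR
  have c1 := continuous_absSub x
  have c2 : Continuous fun c : ℝ => c • absSub x c := continuous_id.smul c1
  have I1 : ∫ c in (-R)..R, absSub x c = algebraMap ℝ _ (R ^ 2) + x * x := by
    ext s
    have := (ContinuousMap.evalCLM ℝ s (M := ℝ)).intervalIntegral_comp_comm
      (c1.intervalIntegrable (μ := MeasureTheory.volume) (-R) R)
    have e := int_abs (R := R) (t := x s) (x.norm_coe_le_norm s)
    refine this.symm.trans (e.trans ?_)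
    simp [sq]
  have I2 : ∫ c in (-R)..R, c • absSub x c = (1 / 3 : ℝ) • (x * x * x) - (R ^ 2) • x := by
    ext s
    have := (ContinuousMap.evalCLM ℝ s (M := ℝ)).intervalIntegral_comp_comm
      (c2.intervalIntegrable (μ := MeasureTheory.volume) (-R) R)
    have e := int_mul_abs (R := R) (t := x s) (x.norm_coe_le_norm s)
    refine this.symm.trans (e.trans ?_)
    simp
    ring
  have J1 := L1.intervalIntegral_comp_comm (c1.intervalIntegrable (μ := MeasureTheory.volume) (-R) R)
  have J2 := L2.intervalIntegral_comp_comm (c2.intervalIntegrable (μ := MeasureTheory.volume) (-R) R)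
  have E : (fun c => L1 (absSub x c)) = fun c => L2 (c • absSub x c) := by
    funext c
    rw [map_smul, hL1, hL2, ← h c, mul_assoc (φ (absSub x c))]
  rw [E, J2, I1, I2, hL1, hL2] at J1
  apply ad_three hP
  rw [map_add, map_sub, map_smul, map_smul, map_mul, map_mul, AlgHomClass.commutes,
    Algebra.algebraMap_eq_smul_one] at J1
  generalize φ x = P at J1 ⊢
  generalize R ^ 2 = r at J1
  simp only [mul_sub, sub_mul, mul_add, add_mul, mul_smul_comm, smul_mul_assoc, mul_one,
    one_mul] at J1
  have e3 : ∀ y : A, (3 : A) * y = (3 : ℝ) • y := fun y => by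
    rw [Algebra.smul_def]; simp [map_ofNat]
  rw [e3, e3]
  simp only [mul_assoc] at J1 ⊢
  linear_combination (norm := module) (-3 : ℝ) • J1

end Pool.Agent.Lib.helper3.AdComm
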