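import Pool.Agent.Lib.helper3.GSp

namespace Pool.Agent.Lib.helper3.AS

open Filter Topology Metric
open scoped ENNReal

variable (B : Type) [NormedCommRing B] [NormedAlgebra ℂ B]

/-- The ring `ℂ × B`, to be renormed. -/
def Al (_ : ℕ) : Type := ℂ × B

variable (n : ℕ)

noncomputable instance : CommRing (Al B n) := inferInstanceAs (CommRing (ℂ × B))

noncomputable instance : Algebra ℂ (Al B n) := inferInstanceAs (Algebra ℂ (ℂ × B))

/-- Coordinates defining the norm. -/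
noncomputable def emb : Al B n →+ WithLp 1 (ℂ × B) :=
  AddMonoidHom.mk' (fun x => WithLp.toLp 1 (x.1, ((n : ℂ) + 1) • (x.2 - x.1 • 1))) fun x y => by
    rw [← WithLp.toLp_add]
    refine congrArg _ (Prod.ext rfl ?_)
    change ((n : ℂ) + 1) • (x.2 + y.2 - (x.1 + y.1) • (1 : B)) =
      ((n : ℂ) + 1) • (x.2 - x.1 • 1) + ((n : ℂ) + 1) • (y.2 - y.1 • 1)
    module

lemma succ_ne : ((n : ℂ) + 1) ≠ 0 := Nat.cast_add_one_ne_zero n

lemma emb_inj : Function.Injective (emb B n) := fun x y h => by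
  have h1 : x.1 = y.1 := (congrArg (fun z : WithLp 1 (ℂ × B) => z.fst) h :)
  have h2 : ((n : ℂ) + 1) • (x.2 - x.1 • (1 : B)) = ((n : ℂ) + 1) • (y.2 - y.1 • 1) :=
    congrArg (fun z : WithLp 1 (ℂ × B) => z.snd) h
  rw [h1] at h2
  exact Prod.ext h1 (sub_left_injective (smul_right_injective B (succ_ne n) h2))

lemma emb_surj : Function.Surjective (emb B n) := fun z =>
  ⟨(z.fst, ((n : ℂ) + 1)⁻¹ • z.snd + z.fst • 1), congrArg (WithLp.toLp 1) (Prod.ext rfl (by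
    change ((n : ℂ) + 1) • (((n : ℂ) + 1)⁻¹ • z.snd + z.fst • (1 : B) - z.fst • 1) = z.snd
    rw [add_sub_cancel_right, smul_inv_smul₀ (succ_ne n)]))⟩

noncomputable instance grp : NormedAddCommGroup (Al B n) :=
  NormedAddCommGroup.induced _ _ (emb B n) (emb_inj B n)

variable {B n}

lemma norm_def (x : Al B n) : ‖x‖ = ‖x.1‖ + ((n : ℝ) + 1) * ‖x.2 - x.1 • 1‖ := by
  change ‖emb B n x‖ = _
  rw [WithLp.prod_norm_eq_of_L1]
  change ‖x.1‖ + ‖((n : ℂ) + 1) • (x.2 - x.1 • (1 : B))‖ = _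
  rw [norm_smul]
  congr 2
  exact_mod_cast Complex.norm_natCast (n + 1)

noncomputable instance : NormedCommRing (Al B n) :=
  { grp B n, (inferInstance : CommRing (Al B n)) with
    norm_mul_le := fun x y => by
      rw [norm_def, norm_def, norm_def]
      change ‖x.1 * y.1‖ + ((n : ℝ) + 1) * ‖x.2 * y.2 - (x.1 * y.1) • (1 : B)‖ ≤ _
      have h : x.2 * y.2 - (x.1 * y.1) • (1 : B) = (x.2 - x.1 • 1) * (y.2 - y.1 • 1) +
          x.1 • (y.2 - y.1 • 1) + y.1 • (x.2 - x.1 • 1) := by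
        simp only [mul_sub, sub_mul, smul_mul_assoc, mul_smul_comm, one_mul, mul_one]
        module
      rw [h]
      set a := x.2 - x.1 • (1 : B)
      set b := y.2 - y.1 • (1 : B)
      have h1 : ‖a * b + x.1 • b + y.1 • a‖ ≤ ‖a‖ * ‖b‖ + ‖x.1‖ * ‖b‖ + ‖y.1‖ * ‖a‖ :=
        norm_add₃_le.trans (add_le_add_three (norm_mul_le _ _) (norm_smul_le _ _)
          (norm_smul_le _ _))
      have h2 : (0 : ℝ) ≤ n := Nat.cast_nonneg n
      have h3 := mul_le_mul_of_nonneg_left h1 (show (0 : ℝ) ≤ n + 1 by linarith)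
      have h4 : 0 ≤ (n + 1) * n * (‖a‖ * ‖b‖) := by positivity
      rw [norm_mul]
      nlinarith }

noncomputable instance : NormedAlgebra ℂ (Al B n) where
  norm_smul_le c x := by
    rw [norm_def, norm_def]
    change ‖c * x.1‖ + ((n : ℝ) + 1) * ‖c • x.2 - (c * x.1) • (1 : B)‖ ≤ _
    rw [mul_smul, ← smul_sub, norm_mul, norm_smul]
    exact le_of_eq (by ring)

instance : NormOneClass (Al B n) := ⟨by
  rw [norm_def]
  change ‖(1 : ℂ)‖ + ((n : ℝ) + 1) * ‖(1 : B) - (1 : ℂ) • (1 : B)‖ = 1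
  simp⟩

instance [CompleteSpace B] : CompleteSpace (Al B n) :=
  ((AddMonoidHomClass.isometry_of_norm (emb B n) fun _ => rfl).isUniformInducing.completeSpace_congr
    (emb_surj B n)).2 inferInstance

lemma snd_le [NormOneClass B] (x : Al B n) : ‖x.2‖ ≤ ‖x‖ := by
  rw [norm_def]
  have h1 := norm_add_le (x.1 • (1 : B)) (x.2 - x.1 • 1)
  rw [add_sub_cancel, norm_smul, norm_one, mul_one] at h1
  have h2 : 0 ≤ (n : ℝ) * ‖x.2 - x.1 • 1‖ := by positivity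
  linarith

lemma fst_le (x : Al B n) : ‖x.1‖ ≤ ‖x‖ := by
  rw [norm_def]
  exact le_add_of_nonneg_right (by positivity)

lemma rad_le (x : Al B n) : ‖x - x.1 • 1‖ ≤ ‖x‖ := by
  rw [norm_def, norm_def]
  change ‖x.1 - x.1 * 1‖ + ((n : ℝ) + 1) * ‖x.2 - x.1 • (1 : B) - (x.1 - x.1 * 1) • 1‖ ≤ _
  simp

lemma sq_le (r : Al B n) (h : r.1 = 0) : ‖r * r‖ ≤ ‖r‖ ^ 2 / (n + 1) := by
  rw [norm_def, norm_def]
  change ‖r.1 * r.1‖ + ((n : ℝ) + 1) * ‖r.2 * r.2 - (r.1 * r.1) • (1 : B)‖ ≤ _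
  have h1 : (0 : ℝ) < n + 1 := by positivity
  simp only [h, mul_zero, norm_zero, zero_smul, sub_zero, zero_add]
  refine (mul_le_mul_of_nonneg_left (norm_mul_le r.2 r.2) h1.le).trans (le_of_eq ?_)
  field_simp

lemma approx (a : lp (Al B) ∞) {ε : ℝ} (hε : 0 < ε) : ∃ u v : lp (Al B) ∞,
    Tendsto (fun n => ‖(u * v - 1 : lp (Al B) ∞) n‖) atTop (𝓝 0) ∧ ‖a - u‖ ≤ 2 * ε := by
  have ha : ∀ n, ‖a n‖ ≤ ‖a‖ := fun n => lp.norm_apply_le_norm ENNReal.top_ne_zero a n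
  have hμ : ∀ n, ∃ μ : ℂ, ε ≤ ‖μ‖ ∧ ‖(a n).1 - μ‖ ≤ 2 * ε := fun n => by
    by_cases h : ε ≤ ‖(a n).1‖
    · exact ⟨_, h, by rw [sub_self, norm_zero]; positivity⟩
    · have h1 : ‖(ε : ℂ)‖ = ε := by rw [Complex.norm_real, Real.norm_of_nonneg hε.le]
      exact ⟨ε, h1.ge, (norm_sub_le _ _).trans (by rw [h1]; linarith)⟩
  choose μ h1 h2 using hμ
  have h0 : ∀ n, μ n ≠ 0 := fun n => norm_pos_iff.1 (hε.trans_le (h1 n))
  have h3 : ∀ n, ‖(μ n)⁻¹‖ ≤ ε⁻¹ := fun n => by rw [norm_inv]; exact inv_anti₀ hε (h1 n)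
  let r : ∀ n, Al B n := fun n => a n - (a n).1 • 1
  have hr : ∀ n, ‖r n‖ ≤ ‖a‖ := fun n => (rad_le _).trans (ha n)
  have hr0 : ∀ n, (r n).1 = 0 := fun n => by
    change (a n).1 - (a n).1 * 1 = 0
    simp
  have h4 : ∀ n, ‖a n - (μ n • 1 + r n)‖ ≤ 2 * ε := fun n => by
    rw [show a n - (μ n • 1 + r n) = ((a n).1 - μ n) • 1 by simp only [r]; module, norm_smul,
      norm_one, mul_one]
    exact h2 n
  refine ⟨⟨fun n => μ n • 1 + r n, memℓp_infty ⟨‖a‖ + 2 * ε, ?_⟩⟩,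
    ⟨fun n => (μ n)⁻¹ • (1 - (μ n)⁻¹ • r n), memℓp_infty ⟨ε⁻¹ * (1 + ε⁻¹ * ‖a‖), ?_⟩⟩, ?_,
    lp.norm_le_of_forall_le (by positivity) h4⟩
  · rintro _ ⟨n, rfl⟩
    have := norm_sub_le (a n) (a n - (μ n • 1 + r n))
    rw [sub_sub_cancel] at this
    exact this.trans (add_le_add (ha n) (h4 n))
  · rintro _ ⟨n, rfl⟩
    refine (norm_smul_le _ _).trans (mul_le_mul (h3 n) ((norm_sub_le _ _).trans ?_)
      (norm_nonneg _) (by positivity))
    rw [norm_one]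
    exact add_le_add le_rfl ((norm_smul_le _ _).trans
      (mul_le_mul (h3 n) (hr n) (norm_nonneg _) (by positivity)))
  · refine squeeze_zero (fun _ => norm_nonneg _) (fun n => ?_)
      (g := fun n : ℕ => ε⁻¹ * ε⁻¹ * ‖a‖ ^ 2 * (1 / ((n : ℝ) + 1)))
      (by simpa using tendsto_one_div_add_atTop_nhds_zero_nat.const_mul (ε⁻¹ * ε⁻¹ * ‖a‖ ^ 2))
    change ‖(μ n • 1 + r n) * ((μ n)⁻¹ • (1 - (μ n)⁻¹ • r n)) - 1‖ ≤ _
    have h5 : (μ n • 1 + r n) * ((μ n)⁻¹ • (1 - (μ n)⁻¹ • r n)) - 1 =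
        -(((μ n)⁻¹ * (μ n)⁻¹) • (r n * r n)) := by
      simp only [mul_smul_comm, add_mul, mul_sub, smul_mul_assoc, one_mul, mul_one]
      match_scalars <;> field_simp [h0 n] <;> ring
    rw [h5, norm_neg, norm_smul, norm_mul, mul_assoc (ε⁻¹ * ε⁻¹), mul_one_div]
    refine mul_le_mul (mul_le_mul (h3 n) (h3 n) (norm_nonneg _) (by positivity))
      ((sq_le _ (hr0 n)).trans ?_) (norm_nonneg _) (by positivity)
    gcongr
    exact hr n

open GS in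
lemma far (u : A) (hu : IsUnit u) : 1 / 2 ≤ ‖Z - u‖ := by
  by_contra hlt
  rw [not_le] at hlt
  obtain ⟨v, hv⟩ := hu.exists_right_inv
  let l : M := ⟨e 0, e_M 0⟩
  have h1 : ∀ x, u.1 x * v.1 x = 1 := fun x => congrArg (fun f : A => f.1 x) hv
  have h2 : ∀ x : K, ‖x.1.2.2.1 - u.1 x‖ < 1 / 2 := fun x =>
    ((Z - u).1.norm_coe_le_norm x).trans_lt hlt
  have h3 : DiffContOnCl ℂ (fun z => v.1 (pt l 1 (r z))) (ball 0 1) :=
    ⟨v.2 l 1, (v.1.continuous.comp ((pt_cont l).comp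
      (continuous_const.prodMk r_cont))).continuousOn⟩
  have h4 := Complex.norm_le_of_forall_mem_frontier_norm_le isBounded_ball h3 (C := 2)
    (fun w hw => by
      rw [frontier_ball _ one_ne_zero, mem_sphere_zero_iff_norm] at hw
      have h5 := congrArg norm (h1 (pt l 1 (r w)))
      have h6 := h2 (pt l 1 (r w))
      have h7 := norm_sub_norm_le (r w).1 (u.1 (pt l 1 (r w)))
      change ‖(r w).1 - _‖ < _ at h6
      rw [r_val hw.le] at h6 h7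
      rw [norm_mul, norm_one] at h5
      rw [hw] at h7
      nlinarith [norm_nonneg (v.1 (pt l 1 (r w)))]) (z := 0)
    (subset_closure (mem_ball_self one_pos))
  have h5 := congrArg norm (h1 (pt l 1 (r 0)))
  have h6 := h2 (pt l 1 (r 0))
  change ‖(r 0).1 - _‖ < _ at h6
  rw [r_val (by simp), zero_sub, norm_neg] at h6
  rw [norm_mul, norm_one] at h5
  nlinarith [norm_nonneg (v.1 (pt l 1 (r 0))), norm_nonneg (u.1 (pt l 1 (r 0)))]

lemma exists_B : ∃ (B : Type) (_ : NormedCommRing B) (_ : NormedAlgebra ℂ B) (_ : NormOneClass B)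
    (_ : CompleteSpace B) (z : B), ∀ u : B, IsUnit u → 1 / 2 ≤ ‖z - u‖ :=
  ⟨GS.A, inferInstance, inferInstance, ⟨GS.norm_oneA⟩, inferInstance, GS.Z, far⟩

/-- Constructor. -/
def mkAl (n : ℕ) (c : ℂ) (b : B) : Al B n := (c, b)

lemma far_gen [NormOneClass B] (z : B) (hz : ∀ u : B, IsUnit u → 1 / 2 ≤ ‖z - u‖) (n : ℕ)
    (u : Al B n) (hu : IsUnit u) : 1 / 2 ≤ ‖mkAl n 0 z - u‖ := by
  obtain ⟨v, hv⟩ := hu.exists_right_inv
  have h1 : u.2 * v.2 = 1 := (congrArg (fun x : Al B n => x.2) hv :)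
  exact (hz u.2 (IsUnit.of_mul_eq_one _ h1)).trans (snd_le (mkAl n 0 z - u))

end Pool.Agent.Lib.helper3.AS
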