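import Mathlib

set_option autoImplicit false

/-! Fourth-moment maximal inequalities for rectangular partial sums. -/

namespace Pool.Agent.Lib.H3BCO

open MeasureTheory Set Filter Topology Finset

variable {Ω : Type*} [MeasurableSpace Ω] {μ : Measure Ω}

theorem add_pow_four_le {x y : ℝ} (hx : 0 ≤ x) (hy : 0 ≤ y) :
    (x + y) ^ 4 ≤ 14641 * x ^ 4 + 3 / 2 * y ^ 4 := by
  rcases le_total (10 * x) y with h | h
  · have h1 : x + y ≤ 11 / 10 * y := by linarith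
    have h2 : (x + y) ^ 4 ≤ (11 / 10 * y) ^ 4 := by gcongr
    have h3 : 0 ≤ x ^ 4 := by positivity
    have h4 : 0 ≤ y ^ 4 := by positivity
    nlinarith
  · have h1 : x + y ≤ 11 * x := by linarith
    have h2 : (x + y) ^ 4 ≤ (11 * x) ^ 4 := by gcongr
    have h4 : 0 ≤ y ^ 4 := by positivity
    nlinarith

theorem exists_split (w : ℕ → ℝ) (hw : ∀ j, 0 ≤ w j) {a c : ℕ} (hac : a < c) :
    ∃ h, a ≤ h ∧ h < c ∧ ∑ j ∈ Ico a h, w j ≤ (∑ j ∈ Ico a c, w j) / 2 ∧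
      ∑ j ∈ Ico (h + 1) c, w j ≤ (∑ j ∈ Ico a c, w j) / 2 := by
  classical
  have hu : 0 ≤ ∑ j ∈ Ico a c, w j := sum_nonneg fun j _ => hw j
  have hex : ∃ h, a ≤ h ∧ ∑ j ∈ Ico (h + 1) c, w j ≤ (∑ j ∈ Ico a c, w j) / 2 :=
    ⟨c - 1, by omega, by rw [show c - 1 + 1 = c by omega]; simp; linarith⟩
  have h1 := Nat.find_spec hex
  have h2 : Nat.find hex ≤ c - 1 :=
    Nat.find_min' hex ⟨by omega, by rw [show c - 1 + 1 = c by omega]; simp; linarith⟩
  refine ⟨Nat.find hex, h1.1, by omega, ?_, h1.2⟩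
  rcases eq_or_lt_of_le h1.1 with h3 | h3
  · rw [← h3]; simp; linarith
  · have h4 := Nat.find_min hex (m := Nat.find hex - 1) (by omega)
    rw [show Nat.find hex - 1 + 1 = Nat.find hex by omega] at h4
    have h5 : ¬ ∑ j ∈ Ico (Nat.find hex) c, w j ≤ (∑ j ∈ Ico a c, w j) / 2 :=
      fun h => h4 ⟨by omega, h⟩
    have h6 := sum_Ico_consecutive w h1.1 (show Nat.find hex ≤ c by omega)
    linarith

theorem moricz {T : Type*} (F : T → ℕ → ℕ → Ω → ℝ) (w : ℕ → ℝ) (hw : ∀ j, 0 ≤ w j) (K : ℝ)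
    (hK : 0 ≤ K) (hF0 : ∀ t a b z, 0 ≤ F t a b z)
    (hsub : ∀ t a h b z, a ≤ h → h ≤ b → F t a b z ≤ F t a h z + F t h b z)
    (hZ : ∀ a b, a ≤ b → ∃ Z : Ω → ℝ, Integrable Z μ ∧ (∀ z, 0 ≤ Z z) ∧
      (∀ t z, F t a b z ^ 4 ≤ Z z) ∧ ∫ z, Z z ∂μ ≤ K * (∑ j ∈ Ico a b, w j) ^ 2)
    (d : ℕ) : ∀ a c, c - a = d → ∃ Z : Ω → ℝ, Integrable Z μ ∧ (∀ z, 0 ≤ Z z) ∧
      (∀ t b z, a ≤ b → b ≤ c → F t a b z ^ 4 ≤ Z z) ∧
      ∫ z, Z z ∂μ ≤ 50000 * K * (∑ j ∈ Ico a c, w j) ^ 2 := by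
  induction d using Nat.strong_induction_on with
  | _ d ih =>
  intro a c hd
  rcases le_or_gt c a with hca | hac
  · obtain ⟨Z, h1, h2, h3, h4⟩ := hZ a a le_rfl
    refine ⟨Z, h1, h2, fun t b z hab hbc => ?_, ?_⟩
    · have : b = a := by omega
      rw [this]; exact h3 t z
    · rw [Finset.Ico_eq_empty_of_le hca]
      simpa using h4
  · obtain ⟨h, ha, hc, hl, hr⟩ := exists_split w hw hac
    obtain ⟨Z1, a1, a2, a3, a4⟩ := ih (h - a) (by omega) a h rfl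
    obtain ⟨Z2, b1, b2, b3, b4⟩ := ih (c - (h + 1)) (by omega) (h + 1) c rfl
    obtain ⟨Z0, c1, c2, c3, c4⟩ := hZ a (h + 1) (by omega)
    set u := ∑ j ∈ Ico a c, w j with hu
    have hn : ∀ x y, 0 ≤ ∑ j ∈ Ico x y, w j := fun _ _ => sum_nonneg fun j _ => hw j
    have hu0 : ∑ j ∈ Ico a (h + 1), w j ≤ u :=
      sum_le_sum_of_subset_of_nonneg (Finset.Ico_subset_Ico_right (by omega)) fun j _ _ => hw j
    refine ⟨fun z => Z1 z + (14641 * Z0 z + 3 / 2 * Z2 z),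
      a1.add ((c1.const_mul _).add (b1.const_mul _)), fun z => ?_, fun t b z hab hbc => ?_, ?_⟩
    · have := a2 z; have := b2 z; have := c2 z; positivity
    · have := a2 z; have := b2 z; have := c2 z
      rcases le_or_gt b h with hb | hb
      · have := a3 t b z hab hb
        linarith
      · have h1 := hsub t a (h + 1) b z (by omega) hb
        have h2 : F t a b z ^ 4 ≤ (F t a (h + 1) z + F t (h + 1) b z) ^ 4 :=
          pow_le_pow_left₀ (hF0 _ _ _ _) h1 4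
        have h3 := add_pow_four_le (hF0 t a (h + 1) z) (hF0 t (h + 1) b z)
        have h4 := c3 t z
        have h5 := b3 t b z hb hbc
        linarith
    · have i1 : Integrable (fun z => 14641 * Z0 z) μ := c1.const_mul _
      have i2 : Integrable (fun z => 3 / 2 * Z2 z) μ := b1.const_mul _
      have i3 : Integrable (fun z => 14641 * Z0 z + 3 / 2 * Z2 z) μ := i1.add i2
      simp only
      rw [integral_add a1 i3, integral_add i1 i2, integral_const_mul, integral_const_mul]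
      have e1 : (∑ j ∈ Ico a h, w j) ^ 2 ≤ (u / 2) ^ 2 := pow_le_pow_left₀ (hn _ _) hl 2
      have e2 : (∑ j ∈ Ico (h + 1) c, w j) ^ 2 ≤ (u / 2) ^ 2 := pow_le_pow_left₀ (hn _ _) hr 2
      have e3 : (∑ j ∈ Ico a (h + 1), w j) ^ 2 ≤ u ^ 2 := pow_le_pow_left₀ (hn _ _) hu0 2
      have f1 := mul_le_mul_of_nonneg_left e1 hK
      have f2 := mul_le_mul_of_nonneg_left e2 hK
      have f3 := mul_le_mul_of_nonneg_left e3 hK
      have f4 : 0 ≤ K * u ^ 2 := by positivity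
      nlinarith

/-- The fourth moment property for rectangles. -/
def S4 (μ : Measure Ω) (ψ : ℕ → ℕ → Ω → ℝ) (K : ℝ) : Prop :=
  ∀ (a : ℕ → ℕ → ℝ) (A B : Finset ℕ),
    Integrable (fun z => (∑ i ∈ A, ∑ k ∈ B, a i k * ψ i k z) ^ 4) μ ∧
    ∫ z, (∑ i ∈ A, ∑ k ∈ B, a i k * ψ i k z) ^ 4 ∂μ ≤ K * (∑ i ∈ A, ∑ k ∈ B, a i k ^ 2) ^ 2

theorem max2 {ψ : ℕ → ℕ → Ω → ℝ} {K : ℝ} (hK : 0 ≤ K) (h : S4 μ ψ K) (a : ℕ → ℕ → ℝ) (M : ℕ) :
    ∃ Z : Ω → ℝ, Integrable Z μ ∧ (∀ z, 0 ≤ Z z) ∧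
      (∀ m n z, m ≤ M → n ≤ M → |∑ i ∈ range m, ∑ k ∈ range n, a i k * ψ i k z| ^ 4 ≤ Z z) ∧
      ∫ z, Z z ∂μ ≤ 50000 * (50000 * K) * (∑ i ∈ range M, ∑ k ∈ range M, a i k ^ 2) ^ 2 := by
  have step1 : ∀ i0 i1 : ℕ, ∃ Z : Ω → ℝ, Integrable Z μ ∧ (∀ z, 0 ≤ Z z) ∧
      (∀ (t : Fin (M + 1)) z, |∑ i ∈ Ico i0 i1, ∑ k ∈ range t, a i k * ψ i k z| ^ 4 ≤ Z z) ∧
      ∫ z, Z z ∂μ ≤ 50000 * K * (∑ i ∈ Ico i0 i1, ∑ k ∈ range M, a i k ^ 2) ^ 2 := by
    intro i0 i1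
    obtain ⟨Z, h1, h2, h3, h4⟩ := moricz (μ := μ) (T := Unit)
      (fun _ x y z => |∑ i ∈ Ico i0 i1, ∑ k ∈ Ico x y, a i k * ψ i k z|)
      (fun k => ∑ i ∈ Ico i0 i1, a i k ^ 2) (fun k => sum_nonneg fun _ _ => sq_nonneg _) K hK
      (fun _ _ _ _ => abs_nonneg _)
      (by
        intro _ x y v z hxy hyv
        refine le_trans (le_of_eq ?_) (abs_add_le _ _)
        rw [← sum_add_distrib]
        congr 1
        exact sum_congr rfl fun i _ => (sum_Ico_consecutive _ hxy hyv).symm)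
      (by
        intro x y _
        obtain ⟨g1, g2⟩ := h a (Ico i0 i1) (Ico x y)
        refine ⟨_, g1, fun z => by positivity, fun _ z => ?_, ?_⟩
        · rw [← abs_pow]; exact (abs_of_nonneg (by positivity)).le
        · rw [sum_comm]; exact g2)
      M 0 M rfl
    refine ⟨Z, h1, h2, fun t z => ?_, ?_⟩
    · have := h3 () t z (Nat.zero_le _) (by omega)
      simpa only [Nat.Ico_zero_eq_range] using this
    · rw [sum_comm]
      simpa only [Nat.Ico_zero_eq_range] using h4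
  obtain ⟨Z, h1, h2, h3, h4⟩ := moricz (μ := μ) (T := Fin (M + 1))
    (fun t x y z => |∑ i ∈ Ico x y, ∑ k ∈ range t, a i k * ψ i k z|)
    (fun i => ∑ k ∈ range M, a i k ^ 2) (fun k => sum_nonneg fun _ _ => sq_nonneg _)
    (50000 * K) (by positivity) (fun _ _ _ _ => abs_nonneg _)
    (by
      intro _ x y v z hxy hyv
      refine le_trans (le_of_eq ?_) (abs_add_le _ _)
      rw [sum_Ico_consecutive _ hxy hyv])
    (fun x y _ => step1 x y) M 0 M rfl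
  refine ⟨Z, h1, h2, fun m n z hm hn => ?_, ?_⟩
  · have := h3 ⟨n, by omega⟩ m z (Nat.zero_le _) hm
    simpa only [Nat.Ico_zero_eq_range] using this
  · simpa only [Nat.Ico_zero_eq_range] using h4

theorem meas_max {ψ : ℕ → ℕ → Ω → ℝ} [IsFiniteMeasure μ] {K : ℝ} (hK : 0 ≤ K) (h : S4 μ ψ K)
    (a : ℕ → ℕ → ℝ) (ρ ε : ℝ) (hε : 0 < ε)
    (hρ : ∀ M, ∑ i ∈ range M, ∑ k ∈ range M, a i k ^ 2 ≤ ρ) :
    μ {z | ∃ m n, ε ≤ |∑ i ∈ range m, ∑ k ∈ range n, a i k * ψ i k z|}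
      ≤ ENNReal.ofReal (50000 * (50000 * K) * ρ ^ 2 / ε ^ 4) := by
  set A : ℕ → Set Ω := fun M => {z | ∃ m n, m ≤ M ∧ n ≤ M ∧
    ε ≤ |∑ i ∈ range m, ∑ k ∈ range n, a i k * ψ i k z|} with hA
  have hmono : Monotone A := by
    rintro M M' hM z ⟨m, n, h1, h2, h3⟩
    exact ⟨m, n, h1.trans hM, h2.trans hM, h3⟩
  have hU : {z | ∃ m n, ε ≤ |∑ i ∈ range m, ∑ k ∈ range n, a i k * ψ i k z|} = ⋃ M, A M := by
    ext z
    simp only [mem_iUnion, hA, mem_ofPred_eq]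
    constructor
    · rintro ⟨m, n, h3⟩
      exact ⟨max m n, m, n, le_max_left _ _, le_max_right _ _, h3⟩
    · rintro ⟨M, m, n, -, -, h3⟩
      exact ⟨m, n, h3⟩
  rw [hU, hmono.measure_iUnion]
  refine iSup_le fun M => ?_
  obtain ⟨Z, h1, h2, h3, h4⟩ := max2 hK h a M
  have hsub : A M ⊆ {z | ε ^ 4 ≤ Z z} := by
    rintro z ⟨m, n, g1, g2, g3⟩
    exact (pow_le_pow_left₀ hε.le g3 4).trans (h3 m n z g1 g2)
  refine (measure_mono hsub).trans ?_
  rw [← ofReal_measureReal]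
  apply ENNReal.ofReal_le_ofReal
  have h5 := mul_meas_ge_le_integral_of_nonneg (Eventually.of_forall h2) h1 (ε ^ 4)
  rw [le_div_iff₀ (by positivity)]
  have h6 : (∑ i ∈ range M, ∑ k ∈ range M, a i k ^ 2) ^ 2 ≤ ρ ^ 2 :=
    pow_le_pow_left₀ (sum_nonneg fun _ _ => sum_nonneg fun _ _ => sq_nonneg _) (hρ M) 2
  have h7 := mul_le_mul_of_nonneg_left h6 (show 0 ≤ 50000 * (50000 * K) by positivity)
  linarith

theorem conv2 {ψ : ℕ → ℕ → Ω → ℝ} [IsFiniteMeasure μ] {K : ℝ} (hK : 0 ≤ K) (h : S4 μ ψ K)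
    (a : ℕ → ℕ → ℝ) (ha : Summable fun p : ℕ × ℕ => a p.1 p.2 ^ 2) :
    ∀ᵐ z ∂μ, ∃ s : ℝ, Tendsto
      (fun p : ℕ × ℕ => ∑ i ∈ range p.1, ∑ k ∈ range p.2, a i k * ψ i k z) atTop (𝓝 s) := by
  classical
  set S : ℕ → ℕ → Ω → ℝ := fun m n z => ∑ i ∈ range m, ∑ k ∈ range n, a i k * ψ i k z with hS
  have key : ∀ ε : ℝ, 0 < ε → ∀ᵐ z ∂μ, ∃ N, ∀ m n, N ≤ m → N ≤ n → |S m n z - S N N z| < ε := by
    intro ε hε
    rw [ae_iff]
    refine le_antisymm (ENNReal.le_of_forall_pos_le_add fun δ hδ _ => ?_) zero_le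
    rw [zero_add]
    have hc : Tendsto (fun ρ : ℝ => 50000 * (50000 * K) * ρ ^ 2 / ε ^ 4) (𝓝 0)
        (𝓝 (50000 * (50000 * K) * 0 ^ 2 / ε ^ 4)) :=
      Continuous.tendsto (by fun_prop) 0
    simp only [ne_eq, OfNat.ofNat_ne_zero, not_false_eq_true, zero_pow, mul_zero, zero_div] at hc
    obtain ⟨η, hη, hη'⟩ := Metric.eventually_nhds_iff.1
      (hc.eventually_le_const (show (0 : ℝ) < δ by exact_mod_cast hδ))
    obtain ⟨s, hs⟩ := summable_iff_vanishing_norm.1 ha (η / 2) (by positivity)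
    obtain ⟨N, hN⟩ : ∃ N, ∀ p ∈ s, p.1 < N ∧ p.2 < N := by
      refine ⟨s.sup (fun p => p.1 + p.2) + 1, fun p hp => ?_⟩
      have := Finset.le_sup (f := fun p : ℕ × ℕ => p.1 + p.2) hp
      constructor <;> omega
    set a' : ℕ → ℕ → ℝ := fun i k => if i < N ∧ k < N then 0 else a i k with ha'
    have hρ : ∀ M, ∑ i ∈ range M, ∑ k ∈ range M, a' i k ^ 2 ≤ η / 2 := by
      intro M
      have h1 := hs ((range M ×ˢ range M).filter fun p => ¬ (p.1 < N ∧ p.2 < N)) (by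
        rw [Finset.disjoint_left]
        intro p hp hp'
        exact (mem_filter.1 hp).2 (hN p hp'))
      rw [sum_filter, sum_product] at h1
      refine le_trans (le_of_eq ?_) ((le_abs_self _).trans h1.le)
      refine sum_congr rfl fun i _ => sum_congr rfl fun k _ => ?_
      simp only [ha']
      split_ifs <;> simp
    have h2 := meas_max hK h a' (η / 2) ε hε hρ
    have h3 := hη' (y := η / 2) (by rw [Real.dist_eq, sub_zero, abs_of_pos (by positivity)]; linarith)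
    refine le_trans (measure_mono ?_) (h2.trans ?_)
    · intro z hz
      simp only [mem_ofPred_eq] at hz ⊢
      push Not at hz
      obtain ⟨m, n, hm, hn, hmn⟩ := hz N
      refine ⟨m, n, hmn.trans (le_of_eq ?_)⟩
      congr 1
      have e1 : S N N z = ∑ i ∈ range m, ∑ k ∈ range n,
          (if i < N ∧ k < N then a i k * ψ i k z else 0) := by
        rw [hS]
        simp only
        rw [← sum_product', ← sum_product', ← sum_filter]
        apply sum_congr _ fun _ _ => rfl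
        ext p
        simp only [Finset.mem_product, Finset.mem_range, Finset.mem_filter]
        omega
      rw [e1, hS]
      simp only
      rw [← sum_sub_distrib]
      refine sum_congr rfl fun i _ => ?_
      rw [← sum_sub_distrib]
      refine sum_congr rfl fun k _ => ?_
      simp only [ha']
      split_ifs <;> simp
    · rw [← ENNReal.ofReal_coe_nnreal]
      exact ENNReal.ofReal_le_ofReal h3
  have key2 : ∀ᵐ z ∂μ, ∀ j : ℕ, ∃ N, ∀ m n, N ≤ m → N ≤ n →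
      |S m n z - S N N z| < 1 / ((j : ℝ) + 1) :=
    ae_all_iff.2 fun j => key _ (by positivity)
  filter_upwards [key2] with z hz
  apply cauchySeq_tendsto_of_complete
  rw [Metric.cauchySeq_iff']
  intro ε hε
  obtain ⟨j, hj⟩ := exists_nat_one_div_lt hε
  obtain ⟨N, hN⟩ := hz j
  exact ⟨(N, N), fun p hp => (hN p.1 p.2 hp.1 hp.2).trans hj⟩

end Pool.Agent.Lib.H3BCO
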