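import Mathlib

set_option autoImplicit false

/-! Householder mixing of orthonormal families for a symmetric bilinear form. -/

namespace Pool.Agent.Lib.H3BCO

open Finset

variable {V : Type*} [AddCommGroup V] [Module ℝ V] {ι κ : Type*} [DecidableEq ι] [DecidableEq κ]

/-- Orthonormality for a bilinear form. -/
def ON (B : V →ₗ[ℝ] V →ₗ[ℝ] ℝ) (x : ι → V) : Prop := ∀ i j, B (x i) (x j) = if i = j then 1 else 0

/-- The block sum. -/
def bs (x : ι → V) (Fb : κ → Finset ι) (b : κ) : V := ∑ j ∈ Fb b, x j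

/-- A vector minus its block mean. -/
noncomputable def uu (x : ι → V) (β : ι → κ) (Fb : κ → Finset ι) (i : ι) : V :=
  x i - ((Fb (β i)).card : ℝ)⁻¹ • bs x Fb (β i)

/-- The mixed vector. -/
noncomputable def zz (x : ι → V) (β : ι → κ) (Fb : κ → Finset ι) (y : κ → V) (i : ι) : V :=
  uu x β Fb i + (√((Fb (β i)).card : ℝ))⁻¹ • y (β i)

section
variable {B : V →ₗ[ℝ] V →ₗ[ℝ] ℝ} {x : ι → V} {β : ι → κ} {Fb : κ → Finset ι} {y : κ → V}

theorem x_bs (hx : ON B x) (hF : ∀ i b, i ∈ Fb b ↔ β i = b) (i : ι) (b : κ) :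
    B (x i) (bs x Fb b) = if β i = b then 1 else 0 := by
  rw [bs, map_sum]
  simp only [hx i, sum_ite_eq, hF]

theorem bs_bs (hx : ON B x) (hF : ∀ i b, i ∈ Fb b ↔ β i = b) (b b' : κ) :
    B (bs x Fb b) (bs x Fb b') = if b = b' then ((Fb b).card : ℝ) else 0 := by
  conv_lhs => rw [bs]
  rw [map_sum, LinearMap.sum_apply]
  rw [sum_congr rfl (g := fun _ => if b = b' then (1 : ℝ) else 0)
    (fun i hi => by rw [x_bs hx hF, (hF i b).1 hi])]
  split_ifs <;> simp

omit [DecidableEq ι] [DecidableEq κ] in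
theorem card_pos' (hF : ∀ i b, i ∈ Fb b ↔ β i = b) (i : ι) : (0 : ℝ) < (Fb (β i)).card := by
  exact_mod_cast card_pos.2 ⟨i, (hF i _).2 rfl⟩

theorem uu_bs (hx : ON B x) (hF : ∀ i b, i ∈ Fb b ↔ β i = b) (i : ι) (b : κ) :
    B (uu x β Fb i) (bs x Fb b) = 0 := by
  rw [uu, map_sub, map_smul, LinearMap.sub_apply, LinearMap.smul_apply, x_bs hx hF, bs_bs hx hF]
  have := card_pos' hF i
  split_ifs
  · rw [smul_eq_mul, inv_mul_cancel₀ this.ne', sub_self]
  · simp

theorem uu_uu (hB : ∀ v w, B v w = B w v) (hx : ON B x) (hF : ∀ i b, i ∈ Fb b ↔ β i = b)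
    (i j : ι) : B (uu x β Fb i) (uu x β Fb j)
      = (if i = j then 1 else 0) - if β i = β j then ((Fb (β i)).card : ℝ)⁻¹ else 0 := by
  conv_lhs => arg 2; rw [uu]
  rw [map_sub, map_smul, uu_bs hx hF, smul_zero, sub_zero, hB, uu, map_sub, map_smul, hx j i,
    x_bs hx hF]
  simp only [eq_comm, smul_eq_mul, mul_ite, mul_one, mul_zero]

theorem bs_on (hx : ON B x) (hF : ∀ i b, i ∈ Fb b ↔ β i = b) (hne : ∀ b, (Fb b).Nonempty) :
    ON B fun b => (√((Fb b).card : ℝ))⁻¹ • bs x Fb b := by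
  intro b b'
  simp only [map_smul, LinearMap.smul_apply, smul_eq_mul, bs_bs hx hF]
  split_ifs with h
  · subst h
    have h1 : (0 : ℝ) < (Fb b).card := by exact_mod_cast card_pos.2 (hne b)
    have h2 := Real.mul_self_sqrt h1.le
    have h3 := Real.sqrt_pos.2 h1
    field_simp
    nlinarith
  · simp

theorem zz_on (hB : ∀ v w, B v w = B w v) (hx : ON B x) (hF : ∀ i b, i ∈ Fb b ↔ β i = b)
    (hy : ON B y) (hxy : ∀ i b, B (uu x β Fb i) (y b) = 0) : ON B (zz x β Fb y) := by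
  intro i j
  simp only [zz, map_add, map_smul, LinearMap.add_apply, LinearMap.smul_apply, smul_eq_mul]
  rw [hxy, hB (y (β i)) (uu x β Fb j), hxy, uu_uu hB hx hF, hy]
  by_cases h : β i = β j
  · have h1 := card_pos' hF i
    have h2 := Real.mul_self_sqrt h1.le
    have h3 := Real.sqrt_pos.2 h1
    rw [← h]
    simp only [if_true]
    have h4 : (√((Fb (β i)).card : ℝ))⁻¹ * ((√((Fb (β i)).card : ℝ))⁻¹ * 1)
        = ((Fb (β i)).card : ℝ)⁻¹ := by
      rw [mul_one, ← mul_inv, h2]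
    rw [mul_zero, add_zero, zero_add, h4]
    ring
  · simp [h]

omit [DecidableEq ι] [DecidableEq κ] in
theorem zz_complete (hF : ∀ i b, i ∈ Fb b ↔ β i = b) (hne : ∀ b, (Fb b).Nonempty)
    (l : V →ₗ[ℝ] ℝ) (h : ∀ i, l (zz x β Fb y i) = 0) :
    (∀ b, l (y b) = 0) ∧ ∀ i, l (x i) = ((Fb (β i)).card : ℝ)⁻¹ * l (bs x Fb (β i)) := by
  have h0 : ∀ b, l (y b) = 0 := by
    intro b
    have h1 : (0 : ℝ) < (Fb b).card := by exact_mod_cast card_pos.2 (hne b)
    have h3 := Real.sqrt_pos.2 h1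
    have h2 : ∑ i ∈ Fb b, l (zz x β Fb y i) = 0 := sum_eq_zero fun i _ => h i
    rw [sum_congr rfl (g := fun i => l (x i) - ((Fb b).card : ℝ)⁻¹ * l (bs x Fb b)
      + (√((Fb b).card : ℝ))⁻¹ * l (y b)) (fun i hi => by
        simp only [zz, uu, map_add, map_sub, map_smul, smul_eq_mul, (hF i b).1 hi])] at h2
    rw [sum_add_distrib, sum_sub_distrib, ← map_sum, ← bs, sum_const, sum_const, nsmul_eq_mul,
      nsmul_eq_mul, ← mul_assoc, mul_inv_cancel₀ h1.ne', one_mul, sub_self, zero_add] at h2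
    have h4 : ((Fb b).card : ℝ) * (√((Fb b).card : ℝ))⁻¹ ≠ 0 := by positivity
    rw [← mul_assoc] at h2
    exact (mul_eq_zero.1 h2).resolve_left h4
  refine ⟨h0, fun i => ?_⟩
  have h1 := h i
  simp only [zz, uu, map_add, map_sub, map_smul, smul_eq_mul, h0, mul_zero, add_zero] at h1
  linarith

theorem ON.norm_sum (hx : ON B x) (s : Finset ι) (a : ι → ℝ) :
    B (∑ i ∈ s, a i • x i) (∑ i ∈ s, a i • x i) = ∑ i ∈ s, a i ^ 2 := by
  simp only [map_sum, map_smul, LinearMap.sum_apply, LinearMap.smul_apply, smul_eq_mul, hx _ _,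
    mul_ite, mul_one, mul_zero]
  refine sum_congr rfl fun i hi => ?_
  rw [mul_sum]
  simp only [mul_ite, mul_zero, sum_ite_eq', hi, if_true]
  ring

end

end Pool.Agent.Lib.H3BCO
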