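import Mathlib
import Pool.Agent.Lib.helper3.BCOB

set_option autoImplicit false

/-! Haar and Rademacher functions of an abstract dyadic filtration. -/

namespace Pool.Agent.Lib.H3BCO

open MeasureTheory Filter Topology Finset

/-- An abstract dyadic filtration, given by the codes of its atoms. -/
structure Dy (Ω : Type*) [MeasurableSpace Ω] (μ : Measure Ω) where
  c : ℕ → Ω → ℕ
  meas : ∀ n, Measurable (c n)
  zero : ∀ z, c 0 z = 0
  succ : ∀ n z, c (n + 1) z / 2 = c n z
  int : ∀ n q, q < 2 ^ n → ∫ z, (if c n z = q then (1 : ℝ) else 0) ∂μ = (2 ^ n)⁻¹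

variable {Ω : Type*} [MeasurableSpace Ω] {μ : Measure Ω}

namespace Dy

variable (D : Dy Ω μ)

theorem c_lt (n : ℕ) (z : Ω) : D.c n z < 2 ^ n := by
  induction n with
  | zero => simp [D.zero]
  | succ n ih => have := D.succ n z; rw [pow_succ]; omega

/-- Functions of the level `n` atom. -/
def Fn (n : ℕ) (f : Ω → ℝ) : Prop := ∃ G : ℕ → ℝ, ∀ z, f z = G (D.c n z)

variable {D}

theorem Fn.succ {n : ℕ} {f : Ω → ℝ} (h : D.Fn n f) : D.Fn (n + 1) f := by
  obtain ⟨G, hG⟩ := h
  exact ⟨fun q => G (q / 2), fun z => by simp only [hG, D.succ]⟩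

theorem Fn.mono {n m : ℕ} {f : Ω → ℝ} (h : D.Fn n f) (hnm : n ≤ m) : D.Fn m f := by
  induction hnm with
  | refl => exact h
  | step _ ih => exact ih.succ

theorem Fn.op {n : ℕ} {f g : Ω → ℝ} (hf : D.Fn n f) (hg : D.Fn n g) (φ : ℝ → ℝ → ℝ) :
    D.Fn n fun z => φ (f z) (g z) := by
  obtain ⟨F, hF⟩ := hf
  obtain ⟨G, hG⟩ := hg
  exact ⟨fun q => φ (F q) (G q), fun z => by simp only [hF, hG]⟩

theorem Fn.meas {n : ℕ} {f : Ω → ℝ} (h : D.Fn n f) : Measurable f := by
  obtain ⟨G, hG⟩ := h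
  rw [show f = G ∘ D.c n from funext hG]
  exact measurable_from_nat.comp (D.meas n)

theorem Fn.bdd {n : ℕ} {f : Ω → ℝ} (h : D.Fn n f) : ∃ C, ∀ z, ‖f z‖ ≤ C := by
  obtain ⟨G, hG⟩ := h
  refine ⟨∑ q ∈ range (2 ^ n), ‖G q‖, fun z => ?_⟩
  rw [hG]
  exact single_le_sum (f := fun q => ‖G q‖) (fun _ _ => norm_nonneg _)
    (mem_range.2 (D.c_lt n z))

theorem Fn.int_mul {n : ℕ} {f g : Ω → ℝ} (h : D.Fn n g) (hf : Integrable f μ) :
    Integrable (fun z => f z * g z) μ := by
  obtain ⟨C, hC⟩ := h.bdd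
  exact hf.mul_bdd h.meas.aestronglyMeasurable (Eventually.of_forall hC)

theorem Fn.integrable [IsFiniteMeasure μ] {n : ℕ} {g : Ω → ℝ} (h : D.Fn n g) :
    Integrable g μ := by
  simpa using h.int_mul (integrable_const (1 : ℝ))

variable (D)

/-- The space of dyadic step functions. -/
def V : Submodule ℝ (Ω → ℝ) where
  carrier := {f | ∃ n, D.Fn n f}
  add_mem' := by
    rintro f g ⟨n, hf⟩ ⟨m, hg⟩
    exact ⟨max n m, (hf.mono (le_max_left _ _)).op (hg.mono (le_max_right _ _)) (· + ·)⟩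
  zero_mem' := ⟨0, fun _ => 0, fun _ => rfl⟩
  smul_mem' := by
    rintro a f ⟨n, hf⟩
    exact ⟨n, hf.op hf fun x _ => a * x⟩

theorem V_int_mul (v : D.V) {f : Ω → ℝ} (hf : Integrable f μ) :
    Integrable (fun z => f z * v.1 z) μ := by
  obtain ⟨n, hn⟩ := v.2
  exact hn.int_mul hf

theorem V_int [IsFiniteMeasure μ] (v : D.V) : Integrable v.1 μ := by
  obtain ⟨n, hn⟩ := v.2
  exact hn.integrable

theorem V_memLp [IsFiniteMeasure μ] (v : D.V) : MemLp v.1 2 μ := by
  obtain ⟨n, hn⟩ := v.2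
  obtain ⟨C, hC⟩ := hn.bdd
  exact MemLp.of_bound hn.meas.aestronglyMeasurable C (Eventually.of_forall hC)

theorem V_int_pow [IsFiniteMeasure μ] (v : D.V) (k : ℕ) : Integrable (fun z => v.1 z ^ k) μ := by
  obtain ⟨n, hn⟩ := v.2
  exact (hn.op hn fun x _ => x ^ k).integrable

/-- Integration against an integrable function. -/
noncomputable def ell (f : Ω → ℝ) (hf : Integrable f μ) : D.V →ₗ[ℝ] ℝ where
  toFun v := ∫ z, f z * v.1 z ∂μ
  map_add' v w := by
    rw [← integral_add (D.V_int_mul v hf) (D.V_int_mul w hf)]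
    simp [mul_add]
  map_smul' a v := by
    simp only [RingHom.id_apply, smul_eq_mul, ← integral_const_mul]
    congr 1; funext z; simp; ring

variable [IsProbabilityMeasure μ]

/-- The inner product. -/
noncomputable def ip : D.V →ₗ[ℝ] D.V →ₗ[ℝ] ℝ where
  toFun v := D.ell v.1 (D.V_int v)
  map_add' v w := by
    ext u
    simp only [ell, LinearMap.coe_mk, AddHom.coe_mk, LinearMap.add_apply]
    rw [← integral_add (D.V_int_mul u (D.V_int v)) (D.V_int_mul u (D.V_int w))]
    simp [add_mul]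
  map_smul' a v := by
    ext u
    simp only [ell, LinearMap.coe_mk, AddHom.coe_mk, RingHom.id_apply, LinearMap.smul_apply,
      smul_eq_mul, ← integral_const_mul]
    congr 1; funext z; simp; ring

theorem ip_apply (v w : D.V) : D.ip v w = ∫ z, v.1 z * w.1 z ∂μ := rfl

theorem ip_symm (v w : D.V) : D.ip v w = D.ip w v := by
  simp only [ip_apply, mul_comm]

theorem ip_nonneg (v : D.V) : 0 ≤ D.ip v v := integral_nonneg fun _ => mul_self_nonneg _

end Dy

/-- The indices of the Haar functions of level `n`. -/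
def FL (n : ℕ) : Finset ℕ := Ico (2 ^ n / 2) (2 ^ n)

theorem FL_zero : FL 0 = {0} := by decide

theorem FL_succ (n : ℕ) : FL (n + 1) = Ico (2 ^ n) (2 ^ (n + 1)) := by
  rw [FL, pow_succ, Nat.mul_div_cancel _ two_pos]

theorem mem_FL (b n : ℕ) : b ∈ FL n ↔ Nat.size b = n := by
  cases n with
  | zero => simp [FL_zero, Nat.size_eq_zero]
  | succ n =>
    rw [FL_succ, Finset.mem_Ico, ← Nat.lt_size, ← Nat.size_le]
    omega

theorem card_FL_succ (n : ℕ) : (FL (n + 1)).card = 2 ^ n := by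
  rw [FL_succ, Nat.card_Ico, pow_succ]; omega

theorem FL_ne (n : ℕ) : (FL n).Nonempty := by
  cases n with
  | zero => simp [FL_zero]
  | succ n => rw [← card_pos, card_FL_succ]; positivity

theorem card_FL_le (b : ℕ) : (FL (Nat.size b)).card ≤ 2 * b + 1 := by
  have h := (mem_FL b _).2 rfl
  generalize Nat.size b = n at h
  cases n with
  | zero => simp [FL_zero]
  | succ n => rw [card_FL_succ]; rw [FL_succ, Finset.mem_Ico] at h; omega

namespace Dy

variable (D : Dy Ω μ)

/-- The constant function followed by the Rademacher functions. -/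
def R0 : ℕ → Ω → ℝ
  | 0 => fun _ => 1
  | n + 1 => fun z => if D.c (n + 1) z % 2 = 1 then 1 else -1

/-- The index of the level `n` Haar function living at a point. -/
def e : ℕ → Ω → ℕ
  | 0 => fun _ => 0
  | n + 1 => fun z => 2 ^ n + D.c n z

theorem R0_sq (n : ℕ) (z : Ω) : D.R0 n z * D.R0 n z = 1 := by
  cases n with
  | zero => simp [R0]
  | succ n => simp only [R0]; split_ifs <;> norm_num

theorem R0_abs (n : ℕ) (z : Ω) : |D.R0 n z| = 1 := by
  cases n with
  | zero => simp [R0]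
  | succ n => simp only [R0]; split_ifs <;> norm_num

theorem R0_Fn (n : ℕ) : D.Fn n (D.R0 n) := by
  cases n with
  | zero => exact ⟨fun _ => 1, fun _ => rfl⟩
  | succ n => exact ⟨fun q => if q % 2 = 1 then 1 else -1, fun _ => rfl⟩

theorem e_mem (n : ℕ) (z : Ω) : D.e n z ∈ FL n := by
  cases n with
  | zero => simp [e, FL_zero]
  | succ n =>
    have := D.c_lt n z
    rw [FL_succ, Finset.mem_Ico, pow_succ]
    simp only [e]
    omega

theorem e_Fn (n : ℕ) (G : ℕ → ℝ) : D.Fn n fun z => G (D.e n z) := by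
  cases n with
  | zero => exact ⟨fun _ => G 0, fun _ => rfl⟩
  | succ n => exact Fn.succ ⟨fun q => G (2 ^ n + q), fun _ => rfl⟩

/-- The Haar functions. -/
noncomputable def H0 (b : ℕ) (z : Ω) : ℝ :=
  (if D.e (Nat.size b) z = b then √((FL (Nat.size b)).card : ℝ) else 0) * D.R0 (Nat.size b) z

theorem H0_Fn (b : ℕ) : D.Fn (Nat.size b) (D.H0 b) :=
  (D.e_Fn _ fun q => if q = b then √((FL (Nat.size b)).card : ℝ) else 0).op (D.R0_Fn _) (· * ·)

/-- Rademacher functions as step functions. -/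
def R (n : ℕ) : D.V := ⟨D.R0 n, n, D.R0_Fn n⟩

/-- Haar functions as step functions. -/
noncomputable def H (b : ℕ) : D.V := ⟨D.H0 b, _, D.H0_Fn b⟩

theorem X_apply (d : ℕ → ℝ) (n : ℕ) (z : Ω) :
    (∑ b ∈ FL n, d b • D.H b).1 z = d (D.e n z) * √((FL n).card : ℝ) * D.R0 n z := by
  rw [Submodule.coe_sum, Finset.sum_apply, sum_eq_single (D.e n z)]
  · have h := (mem_FL _ _).1 (D.e_mem n z)
    simp [H, H0, h, mul_assoc]
  · intro b hb hne
    have h := (mem_FL _ _).1 hb
    simp [H, H0, h, hne.symm]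
  · intro h; exact absurd (D.e_mem n z) h

theorem bs_H (n : ℕ) : bs D.H FL n = √((FL n).card : ℝ) • D.R n := by
  ext z
  have := D.X_apply (fun _ => 1) n z
  simp only [one_smul, one_mul] at this
  rw [bs, this]
  simp [R]

variable [IsProbabilityMeasure μ]

variable {D} in
theorem Fn.orth {n : ℕ} {g : Ω → ℝ} (h : D.Fn n g) : ∫ z, g z * D.R0 (n + 1) z ∂μ = 0 := by
  obtain ⟨G, hG⟩ := h
  have hi : ∀ q, Integrable (fun z => if D.c (n + 1) z = q then (1 : ℝ) else 0) μ := fun q =>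
    Fn.integrable (D := D) (n := n + 1) ⟨fun r => if r = q then 1 else 0, fun _ => rfl⟩
  have h1 : (fun z => g z * D.R0 (n + 1) z) = fun z => ∑ q ∈ range (2 ^ n), G q *
      ((if D.c (n + 1) z = 2 * q + 1 then (1 : ℝ) else 0)
        - if D.c (n + 1) z = 2 * q then (1 : ℝ) else 0) := by
    funext z
    have h2 := D.succ n z
    rw [sum_eq_single (D.c n z), hG]
    · congr 1
      simp only [R0]
      split_ifs <;> first | omega | norm_num
    · intro q _ hq
      rw [if_neg (by omega), if_neg (by omega)]; simp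
    · intro h; exact absurd (mem_range.2 (D.c_lt n z)) h
  have hi2 : ∀ q, Integrable (fun z => G q *
      ((if D.c (n + 1) z = 2 * q + 1 then (1 : ℝ) else 0)
        - if D.c (n + 1) z = 2 * q then (1 : ℝ) else 0)) μ :=
    fun q => ((hi _).sub (hi _)).const_mul _
  rw [h1, integral_finsetSum _ fun q _ => hi2 q]
  refine sum_eq_zero fun q hq => ?_
  have hq' := mem_range.1 hq
  rw [integral_const_mul, integral_sub (hi _) (hi _), D.int _ _ (by rw [pow_succ]; omega),
    D.int _ _ (by rw [pow_succ]; omega), sub_self, mul_zero]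

theorem int_e (n b : ℕ) (hb : b ∈ FL n) :
    ∫ z, (if D.e n z = b then (1 : ℝ) else 0) ∂μ = ((FL n).card : ℝ)⁻¹ := by
  cases n with
  | zero =>
    rw [FL_zero, Finset.mem_singleton] at hb
    simp [e, hb, FL_zero]
  | succ n =>
    rw [card_FL_succ]
    rw [FL_succ, Finset.mem_Ico, pow_succ] at hb
    have h := D.int n (b - 2 ^ n) (by omega)
    push_cast
    rw [← h]
    congr 1
    funext z
    simp only [e]
    exact if_congr (by omega) rfl rfl

theorem H_orth_lt {b b' : ℕ} (h : Nat.size b < Nat.size b') : D.ip (D.H b) (D.H b') = 0 := by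
  obtain ⟨n, hn⟩ : ∃ n, Nat.size b' = n + 1 := ⟨Nat.size b' - 1, by omega⟩
  have h1 : D.Fn n (D.H0 b) := (D.H0_Fn b).mono (by omega)
  have h2 : D.Fn n fun z => if D.e (n + 1) z = b' then √((FL (n + 1)).card : ℝ) else 0 :=
    ⟨fun q => if 2 ^ n + q = b' then √((FL (n + 1)).card : ℝ) else 0, fun _ => rfl⟩
  rw [ip_apply, ← (h1.op h2 (· * ·)).orth]
  congr 1
  funext z
  simp only [H, H0, hn, mul_assoc]

theorem H_on : ON D.ip D.H := by
  intro b b'
  rcases lt_trichotomy (Nat.size b) (Nat.size b') with h | h | h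
  · rw [D.H_orth_lt h, if_neg (by rintro rfl; omega)]
  · have h0 : (0 : ℝ) < (FL (Nat.size b)).card := by exact_mod_cast card_pos.2 (FL_ne _)
    have h1 : ∀ z, (D.H b).1 z * (D.H b').1 z = (if b = b' then ((FL (Nat.size b)).card : ℝ) else 0)
        * if D.e (Nat.size b) z = b then (1 : ℝ) else 0 := by
      intro z
      simp only [H, H0, ← h]
      have h2 := D.R0_sq (Nat.size b) z
      have h3 := Real.mul_self_sqrt h0.le
      by_cases h4 : D.e (Nat.size b) z = b
      · by_cases h5 : b = b'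
        · subst h5
          simp only [h4, if_true]
          linear_combination (D.R0 (Nat.size b) z * D.R0 (Nat.size b) z) * h3
            + ((FL (Nat.size b)).card : ℝ) * h2
        · have h6 : ¬ D.e (Nat.size b) z = b' := fun h7 => h5 (h4.symm.trans h7)
          rw [if_neg h6, if_neg h5]; simp
      · simp [h4]
    rw [ip_apply]
    simp only [h1]
    rw [integral_const_mul, D.int_e _ _ ((mem_FL _ _).2 rfl)]
    split_ifs
    · exact mul_inv_cancel₀ h0.ne'
    · simp
  · rw [D.ip_symm, D.H_orth_lt h, if_neg (by rintro rfl; omega)]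

omit [IsProbabilityMeasure μ] in
theorem R_eq (n : ℕ) : D.R n = (√((FL n).card : ℝ))⁻¹ • bs D.H FL n := by
  have h0 : (0 : ℝ) < (FL n).card := by exact_mod_cast card_pos.2 (FL_ne _)
  rw [bs_H, smul_smul, inv_mul_cancel₀ (Real.sqrt_pos.2 h0).ne', one_smul]

theorem R_on : ON D.ip D.R := by
  have := bs_on D.H_on mem_FL FL_ne
  simpa only [← D.R_eq] using this

theorem khin (a : ℕ → ℝ) (n : ℕ) : D.Fn n (∑ j ∈ range (n + 1), a j • D.R j).1 ∧
    ∫ z, (∑ j ∈ range (n + 1), a j • D.R j).1 z ^ 4 ∂μ ≤ 3 * (∑ j ∈ range (n + 1), a j ^ 2) ^ 2 := by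
  induction n with
  | zero =>
    refine ⟨⟨fun _ => a 0, fun z => by simp [R, R0]⟩, ?_⟩
    simp [R, R0]
    nlinarith [sq_nonneg (a 0 ^ 2)]
  | succ n ih =>
    obtain ⟨h1, h2⟩ := ih
    have h3 := D.R_on.norm_sum (range (n + 1)) a
    rw [sum_range_succ _ (n + 1), sum_range_succ _ (n + 1)]
    set v := ∑ j ∈ range (n + 1), a j • D.R j with hv
    set s := ∑ j ∈ range (n + 1), a j ^ 2 with hs
    set t := a (n + 1) with ht
    refine ⟨h1.succ.op (D.R0_Fn (n + 1)) fun x y => x + t * y, ?_⟩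
    have h4 : (fun z => (v + t • D.R (n + 1)).1 z ^ 4) = fun z =>
        (v.1 z ^ 4 + (6 * t ^ 2 * (v.1 z * v.1 z) + t ^ 4))
          + (4 * t * v.1 z ^ 3 + 4 * t ^ 3 * v.1 z) * D.R0 (n + 1) z := by
      funext z
      have h5 := D.R0_sq (n + 1) z
      change (v.1 z + t * D.R0 (n + 1) z) ^ 4 = _
      generalize D.R0 (n + 1) z = r at h5 ⊢
      linear_combination (6 * t ^ 2 * v.1 z ^ 2 + 4 * t ^ 3 * v.1 z * r + t ^ 4 * (r ^ 2 + 1)) * h5
    have f1 : D.Fn n fun z => 4 * t * v.1 z ^ 3 + 4 * t ^ 3 * v.1 z :=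
      h1.op h1 fun x _ => 4 * t * x ^ 3 + 4 * t ^ 3 * x
    have i1 : Integrable (fun z => v.1 z ^ 4) μ := D.V_int_pow v 4
    have i2 : Integrable (fun z => 6 * t ^ 2 * (v.1 z * v.1 z)) μ :=
      (D.V_int_mul v (D.V_int v)).const_mul _
    have i3 : Integrable (fun z => 6 * t ^ 2 * (v.1 z * v.1 z) + t ^ 4) μ :=
      i2.add (integrable_const _)
    have i4 : Integrable (fun z => v.1 z ^ 4 + (6 * t ^ 2 * (v.1 z * v.1 z) + t ^ 4)) μ := i1.add i3
    have i5 : Integrable (fun z => (4 * t * v.1 z ^ 3 + 4 * t ^ 3 * v.1 z) * D.R0 (n + 1) z) μ :=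
      (D.R0_Fn _).int_mul f1.integrable
    rw [h4, integral_add i4 i5, f1.orth, integral_add i1 i3, integral_add i2 (integrable_const _),
      integral_const_mul, ← ip_apply, h3]
    simp only [integral_const, probReal_univ, smul_eq_mul, one_mul]
    nlinarith [sq_nonneg (t ^ 2)]

theorem khin_span (v : D.V) (hv : v ∈ Submodule.span ℝ (Set.range D.R)) :
    ∫ z, v.1 z ^ 4 ∂μ ≤ 3 * D.ip v v ^ 2 := by
  obtain ⟨a, rfl⟩ := Finsupp.mem_span_range_iff_exists_finsupp.1 hv
  obtain ⟨n, hn⟩ : ∃ n, a.support ⊆ range (n + 1) :=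
    ⟨a.support.sup id, fun j hj => mem_range.2 (Nat.lt_succ_of_le (le_sup (f := id) hj))⟩
  rw [Finsupp.sum_of_support_subset _ hn _ (by simp), D.R_on.norm_sum]
  exact (D.khin a n).2

omit [IsProbabilityMeasure μ] in
theorem H_complete (l : D.V →ₗ[ℝ] ℝ) (h : ∀ b, l (D.H b) = 0) (v : D.V) : l v = 0 := by
  obtain ⟨f, n, hn⟩ := v
  induction n generalizing f with
  | zero =>
    obtain ⟨G, hG⟩ := hn
    have : (⟨f, 0, G, hG⟩ : D.V) = G 0 • D.H 0 := by
      ext z
      simp [hG, D.zero, H, H0, e, R0, FL_zero]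
    rw [this, map_smul, h, smul_zero]
  | succ n ih =>
    obtain ⟨G, hG⟩ := hn
    have hA : D.Fn n fun z => (G (2 * D.c n z) + G (2 * D.c n z + 1)) / 2 :=
      ⟨fun q => (G (2 * q) + G (2 * q + 1)) / 2, fun _ => rfl⟩
    have h0 : (0 : ℝ) < √((FL (n + 1)).card : ℝ) :=
      Real.sqrt_pos.2 (by exact_mod_cast card_pos.2 (FL_ne _))
    have : (⟨f, n + 1, G, hG⟩ : D.V) = ⟨_, n, hA⟩ + ∑ b ∈ FL (n + 1),
        ((G (2 * (b - 2 ^ n) + 1) - G (2 * (b - 2 ^ n))) / 2 / √((FL (n + 1)).card : ℝ))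
          • D.H b := by
      ext z
      rw [Submodule.coe_add, Pi.add_apply, X_apply, div_mul_cancel₀ _ h0.ne']
      simp only [e, Nat.add_sub_cancel_left, R0, hG]
      have h2 := D.succ n z
      split_ifs with h3
      · rw [show D.c (n + 1) z = 2 * D.c n z + 1 by omega]; ring
      · rw [show D.c (n + 1) z = 2 * D.c n z by omega]; ring
    rw [this, map_add, ih _ hA, map_sum]
    simp [h]

end Dy

end Pool.Agent.Lib.H3BCO
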