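import Mathlib
import Pool.Agent.Lib.helper3.BCOA
import Pool.Agent.Lib.helper3.BCOC

set_option autoImplicit false

/-! The bounded complete double system. -/

namespace Pool.Agent.Lib.H3BCO

open MeasureTheory Filter Topology Finset

variable {Ω : Type*} [MeasurableSpace Ω] {μ : Measure Ω}

/-- The blocks of a row. -/
def FS (b : ℕ) : Finset ℕ := Ico (b ^ 2) ((b + 1) ^ 2)

theorem mem_FS (k b : ℕ) : k ∈ FS b ↔ Nat.sqrt k = b := by
  rw [FS, Finset.mem_Ico, eq_comm, Nat.eq_sqrt']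

theorem card_FS (b : ℕ) : (FS b).card = 2 * b + 1 := by
  rw [FS, Nat.card_Ico]
  have : (b + 1) ^ 2 = b ^ 2 + (2 * b + 1) := by ring
  omega

/-- The block of a position. -/
def β2 (p : ℕ × ℕ) : ℕ × ℕ := (p.1, Nat.sqrt p.2)

/-- The positions of a block. -/
def F2 (q : ℕ × ℕ) : Finset (ℕ × ℕ) := {q.1} ×ˢ FS q.2

theorem mem_F2 (p q : ℕ × ℕ) : p ∈ F2 q ↔ β2 p = q := by
  simp only [F2, β2, Finset.mem_product, Finset.mem_singleton, mem_FS, Prod.ext_iff]

theorem card_F2 (q : ℕ × ℕ) : (F2 q).card = 2 * q.2 + 1 := by simp [F2, card_FS]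

theorem F2_ne (q : ℕ × ℕ) : (F2 q).Nonempty := by
  rw [← card_pos, card_F2]; omega

/-- The coefficient of a Haar function in a partial sum of the first row. -/
noncomputable def dd (a : ℕ → ℝ) (B : Finset ℕ) (b : ℕ) : ℝ :=
  (√((2 * b + 1 : ℕ) : ℝ))⁻¹ * ∑ k ∈ B.filter (fun k => Nat.sqrt k = b), a k

theorem dd_sq (a : ℕ → ℝ) (B : Finset ℕ) (b : ℕ) :
    dd a B b ^ 2 ≤ ∑ k ∈ B.filter (fun k => Nat.sqrt k = b), a k ^ 2 := by
  have h0 : (0 : ℝ) < ((2 * b + 1 : ℕ) : ℝ) := by positivity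
  have h1 := sq_sum_le_card_mul_sum_sq (s := B.filter (fun k => Nat.sqrt k = b)) (f := a)
  have h2 : ((B.filter (fun k => Nat.sqrt k = b)).card : ℝ) ≤ ((2 * b + 1 : ℕ) : ℝ) := by
    rw [← card_FS]
    exact_mod_cast card_le_card fun k hk => (mem_FS k b).2 (mem_filter.1 hk).2
  rw [dd, mul_pow, inv_pow, Real.sq_sqrt h0.le, inv_mul_le_iff₀ h0]
  exact h1.trans (mul_le_mul_of_nonneg_right h2 (sum_nonneg fun _ _ => sq_nonneg _))

theorem sum_blocks_le (a : ℕ → ℝ) (ha : Summable fun k => a k ^ 2) (M : ℕ) :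
    ∑ b ∈ range M, ∑ k ∈ FS b, a k ^ 2 ≤ ∑' k, a k ^ 2 := by
  have h : ∑ b ∈ range M, ∑ k ∈ FS b, a k ^ 2 = ∑ k ∈ range (M ^ 2), a k ^ 2 := by
    induction M with
    | zero => simp
    | succ M ih =>
      rw [sum_range_succ, ih, FS, sum_range_add_sum_Ico _ (Nat.pow_le_pow_left (by omega) 2)]
  rw [h]
  exact ha.sum_le_tsum _ fun _ _ => sq_nonneg _

namespace Dy

variable (D : Dy Ω μ)

/-- Haar functions made orthogonal to most Rademacher functions. -/
noncomputable def hh : ℕ → D.V := zz D.H Nat.size FL fun n => D.R (Nat.pair 0 n)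

/-- The free Rademacher functions. -/
def xx (p : ℕ × ℕ) : D.V := D.R (Nat.pair (p.1 + 1) p.2)

/-- The vectors absorbed by the blocks. -/
noncomputable def yy : ℕ × ℕ → D.V
  | (0, b) => D.hh b
  | (t + 1, b) => (√((F2 (t, b)).card : ℝ))⁻¹ • bs D.xx F2 (t, b)

/-- The system. -/
noncomputable def φ : ℕ × ℕ → D.V := zz D.xx β2 F2 D.yy

/-- The Haar part of the first row. -/
noncomputable def η (k : ℕ) : D.V := (√((2 * Nat.sqrt k + 1 : ℕ) : ℝ))⁻¹ • D.H (Nat.sqrt k)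

/-- The Rademacher part of the system. -/
noncomputable def ψ (p : ℕ × ℕ) : D.V := D.φ p - if p.1 = 0 then D.η p.2 else 0

theorem hh_eq (b : ℕ) : D.hh b = D.H b + (√((FL (Nat.size b)).card : ℝ))⁻¹ •
    (D.R (Nat.pair 0 (Nat.size b)) - D.R (Nat.size b)) := by
  have h0 : (0 : ℝ) < (FL (Nat.size b)).card := by exact_mod_cast card_pos.2 (FL_ne _)
  have h1 : ((FL (Nat.size b)).card : ℝ)⁻¹ * √((FL (Nat.size b)).card : ℝ)
      = (√((FL (Nat.size b)).card : ℝ))⁻¹ := by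
    have h2 := Real.mul_self_sqrt h0.le
    have h3 := Real.sqrt_pos.2 h0
    field_simp
    nlinarith
  rw [hh, zz, uu, bs_H, smul_smul, h1, smul_sub]
  abel

theorem ψ_mem (p : ℕ × ℕ) : D.ψ p ∈ Submodule.span ℝ (Set.range D.R) := by
  have hR : ∀ j, D.R j ∈ Submodule.span ℝ (Set.range D.R) :=
    fun j => Submodule.subset_span ⟨j, rfl⟩
  have hbs : ∀ q, bs D.xx F2 q ∈ Submodule.span ℝ (Set.range D.R) :=
    fun q => Submodule.sum_mem _ fun j _ => hR _
  have hu : uu D.xx β2 F2 p ∈ Submodule.span ℝ (Set.range D.R) :=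
    Submodule.sub_mem _ (hR _) (Submodule.smul_mem _ _ (hbs _))
  obtain ⟨t, k⟩ := p
  cases t with
  | zero =>
    have : D.ψ (0, k) = uu D.xx β2 F2 (0, k) + (√((2 * Nat.sqrt k + 1 : ℕ) : ℝ))⁻¹ •
        ((√((FL (Nat.size (Nat.sqrt k))).card : ℝ))⁻¹ •
        (D.R (Nat.pair 0 (Nat.size (Nat.sqrt k))) - D.R (Nat.size (Nat.sqrt k)))) := by
      simp only [ψ, φ, zz, β2, yy, card_F2, if_true, η, hh_eq, smul_add]
      abel
    rw [this]
    exact Submodule.add_mem _ hu (Submodule.smul_mem _ _ (Submodule.smul_mem _ _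
      (Submodule.sub_mem _ (hR _) (hR _))))
  | succ t =>
    simp only [ψ, φ, zz, β2, yy, Nat.succ_ne_zero, if_false, sub_zero]
    exact Submodule.add_mem _ hu (Submodule.smul_mem _ _ (Submodule.smul_mem _ _ (hbs _)))

theorem bs_abs (q : ℕ × ℕ) (z : Ω) : |(bs D.xx F2 q).1 z| ≤ (F2 q).card := by
  rw [bs, Submodule.coe_sum, Finset.sum_apply]
  refine (abs_sum_le_sum_abs _ _).trans (le_of_eq ?_)
  simp [xx, R, R0_abs]

theorem hh_abs (b : ℕ) (z : Ω) : |(D.hh b).1 z| ≤ 3 * √((2 * b + 1 : ℕ) : ℝ) := by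
  have h0 : (1 : ℝ) ≤ (FL (Nat.size b)).card := by exact_mod_cast card_pos.2 (FL_ne _)
  have h1 : √((FL (Nat.size b)).card : ℝ) ≤ √((2 * b + 1 : ℕ) : ℝ) :=
    Real.sqrt_le_sqrt (by exact_mod_cast card_FL_le b)
  have h2 : 1 ≤ √((FL (Nat.size b)).card : ℝ) := Real.one_le_sqrt.2 h0
  have h3 : |D.H0 b z| ≤ √((FL (Nat.size b)).card : ℝ) := by
    rw [H0, abs_mul, R0_abs, mul_one]
    split_ifs
    · exact (abs_of_nonneg (by positivity)).le
    · simp
  have h4 : |(√((FL (Nat.size b)).card : ℝ))⁻¹ *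
      (D.R0 (Nat.pair 0 (Nat.size b)) z - D.R0 (Nat.size b) z)| ≤ 1 * 2 := by
    rw [abs_mul, abs_of_nonneg (by positivity)]
    apply mul_le_mul (inv_le_one_of_one_le₀ h2) _ (abs_nonneg _) zero_le_one
    refine (abs_sub _ _).trans ?_
    rw [R0_abs, R0_abs]; norm_num
  rw [hh_eq]
  refine (abs_add_le (D.H0 b z) _).trans ?_
  change _ + |(√((FL (Nat.size b)).card : ℝ))⁻¹ *
      (D.R0 (Nat.pair 0 (Nat.size b)) z - D.R0 (Nat.size b) z)| ≤ _
  linarith

theorem yy_abs (q : ℕ × ℕ) (z : Ω) : |(D.yy q).1 z| ≤ 3 * √((2 * q.2 + 1 : ℕ) : ℝ) := by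
  obtain ⟨t, b⟩ := q
  cases t with
  | zero => exact D.hh_abs b z
  | succ t =>
    have h1 := D.bs_abs (t, b) z
    change |(√((F2 (t, b)).card : ℝ))⁻¹ * (bs D.xx F2 (t, b)).1 z| ≤ _
    rw [card_F2] at h1 ⊢
    have h0 : (0 : ℝ) < ((2 * b + 1 : ℕ) : ℝ) := by positivity
    have h2 := Real.mul_self_sqrt h0.le
    have h3 := Real.sqrt_pos.2 h0
    rw [abs_mul, abs_of_nonneg (by positivity), inv_mul_le_iff₀ h3]
    nlinarith

theorem φ_abs (p : ℕ × ℕ) (z : Ω) : |(D.φ p).1 z| ≤ 5 := by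
  change |(D.R0 (Nat.pair (p.1 + 1) p.2) z - ((F2 (β2 p)).card : ℝ)⁻¹ * (bs D.xx F2 (β2 p)).1 z)
    + (√((F2 (β2 p)).card : ℝ))⁻¹ * (D.yy (β2 p)).1 z| ≤ 5
  have h0 := card_pos' mem_F2 p
  have h3 := Real.sqrt_pos.2 h0
  have h1 : |((F2 (β2 p)).card : ℝ)⁻¹ * (bs D.xx F2 (β2 p)).1 z| ≤ 1 := by
    rw [abs_mul, abs_of_nonneg (by positivity), inv_mul_le_iff₀ h0, mul_one]
    exact D.bs_abs _ z
  have h2 : |(√((F2 (β2 p)).card : ℝ))⁻¹ * (D.yy (β2 p)).1 z| ≤ 3 := by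
    rw [abs_mul, abs_of_nonneg (by positivity), inv_mul_le_iff₀ h3, card_F2, mul_comm]
    exact D.yy_abs _ z
  have h4 := D.R0_abs (Nat.pair (p.1 + 1) p.2) z
  refine (abs_add_le _ _).trans ?_
  linarith [abs_sub (D.R0 (Nat.pair (p.1 + 1) p.2) z)
    (((F2 (β2 p)).card : ℝ)⁻¹ * (bs D.xx F2 (β2 p)).1 z)]

theorem φ_complete (l : D.V →ₗ[ℝ] ℝ) (h : ∀ p, l (D.φ p) = 0) (v : D.V) : l v = 0 := by
  obtain ⟨h1, h2⟩ := zz_complete mem_F2 F2_ne l h
  obtain ⟨h3, h4⟩ := zz_complete (x := D.H) (y := fun n => D.R (Nat.pair 0 n)) mem_FL FL_ne l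
    fun b => h1 (0, b)
  have h5 : ∀ q, l (bs D.xx F2 q) = 0 := by
    rintro ⟨t, b⟩
    have h6 := h1 (t + 1, b)
    have h0 : (0 : ℝ) < (F2 (t, b)).card := by exact_mod_cast card_pos.2 (F2_ne _)
    simp only [yy, map_smul, smul_eq_mul] at h6
    exact (mul_eq_zero.1 h6).resolve_left (by positivity)
  have h6 : ∀ j, l (D.R j) = 0 := by
    intro j
    rw [← Nat.pair_unpair j]
    cases (Nat.unpair j).1 with
    | zero => exact h3 _
    | succ t =>
      have := h2 (t, (Nat.unpair j).2)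
      rwa [h5, mul_zero] at this
  apply D.H_complete
  intro b
  rw [h4, bs_H, map_smul, h6]
  simp

theorem sum_η (a : ℕ → ℝ) (B : Finset ℕ) (M : ℕ) (hM : ∀ k ∈ B, Nat.sqrt k < M) :
    ∑ k ∈ B, a k • D.η k = ∑ b ∈ range M, dd a B b • D.H b := by
  rw [← sum_fiberwise_of_maps_to (g := Nat.sqrt) (t := range M) fun k hk => mem_range.2 (hM k hk)]
  refine sum_congr rfl fun b _ => ?_
  rw [dd, mul_sum, sum_smul]
  refine sum_congr rfl fun k hk => ?_
  rw [η, (mem_filter.1 hk).2, smul_smul, mul_comm]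

/-- The dyadic partial sums of a Haar series. -/
noncomputable def MM (d : ℕ → ℝ) (n : ℕ) : D.V := ∑ b ∈ range (2 ^ n), d b • D.H b

theorem MM_succ (d : ℕ → ℝ) (n : ℕ) :
    D.MM d (n + 1) = D.MM d n + ∑ b ∈ FL (n + 1), d b • D.H b := by
  rw [MM, MM, FL_succ, sum_range_add_sum_Ico _ (Nat.pow_le_pow_right two_pos (by omega))]

theorem MM_succ_apply (d : ℕ → ℝ) (n : ℕ) (z : Ω) : (D.MM d (n + 1)).1 z = (D.MM d n).1 z
    + d (2 ^ n + D.c n z) * √((FL (n + 1)).card : ℝ) * D.R0 (n + 1) z := by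
  rw [MM_succ, Submodule.coe_add, Pi.add_apply, X_apply]
  rfl

theorem MM_Fn (d : ℕ → ℝ) (n : ℕ) : D.Fn n (D.MM d n).1 := by
  induction n with
  | zero => exact ⟨fun _ => d 0, fun z => by simp [MM, H, H0, e, R0, FL_zero]⟩
  | succ n ih =>
    have h1 : D.Fn n fun z => d (2 ^ n + D.c n z) * √((FL (n + 1)).card : ℝ) :=
      ⟨fun q => d (2 ^ n + q) * √((FL (n + 1)).card : ℝ), fun _ => rfl⟩
    have h2 := ih.succ.op (h1.succ.op (D.R0_Fn (n + 1)) (· * ·)) (· + ·)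
    rwa [show (D.MM d (n + 1)).1 = _ from funext (D.MM_succ_apply d n)]

/-- The filtration. -/
def filt : Filtration ℕ ‹MeasurableSpace Ω› where
  seq n := MeasurableSpace.comap (D.c n) ⊤
  mono' := monotone_nat_of_le_succ fun n => by
    rintro s ⟨t, -, rfl⟩
    exact ⟨{q | q / 2 ∈ t}, trivial, by ext z; simp [D.succ]⟩
  le' n := by
    rintro s ⟨t, -, rfl⟩
    exact D.meas n (MeasurableSet.of_discrete)

variable [IsProbabilityMeasure μ]

theorem xx_on : ON D.ip D.xx := by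
  intro p q
  rw [xx, xx, D.R_on]
  simp [Nat.pair_eq_pair, Prod.ext_iff]

theorem uH_R (b j : ℕ) : D.ip (uu D.H Nat.size FL b) (D.R j) = 0 := by
  rw [R_eq, map_smul, uu_bs D.H_on mem_FL, smul_zero]

theorem hh_on : ON D.ip D.hh := by
  refine zz_on D.ip_symm D.H_on mem_FL (fun n m => ?_) fun b n => D.uH_R b _
  rw [D.R_on]
  simp [Nat.pair_eq_pair]

theorem hh_xx (b : ℕ) (p : ℕ × ℕ) : D.ip (D.hh b) (D.xx p) = 0 := by
  rw [hh, zz, map_add, LinearMap.add_apply, xx, uH_R, map_smul, LinearMap.smul_apply, D.R_on]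
  simp [Nat.pair_eq_pair]

theorem hh_bs (b : ℕ) (q : ℕ × ℕ) : D.ip (D.hh b) (bs D.xx F2 q) = 0 := by
  rw [bs, map_sum]
  exact sum_eq_zero fun p _ => D.hh_xx b p

theorem yy_on : ON D.ip D.yy := by
  rintro ⟨t, b⟩ ⟨t', b'⟩
  cases t with
  | zero =>
    cases t' with
    | zero => simp only [yy, D.hh_on b b', Prod.mk.injEq, true_and]
    | succ t' => simp [yy, hh_bs]
  | succ t =>
    cases t' with
    | zero => rw [D.ip_symm]; simp [yy, hh_bs]
    | succ t' =>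
      have := bs_on D.xx_on mem_F2 F2_ne (t, b) (t', b')
      simp only [yy]
      rw [this]
      simp

theorem φ_on : ON D.ip D.φ := by
  refine zz_on D.ip_symm D.xx_on mem_F2 D.yy_on ?_
  rintro p ⟨t, b⟩
  cases t with
  | zero =>
    rw [D.ip_symm, uu, map_sub, map_smul]
    simp [yy, hh_xx, hh_bs]
  | succ t => simp only [yy, map_smul, uu_bs D.xx_on mem_F2, smul_zero]

theorem norm_η (a : ℕ → ℝ) (B : Finset ℕ) :
    D.ip (∑ k ∈ B, a k • D.η k) (∑ k ∈ B, a k • D.η k) ≤ ∑ k ∈ B, a k ^ 2 := by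
  have hM : ∀ k ∈ B, Nat.sqrt k < B.sup Nat.sqrt + 1 :=
    fun k hk => Nat.lt_succ_of_le (le_sup (f := Nat.sqrt) hk)
  rw [D.sum_η a B _ hM, D.H_on.norm_sum,
    ← sum_fiberwise_of_maps_to (g := Nat.sqrt) fun k hk => mem_range.2 (hM k hk)]
  exact sum_le_sum fun b _ => dd_sq a B b

theorem ψ_S4 : S4 μ (fun i k => (D.ψ (i, k)).1) 48 := by
  intro a A B
  set v : D.V := ∑ i ∈ A, ∑ k ∈ B, a i k • D.ψ (i, k) with hv
  have hv' : ∀ z, ∑ i ∈ A, ∑ k ∈ B, a i k * (D.ψ (i, k)).1 z = v.1 z := by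
    intro z
    simp [hv, Finset.sum_apply]
  simp only [hv']
  refine ⟨D.V_int_pow v 4, ?_⟩
  have h1 := D.khin_span v (Submodule.sum_mem _ fun i _ => Submodule.sum_mem _ fun k _ =>
    Submodule.smul_mem _ _ (D.ψ_mem _))
  set s := ∑ i ∈ A, ∑ k ∈ B, a i k ^ 2 with hs
  set f : D.V := ∑ p ∈ A ×ˢ B, a p.1 p.2 • D.φ p with hf
  set g : D.V := ∑ k ∈ B, (if 0 ∈ A then a 0 k else 0) • D.η k with hg
  have h2 : D.ip f f = s := by rw [hf, D.φ_on.norm_sum, hs, sum_product]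
  have h3 : D.ip g g ≤ s := by
    refine (D.norm_η _ B).trans ?_
    split_ifs with h
    · exact single_le_sum (f := fun i => ∑ k ∈ B, a i k ^ 2)
        (fun _ _ => sum_nonneg fun _ _ => sq_nonneg _) h
    · simp only [ne_eq, OfNat.ofNat_ne_zero, not_false_eq_true, zero_pow, sum_const_zero]
      exact sum_nonneg fun _ _ => sum_nonneg fun _ _ => sq_nonneg _
  have h4 : v = f - g := by
    rw [hv, hf, hg, sum_product]
    simp only [ψ, smul_sub, sum_sub_distrib]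
    congr 1
    rw [sum_comm]
    refine sum_congr rfl fun k _ => ?_
    simp only [smul_ite, smul_zero, ite_smul, zero_smul]
    rw [sum_congr rfl (g := fun i => if i = 0 then a 0 k • D.η k else 0)
      (fun i _ => by split_ifs with h <;> simp [h]), sum_ite_eq']
  have h5 : D.ip v v ≤ 4 * s := by
    have h6 := D.ip_nonneg (f + g)
    rw [h4]
    simp only [map_sub, map_add, LinearMap.sub_apply, LinearMap.add_apply] at h6 ⊢
    linarith
  have h6 := D.ip_nonneg v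
  nlinarith

theorem MM_conv (d : ℕ → ℝ) (C : ℝ) (hC : ∀ M, ∑ b ∈ range M, d b ^ 2 ≤ C) :
    ∀ᵐ z ∂μ, ∃ s, Tendsto (fun n => (D.MM d n).1 z) atTop (𝓝 s) := by
  have hm : Martingale (fun n => (D.MM d n).1) D.filt μ := by
    refine martingale_of_setIntegral_eq_succ (fun n => ?_) (fun n => D.V_int _) ?_
    · obtain ⟨G, hG⟩ := D.MM_Fn d n
      apply Measurable.stronglyMeasurable
      rw [show (D.MM d n).1 = G ∘ D.c n from funext hG]
      exact measurable_from_top.comp (comap_measurable _)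
    · rintro n s hs
      have hs' : MeasurableSet s := D.filt.le n s hs
      obtain ⟨t, -, rfl⟩ := hs
      simp only [MM_succ_apply]
      have h1 : D.Fn n fun z => d (2 ^ n + D.c n z) * √((FL (n + 1)).card : ℝ) :=
        ⟨fun q => d (2 ^ n + q) * √((FL (n + 1)).card : ℝ), fun _ => rfl⟩
      rw [integral_add (D.V_int _).integrableOn
        ((D.R0_Fn _).int_mul h1.integrable).integrableOn, left_eq_add, ← integral_indicator hs']
      have h2 : D.Fn n fun z => t.indicator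
          (fun q => d (2 ^ n + q) * √((FL (n + 1)).card : ℝ)) (D.c n z) := ⟨_, fun _ => rfl⟩
      rw [← h2.orth]
      congr 1
      funext z
      by_cases hz : D.c n z ∈ t <;> simp [hz]
  refine hm.submartingale.exists_ae_tendsto_of_bdd (R := Real.toNNReal (1 + C)) fun n => ?_
  rw [eLpNorm_one_eq_lintegral_enorm, ← ofReal_integral_norm_eq_lintegral_enorm (D.V_int _)]
  apply ENNReal.ofReal_le_ofReal
  have h1 : ∫ z, ‖(D.MM d n).1 z‖ ∂μ ≤ ∫ z, (1 + (D.MM d n).1 z * (D.MM d n).1 z) ∂μ := by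
    apply integral_mono (D.V_int _).norm
      ((integrable_const _).add (D.V_int_mul _ (D.V_int _)))
    intro z
    simp only [Real.norm_eq_abs, Pi.add_apply]
    nlinarith [abs_mul_abs_self ((D.MM d n).1 z), sq_nonneg (|(D.MM d n).1 z| - 1)]
  rw [integral_add (integrable_const _) (D.V_int_mul _ (D.V_int _)), ← ip_apply, MM,
    D.H_on.norm_sum] at h1
  simp only [integral_const, probReal_univ, smul_eq_mul, one_mul] at h1
  rw [MM]
  linarith [hC (2 ^ n)]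

theorem η_conv (a : ℕ → ℝ) (ha : Summable fun k => a k ^ 2) :
    ∀ᵐ z ∂μ, ∃ s, Tendsto (fun n => ∑ k ∈ range n, a k * (D.η k).1 z) atTop (𝓝 s) := by
  set d : ℕ → ℝ := fun b => dd a (FS b) b with hd
  set w : ℕ → ℝ := fun b => √(∑ k ∈ FS b, a k ^ 2) with hw
  have hw2 : ∀ b, w b ^ 2 = ∑ k ∈ FS b, a k ^ 2 :=
    fun b => Real.sq_sqrt (sum_nonneg fun _ _ => sq_nonneg _)
  have hdw : ∀ B b, dd a B b ^ 2 ≤ w b ^ 2 := by
    intro B b
    rw [hw2]
    exact (dd_sq a B b).trans (sum_le_sum_of_subset_of_nonneg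
      (fun k hk => (mem_FS k b).2 (mem_filter.1 hk).2) fun _ _ _ => sq_nonneg _)
  have h1 := D.MM_conv w _ fun M => by simpa only [hw2] using sum_blocks_le a ha M
  have h2 := D.MM_conv d _ fun M => (sum_le_sum fun b _ => (hdw (FS b) b).trans (hw2 b).le).trans
    (sum_blocks_le a ha M)
  filter_upwards [h1, h2] with z ⟨s1, hs1⟩ ⟨s, hs⟩
  refine ⟨s, ?_⟩
  have hl : Tendsto (fun n => Nat.log 2 (Nat.sqrt n)) atTop atTop := by
    refine tendsto_atTop.2 fun m => ?_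
    filter_upwards [eventually_ge_atTop ((2 ^ m) ^ 2)] with n hn
    exact Nat.le_log_of_pow_le (by norm_num) (Nat.le_sqrt'.2 hn)
  have h3 : Tendsto (fun m => |(D.MM w (m + 1)).1 z - (D.MM w m).1 z|) atTop (𝓝 0) := by
    have := ((hs1.comp (tendsto_add_atTop_nat 1)).sub hs1).abs
    simpa using this
  have h4 : Tendsto (fun n => ∑ k ∈ range n, a k * (D.η k).1 z
      - (D.MM d (Nat.log 2 (Nat.sqrt n))).1 z) atTop (𝓝 0) := by
    refine squeeze_zero_norm' ?_ (h3.comp hl)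
    filter_upwards [eventually_ge_atTop 1] with n hn
    set m := Nat.log 2 (Nat.sqrt n) with hm
    have hs0 : Nat.sqrt n ≠ 0 := by rw [Ne, Nat.sqrt_eq_zero]; omega
    have e1 : 2 ^ m ≤ Nat.sqrt n := Nat.pow_log_le_self 2 hs0
    have e2 : Nat.sqrt n < 2 ^ (m + 1) := Nat.lt_pow_succ_log_self (by norm_num) _
    have e3 : ∑ k ∈ range n, a k * (D.η k).1 z = (D.MM (dd a (range n)) (m + 1)).1 z := by
      rw [MM, ← D.sum_η a (range n) _
        fun k hk => (Nat.sqrt_le_sqrt (mem_range.1 hk).le).trans_lt e2]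
      simp [Finset.sum_apply]
    have e4 : D.MM (dd a (range n)) m = D.MM d m := by
      refine sum_congr rfl fun b hb => ?_
      congr 1
      simp only [hd, dd]
      congr 2
      ext k
      simp only [mem_filter, mem_range, mem_FS, and_self]
      refine ⟨fun h => h.2, fun h => ⟨?_, h⟩⟩
      have h5 := mem_range.1 hb
      exact Nat.lt_of_not_le fun h6 => by have := Nat.sqrt_le_sqrt h6; omega
    simp only [Function.comp, ← hm]
    rw [e3, MM_succ_apply, MM_succ_apply, e4, add_sub_cancel_left, add_sub_cancel_left,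
      Real.norm_eq_abs, mul_assoc, mul_assoc, abs_mul, abs_mul (w _)]
    exact mul_le_mul_of_nonneg_right (sq_le_sq.1 (hdw _ _)) (abs_nonneg _)
  simpa using h4.add (hs.comp hl)

theorem φ_conv (a : ℕ → ℕ → ℝ) (ha : Summable fun p : ℕ × ℕ => a p.1 p.2 ^ 2) :
    ∀ᵐ z ∂μ, ∃ s : ℝ, Tendsto (fun p : ℕ × ℕ =>
      ∑ i ∈ range p.1, ∑ k ∈ range p.2, a i k * (D.φ (i, k)).1 z) atTop (𝓝 s) := by
  have h1 := conv2 (by norm_num) D.ψ_S4 a ha
  have h2 := D.η_conv (a 0) (ha.prod_factor 0)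
  filter_upwards [h1, h2] with z ⟨s, hs⟩ ⟨t, ht⟩
  refine ⟨s + t, ?_⟩
  have h3 : Tendsto (fun p : ℕ × ℕ => p.2) atTop atTop := by
    rw [← prod_atTop_atTop_eq]; exact tendsto_snd
  refine (hs.add (ht.comp h3)).congr' ?_
  filter_upwards [eventually_ge_atTop (1, 0)] with p hp
  have hp' : 0 ∈ range p.1 := mem_range.2 hp.1
  have h4 : ∀ i k, (D.φ (i, k)).1 z
      = (D.ψ (i, k)).1 z + if i = 0 then (D.η k).1 z else 0 := by
    intro i k
    simp only [ψ]
    split_ifs <;> simp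
  simp only [h4, mul_add, sum_add_distrib, Function.comp]
  congr 1
  rw [sum_eq_single 0 (fun i _ hi => by simp [hi]) (fun h => absurd hp' h)]
  simp

end Dy

end Pool.Agent.Lib.H3BCO
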