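import Mathlib

set_option autoImplicit false

/-! The Haar functions on `[0,1]`. -/

namespace Pool.Agent.Lib.H3Haar

open MeasureTheory Set

noncomputable section

def b (l : ℕ) (x : ℝ) : ℕ := ⌊2 ^ l * x⌋₊

lemma b_div (l d : ℕ) (x : ℝ) : b (l + d) x / 2 ^ d = b l x := by
  rw [b, b, ← Nat.floor_div_natCast]
  congr 1
  push_cast
  rw [pow_add]; field_simp

lemma b_succ (l : ℕ) (x : ℝ) : b (l + 1) x / 2 = b l x := by simpa using b_div l 1 x

lemma b_meas (l : ℕ) : Measurable (b l) := Nat.measurable_floor.comp (by fun_prop)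

lemma b_lt (l : ℕ) {x : ℝ} (h0 : 0 ≤ x) (h1 : x < 1) : b l x < 2 ^ l := by
  rw [b, Nat.floor_lt (by positivity)]
  push_cast
  exact mul_lt_of_lt_one_right (by positivity) h1

abbrev ν : Measure ℝ := volume.restrict (Icc 0 1)

instance : IsProbabilityMeasure ν := ⟨by simp⟩

lemma int_ind (l q : ℕ) (hq : q < 2 ^ l) :
    ∫ x, (if b l x = q then (1 : ℝ) else 0) ∂ν = (2 ^ l)⁻¹ := by
  have h2 : (0 : ℝ) < 2 ^ l := by positivity
  have e : Icc (0 : ℝ) 1 ∩ {x | b l x = q} = Ico (q / 2 ^ l : ℝ) ((q + 1) / 2 ^ l) := by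
    ext x
    have hq' : (q : ℝ) + 1 ≤ 2 ^ l := by exact_mod_cast hq
    simp only [mem_inter_iff, mem_Icc, mem_ofPred_eq, mem_Ico, div_le_iff₀ h2, lt_div_iff₀ h2, b]
    constructor
    · rintro ⟨⟨h0, -⟩, h⟩
      rw [Nat.floor_eq_iff (by positivity)] at h
      constructor <;> linarith [h.1, h.2]
    · rintro ⟨h3, h4⟩
      have h0 : 0 ≤ x := by
        by_contra h
        have : (0 : ℝ) ≤ q := Nat.cast_nonneg q
        nlinarith
      refine ⟨⟨h0, by nlinarith⟩, ?_⟩
      rw [Nat.floor_eq_iff (by positivity)]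
      constructor <;> linarith
  have hm : MeasurableSet {x | b l x = q} := b_meas l (measurableSet_singleton q)
  have e2 : (fun x => if b l x = q then (1 : ℝ) else 0) = {x | b l x = q}.indicator 1 := by
    funext x; simp [indicator_apply]
  rw [e2, integral_indicator_one hm, measureReal_restrict_apply hm, inter_comm, e,
    Real.volume_real_Ico_of_le (by gcongr; linarith)]
  field_simp; ring

def G (q n : ℕ) : ℝ := (if n = 2 * q + 1 then 1 else 0) - if n = 2 * q then 1 else 0

def H (l q : ℕ) (x : ℝ) : ℝ := √(2 ^ l) * G q (b (l + 1) x)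

lemma G_sq (q n : ℕ) : G q n * G q n = if n / 2 = q then 1 else 0 := by
  unfold G; split_ifs <;> first | omega | norm_num

lemma H_supp {l q : ℕ} {x : ℝ} (h : H l q x ≠ 0) : b l x = q := by
  by_contra h1
  have := G_sq q (b (l + 1) x)
  rw [b_succ, if_neg h1, mul_self_eq_zero] at this
  exact h (by rw [H, this, mul_zero])

lemma H_meas (l q : ℕ) : Measurable (H l q) :=
  ((measurable_from_nat (f := G q)).comp (b_meas _)).const_mul _

lemma H_bdd (l q : ℕ) (x : ℝ) : ‖H l q x‖ ≤ √(2 ^ l) := by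
  rw [H, norm_mul, Real.norm_of_nonneg (Real.sqrt_nonneg _)]
  refine mul_le_of_le_one_right (Real.sqrt_nonneg _) ?_
  unfold G; split_ifs <;> simp

lemma ind_int (l q : ℕ) : Integrable (fun x => if b l x = q then (1 : ℝ) else 0) ν :=
  Integrable.of_bound ((measurable_from_nat (f := fun n => if n = q then (1 : ℝ) else 0)).comp
    (b_meas _)).aestronglyMeasurable 1 (ae_of_all _ fun x => by split_ifs <;> simp)

lemma int_H (l q : ℕ) (hq : q < 2 ^ l) : ∫ x, H l q x ∂ν = 0 := by
  simp only [H, G]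
  rw [integral_const_mul, integral_sub (ind_int _ _) (ind_int _ _), int_ind _ _ (by omega),
    int_ind _ _ (by omega), sub_self, mul_zero]

lemma int_HH (l q l' q' : ℕ) (hq : q < 2 ^ l) (hq' : q' < 2 ^ l') :
    ∫ x, H l q x * H l' q' x ∂ν = if (l, q) = (l', q') then 1 else 0 := by
  wlog h : l ≤ l' generalizing l q l' q'
  · simp only [mul_comm (H l q _), this l' q' l q hq' hq (by omega), eq_comm]
  split_ifs with h1
  · obtain ⟨rfl, rfl⟩ := Prod.mk.inj h1
    have e : ∀ x, H l q x * H l q x = 2 ^ l * if b l x = q then (1 : ℝ) else 0 := fun x => by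
      rw [H, mul_mul_mul_comm, G_sq, b_succ, Real.mul_self_sqrt (by positivity)]
    simp only [e]
    rw [integral_const_mul, int_ind _ _ hq, mul_inv_cancel₀ (by positivity)]
  · rcases h.eq_or_lt with rfl | h
    · refine integral_eq_zero_of_ae (ae_of_all _ fun x => ?_)
      by_contra h2
      exact h1 (by rw [← H_supp (left_ne_zero_of_mul h2), H_supp (right_ne_zero_of_mul h2)])
    · obtain ⟨d, rfl⟩ := Nat.exists_eq_add_of_lt h
      have e : ∀ x, H l q x * H (l + d + 1) q' x =
          √(2 ^ l) * G q (q' / 2 ^ d) * H (l + d + 1) q' x := fun x => by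
        by_cases h2 : H (l + d + 1) q' x = 0
        · rw [h2, mul_zero, mul_zero]
        · rw [← H_supp h2, add_right_comm, b_div]; rfl
      simp only [e]
      rw [integral_const_mul, int_H _ _ hq', mul_zero]

end

end Pool.Agent.Lib.H3Haar
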