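import Mathlib
import Pool.Agent.Lib.helper3.Haar
import Pool.Agent.Lib.helper3.BCOD

set_option autoImplicit false

/-! The dyadic filtration of the unit square. -/

namespace Pool.Agent.Lib.H3BCO

open MeasureTheory Filter Topology Finset Pool.Agent.Lib.H3Haar

/-- Lebesgue measure on the unit square. -/
noncomputable abbrev sq : Measure (ℝ × ℝ) :=
  volume.restrict (Set.Icc (0 : ℝ) 1 ×ˢ Set.Icc (0 : ℝ) 1)

theorem sq_eq : sq = ν.prod ν := by rw [Measure.prod_restrict]; rfl

instance : IsProbabilityMeasure sq := by rw [sq_eq]; infer_instance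

/-- The interleaved binary digits. -/
noncomputable def cc : ℕ → ℝ × ℝ → ℕ
  | 0 => fun _ => 0
  | n + 1 => fun z => 2 * cc n z + b (n / 2 + 1) (if n % 2 = 0 then z.1 else z.2) % 2

theorem cc_meas (n : ℕ) : Measurable (cc n) := by
  induction n with
  | zero => exact measurable_const
  | succ n ih =>
    have h : Measurable fun z : ℝ × ℝ => b (n / 2 + 1) (if n % 2 = 0 then z.1 else z.2) := by
      split_ifs
      · exact (b_meas _).comp measurable_fst
      · exact (b_meas _).comp measurable_snd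
    exact (measurable_from_prod_countable_left (f := fun p : ℕ × ℕ => 2 * p.1 + p.2 % 2)
      fun _ => measurable_from_nat).comp (ih.prodMk h)

/-- Points of the half-open square. -/
def good (z : ℝ × ℝ) : Prop := (0 ≤ z.1 ∧ z.1 < 1) ∧ (0 ≤ z.2 ∧ z.2 < 1)

theorem ae_good : ∀ᵐ z ∂sq, good z := by
  have h : ∀ᵐ x ∂ν, 0 ≤ x ∧ x < 1 := by
    rw [ν, ← Measure.restrict_congr_set Ico_ae_eq_Icc]
    exact ae_restrict_mem measurableSet_Ico
  rw [sq_eq]
  exact (Measure.quasiMeasurePreserving_fst.ae h).and (Measure.quasiMeasurePreserving_snd.ae h)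

theorem cc_decode (n q : ℕ) (hq : q < 2 ^ n) : ∃ u v, u < 2 ^ ((n + 1) / 2) ∧ v < 2 ^ (n / 2) ∧
    ∀ z, good z → (cc n z = q ↔ b ((n + 1) / 2) z.1 = u ∧ b (n / 2) z.2 = v) := by
  induction n generalizing q with
  | zero =>
    refine ⟨0, 0, by norm_num, by norm_num, fun z hz => ?_⟩
    have h1 := b_lt 0 hz.1.1 hz.1.2
    have h2 := b_lt 0 hz.2.1 hz.2.2
    simp only [cc, Nat.reduceAdd, Nat.reduceDiv]
    omega
  | succ n ih =>
    obtain ⟨u, v, hu, hv, h⟩ := ih (q / 2) (by rw [pow_succ] at hq; omega)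
    rcases Nat.even_or_odd' n with ⟨m, rfl | rfl⟩
    · have e1 : (2 * m + 1) / 2 = m := by omega
      have e2 : 2 * m / 2 = m := by omega
      have e3 : (2 * m + 1 + 1) / 2 = m + 1 := by omega
      have e4 : 2 * m % 2 = 0 := by omega
      rw [e1] at hu h
      rw [e2] at hv h
      rw [e3, e1]
      refine ⟨2 * u + q % 2, v, by rw [pow_succ]; omega, hv, fun z hz => ?_⟩
      have h1 := h z hz
      have h2 := b_succ m z.1
      have h3 : cc (2 * m + 1) z = 2 * cc (2 * m) z + b (m + 1) z.1 % 2 := by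
        simp only [cc, e2, e4, if_true]
      omega
    · have e1 : (2 * m + 1) / 2 = m := by omega
      have e3 : (2 * m + 1 + 1) / 2 = m + 1 := by omega
      have e5 : (2 * m + 1 + 1 + 1) / 2 = m + 1 := by omega
      have e4 : ¬ (2 * m + 1) % 2 = 0 := by omega
      rw [e3] at hu h
      rw [e1] at hv h
      rw [e5, e3]
      refine ⟨u, 2 * v + q % 2, hu, by rw [pow_succ]; omega, fun z hz => ?_⟩
      have h1 := h z hz
      have h2 := b_succ m z.2
      have h3 : cc (2 * m + 1 + 1) z = 2 * cc (2 * m + 1) z + b (m + 1) z.2 % 2 := by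
        rw [cc]
        simp only [e1, e4, if_false]
      omega

/-- The dyadic filtration of the square. -/
noncomputable def DD : Dy (ℝ × ℝ) sq where
  c := cc
  meas := cc_meas
  zero _ := rfl
  succ n z := by simp only [cc]; omega
  int n q hq := by
    obtain ⟨u, v, hu, hv, h⟩ := cc_decode n q hq
    have h1 : (fun z => if cc n z = q then (1 : ℝ) else 0) =ᵐ[sq] fun z =>
        (if b ((n + 1) / 2) z.1 = u then (1 : ℝ) else 0)
          * if b (n / 2) z.2 = v then (1 : ℝ) else 0 := by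
      filter_upwards [ae_good] with z hz
      simp only [h z hz, ite_and]
      split_ifs <;> simp
    rw [integral_congr_ae h1, sq_eq,
      integral_prod_mul (fun x => if b ((n + 1) / 2) x = u then (1 : ℝ) else 0)
        (fun y => if b (n / 2) y = v then (1 : ℝ) else 0), int_ind _ _ hu, int_ind _ _ hv,
      ← mul_inv, ← pow_add]
    congr 2
    omega

theorem b_tendsto {x : ℝ} (hx : 0 ≤ x) :
    Tendsto (fun m : ℕ => (b m x : ℝ) / 2 ^ m) atTop (𝓝 x) := by
  have h0 : Tendsto (fun m : ℕ => x - ((1 : ℝ) / 2) ^ m) atTop (𝓝 (x - 0)) :=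
    tendsto_const_nhds.sub (tendsto_pow_atTop_nhds_zero_of_lt_one (by norm_num) (by norm_num))
  rw [sub_zero] at h0
  refine tendsto_of_tendsto_of_tendsto_of_le_of_le h0 tendsto_const_nhds (fun m => ?_) fun m => ?_
  · have h1 := Nat.lt_floor_add_one (2 ^ m * x)
    have h2 : (0 : ℝ) < 2 ^ m := by positivity
    simp only [b]
    rw [le_div_iff₀ h2, sub_mul, one_div, inv_pow, inv_mul_cancel₀ h2.ne']
    linarith
  · have h1 := Nat.floor_le (show 0 ≤ 2 ^ m * x by positivity)
    have h2 : (0 : ℝ) < 2 ^ m := by positivity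
    simp only [b]
    rw [div_le_iff₀ h2]
    linarith

theorem gen (f : ℝ × ℝ → ℝ) (hf : Integrable f sq) (h : ∀ v : DD.V, DD.ell f hf v = 0) :
    f =ᵐ[sq] 0 := by
  apply ae_eq_zero_of_integral_contDiff_smul_eq_zero hf.locallyIntegrable
  intro g hg hgc
  obtain ⟨C, hC⟩ := hg.continuous.bounded_above_of_compact_support hgc
  set G : ℕ → ℝ × ℝ → ℝ := fun m z => g ((b m z.1 : ℝ) / 2 ^ m, (b m z.2 : ℝ) / 2 ^ m) with hG
  have h1 : ∀ m, ∫ z, G m z • f z ∂sq = 0 := by
    intro m
    have h2 := fun q : Fin (2 ^ (2 * m)) => cc_decode (2 * m) q q.2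
    choose u v _ _ huv using h2
    have e1 : (2 * m + 1) / 2 = m := by omega
    have e2 : 2 * m / 2 = m := by omega
    simp only [e1, e2] at huv
    have h3 := h ⟨fun z => (fun q => if hq : q < 2 ^ (2 * m) then
      g ((u ⟨q, hq⟩ : ℝ) / 2 ^ m, (v ⟨q, hq⟩ : ℝ) / 2 ^ m) else 0) (cc (2 * m) z),
      2 * m, _, fun _ => rfl⟩
    refine Eq.trans (integral_congr_ae ?_) h3
    filter_upwards [ae_good] with z hz
    have h4 : cc (2 * m) z < 2 ^ (2 * m) := DD.c_lt _ z
    obtain ⟨h5, h6⟩ := (huv ⟨_, h4⟩ z hz).1 rfl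
    change G m z * f z = f z * (if hq : cc (2 * m) z < 2 ^ (2 * m) then
      g ((u ⟨_, hq⟩ : ℝ) / 2 ^ m, (v ⟨_, hq⟩ : ℝ) / 2 ^ m) else 0)
    rw [dif_pos h4, ← h5, ← h6, mul_comm]
  have h2 : Tendsto (fun m => ∫ z, G m z • f z ∂sq) atTop (𝓝 (∫ z, g z • f z ∂sq)) := by
    refine tendsto_integral_of_dominated_convergence (fun z => C * ‖f z‖) (fun m => ?_)
      (hf.norm.const_mul C) (fun m => Eventually.of_forall fun z => ?_) ?_
    · have h3 : Measurable (G m) := by
        have := b_meas m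
        exact hg.continuous.measurable.comp (by fun_prop)
      exact h3.aestronglyMeasurable.smul hf.aestronglyMeasurable
    · rw [norm_smul]
      exact mul_le_mul_of_nonneg_right (hC _) (norm_nonneg _)
    · filter_upwards [ae_good] with z hz
      exact ((hg.continuous.tendsto z).comp
        ((b_tendsto hz.1.1).prodMk_nhds (b_tendsto hz.2.1))).smul_const _
  simp only [h1] at h2
  exact tendsto_nhds_unique h2 tendsto_const_nhds

end Pool.Agent.Lib.H3BCO
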