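import Mathlib

open Filter Topology
open scoped InnerProductSpace ComplexOrder ENNReal

namespace Pool.Agent.Lib.helper3.BanachLim

/-- complex `ℓ^∞(ℕ)` -/
abbrev Linf : Type := lp (fun _ : ℕ => ℂ) ∞

/-- Banach limit: a positive, shift-invariant linear functional with `L(1,1,…) = 1`. -/
structure IsBanachLimit (L : Linf →ₗ[ℂ] ℂ) : Prop where
  pos : ∀ a : Linf, (∀ n, 0 ≤ a n) → 0 ≤ L a
  shift : ∀ a b : Linf, (∀ n, b n = a (n + 1)) → L b = L a
  one : ∀ a : Linf, (∀ n, a n = 1) → L a = 1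

variable {H : Type*} [NormedAddCommGroup H] [InnerProductSpace ℂ H]

/-- `sup ‖T^n‖ < ∞` -/
def PowerBounded (T : H →L[ℂ] H) : Prop := ∃ M : ℝ, ∀ n : ℕ, ‖T ^ n‖ ≤ M

/-- `A = A_{T,L}`: the form of `A` at `(x, y)` is `L` of the sequence of inner products of
`T^n x` and `T^n y` (Mathlib's inner product is linear in the second slot). -/
def IsAsympLimit (L : Linf →ₗ[ℂ] ℂ) (T A : H →L[ℂ] H) : Prop :=
  ∀ (x y : H) (a : Linf), (∀ n, a n = ⟪(T ^ n) y, (T ^ n) x⟫_ℂ) → ⟪y, A x⟫_ℂ = L a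

theorem apply_le {T : H →L[ℂ] H} {M : ℝ} (hM : ∀ n : ℕ, ‖T ^ n‖ ≤ M) (n : ℕ) (x : H) :
    ‖(T ^ n) x‖ ≤ M * ‖x‖ := (T ^ n).le_of_opNorm_le (hM n) x

theorem exists_seq {T : H →L[ℂ] H} (hT : PowerBounded T) (x y : H) :
    ∃ a : Linf, ∀ n, a n = ⟪(T ^ n) y, (T ^ n) x⟫_ℂ := by
  obtain ⟨M, hM⟩ := hT
  refine ⟨⟨fun n => ⟪(T ^ n) y, (T ^ n) x⟫_ℂ, memℓp_infty ⟨M * ‖y‖ * (M * ‖x‖), ?_⟩⟩,
    fun _ => rfl⟩
  rintro _ ⟨n, rfl⟩
  exact (norm_inner_le_norm _ _).trans (mul_le_mul (apply_le hM n y) (apply_le hM n x)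
    (norm_nonneg _) ((norm_nonneg _).trans (apply_le hM n y)))

theorem IsBanachLimit.lower {L : Linf →ₗ[ℂ] ℂ} (hL : IsBanachLimit L) (a : Linf) (c : ℝ)
    (h : ∀ n, (c : ℂ) ≤ a n) : (c : ℂ) ≤ L a := by
  have h1 : L 1 = 1 := hL.one 1 fun n => by simp [lp.infty_coeFn_one]
  have := hL.pos (a - (c : ℂ) • (1 : Linf)) fun n => by
    have e : (a - (c : ℂ) • (1 : Linf)) n = a n - c := by
      rw [lp.coeFn_sub, Pi.sub_apply, lp.coeFn_smul, Pi.smul_apply, lp.infty_coeFn_one]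
      simp
    rw [e]
    exact sub_nonneg.2 (h n)
  rw [map_sub, map_smul, h1, smul_eq_mul, mul_one] at this
  exact sub_nonneg.1 this

theorem IsBanachLimit.upper {L : Linf →ₗ[ℂ] ℂ} (hL : IsBanachLimit L) (a : Linf) (c : ℝ)
    (h : ∀ n, a n ≤ (c : ℂ)) : L a ≤ (c : ℂ) := by
  have := hL.lower (-a) (-c) fun n => by
    have e : (-a) n = -(a n) := by simp
    rw [e]
    push_cast
    exact neg_le_neg (h n)
  rw [map_neg] at this
  push_cast at this
  exact neg_le_neg_iff.1 this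

theorem pow_succ_apply (T : H →L[ℂ] H) (n : ℕ) (x : H) : (T ^ (n + 1)) x = (T ^ n) (T x) := by
  rw [pow_succ]; rfl

theorem invariant {L : Linf →ₗ[ℂ] ℂ} (hL : IsBanachLimit L) {T A : H →L[ℂ] H}
    (hT : PowerBounded T) (hA : IsAsympLimit L T A) (n : ℕ) (x y : H) :
    ⟪(T ^ n) y, A ((T ^ n) x)⟫_ℂ = ⟪y, A x⟫_ℂ := by
  induction n generalizing x y with
  | zero => simp
  | succ n ih =>
    rw [pow_succ_apply, pow_succ_apply, ih]
    obtain ⟨a, ha⟩ := exists_seq hT x y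
    obtain ⟨b, hb⟩ := exists_seq hT (T x) (T y)
    rw [hA _ _ a ha, hA _ _ b hb]
    apply hL.shift
    intro k
    rw [ha, hb, pow_succ_apply, pow_succ_apply]

theorem inner_self_eq (x : H) : ⟪x, x⟫_ℂ = ((‖x‖ ^ 2 : ℝ) : ℂ) := by
  rw [inner_self_eq_norm_sq_to_K]; simp

variable [CompleteSpace H]

theorem orbit_lower {L : Linf →ₗ[ℂ] ℂ} (hL : IsBanachLimit L) {T A : H →L[ℂ] H} {M : ℝ}
    (hM : ∀ n : ℕ, ‖T ^ n‖ ≤ M) (hA : IsAsympLimit L T A) (hi : Function.Injective A)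
    (hc : IsCompactOperator A) (x : H) (N : ℕ) : ‖x‖ ≤ M * ‖(T ^ N) x‖ := by
  have hT : PowerBounded T := ⟨M, hM⟩
  have hM0 : 0 ≤ M := (norm_nonneg _).trans (hM 0)
  obtain ⟨K, hK, hKs⟩ := IsCompactOperator.image_closedBall_subset_compact
    (f := (A : H →ₗ[ℂ] H)) hc (M * ‖x‖)
  have hmem : ∀ n : ℕ, A ((T ^ n) x) ∈ K := fun n =>
    hKs ⟨(T ^ n) x, by simpa using apply_le hM n x, rfl⟩
  obtain ⟨z, -, φ, hφ, hz⟩ := hK.tendsto_subseq hmem
  have hd : Tendsto (fun k => ‖A ((T ^ φ (k + N)) x) - A ((T ^ φ k) x)‖) atTop (𝓝 0) := by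
    have := ((hz.comp (tendsto_add_atTop_nat N)).sub hz).norm
    simpa [Function.comp_def] using this
  have hge : ∀ k, φ k + N ≤ φ (k + N) := fun k => hφ.add_le_nat N k |>.trans_eq' (add_comm _ _) |>.trans_eq (by rw [add_comm])
  set R := M * ‖(T ^ N) x‖ with hR
  have hy : ∀ y : H, ‖⟪y, A x⟫_ℂ‖ ≤ ‖ContinuousLinearMap.adjoint A y‖ * R := by
    intro y
    have ht : Tendsto (fun k => ‖ContinuousLinearMap.adjoint A y‖ * R +
        M * ‖y‖ * ‖A ((T ^ φ (k + N)) x) - A ((T ^ φ k) x)‖) atTop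
        (𝓝 (‖ContinuousLinearMap.adjoint A y‖ * R)) := by
      simpa using (hd.const_mul (M * ‖y‖)).const_add (‖ContinuousLinearMap.adjoint A y‖ * R)
    refine ge_of_tendsto' ht fun k => ?_
    obtain ⟨j, hj⟩ := Nat.exists_eq_add_of_le (hge k)
    set w := (T ^ j) ((T ^ N) x) with hw
    have hw1 : ‖w‖ ≤ R := apply_le hM j _
    have e1 : (T ^ φ (k + N)) x = (T ^ φ k) w := by
      rw [hj, hw, add_assoc, add_comm N j, pow_add, pow_add]; rfl
    have e2 : ⟪y, A x⟫_ℂ = ⟪ContinuousLinearMap.adjoint A y, w⟫_ℂ -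
        ⟪(T ^ φ k) y, A ((T ^ φ (k + N)) x) - A ((T ^ φ k) x)⟫_ℂ := by
      rw [e1, inner_sub_right, invariant hL hT hA, invariant hL hT hA,
        ContinuousLinearMap.adjoint_inner_left]
      ring
    rw [e2]
    refine (norm_sub_le _ _).trans (add_le_add ?_ ?_)
    · exact (norm_inner_le_norm _ _).trans (mul_le_mul_of_nonneg_left hw1 (norm_nonneg _))
    · exact (norm_inner_le_norm _ _).trans
        (mul_le_mul_of_nonneg_right (apply_le hM _ y) (norm_nonneg _))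
  have hker : A.ker = ⊥ := LinearMap.ker_eq_bot.2 hi
  have hdense : (ContinuousLinearMap.adjoint A).range.topologicalClosure = ⊤ := by
    rw [← A.orthogonal_ker, hker, Submodule.bot_orthogonal_eq_top]
  have hx : x ∈ closure ((ContinuousLinearMap.adjoint A).range : Set H) := by
    have : x ∈ (ContinuousLinearMap.adjoint A).range.topologicalClosure := by
      rw [hdense]; trivial
    exact this
  have hcl : IsClosed {w : H | ‖⟪w, x⟫_ℂ‖ ≤ ‖w‖ * R} :=
    isClosed_le (by fun_prop) (by fun_prop)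
  have hxx : ‖⟪x, x⟫_ℂ‖ ≤ ‖x‖ * R := by
    refine closure_minimal ?_ hcl hx
    rintro _ ⟨y, rfl⟩
    have := hy y
    rw [← ContinuousLinearMap.adjoint_inner_left] at this
    exact this
  rw [inner_self_eq, Complex.norm_real, Real.norm_eq_abs, abs_of_nonneg (sq_nonneg _), sq] at hxx
  rcases (norm_nonneg x).eq_or_lt with h0 | h0
  · rw [← h0]; exact mul_nonneg hM0 (norm_nonneg _)
  · exact le_of_mul_le_mul_left hxx h0

theorem finiteDimensional_of_compact_injective {L : Linf →ₗ[ℂ] ℂ} (hL : IsBanachLimit L)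
    {T A : H →L[ℂ] H} (hT : PowerBounded T) (hA : IsAsympLimit L T A)
    (hi : Function.Injective A) (hc : IsCompactOperator A) : FiniteDimensional ℂ H := by
  obtain ⟨M0, hM0⟩ := id hT
  set M := max M0 1 with hMdef
  have hM : ∀ n : ℕ, ‖T ^ n‖ ≤ M := fun n => (hM0 n).trans (le_max_left _ _)
  have hp : 0 < M := lt_of_lt_of_le one_pos (le_max_right _ _)
  have hlow : ∀ x : H, ‖x‖ ≤ M ^ 2 * ‖A x‖ := by
    intro x
    obtain ⟨a, ha⟩ := exists_seq hT x x
    have h1 := hL.lower a (‖x‖ ^ 2 / M ^ 2) fun n => by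
      rw [ha, inner_self_eq, Complex.real_le_real, div_le_iff₀ (by positivity)]
      have := orbit_lower hL hM hA hi hc x n
      nlinarith [norm_nonneg x]
    rw [← hA x x a ha] at h1
    have h2 : ‖x‖ ^ 2 / M ^ 2 ≤ ‖x‖ * ‖A x‖ := by
      have := (Complex.le_def.1 h1).1
      rw [Complex.ofReal_re] at this
      exact this.trans ((Complex.re_le_norm _).trans (norm_inner_le_norm _ _))
    rw [div_le_iff₀ (by positivity)] at h2
    rcases (norm_nonneg x).eq_or_lt with h0 | h0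
    · rw [← h0]; positivity
    · apply le_of_mul_le_mul_left _ h0
      nlinarith
  have hanti : AntilipschitzWith ⟨M ^ 2, by positivity⟩ A :=
    A.antilipschitz_of_bound hlow
  have hemb := hanti.isClosedEmbedding A.uniformContinuous
  obtain ⟨K, hK, hK0⟩ := hc
  have : LocallyCompactSpace H :=
    (hemb.isCompact_preimage hK).locallyCompactSpace_of_mem_nhds_of_addGroup hK0
  exact FiniteDimensional.of_locallyCompactSpace ℂ

end Pool.Agent.Lib.helper3.BanachLim
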