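import Pool.Agent.Lib.helper3.BarnesA

open Complex Set MeasureTheory Filter Topology Asymptotics

namespace Pool.Agent.H3Barnes

noncomputable def E : ℂ → ℂ := dslope (fun z => 1 - cexp (-z)) 0

lemma E_diff : Differentiable ℂ E := by
  rw [← differentiableOn_univ, E, differentiableOn_dslope univ_mem]
  exact Differentiable.differentiableOn (by fun_prop)

lemma mul_E (z : ℂ) : z * E z = 1 - cexp (-z) := by
  have := sub_smul_dslope (fun z : ℂ => 1 - cexp (-z)) 0 z
  simpa [E] using this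

lemma E_zero : E 0 = 1 := by
  rw [E, dslope_same]
  have : HasDerivAt (fun z : ℂ => 1 - cexp (-z)) 1 0 := by
    have h := ((hasDerivAt_id' (0:ℂ)).neg.cexp).const_sub 1
    simpa using h
  exact this.deriv

lemma one_sub_exp_ne {z : ℂ} (hz : 0 < z.re) : 1 - cexp (-z) ≠ 0 := by
  intro h
  have h1 : cexp (-z) = 1 := by linear_combination -h
  have h2 := congrArg norm h1
  rw [Complex.norm_exp, norm_one, Real.exp_eq_one_iff] at h2
  simp at h2
  linarith

lemma E_ne {z : ℂ} (hz : 0 < z.re) : E z ≠ 0 := by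
  intro h
  have := mul_E z
  rw [h, mul_zero] at this
  exact one_sub_exp_ne hz this.symm

def U (α : ℝ) : Set ℂ := {z | E z ≠ 0 ∧ E (α * z) ≠ 0}

lemma U_open (α : ℝ) : IsOpen (U α) := by
  have h1 : Continuous E := E_diff.continuous
  exact (isOpen_ne_fun h1 continuous_const).inter
    (isOpen_ne_fun (h1.comp (continuous_const.mul continuous_id)) continuous_const)

lemma zero_mem_U (α : ℝ) : (0:ℂ) ∈ U α := by simp [U, E_zero]

lemma mem_U {α : ℝ} (hα : 0 < α) {z : ℂ} (hz : 0 < z.re) : z ∈ U α :=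
  ⟨E_ne hz, E_ne (by simpa using mul_pos hα hz)⟩

noncomputable def phi (α : ℝ) : ℕ → ℂ → ℂ
  | 0 => fun z => (E z * (α * E (α * z)))⁻¹
  | N + 1 => dslope (phi α N) 0

variable {α : ℝ}

lemma phi_diff (hα : 0 < α) (N : ℕ) : DifferentiableOn ℂ (phi α N) (U α) := by
  induction N with
  | zero =>
    intro z hz
    have h1 : DifferentiableAt ℂ (fun z => E z * (α * E (α * z))) z :=
      (E_diff z).mul (((E_diff _).comp z (differentiableAt_id.const_mul _)).const_mul _)
    exact (h1.inv (mul_ne_zero hz.1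
      (mul_ne_zero (ofReal_ne_zero.mpr hα.ne') hz.2))).differentiableWithinAt
  | succ N ih =>
    rw [phi, differentiableOn_dslope ((U_open α).mem_nhds (zero_mem_U α))]
    exact ih

lemma phi_rec (N : ℕ) (z : ℂ) : phi α N z = phi α N 0 + z * phi α (N + 1) z := by
  have := sub_smul_dslope (phi α N) 0 z
  simp only [sub_zero, smul_eq_mul] at this
  rw [phi, this]; ring

lemma phi_zero_eq (hα : 0 < α) {z : ℂ} (hz : 0 < z.re) :
    phi α 0 z = z ^ 2 * ((1 - cexp (-z))⁻¹ * (1 - cexp (-(α * z)))⁻¹) := by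
  have hz0 : z ≠ 0 := by rintro rfl; simp at hz
  have hα0 : (α : ℂ) ≠ 0 := ofReal_ne_zero.mpr hα.ne'
  have h1 := E_ne hz
  have h2 : E (α * z) ≠ 0 := (mem_U hα hz).2
  rw [← mul_E z, ← mul_E (α * z), phi]
  field_simp

lemma phi_contAt (hα : 0 < α) (N : ℕ) {z : ℂ} (hz : z ∈ U α) : ContinuousAt (phi α N) z :=
  ((phi_diff hα N).differentiableAt ((U_open α).mem_nhds hz)).continuousAt

lemma exp_ray_tendsto {u : ℂ} (hu : 0 < u.re) :
    Tendsto (fun x : ℝ => cexp (-(x * u))) atTop (𝓝 0) := by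
  rw [tendsto_zero_iff_norm_tendsto_zero]
  simp only [Complex.norm_exp, neg_re, re_ofReal_mul]
  exact Real.tendsto_exp_neg_atTop_nhds_zero.comp (tendsto_id.atTop_mul_const hu)

lemma phi_growth (hα : 0 < α) {u : ℂ} (hu : 0 < u.re) (N : ℕ) :
    (fun x : ℝ => phi α N (x * u)) =O[atTop] (fun x : ℝ => x ^ 2) := by
  have hu0 : u ≠ 0 := by rintro rfl; simp at hu
  induction N with
  | zero =>
    have h1 := exp_ray_tendsto hu
    have h2 := exp_ray_tendsto (u := α * u) (by simpa using mul_pos hα hu)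
    have h3 : Tendsto (fun x : ℝ => u ^ 2 * ((1 - cexp (-(x * u)))⁻¹ *
        (1 - cexp (-(x * (α * u))))⁻¹)) atTop (𝓝 (u ^ 2 * ((1 - 0)⁻¹ * (1 - 0)⁻¹))) :=
      (((h1.const_sub 1).inv₀ (by simp)).mul ((h2.const_sub 1).inv₀ (by simp))).const_mul _
    have h4 := h3.isBigO_one ℝ
    have h5 : (fun x : ℝ => ((x:ℂ)) ^ 2) =O[atTop] (fun x : ℝ => x ^ 2) :=
      IsBigO.of_bound 1 (Eventually.of_forall fun x => by simp)
    have h6 := h5.mul h4
    simp only [mul_one] at h6
    refine h6.congr' ?_ EventuallyEq.rfl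
    filter_upwards [eventually_gt_atTop 0] with x hx
    rw [phi_zero_eq hα (by simpa using mul_pos hx hu)]
    rw [show (α:ℂ) * (x * u) = x * (α * u) by ring]
    ring
  | succ N ih =>
    have h1 : (fun _ : ℝ => phi α N 0) =O[atTop] (fun x : ℝ => x ^ 2) :=
      (isLittleO_const_left.mpr (Or.inr (tendsto_norm_atTop_atTop.comp
        (tendsto_pow_atTop two_ne_zero)))).isBigO
    have h2 : (fun x : ℝ => ((x:ℂ) * u)⁻¹) =O[atTop] (fun _ : ℝ => (1:ℝ)) := by
      refine IsBigO.of_bound ‖u‖⁻¹ ?_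
      filter_upwards [eventually_ge_atTop 1] with x hx
      simp only [norm_inv, norm_mul, norm_real, Real.norm_eq_abs, norm_one, mul_one]
      have : 0 < ‖u‖ := norm_pos_iff.mpr hu0
      apply inv_anti₀ this
      rw [abs_of_pos (by linarith)]
      nlinarith
    have h3 := (ih.sub h1).mul h2
    simp only [mul_one] at h3
    refine h3.congr' ?_ EventuallyEq.rfl
    filter_upwards [eventually_gt_atTop 0] with x hx
    have hx0 : (x:ℂ) ≠ 0 := ofReal_ne_zero.mpr hx.ne'
    rw [phi_rec N (x * u)]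
    field_simp
    ring

noncomputable def hh (α : ℝ) (N : ℕ) (u : ℂ) (x : ℝ) : ℂ := cexp (-(x * u)) * phi α N (x * u)

lemma hh_contAt (hα : 0 < α) {u : ℂ} (hu : 0 < u.re) (N : ℕ) {x : ℝ} (hx : 0 ≤ x) :
    ContinuousAt (hh α N u) x := by
  have hm : (x:ℂ) * u ∈ U α := by
    rcases hx.eq_or_lt with h | h
    · rw [← h]; simpa using zero_mem_U α
    · exact mem_U hα (by simpa using mul_pos h hu)
  have h1 : ContinuousAt (fun x : ℝ => (x:ℂ) * u) x := by fun_prop
  have h2 : ContinuousAt (fun x : ℝ => phi α N (x * u)) x :=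
    ContinuousAt.comp (f := fun x : ℝ => (x:ℂ) * u) (phi_contAt hα N hm) h1
  exact ContinuousAt.mul (by fun_prop) h2

lemma hh_loc (hα : 0 < α) {u : ℂ} (hu : 0 < u.re) (N : ℕ) :
    LocallyIntegrableOn (hh α N u) (Ioi 0) :=
  ContinuousOn.locallyIntegrableOn
    (fun _ hx => (hh_contAt hα hu N (le_of_lt hx)).continuousWithinAt) measurableSet_Ioi

lemma hh_top (hα : 0 < α) {u : ℂ} (hu : 0 < u.re) (N : ℕ) :
    hh α N u =O[atTop] fun t : ℝ => Real.exp (-(u.re / 2) * t) := by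
  have h1 : (fun x : ℝ => cexp (-(x * u))) =O[atTop] fun t : ℝ => Real.exp (-u.re * t) := by
    refine IsBigO.of_bound 1 (Eventually.of_forall fun x => ?_)
    simp [Complex.norm_exp, mul_comm]
  have h2 : (fun x : ℝ => x ^ 2) =O[atTop] fun t : ℝ => Real.exp ((u.re / 2) * t) :=
    (isLittleO_pow_exp_pos_mul_atTop 2 (by linarith)).isBigO
  have h3 := h1.mul ((phi_growth hα hu N).trans h2)
  refine h3.congr (fun _ => rfl) fun x => ?_
  rw [← Real.exp_add]; congr 1; ring

lemma hh_bot (hα : 0 < α) {u : ℂ} (hu : 0 < u.re) (N : ℕ) :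
    hh α N u =O[𝓝[>] 0] (fun x : ℝ => x ^ (-(0:ℝ))) := by
  have h := ((hh_contAt hα hu N le_rfl).tendsto.mono_left
    (nhdsWithin_le_nhds (s := Ioi 0))).isBigO_one ℝ
  simpa using h

lemma hh_conv (hα : 0 < α) {u : ℂ} (hu : 0 < u.re) (N : ℕ) {s : ℂ} (hs : 0 < s.re) :
    MellinConvergent (hh α N u) s :=
  mellinConvergent_of_isBigO_rpow_exp (by linarith : 0 < u.re / 2) (hh_loc hα hu N)
    (hh_top hα hu N) (hh_bot hα hu N) hs

lemma hh_mdiff (hα : 0 < α) {u : ℂ} (hu : 0 < u.re) (N : ℕ) {s : ℂ} (hs : 0 < s.re) :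
    DifferentiableAt ℂ (mellin (hh α N u)) s :=
  mellin_differentiableAt_of_isBigO_rpow_exp (by linarith : 0 < u.re / 2) (hh_loc hα hu N)
    (hh_top hα hu N) (hh_bot hα hu N) hs

lemma hh_rec (hα : 0 < α) {u : ℂ} (hu : 0 < u.re) (N : ℕ) {s : ℂ} (hs : 0 < s.re) :
    mellin (hh α N u) s = phi α N 0 * (u ^ (-s) * Gamma s)
      + u * mellin (hh α (N + 1) u) (s + 1) := by
  have h1 := conv_exp hs hu
  have h2 : MellinConvergent (fun t : ℝ => (t:ℂ) ^ (1:ℂ) • hh α (N + 1) u t) s :=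
    MellinConvergent.cpow_smul.mpr (hh_conv hα hu (N + 1) (by simp; linarith))
  rw [← mellin_exp hs hu, ← mellin_cpow_smul, ← smul_eq_mul, ← smul_eq_mul,
    ← mellin_const_smul, ← mellin_const_smul,
    ← (hasMellin_add (h1.const_smul _) (h2.const_smul _)).2]
  congr 1
  ext x
  simp only [hh, smul_eq_mul, cpow_one]
  rw [phi_rec N (x * u)]
  ring

/-- the exponents -/
noncomputable def lam (α : ℝ) (m : ℕ × ℕ) : ℝ := 1 + (m.1 + m.2 * α)

lemma lam_pos (hα : 0 < α) (m : ℕ × ℕ) : 0 < lam α m := by unfold lam; positivity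

lemma lam_summable (hα : 0 < α) {σ : ℝ} (hσ : 2 < σ) :
    Summable fun m : ℕ × ℕ => lam α m ^ (-σ) := by
  have h1 : Summable fun n : ℕ => ((n:ℝ) + 1) ^ (-(σ / 2)) := by
    have := (summable_nat_add_iff 1).mpr
      (Real.summable_nat_rpow.mpr (show -(σ / 2) < -1 by linarith))
    simpa using this
  have h2 := h1.mul_of_nonneg h1 (fun n => by positivity) (fun n => by positivity)
  set β := min 1 α with hβ
  have hβ0 : 0 < β := lt_min one_pos hα
  have hβ1 : β ≤ 1 := min_le_left _ _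
  have hβ2 : β ≤ α := min_le_right _ _
  refine Summable.of_nonneg_of_le (fun m => Real.rpow_nonneg (lam_pos hα m).le _) (fun m => ?_)
    (h2.mul_left ((β ^ 2) ^ (-(σ / 2))))
  have ha : (0:ℝ) ≤ m.1 := Nat.cast_nonneg _
  have hb : (0:ℝ) ≤ m.2 := Nat.cast_nonneg _
  rw [← Real.mul_rpow (by positivity) (by positivity),
    ← Real.mul_rpow (by positivity) (by positivity)]
  have e : lam α m ^ (-σ) = (lam α m ^ 2) ^ (-(σ / 2)) := by
    rw [← Real.rpow_natCast, ← Real.rpow_mul (lam_pos hα m).le]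
    congr 1; push_cast; ring
  rw [e]
  apply Real.rpow_le_rpow_of_nonpos (by positivity) ?_ (by linarith)
  have l1 : β * (m.1 + 1) ≤ lam α m := by unfold lam; nlinarith
  have l2 : β * (m.2 + 1) ≤ lam α m := by unfold lam; nlinarith
  calc β ^ 2 * ((m.1 + 1) * (m.2 + 1)) = (β * (m.1 + 1)) * (β * (m.2 + 1)) := by ring
    _ ≤ lam α m * lam α m := mul_le_mul l1 l2 (by positivity) (lam_pos hα m).le
    _ = lam α m ^ 2 := by ring

lemma hasSum_geo {z : ℂ} (hz : 0 < z.re) :
    HasSum (fun n : ℕ => cexp (-z) ^ n) (1 - cexp (-z))⁻¹ ∧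
      Summable (fun n : ℕ => ‖cexp (-z) ^ n‖) := by
  have h : ‖cexp (-z)‖ < 1 := by
    rw [Complex.norm_exp]; apply Real.exp_lt_one_iff.mpr; simpa using hz
  refine ⟨hasSum_geometric_of_norm_lt_one h, ?_⟩
  simp only [norm_pow]
  exact summable_geometric_of_lt_one (norm_nonneg _) h

lemma hasSum_G (hα : 0 < α) {z : ℂ} (hz : 0 < z.re) :
    HasSum (fun m : ℕ × ℕ => cexp (-(lam α m * z)))
      (cexp (-z) * ((1 - cexp (-z))⁻¹ * (1 - cexp (-(α * z)))⁻¹)) := by
  obtain ⟨a1, a2⟩ := hasSum_geo hz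
  obtain ⟨b1, b2⟩ := hasSum_geo (z := α * z) (by simpa using mul_pos hα hz)
  have h := (a1.mul b1 (summable_mul_of_summable_norm a2 b2)).mul_left (cexp (-z))
  refine (congrArg (fun f => HasSum f _) (funext fun m => ?_)).mpr h
  rw [← Complex.exp_nat_mul, ← Complex.exp_nat_mul, ← Complex.exp_add, ← Complex.exp_add]
  congr 1
  simp only [lam]; push_cast; ring

lemma zeta_summable (hα : 0 < α) {s : ℂ} (hs : 2 < s.re) :
    Summable fun m : ℕ × ℕ => (lam α m : ℂ) ^ (-s) := by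
  refine Summable.of_norm ((lam_summable hα hs).congr fun m => ?_)
  rw [norm_cpow_eq_rpow_re_of_pos (lam_pos hα m), neg_re]

lemma mellin_zero (hα : 0 < α) {u : ℂ} (hu : 0 < u.re) {s : ℂ} (hs : 0 < s.re) :
    mellin (hh α 0 u) s =
      u ^ (-s) * (Gamma (s + 2) * ∑' m : ℕ × ℕ, (lam α m : ℂ) ^ (-(s + 2))) := by
  have hu0 : u ≠ 0 := by rintro rfl; simp at hu
  have hs2 : 2 < (s + 2).re := by simp; linarith
  have key := hasSum_mellin_ray (p := lam α) (s := s + 2) (u := u)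
    (F := fun t : ℝ => cexp (-(t * u)) * ((1 - cexp (-(t * u)))⁻¹ * (1 - cexp (-(α * (t * u))))⁻¹))
    (lam_pos hα) (by linarith) hu (fun t ht => ?_) (lam_summable hα hs2)
  · have e := key.tsum_eq
    rw [tsum_mul_left, ← mellin_cpow_smul] at e
    have e2 : u ^ (-s) = u ^ 2 * u ^ (-(s + 2)) := by
      rw [← cpow_natCast, ← cpow_add _ _ hu0]; congr 1; push_cast; ring
    rw [e2, mul_assoc, ← mul_assoc (u ^ (-(s + 2))), e, ← smul_eq_mul, ← mellin_const_smul]
    simp only [mellin]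
    refine setIntegral_congr_fun measurableSet_Ioi fun t ht => ?_
    have ht0 : 0 < t := ht
    simp only [hh, smul_eq_mul]
    rw [phi_zero_eq hα (by simpa using mul_pos ht0 hu), cpow_two]
    ring
  · have ht0 : 0 < t := ht
    have := hasSum_G hα (z := t * u) (by simpa using mul_pos ht0 hu)
    refine (congrArg (fun f => HasSum f _) (funext fun m => ?_)).mpr this
    congr 1; ring

lemma mellin_rot (hα : 0 < α) {u : ℂ} (hu : 0 < u.re) (N : ℕ) :
    ∀ s : ℂ, 0 < s.re → mellin (hh α N u) s = u ^ (-s) * mellin (hh α N 1) s := by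
  have hu0 : u ≠ 0 := by rintro rfl; simp at hu
  have h1 : (0:ℝ) < (1:ℂ).re := by simp
  induction N with
  | zero =>
    intro s hs
    rw [mellin_zero hα hu hs, mellin_zero hα h1 hs]; simp
  | succ N ih =>
    have a1 : AnalyticOnNhd ℂ (mellin (hh α (N + 1) u)) {s | 0 < s.re} :=
      DifferentiableOn.analyticOnNhd
        (fun s hs => (hh_mdiff hα hu _ hs).differentiableWithinAt) (halfplane_open 0)
    have a2 : AnalyticOnNhd ℂ (fun s => u ^ (-s) * mellin (hh α (N + 1) 1) s) {s | 0 < s.re} :=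
      DifferentiableOn.analyticOnNhd
        (fun s hs => ((differentiableAt_id.neg.const_cpow (Or.inl hu0)).mul
          (hh_mdiff hα h1 _ hs)).differentiableWithinAt) (halfplane_open 0)
    intro s hs
    refine a1.eqOn_of_preconnected_of_eventuallyEq a2 (halfplane_preconnected 0) (z₀ := 2)
      (by simp) ?_ hs
    filter_upwards [(halfplane_open 1).mem_nhds (show (2:ℂ) ∈ {s : ℂ | 1 < s.re} by simp)]
      with v hv
    have hv' : 0 < (v - 1).re := by simp; linarith
    have r1 := hh_rec hα hu N hv'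
    have r2 := hh_rec hα h1 N hv'
    rw [ih _ hv', r2, sub_add_cancel] at r1
    have e2 : u ^ (-(v - 1)) = u * u ^ (-v) := by
      rw [show -(v - 1) = 1 + -v by ring, cpow_add _ _ hu0, cpow_one]
    rw [e2] at r1
    simp only [one_cpow, one_mul] at r1
    apply mul_left_cancel₀ hu0
    linear_combination -r1

noncomputable def AA (α : ℝ) (N : ℕ) (s : ℂ) : ℂ := mellin (hh α N 1) s * (Gamma s)⁻¹

lemma AA_diff (hα : 0 < α) (N : ℕ) (s : ℂ) (hs : 0 < s.re) : DifferentiableAt ℂ (AA α N) s :=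
  (hh_mdiff hα (by simp) N hs).mul (differentiable_one_div_Gamma s)

lemma AA_rec (hα : 0 < α) (N : ℕ) (s : ℂ) (hs : 0 < s.re) :
    AA α N s = phi α N 0 + s * AA α (N + 1) (s + 1) := by
  have hs0 : s ≠ 0 := by rintro rfl; simp at hs
  have hG := Gamma_ne_zero_of_re_pos hs
  rw [AA, AA, hh_rec hα (by simp) N hs, Gamma_add_one _ hs0]
  simp only [one_cpow]
  field_simp

/-- the continuation of the Barnes double zeta function -/
lemma exists_F (hα : 0 < α) : ∃ B : ℂ → ℂ, Differentiable ℂ B ∧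
    (∀ s : ℂ, 2 < s.re →
      B s / ((s - 1) * (s - 2)) = ∑' m : ℕ × ℕ, (lam α m : ℂ) ^ (-s)) ∧
    ∀ s : ℂ, 0 < s.re → s ≠ 1 → s ≠ 2 → B s / ((s - 1) * (s - 2)) =
      phi α 0 0 / ((s - 1) * (s - 2)) + phi α 1 0 / (s - 1) + AA α 2 s := by
  obtain ⟨B, hB, h0, h2⟩ := exists_entire (A := AA α) (c := fun N => phi α N 0)
    (AA_diff hα) (AA_rec hα)
  refine ⟨fun s => B (s - 2), hB.comp (differentiable_id.sub_const 2), fun s hs => ?_,
    fun s hs h1 h2' => ?_⟩
  · have hs' : 0 < (s - 2).re := by simp; linarith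
    have hG := Gamma_ne_zero_of_re_pos hs'
    have n1 : s - 1 ≠ 0 := by
      intro h; have := congrArg re h; simp at this; linarith
    have n2 : s - 2 ≠ 0 := by
      intro h; have := congrArg re h; simp at this; linarith
    beta_reduce
    rw [h0 _ hs', AA, mellin_zero hα (by simp) hs', sub_add_cancel]
    have g : Gamma s = (s - 1) * ((s - 2) * Gamma (s - 2)) := by
      rw [← Gamma_add_one _ n2, show s - 2 + 1 = s - 1 by ring, ← Gamma_add_one _ n1,
        sub_add_cancel]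
    rw [g]
    simp only [one_cpow]
    field_simp
  · have n1 : s - 1 ≠ 0 := sub_ne_zero.mpr h1
    have n2 : s - 2 ≠ 0 := sub_ne_zero.mpr h2'
    beta_reduce
    rw [h2 _ (by simp; linarith), sub_add_cancel, show s - 2 + 1 = s - 1 by ring]
    field_simp
    ring

end Pool.Agent.H3Barnes
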