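import Pool.Agent.Lib.helper3.BarnesB

open Complex Set MeasureTheory Filter Topology Asymptotics

namespace Pool.Agent.H3Barnes

lemma gamma_bound {t : ℝ} (ht : 1 ≤ t) :
    ‖Gamma (1 + t * I)‖ ≤ 4 * t ^ (1 / 2 : ℝ) * Real.exp (-(Real.pi / 2) * t) := by
  have ht0 : 0 < t := by linarith
  have htI : (t:ℂ) * I ≠ 0 := mul_ne_zero (ofReal_ne_zero.mpr ht0.ne') I_ne_zero
  have hpi := Real.pi_pos
  have hconj : Gamma (1 - t * I) = (starRingEnd ℂ) (Gamma (1 + t * I)) := by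
    rw [← Gamma_conj]; congr 1; simp [sub_eq_add_neg]
  have h1 : ‖Gamma (1 + t * I)‖ ^ 2 = ‖Gamma (1 + t * I) * Gamma (1 - t * I)‖ := by
    rw [norm_mul, hconj, Complex.norm_conj, sq]
  have hsh : 0 < Real.sinh (Real.pi * t) := Real.sinh_pos_iff.mpr (by positivity)
  have h2 : ‖Gamma (1 + t * I) * Gamma (1 - t * I)‖ = t * Real.pi / Real.sinh (Real.pi * t) := by
    rw [add_comm, Gamma_add_one _ htI, mul_assoc, Gamma_mul_Gamma_one_sub, ← mul_assoc,
      sin_mul_I, ← ofReal_mul, ← ofReal_sinh]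
    simp only [norm_mul, norm_div, norm_real, norm_I, Real.norm_eq_abs, mul_one]
    rw [abs_of_pos ht0, abs_of_pos hpi, abs_of_pos hsh, mul_div_assoc]
  have h3 : Real.exp (Real.pi * t) / 4 ≤ Real.sinh (Real.pi * t) := by
    rw [Real.sinh_eq]
    have a1 : Real.exp (-(Real.pi * t)) ≤ 1 := Real.exp_le_one_iff.mpr (by nlinarith)
    have a2 : 2 ≤ Real.exp (Real.pi * t) := by
      have := Real.add_one_le_exp (Real.pi * t)
      nlinarith [Real.pi_gt_three]
    linarith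
  have h4 : ‖Gamma (1 + t * I)‖ ^ 2 ≤
      (4 * t ^ (1 / 2 : ℝ) * Real.exp (-(Real.pi / 2) * t)) ^ 2 := by
    rw [h1, h2, mul_pow, mul_pow, ← Real.rpow_natCast (t ^ _), ← Real.rpow_mul ht0.le,
      ← Real.exp_nat_mul, div_le_iff₀ hsh]
    norm_num
    have e : Real.exp (-(2 * (Real.pi / 2 * t))) * Real.exp (Real.pi * t) = 1 := by
      rw [← Real.exp_add]; rw [Real.exp_eq_one_iff]; ring
    have p : 0 < Real.exp (-(2 * (Real.pi / 2 * t))) := Real.exp_pos _
    calc t * Real.pi ≤ 16 * t * (1 / 4) := by nlinarith [Real.pi_lt_four]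
      _ = 16 * t * Real.exp (-(2 * (Real.pi / 2 * t))) * (Real.exp (Real.pi * t) / 4) := by
        linear_combination (-4 * t) * e
      _ ≤ _ := by gcongr
  exact (pow_le_pow_iff_left₀ (norm_nonneg _) (by positivity) two_ne_zero).mp h4

lemma pow_exp {p t η : ℝ} (hp : 0 ≤ p) (hp2 : p ≤ 2) (ht : 0 ≤ t) (hη : 0 < η) :
    t ^ p * Real.exp (-(η / 4) * t) ≤ 33 * η ^ (-p) := by
  set y := η * t with hy
  have hy0 : 0 ≤ y := by positivity
  have h1 : y ^ p ≤ 1 + y ^ 2 := by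
    rcases le_total y 1 with h | h
    · have := Real.rpow_le_one hy0 h hp
      nlinarith
    · have := Real.rpow_le_rpow_of_exponent_le h hp2
      rw [Real.rpow_two] at this
      linarith
  have h2 : 1 + y ^ 2 ≤ 33 * Real.exp (y / 4) := by
    have := Real.quadratic_le_exp_of_nonneg (show 0 ≤ y / 4 by positivity)
    nlinarith
  have h3 : t ^ p = η ^ (-p) * y ^ p := by
    rw [hy, Real.mul_rpow hη.le ht, ← mul_assoc, ← Real.rpow_add hη]; simp
  have h4 : Real.exp (y / 4) * Real.exp (-(η / 4) * t) = 1 := by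
    rw [← Real.exp_add, Real.exp_eq_one_iff, hy]; ring
  have h5 : 0 < η ^ (-p) := Real.rpow_pos_of_pos hη _
  have h6 := Real.exp_pos (-(η / 4) * t)
  rw [h3]
  calc η ^ (-p) * y ^ p * Real.exp (-(η / 4) * t)
      ≤ η ^ (-p) * (33 * Real.exp (y / 4)) * Real.exp (-(η / 4) * t) := by
        gcongr; linarith
    _ = 33 * η ^ (-p) := by linear_combination (33 * η ^ (-p)) * h4

lemma weighted_bound {ψ : ℝ → ℝ} (hψ : Continuous ψ) (h0 : ∀ t, 0 ≤ ψ t) {C : ℝ} (hC : 0 ≤ C)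
    (hb : ∀ T, 1 ≤ T → ∫ t in (1:ℝ)..T, ψ t ≤ C * T ^ (5 / 4 : ℝ)) {η T : ℝ} (hη : 0 < η)
    (hT : 1 ≤ T) :
    ∫ t in (1:ℝ)..T, t ^ (1 / 2 : ℝ) * Real.exp (-η * t) * ψ t ≤ 3267 * C * η ^ (-(7 / 4 : ℝ)) := by
  set Ψ : ℝ → ℝ := fun T => ∫ t in (1:ℝ)..T, ψ t with hΨ
  have hd : ∀ x, HasDerivAt Ψ (ψ x) x := fun x =>
    intervalIntegral.integral_hasDerivAt_right (hψ.intervalIntegrable _ _)
      (hψ.stronglyMeasurableAtFilter _ _) hψ.continuousAt
  have hΨc : Continuous Ψ := continuous_iff_continuousAt.mpr fun x => (hd x).continuousAt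
  have hw : ∀ x, HasDerivAt (fun t => Real.exp (-(η / 2) * t))
      (Real.exp (-(η / 2) * x) * (-(η / 2))) x := fun x => by
    simpa using ((hasDerivAt_id' x).const_mul (-(η / 2))).exp
  have ibp := intervalIntegral.integral_mul_deriv_eq_deriv_mul (a := 1) (b := T)
    (fun x _ => hw x) (fun x _ => hd x) (Continuous.intervalIntegrable (by fun_prop) _ _)
    (hψ.intervalIntegrable _ _)
  have hΨ1 : Ψ 1 = 0 := by simp [hΨ]
  have key : ∀ t, 1 ≤ t → Real.exp (-(η / 4) * t) * Ψ t ≤ 33 * C * η ^ (-(5 / 4 : ℝ)) := by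
    intro t ht
    have := pow_exp (p := 5 / 4) (t := t) (by norm_num) (by norm_num) (by linarith) hη
    calc Real.exp (-(η / 4) * t) * Ψ t ≤ Real.exp (-(η / 4) * t) * (C * t ^ (5 / 4 : ℝ)) := by
          gcongr; exact hb t ht
      _ = C * (t ^ (5 / 4 : ℝ) * Real.exp (-(η / 4) * t)) := by ring
      _ ≤ C * (33 * η ^ (-(5 / 4 : ℝ))) := by gcongr
      _ = _ := by ring
  have hΨ0 : ∀ t, 1 ≤ t → 0 ≤ Ψ t := fun t ht =>
    intervalIntegral.integral_nonneg ht fun x _ => h0 x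
  set D := 33 * C * η ^ (-(5 / 4 : ℝ)) with hD
  have hD0 : 0 ≤ D := by positivity
  have b1 : Real.exp (-(η / 2) * T) * Ψ T ≤ D := by
    refine le_trans ?_ (key T hT)
    gcongr
    · exact hΨ0 T hT
    · nlinarith
  have b2 : -∫ x in (1:ℝ)..T, Real.exp (-(η / 2) * x) * (-(η / 2)) * Ψ x ≤ 2 * D := by
    rw [← intervalIntegral.integral_neg]
    have hw' : ∀ x, HasDerivAt (fun t => -2 * D * Real.exp (-(η / 4) * t))
        (-2 * D * (Real.exp (-(η / 4) * x) * (-(η / 4)))) x := fun x => by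
      simpa using (((hasDerivAt_id' x).const_mul (-(η / 4))).exp).const_mul (-2 * D)
    have e := intervalIntegral.integral_eq_sub_of_hasDerivAt (a := 1) (b := T)
      (fun x _ => hw' x) (Continuous.intervalIntegrable (by fun_prop) _ _)
    have m := intervalIntegral.integral_mono_on (μ := volume) hT
      (f := fun x => -(Real.exp (-(η / 2) * x) * (-(η / 2)) * Ψ x))
      (g := fun x => -2 * D * (Real.exp (-(η / 4) * x) * (-(η / 4))))
      (Continuous.intervalIntegrable (by fun_prop) _ _)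
      (Continuous.intervalIntegrable (by fun_prop) _ _) (fun x hx => ?_)
    · rw [e] at m
      have p1 := Real.exp_pos (-(η / 4) * T)
      have p2 : Real.exp (-(η / 4) * 1) ≤ 1 := Real.exp_le_one_iff.mpr (by linarith)
      nlinarith
    · have k := key x hx.1
      have e2 : Real.exp (-(η / 2) * x) = Real.exp (-(η / 4) * x) * Real.exp (-(η / 4) * x) := by
        rw [← Real.exp_add]; congr 1; ring
      have p1 := Real.exp_pos (-(η / 4) * x)
      rw [e2]
      have := mul_le_mul_of_nonneg_left k (show 0 ≤ Real.exp (-(η / 4) * x) * (η / 2) by positivity)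
      nlinarith
  have b3 : ∫ x in (1:ℝ)..T, Real.exp (-(η / 2) * x) * ψ x ≤ 3 * D := by
    rw [ibp, hΨ1]; linarith
  have m := intervalIntegral.integral_mono_on (μ := volume) hT
      (f := fun t => t ^ (1 / 2 : ℝ) * Real.exp (-η * t) * ψ t)
      (g := fun x => (33 * η ^ (-(1 / 2 : ℝ))) * (Real.exp (-(η / 2) * x) * ψ x))
      (Continuous.intervalIntegrable (((continuous_id.rpow_const (fun _ => Or.inr (by norm_num))).mul
        (by fun_prop)).mul hψ) _ _)
      (Continuous.intervalIntegrable (by fun_prop) _ _) (fun x hx => ?_)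
  · rw [intervalIntegral.integral_const_mul] at m
    have p := Real.rpow_pos_of_pos hη (-(1 / 2 : ℝ))
    have e : η ^ (-(7 / 4 : ℝ)) = η ^ (-(1 / 2 : ℝ)) * η ^ (-(5 / 4 : ℝ)) := by
      rw [← Real.rpow_add hη]; norm_num
    calc _ ≤ _ := m
      _ ≤ (33 * η ^ (-(1 / 2 : ℝ))) * (3 * D) := by gcongr
      _ = _ := by rw [e, hD]; ring
  · have hx1 : 1 ≤ x := hx.1
    have k := pow_exp (p := 1 / 2) (t := x) (by norm_num) (by norm_num) (by linarith) hη
    have e2 : Real.exp (-η * x) ≤ Real.exp (-(η / 4) * x) * Real.exp (-(η / 2) * x) := by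
      rw [← Real.exp_add]; apply Real.exp_le_exp.mpr; nlinarith
    have p0 := h0 x
    have p1 : 0 ≤ x ^ (1 / 2 : ℝ) := by positivity
    calc x ^ (1 / 2 : ℝ) * Real.exp (-η * x) * ψ x
        ≤ x ^ (1 / 2 : ℝ) * (Real.exp (-(η / 4) * x) * Real.exp (-(η / 2) * x)) * ψ x := by gcongr
      _ = (x ^ (1 / 2 : ℝ) * Real.exp (-(η / 4) * x)) * (Real.exp (-(η / 2) * x) * ψ x) := by ring
      _ ≤ _ := by gcongr

variable {α : ℝ}

lemma upper (hα : 0 < α) {C : ℝ} (hC : 0 ≤ C)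
    (hb : ∀ T, 1 ≤ T → ∫ t in (1:ℝ)..T, ‖AA α 2 (1 + t * I)‖ ≤ C * T ^ (5 / 4 : ℝ)) :
    ∃ K : ℝ, ∀ (z : ℂ) (η : ℝ), 0 < z.re → 1 / 2 ≤ arg z → 1 ≤ ‖z‖ → 0 < η → η ≤ 1 →
      η ≤ Real.pi / 2 - arg z → ‖hh α 2 z 1‖ ≤ K * η ^ (-(7 / 4 : ℝ)) := by
  set K0 := ∫ x in Ioi (0:ℝ), ‖hh α 2 1 x‖ with hK0
  have hK0' : 0 ≤ K0 := integral_nonneg fun _ => norm_nonneg _
  set K1 := ∫ t in Iic (1:ℝ), K0 * Real.exp 2 * Real.exp (1 / 2 * t) with hK1
  have hK1' : 0 ≤ K1 := integral_nonneg fun _ => by positivity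
  have hre : ∀ t : ℝ, 0 < ((1:ℂ) + t * I).re := fun t => by simp
  have hM : ∀ t : ℝ, ‖mellin (hh α 2 1) (1 + t * I)‖ ≤ K0 := fun t => by
    refine (norm_integral_le_integral_norm _).trans (le_of_eq ?_)
    refine setIntegral_congr_fun measurableSet_Ioi fun x hx => ?_
    simp only [norm_smul]
    rw [norm_cpow_eq_rpow_re_of_pos hx]; simp
  have hψ : Continuous fun t : ℝ => ‖AA α 2 (1 + t * I)‖ := by
    refine continuous_iff_continuousAt.mpr fun t => ContinuousAt.norm ?_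
    exact ContinuousAt.comp (f := fun t : ℝ => (1:ℂ) + t * I)
      (AA_diff hα 2 _ (hre t)).continuousAt (by fun_prop)
  refine ⟨K1 + 4 * (3267 * C), fun z η hz harg hn hη hη1 hηa => ?_⟩
  have hz0 : z ≠ 0 := by rintro rfl; simp at hz
  set g : ℝ → ℂ := fun t => mellin (hh α 2 z) (1 + t * I) with hg
  have hgc : Continuous g := by
    refine continuous_iff_continuousAt.mpr fun t => ?_
    exact ContinuousAt.comp (f := fun t : ℝ => (1:ℂ) + t * I)
      (hh_mdiff hα hz 2 (hre t)).continuousAt (by fun_prop)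
  have hgn : ∀ t, ‖g t‖ ≤ Real.exp (arg z * t) * ‖mellin (hh α 2 1) (1 + t * I)‖ := fun t => by
    simp only [hg]
    rw [mellin_rot hα hz 2 _ (hre t), norm_mul, norm_cpow_of_ne_zero hz0]
    gcongr
    simp only [neg_re, add_re, one_re, mul_re, ofReal_re, I_re, mul_zero, ofReal_im, I_im,
      mul_one, sub_self, add_zero, neg_im, add_im, one_im, mul_im, zero_add, mul_neg,
      Real.exp_neg, div_inv_eq_mul]
    have : ‖z‖ ^ (-1:ℝ) ≤ 1 := Real.rpow_le_one_of_one_le_of_nonpos hn (by norm_num)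
    have p := Real.exp_pos (arg z * t)
    nlinarith
  have b1 : ∀ t ∈ Iic (1:ℝ), ‖g t‖ ≤ K0 * Real.exp 2 * Real.exp (1 / 2 * t) := fun t ht => by
    have ht1 : t ≤ 1 := ht
    have : Real.exp (arg z * t) ≤ Real.exp 2 * Real.exp (1 / 2 * t) := by
      rw [← Real.exp_add]; apply Real.exp_le_exp.mpr
      have := Real.pi_lt_four
      rcases le_total t 0 with h | h <;> nlinarith
    calc ‖g t‖ ≤ _ := hgn t
      _ ≤ (Real.exp 2 * Real.exp (1 / 2 * t)) * K0 := by gcongr; exact hM t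
      _ = _ := by ring
  have b2 : ∀ t, 1 ≤ t →
      ‖g t‖ ≤ 4 * (t ^ (1 / 2 : ℝ) * Real.exp (-η * t) * ‖AA α 2 (1 + t * I)‖) := fun t ht => by
    have hG := Gamma_ne_zero_of_re_pos (hre t)
    have e : mellin (hh α 2 1) (1 + t * I) = Gamma (1 + t * I) * AA α 2 (1 + t * I) := by
      rw [AA]; field_simp
    have : Real.exp (arg z * t) * Real.exp (-(Real.pi / 2) * t) ≤ Real.exp (-η * t) := by
      rw [← Real.exp_add]; apply Real.exp_le_exp.mpr; nlinarith
    have p1 : 0 ≤ t ^ (1 / 2 : ℝ) := by positivity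
    calc ‖g t‖ ≤ _ := hgn t
      _ ≤ Real.exp (arg z * t) * ((4 * t ^ (1 / 2 : ℝ) * Real.exp (-(Real.pi / 2) * t)) *
          ‖AA α 2 (1 + t * I)‖) := by
          rw [e, norm_mul]; gcongr; exact gamma_bound ht
      _ = 4 * (t ^ (1 / 2 : ℝ) * (Real.exp (arg z * t) * Real.exp (-(Real.pi / 2) * t)) *
          ‖AA α 2 (1 + t * I)‖) := by ring
      _ ≤ _ := by gcongr
  have i0 : IntegrableOn (fun t : ℝ => K0 * Real.exp 2 * Real.exp (1 / 2 * t)) (Iic 1) :=
    (integrableOn_exp_mul_Iic (by norm_num) 1).const_mul _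
  have i1 : IntegrableOn g (Iic 1) :=
    Integrable.mono' i0 hgc.aestronglyMeasurable
      ((ae_restrict_mem measurableSet_Iic).mono b1)
  have b3 : ∀ T, 1 ≤ T → ∫ t in (1:ℝ)..T, ‖g t‖ ≤ 4 * (3267 * C * η ^ (-(7 / 4 : ℝ))) := by
    intro T hT
    have w := weighted_bound hψ (fun _ => norm_nonneg _) hC hb hη hT
    have m := intervalIntegral.integral_mono_on (μ := volume) hT
      (f := fun t => ‖g t‖)
      (g := fun t => 4 * (t ^ (1 / 2 : ℝ) * Real.exp (-η * t) * ‖AA α 2 (1 + t * I)‖))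
      (hgc.norm.intervalIntegrable _ _)
      (Continuous.intervalIntegrable (continuous_const.mul
        (((continuous_id.rpow_const (fun _ => Or.inr (by norm_num))).mul
        (by fun_prop)).mul hψ)) _ _) (fun x hx => b2 x hx.1)
    rw [intervalIntegral.integral_const_mul] at m
    linarith
  have i2 : IntegrableOn g (Ioi 1) :=
    integrableOn_Ioi_of_intervalIntegral_norm_bounded (l := atTop) (b := id) _ 1
      (fun T => (hgc.integrableOn_Icc).mono_set Ioc_subset_Icc_self) tendsto_id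
      ((eventually_ge_atTop 1).mono b3)
  have b4 : ∫ t in Ioi (1:ℝ), ‖g t‖ ≤ 4 * (3267 * C * η ^ (-(7 / 4 : ℝ))) :=
    le_of_tendsto (intervalIntegral_tendsto_integral_Ioi (l := atTop) (b := id) 1 i2.norm tendsto_id)
      ((eventually_ge_atTop 1).mono b3)
  have b5 : ∫ t in Iic (1:ℝ), ‖g t‖ ≤ K1 :=
    setIntegral_mono_on i1.norm i0 measurableSet_Iic b1
  have i3 : Integrable g := by
    rw [← integrableOn_univ, ← Iic_union_Ioi (a := (1:ℝ))]
    exact i1.union i2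
  have inv := mellinInv_mellin_eq 1 (hh α 2 z) one_pos
    (hh_conv hα hz 2 (by simp)) (by simpa [VerticalIntegrable] using i3)
    (hh_contAt hα hz 2 zero_le_one)
  rw [← inv, mellinInv]
  have e : ∫ y : ℝ, (((1:ℝ):ℂ)) ^ (-(((1:ℝ):ℂ) + y * I)) • mellin (hh α 2 z) (((1:ℝ):ℂ) + y * I)
      = ∫ y, g y := by
    simp [hg]
  rw [e, norm_smul]
  have b6 : ‖∫ y, g y‖ ≤ K1 + 4 * (3267 * C * η ^ (-(7 / 4 : ℝ))) := by
    refine (norm_integral_le_integral_norm _).trans ?_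
    rw [← intervalIntegral.integral_Iic_add_Ioi i1.norm i2.norm]
    linarith
  have b7 : ‖(1 / (2 * Real.pi) : ℝ)‖ ≤ 1 := by
    have := Real.pi_gt_three
    rw [Real.norm_eq_abs, abs_of_pos (by positivity), div_le_one (by positivity)]; linarith
  have b8 : 1 ≤ η ^ (-(7 / 4 : ℝ)) := Real.one_le_rpow_of_pos_of_le_one_of_nonpos hη hη1 (by norm_num)
  calc _ ≤ 1 * (K1 + 4 * (3267 * C * η ^ (-(7 / 4 : ℝ)))) := by gcongr
    _ ≤ _ := by nlinarith

end Pool.Agent.H3Barnes
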