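import Pool.Agent.Lib.helper3.BarnesC

open Complex Set MeasureTheory Filter Topology Asymptotics

namespace Pool.Agent.H3Barnes

variable {α : ℝ}

lemma lower (hα : 0 < α) (p b : ℤ) {δ : ℝ} (hδ : 0 < δ) (hδ1 : (α + 7) * δ ≤ 1)
    (happ : |b * α - p| ≤ δ) (z : ℂ) (hz : z = δ + b * (2 * Real.pi * I)) (hn : 1 ≤ ‖z‖) :
    (4 * (α + 7) * δ ^ 2)⁻¹ ≤ 3 * ‖hh α 2 z 1‖ + (‖phi α 0 0‖ + ‖phi α 1 0‖) := by
  have hre : z.re = δ := by simp [hz]
  have hz0 : z ≠ 0 := by rintro rfl; simp at hn; linarith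
  have hzre : 0 < z.re := by rw [hre]; exact hδ
  have hδ2 : δ ≤ 1 := by nlinarith
  have e1 : cexp (-z) = cexp (-δ) := by
    have := exp_int_mul_two_pi_mul_I (-b)
    rw [hz, neg_add, Complex.exp_add]
    rw [show -((b:ℂ) * (2 * Real.pi * I)) = ((-b : ℤ) : ℂ) * (2 * Real.pi * I) by push_cast; ring,
      this, mul_one]
  set ζ : ℂ := α * δ + ((b * α - p : ℝ) : ℂ) * (2 * Real.pi * I) with hζ
  have e2 : cexp (-(α * z)) = cexp (-ζ) := by
    have := exp_int_mul_two_pi_mul_I (-p)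
    rw [← mul_one (cexp (-ζ)), ← this, ← Complex.exp_add]
    congr 1
    rw [hz, hζ]; push_cast; ring
  have hζn : ‖ζ‖ ≤ (α + 7) * δ := by
    refine (norm_add_le _ _).trans ?_
    simp only [norm_mul, norm_real, Real.norm_eq_abs, norm_I, Complex.norm_ofNat, mul_one]
    rw [abs_of_pos hα, abs_of_pos hδ, abs_of_pos Real.pi_pos]
    have := Real.pi_lt_d2
    have := abs_nonneg (b * α - p)
    nlinarith [Real.pi_pos]
  have n1 : ‖1 - cexp (-z)‖ ≤ 2 * δ := by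
    rw [e1, norm_sub_rev]
    have := norm_exp_sub_one_le (x := -(δ:ℂ)) (by simp [abs_of_pos hδ, hδ2])
    simpa [abs_of_pos hδ] using this
  have n2 : ‖1 - cexp (-(α * z))‖ ≤ 2 * ((α + 7) * δ) := by
    rw [e2, norm_sub_rev]
    have := norm_exp_sub_one_le (x := -ζ) (by rw [norm_neg]; linarith)
    rw [norm_neg] at this
    linarith
  have p1 : 0 < ‖1 - cexp (-z)‖ := norm_pos_iff.mpr (one_sub_exp_ne hzre)
  have p2 : 0 < ‖1 - cexp (-(α * z))‖ :=
    norm_pos_iff.mpr (one_sub_exp_ne (by simpa using mul_pos hα hzre))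
  have l1 : (4 * (α + 7) * δ ^ 2)⁻¹ ≤ ‖(1 - cexp (-z))⁻¹ * (1 - cexp (-(α * z)))⁻¹‖ := by
    rw [← mul_inv, norm_inv, norm_mul]
    apply inv_anti₀ (by positivity)
    calc _ ≤ (2 * δ) * (2 * ((α + 7) * δ)) := by gcongr
      _ = _ := by ring
  have e3 : (1 - cexp (-z))⁻¹ * (1 - cexp (-(α * z)))⁻¹
      = phi α 2 z + (phi α 0 0 * (z⁻¹ * z⁻¹) + phi α 1 0 * z⁻¹) := by
    have a := phi_zero_eq hα hzre
    rw [phi_rec 0 z, phi_rec (0 + 1) z] at a
    apply mul_left_cancel₀ (pow_ne_zero 2 hz0)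
    rw [← a]
    field_simp
    ring
  have zi : ‖z⁻¹‖ ≤ 1 := by rw [norm_inv]; exact inv_le_one_of_one_le₀ hn
  have l2 : ‖phi α 0 0 * (z⁻¹ * z⁻¹) + phi α 1 0 * z⁻¹‖ ≤ ‖phi α 0 0‖ + ‖phi α 1 0‖ := by
    refine (norm_add_le _ _).trans ?_
    simp only [norm_mul]
    have := norm_nonneg (phi α 0 0)
    have := norm_nonneg (phi α 1 0)
    have := norm_nonneg (z⁻¹)
    have : ‖z⁻¹‖ * ‖z⁻¹‖ ≤ 1 := by nlinarith
    nlinarith
  have l3 : ‖phi α 2 z‖ ≤ 3 * ‖hh α 2 z 1‖ := by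
    simp only [hh, ofReal_one, one_mul, norm_mul, Complex.norm_exp, neg_re, hre]
    have h1 : Real.exp (-1) ≤ Real.exp (-δ) := Real.exp_le_exp.mpr (by linarith)
    have h2 : 1 ≤ 3 * Real.exp (-1) := by
      have := Real.exp_one_lt_d9
      have e : Real.exp (-1) * Real.exp 1 = 1 := by rw [← Real.exp_add]; simp
      nlinarith [Real.exp_pos (-1)]
    have := norm_nonneg (phi α 2 z)
    nlinarith
  rw [e3] at l1
  have := norm_add_le (phi α 2 z) (phi α 0 0 * (z⁻¹ * z⁻¹) + phi α 1 0 * z⁻¹)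
  linarith

lemma not_bound (hα : 0 < α) (hL : Liouville α) {C : ℝ} (hC : 0 ≤ C)
    (hb : ∀ T, 1 ≤ T → ∫ t in (1:ℝ)..T, ‖AA α 2 (1 + t * I)‖ ≤ C * T ^ (5 / 4 : ℝ)) : False := by
  obtain ⟨K, hK⟩ := upper hα hC hb
  set K' := ‖phi α 0 0‖ + ‖phi α 1 0‖ with hK'
  have hK'0 : 0 ≤ K' := by positivity
  obtain ⟨j, hj⟩ := pow_unbounded_of_one_lt
    ((α + 7) + 4 * (α + 7) * (192 * |K| + K')) (one_lt_two (α := ℝ))
  obtain ⟨p, b, hb1, -, happ⟩ := hL (4 * (j + 2))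
  have hb2 : (2:ℝ) ≤ b := by exact_mod_cast hb1
  have hb0 : (0:ℝ) < b := by linarith
  have hbj : (2:ℝ) ^ j ≤ (b:ℝ) ^ j := pow_le_pow_left₀ (by norm_num) hb2 j
  have hKK : 0 ≤ 4 * (α + 7) * (192 * |K| + K') := by positivity
  set δ : ℝ := b / b ^ (4 * (j + 2)) with hδ
  have hδ0 : 0 < δ := by positivity
  have hδ1 : (α + 7) * δ ≤ 1 := by
    rw [hδ, ← mul_div_assoc, div_le_one (by positivity)]
    have h1 : (b:ℝ) ^ (j + 1) ≤ b ^ (4 * (j + 2)) := pow_le_pow_right₀ (by linarith) (by omega)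
    rw [pow_succ] at h1
    nlinarith
  have hδ2 : δ ≤ 1 := by nlinarith
  have happ' : |b * α - p| ≤ δ := by
    have : b * α - p = b * (α - p / b) := by field_simp
    rw [this, abs_mul, abs_of_pos hb0, hδ, div_eq_mul_one_div (b:ℝ) (_ ^ _)]
    gcongr
  set z : ℂ := δ + b * (2 * Real.pi * I) with hz
  have hre : z.re = δ := by simp [hz]
  have him : z.im = b * (2 * Real.pi) := by simp [hz]
  have hpi1 := Real.pi_gt_three
  have hpi2 := Real.pi_lt_d2
  have hn1 : 1 ≤ ‖z‖ := by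
    have := im_le_norm z
    nlinarith
  have hz0 : z ≠ 0 := by rintro h; rw [h] at hn1; simp at hn1; linarith
  have hn2 : ‖z‖ ≤ 8 * b := by
    have := norm_le_abs_re_add_abs_im z
    rw [hre, him, abs_of_pos hδ0, abs_of_pos (by positivity)] at this
    nlinarith
  have ha0 : 0 ≤ arg z := arg_nonneg_iff.mpr (by rw [him]; positivity)
  have ha1 : arg z ≤ Real.pi / 2 := arg_le_pi_div_two_iff.mpr (Or.inl (by rw [hre]; exact hδ0.le))
  have ha2 : 1 / 2 ≤ arg z := by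
    refine le_trans ?_ (Real.sin_le ha0)
    rw [sin_arg, him, le_div_iff₀ (by linarith)]
    nlinarith
  set η : ℝ := (8 * (b:ℝ) ^ (4 * (j + 2)))⁻¹ with hη
  have hη0 : 0 < η := by positivity
  have hbn : (1:ℝ) ≤ b ^ (4 * (j + 2)) := one_le_pow₀ (by linarith)
  have hη1 : η ≤ 1 := inv_le_one_of_one_le₀ (by linarith)
  have ha3 : η ≤ Real.pi / 2 - arg z := by
    refine le_trans ?_ (Real.sin_le (by linarith))
    rw [Real.sin_pi_div_two_sub, cos_arg hz0, hre, le_div_iff₀ (by linarith)]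
    calc η * ‖z‖ ≤ η * (8 * b) := by gcongr
      _ = δ := by rw [hη, hδ]; field_simp
  have up := hK z η (by rw [hre]; exact hδ0) ha2 hn1 hη0 hη1 ha3
  have lo := lower hα p b hδ0 hδ1 happ' z hz hn1
  set Y : ℝ := (b:ℝ) ^ (7 * (j + 2)) with hY
  have hY1 : 1 ≤ Y := one_le_pow₀ (by linarith)
  have e1 : η ^ (-(7 / 4 : ℝ)) ≤ 64 * Y := by
    rw [hη, Real.inv_rpow (by positivity), ← Real.rpow_neg (by positivity), neg_neg,
      Real.mul_rpow (by norm_num) (by positivity), ← Real.rpow_natCast,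
      ← Real.rpow_mul hb0.le, hY, ← Real.rpow_natCast (b:ℝ) (7 * (j + 2))]
    have : (8:ℝ) ^ (7 / 4 : ℝ) ≤ 64 := by
      have := Real.rpow_le_rpow_of_exponent_le (show (1:ℝ) ≤ 8 by norm_num)
        (show (7 / 4 : ℝ) ≤ 2 by norm_num)
      rw [Real.rpow_two] at this; linarith
    have e : ((4 * (j + 2) : ℕ) : ℝ) * (7 / 4) = ((7 * (j + 2) : ℕ) : ℝ) := by push_cast; ring
    rw [e]
    gcongr
  have e2 : (4 * (α + 7) * δ ^ 2)⁻¹ = Y * b ^ j / (4 * (α + 7)) := by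
    rw [hδ, hY]; field_simp; ring
  have e3 : ‖hh α 2 z 1‖ ≤ |K| * (64 * Y) := by
    refine up.trans ?_
    calc K * η ^ (-(7 / 4 : ℝ)) ≤ |K| * η ^ (-(7 / 4 : ℝ)) := by gcongr; exact le_abs_self K
      _ ≤ _ := by gcongr
  rw [e2, div_le_iff₀ (by positivity)] at lo
  have e4 : Y * b ^ j ≤ Y * (4 * (α + 7) * (192 * |K| + K')) := by
    calc Y * b ^ j ≤ _ := lo
      _ ≤ (3 * (|K| * (64 * Y)) + K' * Y) * (4 * (α + 7)) := by
        gcongr
        exact le_mul_of_one_le_right hK'0 hY1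
      _ = _ := by ring
  have := le_of_mul_le_mul_left e4 (by linarith)
  linarith

/-- main analytic statement -/
theorem main (hα : 0 < α) (hL : Liouville α) (F : ℂ → ℂ)
    (hF : ∀ s : ℂ, 0 < s.re → s ≠ 1 → s ≠ 2 → F s =
      phi α 0 0 / ((s - 1) * (s - 2)) + phi α 1 0 / (s - 1) + AA α 2 s)
    (hFc : ContinuousOn (fun t : ℝ => F (1 + t * I)) (Ici 1)) :
    ¬ (fun T : ℝ => ∫ t in (1:ℝ)..T, ‖F (1 + t * I)‖ ^ 2) =O[atTop]
      (fun T : ℝ => T ^ (5 / 4 : ℝ)) := by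
  intro h
  obtain ⟨C, hC, hO⟩ := h.exists_pos
  obtain ⟨T0, hT0⟩ := eventually_atTop.mp hO.bound
  set K' := ‖phi α 0 0‖ + ‖phi α 1 0‖ + 1 with hK'
  have hK'0 : 0 ≤ K' := by positivity
  have hre : ∀ t : ℝ, 0 < ((1:ℂ) + t * I).re := fun t => by simp
  have hψ : Continuous fun t : ℝ => ‖AA α 2 (1 + t * I)‖ := by
    refine continuous_iff_continuousAt.mpr fun t => ContinuousAt.norm ?_
    exact ContinuousAt.comp (f := fun t : ℝ => (1:ℂ) + t * I)
      (AA_diff hα 2 _ (hre t)).continuousAt (by fun_prop)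
  have hpt : ∀ t : ℝ, 1 ≤ t → ‖AA α 2 (1 + t * I)‖ ≤ ‖F (1 + t * I)‖ ^ 2 + K' := by
    intro t ht
    have n1 : 1 ≤ ‖(1:ℂ) + t * I - 1‖ := by
      have := im_le_norm ((1:ℂ) + t * I - 1); simp at this ⊢; linarith
    have n2 : 1 ≤ ‖(1:ℂ) + t * I - 2‖ := by
      have := im_le_norm ((1:ℂ) + t * I - 2); simp at this ⊢; linarith
    have e := hF (1 + t * I) (hre t)
      (by intro h; rw [h] at n1; simp at n1; linarith)
      (by intro h; rw [h] at n2; simp at n2; linarith)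
    have e' : AA α 2 (1 + t * I) = F (1 + t * I) - (phi α 0 0 / ((1 + t * I - 1) * (1 + t * I - 2))
      + phi α 1 0 / (1 + t * I - 1)) := by rw [e]; ring
    have a1 : ‖phi α 0 0 / ((1 + t * I - 1) * (1 + t * I - 2))‖ ≤ ‖phi α 0 0‖ := by
      rw [norm_div, norm_mul]
      exact div_le_self (norm_nonneg _) (by nlinarith)
    have a2 : ‖phi α 1 0 / (1 + t * I - 1)‖ ≤ ‖phi α 1 0‖ := by
      rw [norm_div]
      exact div_le_self (norm_nonneg _) n1
    rw [e']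
    refine (norm_sub_le _ _).trans ?_
    have := norm_add_le (phi α 0 0 / ((1 + t * I - 1) * (1 + t * I - 2)))
      (phi α 1 0 / (1 + t * I - 1))
    nlinarith [sq_nonneg (‖F (1 + t * I)‖ - 1)]
  have big : ∀ T, 1 ≤ T → T0 ≤ T →
      ∫ t in (1:ℝ)..T, ‖AA α 2 (1 + t * I)‖ ≤ (C + K') * T ^ (5 / 4 : ℝ) := by
    intro T hT hT'
    have i1 : IntervalIntegrable (fun t : ℝ => ‖F (1 + t * I)‖ ^ 2) volume 1 T := by
      apply ContinuousOn.intervalIntegrable
      rw [uIcc_of_le hT]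
      exact ((hFc.mono Icc_subset_Ici_self).norm).pow 2
    have m := intervalIntegral.integral_mono_on (μ := volume) hT
      (f := fun t => ‖AA α 2 (1 + t * I)‖) (g := fun t => ‖F (1 + t * I)‖ ^ 2 + K')
      (hψ.intervalIntegrable _ _) (i1.add (by simp)) (fun x hx => hpt x hx.1)
    rw [intervalIntegral.integral_add i1 (by simp), intervalIntegral.integral_const] at m
    have b := hT0 T hT'
    have p : T ≤ T ^ (5 / 4 : ℝ) := by
      have := Real.rpow_le_rpow_of_exponent_le hT (show (1:ℝ) ≤ 5 / 4 by norm_num)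
      rwa [Real.rpow_one] at this
    rw [Real.norm_eq_abs, Real.norm_eq_abs, abs_of_nonneg (a := T ^ (5 / 4 : ℝ)) (by positivity)]
      at b
    have := le_abs_self (∫ t in (1:ℝ)..T, ‖F (1 + t * I)‖ ^ 2)
    simp only [smul_eq_mul] at m
    nlinarith
  set T1 := max T0 1 with hT1
  set D := (C + K') * T1 ^ (5 / 4 : ℝ) with hD
  have hT11 : 1 ≤ T1 := le_max_right _ _
  have hD0 : 0 ≤ D := by positivity
  refine not_bound hα hL (C := C + K' + D) (by positivity) fun T hT => ?_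
  have p : 1 ≤ T ^ (5 / 4 : ℝ) := Real.one_le_rpow hT (by norm_num)
  rcases le_total T T1 with h1 | h1
  · have m := intervalIntegral.integral_mono_interval (μ := volume)
      (f := fun t : ℝ => ‖AA α 2 (1 + t * I)‖) (le_refl (1:ℝ)) hT h1
      (Eventually.of_forall fun _ => norm_nonneg _) (hψ.intervalIntegrable _ _)
    have := big T1 hT11 (le_max_left _ _)
    nlinarith
  · have := big T hT ((le_max_left _ _).trans h1)
    nlinarith

end Pool.Agent.H3Barnes
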