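import Pool.Agent.Lib.helper3.BishopDef

set_option autoImplicit false
open MeasureTheory Filter Topology
open scoped ENNReal NNReal

namespace H3Bis

section alg
variable {S : Type} [TopologicalSpace S] [CompactSpace S]

lemma char_one (A : Subalgebra ℂ C(S, ℂ)) (φ : A →L[ℂ] ℂ) (h0 : φ ≠ 0)
    (hm : ∀ f g : A, φ (f * g) = φ f * φ g) : φ 1 = 1 := by
  obtain ⟨f, hf⟩ : ∃ f, φ f ≠ 0 := by
    by_contra h
    push Not at h
    exact h0 (ContinuousLinearMap.ext h)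
  have := hm f 1
  rw [mul_one] at this
  exact mul_left_cancel₀ hf (by rw [← this, mul_one])

lemma char_pow (A : Subalgebra ℂ C(S, ℂ)) (φ : A →L[ℂ] ℂ) (h0 : φ ≠ 0)
    (hm : ∀ f g : A, φ (f * g) = φ f * φ g) (f : A) (n : ℕ) : φ (f ^ n) = φ f ^ n := by
  induction n with
  | zero => simpa using char_one A φ h0 hm
  | succ n ih => rw [pow_succ, hm, ih, pow_succ]

lemma char_le (A : Subalgebra ℂ C(S, ℂ)) (φ : A →L[ℂ] ℂ) (h0 : φ ≠ 0)
    (hm : ∀ f g : A, φ (f * g) = φ f * φ g) (f : A) (r : ℝ) (hr : 0 ≤ r)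
    (hf : ∀ s, ‖(f : C(S, ℂ)) s‖ ≤ r) : ‖φ f‖ ≤ r := by
  by_contra hlt
  push Not at hlt
  have key : ∀ n : ℕ, ‖φ f‖ ^ n ≤ ‖φ‖ * r ^ n := by
    intro n
    rw [← norm_pow, ← char_pow A φ h0 hm]
    refine (φ.le_opNorm _).trans (mul_le_mul_of_nonneg_left ?_ (norm_nonneg _))
    change ‖((f ^ n : A) : C(S, ℂ))‖ ≤ _
    rw [ContinuousMap.norm_le _ (pow_nonneg hr n)]
    intro s
    simp only [SubmonoidClass.coe_pow, ContinuousMap.pow_apply, norm_pow]
    exact pow_le_pow_left₀ (norm_nonneg _) (hf s) n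
  have hp : 0 < ‖φ f‖ := lt_of_le_of_lt hr hlt
  have ht : Tendsto (fun n : ℕ => ‖φ‖ * (r / ‖φ f‖) ^ n) atTop (𝓝 (‖φ‖ * 0)) :=
    (tendsto_pow_atTop_nhds_zero_of_lt_one (div_nonneg hr hp.le)
      ((div_lt_one hp).2 hlt)).const_mul _
  rw [mul_zero] at ht
  have : (1 : ℝ) ≤ 0 := by
    refine ge_of_tendsto' ht fun n => ?_
    rw [div_pow, ← mul_div_assoc, le_div_iff₀ (pow_pos hp n), one_mul]
    exact key n
  linarith

lemma exists_log (A : Subalgebra ℂ C(S, ℂ)) (hA : IsClosed (A : Set C(S, ℂ)))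
    (u : C(S, ℂ)) (hu : u ∈ A) (hn : ‖u‖ < 1) :
    ∃ h ∈ A, ∀ s, 1 + u s = Complex.exp (h s) := by
  let a : ℕ → C(S, ℂ) := fun n => ((-1 : ℂ) ^ (n + 1) / n) • u ^ n
  have hs : Summable a := by
    refine Summable.of_norm_bounded (summable_geometric_of_lt_one (norm_nonneg u) hn) fun n => ?_
    rcases n.eq_zero_or_pos with rfl | hn0
    · simp [a]
    · simp only [a, norm_smul, norm_div, norm_pow, norm_neg, norm_one, one_pow,
        Complex.norm_natCast]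
      have h1 : (1 : ℝ) / n ≤ 1 := by
        rw [div_le_one (by exact_mod_cast hn0)]; exact_mod_cast hn0
      calc 1 / (n : ℝ) * ‖u ^ n‖ ≤ 1 * ‖u‖ ^ n :=
            mul_le_mul h1 (norm_pow_le' u hn0) (norm_nonneg _) zero_le_one
        _ = _ := one_mul _
  refine ⟨∑' n, a n, ?_, fun s => ?_⟩
  · refine hA.mem_of_tendsto hs.hasSum (Eventually.of_forall fun t => ?_)
    exact A.sum_mem fun n _ => A.smul_mem (A.pow_mem hu n) _
  · have hz : ‖u s‖ < 1 := lt_of_le_of_lt (u.norm_coe_le_norm s) hn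
    have h1 := (ContinuousMap.evalCLM ℂ s : C(S, ℂ) →L[ℂ] ℂ).hasSum hs.hasSum
    have h2 := Complex.hasSum_taylorSeries_log hz
    have h3 : (fun n => (ContinuousMap.evalCLM ℂ s : C(S, ℂ) →L[ℂ] ℂ) (a n)) =
        fun n : ℕ => (-1) ^ (n + 1) * u s ^ n / n := by
      funext n
      simp only [a, ContinuousMap.evalCLM_apply, ContinuousMap.smul_apply, ContinuousMap.pow_apply,
        smul_eq_mul]
      ring
    rw [h3] at h1
    have h4 := h1.unique h2
    simp only [ContinuousMap.evalCLM_apply] at h4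
    rw [h4, Complex.exp_log]
    intro h
    have : u s = -1 := by linear_combination h
    rw [this] at hz
    simp at hz

lemma exp_of_homotopy (A : Subalgebra ℂ C(S, ℂ)) (hA : IsClosed (A : Set C(S, ℂ)))
    (H : C(unitInterval × S, S)) (h1 : ∀ s, H (1, s) = s) (s0 : S) (h0 : ∀ s, H (0, s) = s0)
    (hH : ∀ t, ∀ f ∈ A, f.comp (H.curry t) ∈ A) :
    ∀ f ∈ A, (∃ g ∈ A, f * g = 1) → ∃ h ∈ A, ∀ s, f s = Complex.exp (h s) := by
  rintro f hf ⟨g, hg, hfg⟩
  let F : C(unitInterval, C(S, ℂ)) := (f.comp H).curry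
  let G : C(unitInterval, C(S, ℂ)) := (g.comp H).curry
  have hF : ∀ t, F t ∈ A := fun t => hH t f hf
  have hG : ∀ t, G t ∈ A := fun t => hH t g hg
  have hFG : ∀ t s, F t s * G t s = 1 := fun t s => by
    have := congrArg (fun k : C(S, ℂ) => k (H (t, s))) hfg
    simpa [F, G] using this
  let P : unitInterval → Prop := fun t => ∃ h ∈ A, ∀ s, F t s = Complex.exp (h s)
  have step : ∀ t t', ‖(F t' - F t) * G t‖ < 1 → P t → P t' := by
    rintro t t' hn ⟨h, hh, hhe⟩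
    obtain ⟨k, hk, hke⟩ := exists_log A hA _ (A.mul_mem (A.sub_mem (hF t') (hF t)) (hG t)) hn
    refine ⟨h + k, A.add_mem hh hk, fun s => ?_⟩
    rw [ContinuousMap.add_apply, Complex.exp_add, ← hhe, ← hke]
    simp only [ContinuousMap.mul_apply, ContinuousMap.sub_apply]
    linear_combination (F t s - F t' s) * hFG t s
  have loc : ∀ t, ∀ᶠ t' in 𝓝 t, (P t ↔ P t') := by
    intro t
    have c1 : Continuous fun t' => ‖(F t' - F t) * G t‖ := by fun_prop
    have c2 : Continuous fun t' => ‖(F t - F t') * G t'‖ := by fun_prop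
    have e1 : ∀ᶠ t' in 𝓝 t, ‖(F t' - F t) * G t‖ < 1 :=
      c1.continuousAt.eventually_lt continuousAt_const (by simp)
    have e2 : ∀ᶠ t' in 𝓝 t, ‖(F t - F t') * G t'‖ < 1 :=
      c2.continuousAt.eventually_lt continuousAt_const (by simp)
    filter_upwards [e1, e2] with t' a b
    exact ⟨step t t' a, step t' t b⟩
  have hlc : IsLocallyConstant P := by
    rw [IsLocallyConstant.iff_eventually_eq]
    intro t
    filter_upwards [loc t] with t' h
    exact propext h.symm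
  have hP0 : P 0 := by
    have hne : f s0 ≠ 0 := by
      intro h
      have := congrArg (fun k : C(S, ℂ) => k s0) hfg
      simp [h] at this
    refine ⟨algebraMap ℂ _ (Complex.log (f s0)), A.algebraMap_mem _, fun s => ?_⟩
    simp [F, h0, Complex.exp_log hne]
  have hP1 : P 1 := by
    rw [← hlc.apply_eq_of_preconnectedSpace 0 1]; exact hP0
  obtain ⟨h, hh, hhe⟩ := hP1
  exact ⟨h, hh, fun s => by simpa [F, h1] using hhe s⟩

/-- closed algebra generated by a multiplicatively closed set -/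
noncomputable def alg (M : Submonoid C(S, ℂ)) : Subalgebra ℂ C(S, ℂ) :=
  (Algebra.adjoin ℂ (M : Set C(S, ℂ))).topologicalClosure

lemma alg_closed (M : Submonoid C(S, ℂ)) : IsClosed (alg M : Set C(S, ℂ)) :=
  Subalgebra.isClosed_topologicalClosure _

lemma mem_alg (M : Submonoid C(S, ℂ)) {f : C(S, ℂ)} (hf : f ∈ M) : f ∈ alg M :=
  Subalgebra.le_topologicalClosure _ (Algebra.subset_adjoin hf)

lemma alg_ind (M : Submonoid C(S, ℂ)) (P : C(S, ℂ) → Prop) (hc : IsClosed {f | P f})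
    (hM : ∀ f ∈ M, P f) (h0 : P 0) (ha : ∀ f g, P f → P g → P (f + g))
    (hs : ∀ (c : ℂ) f, P f → P (c • f)) : ∀ f ∈ alg M, P f := by
  have h1 : ((Algebra.adjoin ℂ (M : Set C(S, ℂ)) : Subalgebra ℂ C(S, ℂ)) : Set C(S, ℂ)) ⊆
      {f | P f} := by
    intro f hf
    have h2 : f ∈ Subalgebra.toSubmodule (Algebra.adjoin ℂ (M : Set C(S, ℂ))) := hf
    rw [Algebra.adjoin_eq_span, Submonoid.closure_eq] at h2
    clear hf
    induction h2 using Submodule.span_induction with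
    | mem x hx => exact hM x hx
    | zero => exact h0
    | add x y _ _ hx hy => exact ha x y hx hy
    | smul c x _ hx => exact hs c x hx
  intro f hf
  exact closure_minimal h1 hc hf

lemma char_eval (M : Submonoid C(S, ℂ)) (φ : alg M →L[ℂ] ℂ) (s : S)
    (h : ∀ f (hf : f ∈ M), φ ⟨f, mem_alg M hf⟩ = f s) : ∀ f : alg M, φ f = (f : C(S, ℂ)) s := by
  have := alg_ind M (fun f => ∃ hf : f ∈ alg M, φ ⟨f, hf⟩ = f s) ?_
    (fun f hf => ⟨mem_alg M hf, h f hf⟩) ⟨(alg M).zero_mem, by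
      have : (⟨0, (alg M).zero_mem⟩ : alg M) = 0 := rfl
      simp [this]⟩ ?_ ?_
  · intro f
    obtain ⟨_, h2⟩ := this f.1 f.2
    exact h2
  · have hcl : IsClosed {f : alg M | φ f = (f : C(S, ℂ)) s} :=
      isClosed_eq φ.continuous (by fun_prop)
    have := (alg_closed M).isClosedEmbedding_subtypeVal.isClosedMap _ hcl
    convert this using 1
    ext f
    constructor
    · rintro ⟨hf, h2⟩; exact ⟨⟨f, hf⟩, h2, rfl⟩
    · rintro ⟨g, h2, rfl⟩; exact ⟨g.2, h2⟩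
  · rintro f g ⟨hf, h1⟩ ⟨hg, h2⟩
    refine ⟨(alg M).add_mem hf hg, ?_⟩
    have : (⟨f + g, (alg M).add_mem hf hg⟩ : alg M) = ⟨f, hf⟩ + ⟨g, hg⟩ := rfl
    rw [this, map_add, h1, h2]; rfl
  · rintro c f ⟨hf, h1⟩
    refine ⟨(alg M).smul_mem hf c, ?_⟩
    have : (⟨c • f, (alg M).smul_mem hf c⟩ : alg M) = c • ⟨f, hf⟩ := rfl
    rw [this, map_smul, h1]; rfl

lemma comp_mem (M : Submonoid C(S, ℂ)) (k : C(S, S))
    (h : ∀ f ∈ M, f.comp k ∈ alg M) : ∀ f ∈ alg M, f.comp k ∈ alg M := by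
  refine alg_ind M (fun f => f.comp k ∈ alg M) ?_ h (alg M).zero_mem
    (fun f g hf hg => (alg M).add_mem hf hg) (fun c f hf => (alg M).smul_mem hf c)
  exact (alg_closed M).preimage (ContinuousMap.continuous_precomp k)

/-- Stone-Weierstrass in induction form -/
lemma sw_ind [T2Space S] (M : Submonoid C(S, ℂ)) (hst : ∀ f ∈ M, star f ∈ M)
    (hsep : ∀ x y : S, x ≠ y → ∃ f ∈ M, f x ≠ f y)
    (P : C(S, ℂ) → Prop) (hc : IsClosed {f | P f})
    (hM : ∀ f ∈ M, P f) (h0 : P 0) (ha : ∀ f g, P f → P g → P (f + g))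
    (hs : ∀ (c : ℂ) f, P f → P (c • f)) : ∀ f, P f := by
  have h1 := ContinuousMap.starSubalgebra_topologicalClosure_eq_top_of_separatesPoints
    (StarAlgebra.adjoin ℂ (M : Set C(S, ℂ))) (by
      intro x y hxy
      obtain ⟨f, hf, hne⟩ := hsep x y hxy
      exact ⟨f, ⟨f, StarAlgebra.subset_adjoin ℂ _ hf, rfl⟩, hne⟩)
  intro f
  refine alg_ind M P hc hM h0 ha hs f ?_
  have h2 : f ∈ (StarAlgebra.adjoin ℂ (M : Set C(S, ℂ))).topologicalClosure := by
    rw [h1]; trivial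
  have h3 : (M : Set C(S, ℂ)) ∪ star (M : Set C(S, ℂ)) = M := by
    refine Set.union_eq_left.2 fun g hg => ?_
    have := hst _ hg
    simpa using this
  have h4 : ((StarAlgebra.adjoin ℂ (M : Set C(S, ℂ)) : StarSubalgebra ℂ C(S, ℂ)) : Set C(S, ℂ)) =
      (Algebra.adjoin ℂ (M : Set C(S, ℂ)) : Subalgebra ℂ C(S, ℂ)) := by
    conv_rhs => rw [← h3, ← StarAlgebra.adjoin_toSubalgebra]
    rfl
  have h5 : f ∈ closure ((StarAlgebra.adjoin ℂ (M : Set C(S, ℂ)) :
    StarSubalgebra ℂ C(S, ℂ)) : Set C(S, ℂ)) := h2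
  rw [h4] at h5
  exact h5

lemma bishop_of (A : Subalgebra ℂ C(S, ℂ)) (h1 : IsClosed (A : Set C(S, ℂ)))
    (h2 : ∀ φ : A →L[ℂ] ℂ, φ ≠ 0 → (∀ f g : A, φ (f * g) = φ f * φ g) →
      ∃! s : S, ∀ f : A, φ f = (f : C(S, ℂ)) s)
    (h3 : ∀ f ∈ A, (∃ g ∈ A, f * g = 1) → ∃ h ∈ A, ∀ s, f s = Complex.exp (h s)) : Bishop A := by
  refine ⟨h1, ?_, h3⟩
  rintro φ ⟨hc, ⟨f0, hf0, hne⟩, ham, hs⟩
  let Φ : A →L[ℂ] ℂ :=
    { toFun := fun f => φ f
      map_add' := fun f g => (ham f f.2 g g.2).1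
      map_smul' := fun c f => hs c f f.2
      cont := hc.domRestrict }
  obtain ⟨s, hs1, hs2⟩ := h2 Φ (fun h => hne (by
    have := congrArg (fun L : A →L[ℂ] ℂ => L ⟨f0, hf0⟩) h
    exact this)) fun f g => (ham f f.2 g g.2).2
  exact ⟨s, fun f hf => hs1 ⟨f, hf⟩, fun t ht => hs2 t fun f => ht f f.2⟩

end alg

end H3Bis
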