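import Pool.Agent.Lib.helper3.BishopA

set_option autoImplicit false
set_option linter.unusedSectionVars false
open MeasureTheory Filter Topology
open scoped ENNReal NNReal BoundedContinuousFunction

namespace H3Bis

section meas
variable {S : Type} [MetricSpace S] [CompactSpace S] [MeasurableSpace S] [BorelSpace S]

lemma int_cm (ν : Measure S) (f : C(S, ℂ)) {h : S → ℂ} (hh : Integrable h ν) :
    Integrable (fun s => f s * h s) ν :=
  hh.bdd_mul f.continuous.aestronglyMeasurable (Eventually.of_forall fun s => f.norm_coe_le_norm s)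

lemma int_c (ν : Measure S) [IsFiniteMeasure ν] (f : C(S, ℂ)) : Integrable f ν := by
  simpa using int_cm ν f (integrable_const (1 : ℂ))

lemma int_r (ν : Measure S) [IsFiniteMeasure ν] {f : S → ℝ} (hf : Continuous f) :
    Integrable f ν :=
  hf.integrable_of_hasCompactSupport (HasCompactSupport.of_compactSpace _)

lemma int_cc (ν : Measure S) [IsFiniteMeasure ν] {f : S → ℂ} (hf : Continuous f) :
    Integrable f ν :=
  hf.integrable_of_hasCompactSupport (HasCompactSupport.of_compactSpace _)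

noncomputable def intL (ν : Measure S) {h : S → ℂ} (hh : Integrable h ν) : C(S, ℂ) →L[ℂ] ℂ :=
  LinearMap.mkContinuous
    { toFun := fun f => ∫ s, f s * h s ∂ν
      map_add' := fun f g => by
        rw [← integral_add (int_cm ν f hh) (int_cm ν g hh)]
        simp [add_mul]
      map_smul' := fun c f => by
        simp [← integral_const_mul, mul_assoc] } (∫ s, ‖h s‖ ∂ν) fun f => by
    simp only [LinearMap.coe_mk, AddHom.coe_mk]
    rw [mul_comm, ← integral_const_mul]
    refine norm_integral_le_of_norm_le (hh.norm.const_mul _) (Eventually.of_forall fun s => ?_)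
    rw [norm_mul]
    exact mul_le_mul_of_nonneg_right (f.norm_coe_le_norm s) (norm_nonneg _)

lemma intL_apply (ν : Measure S) {h : S → ℂ} (hh : Integrable h ν) (f : C(S, ℂ)) :
    intL ν hh f = ∫ s, f s * h s ∂ν := rfl

lemma cont_int (ν : Measure S) {h : S → ℂ} (hh : Integrable h ν) :
    Continuous fun f : C(S, ℂ) => ∫ s, f s * h s ∂ν := (intL ν hh).continuous

lemma cont_int1 (ν : Measure S) [IsFiniteMeasure ν] :
    Continuous fun f : C(S, ℂ) => ∫ s, f s ∂ν := by
  simpa using cont_int ν (integrable_const (1 : ℂ))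

lemma ext_c (μ ν : Measure S) [IsFiniteMeasure μ] [IsFiniteMeasure ν]
    (h : ∀ f : C(S, ℂ), ∫ s, f s ∂μ = ∫ s, f s ∂ν) : μ = ν := by
  refine ext_of_forall_integral_eq_of_IsFiniteMeasure fun f => ?_
  have := h ⟨fun s => (f s : ℂ), by fun_prop⟩
  simp only [ContinuousMap.coe_mk] at this
  exact_mod_cast this

lemma ae_zero_real (ν : Measure S) {h : S → ℝ} (hh : Integrable h ν)
    (h0 : ∀ f : S →ᵇ ℝ, ∫ s, f s * h s ∂ν = 0) : ∀ᵐ s ∂ν, h s = 0 := by
  have := isFiniteMeasure_withDensity_ofReal hh.2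
  have := isFiniteMeasure_withDensity_ofReal hh.neg.2
  have m1 : AEMeasurable (fun s => ENNReal.ofReal (h s)) ν :=
    hh.1.aemeasurable.ennreal_ofReal
  have m2 : AEMeasurable (fun s => ENNReal.ofReal ((-h) s)) ν :=
    hh.neg.1.aemeasurable.ennreal_ofReal
  have e : (ν.withDensity fun s => ENNReal.ofReal (h s)) =
      ν.withDensity fun s => ENNReal.ofReal ((-h) s) := by
    refine ext_of_forall_integral_eq_of_IsFiniteMeasure fun f => ?_
    rw [integral_withDensity_eq_integral_toReal_smul₀ m1 (by simp),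
      integral_withDensity_eq_integral_toReal_smul₀ m2 (by simp), ← sub_eq_zero, ← integral_sub,
      ← h0 f]
    · refine integral_congr_ae (Eventually.of_forall fun s => ?_)
      simp only [ENNReal.toReal_ofReal', smul_eq_mul, Pi.neg_apply]
      rcases le_total 0 (h s) with h1 | h1
      · rw [max_eq_left h1, max_eq_right (by linarith)]; ring
      · rw [max_eq_right h1, max_eq_left (by linarith)]; ring
    · rw [← integrable_withDensity_iff_integrable_smul₀' m1 (by simp)]
      exact int_r _ f.continuous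
    · rw [← integrable_withDensity_iff_integrable_smul₀' m2 (by simp)]
      exact int_r _ f.continuous
  rw [withDensity_eq_iff m1 m2
    ((lintegral_mono fun x => Real.ofReal_le_enorm (h x)).trans_lt hh.2).ne] at e
  filter_upwards [e] with s hs
  simp only [Pi.neg_apply] at hs
  rcases le_total 0 (h s) with h1 | h1
  · rw [ENNReal.ofReal_of_nonpos (by linarith : -h s ≤ 0), ENNReal.ofReal_eq_zero] at hs
    linarith
  · rw [ENNReal.ofReal_of_nonpos h1, eq_comm, ENNReal.ofReal_eq_zero] at hs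
    linarith

lemma ae_zero_of_ann (ν : Measure S) {h : S → ℂ} (hh : Integrable h ν)
    (h0 : ∀ f : C(S, ℂ), ∫ s, f s * h s ∂ν = 0) : ∀ᵐ s ∂ν, h s = 0 := by
  have key : ∀ f : S →ᵇ ℝ, ∫ s, (f s : ℂ) * h s ∂ν = 0 := fun f =>
    h0 ⟨fun s => (f s : ℂ), by fun_prop⟩
  have hi : ∀ f : S →ᵇ ℝ, Integrable (fun s => (f s : ℂ) * h s) ν := fun f =>
    int_cm ν ⟨fun s => (f s : ℂ), by fun_prop⟩ hh
  have h1 := ae_zero_real ν hh.re fun f => by
    have := integral_re (hi f)
    rw [key f] at this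
    simpa using this
  have h2 := ae_zero_real ν hh.im fun f => by
    have := integral_im (hi f)
    rw [key f] at this
    simpa using this
  filter_upwards [h1, h2] with s a b
  exact Complex.ext (by simpa using a) (by simpa using b)

lemma equiv_of_K (A : Subalgebra ℂ C(S, ℂ)) (μ ν : FiniteMeasure S) (h : ν ∈ Kset A μ) :
    Equivalent A μ ν := by
  intro f hf
  have hc : Continuous fun ρ : FiniteMeasure S => ∫ s, f s ∂(ρ : Measure S) := by
    rw [continuous_iff_continuousAt]
    intro ρ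
    exact (FiniteMeasure.tendsto_iff_forall_integral_rclike_tendsto ℂ).1 tendsto_id
      (BoundedContinuousFunction.mkOfCompact f)
  have hcl : IsClosed {ρ : FiniteMeasure S | ∫ s, f s ∂(μ : Measure S) =
    ∫ s, f s ∂(ρ : Measure S)} := isClosed_eq continuous_const hc
  exact closure_minimal (fun ρ hρ => hρ.2 f hf) hcl h

lemma eq_of_le (A : Subalgebra ℂ C(S, ℂ)) (μ ν : FiniteMeasure S) (he : Equivalent A μ ν)
    (c : ℝ) (hc : 0 ≤ c)
    (hle : ∀ g : S → ℝ, Continuous g → (∀ s, 0 ≤ g s) →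
      ∫ s, g s ∂(ν : Measure S) ≤ c * ∫ s, g s ∂(μ : Measure S))
    (hd : ∀ F : C(S, ℂ), ∀ ε : ℝ, 0 < ε → ∃ f ∈ A, ∃ g ∈ A,
      ∫ s, ‖F s - (f s + (starRingEnd ℂ) (g s))‖ ∂(μ : Measure S) < ε) : ν = μ := by
  apply Subtype.ext
  change (ν : Measure S) = (μ : Measure S)
  refine ext_c _ _ fun F => ?_
  rw [← sub_eq_zero, ← norm_le_zero_iff]
  refine le_of_forall_pos_le_add fun ε hε => ?_
  obtain ⟨f, hf, g, hg, hlt⟩ := hd F (ε / (c + 1)) (by positivity)
  have hcont : Continuous fun s => F s - (f s + (starRingEnd ℂ) (g s)) := by fun_prop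
  have hsum : ∀ (ρ : Measure S) [IsFiniteMeasure ρ],
      ∫ s, (F s - (f s + (starRingEnd ℂ) (g s))) ∂ρ =
        ∫ s, F s ∂ρ - (∫ s, f s ∂ρ + (starRingEnd ℂ) (∫ s, g s ∂ρ)) := by
    intro ρ _
    rw [integral_sub (int_c ρ F) (int_cc ρ (by fun_prop)),
      integral_add (int_c ρ f) (int_cc ρ (by fun_prop)), integral_conj]
  have e : ∫ s, F s ∂(ν : Measure S) - ∫ s, F s ∂(μ : Measure S) =
      ∫ s, (F s - (f s + (starRingEnd ℂ) (g s))) ∂(ν : Measure S) -
      ∫ s, (F s - (f s + (starRingEnd ℂ) (g s))) ∂(μ : Measure S) := by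
    rw [hsum, hsum, he f hf, he g hg]; ring
  rw [e]
  have h1 := norm_integral_le_integral_norm (μ := (ν : Measure S))
    fun s => F s - (f s + (starRingEnd ℂ) (g s))
  have h2 := norm_integral_le_integral_norm (μ := (μ : Measure S))
    fun s => F s - (f s + (starRingEnd ℂ) (g s))
  have h3 := hle _ hcont.norm fun s => norm_nonneg _
  have h4 : (c + 1) * ∫ s, ‖F s - (f s + (starRingEnd ℂ) (g s))‖ ∂(μ : Measure S) ≤ ε := by
    rw [lt_div_iff₀ (by positivity)] at hlt
    linarith
  have h5 := norm_sub_le (∫ s, (F s - (f s + (starRingEnd ℂ) (g s))) ∂(ν : Measure S))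
    (∫ s, (F s - (f s + (starRingEnd ℂ) (g s))) ∂(μ : Measure S))
  linarith

lemma extremal_of_dense (A : Subalgebra ℂ C(S, ℂ)) (μ : FiniteMeasure S)
    (hd : ∀ F : C(S, ℂ), ∀ ε : ℝ, 0 < ε → ∃ f ∈ A, ∃ g ∈ A,
      ∫ s, ‖F s - (f s + (starRingEnd ℂ) (g s))‖ ∂(μ : Measure S) < ε) : Extremal A μ := by
  refine ⟨⟨subset_closure ⟨Measure.AbsolutelyContinuous.rfl, fun f _ => rfl⟩, ?_⟩, ?_⟩
  · intro ν₁ h1 ν₂ h2 t ht0 ht1 he
    have hint : ∀ g : S → ℝ, Continuous g → ∫ s, g s ∂(μ : Measure S) =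
        t * ∫ s, g s ∂(ν₁ : Measure S) + ((1 - t : ℝ≥0) : ℝ) * ∫ s, g s ∂(ν₂ : Measure S) := by
      intro g hg
      rw [he, FiniteMeasure.toMeasure_add, FiniteMeasure.toMeasure_smul,
        FiniteMeasure.toMeasure_smul, integral_add_measure (int_r _ hg) (int_r _ hg),
        integral_smul_nnreal_measure, integral_smul_nnreal_measure]
      rfl
    have ht0' : (0 : ℝ) < t := ht0
    have ht1' : (0 : ℝ) < ((1 - t : ℝ≥0) : ℝ) := by
      rw [NNReal.coe_sub ht1.le]
      have : (t : ℝ) < 1 := ht1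
      simpa using this
    constructor
    · refine eq_of_le A μ ν₁ (equiv_of_K A μ _ h1) (1 / t) (by positivity) (fun g hg h0 => ?_) hd
      have a : 0 ≤ ∫ s, g s ∂(ν₂ : Measure S) := integral_nonneg h0
      rw [hint g hg, one_div, le_inv_mul_iff₀ ht0']
      nlinarith
    · refine eq_of_le A μ ν₂ (equiv_of_K A μ _ h2) (1 / ((1 - t : ℝ≥0) : ℝ)) (by positivity)
        (fun g hg h0 => ?_) hd
      have a : 0 ≤ ∫ s, g s ∂(ν₁ : Measure S) := integral_nonneg h0
      rw [hint g hg, one_div, le_inv_mul_iff₀ ht1']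
      nlinarith
  · intro F hF ε hε
    obtain ⟨G, hG, hGi⟩ := hF.exists_boundedContinuous_integral_sub_le (half_pos hε)
    obtain ⟨f, hf, g, hg, hlt⟩ := hd G.toContinuousMap (ε / 2) (half_pos hε)
    refine ⟨f, hf, g, hg, ?_⟩
    have hcont : Continuous fun s => G s - (f s + (starRingEnd ℂ) (g s)) := by fun_prop
    have : ∫ s, ‖F s - (f s + (starRingEnd ℂ) (g s))‖ ∂(μ : Measure S) ≤
        ∫ s, (‖F s - G s‖ + ‖G s - (f s + (starRingEnd ℂ) (g s))‖) ∂(μ : Measure S) := by
      refine integral_mono_of_nonneg (Eventually.of_forall fun s => norm_nonneg _)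
        ((hF.sub hGi).norm.add (int_r _ hcont.norm)) (Eventually.of_forall fun s => ?_)
      exact norm_sub_le_norm_sub_add_norm_sub _ _ _
    have hi1 : Integrable (fun s => ‖F s - G s‖) (μ : Measure S) := (hF.sub hGi).norm
    rw [integral_add hi1 (int_r _ hcont.norm)] at this
    have hlt' : ∫ s, ‖G s - (f s + (starRingEnd ℂ) (g s))‖ ∂(μ : Measure S) < ε / 2 := hlt
    linarith

lemma int_Lp (ν : Measure S) (F : Lp ℂ ∞ ν) {h : S → ℂ} (hh : Integrable h ν) :
    Integrable (fun s => F s * h s) ν :=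
  (Lp.memLp F).integrable_mul (memLp_one_iff_integrable.2 hh)

lemma ae_le_norm (ν : Measure S) (F : Lp ℂ ∞ ν) : ∀ᵐ s ∂ν, ‖F s‖ ≤ ‖F‖ := by
  filter_upwards [ae_le_eLpNormEssSup (f := F) (μ := ν)] with s hs
  rw [Lp.norm_def, eLpNorm_exponent_top, ← toReal_enorm]
  refine ENNReal.toReal_mono ?_ hs
  rw [← eLpNorm_exponent_top]
  exact Lp.eLpNorm_ne_top F

noncomputable def pairL (ν : Measure S) {h : S → ℂ} (hh : Integrable h ν) : Lp ℂ ∞ ν →L[ℂ] ℂ :=
  LinearMap.mkContinuous
    { toFun := fun F => ∫ s, F s * h s ∂ν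
      map_add' := fun F G => by
        rw [← integral_add (int_Lp ν F hh) (int_Lp ν G hh)]
        refine integral_congr_ae ?_
        filter_upwards [Lp.coeFn_add F G] with s hs
        rw [hs, Pi.add_apply, add_mul]
      map_smul' := fun c F => by
        rw [RingHom.id_apply, smul_eq_mul, ← integral_const_mul]
        refine integral_congr_ae ?_
        filter_upwards [Lp.coeFn_smul c F] with s hs
        rw [hs, Pi.smul_apply, smul_eq_mul, mul_assoc] } (∫ s, ‖h s‖ ∂ν) fun F => by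
    simp only [LinearMap.coe_mk, AddHom.coe_mk]
    rw [mul_comm, ← integral_const_mul]
    refine norm_integral_le_of_norm_le (hh.norm.const_mul _) ?_
    filter_upwards [ae_le_norm ν F] with s hs
    rw [norm_mul]
    exact mul_le_mul_of_nonneg_right hs (norm_nonneg _)

lemma pairL_apply (ν : Measure S) {h : S → ℂ} (hh : Integrable h ν) (F : Lp ℂ ∞ ν) :
    pairL ν hh F = ∫ s, F s * h s ∂ν := rfl

lemma pairL_norm (ν : Measure S) {h : S → ℂ} (hh : Integrable h ν) :
    ‖pairL ν hh‖ ≤ ∫ s, ‖h s‖ ∂ν :=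
  LinearMap.mkContinuous_norm_le _ (integral_nonneg fun _ => norm_nonneg _) _

lemma mem_wcl (μ : FiniteMeasure S) (M : Submodule ℂ (Lp ℂ ∞ (μ : Measure S)))
    (F : Lp ℂ ∞ (μ : Measure S)) : F ∈ wcl μ M ↔ ∀ h : S → ℂ, Integrable h (μ : Measure S) →
      (∀ G ∈ M, ∫ s, G s * h s ∂(μ : Measure S) = 0) → ∫ s, F s * h s ∂(μ : Measure S) = 0 := by
  have hsub : ∀ (G : Lp ℂ ∞ (μ : Measure S)) (h : S → ℂ), Integrable h (μ : Measure S) →
      ∫ s, (fn F s - fn G s) * h s ∂(μ : Measure S) =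
        ∫ s, F s * h s ∂(μ : Measure S) - ∫ s, G s * h s ∂(μ : Measure S) := by
    intro G h hh
    rw [← integral_sub (int_Lp _ F hh) (int_Lp _ G hh)]
    simp [sub_mul, fn]
  constructor
  · intro hF h hh h0
    rw [← norm_le_zero_iff]
    refine le_of_forall_pos_le_add fun ε hε => ?_
    obtain ⟨G, hG, hlt⟩ := hF 1 (fun _ => h) (fun _ => hh) ε hε
    have := hlt 0
    rw [hsub G h hh, h0 G hG, sub_zero] at this
    linarith
  · intro hF n h hh ε hε
    let T : Lp ℂ ∞ (μ : Measure S) →ₗ[ℂ] (Fin n → ℂ) :=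
      LinearMap.pi fun i => (pairL _ (hh i)).toLinearMap
    have hT : T F ∈ M.map T := by
      by_contra hn
      obtain ⟨l, hl1, hl2⟩ := Submodule.exists_dual_map_eq_bot_of_notMem hn inferInstance
      let c : Fin n → ℂ := fun i => l fun j => if i = j then 1 else 0
      have hi : Integrable (fun s => ∑ i, c i * h i s) (μ : Measure S) :=
        integrable_finsetSum _ fun i _ => (hh i).const_mul _
      have hl : ∀ G, l (T G) = ∫ s, G s * ∑ i, c i * h i s ∂(μ : Measure S) := by
        intro G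
        rw [LinearMap.pi_apply_eq_sum_univ]
        simp only [Finset.mul_sum]
        rw [integral_finsetSum _ fun i _ => int_Lp _ G ((hh i).const_mul _)]
        refine Finset.sum_congr rfl fun i _ => ?_
        change (∫ s, G s * h i s ∂(μ : Measure S)) * c i = _
        rw [← integral_mul_const]
        refine integral_congr_ae (Eventually.of_forall fun s => ?_)
        ring
      apply hl1
      rw [hl]
      refine hF _ hi fun G hG => ?_
      rw [← hl]
      have : l (T G) ∈ (M.map T).map l := Submodule.mem_map_of_mem (Submodule.mem_map_of_mem hG)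
      rw [hl2] at this
      exact this
    obtain ⟨G, hG, hTG⟩ := hT
    refine ⟨G, hG, fun i => ?_⟩
    have := congrFun hTG i
    change ∫ s, G s * h i s ∂(μ : Measure S) = ∫ s, F s * h i s ∂(μ : Measure S) at this
    rw [hsub G _ (hh i), this, sub_self, norm_zero]
    exact hε

def clsM (A : Subalgebra ℂ C(S, ℂ)) (μ : FiniteMeasure S) :
    Submodule ℂ (Lp ℂ ∞ (μ : Measure S)) where
  carrier := cls A μ
  zero_mem' := ⟨0, A.zero_mem, Lp.coeFn_zero _ _ _⟩
  add_mem' := by
    rintro F G ⟨f, hf, h1⟩ ⟨g, hg, h2⟩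
    refine ⟨f + g, A.add_mem hf hg, ?_⟩
    filter_upwards [h1, h2, Lp.coeFn_add F G] with s a b c
    unfold fn at *
    rw [c, Pi.add_apply, a, b]; rfl
  smul_mem' := by
    rintro c F ⟨f, hf, h1⟩
    refine ⟨c • f, A.smul_mem hf c, ?_⟩
    filter_upwards [h1, Lp.coeFn_smul c F] with s a b
    unfold fn at *
    rw [b, Pi.smul_apply, a]; rfl

def clsSumM (A : Subalgebra ℂ C(S, ℂ)) (μ : FiniteMeasure S) :
    Submodule ℂ (Lp ℂ ∞ (μ : Measure S)) where
  carrier := clsSum A μ
  zero_mem' := ⟨0, A.zero_mem, 0, A.zero_mem, by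
    filter_upwards [Lp.coeFn_zero ℂ ∞ (μ : Measure S)] with s a
    simpa [fn] using a⟩
  add_mem' := by
    rintro F G ⟨f, hf, f', hf', h1⟩ ⟨g, hg, g', hg', h2⟩
    refine ⟨f + g, A.add_mem hf hg, f' + g', A.add_mem hf' hg', ?_⟩
    filter_upwards [h1, h2, Lp.coeFn_add F G] with s a b c
    unfold fn at *
    rw [c, Pi.add_apply, a, b]
    simp only [ContinuousMap.add_apply, map_add]; ring
  smul_mem' := by
    rintro c F ⟨f, hf, g, hg, h1⟩
    refine ⟨c • f, A.smul_mem hf c, (starRingEnd ℂ) c • g, A.smul_mem hg _, ?_⟩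
    filter_upwards [h1, Lp.coeFn_smul c F] with s a b
    unfold fn at *
    rw [b, Pi.smul_apply, a]
    simp only [ContinuousMap.smul_apply, smul_eq_mul, map_mul, Complex.conj_conj]; ring

lemma mem_wcl_cls (A : Subalgebra ℂ C(S, ℂ)) (μ : FiniteMeasure S) (F : Lp ℂ ∞ (μ : Measure S)) :
    F ∈ wcl μ (cls A μ) ↔ ∀ h : S → ℂ, Integrable h (μ : Measure S) →
      (∀ f ∈ A, ∫ s, f s * h s ∂(μ : Measure S) = 0) → ∫ s, F s * h s ∂(μ : Measure S) = 0 := by
  refine (mem_wcl μ (clsM A μ) F).trans (forall₂_congr fun h _ => imp_congr_left ?_)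
  constructor
  · intro H f hf
    have := H (ContinuousMap.toLp ∞ (μ : Measure S) ℂ f)
      ⟨f, hf, ContinuousMap.coeFn_toLp _ f⟩
    rw [← this]
    refine integral_congr_ae ?_
    filter_upwards [ContinuousMap.coeFn_toLp (p := ∞) (𝕜 := ℂ) (μ : Measure S) f] with s a
    rw [a]
  · rintro H G ⟨f, hf, hG⟩
    rw [← H f hf]
    refine integral_congr_ae ?_
    filter_upwards [hG] with s a
    unfold fn at a
    rw [a]

lemma mem_wcl_clsSum (A : Subalgebra ℂ C(S, ℂ)) (μ : FiniteMeasure S)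
    (F : Lp ℂ ∞ (μ : Measure S)) :
    F ∈ wcl μ (clsSum A μ) ↔ ∀ h : S → ℂ, Integrable h (μ : Measure S) →
      (∀ f ∈ A, ∫ s, f s * h s ∂(μ : Measure S) = 0 ∧
        ∫ s, (starRingEnd ℂ) (f s) * h s ∂(μ : Measure S) = 0) →
        ∫ s, F s * h s ∂(μ : Measure S) = 0 := by
  refine (mem_wcl μ (clsSumM A μ) F).trans (forall₂_congr fun h hh => imp_congr_left ?_)
  constructor
  · intro H f hf
    constructor
    · have := H (ContinuousMap.toLp ∞ (μ : Measure S) ℂ f) ⟨f, hf, 0, A.zero_mem, by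
        filter_upwards [ContinuousMap.coeFn_toLp (p := ∞) (𝕜 := ℂ) (μ : Measure S) f] with s a
        simpa [fn] using a⟩
      rw [← this]
      refine integral_congr_ae ?_
      filter_upwards [ContinuousMap.coeFn_toLp (p := ∞) (𝕜 := ℂ) (μ : Measure S) f] with s a
      rw [a]
    · have := H (ContinuousMap.toLp ∞ (μ : Measure S) ℂ (star f)) ⟨0, A.zero_mem, f, hf, by
        filter_upwards [ContinuousMap.coeFn_toLp (p := ∞) (𝕜 := ℂ) (μ : Measure S) (star f)]
          with s a
        simpa [fn] using a⟩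
      rw [← this]
      refine integral_congr_ae ?_
      filter_upwards [ContinuousMap.coeFn_toLp (p := ∞) (𝕜 := ℂ) (μ : Measure S) (star f)] with s a
      rw [a]; rfl
  · rintro H G ⟨f, hf, g, hg, hG⟩
    have e : ∫ s, G s * h s ∂(μ : Measure S) = ∫ s, f s * h s ∂(μ : Measure S) +
        ∫ s, (starRingEnd ℂ) (g s) * h s ∂(μ : Measure S) := by
      have hi1 : Integrable (fun s => (starRingEnd ℂ) (g s) * h s) (μ : Measure S) :=
        int_cm _ (star g) hh
      rw [← integral_add (int_cm _ f hh) hi1]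
      refine integral_congr_ae ?_
      filter_upwards [hG] with s a
      unfold fn at a
      rw [a, add_mul]
    rw [e, (H f hf).1, (H g hg).2, add_zero]

lemma logInt_le (ν : Measure S) [IsFiniteMeasure ν] (f : S → ℂ) (g : S → ℝ) (hg : Continuous g)
    (h : ∀ s, f s ≠ 0 → Real.log ‖f s‖ ≤ g s) (h' : ∀ s, f s = 0 → 0 ≤ g s) :
    logInt ν f ≤ ((∫ s, g s ∂ν : ℝ) : EReal) := by
  have hi := int_r ν hg
  rw [integral_eq_lintegral_pos_part_sub_lintegral_neg_part hi, EReal.coe_sub,
    EReal.coe_ennreal_toReal, EReal.coe_ennreal_toReal]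
  · refine EReal.sub_le_sub ?_ ?_
    · rw [EReal.coe_ennreal_le_coe_ennreal_iff]
      refine lintegral_mono fun s => ENNReal.ofReal_le_ofReal ?_
      by_cases h0 : f s = 0
      · simpa [h0] using h' s h0
      · exact h s h0
    · rw [EReal.coe_ennreal_le_coe_ennreal_iff]
      refine lintegral_mono fun s => ?_
      split_ifs with h0
      · exact le_top
      · exact ENNReal.ofReal_le_ofReal (neg_le_neg (h s h0))
  · exact ((lintegral_mono fun x => Real.ofReal_le_enorm ((-g) x)).trans_lt hi.neg.2).ne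
  · exact ((lintegral_mono fun x => Real.ofReal_le_enorm (g x)).trans_lt hi.2).ne

lemma logInt_eq (ν : Measure S) [IsFiniteMeasure ν] (f : S → ℂ) (g : S → ℝ) (hg : Continuous g)
    (h : ∀ᵐ s ∂ν, f s ≠ 0 ∧ Real.log ‖f s‖ = g s) :
    logInt ν f = ((∫ s, g s ∂ν : ℝ) : EReal) := by
  have hi := int_r ν hg
  rw [integral_eq_lintegral_pos_part_sub_lintegral_neg_part hi, EReal.coe_sub,
    EReal.coe_ennreal_toReal, EReal.coe_ennreal_toReal]
  · unfold logInt
    congr 2
    · refine lintegral_congr_ae ?_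
      filter_upwards [h] with s hs
      rw [hs.2]
    · refine lintegral_congr_ae ?_
      filter_upwards [h] with s hs
      rw [if_neg hs.1, hs.2]
  · exact ((lintegral_mono fun x => Real.ofReal_le_enorm ((-g) x)).trans_lt hi.neg.2).ne
  · exact ((lintegral_mono fun x => Real.ofReal_le_enorm (g x)).trans_lt hi.2).ne

end meas

lemma exists_ulim {E : Type*} [SeminormedAddCommGroup E] [NormedSpace ℂ E] (U : Ultrafilter ℕ)
    (l : ℕ → E →L[ℂ] ℂ) (C : ℝ) (hl : ∀ k, ‖l k‖ ≤ C) :
    ∃ L : E →L[ℂ] ℂ, ∀ x, Tendsto (fun k => l k x) U (𝓝 (L x)) := by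
  have hb : ∀ k x, ‖l k x‖ ≤ C * ‖x‖ := fun k x =>
    ((l k).le_opNorm x).trans (mul_le_mul_of_nonneg_right (hl k) (norm_nonneg _))
  have hex : ∀ x, ∃ c, Tendsto (fun k => l k x) U (𝓝 c) := by
    intro x
    obtain ⟨c, -, hc⟩ := (isCompact_closedBall (0 : ℂ) (C * ‖x‖)).ultrafilter_le_nhds
      (U.map fun k => l k x) (by
        rw [le_principal_iff]
        exact Filter.mem_map.2 (Eventually.of_forall fun k => by simpa using hb k x))
    exact ⟨c, hc⟩
  choose c hc using hex
  refine ⟨LinearMap.mkContinuous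
    { toFun := c
      map_add' := fun x y => tendsto_nhds_unique (hc (x + y)) (by
        simpa using (hc x).add (hc y))
      map_smul' := fun a x => tendsto_nhds_unique (hc (a • x)) (by
        simpa using (hc x).const_mul a) } C fun x => ?_, hc⟩
  exact le_of_tendsto' (hc x).norm fun k => hb k x

lemma not_reflexive {E : Type} [SeminormedAddCommGroup E] [NormedSpace ℂ E]
    (l : ℕ → E →L[ℂ] ℂ) (G : ℕ → E) (C : ℝ) (hl : ∀ k, ‖l k‖ ≤ C) (hG : ∀ n, ‖G n‖ ≤ C)
    (h : ∀ k n, l k (G n) = if k ≤ n then 1 else 0) :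
    ¬ IsReflexive E := by
  intro hs0
  have hs : Function.Surjective (NormedSpace.inclusionInDoubleDual ℂ E) := by
    intro Φ
    obtain ⟨x, hx⟩ := hs0 Φ
    exact ⟨x, ContinuousLinearMap.ext fun l => (hx l).symm⟩
  let U : Ultrafilter ℕ := Ultrafilter.of atTop
  have hU : (U : Filter ℕ) ≤ atTop := Ultrafilter.of_le _
  obtain ⟨L, hL⟩ := exists_ulim U l C hl
  obtain ⟨Φ, hΦ⟩ := exists_ulim U (fun n => NormedSpace.inclusionInDoubleDual ℂ E (G n)) C
    fun n => (NormedSpace.double_dual_bound ℂ E (G n)).trans (hG n)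
  obtain ⟨x, hx⟩ := hs Φ
  have h1 : ∀ k, l k x = 1 := by
    intro k
    have a := hΦ (l k)
    rw [← hx] at a
    simp only [NormedSpace.dual_def] at a
    refine tendsto_nhds_unique a (tendsto_const_nhds.congr' ?_)
    filter_upwards [hU (eventually_ge_atTop k)] with n hn
    rw [h, if_pos hn]
  have h2 : ∀ n, L (G n) = 0 := by
    intro n
    refine tendsto_nhds_unique (hL (G n)) (tendsto_const_nhds.congr' ?_)
    filter_upwards [hU (eventually_gt_atTop n)] with k hk
    rw [h, if_neg (not_le.2 hk)]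
  have h3 : L x = 1 := tendsto_nhds_unique (hL x) (by simp [h1])
  have h4 : L x = 0 := by
    have a := hΦ L
    rw [← hx] at a
    simp only [NormedSpace.dual_def, h2] at a
    exact tendsto_nhds_unique a tendsto_const_nhds
  rw [h3] at h4
  exact one_ne_zero h4

end H3Bis
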