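import Pool.Agent.Lib.helper3.BishopB

set_option autoImplicit false
set_option linter.unusedSectionVars false
open MeasureTheory Filter Topology AddCircle
open scoped ENNReal NNReal BoundedContinuousFunction ComplexConjugate

namespace H3Bis

noncomputable def ez (θ : UnitAddCircle) : ℂ := fourier 1 θ

lemma ez_cont : Continuous ez := (fourier 1).continuous

lemma ez_norm (θ : UnitAddCircle) : ‖ez θ‖ = 1 := by simp [ez]

lemma ez_zpow (θ : UnitAddCircle) (j : ℤ) : ez θ ^ j = fourier j θ := by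
  rw [ez, fourier_one, fourier_apply, toCircle_zsmul]
  simp

lemma int_ez (j : ℤ) : ∫ θ, ez θ ^ j ∂haarAddCircle = if j = 0 then 1 else 0 := by
  have h := congrFun (fourierCoeff_fourier (T := 1) j) 0
  simp only [fourierCoeff, neg_zero, fourier_zero, one_smul, Pi.single_apply] at h
  simp only [ez_zpow, h, eq_comm]

lemma ez_inj : Function.Injective ez := by
  intro a b h
  simp only [ez, fourier_one] at h
  exact injective_toCircle one_ne_zero (Subtype.ext h)

lemma ae_ez_ne : ∀ᵐ θ ∂(haarAddCircle (T := 1)), ez θ ^ 3 ≠ 1 := by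
  have hfin : {z : ℂ | z ^ 3 = 1}.Finite := by
    refine (Polynomial.nthRoots 3 (1 : ℂ)).toFinset.finite_toSet.subset fun z hz => ?_
    simpa using hz
  have h2 : (ez ⁻¹' {z : ℂ | z ^ 3 = 1}).Finite := hfin.preimage ez_inj.injOn
  have : Nontrivial UnitAddCircle := ⟨⟨0, ((1 / 2 : ℝ) : UnitAddCircle), fun h => by
    have h1 := fourier_add_half_inv_index (T := 1) (n := 1) one_ne_zero one_pos 0
    simp only [zero_add, Int.cast_one, div_one] at h1
    rw [← h, fourier_eval_zero] at h1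
    norm_num at h1⟩⟩
  have h3 := h2.measure_zero (haarAddCircle (T := 1))
  rw [ae_iff]
  simpa using h3

lemma conj_eq_inv {z : ℂ} (hz : ‖z‖ = 1) : conj z = z ^ (-1 : ℤ) := by
  rw [zpow_neg_one, Complex.inv_eq_conj hz]

lemma ne_zero_of_norm {z : ℂ} (hz : ‖z‖ = 1) : z ≠ 0 := by
  rintro rfl; simp at hz

abbrev SS : Type := Metric.closedBall (0 : ℂ) 1 × unitInterval

noncomputable def Z : C(SS, ℂ) := ⟨fun s => s.1, by fun_prop⟩
noncomputable def X : C(SS, ℂ) := ⟨fun s => ((s.2 : ℝ) : ℂ), by fun_prop⟩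

@[simp] lemma Z_apply (s : SS) : Z s = s.1 := rfl
@[simp] lemma X_apply (s : SS) : X s = ((s.2 : ℝ) : ℂ) := rfl

lemma Z_le (s : SS) : ‖(s.1 : ℂ)‖ ≤ 1 := mem_closedBall_zero_iff.1 s.1.2
lemma X_le (s : SS) : ‖((s.2 : ℝ) : ℂ)‖ ≤ 1 := by
  rw [Complex.norm_real, Real.norm_of_nonneg s.2.2.1]; exact s.2.2.2

noncomputable def MM : Submonoid C(SS, ℂ) where
  carrier := {f | ∃ j l : ℕ, j ≠ 1 ∧ f = Z ^ j * X ^ l}
  one_mem' := ⟨0, 0, by simp, by simp⟩
  mul_mem' := by
    rintro _ _ ⟨j, l, hj, rfl⟩ ⟨j', l', hj', rfl⟩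
    exact ⟨j + j', l + l', by omega, by ring⟩

noncomputable def AA : Subalgebra ℂ C(SS, ℂ) := alg MM

lemma mon_mem {j : ℕ} (hj : j ≠ 1) (l : ℕ) : Z ^ j * X ^ l ∈ AA := mem_alg MM ⟨j, l, hj, rfl⟩

lemma bishop_AA : Bishop AA := by
  refine bishop_of _ (alg_closed _) (fun φ h0 hm => ?_) ?_
  · let z2 : AA := ⟨Z ^ 2 * X ^ 0, mon_mem (by norm_num) 0⟩
    let z3 : AA := ⟨Z ^ 3 * X ^ 0, mon_mem (by norm_num) 0⟩
    let x : AA := ⟨Z ^ 0 * X ^ 1, mon_mem (by norm_num) 1⟩
    have h1 := char_one AA φ h0 hm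
    have hp := char_pow AA φ h0 hm
    have hrel : φ z2 ^ 3 = φ z3 ^ 2 := by
      rw [← hp, ← hp]; congr 1; apply Subtype.ext; simp [z2, z3, ← pow_mul]
    obtain ⟨z0, hz2, hz3⟩ : ∃ z0 : ℂ, φ z2 = z0 ^ 2 ∧ φ z3 = z0 ^ 3 := by
      by_cases hz : φ z2 = 0
      · refine ⟨0, by simpa using hz, ?_⟩
        rw [hz] at hrel
        simpa using hrel.symm
      · refine ⟨φ z3 / φ z2, ?_, ?_⟩
        · field_simp; exact hrel
        · field_simp; rw [hrel]; ring
    have hz0 : ‖z0‖ ≤ 1 := by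
      have := char_le AA φ h0 hm z2 1 zero_le_one fun s => by
        simpa [z2] using pow_le_one₀ (n := 2) (norm_nonneg _) (Z_le s)
      rw [hz2, norm_pow] at this
      exact (pow_le_one_iff_of_nonneg (norm_nonneg _) two_ne_zero).1 this
    have hx : ∀ t : ℝ, ((φ x).re - 1 / 2) ^ 2 + ((φ x).im + t) ^ 2 ≤ 1 / 4 + t ^ 2 := by
      intro t
      have := char_le AA φ h0 hm (x + ((-1 / 2 : ℝ) + t * Complex.I : ℂ) • 1)
        (Real.sqrt (1 / 4 + t ^ 2)) (Real.sqrt_nonneg _) fun s => by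
          rw [Complex.norm_eq_sqrt_sq_add_sq]
          refine Real.sqrt_le_sqrt ?_
          have a := s.2.2.1
          have b := s.2.2.2
          simp [x]
          nlinarith
      rw [map_add, map_smul, h1, Complex.norm_eq_sqrt_sq_add_sq,
        Real.sqrt_le_sqrt_iff (by positivity)] at this
      simp at this
      nlinarith
    have him : (φ x).im = 0 := by
      by_contra hne
      have := hx (1 / (φ x).im)
      have e : (φ x).im * (1 / (φ x).im) = 1 := by field_simp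
      nlinarith [sq_nonneg ((φ x).re - 1 / 2), sq_nonneg (φ x).im]
    have hre := hx 0
    rw [him] at hre
    let s0 : SS := (⟨z0, by simpa using hz0⟩, ⟨(φ x).re, by constructor <;> nlinarith⟩)
    have hxs : φ x = X s0 := by
      apply Complex.ext <;> simp [s0, him]
    have hev : ∀ f : AA, φ f = (f : C(SS, ℂ)) s0 := by
      refine char_eval MM φ s0 ?_
      rintro _ ⟨j, l, hj, rfl⟩
      obtain ⟨a, b, rfl⟩ : ∃ a b : ℕ, j = 2 * a + 3 * b := by
        rcases Nat.even_or_odd' j with ⟨a, h | h⟩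
        · exact ⟨a, 0, by omega⟩
        · exact ⟨a - 1, 1, by omega⟩
      have e : (⟨Z ^ (2 * a + 3 * b) * X ^ l, mem_alg MM ⟨_, l, hj, rfl⟩⟩ : AA) =
          z2 ^ a * z3 ^ b * x ^ l := by
        apply Subtype.ext
        simp [z2, z3, x, ← pow_mul, pow_add]
      refine (congrArg φ e).trans ?_
      rw [hm, hm, hp, hp, hp, hz2, hz3, hxs]
      simp [s0, ← pow_mul, pow_add]
    refine ⟨s0, hev, fun s hs => ?_⟩
    have e2 : (s.1 : ℂ) ^ 2 = z0 ^ 2 := by rw [← hz2, hs z2]; simp [z2]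
    have e3 : (s.1 : ℂ) ^ 3 = z0 ^ 3 := by rw [← hz3, hs z3]; simp [z3]
    have e1 : ((s.2 : ℝ) : ℂ) = X s0 := by rw [← hxs, hs x]; simp [x]
    refine Prod.ext (Subtype.ext ?_) (Subtype.ext ?_)
    · change (s.1 : ℂ) = z0
      by_cases hz : z0 = 0
      · rw [hz] at e2 ⊢; simpa using e2
      · have : (s.1 : ℂ) * z0 ^ 2 = z0 * z0 ^ 2 := by linear_combination e3 - (s.1 : ℂ) * e2
        exact mul_right_cancel₀ (pow_ne_zero 2 hz) this
    · simpa using e1
  · let H : C(unitInterval × SS, SS) := ⟨fun p => (⟨((p.1 : ℝ) : ℂ) * p.2.1, by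
        rw [mem_closedBall_zero_iff, norm_mul, Complex.norm_real, Real.norm_of_nonneg p.1.2.1]
        exact mul_le_one₀ p.1.2.2 (norm_nonneg _) (Z_le p.2)⟩, p.1 * p.2.2), by
      refine Continuous.prodMk (Continuous.subtype_mk (by fun_prop) _) ?_
      refine Continuous.subtype_mk (f := fun p : unitInterval × SS => (p.1 : ℝ) * (p.2.2 : ℝ))
        (by fun_prop) _⟩
    refine exp_of_homotopy AA (alg_closed _) H (fun s => by simp [H])
      (⟨0, by simp⟩, 0) (fun s => by simp [H]) fun t => comp_mem MM _ ?_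
    rintro _ ⟨j, l, hj, rfl⟩
    have e : (Z ^ j * X ^ l).comp (H.curry t) = (((t : ℝ) : ℂ) ^ (j + l)) • (Z ^ j * X ^ l) := by
      ext s
      simp [H, mul_pow, pow_add]
      ring
    rw [e]
    exact (alg MM).smul_mem (mon_mem hj l) _

noncomputable def eb (θ : UnitAddCircle) : Metric.closedBall (0 : ℂ) 1 :=
  ⟨ez θ, by simp [ez_norm]⟩

lemma eb_cont : Continuous eb := ez_cont.subtype_mk _

noncomputable def rho0 : Measure (Metric.closedBall (0 : ℂ) 1) := haarAddCircle.map eb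

instance : IsProbabilityMeasure rho0 := Measure.isProbabilityMeasure_map eb_cont.aemeasurable

noncomputable def rho : Measure SS := rho0.prod volume

instance : IsProbabilityMeasure rho := by unfold rho; infer_instance

lemma ae_rho : ∀ᵐ s ∂rho, ‖(s.1 : ℂ)‖ = 1 ∧ (s.1 : ℂ) ^ 3 ≠ 1 := by
  have h : ∀ᵐ z : Metric.closedBall (0 : ℂ) 1 ∂rho0, ‖(z : ℂ)‖ = 1 ∧ (z : ℂ) ^ 3 ≠ 1 := by
    refine (ae_map_iff eb_cont.aemeasurable ?_).2 ?_
    · refine MeasurableSet.inter (isClosed_eq (by fun_prop) continuous_const).measurableSet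
        (isOpen_ne_fun (by fun_prop) continuous_const).measurableSet
    · filter_upwards [ae_ez_ne] with θ hθ
      exact ⟨ez_norm θ, hθ⟩
  exact Measure.quasiMeasurePreserving_fst.ae h

lemma int_rho (j : ℤ) (φ : unitInterval → ℂ) :
    ∫ s, (s.1 : ℂ) ^ j * φ s.2 ∂rho = (if j = 0 then 1 else 0) * ∫ x, φ x := by
  rw [rho, integral_prod_mul (fun z : Metric.closedBall (0 : ℂ) 1 => (z : ℂ) ^ j) φ, rho0,
    integral_map eb_cont.aemeasurable, ← int_ez]
  · rfl
  · exact (measurable_subtype_coe.pow_const j).aestronglyMeasurable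

end H3Bis
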