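import Pool.Agent.Lib.helper3.BishopC

set_option autoImplicit false
set_option linter.unusedSectionVars false
open MeasureTheory Filter Topology AddCircle Finset
open scoped ENNReal NNReal BoundedContinuousFunction ComplexConjugate

namespace H3Bis

noncomputable def VV : Submodule ℂ (SS → ℂ) where
  carrier := {φ | ∃ f ∈ AA, ∃ g ∈ AA, ∀ s : SS, ‖(s.1 : ℂ)‖ = 1 → φ s = f s + conj (g s)}
  zero_mem' := ⟨0, AA.zero_mem, 0, AA.zero_mem, fun s _ => by simp⟩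
  add_mem' := by
    rintro F G ⟨f, hf, f', hf', h1⟩ ⟨g, hg, g', hg', h2⟩
    refine ⟨f + g, AA.add_mem hf hg, f' + g', AA.add_mem hf' hg', fun s hs => ?_⟩
    rw [Pi.add_apply, h1 s hs, h2 s hs]
    simp only [ContinuousMap.add_apply, map_add]; ring
  smul_mem' := by
    rintro c F ⟨f, hf, g, hg, h1⟩
    refine ⟨c • f, AA.smul_mem hf c, conj c • g, AA.smul_mem hg _, fun s hs => ?_⟩
    rw [Pi.smul_apply, h1 s hs]
    simp only [ContinuousMap.smul_apply, smul_eq_mul, map_mul, Complex.conj_conj]; ring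

lemma VV_congr {φ ψ : SS → ℂ} (h : φ ∈ VV) (e : ∀ s : SS, ‖(s.1 : ℂ)‖ = 1 → ψ s = φ s) :
    ψ ∈ VV := by
  obtain ⟨f, hf, g, hg, h1⟩ := h
  exact ⟨f, hf, g, hg, fun s hs => (e s hs).trans (h1 s hs)⟩

lemma VV_conj {φ : SS → ℂ} (h : φ ∈ VV) : (fun s => conj (φ s)) ∈ VV := by
  obtain ⟨f, hf, g, hg, h1⟩ := h
  exact ⟨g, hg, f, hf, fun s hs => by simp [h1 s hs, add_comm]⟩

lemma mon_circ {z : ℂ} (hz : ‖z‖ = 1) (j k : ℕ) : z ^ j * conj z ^ k = z ^ ((j : ℤ) - k) := by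
  rw [conj_eq_inv hz, zpow_sub₀ (ne_zero_of_norm hz), zpow_neg_one, inv_pow, div_eq_mul_inv]
  simp

lemma VV_mon {j : ℤ} (h1 : j ≠ 1) (h2 : j ≠ -1) (l : ℕ) :
    (fun s : SS => (s.1 : ℂ) ^ j * X s ^ l) ∈ VV := by
  obtain ⟨n, rfl | rfl⟩ := Int.eq_nat_or_neg j
  · exact ⟨_, mon_mem (j := n) (by omega) l, 0, AA.zero_mem, fun s _ => by simp⟩
  · refine ⟨0, AA.zero_mem, _, mon_mem (j := n) (by omega) l, fun s hs => ?_⟩
    have := mon_circ hs 0 n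
    simp only [pow_zero, one_mul, CharP.cast_eq_zero, zero_sub] at this
    simp [← this]

noncomputable def kr (n : ℕ) (z : ℂ) : ℝ := ‖∑ i ∈ range n, (z ^ 3) ^ i‖ ^ 2 / n

lemma kr_nonneg (n : ℕ) (z : ℂ) : 0 ≤ kr n z := by unfold kr; positivity

lemma kr_cont (n : ℕ) : Continuous (kr n) := by unfold kr; fun_prop

lemma kr_bound (n : ℕ) {z : ℂ} (hz : ‖z‖ = 1) : kr n z * ‖1 - z ^ 3‖ ^ 2 ≤ 4 / n := by
  have h : ‖(∑ i ∈ range n, (z ^ 3) ^ i) * (1 - z ^ 3)‖ ≤ 2 := by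
    rw [geom_sum_mul_neg]
    refine (norm_sub_le _ _).trans ?_
    simp [hz]; norm_num
  rw [norm_mul] at h
  unfold kr
  rw [div_mul_eq_mul_div, ← mul_pow]
  gcongr
  nlinarith [mul_nonneg (norm_nonneg (∑ i ∈ range n, (z ^ 3) ^ i)) (norm_nonneg (1 - z ^ 3))]

lemma kr_exp (n : ℕ) {z : ℂ} (hz : ‖z‖ = 1) (a : ℤ) : z ^ a * (kr n z : ℂ) =
    (n : ℂ)⁻¹ * ∑ i ∈ range n, ∑ i' ∈ range n, z ^ (a + 3 * ((i : ℤ) - i')) := by
  have h : ((‖∑ i ∈ range n, (z ^ 3) ^ i‖ ^ 2 : ℝ) : ℂ) =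
      ∑ i ∈ range n, ∑ i' ∈ range n, z ^ (3 * ((i : ℤ) - i')) := by
    rw [← Complex.normSq_eq_norm_sq, ← Complex.mul_conj, map_sum, sum_mul_sum]
    refine sum_congr rfl fun i _ => sum_congr rfl fun i' _ => ?_
    rw [map_pow, map_pow, ← pow_mul, ← pow_mul, mon_circ hz]
    congr 1; push_cast; ring
  unfold kr
  rw [Complex.ofReal_div, h]
  simp only [zpow_add₀ (ne_zero_of_norm hz), ← mul_sum]
  push_cast
  ring

lemma VV_k0 {a : ℤ} (ha : a % 3 = 0) (n l : ℕ) :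
    (fun s : SS => (s.1 : ℂ) ^ a * (kr n s.1 : ℂ) * X s ^ l) ∈ VV := by
  have h : ((n : ℂ)⁻¹ • ∑ i ∈ range n, ∑ i' ∈ range n,
      fun s : SS => (s.1 : ℂ) ^ (a + 3 * ((i : ℤ) - i')) * X s ^ l) ∈ VV :=
    VV.smul_mem _ (VV.sum_mem fun i _ => VV.sum_mem fun i' _ => VV_mon (by omega) (by omega) l)
  refine VV_congr h fun s hs => ?_
  rw [kr_exp n hs]
  simp only [Pi.smul_apply, Finset.sum_apply, smul_eq_mul, ← sum_mul, mul_assoc]

lemma VV_k1 {n : ℕ} (hn : 0 < n) (l : ℕ) :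
    (fun s : SS => ((s.1 : ℂ) * (kr n s.1 : ℂ) - s.1) * X s ^ l) ∈ VV := by
  have h : ((n : ℂ)⁻¹ • ∑ i ∈ range n, ∑ i' ∈ (range n).erase i,
      fun s : SS => (s.1 : ℂ) ^ (1 + 3 * ((i : ℤ) - i')) * X s ^ l) ∈ VV :=
    VV.smul_mem _ (VV.sum_mem fun i _ => VV.sum_mem fun i' hi => VV_mon
      (by have := ne_of_mem_erase hi; omega) (by omega) l)
  refine VV_congr h fun s hs => ?_
  have h1 := kr_exp n hs 1
  rw [zpow_one] at h1
  rw [h1]
  simp only [Pi.smul_apply, Finset.sum_apply, smul_eq_mul, ← sum_mul, ← mul_assoc]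
  congr 1
  have h2 : ∑ i ∈ range n, ∑ i' ∈ range n, (s.1 : ℂ) ^ (1 + 3 * ((i : ℤ) - i')) =
      ∑ i ∈ range n, ((s.1 : ℂ) +
        ∑ i' ∈ (range n).erase i, (s.1 : ℂ) ^ (1 + 3 * ((i : ℤ) - i'))) := by
    refine sum_congr rfl fun i hi => ?_
    rw [← add_sum_erase _ _ hi]
    simp
  have hn' : (n : ℂ) ≠ 0 := by exact_mod_cast hn.ne'
  rw [h2, sum_add_distrib, sum_const, card_range, nsmul_eq_mul]
  field_simp
  ring

noncomputable def mu (w : ℂ → ℝ) (hw : Continuous w) : FiniteMeasure SS :=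
  ⟨rho.withDensity fun s => ENNReal.ofReal (w s.1),
    isFiniteMeasure_withDensity_ofReal (int_r rho (f := fun s => w s.1) (by fun_prop)).2⟩

lemma mu_coe (w : ℂ → ℝ) (hw : Continuous w) :
    (mu w hw : Measure SS) = rho.withDensity fun s => ENNReal.ofReal (w s.1) := rfl

lemma int_mu {E : Type} [NormedAddCommGroup E] [NormedSpace ℝ E] (w : ℂ → ℝ) (hw : Continuous w)
    (h0 : ∀ z, 0 ≤ w z) (F : SS → E) :
    ∫ s, F s ∂(mu w hw : Measure SS) = ∫ s, w s.1 • F s ∂rho := by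
  rw [mu_coe, integral_withDensity_eq_integral_toReal_smul (by fun_prop) (by simp)]
  simp only [ENNReal.toReal_ofReal (h0 _)]

lemma ae_mu (w : ℂ → ℝ) (hw : Continuous w) :
    ∀ᵐ s ∂(mu w hw : Measure SS), ‖(s.1 : ℂ)‖ = 1 ∧ (s.1 : ℂ) ^ 3 ≠ 1 :=
  (withDensity_absolutelyContinuous _ _).ae_le ae_rho

noncomputable def MS : Submonoid C(SS, ℂ) where
  carrier := {f | ∃ j k l : ℕ, f = Z ^ j * star Z ^ k * X ^ l}
  one_mem' := ⟨0, 0, 0, by simp⟩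
  mul_mem' := by
    rintro _ _ ⟨j, k, l, rfl⟩ ⟨j', k', l', rfl⟩
    exact ⟨j + j', k + k', l + l', by ring⟩

lemma sw_SS (P : C(SS, ℂ) → Prop) (hc : IsClosed {f | P f})
    (hM : ∀ j k l : ℕ, P (Z ^ j * star Z ^ k * X ^ l)) (h0 : P 0)
    (ha : ∀ f g, P f → P g → P (f + g)) (hs : ∀ (c : ℂ) f, P f → P (c • f)) : ∀ f, P f := by
  refine sw_ind MS ?_ ?_ P hc ?_ h0 ha hs
  · rintro _ ⟨j, k, l, rfl⟩
    refine ⟨k, j, l, ?_⟩
    ext s
    simp [mul_comm]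
  · intro x y hxy
    by_cases h : (x.1 : ℂ) = y.1
    · refine ⟨X, ⟨0, 0, 1, by simp⟩, fun h2 => hxy (Prod.ext (Subtype.ext h) (Subtype.ext ?_))⟩
      simpa using h2
    · exact ⟨Z, ⟨1, 0, 0, by simp⟩, h⟩
  · rintro _ ⟨j, k, l, rfl⟩
    exact hM j k l

lemma app_of_bound (w : ℂ → ℝ) (hw : Continuous w) (h0 : ∀ z, 0 ≤ w z) (F : C(SS, ℂ))
    (h : ∀ ε : ℝ, 0 < ε → ∃ φ ∈ VV, ∀ s : SS, ‖(s.1 : ℂ)‖ = 1 → ‖F s - φ s‖ * w s.1 ≤ ε) :
    ∀ ε : ℝ, 0 < ε → ∃ f ∈ AA, ∃ g ∈ AA,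
      ∫ s, ‖F s - (f s + conj (g s))‖ ∂(mu w hw : Measure SS) < ε := by
  intro ε hε
  obtain ⟨φ, ⟨f, hf, g, hg, h1⟩, h2⟩ := h (ε / 2) (half_pos hε)
  refine ⟨f, hf, g, hg, ?_⟩
  rw [int_mu w hw h0]
  refine lt_of_le_of_lt ?_ (half_lt_self hε)
  have : ∫ s, w s.1 • ‖F s - (f s + conj (g s))‖ ∂rho ≤ ∫ _, ε / 2 ∂rho := by
    refine integral_mono_ae (int_r _ (by fun_prop)) (integrable_const _) ?_
    filter_upwards [ae_rho] with s hs
    rw [← h1 s hs.1, smul_eq_mul, mul_comm]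
    exact h2 s hs.1
  simpa using this

lemma dense_mu (w : ℂ → ℝ) (hw : Continuous w) (h0 : ∀ z, 0 ≤ w z) (c : ℂ)
    (hc : ∀ z : ℂ, ‖z‖ = 1 → ‖z - c * (z ^ 3 + 2)‖ * w z ≤ ‖1 - z ^ 3‖ ^ 2) :
    ∀ F : C(SS, ℂ), ∀ ε : ℝ, 0 < ε → ∃ f ∈ AA, ∃ g ∈ AA,
      ∫ s, ‖F s - (f s + conj (g s))‖ ∂(mu w hw : Measure SS) < ε := by
  have key : ∀ l : ℕ, ∀ ε : ℝ, 0 < ε → ∃ φ ∈ VV, ∀ s : SS, ‖(s.1 : ℂ)‖ = 1 →
      ‖(s.1 : ℂ) * X s ^ l - φ s‖ * w s.1 ≤ ε := by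
    intro l ε hε
    obtain ⟨n, hn⟩ := exists_nat_gt (4 / ε)
    have hn0 : (0 : ℝ) < n := lt_trans (by positivity) hn
    refine ⟨_, VV.sub_mem (VV.smul_mem c (VV.add_mem (VV_k0 (a := 3) (by norm_num) n l)
      (VV.smul_mem 2 (VV_k0 (a := 0) (by norm_num) n l)))) (VV_k1 (by exact_mod_cast hn0) l),
      fun s hs => ?_⟩
    have e : (s.1 : ℂ) * X s ^ l - (c * ((s.1 : ℂ) ^ (3 : ℤ) * (kr n s.1 : ℂ) * X s ^ l +
        2 * ((s.1 : ℂ) ^ (0 : ℤ) * (kr n s.1 : ℂ) * X s ^ l)) -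
        ((s.1 : ℂ) * (kr n s.1 : ℂ) - s.1) * X s ^ l) =
        ((s.1 : ℂ) - c * ((s.1 : ℂ) ^ 3 + 2)) * (kr n s.1 : ℂ) * X s ^ l := by
      rw [zpow_zero, zpow_ofNat]; ring
    simp only [Pi.sub_apply, Pi.smul_apply, Pi.add_apply, smul_eq_mul]
    rw [e, norm_mul, norm_mul, Complex.norm_real, Real.norm_of_nonneg (kr_nonneg _ _), norm_pow]
    have h1 := hc _ hs
    have h2 := kr_bound n hs
    have h3 : ‖X s‖ ^ l ≤ 1 := pow_le_one₀ (norm_nonneg _) (X_le s)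
    have h4 : 4 / (n : ℝ) ≤ ε := by
      rw [div_le_iff₀ hn0]; rw [div_lt_iff₀ hε] at hn; linarith
    have h5 := kr_nonneg n s.1
    have h6 : 0 ≤ ‖(s.1 : ℂ) - c * ((s.1 : ℂ) ^ 3 + 2)‖ * w s.1 := mul_nonneg (norm_nonneg _) (h0 _)
    calc _ = (‖(s.1 : ℂ) - c * ((s.1 : ℂ) ^ 3 + 2)‖ * w s.1) * kr n s.1 * ‖X s‖ ^ l := by ring
      _ ≤ (‖1 - (s.1 : ℂ) ^ 3‖ ^ 2) * kr n s.1 * 1 := by gcongr
      _ ≤ ε := by linarith
  have tri : ∀ F G f g : C(SS, ℂ), ∫ s, ‖F s - (f s + conj (g s))‖ ∂(mu w hw : Measure SS) ≤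
      ∫ s, ‖F s - G s‖ ∂(mu w hw : Measure SS) +
        ∫ s, ‖G s - (f s + conj (g s))‖ ∂(mu w hw : Measure SS) := by
    intro F G f g
    rw [← integral_add (int_r _ (by fun_prop)) (int_r _ (by fun_prop))]
    exact integral_mono (int_r _ (by fun_prop)) (int_r _ (by fun_prop))
      fun s => norm_sub_le_norm_sub_add_norm_sub _ _ _
  refine sw_SS _ ?_ ?_ ?_ ?_ ?_
  · refine isClosed_of_closure_subset fun F hF ε hε => ?_
    have hcont : Continuous fun G : C(SS, ℂ) =>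
        ‖F - G‖ * (mu w hw : Measure SS).real Set.univ := by fun_prop
    have hev : {G : C(SS, ℂ) | ‖F - G‖ * (mu w hw : Measure SS).real Set.univ < ε / 2} ∈ 𝓝 F :=
      hcont.continuousAt.eventually_lt continuousAt_const (by simpa using hε)
    obtain ⟨G, hG1, hG2⟩ := mem_closure_iff_nhds.1 hF _ hev
    obtain ⟨f, hf, g, hg, hlt⟩ := hG2 (ε / 2) (half_pos hε)
    refine ⟨f, hf, g, hg, ?_⟩
    have h1 := tri F G f g
    have h2 : ∫ s, ‖F s - G s‖ ∂(mu w hw : Measure SS) ≤ ∫ _, ‖F - G‖ ∂(mu w hw : Measure SS) :=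
      integral_mono (int_r _ (by fun_prop)) (integrable_const _)
        fun s => (F - G).norm_coe_le_norm s
    rw [integral_const, smul_eq_mul, mul_comm] at h2
    have h3 : ‖F - G‖ * (mu w hw : Measure SS).real Set.univ < ε / 2 := hG1
    linarith
  · intro j k l
    refine app_of_bound w hw h0 _ fun ε hε => ?_
    have e : ∀ s : SS, ‖(s.1 : ℂ)‖ = 1 →
        (Z ^ j * star Z ^ k * X ^ l) s = (s.1 : ℂ) ^ ((j : ℤ) - k) * X s ^ l := by
      intro s hs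
      rw [← mon_circ hs]; simp
    by_cases h1 : (j : ℤ) - k = 1
    · obtain ⟨φ, hφ, hb⟩ := key l ε hε
      refine ⟨φ, hφ, fun s hs => ?_⟩
      rw [e s hs, h1, zpow_one]
      exact hb s hs
    by_cases h2 : (j : ℤ) - k = -1
    · obtain ⟨φ, hφ, hb⟩ := key l ε hε
      refine ⟨_, VV_conj hφ, fun s hs => ?_⟩
      rw [e s hs, h2, ← conj_eq_inv hs, ← Complex.norm_conj]
      simpa using hb s hs
    · refine ⟨_, VV_mon h1 h2 l, fun s hs => ?_⟩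
      rw [e s hs]
      simpa using hε.le
  · exact fun ε hε => ⟨0, AA.zero_mem, 0, AA.zero_mem, by simpa using hε⟩
  · intro F G hF hG ε hε
    obtain ⟨f, hf, g, hg, h1⟩ := hF (ε / 2) (half_pos hε)
    obtain ⟨f', hf', g', hg', h2⟩ := hG (ε / 2) (half_pos hε)
    refine ⟨f + f', AA.add_mem hf hf', g + g', AA.add_mem hg hg', ?_⟩
    have : ∫ s, ‖(F + G) s - ((f + f') s + conj ((g + g') s))‖ ∂(mu w hw : Measure SS) ≤
        ∫ s, ‖F s - (f s + conj (g s))‖ ∂(mu w hw : Measure SS) +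
        ∫ s, ‖G s - (f' s + conj (g' s))‖ ∂(mu w hw : Measure SS) := by
      rw [← integral_add (int_r _ (by fun_prop)) (int_r _ (by fun_prop))]
      refine integral_mono (int_r _ (by fun_prop)) (int_r _ (by fun_prop)) fun s => ?_
      refine le_of_eq_of_le ?_ (norm_add_le _ _)
      simp only [ContinuousMap.add_apply, map_add]
      congr 1; ring
    linarith
  · intro a F hF ε hε
    obtain ⟨f, hf, g, hg, h1⟩ := hF (ε / (‖a‖ + 1)) (by positivity)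
    refine ⟨a • f, AA.smul_mem hf _, conj a • g, AA.smul_mem hg _, ?_⟩
    have : ∫ s, ‖(a • F) s - ((a • f) s + conj ((conj a • g) s))‖ ∂(mu w hw : Measure SS) =
        ‖a‖ * ∫ s, ‖F s - (f s + conj (g s))‖ ∂(mu w hw : Measure SS) := by
      rw [← integral_const_mul]
      refine integral_congr_ae (Eventually.of_forall fun s => ?_)
      simp only [ContinuousMap.smul_apply, smul_eq_mul, map_mul, Complex.conj_conj, ← norm_mul]
      congr 1; ring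
    rw [this]
    have h2 : 0 ≤ ∫ s, ‖F s - (f s + conj (g s))‖ ∂(mu w hw : Measure SS) :=
      integral_nonneg fun _ => norm_nonneg _
    rw [lt_div_iff₀ (by positivity)] at h1
    nlinarith

noncomputable def w1 (z : ℂ) : ℝ := ‖1 - z ^ 3‖ ^ 2
lemma w1_cont : Continuous w1 := by unfold w1; fun_prop
lemma w1_nonneg (z : ℂ) : 0 ≤ w1 z := by unfold w1; positivity
noncomputable def mu1 : FiniteMeasure SS := mu w1 w1_cont

lemma extremal_mu1 : Extremal AA mu1 :=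
  extremal_of_dense _ _ (dense_mu w1 w1_cont w1_nonneg 0 fun z hz => by simp [hz, w1])

lemma int_VV (μ ν : FiniteMeasure SS) (he : Equivalent AA μ ν)
    (hμ : ∀ᵐ s ∂(μ : Measure SS), ‖(s.1 : ℂ)‖ = 1) (hν : ∀ᵐ s ∂(ν : Measure SS), ‖(s.1 : ℂ)‖ = 1)
    {φ : SS → ℂ} (hφ : φ ∈ VV) : ∫ s, φ s ∂(μ : Measure SS) = ∫ s, φ s ∂(ν : Measure SS) := by
  obtain ⟨f, hf, g, hg, h⟩ := hφ
  have hsum : ∀ (ρ : Measure SS) [IsFiniteMeasure ρ], (∀ᵐ s ∂ρ, ‖(s.1 : ℂ)‖ = 1) →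
      ∫ s, φ s ∂ρ = ∫ s, f s ∂ρ + conj (∫ s, g s ∂ρ) := by
    intro ρ _ hρ
    rw [← integral_conj, ← integral_add (int_c ρ f) (int_cc ρ (by fun_prop))]
    refine integral_congr_ae ?_
    filter_upwards [hρ] with s hs
    exact h s hs
  rw [hsum _ hμ, hsum _ hν, he f hf, he g hg]

lemma E_mu1 (ν : FiniteMeasure SS) (hν : ν ∈ Eset AA mu1) : ν = mu1 := by
  have hμ : ∀ᵐ s ∂(mu1 : Measure SS), ‖(s.1 : ℂ)‖ = 1 := (ae_mu w1 w1_cont).mono fun s hs => hs.1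
  have hν1 : ∀ᵐ s ∂(ν : Measure SS), ‖(s.1 : ℂ)‖ = 1 := hν.1.ae_le hμ
  have key : ∀ l : ℕ, ∫ s, (s.1 : ℂ) * X s ^ l ∂(ν : Measure SS) =
      ∫ s, (s.1 : ℂ) * X s ^ l ∂(mu1 : Measure SS) := by
    intro l
    obtain ⟨a, ha⟩ : ∃ a, a = ∫ s, (s.1 : ℂ) * X s ^ l ∂(ν : Measure SS) -
      ∫ s, (s.1 : ℂ) * X s ^ l ∂(mu1 : Measure SS) := ⟨_, rfl⟩
    have hb : ∀ c : ℂ, ‖c‖ ≤ 1 → ∀ n : ℕ, 0 < n → -(8 / n) ≤ (c * a).re := by
      intro c hc n hn
      have hk := kr_cont n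
      have h1 := int_VV mu1 ν hν.2 hμ hν1
        (VV.add_mem (VV_k0 (a := 0) (by norm_num) n 0) (VV.smul_mem c (VV_k1 hn l)))
      have hsp : ∀ (ρ : Measure SS) [IsFiniteMeasure ρ],
          ∫ s, ((fun s : SS => (s.1 : ℂ) ^ (0 : ℤ) * (kr n s.1 : ℂ) * X s ^ 0) +
            c • fun s : SS => ((s.1 : ℂ) * (kr n s.1 : ℂ) - s.1) * X s ^ l) s ∂ρ =
          ∫ s, (kr n s.1 : ℂ) * (1 + c * (s.1 * X s ^ l)) ∂ρ - c * ∫ s, (s.1 : ℂ) * X s ^ l ∂ρ := by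
        intro ρ _
        rw [← integral_const_mul, ← integral_sub (int_cc _ (by fun_prop)) (int_cc _ (by fun_prop))]
        refine integral_congr_ae (Eventually.of_forall fun s => ?_)
        simp only [Pi.add_apply, Pi.smul_apply, smul_eq_mul, zpow_zero, pow_zero]
        ring
      rw [hsp, hsp] at h1
      have h2 : c * a = ∫ s, (kr n s.1 : ℂ) * (1 + c * (s.1 * X s ^ l)) ∂(ν : Measure SS) -
          ∫ s, (kr n s.1 : ℂ) * (1 + c * (s.1 * X s ^ l)) ∂(mu1 : Measure SS) := by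
        rw [ha]; linear_combination h1
      have hle : ∀ s : SS, ‖c * ((s.1 : ℂ) * X s ^ l)‖ ≤ 1 := by
        intro s
        rw [norm_mul, norm_mul, norm_pow]
        exact mul_le_one₀ hc (by positivity)
          (mul_le_one₀ (Z_le s) (by positivity) (pow_le_one₀ (norm_nonneg _) (X_le s)))
      have h3 : 0 ≤ (∫ s, (kr n s.1 : ℂ) * (1 + c * (s.1 * X s ^ l)) ∂(ν : Measure SS)).re := by
        have := integral_re (μ := (ν : Measure SS))
          (f := fun s : SS => (kr n s.1 : ℂ) * (1 + c * (s.1 * X s ^ l))) (int_cc _ (by fun_prop))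
        rw [RCLike.re_to_complex] at this
        rw [← this]
        refine integral_nonneg fun s => ?_
        simp only [RCLike.re_to_complex, Complex.re_ofReal_mul, Complex.add_re, Complex.one_re]
        refine mul_nonneg (kr_nonneg _ _) ?_
        have := (abs_le.1 ((Complex.abs_re_le_norm _).trans (hle s))).1
        linarith
      have h4 : ‖∫ s, (kr n s.1 : ℂ) * (1 + c * (s.1 * X s ^ l)) ∂(mu1 : Measure SS)‖ ≤ 8 / n := by
        rw [mu1, int_mu w1 w1_cont w1_nonneg]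
        have := norm_integral_le_of_norm_le_const (μ := rho) (C := 8 / n)
          (f := fun s : SS => w1 s.1 • ((kr n s.1 : ℂ) * (1 + c * (s.1 * X s ^ l)))) ?_
        · simpa using this
        filter_upwards [ae_rho] with s hs
        rw [norm_smul, norm_mul, Real.norm_of_nonneg (w1_nonneg _), Complex.norm_real,
          Real.norm_of_nonneg (kr_nonneg _ _)]
        have h5 : ‖1 + c * ((s.1 : ℂ) * X s ^ l)‖ ≤ 2 := by
          refine (norm_add_le _ _).trans ?_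
          have := hle s
          rw [norm_one]; linarith
        have h6 := kr_bound n hs.1
        have h7 := mul_nonneg (kr_nonneg n s.1) (w1_nonneg s.1)
        unfold w1 at h7 ⊢
        calc _ = kr n s.1 * ‖1 - (s.1 : ℂ) ^ 3‖ ^ 2 * ‖1 + c * ((s.1 : ℂ) * X s ^ l)‖ := by ring
          _ ≤ 4 / n * 2 := by gcongr
          _ = 8 / n := by ring
      have h5 := (Complex.re_le_norm _).trans h4
      rw [h2, Complex.sub_re]
      linarith
    rw [← sub_eq_zero, ← ha]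
    by_contra hne
    have hpos : 0 < ‖a‖ := norm_pos_iff.2 hne
    obtain ⟨n, hn⟩ := exists_nat_gt (8 / ‖a‖)
    have hn0 : (0 : ℝ) < n := lt_trans (by positivity) hn
    have h1 := hb (-(conj a / (‖a‖ : ℂ))) (by
      rw [norm_neg, norm_div, Complex.norm_conj, Complex.norm_real, norm_norm, div_self hpos.ne'])
      n (by exact_mod_cast hn0)
    have h2 : -(conj a / (‖a‖ : ℂ)) * a = ((-‖a‖ : ℝ) : ℂ) := by
      have h3 : (‖a‖ : ℂ) ≠ 0 := by exact_mod_cast hpos.ne'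
      have h4 := Complex.conj_mul' a
      push_cast
      field_simp
      rw [h4]
    rw [h2, Complex.ofReal_re] at h1
    rw [div_lt_iff₀ hpos] at hn
    have : 8 / (n : ℝ) < ‖a‖ := by rw [div_lt_iff₀ hn0]; linarith
    linarith
  apply Subtype.ext
  change (ν : Measure SS) = (mu1 : Measure SS)
  refine ext_c _ _ (sw_SS _ (isClosed_eq (cont_int1 _) (cont_int1 _)) ?_ (by simp) ?_ ?_)
  · intro j k l
    have e : ∀ (ρ : Measure SS), (∀ᵐ s ∂ρ, ‖(s.1 : ℂ)‖ = 1) →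
        ∫ s, (Z ^ j * star Z ^ k * X ^ l) s ∂ρ = ∫ s, (s.1 : ℂ) ^ ((j : ℤ) - k) * X s ^ l ∂ρ := by
      intro ρ hρ
      refine integral_congr_ae ?_
      filter_upwards [hρ] with s hs
      rw [← mon_circ hs]; simp
    rw [e _ hν1, e _ hμ]
    by_cases h1 : (j : ℤ) - k = 1
    · simpa [h1] using key l
    by_cases h2 : (j : ℤ) - k = -1
    · have e2 : ∀ (ρ : Measure SS), (∀ᵐ s ∂ρ, ‖(s.1 : ℂ)‖ = 1) →
          ∫ s, (s.1 : ℂ) ^ (-1 : ℤ) * X s ^ l ∂ρ = conj (∫ s, (s.1 : ℂ) * X s ^ l ∂ρ) := by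
        intro ρ hρ
        rw [← integral_conj]
        refine integral_congr_ae ?_
        filter_upwards [hρ] with s hs
        rw [← conj_eq_inv hs]; simp
      rw [h2, e2 _ hν1, e2 _ hμ, key]
    · exact (int_VV mu1 ν hν.2 hμ hν1 (VV_mon h1 h2 l)).symm
  · intro f g hf hg
    simp only [ContinuousMap.add_apply]
    rw [integral_add (int_c _ f) (int_c _ g), integral_add (int_c _ f) (int_c _ g), hf, hg]
  · intro c f hf
    simp only [ContinuousMap.smul_apply, smul_eq_mul, integral_const_mul, hf]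

end H3Bis
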