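import Mathlib

set_option autoImplicit false
open MeasureTheory
open scoped ENNReal NNReal

namespace H3Bis

variable {S : Type} [TopologicalSpace S] [CompactSpace S]

/-- `φ`, restricted to `A`, is a continuous nonzero multiplicative linear functional on `A`. -/
def IsChar (A : Set C(S, ℂ)) (φ : C(S, ℂ) → ℂ) : Prop :=
  ContinuousOn φ A ∧ (∃ f ∈ A, φ f ≠ 0) ∧
  (∀ f ∈ A, ∀ g ∈ A, φ (f + g) = φ f + φ g ∧ φ (f * g) = φ f * φ g) ∧
  ∀ c : ℂ, ∀ f ∈ A, φ (c • f) = c * φ f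

/-- `A` is uniformly closed; every continuous nonzero multiplicative linear functional on `A` is
evaluation at exactly one point of `S`; every `f ∈ A` with `1/f ∈ A` is `exp h` with `h ∈ A`. -/
def Hyp (A : Set C(S, ℂ)) : Prop :=
  IsClosed A ∧ (∀ φ, IsChar A φ → ∃! s : S, ∀ f ∈ A, φ f = f s) ∧
  (∀ f ∈ A, (∃ g ∈ A, f * g = 1) → ∃ h ∈ A, ∀ s, f s = Complex.exp (h s))

/-- The standing hypotheses on the algebra `A ⊆ C(S)` (a `Subalgebra` contains the constants). -/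
def Bishop (A : Subalgebra ℂ C(S, ℂ)) : Prop := Hyp (A : Set C(S, ℂ))

variable [MeasurableSpace S] [BorelSpace S]

/-- `μ` and `ν` are equivalent relative to `A`. -/
def Equivalent (A : Subalgebra ℂ C(S, ℂ)) (μ ν : FiniteMeasure S) : Prop :=
  ∀ f ∈ A, ∫ s, f s ∂(μ : Measure S) = ∫ s, f s ∂(ν : Measure S)

/-- `E(μ)`: the finite positive measures absolutely continuous with respect to `μ` and equivalent
to `μ`. -/
def Eset (A : Subalgebra ℂ C(S, ℂ)) (μ : FiniteMeasure S) : Set (FiniteMeasure S) :=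
  {ν | (ν : Measure S).AbsolutelyContinuous (μ : Measure S) ∧ Equivalent A μ ν}

/-- `K(μ)`: the closure of `E(μ)` in the weak topology of measures. -/
def Kset (A : Subalgebra ℂ C(S, ℂ)) (μ : FiniteMeasure S) : Set (FiniteMeasure S) :=
  closure (Eset A μ)

/-- `μ` is extremal, in both senses: it is an extreme point of `K(μ)`, and the functions
`f + conj g` (`f, g ∈ A`) are dense in `L¹(μ)`. -/
def Extremal (A : Subalgebra ℂ C(S, ℂ)) (μ : FiniteMeasure S) : Prop :=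
  (μ ∈ Kset A μ ∧ ∀ ν₁ ∈ Kset A μ, ∀ ν₂ ∈ Kset A μ, ∀ t : ℝ≥0, 0 < t → t < 1 →
    μ = t • ν₁ + (1 - t) • ν₂ → ν₁ = μ ∧ ν₂ = μ) ∧
  ∀ F : S → ℂ, Integrable F (μ : Measure S) → ∀ ε : ℝ, 0 < ε → ∃ f ∈ A, ∃ g ∈ A,
    ∫ s, ‖F s - (f s + (starRingEnd ℂ) (g s))‖ ∂(μ : Measure S) < ε

/-- `∫ log |f| dν` in `[-∞, ∞]`: positive part minus negative part, with `log 0 = -∞`. -/
noncomputable def logInt (ν : Measure S) (f : S → ℂ) : EReal :=
  ((∫⁻ s, ENNReal.ofReal (Real.log ‖f s‖) ∂ν : ℝ≥0∞) : EReal) -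
    ((∫⁻ s, (if f s = 0 then ⊤ else ENNReal.ofReal (-Real.log ‖f s‖)) ∂ν : ℝ≥0∞) : EReal)

/-- `σ` is a greatest element of `M` for the order `ν ≼ σ`, which means
`∫ log |f| dν ≤ ∫ log |f| dσ` for all `f ∈ A`. -/
def Greatest (A : Subalgebra ℂ C(S, ℂ)) (M : Set (FiniteMeasure S)) (σ : FiniteMeasure S) : Prop :=
  σ ∈ M ∧ ∀ ν ∈ M, ∀ f ∈ A, logInt (ν : Measure S) f ≤ logInt (σ : Measure S) f

/-- `L^∞(μ)`. -/
abbrev Linf (μ : FiniteMeasure S) : Type := Lp ℂ ∞ (μ : Measure S)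

/-- A function representing the class `F ∈ L^∞(μ)`. -/
noncomputable def fn {μ : FiniteMeasure S} (F : Linf μ) : S → ℂ := F

/-- The closure of `M ⊆ L^∞(μ)` in the weak-star topology `σ(L^∞(μ), L¹(μ))`. -/
def wcl (μ : FiniteMeasure S) (M : Set (Linf μ)) : Set (Linf μ) :=
  {F | ∀ (n : ℕ) (h : Fin n → S → ℂ), (∀ i, Integrable (h i) (μ : Measure S)) →
    ∀ ε : ℝ, 0 < ε → ∃ G ∈ M, ∀ i, ‖∫ s, (fn F s - fn G s) * h i s ∂(μ : Measure S)‖ < ε}

/-- The classes in `L^∞(μ)` of the functions of `A`. -/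
def cls (A : Subalgebra ℂ C(S, ℂ)) (μ : FiniteMeasure S) : Set (Linf μ) :=
  {G | ∃ f ∈ A, ∀ᵐ s ∂(μ : Measure S), fn G s = f s}

/-- The classes in `L^∞(μ)` of the functions `f + conj g`, `f, g ∈ A`. -/
def clsSum (A : Subalgebra ℂ C(S, ℂ)) (μ : FiniteMeasure S) : Set (Linf μ) :=
  {G | ∃ f ∈ A, ∃ g ∈ A, ∀ᵐ s ∂(μ : Measure S), fn G s = f s + (starRingEnd ℂ) (g s)}

/-- The value of a continuous linear functional at a vector. -/
noncomputable def ev {E : Type} [SeminormedAddCommGroup E] [NormedSpace ℂ E]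
    (l : StrongDual ℂ E) (x : E) : ℂ := l x

/-- `E` is reflexive: every continuous linear functional on the dual space is evaluation at a
vector of `E`. -/
def IsReflexive (E : Type) [SeminormedAddCommGroup E] [NormedSpace ℂ E] : Prop :=
  ∀ Φ : StrongDual ℂ (StrongDual ℂ E), ∃ x : E, ∀ l : StrongDual ℂ E, ev Φ l = ev l x

/-- `M` is a linear subspace of `E` and the quotient `E / M`, with the quotient norm, is not
reflexive. -/
def NonReflexiveQuotient {E : Type} [NormedAddCommGroup E] [NormedSpace ℂ E] (M : Set E) : Prop :=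
  ∃ B : Submodule ℂ E, (B : Set E) = M ∧ ¬ IsReflexive (E ⧸ B)

/-- `H^∞(𝔻)`: the bounded analytic functions on the open unit disc. -/
def Hinf : Set (Metric.ball (0 : ℂ) 1 → ℂ) :=
  {u | (∃ C : ℝ, ∀ z, ‖u z‖ ≤ C) ∧
    ∃ U : ℂ → ℂ, DifferentiableOn ℂ U (Metric.ball 0 1) ∧ ∀ z, u z = U z}

end H3Bis
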