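import Pool.Agent.Lib.helper3.BishopD

set_option autoImplicit false
set_option linter.unusedSectionVars false
open MeasureTheory Filter Topology AddCircle Finset
open scoped ENNReal NNReal BoundedContinuousFunction ComplexConjugate

namespace H3Bis

lemma int_zpsi (a : ℤ) {ψ : unitInterval → ℂ} (hm : Measurable ψ) (C : ℝ) (hC : ∀ x, ‖ψ x‖ ≤ C) :
    Integrable (fun s : SS => (s.1 : ℂ) ^ a * ψ s.2) rho := by
  refine Integrable.of_bound (C := C) (Measurable.aestronglyMeasurable ?_) ?_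
  · exact ((measurable_subtype_coe.comp measurable_fst).pow_const a).mul (hm.comp measurable_snd)
  · filter_upwards [ae_rho] with s hs
    rw [norm_mul, norm_zpow, hs.1, one_zpow, one_mul]
    exact hC _

lemma ann_rho {a : ℤ} (ha : a = 1 ∨ a = -1) {ψ : unitInterval → ℂ} (hm : Measurable ψ) (C : ℝ)
    (hC : ∀ x, ‖ψ x‖ ≤ C) : ∀ f ∈ AA, ∫ s, f s * ((s.1 : ℂ) ^ a * ψ s.2) ∂rho = 0 := by
  have hi := int_zpsi a hm C hC
  refine alg_ind MM _ (isClosed_eq (cont_int _ hi) continuous_const) ?_ (by simp) ?_ ?_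
  · rintro _ ⟨j, l, hj, rfl⟩
    have := int_rho (j + a) fun x => ((x : ℝ) : ℂ) ^ l * ψ x
    rw [if_neg (by omega), zero_mul] at this
    refine Eq.trans (integral_congr_ae ?_) this
    filter_upwards [ae_rho] with s hs
    rw [zpow_add₀ (ne_zero_of_norm hs.1)]
    simp; ring
  · intro f g hf hg
    have := (intL rho hi).map_add f g
    rw [intL_apply, intL_apply, intL_apply, hf, hg, add_zero] at this
    exact this
  · intro c f hf
    have := (intL rho hi).map_smul c f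
    rw [intL_apply, intL_apply, hf, smul_zero] at this
    exact this

noncomputable def hh (ψ : unitInterval → ℂ) (s : SS) : ℂ :=
  (s.1 : ℂ) ^ (-1 : ℤ) * ψ s.2 / (w1 s.1 : ℂ)

lemma w_hh (ψ : unitInterval → ℂ) :
    ∀ᵐ s ∂rho, w1 s.1 • hh ψ s = (s.1 : ℂ) ^ (-1 : ℤ) * ψ s.2 := by
  filter_upwards [ae_rho] with s hs
  have : (w1 s.1 : ℂ) ≠ 0 := by
    have h : w1 s.1 ≠ 0 := pow_ne_zero 2 (norm_ne_zero_iff.2 (sub_ne_zero.2 hs.2.symm))
    exact_mod_cast h
  rw [hh, Complex.real_smul]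
  field_simp

lemma hh_int {ψ : unitInterval → ℂ} (hm : Measurable ψ) (C : ℝ) (hC : ∀ x, ‖ψ x‖ ≤ C) :
    Integrable (hh ψ) (mu1 : Measure SS) := by
  have := w1_cont
  rw [mu1, mu_coe, integrable_withDensity_iff_integrable_smul' (by fun_prop) (by simp)]
  simp only [ENNReal.toReal_ofReal (w1_nonneg _)]
  exact (int_zpsi (-1) hm C hC).congr ((w_hh ψ).mono fun s hs => hs.symm)

lemma int_hh (ψ : unitInterval → ℂ) (G : SS → ℂ) : ∫ s, G s * hh ψ s ∂(mu1 : Measure SS) =
    ∫ s, G s * ((s.1 : ℂ) ^ (-1 : ℤ) * ψ s.2) ∂rho := by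
  rw [mu1, int_mu w1 w1_cont w1_nonneg]
  refine integral_congr_ae ?_
  filter_upwards [w_hh ψ] with s hs
  rw [← hs, mul_smul_comm]

lemma norm_hh (ψ : unitInterval → ℂ) : ∫ s, ‖hh ψ s‖ ∂(mu1 : Measure SS) = ∫ x, ‖ψ x‖ := by
  have h := int_rho 0 fun x => (‖ψ x‖ : ℂ)
  simp only [zpow_zero, one_mul, if_true] at h
  have h2 : ∫ s : SS, ‖ψ s.2‖ ∂rho = ∫ x, ‖ψ x‖ := by exact_mod_cast h
  rw [mu1, int_mu w1 w1_cont w1_nonneg, ← h2]
  refine integral_congr_ae ?_
  filter_upwards [w_hh ψ, ae_rho] with s hs hs'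
  have := congrArg norm hs
  rw [norm_smul, Real.norm_of_nonneg (w1_nonneg _), norm_mul, norm_zpow, hs'.1, one_zpow,
    one_mul] at this
  exact this

lemma hh_ann {ψ : unitInterval → ℂ} (hm : Measurable ψ) (C : ℝ) (hC : ∀ x, ‖ψ x‖ ≤ C) :
    ∀ f ∈ AA, ∫ s, f s * hh ψ s ∂(mu1 : Measure SS) = 0 ∧
      ∫ s, conj (f s) * hh ψ s ∂(mu1 : Measure SS) = 0 := by
  intro f hf
  rw [int_hh, int_hh]
  refine ⟨ann_rho (Or.inr rfl) hm C hC f hf, ?_⟩
  have := ann_rho (Or.inl rfl) (ψ := fun x => conj (ψ x))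
    (Complex.continuous_conj.measurable.comp hm) C (by simpa using hC) f hf
  have h2 := congrArg conj this
  rw [← integral_conj, map_zero] at h2
  refine Eq.trans (integral_congr_ae ?_) h2
  filter_upwards [ae_rho] with s hs
  rw [← conj_eq_inv hs.1]
  simp

lemma memLp_zpsi {ψ : unitInterval → ℂ} (hm : Measurable ψ) (hC : ∀ x, ‖ψ x‖ ≤ 1) :
    MemLp (fun s : SS => (s.1 : ℂ) * ψ s.2) ∞ (mu1 : Measure SS) := by
  refine memLp_top_of_bound (Measurable.aestronglyMeasurable ?_) 1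
    (Eventually.of_forall fun s => ?_)
  · exact (measurable_subtype_coe.comp measurable_fst).mul (hm.comp measurable_snd)
  · rw [norm_mul]
    exact mul_le_one₀ (Z_le s) (norm_nonneg _) (hC _)

lemma pair_zpsi {ψ : unitInterval → ℂ} (hm : Measurable ψ) (hC : ∀ x, ‖ψ x‖ ≤ 1)
    (χ : unitInterval → ℂ) :
    ∫ s, (memLp_zpsi hm hC).toLp _ s * hh χ s ∂(mu1 : Measure SS) = ∫ x, ψ x * χ x := by
  have h := int_rho 0 fun x => ψ x * χ x
  simp only [zpow_zero, one_mul, if_true] at h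
  rw [← h, integral_congr_ae (g := fun s : SS => ((s.1 : ℂ) * ψ s.2) * hh χ s), int_hh]
  · refine integral_congr_ae ?_
    filter_upwards [ae_rho] with s hs
    have := ne_zero_of_norm hs.1
    rw [zpow_neg_one]
    field_simp
  · filter_upwards [(memLp_zpsi hm hC).coeFn_toLp] with s hs
    rw [hs]

lemma K_mu1 : Kset AA mu1 = {mu1} := by
  have : Eset AA mu1 = {mu1} := Set.eq_singleton_iff_unique_mem.2
    ⟨⟨Measure.AbsolutelyContinuous.rfl, fun f _ => rfl⟩, E_mu1⟩
  rw [Kset, this, closure_singleton]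

lemma not_dense_mu1 : wcl mu1 (clsSum AA mu1) ≠ Set.univ := by
  intro h
  have hm : Measurable fun _ : unitInterval => (1 : ℂ) := measurable_const
  have h1 := (mem_wcl_clsSum AA mu1 ((memLp_zpsi hm (by simp)).toLp _)).1 (by rw [h]; trivial)
    _ (hh_int hm 1 (by simp)) (hh_ann hm 1 (by simp))
  have h2 := (pair_zpsi hm (by simp) fun _ => 1).symm.trans h1
  simp at h2

noncomputable def BB : Submodule ℂ (Lp ℂ ∞ (mu1 : Measure SS)) :=
  ⨅ h : {h : SS → ℂ // Integrable h (mu1 : Measure SS) ∧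
    ∀ f ∈ AA, ∫ s, f s * h s ∂(mu1 : Measure SS) = 0 ∧
      ∫ s, conj (f s) * h s ∂(mu1 : Measure SS) = 0}, (pairL _ h.2.1).ker

lemma BB_eq : (BB : Set (Lp ℂ ∞ (mu1 : Measure SS))) = wcl mu1 (clsSum AA mu1) := by
  ext F
  rw [mem_wcl_clsSum, SetLike.mem_coe, BB, Submodule.mem_iInf]
  exact ⟨fun H h h1 h2 => H ⟨h, h1, h2⟩, fun H h => H h.1 h.2.1 h.2.2⟩

lemma lift_exists {E : Type*} [NormedAddCommGroup E] [NormedSpace ℂ E] (B : Submodule ℂ E)
    (l : E →L[ℂ] ℂ) (hl : ‖l‖ ≤ 1) (hB : ∀ x ∈ B, l x = 0) :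
    ∃ L : (E ⧸ B) →L[ℂ] ℂ, ‖L‖ ≤ 1 ∧ ∀ x, L (Submodule.Quotient.mk x) = l x := by
  have hb : ∀ q, ‖B.liftQ l.toLinearMap hB q‖ ≤ 1 * ‖q‖ := by
    intro q
    refine le_of_forall_pos_le_add fun ε hε => ?_
    obtain ⟨x, rfl, hx⟩ := Submodule.Quotient.norm_mk_lt q hε
    have := l.le_of_opNorm_le hl x
    rw [Submodule.liftQ_apply]
    change ‖l x‖ ≤ _
    linarith
  exact ⟨LinearMap.mkContinuous _ 1 hb, LinearMap.mkContinuous_norm_le _ zero_le_one _,
    fun x => rfl⟩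

noncomputable def pt (k : ℕ) : unitInterval :=
  ⟨1 / ((k : ℝ) + 1), by positivity, by
    rw [div_le_one (by positivity)]; linarith [(Nat.cast_nonneg k : (0 : ℝ) ≤ k)]⟩

lemma pt_anti : StrictAnti pt := by
  intro a b h
  have : (a : ℝ) < b := by exact_mod_cast h
  change 1 / ((b : ℝ) + 1) < 1 / ((a : ℝ) + 1)
  gcongr

lemma not_refl_BB :
    ¬ IsReflexive (Lp ℂ ∞ (mu1 : Measure SS) ⧸ BB) := by
  let I : ℕ → Set unitInterval := fun k => Set.Ioc (pt (k + 1)) (pt k)
  let v : ℕ → ℝ := fun k => volume.real (I k)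
  have hv : ∀ k, 0 < v k := by
    intro k
    have : (pt (k + 1) : ℝ) < pt k := pt_anti (Nat.lt_succ_self k)
    simp only [v, I, Measure.real, unitInterval.volume_Ioc]
    rw [ENNReal.toReal_ofReal (by linarith)]
    linarith
  let χ : ℕ → unitInterval → ℂ := fun k => (I k).indicator fun _ => ((v k)⁻¹ : ℝ)
  have hχ : ∀ k, Measurable (χ k) := fun k => measurable_const.indicator measurableSet_Ioc
  have hχb : ∀ k x, ‖χ k x‖ ≤ ‖(((v k)⁻¹ : ℝ) : ℂ)‖ := fun k x => norm_indicator_le_norm_self _ _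
  let ψ : ℕ → unitInterval → ℂ := fun n => (Set.Ioi (pt (n + 1))).indicator fun _ => 1
  have hψ : ∀ n, Measurable (ψ n) := fun n => measurable_const.indicator measurableSet_Ioi
  have hψb : ∀ n x, ‖ψ n x‖ ≤ 1 := fun n x => (norm_indicator_le_norm_self _ _).trans (by simp)
  have hχ1 : ∀ k, ∫ x, χ k x = 1 := by
    intro k
    simp only [χ]
    rw [integral_indicator_const _ measurableSet_Ioc, Complex.real_smul]
    change ((v k : ℝ) : ℂ) * _ = 1
    rw [← Complex.ofReal_mul, mul_inv_cancel₀ (hv k).ne', Complex.ofReal_one]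
  have hex : ∀ k, ∃ L : (Lp ℂ ∞ (mu1 : Measure SS) ⧸ BB) →L[ℂ] ℂ, ‖L‖ ≤ 1 ∧
      ∀ x, L (Submodule.Quotient.mk x) = pairL _ (hh_int (hχ k) _ (hχb k)) x := by
    intro k
    refine lift_exists BB _ ((pairL_norm _ _).trans ?_) fun x hx => ?_
    · rw [norm_hh]
      simp only [χ, norm_indicator_eq_indicator_norm]
      rw [integral_indicator_const _ measurableSet_Ioc, Complex.norm_real,
        Real.norm_of_nonneg (inv_nonneg.2 (hv k).le), smul_eq_mul]
      exact (mul_inv_cancel₀ (hv k).ne').le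
    · exact (Submodule.mem_iInf _).1 hx ⟨_, hh_int (hχ k) _ (hχb k), hh_ann (hχ k) _ (hχb k)⟩
  choose L hL1 hL2 using hex
  refine not_reflexive L (fun n => Submodule.Quotient.mk ((memLp_zpsi (hψ n) (hψb n)).toLp _)) 1
    hL1 (fun n => (Submodule.Quotient.norm_mk_le _ _).trans ?_) fun k n => ?_
  · rw [Lp.norm_toLp, eLpNorm_exponent_top]
    refine ENNReal.toReal_le_of_le_ofReal zero_le_one (eLpNormEssSup_le_of_ae_bound
      (Eventually.of_forall fun s => ?_))
    rw [norm_mul]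
    exact mul_le_one₀ (Z_le s) (norm_nonneg _) (hψb _ _)
  · rw [hL2, pairL_apply, pair_zpsi (hψ n) (hψb n)]
    split_ifs with h
    · rw [← hχ1 k]
      refine integral_congr_ae (Eventually.of_forall fun x => ?_)
      by_cases hx : x ∈ I k
      · have : x ∈ Set.Ioi (pt (n + 1)) :=
          lt_of_le_of_lt (pt_anti.antitone (by omega)) hx.1
        simp [ψ, this]
      · simp [χ, hx]
    · rw [← integral_zero unitInterval ℂ (μ := volume)]
      refine integral_congr_ae (Eventually.of_forall fun x => ?_)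
      by_cases hx : x ∈ I k
      · have : x ∉ Set.Ioi (pt (n + 1)) :=
          not_lt.2 (hx.2.trans (pt_anti.antitone (by omega)))
        simp [ψ, this]
      · simp [χ, hx]

noncomputable def wp (e : ℝ) (z : ℂ) : ℝ := ‖1 + e * z + z ^ 2‖ ^ 2
lemma wp_cont (e : ℝ) : Continuous (wp e) := by unfold wp; fun_prop
lemma wp_nonneg (e : ℝ) (z : ℂ) : 0 ≤ wp e z := by unfold wp; positivity
noncomputable def mup (e : ℝ) : FiniteMeasure SS := mu (wp e) (wp_cont e)

lemma wp_exp (e : ℝ) {z : ℂ} (hz : ‖z‖ = 1) : (wp e z : ℂ) =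
    (2 + e ^ 2) + 2 * e * (z + z⁻¹) + (z ^ 2 + z⁻¹ ^ 2) := by
  have h0 := ne_zero_of_norm hz
  rw [wp, ← Complex.normSq_eq_norm_sq, ← Complex.mul_conj]
  simp only [map_add, map_one, map_mul, Complex.conj_ofReal, map_pow, conj_eq_inv hz, zpow_neg_one]
  field_simp
  ring

lemma extremal_mup : Extremal AA (mup 1) := by
  refine extremal_of_dense _ _ (dense_mu _ (wp_cont 1) (wp_nonneg 1) (1 / 3) fun z hz => ?_)
  have e1 : z - 1 / 3 * (z ^ 3 + 2) = -(1 / 3) * (z + 2) * (1 - z) ^ 2 := by ring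
  have e2 : 1 - z ^ 3 = (1 - z) * (1 + ((1 : ℝ) : ℂ) * z + z ^ 2) := by push_cast; ring
  have h : ‖z + 2‖ ≤ 3 := by
    refine (norm_add_le _ _).trans ?_
    rw [hz]; norm_num
  rw [e1, e2, wp, norm_mul, norm_mul, norm_mul, norm_pow, mul_pow, norm_neg]
  have h1 : ‖(1 / 3 : ℂ)‖ * ‖z + 2‖ ≤ 1 := by
    have : ‖(1 / 3 : ℂ)‖ = 1 / 3 := by simp
    rw [this]; linarith
  have h2 : 0 ≤ ‖1 - z‖ ^ 2 * ‖1 + ((1 : ℝ) : ℂ) * z + z ^ 2‖ ^ 2 := by positivity
  nlinarith

lemma mem_E_mup : mup (-1) ∈ Eset AA (mup 1) := by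
  constructor
  · refine (withDensity_absolutelyContinuous _ _).trans
      (withDensity_absolutelyContinuous' ?_ ?_)
    · have := wp_cont 1
      fun_prop
    · filter_upwards [ae_rho] with s hs
      rw [Ne, ENNReal.ofReal_eq_zero, not_le]
      refine pow_pos (norm_pos_iff.2 fun h => hs.2 ?_) 2
      push_cast at h
      linear_combination ((s.1 : ℂ) - 1) * h
  · intro f hf
    have hm : Measurable fun _ : unitInterval => (1 : ℂ) := measurable_const
    have h1 := ann_rho (Or.inl rfl) hm 1 (by simp) f hf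
    have h2 := ann_rho (Or.inr rfl) hm 1 (by simp) f hf
    have i1 := int_cm rho f (int_zpsi 1 hm 1 (by simp))
    have i2 := int_cm rho f (int_zpsi (-1) hm 1 (by simp))
    have c1 := wp_cont 1
    have c2 := wp_cont (-1)
    rw [mup, mup, int_mu _ _ (wp_nonneg _), int_mu _ _ (wp_nonneg _), ← sub_eq_zero,
      ← integral_sub (int_cc _ (by fun_prop)) (int_cc _ (by fun_prop))]
    have h3 := integral_add i1 i2
    rw [h1, h2, add_zero] at h3
    have h4 := congrArg (fun x => (4 : ℂ) * x) h3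
    simp only [mul_zero] at h4
    rw [← integral_const_mul] at h4
    refine Eq.trans (integral_congr_ae ?_) h4
    filter_upwards [ae_rho] with s hs
    rw [Complex.real_smul, Complex.real_smul, wp_exp _ hs.1, wp_exp _ hs.1, zpow_one, zpow_neg_one]
    push_cast
    ring

lemma int_re_mup (e : ℝ) : ∫ s, (s.1 : ℂ).re ∂(mup e : Measure SS) = 2 * e := by
  have hm : Measurable fun _ : unitInterval => (1 : ℂ) := measurable_const
  have i : ∀ a : ℤ, Integrable (fun s : SS => (s.1 : ℂ) ^ a) rho := fun a => by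
    simpa using int_zpsi a hm 1 (by simp)
  have v : ∀ a : ℤ, ∫ s : SS, (s.1 : ℂ) ^ a ∂rho = if a = 0 then 1 else 0 := fun a => by
    simpa using int_rho a fun _ => 1
  have h : ∫ s, (s.1 : ℂ) ∂(mup e : Measure SS) = 2 * e := by
    rw [mup, int_mu _ _ (wp_nonneg _)]
    have e1 : ∫ s : SS, wp e s.1 • (s.1 : ℂ) ∂rho = ∫ s : SS, (((2 + e ^ 2) * (s.1 : ℂ) ^ (1 : ℤ) +
        2 * e * (s.1 : ℂ) ^ (2 : ℤ)) + 2 * e * (s.1 : ℂ) ^ (0 : ℤ) +
        ((s.1 : ℂ) ^ (3 : ℤ) + (s.1 : ℂ) ^ (-1 : ℤ))) ∂rho := by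
      refine integral_congr_ae ?_
      filter_upwards [ae_rho] with s hs
      have := ne_zero_of_norm hs.1
      rw [Complex.real_smul, wp_exp _ hs.1, zpow_one, zpow_neg_one, zpow_zero, zpow_ofNat,
        zpow_ofNat]
      field_simp
      ring
    rw [e1, integral_add, integral_add, integral_add, integral_add]
    · simp only [integral_const_mul, v]
      norm_num
    · exact i 3
    · exact i (-1)
    · exact (i 1).const_mul _
    · exact (i 2).const_mul _
    · exact ((i 1).const_mul _).add ((i 2).const_mul _)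
    · exact (i 0).const_mul _
    · exact (((i 1).const_mul _).add ((i 2).const_mul _)).add ((i 0).const_mul _)
    · exact (i 3).add (i (-1))
  have := integral_re (μ := (mup e : Measure SS)) (f := fun s : SS => (s.1 : ℂ))
    (int_cc _ (by fun_prop))
  rw [h] at this
  simpa using this

lemma exp_mem (e : ℂ) : ∃ f ∈ AA, ∀ s, f s = (s.1 : ℂ) ^ 2 * Complex.exp (e * s.1) := by
  let a : ℕ → C(SS, ℂ) := fun n => (e ^ n / n.factorial) • (Z ^ (n + 2) * X ^ 0)
  have hs : Summable a := by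
    refine Summable.of_norm_bounded (Real.summable_pow_div_factorial ‖e‖) fun n => ?_
    rw [ContinuousMap.norm_le _ (by positivity)]
    intro s
    simp only [a, ContinuousMap.smul_apply, pow_zero, mul_one, ContinuousMap.pow_apply, Z_apply,
      smul_eq_mul, norm_mul, norm_div, norm_pow, Complex.norm_natCast]
    exact mul_le_of_le_one_right (by positivity) (pow_le_one₀ (norm_nonneg _) (Z_le s))
  refine ⟨∑' n, a n, ?_, fun s => ?_⟩
  · refine (alg_closed MM).mem_of_tendsto hs.hasSum (Eventually.of_forall fun t => ?_)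
    exact AA.sum_mem fun n _ => AA.smul_mem (mon_mem (by omega) 0) _
  · have h1 := (ContinuousMap.evalCLM ℂ s : C(SS, ℂ) →L[ℂ] ℂ).hasSum hs.hasSum
    have h2 := (NormedSpace.expSeries_div_hasSum_exp (e * (s.1 : ℂ))).mul_left ((s.1 : ℂ) ^ 2)
    rw [← Complex.exp_eq_exp_ℂ] at h2
    refine h1.unique ?_
    have h3 : (fun n => (ContinuousMap.evalCLM ℂ s : C(SS, ℂ) →L[ℂ] ℂ) (a n)) =
        fun n : ℕ => (s.1 : ℂ) ^ 2 * ((e * s.1) ^ n / n.factorial) := by
      funext n
      simp [a, mul_pow]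
      ring
    rw [h3]
    exact h2

lemma no_greatest (M : Set (FiniteMeasure SS)) (hM : Eset AA (mup 1) ⊆ M) (σ : FiniteMeasure SS) :
    ¬ Greatest AA M σ := by
  rintro ⟨-, h⟩
  have key : ∀ e : ℝ, mup e ∈ M → 2 * e * e ≤ e * ∫ s, (s.1 : ℂ).re ∂(σ : Measure SS) := by
    intro e he
    obtain ⟨f, hf, hfe⟩ := exp_mem e
    have h1 := h _ he f hf
    have hn : ∀ s : SS, ‖f s‖ = ‖(s.1 : ℂ)‖ ^ 2 * Real.exp (e * (s.1 : ℂ).re) := by
      intro s
      rw [hfe, norm_mul, norm_pow, Complex.norm_exp, Complex.re_ofReal_mul]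
    rw [logInt_eq _ f (fun s => e * (s.1 : ℂ).re) (by fun_prop)] at h1
    · have h2 := h1.trans (logInt_le (σ : Measure SS) f (fun s => e * (s.1 : ℂ).re) (by fun_prop)
        (fun s hs => ?_) fun s hs => ?_)
      · rw [EReal.coe_le_coe_iff, integral_const_mul, integral_const_mul, int_re_mup] at h2
        linarith
      · rw [Real.log_le_iff_le_exp (norm_pos_iff.2 hs), hn]
        exact mul_le_of_le_one_left (Real.exp_nonneg _) (pow_le_one₀ (norm_nonneg _) (Z_le s))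
      · rw [hfe, mul_eq_zero] at hs
        have := pow_eq_zero_iff two_ne_zero |>.1 (hs.resolve_right (Complex.exp_ne_zero _))
        simp [this]
    · filter_upwards [ae_mu _ (wp_cont e)] with s hs
      have : ‖f s‖ = Real.exp (e * (s.1 : ℂ).re) := by rw [hn, hs.1]; simp
      refine ⟨norm_pos_iff.1 ?_, by rw [this, Real.log_exp]⟩
      rw [this]; exact Real.exp_pos _
  have h1 := key 1 (hM ⟨Measure.AbsolutelyContinuous.rfl, fun f _ => rfl⟩)
  have h2 := key (-1) (hM mem_E_mup)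
  linarith

end H3Bis
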