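import Pool.Agent.Lib.helper3.BishopC

set_option autoImplicit false
set_option linter.unusedSectionVars false
open MeasureTheory Filter Topology AddCircle
open scoped ENNReal NNReal BoundedContinuousFunction ComplexConjugate

namespace H3Bis

def SLs : Set (ℂ × ℂ) := {p | ‖p.1‖ ≤ 1 ∧ ‖p.2‖ ≤ 1 ∧ (p.2 = 0 ∨ ‖p.1‖ = 1)}

abbrev SL : Type := SLs

instance : CompactSpace SL := by
  refine isCompact_iff_compactSpace.1 (Metric.isCompact_of_isClosed_isBounded ?_ ?_)
  · exact (isClosed_le continuous_fst.norm continuous_const).inter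
      ((isClosed_le continuous_snd.norm continuous_const).inter
        ((isClosed_eq continuous_snd continuous_const).union
          (isClosed_eq continuous_fst.norm continuous_const)))
  · refine (Metric.isBounded_closedBall (x := (0 : ℂ × ℂ)) (r := 1)).subset fun p hp => ?_
    rw [mem_closedBall_zero_iff, Prod.norm_def]
    exact max_le hp.1 hp.2.1

noncomputable def ZL : C(SL, ℂ) := ⟨fun s => s.1.1, by fun_prop⟩
noncomputable def WL : C(SL, ℂ) := ⟨fun s => s.1.2, by fun_prop⟩

@[simp] lemma ZL_apply (s : SL) : ZL s = s.1.1 := rfl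
@[simp] lemma WL_apply (s : SL) : WL s = s.1.2 := rfl

noncomputable def ML : Submonoid C(SL, ℂ) where
  carrier := {f | ∃ j k l : ℕ, (l ≠ 0 ∨ k = 0) ∧ f = ZL ^ j * star ZL ^ k * WL ^ l}
  one_mem' := ⟨0, 0, 0, by simp, by simp⟩
  mul_mem' := by
    rintro _ _ ⟨j, k, l, hj, rfl⟩ ⟨j', k', l', hj', rfl⟩
    exact ⟨j + j', k + k', l + l', by omega, by ring⟩

noncomputable def AL : Subalgebra ℂ C(SL, ℂ) := alg ML

lemma monL_mem (j : ℕ) {k l : ℕ} (h : l ≠ 0 ∨ k = 0) : ZL ^ j * star ZL ^ k * WL ^ l ∈ AL :=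
  mem_alg ML ⟨j, k, l, h, rfl⟩

lemma bishop_AL : Bishop AL := by
  refine bishop_of _ (alg_closed _) (fun φ h0 hm => ?_) ?_
  · let z : AL := ⟨ZL ^ 1 * star ZL ^ 0 * WL ^ 0, monL_mem 1 (Or.inr rfl)⟩
    let b : ℕ → AL := fun k => ⟨ZL ^ 0 * star ZL ^ k * WL ^ 1, monL_mem 0 (Or.inl one_ne_zero)⟩
    have hp := char_pow AL φ h0 hm
    have hz : ‖φ z‖ ≤ 1 := char_le AL φ h0 hm z 1 zero_le_one fun s => by simpa [z] using s.2.1
    have hb : ∀ k, ‖φ (b k)‖ ≤ 1 := fun k => char_le AL φ h0 hm _ 1 zero_le_one fun s => by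
      simpa [b] using mul_le_one₀ (pow_le_one₀ (n := k) (norm_nonneg _) s.2.1) (norm_nonneg _)
        s.2.2.1
    have hrel : ∀ k, φ z * φ (b (k + 1)) = φ (b k) := by
      intro k
      rw [← hm]; congr 1; apply Subtype.ext
      ext s
      rcases s.2.2.2 with h | h
      · simp [z, b, h]
      · have := Complex.mul_conj' s.1.1
        rw [h] at this
        simp only [z, b, pow_one, pow_zero, mul_one, one_mul, MulMemClass.mk_mul_mk,
          ContinuousMap.mul_apply, ZL_apply, ContinuousMap.pow_apply, ContinuousMap.star_apply,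
          WL_apply, RCLike.star_def, pow_succ]
        push_cast at this
        linear_combination (conj s.1.1 ^ k * s.1.2) * this
    have hcase : (φ (b 0) = 0 ∨ ‖φ z‖ = 1) ∧ ∀ k, φ (b k) = conj (φ z) ^ k * φ (b 0) := by
      rcases hz.lt_or_eq with h | h
      · have h2 : ∀ k, φ (b k) = 0 := by
          intro k
          have h3 : ∀ n, φ (b k) = φ z ^ n * φ (b (k + n)) := by
            intro n
            induction n with
            | zero => simp
            | succ n ih => rw [ih, ← hrel (k + n), pow_succ, mul_assoc]; rfl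
          rw [← norm_le_zero_iff]
          refine ge_of_tendsto' (tendsto_pow_atTop_nhds_zero_of_lt_one (norm_nonneg _) h)
            fun n => ?_
          rw [h3 n, norm_mul, norm_pow]
          exact mul_le_of_le_one_right (by positivity) (hb _)
        exact ⟨Or.inl (h2 0), fun k => by rw [h2, h2, mul_zero]⟩
      · refine ⟨Or.inr h, fun k => ?_⟩
        have := Complex.mul_conj' (φ z)
        rw [h] at this
        push_cast at this
        induction k with
        | zero => simp
        | succ k ih =>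
          rw [pow_succ]
          linear_combination conj (φ z) * hrel k + conj (φ z) * ih - φ (b (k + 1)) * this
    let s0 : SL := ⟨(φ z, φ (b 0)), hz, hb 0, hcase.1⟩
    have hev : ∀ f : AL, φ f = (f : C(SL, ℂ)) s0 := by
      refine char_eval ML φ s0 ?_
      rintro _ ⟨j, k, l, hj, rfl⟩
      rcases l with _ | l
      · obtain rfl : k = 0 := by omega
        have e : (⟨ZL ^ j * star ZL ^ 0 * WL ^ 0, mem_alg ML ⟨_, _, _, hj, rfl⟩⟩ : AL) = z ^ j := by
          apply Subtype.ext
          simp [z]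
        refine (congrArg φ e).trans ?_
        rw [hp]
        simp [s0]
      · have e : (⟨ZL ^ j * star ZL ^ k * WL ^ (l + 1), mem_alg ML ⟨_, _, _, hj, rfl⟩⟩ : AL) =
            z ^ j * b k * b 0 ^ l := by
          apply Subtype.ext
          simp [z, b]
          ring
        refine (congrArg φ e).trans ?_
        rw [hm, hm, hp, hp, hcase.2 k]
        simp [s0]
        ring
    refine ⟨s0, hev, fun s hs => Subtype.ext (Prod.ext ?_ ?_)⟩
    · change s.1.1 = φ z
      rw [hs z]; simp [z]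
    · change s.1.2 = φ (b 0)
      rw [hs (b 0)]; simp [b]
  · have ha : ∀ t : unitInterval, ‖((min (2 * (t : ℝ)) 1 : ℝ) : ℂ)‖ ≤ 1 := by
      intro t
      rw [Complex.norm_real, Real.norm_of_nonneg (le_min (by linarith [t.2.1]) zero_le_one)]
      exact min_le_right _ _
    have hb : ∀ t : unitInterval, ‖((max (2 * (t : ℝ) - 1) 0 : ℝ) : ℂ)‖ ≤ 1 := by
      intro t
      rw [Complex.norm_real, Real.norm_of_nonneg (le_max_right _ _)]
      exact max_le (by linarith [t.2.2]) zero_le_one
    have hmem : ∀ p : unitInterval × SL, (((min (2 * (p.1 : ℝ)) 1 : ℝ) : ℂ) * p.2.1.1,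
        ((max (2 * (p.1 : ℝ) - 1) 0 : ℝ) : ℂ) * p.2.1.2) ∈ SLs := by
      intro p
      refine ⟨?_, ?_, ?_⟩
      · rw [norm_mul]; exact mul_le_one₀ (ha _) (norm_nonneg _) p.2.2.1
      · rw [norm_mul]; exact mul_le_one₀ (hb _) (norm_nonneg _) p.2.2.2.1
      · rcases le_total (2 * (p.1 : ℝ)) 1 with h | h
        · left; rw [max_eq_right (by linarith)]; simp
        · rw [min_eq_right h]
          rcases p.2.2.2.2 with h2 | h2
          · left; simp [h2]
          · right; simpa using h2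
    let H : C(unitInterval × SL, SL) := ⟨fun p => ⟨_, hmem p⟩,
      Continuous.subtype_mk (by fun_prop) hmem⟩
    refine exp_of_homotopy AL (alg_closed _) H (fun s => by simp [H]; norm_num)
      ⟨(0, 0), by simp [SLs]⟩ (fun s => by simp [H]) fun t => comp_mem ML _ ?_
    rintro _ ⟨j, k, l, hj, rfl⟩
    have e : (ZL ^ j * star ZL ^ k * WL ^ l).comp (H.curry t) =
        (((min (2 * (t : ℝ)) 1 : ℝ) : ℂ) ^ (j + k) * ((max (2 * (t : ℝ) - 1) 0 : ℝ) : ℂ) ^ l) •
          (ZL ^ j * star ZL ^ k * WL ^ l) := by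
      ext s
      simp only [ContinuousMap.comp_apply, ContinuousMap.curry_apply, ContinuousMap.coe_mk,
        ContinuousMap.mul_apply, ContinuousMap.pow_apply, ZL_apply, ContinuousMap.star_apply,
        RCLike.star_def, map_mul, Complex.conj_ofReal, WL_apply, ContinuousMap.smul_apply,
        smul_eq_mul, H, mul_pow, pow_add]
      ring
    rw [e]
    exact (alg ML).smul_mem (monL_mem j hj) _

noncomputable def io (θ : UnitAddCircle × UnitAddCircle) : SL :=
  ⟨(ez θ.1, ez θ.2), (ez_norm _).le, (ez_norm _).le, Or.inr (ez_norm _)⟩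

lemma io_cont : Continuous io :=
  Continuous.subtype_mk ((ez_cont.comp continuous_fst).prodMk (ez_cont.comp continuous_snd)) _

noncomputable def hh2 : Measure (UnitAddCircle × UnitAddCircle) := haarAddCircle.prod haarAddCircle

instance : IsProbabilityMeasure hh2 := by unfold hh2; infer_instance
instance : hh2.IsOpenPosMeasure := by unfold hh2; infer_instance

instance : IsProbabilityMeasure (hh2.map io) := Measure.isProbabilityMeasure_map io_cont.aemeasurable

noncomputable def sig : FiniteMeasure SL := ⟨hh2.map io, inferInstance⟩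

lemma sig_coe : (sig : Measure SL) = hh2.map io := rfl

instance : IsProbabilityMeasure (sig : Measure SL) := by rw [sig_coe]; infer_instance

lemma ae_sig : ∀ᵐ s ∂(sig : Measure SL), ‖s.1.1‖ = 1 ∧ ‖s.1.2‖ = 1 := by
  refine (ae_map_iff io_cont.aemeasurable ?_).2 (Eventually.of_forall fun θ => ?_)
  · exact MeasurableSet.inter (isClosed_eq (by fun_prop) continuous_const).measurableSet
      (isClosed_eq (by fun_prop) continuous_const).measurableSet
  · exact ⟨ez_norm _, ez_norm _⟩

lemma mon_circ' {z : ℂ} (hz : ‖z‖ = 1) (j k : ℕ) : z ^ j * conj z ^ k = z ^ ((j : ℤ) - k) := by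
  rw [conj_eq_inv hz, zpow_sub₀ (ne_zero_of_norm hz), zpow_neg_one, inv_pow, div_eq_mul_inv]
  simp

lemma int_sig (j k l : ℕ) (h : l ≠ 0 ∨ j ≠ k) :
    ∫ s, (ZL ^ j * star ZL ^ k * WL ^ l) s ∂(sig : Measure SL) = 0 := by
  rw [sig_coe, integral_map io_cont.aemeasurable (ContinuousMap.continuous _).aestronglyMeasurable]
  have e : ∀ θ, (ZL ^ j * star ZL ^ k * WL ^ l) (io θ) =
      ez θ.1 ^ ((j : ℤ) - k) * ez θ.2 ^ (l : ℤ) := by
    intro θ
    rw [← mon_circ' (ez_norm _)]
    simp [io]
  simp only [e]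
  rw [hh2, integral_prod_mul (fun θ => ez θ ^ ((j : ℤ) - k)) (fun θ => ez θ ^ (l : ℤ)), int_ez,
    int_ez]
  rcases h with h | h
  · rw [if_neg (show (l : ℤ) ≠ 0 by omega), mul_zero]
  · rw [if_neg (show (j : ℤ) - k ≠ 0 by omega), zero_mul]

lemma ann_pos (j k l : ℕ) (h : l ≠ 0 ∨ (k = 0 ∧ j ≠ 0)) :
    ∀ g ∈ AL, ∫ s, g s * (ZL ^ j * star ZL ^ k * WL ^ l) s ∂(sig : Measure SL) = 0 := by
  have hi := int_c (sig : Measure SL) (ZL ^ j * star ZL ^ k * WL ^ l)
  refine alg_ind ML _ (isClosed_eq (cont_int _ hi) continuous_const) ?_ (by simp) ?_ ?_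
  · rintro _ ⟨j', k', l', hj, rfl⟩
    rw [← int_sig (j' + j) (k' + k) (l' + l) (by omega)]
    refine integral_congr_ae (Eventually.of_forall fun s => ?_)
    simp only [ContinuousMap.mul_apply, ContinuousMap.pow_apply, pow_add]
    ring
  · intro f g hf hg
    have := (intL _ hi).map_add f g
    rw [intL_apply, intL_apply, intL_apply, hf, hg, add_zero] at this
    exact this
  · intro c f hf
    have := (intL _ hi).map_smul c f
    rw [intL_apply, intL_apply, hf, smul_zero] at this
    exact this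

noncomputable def MT : Submonoid C(SL, ℂ) where
  carrier := {f | ∃ j k l m : ℕ, f = ZL ^ j * star ZL ^ k * WL ^ l * star WL ^ m}
  one_mem' := ⟨0, 0, 0, 0, by simp⟩
  mul_mem' := by
    rintro _ _ ⟨j, k, l, m, rfl⟩ ⟨j', k', l', m', rfl⟩
    exact ⟨j + j', k + k', l + l', m + m', by ring⟩

lemma zero_of_ann {h : SL → ℂ} (hh : Integrable h (sig : Measure SL))
    (h1 : ∫ s, h s ∂(sig : Measure SL) = 0)
    (h2 : ∀ j k l : ℕ, (l ≠ 0 ∨ (k = 0 ∧ j ≠ 0)) →
      ∫ s, (ZL ^ j * star ZL ^ k * WL ^ l) s * h s ∂(sig : Measure SL) = 0 ∧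
      ∫ s, conj ((ZL ^ j * star ZL ^ k * WL ^ l) s) * h s ∂(sig : Measure SL) = 0) :
    ∀ᵐ s ∂(sig : Measure SL), h s = 0 := by
  refine ae_zero_of_ann _ hh (sw_ind MT ?_ ?_ _ (isClosed_eq (cont_int _ hh) continuous_const)
    ?_ (by simp) ?_ ?_)
  · rintro _ ⟨j, k, l, m, rfl⟩
    refine ⟨k, j, m, l, ?_⟩
    ext s
    simp
    ring
  · intro x y hxy
    by_cases h : x.1.1 = y.1.1
    · exact ⟨WL, ⟨0, 0, 1, 0, by simp⟩, fun h2 => hxy (Subtype.ext (Prod.ext h h2))⟩
    · exact ⟨ZL, ⟨1, 0, 0, 0, by simp⟩, h⟩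
  · rintro _ ⟨j, k, l, m, rfl⟩
    have hz : ∀ {z : ℂ}, ‖z‖ = 1 → ∀ n : ℕ, z ^ n * conj z ^ n = 1 := by
      intro z hz n
      rw [mon_circ' hz, sub_self, zpow_zero]
    rcases lt_trichotomy l m with hl | rfl | hl
    · obtain ⟨d, rfl⟩ := Nat.exists_eq_add_of_lt hl
      refine Eq.trans (integral_congr_ae ?_) (h2 k j (d + 1) (Or.inl (by omega))).2
      filter_upwards [ae_sig] with s hs
      simp only [ContinuousMap.mul_apply, ContinuousMap.pow_apply, ZL_apply, WL_apply,
        ContinuousMap.star_apply, RCLike.star_def, map_mul, map_pow, Complex.conj_conj]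
      linear_combination (s.1.1 ^ j * conj s.1.1 ^ k * conj s.1.2 ^ (d + 1) * h s) * hz hs.2 l
    · rcases lt_trichotomy j k with hl | rfl | hl
      · obtain ⟨d, rfl⟩ := Nat.exists_eq_add_of_lt hl
        refine Eq.trans (integral_congr_ae ?_) (h2 (d + 1) 0 0 (Or.inr (by omega))).2
        filter_upwards [ae_sig] with s hs
        simp only [ContinuousMap.mul_apply, ContinuousMap.pow_apply, ZL_apply, WL_apply,
          ContinuousMap.star_apply, RCLike.star_def, map_mul, map_pow, Complex.conj_conj]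
        linear_combination (s.1.1 ^ j * conj s.1.1 ^ (j + d + 1) * h s) * hz hs.2 l +
          (conj s.1.1 ^ (d + 1) * h s) * hz hs.1 j
      · refine Eq.trans (integral_congr_ae ?_) h1
        filter_upwards [ae_sig] with s hs
        simp only [ContinuousMap.mul_apply, ContinuousMap.pow_apply, ZL_apply, WL_apply,
          ContinuousMap.star_apply, RCLike.star_def]
        linear_combination (s.1.1 ^ j * conj s.1.1 ^ j * h s) * hz hs.2 l + h s * hz hs.1 j
      · obtain ⟨d, rfl⟩ := Nat.exists_eq_add_of_lt hl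
        refine Eq.trans (integral_congr_ae ?_) (h2 (d + 1) 0 0 (Or.inr (by omega))).1
        filter_upwards [ae_sig] with s hs
        simp only [ContinuousMap.mul_apply, ContinuousMap.pow_apply, ZL_apply, WL_apply,
          ContinuousMap.star_apply, RCLike.star_def]
        linear_combination (s.1.1 ^ (k + d + 1) * conj s.1.1 ^ k * h s) * hz hs.2 l +
          (s.1.1 ^ (d + 1) * h s) * hz hs.1 k
    · obtain ⟨d, rfl⟩ := Nat.exists_eq_add_of_lt hl
      refine Eq.trans (integral_congr_ae ?_) (h2 j k (d + 1) (Or.inl (by omega))).1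
      filter_upwards [ae_sig] with s hs
      simp only [ContinuousMap.mul_apply, ContinuousMap.pow_apply, ZL_apply, WL_apply,
        ContinuousMap.star_apply, RCLike.star_def]
      linear_combination (s.1.1 ^ j * conj s.1.1 ^ k * s.1.2 ^ (d + 1) * h s) * hz hs.2 m
  · intro f g hf hg
    have := (intL _ hh).map_add f g
    rw [intL_apply, intL_apply, intL_apply, hf, hg, add_zero] at this
    exact this
  · intro c f hf
    have := (intL _ hh).map_smul c f
    rw [intL_apply, intL_apply, hf, smul_zero] at this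
    exact this

lemma H2_sig : wcl sig (clsSum AL sig) = Set.univ := by
  refine Set.eq_univ_of_forall fun F => (mem_wcl_clsSum AL sig F).2 fun h hh H => ?_
  have := zero_of_ann hh (by simpa using (H 1 AL.one_mem).1)
    fun j k l hjkl => H _ (monL_mem j (by omega))
  rw [integral_congr_ae (g := fun _ => 0), integral_zero]
  filter_upwards [this] with s hs
  rw [hs, mul_zero]

lemma H1_sig (F : Linf sig) (hF : F ∈ wcl sig (cls AL sig))
    (hr : ∀ᵐ s ∂(sig : Measure SL), (fn F s).im = 0) :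
    ∃ c : ℂ, ∀ᵐ s ∂(sig : Measure SL), fn F s = c := by
  have hFi : Integrable (fn F) (sig : Measure SL) := by
    have := int_Lp _ F (integrable_const (1 : ℂ))
    simp only [mul_one] at this
    exact this
  refine ⟨∫ s, fn F s ∂(sig : Measure SL), ?_⟩
  have := zero_of_ann (h := fun s => fn F s - ∫ s, fn F s ∂(sig : Measure SL))
    (hFi.sub (integrable_const _)) (by
      rw [integral_sub hFi (integrable_const _)]; simp) fun j k l hjkl => ?_
  · filter_upwards [this] with s hs
    exact sub_eq_zero.1 hs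
  · have h1 := (mem_wcl_cls AL sig F).1 hF _ (int_c _ _) (ann_pos j k l hjkl)
    have h2 := int_sig j k l (by omega)
    have h3 : ∫ s, (ZL ^ j * star ZL ^ k * WL ^ l) s *
        (fn F s - ∫ s, fn F s ∂(sig : Measure SL)) ∂(sig : Measure SL) = 0 := by
      simp only [mul_sub]
      rw [integral_sub (int_cm _ _ hFi) (int_cm _ _ (integrable_const _)), integral_mul_const, h2,
        zero_mul, sub_zero, ← h1]
      exact integral_congr_ae (Eventually.of_forall fun s => mul_comm _ _)
    refine ⟨h3, ?_⟩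
    have hre : ∀ᵐ s ∂(sig : Measure SL), conj (fn F s) = fn F s :=
      hr.mono fun s hs => Complex.conj_eq_iff_im.2 hs
    have hc : conj (∫ s, fn F s ∂(sig : Measure SL)) = ∫ s, fn F s ∂(sig : Measure SL) := by
      rw [← integral_conj]; exact integral_congr_ae hre
    have h4 := congrArg conj h3
    rw [← integral_conj, map_zero] at h4
    rw [← h4]
    refine integral_congr_ae ?_
    filter_upwards [hre] with s hs
    rw [map_mul (starRingEnd ℂ) _ (fn F s - _), map_sub, hs, hc]

lemma W_mul_mem (u : C(Metric.closedBall (0 : ℂ) 1, ℂ)) :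
    ∃ f ∈ AL, ∀ s : SL, f s = s.1.2 * u ⟨s.1.1, mem_closedBall_zero_iff.2 s.2.1⟩ := by
  let π : C(SL, Metric.closedBall (0 : ℂ) 1) :=
    ⟨fun s => ⟨s.1.1, mem_closedBall_zero_iff.2 s.2.1⟩, Continuous.subtype_mk (by fun_prop) _⟩
  let z : C(Metric.closedBall (0 : ℂ) 1, ℂ) := ⟨fun s => s, by fun_prop⟩
  let M : Submonoid C(Metric.closedBall (0 : ℂ) 1, ℂ) :=
    { carrier := {f | ∃ j k : ℕ, f = z ^ j * star z ^ k}
      one_mem' := ⟨0, 0, by simp⟩
      mul_mem' := by
        rintro _ _ ⟨j, k, rfl⟩ ⟨j', k', rfl⟩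
        exact ⟨j + j', k + k', by ring⟩ }
  refine ⟨WL * u.comp π, ?_, fun s => rfl⟩
  refine sw_ind M ?_ ?_ (fun u => WL * u.comp π ∈ AL) ?_ ?_ ?_ ?_ ?_ u
  · rintro _ ⟨j, k, rfl⟩
    refine ⟨k, j, ?_⟩
    ext s
    simp [mul_comm]
  · intro x y hxy
    exact ⟨z, ⟨1, 0, by simp⟩, fun h => hxy (Subtype.ext h)⟩
  · exact (alg_closed ML).preimage (continuous_const.mul (ContinuousMap.continuous_precomp π))
  · rintro _ ⟨j, k, rfl⟩
    have e : WL * (z ^ j * star z ^ k).comp π = ZL ^ j * star ZL ^ k * WL ^ 1 := by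
      ext s
      simp [z, π]
      ring
    rw [e]
    exact monL_mem j (Or.inl one_ne_zero)
  · simp
  · intro f g hf hg
    have := AL.add_mem hf hg
    rwa [← mul_add] at this
  · intro c f hf
    have := AL.smul_mem hf c
    rwa [← mul_smul_comm] at this

lemma subset_wcl {S : Type} [MeasurableSpace S] (μ : FiniteMeasure S) (M : Set (Linf μ)) :
    M ⊆ wcl μ M := fun F hF n h _ ε hε => ⟨F, hF, fun i => by simpa using hε⟩

lemma eq_zero_of_ae (f : C(SL, ℂ)) (h : ∀ᵐ s ∂(sig : Measure SL), f s = 0) (θ) : f (io θ) = 0 := by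
  have h1 : (fun θ => f (io θ)) =ᵐ[hh2] fun _ => 0 := ae_of_ae_map io_cont.aemeasurable h
  exact congrFun ((Continuous.ae_eq_iff_eq hh2 (f.continuous.comp io_cont)
    continuous_const).1 h1) θ

lemma ez_zero : ez 0 = 1 := fourier_eval_zero 1

lemma ez_half : ez ((1 / 2 : ℝ) : UnitAddCircle) = -1 := by
  have h1 := fourier_add_half_inv_index (T := 1) (n := 1) one_ne_zero one_pos 0
  simp only [zero_add, Int.cast_one, div_one] at h1
  rw [ez, h1, fourier_eval_zero]

lemma zero_div : ∃ F ∈ cls AL sig, ∃ G ∈ cls AL sig, F ≠ 0 ∧ G ≠ 0 ∧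
    ∀ᵐ s ∂(sig : Measure SL), fn (0 : Linf sig) s = fn F s * fn G s := by
  obtain ⟨f, hf, hfe⟩ := W_mul_mem ⟨fun z => ((max (z : ℂ).re 0 : ℝ) : ℂ), by fun_prop⟩
  obtain ⟨g, hg, hge⟩ := W_mul_mem ⟨fun z => ((max (-(z : ℂ).re) 0 : ℝ) : ℂ), by fun_prop⟩
  have e1 := ContinuousMap.coeFn_toLp (p := ∞) (𝕜 := ℂ) (sig : Measure SL) f
  have e2 := ContinuousMap.coeFn_toLp (p := ∞) (𝕜 := ℂ) (sig : Measure SL) g
  have e0 := Lp.coeFn_zero ℂ ∞ (sig : Measure SL)
  refine ⟨_, ⟨f, hf, e1⟩, _, ⟨g, hg, e2⟩, fun h => ?_, fun h => ?_, ?_⟩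
  · rw [h] at e1
    have := eq_zero_of_ae f (e1.symm.trans e0) (0, 0)
    rw [hfe] at this
    simp [io, ez_zero] at this
  · rw [h] at e2
    have := eq_zero_of_ae g (e2.symm.trans e0) (((1 / 2 : ℝ) : UnitAddCircle), 0)
    rw [hge] at this
    simp only [io, ez_zero, ez_half, ContinuousMap.coe_mk] at this
    simp at this
  · filter_upwards [e0, e1, e2] with s a b c
    unfold fn
    rw [a, b, c, hfe, hge]
    simp only [Pi.zero_apply, ContinuousMap.coe_mk]
    rcases le_total s.1.1.re 0 with h | h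
    · rw [max_eq_right h]; simp
    · rw [max_eq_right (by linarith : -s.1.1.re ≤ 0)]; simp

lemma supp_sig : (sig : Measure SL).support.Nontrivial := by
  have h : ∀ θ, io θ ∈ (sig : Measure SL).support := by
    intro θ
    rw [Measure.mem_support_iff_forall]
    intro U hU
    exact lt_of_lt_of_le (Measure.measure_pos_of_mem_nhds hh2 (io_cont.continuousAt hU))
      (Measure.le_map_apply io_cont.aemeasurable U)
  refine ⟨_, h (0, 0), _, h (((1 / 2 : ℝ) : UnitAddCircle), 0), fun e => ?_⟩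
  have := congrArg (fun s : SL => s.1.1) e
  simp only [io, ez_zero, ez_half] at this
  norm_num at this

lemma Hinf_domain {u v : Metric.ball (0 : ℂ) 1 → ℂ} (hu : u ∈ Hinf) (hv : v ∈ Hinf)
    (h : u * v = 0) : u = 0 ∨ v = 0 := by
  obtain ⟨-, U, hU, hu⟩ := hu
  obtain ⟨-, V, hV, hv⟩ := hv
  have := (hU.analyticOnNhd Metric.isOpen_ball).eq_zero_or_eq_zero_of_mul_eq_zero
    (hV.analyticOnNhd Metric.isOpen_ball) (fun z hz => by
      have := congrFun h ⟨z, hz⟩
      rwa [Pi.mul_apply, hu, hv] at this) (convex_ball (0 : ℂ) 1).isPreconnected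
  rcases this with h1 | h1
  · left; funext z; rw [hu, h1 z z.2]; rfl
  · right; funext z; rw [hv, h1 z z.2]; rfl

end H3Bis
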