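import Mathlib

set_option autoImplicit false

namespace Pool.Agent.Lib.H3RootLoc

open Polynomial Finset

/-- Every root of a monic polynomial is near one of the approximate roots. -/
theorem near_node {n : ℕ} (q : ℂ[X]) (hm : q.Monic) (hd : q.natDegree = n + 1)
    (v : Fin (n + 1) → ℂ) (d η ρ : ℝ) (hd0 : 0 < d) (hρ : 0 < ρ)
    (hsep : ∀ i j, i ≠ j → d ≤ ‖v i - v j‖) (hval : ∀ i, ‖q.eval (v i)‖ ≤ η)
    (hη : (n + 1) * η < ρ * d ^ n) (z : ℂ) (hz : q.eval z = 0) :
    ∃ i, ‖z - v i‖ ≤ ρ := by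
  by_contra hcon
  push Not at hcon
  have hinj : Set.InjOn v (univ : Finset (Fin (n + 1))) := by
    intro i _ j _ hij
    by_contra hne
    have := hsep i j hne
    rw [hij, sub_self, norm_zero] at this
    linarith
  have hne : ∀ i ∈ (univ : Finset (Fin (n + 1))), z ≠ v i := by
    intro i _ h
    have := hcon i
    rw [h, sub_self, norm_zero] at this
    linarith
  set N := Lagrange.nodal (univ : Finset (Fin (n + 1))) v with hN
  have hNm : N.Monic := Lagrange.nodal_monic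
  have hNd : N.degree = ((n + 1 : ℕ) : WithBot ℕ) := by
    rw [hN, Lagrange.degree_nodal]; simp
  have hqd : q.degree = ((n + 1 : ℕ) : WithBot ℕ) := by
    rw [degree_eq_natDegree hm.ne_zero, hd]
  have hlt : (q - N).degree < ((univ : Finset (Fin (n + 1))).card : WithBot ℕ) := by
    have h1 := degree_sub_lt_left (p := q) (q := N) (by rw [hqd, hNd]) hm.ne_zero
      (by rw [hm.leadingCoeff, hNm.leadingCoeff])
    rw [hqd] at h1
    simpa using h1
  have hE := Lagrange.eq_interpolate_of_eval_eq (f := q - N) (r := fun i => q.eval (v i)) hinj hlt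
    (by
      intro i hi
      rw [eval_sub, hN, Lagrange.eval_nodal_at_node hi, sub_zero])
  have h2 := Lagrange.eval_interpolate_not_at_node (fun i => q.eval (v i)) hne
  rw [← hE, eval_sub, hz, zero_sub, ← hN] at h2
  have hN0 : N.eval z ≠ 0 := Lagrange.eval_nodal_not_at_node hne
  have h3 : (-1 : ℂ) = ∑ i, Lagrange.nodalWeight univ v i * (z - v i)⁻¹ * q.eval (v i) := by
    apply mul_left_cancel₀ hN0
    rw [← h2]; ring
  have hη0 : 0 ≤ η := (norm_nonneg _).trans (hval 0)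
  have h4 : ∀ i, ‖Lagrange.nodalWeight univ v i * (z - v i)⁻¹ * q.eval (v i)‖
      ≤ (d ^ n)⁻¹ * ρ⁻¹ * η := by
    intro i
    rw [norm_mul, norm_mul]
    have hw : ‖Lagrange.nodalWeight univ v i‖ ≤ (d ^ n)⁻¹ := by
      rw [Lagrange.nodalWeight, norm_prod]
      calc ∏ j ∈ univ.erase i, ‖(v i - v j)⁻¹‖ ≤ ∏ _j ∈ univ.erase i, d⁻¹ := by
            apply prod_le_prod (fun _ _ => norm_nonneg _)
            intro j hj
            rw [norm_inv]
            exact inv_anti₀ hd0 (hsep i j (Finset.ne_of_mem_erase hj).symm)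
        _ = (d ^ n)⁻¹ := by
            rw [prod_const, card_erase_of_mem (mem_univ i)]; simp
    have hz' : ‖(z - v i)⁻¹‖ ≤ ρ⁻¹ := by
      rw [norm_inv]; exact inv_anti₀ hρ (hcon i).le
    gcongr
    exact hval i
  have h5 : (1 : ℝ) ≤ (n + 1) * ((d ^ n)⁻¹ * ρ⁻¹ * η) := by
    calc (1 : ℝ) = ‖(-1 : ℂ)‖ := by simp
      _ ≤ ∑ i, ‖Lagrange.nodalWeight univ v i * (z - v i)⁻¹ * q.eval (v i)‖ := by
          rw [h3]; exact norm_sum_le _ _
      _ ≤ ∑ _i : Fin (n + 1), (d ^ n)⁻¹ * ρ⁻¹ * η := sum_le_sum fun i _ => h4 i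
      _ = (n + 1) * ((d ^ n)⁻¹ * ρ⁻¹ * η) := by simp
  have hdn : 0 < d ^ n := pow_pos hd0 n
  have h6 : (n + 1) * ((d ^ n)⁻¹ * ρ⁻¹ * η) = ((n + 1) * η) / (ρ * d ^ n) := by
    field_simp
  rw [h6, le_div_iff₀ (by positivity)] at h5
  linarith

theorem pow_card_le (D : ℝ) (hD : 0 ≤ D) (x : ℂ) (s : Multiset ℂ) (h : ∀ r ∈ s, D ≤ ‖x - r‖) :
    D ^ (Multiset.card s) ≤ ‖(s.map (fun r => x - r)).prod‖ := by
  induction s using Multiset.induction_on with
  | empty => simp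
  | cons a s ih =>
    rw [Multiset.card_cons, Multiset.map_cons, Multiset.prod_cons, norm_mul, pow_succ']
    apply mul_le_mul (h a (Multiset.mem_cons_self _ _))
      (ih fun r hr => h r (Multiset.mem_cons_of_mem hr)) (pow_nonneg hD _) (norm_nonneg _)

/-- Near every approximate root there is a root. -/
theorem exists_root_near {n : ℕ} (q : ℂ[X]) (hm : q.Monic) (hd : q.natDegree = n + 1)
    (v : Fin (n + 1) → ℂ) (d η ρ : ℝ) (hd0 : 0 < d) (hρ : 0 < ρ)
    (hsep : ∀ i j, i ≠ j → d ≤ ‖v i - v j‖) (hval : ∀ i, ‖q.eval (v i)‖ ≤ η)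
    (hη : (n + 1) * η < ρ * d ^ n) (hρd : ρ ≤ d) (hη2 : η < (d - ρ) ^ (n + 1))
    (i : Fin (n + 1)) : ∃ z ∈ q.roots, ‖z - v i‖ ≤ ρ := by
  by_contra hcon
  push Not at hcon
  have hs : q.Splits := IsAlgClosed.splits q
  have h1 : ∀ r ∈ q.roots, d - ρ ≤ ‖v i - r‖ := by
    intro r hr
    obtain ⟨j, hj⟩ := near_node q hm hd v d η ρ hd0 hρ hsep hval hη r
      ((mem_roots hm.ne_zero).1 hr)
    have hij : i ≠ j := by
      rintro rfl
      exact absurd hj (not_le.2 (hcon r hr))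
    have h2 := hsep i j hij
    have h3 : ‖v i - v j‖ ≤ ‖v i - r‖ + ‖r - v j‖ := norm_sub_le_norm_sub_add_norm_sub _ _ _
    linarith
  have h2 := pow_card_le (d - ρ) (by linarith) (v i) q.roots h1
  rw [← hs.natDegree_eq_card_roots, hd] at h2
  have h3 := hs.eval_eq_prod_roots_of_monic hm (v i)
  have h4 := hval i
  rw [h3] at h4
  linarith

end Pool.Agent.Lib.H3RootLoc
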