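import Mathlib
import Pool.Agent.Lib.helper3.RootLoc

set_option autoImplicit false

namespace Pool.Agent.Lib.H3CDD

open Polynomial Complex Pool.Agent.Lib.H3RootLoc

/-- A monic quintic with given lower coefficients. -/
noncomputable def quint (a4 a3 a2 a1 a0 : ℂ) : ℂ[X] :=
  X ^ 5 + C a4 * X ^ 4 + C a3 * X ^ 3 + C a2 * X ^ 2 + C a1 * X + C a0

theorem quint_monic (a4 a3 a2 a1 a0 : ℂ) : (quint a4 a3 a2 a1 a0).Monic := by
  unfold quint; monicity!

theorem quint_deg (a4 a3 a2 a1 a0 : ℂ) : (quint a4 a3 a2 a1 a0).natDegree = 4 + 1 := by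
  unfold quint; compute_degree!

theorem quint_eval (a4 a3 a2 a1 a0 z : ℂ) : (quint a4 a3 a2 a1 a0).eval z
    = ((((z + a4) * z + a3) * z + a2) * z + a1) * z + a0 := by
  simp [quint]; ring

noncomputable def pp : ℂ[X] :=
  C (1 / 6) * X ^ 6 + C (-24 / 5 + 492 / 5 * I) * X ^ 5 + C (1041 - 2458 * I) * X ^ 4
    + C (-68240 / 3 + 40880 / 3 * I) * X ^ 3 + C (143808 + 25152 * I) * X ^ 2

noncomputable def q13 : ℂ[X] :=
  quint (-24 + 492 * I) (14182 / 3 - 9832 * I) (-76352 + 207176 * I) (1019893 - 1611304 * I)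
    (-59719192 / 15 + 76699636 / 15 * I)

noncomputable def q14 : ℂ[X] :=
  quint (-24 + 492 * I) (14452 / 3 - 9832 * I) (-77648 + 233744 * I) (1142176 - 1876768 * I)
    (-69641152 / 15 + 96764416 / 15 * I)

theorem delta13 : (pp.comp (X + C ((13 : ℝ) : ℂ)) - pp.comp (X - C ((13 : ℝ) : ℂ)))
    * C (1 / (2 * ((13 : ℝ) : ℂ))) = q13 := by
  apply Polynomial.funext
  intro z
  rw [q13, quint_eval]
  simp [pp]
  ring

theorem delta14 : (pp.comp (X + C ((14 : ℝ) : ℂ)) - pp.comp (X - C ((14 : ℝ) : ℂ)))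
    * C (1 / (2 * ((14 : ℝ) : ℂ))) = q14 := by
  apply Polynomial.funext
  intro z
  rw [q14, quint_eval]
  simp [pp]
  ring

theorem deriv_pp (z : ℂ) : (derivative pp).eval z
    = z * (z - 8) * (z - 6 * I) * (z - (12 + 2 * I)) * (z - (4 - 500 * I)) := by
  simp [pp]
  apply Complex.ext <;> simp [pow_succ] <;> ring

theorem deriv_root (z : ℂ) (hz : z ∈ (derivative pp).roots) : 0 ≤ z.re ∧ z.re ≤ 12 := by
  have h := (mem_roots'.1 hz).2
  rw [IsRoot, deriv_pp] at h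
  simp only [mul_eq_zero, sub_eq_zero] at h
  rcases h with (((h | h) | h) | h) | h <;> rw [h] <;> norm_num

theorem norm_le_of (w : ℂ) (η : ℝ) (h : |w.re| + |w.im| ≤ η) : ‖w‖ ≤ η :=
  (Complex.norm_le_abs_re_add_abs_im w).trans h

noncomputable def v13 : Fin 5 → ℂ :=
  ![⟨4.000907954501, -500.448851791441⟩, ⟨5.23684552, -14.65385653⟩, ⟨5.24312029, -1.63643327⟩,
    ⟨5.228283, 5.77958509⟩, ⟨4.29084324, 18.95955651⟩]

noncomputable def v14 : Fin 5 → ℂ :=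
  ![⟨4.001053031525, -500.520565459133⟩, ⟨5.22676777, -16.08764752⟩, ⟨5.24486334, -1.97234632⟩,
    ⟨5.15361156, 6.13522131⟩, ⟨4.3737043, 20.44533799⟩]

theorem sep13 (i j : Fin 5) (h : i ≠ j) : 7 ≤ ‖v13 i - v13 j‖ := by
  refine le_trans ?_ (Complex.abs_im_le_norm _)
  fin_cases i <;> fin_cases j <;> first | exact absurd rfl h | (norm_num [v13, le_abs])

theorem sep14 (i j : Fin 5) (h : i ≠ j) : 7 ≤ ‖v14 i - v14 j‖ := by
  refine le_trans ?_ (Complex.abs_im_le_norm _)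
  fin_cases i <;> fin_cases j <;> first | exact absurd rfl h | (norm_num [v14, le_abs])

theorem val13 (i : Fin 5) : ‖q13.eval (v13 i)‖ ≤ 1 / 20 := by
  apply norm_le_of
  rw [q13, quint_eval]
  fin_cases i <;> simp [v13] <;> norm_num [abs_of_pos, abs_of_neg]

theorem val14 (i : Fin 5) : ‖q14.eval (v14 i)‖ ≤ 1 / 20 := by
  apply norm_le_of
  rw [q14, quint_eval]
  fin_cases i <;> simp [v14] <;> norm_num [abs_of_pos, abs_of_neg]

theorem root13 (z : ℂ) (hz : z ∈ q13.roots) : 4.0007 ≤ z.re ∧ z.re ≤ 5.2433 := by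
  obtain ⟨i, hi⟩ := near_node q13 (quint_monic _ _ _ _ _) (quint_deg _ _ _ _ _) v13 7 (1 / 20)
    (11 / 100000) (by norm_num) (by norm_num) sep13 val13 (by norm_num) z (mem_roots'.1 hz).2
  have h := abs_le.1 ((Complex.abs_re_le_norm _).trans hi)
  rw [Complex.sub_re] at h
  have h2 : 4.0009 ≤ (v13 i).re ∧ (v13 i).re ≤ 5.24313 := by
    fin_cases i <;> norm_num [v13]
  constructor <;> linarith [h.1, h.2, h2.1, h2.2]

theorem root14 : ∃ z ∈ q14.roots, ∃ w ∈ q14.roots, 1.2435 ≤ z.re - w.re := by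
  have H := exists_root_near q14 (quint_monic _ _ _ _ _) (quint_deg _ _ _ _ _) v14 7 (1 / 20)
    (11 / 100000) (by norm_num) (by norm_num) sep14 val14 (by norm_num) (by norm_num)
    (by norm_num)
  obtain ⟨z, hz, hz'⟩ := H 2
  obtain ⟨w, hw, hw'⟩ := H 0
  refine ⟨z, hz, w, hw, ?_⟩
  have h1 := abs_le.1 ((Complex.abs_re_le_norm _).trans hz')
  have h2 := abs_le.1 ((Complex.abs_re_le_norm _).trans hw')
  rw [Complex.sub_re] at h1 h2
  have h3 : (v14 2).re = 5.24486334 := by simp [v14]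
  have h4 : (v14 0).re = 4.001053031525 := by simp [v14]
  rw [h3] at h1
  rw [h4] at h2
  norm_num at h1 h2 ⊢
  linarith [h1.1, h2.2]

theorem width_le (q : ℂ[X]) (a b : ℝ) (hab : a ≤ b) (h : ∀ z ∈ q.roots, a ≤ z.re ∧ z.re ≤ b) :
    sSup {x : ℝ | ∃ z ∈ q.roots, ∃ w ∈ q.roots, x = z.re - w.re} ≤ b - a := by
  apply Real.sSup_le _ (by linarith)
  rintro x ⟨z, hz, w, hw, rfl⟩
  linarith [(h z hz).2, (h w hw).1]

theorem le_width (q : ℂ[X]) (z w : ℂ) (hz : z ∈ q.roots) (hw : w ∈ q.roots) :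
    z.re - w.re ≤ sSup {x : ℝ | ∃ z ∈ q.roots, ∃ w ∈ q.roots, x = z.re - w.re} := by
  refine le_csSup ?_ (show ∃ z' ∈ q.roots, ∃ w' ∈ q.roots, z.re - w.re = z'.re - w'.re from
    ⟨z, hz, w, hw, rfl⟩)
  apply Set.Finite.bddAbove
  apply ((q.roots.toFinset ×ˢ q.roots.toFinset).finite_toSet.image
    (fun x : ℂ × ℂ => x.1.re - x.2.re)).subset
  rintro x ⟨z, hz, w, hw, rfl⟩
  exact ⟨(z, w), by simp only [Finset.coe_product, Set.mem_prod, Finset.mem_coe,
    Multiset.mem_toFinset]; exact ⟨hz, hw⟩, rfl⟩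

end Pool.Agent.Lib.H3CDD
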