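import Mathlib

set_option autoImplicit false

/-! Area estimates for holomorphic functions and Cauchy kernels. -/

namespace Pool.Agent.Lib.H3CK

open Complex Metric Set Filter Topology MeasureTheory
open scoped ENNReal Real

theorem polar (g : ℂ → ℝ≥0∞) (hg : Measurable g) (c : ℂ) (R : ℝ) :
    ∫⁻ ζ in ball c R, g ζ
      = ∫⁻ r in Ioo 0 R, ENNReal.ofReal r * ∫⁻ θ in Ioo (-π) π, g (circleMap c r θ) := by
  have h0 : ∫⁻ ζ in ball c R, g ζ = ∫⁻ ζ, (ball (0 : ℂ) R).indicator (fun w => g (c + w)) ζ := by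
    rw [← lintegral_indicator measurableSet_ball, ← lintegral_add_left_eq_self _ c]
    congr 1
    funext w
    by_cases hw : w ∈ ball (0 : ℂ) R
    · rw [indicator_of_mem hw, indicator_of_mem (by simpa using hw)]
    · rw [indicator_of_notMem hw, indicator_of_notMem (by simpa using hw)]
  have hm : Measurable fun p : ℝ × ℝ => g (circleMap c p.1 p.2) := by
    apply hg.comp
    unfold circleMap
    fun_prop
  rw [h0, ← Complex.lintegral_comp_polarCoord_symm]
  have h1 : ∫⁻ p in polarCoord.target, ENNReal.ofReal p.1 •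
      (ball (0 : ℂ) R).indicator (fun w => g (c + w)) (Complex.polarCoord.symm p)
      = ∫⁻ p in Ioi (0 : ℝ) ×ˢ Ioo (-π) π, (Iio R ×ˢ univ).indicator
        (fun p : ℝ × ℝ => ENNReal.ofReal p.1 * g (circleMap c p.1 p.2)) p := by
    refine setLIntegral_congr_fun (measurableSet_Ioi.prod measurableSet_Ioo) fun p hp => ?_
    have h2 : ‖Complex.polarCoord.symm p‖ = p.1 := by
      rw [Complex.norm_polarCoord_symm, abs_of_pos hp.1]
    have h3 : c + Complex.polarCoord.symm p = circleMap c p.1 p.2 := by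
      rw [Complex.polarCoord_symm_apply, circleMap, Complex.exp_mul_I]
      simp
    by_cases h : p.1 < R
    · rw [indicator_of_mem (by rwa [mem_ball_zero_iff, h2]), indicator_of_mem (by simpa using h), h3,
        smul_eq_mul]
    · rw [indicator_of_notMem (by rwa [mem_ball_zero_iff, h2]), indicator_of_notMem (by simpa using h),
        smul_zero]
  rw [h1, lintegral_indicator (measurableSet_Iio.prod MeasurableSet.univ),
    Measure.restrict_restrict (measurableSet_Iio.prod MeasurableSet.univ), prod_inter_prod,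
    univ_inter, inter_comm, Ioi_inter_Iio, Measure.volume_eq_prod, ← Measure.prod_restrict,
    lintegral_prod _ (by fun_prop)]
  refine lintegral_congr fun r => ?_
  have hm2 : Measurable fun θ : ℝ => g (circleMap c r θ) :=
    hg.comp (continuous_circleMap c r).measurable
  exact lintegral_const_mul (ENNReal.ofReal r) hm2

theorem ker0 (t : ℂ) (R : ℝ) (hR : 0 < R) :
    ∫⁻ ζ in ball t R, (‖ζ - t‖ₑ)⁻¹ ≤ ENNReal.ofReal (7 * R) := by
  rw [polar _ (by fun_prop)]
  calc _ = ∫⁻ _r in Ioo 0 R, ENNReal.ofReal (2 * π) := by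
        refine setLIntegral_congr_fun measurableSet_Ioo fun r hr => ?_
        have h1 : ∀ θ, (‖circleMap t r θ - t‖ₑ)⁻¹ = (ENNReal.ofReal r)⁻¹ := by
          intro θ
          rw [← ofReal_norm, circleMap_sub_center, norm_circleMap_zero, abs_of_pos hr.1]
        simp only [h1, lintegral_const, Measure.restrict_apply MeasurableSet.univ, univ_inter,
          Real.volume_Ioo]
        rw [← mul_assoc, ENNReal.mul_inv_cancel (by simpa using hr.1) (by simp), one_mul]
        congr 1; ring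
    _ = ENNReal.ofReal (2 * π * R) := by
        simp only [lintegral_const, Measure.restrict_apply MeasurableSet.univ, univ_inter,
          Real.volume_Ioo, sub_zero]
        rw [← ENNReal.ofReal_mul (by positivity)]
    _ ≤ _ := ENNReal.ofReal_le_ofReal (by nlinarith [Real.pi_lt_d2])

theorem vol_ball (c : ℂ) (R : ℝ) (hR : 0 < R) : volume (ball c R) ≤ ENNReal.ofReal (4 * R ^ 2) := by
  rw [Complex.volume_ball, ← ENNReal.ofReal_pow hR.le, ← ENNReal.ofReal_coe_nnreal,
    ← ENNReal.ofReal_mul (by positivity)]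
  apply ENNReal.ofReal_le_ofReal
  have := Real.pi_le_four
  simp only [NNReal.coe_real_pi]
  nlinarith [sq_nonneg R]

theorem ker (c t : ℂ) (R : ℝ) (hR : 0 < R) :
    ∫⁻ ζ in ball c R, (‖ζ - t‖ₑ)⁻¹ ≤ ENNReal.ofReal (11 * R) := by
  have h1 : ∀ ζ, (‖ζ - t‖ₑ)⁻¹
      ≤ (ball t R).indicator (fun ζ => (‖ζ - t‖ₑ)⁻¹) ζ + ENNReal.ofReal R⁻¹ := by
    intro ζ
    by_cases h : ζ ∈ ball t R
    · rw [indicator_of_mem h]; exact le_self_add
    · rw [indicator_of_notMem h, zero_add, ENNReal.ofReal_inv_of_pos hR, ← ofReal_norm]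
      apply ENNReal.inv_le_inv.2 (ENNReal.ofReal_le_ofReal _)
      simpa [dist_eq_norm] using h
  calc _ ≤ ∫⁻ ζ in ball c R, ((ball t R).indicator (fun ζ => (‖ζ - t‖ₑ)⁻¹) ζ
        + ENNReal.ofReal R⁻¹) := lintegral_mono h1
    _ = (∫⁻ ζ in ball c R, (ball t R).indicator (fun ζ => (‖ζ - t‖ₑ)⁻¹) ζ)
        + ENNReal.ofReal R⁻¹ * volume (ball c R) := by
        rw [lintegral_add_right _ measurable_const]; simp
    _ ≤ ENNReal.ofReal (7 * R) + ENNReal.ofReal R⁻¹ * ENNReal.ofReal (4 * R ^ 2) := by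
        gcongr
        · refine (setLIntegral_le_lintegral _ _).trans ?_
          rw [lintegral_indicator measurableSet_ball]
          exact ker0 t R hR
        · exact vol_ball c R hR
    _ = _ := by
        rw [← ENNReal.ofReal_mul (by positivity), ← ENNReal.ofReal_add (by positivity)
          (by positivity)]
        congr 1; field_simp; ring

theorem circle_est (H : ℂ → ℂ) (c : ℂ) (R r : ℝ) (hr : 0 < r) (hrR : r < R)
    (hH : DifferentiableOn ℂ H (ball c R)) :
    ENNReal.ofReal (6 * r * ‖deriv H c‖) ≤ ∫⁻ θ in Ioo (-π) π, ‖H (circleMap c r θ)‖ₑ := by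
  have h1 := Complex.two_pi_I_inv_smul_circleIntegral_sub_sq_inv_smul_of_differentiable
    isOpen_ball (closedBall_subset_ball hrR) hH (mem_ball_self hr)
  have hc : Continuous fun θ => H (circleMap c r θ) :=
    hH.continuousOn.comp_continuous (continuous_circleMap c r)
      fun θ => closedBall_subset_ball hrR (circleMap_mem_closedBall c hr.le θ)
  have h2 : ‖∮ z in C(c, r), ((z - c) ^ 2)⁻¹ • H z‖
      ≤ ∫ θ in (0 : ℝ)..2 * π, r⁻¹ * ‖H (circleMap c r θ)‖ := by
    rw [circleIntegral]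
    refine (intervalIntegral.norm_integral_le_integral_norm Real.two_pi_pos.le).trans (le_of_eq ?_)
    congr 1
    funext θ
    simp only [deriv_circleMap, smul_eq_mul, norm_mul, norm_inv, norm_pow, circleMap_sub_center,
      norm_circleMap_zero, abs_of_pos hr, Complex.norm_I]
    field_simp
  have h3 : ∫ θ in (0 : ℝ)..2 * π, ‖H (circleMap c r θ)‖
      = ∫ θ in (-π)..π, ‖H (circleMap c r θ)‖ := by
    have hp : Function.Periodic (fun θ => ‖H (circleMap c r θ)‖) (2 * π) :=
      (periodic_circleMap c r).comp fun w => ‖H w‖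
    have := hp.intervalIntegral_add_eq 0 (-π)
    rw [zero_add, show -π + 2 * π = π by ring] at this
    exact this
  rw [intervalIntegral.integral_const_mul, h3] at h2
  have h4 : 6 * r * ‖deriv H c‖ ≤ ∫ θ in (-π)..π, ‖H (circleMap c r θ)‖ := by
    rw [← h1, norm_smul, norm_inv]
    have h5 : ‖(2 * π * I : ℂ)‖ = 2 * π := by simp [abs_of_pos Real.pi_pos]
    have h6 : 0 ≤ ∫ θ in (-π)..π, ‖H (circleMap c r θ)‖ :=
      intervalIntegral.integral_nonneg (by linarith [Real.pi_pos]) fun _ _ => norm_nonneg _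
    rw [h5]
    calc _ ≤ 6 * r * ((2 * π)⁻¹ * (r⁻¹ * ∫ θ in (-π)..π, ‖H (circleMap c r θ)‖)) := by gcongr
      _ = (3 / π) * ∫ θ in (-π)..π, ‖H (circleMap c r θ)‖ := by field_simp; ring
      _ ≤ _ := mul_le_of_le_one_left h6 ((div_le_one Real.pi_pos).2 Real.pi_gt_three.le)
  refine (ENNReal.ofReal_le_ofReal h4).trans (le_of_eq ?_)
  rw [intervalIntegral.integral_of_le (by linarith [Real.pi_pos]), integral_Ioc_eq_integral_Ioo,
    ofReal_integral_norm_eq_lintegral_enorm
      ((hc.integrableOn_Icc (a := -π) (b := π)).mono_set Ioo_subset_Icc_self)]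

theorem area_est (H : ℂ → ℂ) (c : ℂ) (R : ℝ) (hR : 0 < R) (hH : DifferentiableOn ℂ H (ball c R))
    (g : ℂ → ℝ≥0∞) (hg : Measurable g) (hle : ∀ ζ ∈ ball c R, ‖H ζ‖ₑ ≤ g ζ) :
    ENNReal.ofReal (R ^ 3 / 2 * ‖deriv H c‖) ≤ ∫⁻ ζ in ball c R, g ζ := by
  rw [polar g hg]
  calc _ ≤ ∫⁻ _r in Ioo (R / 2) R, ENNReal.ofReal (R ^ 2 * ‖deriv H c‖) := by
        simp only [lintegral_const, Measure.restrict_apply MeasurableSet.univ, univ_inter,
          Real.volume_Ioo]
        rw [← ENNReal.ofReal_mul (by positivity)]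
        exact ENNReal.ofReal_le_ofReal (le_of_eq (by ring))
    _ ≤ ∫⁻ r in Ioo (R / 2) R, ENNReal.ofReal r * ∫⁻ θ in Ioo (-π) π, g (circleMap c r θ) := by
        refine setLIntegral_mono' measurableSet_Ioo fun r hr => ?_
        have hr0 : 0 < r := by linarith [hr.1]
        calc _ ≤ ENNReal.ofReal r * ENNReal.ofReal (6 * r * ‖deriv H c‖) := by
              rw [← ENNReal.ofReal_mul hr0.le]
              apply ENNReal.ofReal_le_ofReal
              have h1 : R ^ 2 ≤ 6 * r * r := by nlinarith [hr.1]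
              nlinarith [norm_nonneg (deriv H c)]
          _ ≤ _ := by
              gcongr
              refine (circle_est H c R r hr0 hr.2 hH).trans (lintegral_mono fun θ => hle _ ?_)
              exact closedBall_subset_ball hr.2 (circleMap_mem_closedBall c hr0.le θ)
    _ ≤ _ := lintegral_mono_set (Ioo_subset_Ioo_left (by positivity))

theorem removable (φ : ℂ → ℂ) (U : Set ℂ)
    (h : ∀ z ∈ U, ∃ A : ℂ → ℂ, AnalyticAt ℂ A z ∧ φ =ᶠ[𝓝[≠] z] A) :
    ∃ H : ℂ → ℂ, DifferentiableOn ℂ H U ∧ ∀ z, ContinuousAt φ z → H z = φ z := by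
  refine ⟨fun z => limUnder (𝓝[≠] z) φ, fun z hz => ?_, fun z hz =>
    (hz.tendsto.mono_left nhdsWithin_le_nhds).limUnder_eq⟩
  obtain ⟨A, hA, hφ⟩ := h z hz
  have h1 : (fun w => limUnder (𝓝[≠] w) φ) =ᶠ[𝓝 z] A := by
    rw [← nhdsNE_sup_pure z, EventuallyEq, eventually_sup, eventually_pure]
    refine ⟨?_, ((hA.continuousAt.tendsto.mono_left nhdsWithin_le_nhds).congr'
      hφ.symm).limUnder_eq⟩
    obtain ⟨V, hV, hVo, hz'⟩ := _root_.eventually_nhds_iff.1 (eventually_nhdsWithin_iff.1 hφ)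
    filter_upwards [nhdsWithin_le_nhds hA.eventually_analyticAt, self_mem_nhdsWithin,
      nhdsWithin_le_nhds (hVo.mem_nhds hz')] with w hw1 hw2 hw3
    have h2 : φ =ᶠ[𝓝 w] A := by
      filter_upwards [hVo.mem_nhds hw3, isOpen_compl_singleton.mem_nhds hw2] with v h1 h2
      exact hV v h1 h2
    exact ((hw1.continuousAt.tendsto.congr' h2.symm).mono_left nhdsWithin_le_nhds).limUnder_eq
  exact (hA.differentiableAt.congr_of_eventuallyEq h1).differentiableWithinAt

theorem local_pole (G : ℂ → ℂ) (hG : Differentiable ℂ G) (t : ℂ) (ht : deriv G t ≠ 0) :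
    ∃ A : ℂ → ℂ, AnalyticAt ℂ A t ∧
      (fun ζ => (G ζ - G t)⁻¹ - (deriv G t)⁻¹ * (ζ - t)⁻¹) =ᶠ[𝓝[≠] t] A := by
  have h1 : Differentiable ℂ (dslope G t) := differentiableOn_univ.1
    ((Complex.differentiableOn_dslope univ_mem).2 hG.differentiableOn)
  have h2 : dslope G t t ≠ 0 := by rwa [dslope_same]
  set W : Set ℂ := {ζ | dslope G t ζ ≠ 0} with hW
  have hWo : IsOpen W := isOpen_ne_fun h1.continuous continuous_const
  have h3 : DifferentiableOn ℂ (fun ζ => (dslope G t ζ)⁻¹) W :=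
    h1.differentiableOn.inv fun _ h => h
  have h4 := (Complex.differentiableOn_dslope (hWo.mem_nhds h2)).2 h3
  refine ⟨_, h4.analyticAt (hWo.mem_nhds h2), ?_⟩
  filter_upwards [self_mem_nhdsWithin] with ζ hζ
  have h5 : ζ - t ≠ 0 := sub_ne_zero.2 hζ
  rw [dslope_of_ne _ hζ, slope_def_field, dslope_same, ← sub_smul_dslope G t ζ, smul_eq_mul,
    mul_inv]
  field_simp

end Pool.Agent.Lib.H3CK
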