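import Mathlib
import Pool.Agent.Lib.helper3.CKA

set_option autoImplicit false

/-! Partial fraction expansion of the derivative of `1 / (G - a)`. -/

namespace Pool.Agent.Lib.H3CK

open Complex Metric Set Filter Topology MeasureTheory
open scoped ENNReal Real

theorem exists_good (G : ℂ → ℂ) (hG : Continuous G) (b : ℂ) :
    ∃ a : ℂ, ‖a‖ < 1 ∧ a ≠ b ∧ ∃ C : ℝ, 0 ≤ C ∧ ∀ R : ℝ, 1 ≤ R →
      ∫⁻ ζ in ball 0 R, (‖G ζ - a‖ₑ)⁻¹ ≤ ENNReal.ofReal (C * R ^ (5 / 2 : ℝ)) := by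
  set W : ℂ → ℝ≥0∞ := fun ζ => ENNReal.ofReal ((1 + ‖ζ‖) ^ (-(5 / 2) : ℝ)) with hW
  have hWm : Measurable W := by fun_prop
  have hWi : ∫⁻ ζ, W ζ < ⊤ := by
    have h := integrable_one_add_norm (E := ℂ) (μ := volume) (r := 5 / 2)
      (by rw [Complex.finrank_real_complex]; norm_num)
    exact h.lintegral_lt_top
  set J : ℂ → ℝ≥0∞ := fun a => ∫⁻ ζ, W ζ * (‖a - G ζ‖ₑ)⁻¹ with hJ
  have hm : Measurable fun p : ℂ × ℂ => W p.2 * (‖p.1 - G p.2‖ₑ)⁻¹ := by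
    have := hG.measurable
    fun_prop
  have hJm : Measurable J := hm.lintegral_prod_right'
  have h1 : ∫⁻ a in ball 0 1, J a ≠ ⊤ := by
    rw [hJ, lintegral_lintegral_swap hm.aemeasurable]
    refine ne_top_of_le_ne_top (b := ∫⁻ ζ, W ζ * ENNReal.ofReal (11 * 1)) ?_
      (lintegral_mono fun ζ => ?_)
    · rw [lintegral_mul_const _ hWm]
      exact ENNReal.mul_ne_top hWi.ne ENNReal.ofReal_ne_top
    · rw [lintegral_const_mul _ (by fun_prop)]
      gcongr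
      exact ker 0 (G ζ) 1 one_pos
  have h2 := ae_lt_top hJm h1
  have h3 : ∀ᵐ a ∂(volume.restrict (ball (0 : ℂ) 1)), a ≠ b :=
    ae_restrict_of_ae (compl_mem_ae_iff.2 (measure_singleton b))
  have h4 : (ae (volume.restrict (ball (0 : ℂ) 1))).NeBot := by
    rw [ae_neBot, Ne, Measure.restrict_eq_zero]
    exact (measure_ball_pos _ _ one_pos).ne'
  obtain ⟨a, ha1, ha2, ha3⟩ := (h2.and (h3.and (ae_restrict_mem measurableSet_ball))).exists
  refine ⟨a, mem_ball_zero_iff.1 ha3, ha2, 2 ^ (5 / 2 : ℝ) * (J a).toReal, by positivity,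
    fun R hR => ?_⟩
  calc _ ≤ ∫⁻ ζ in ball 0 R, ENNReal.ofReal ((2 * R) ^ (5 / 2 : ℝ)) * (W ζ * (‖a - G ζ‖ₑ)⁻¹) := by
        refine setLIntegral_mono' measurableSet_ball fun ζ hζ => ?_
        rw [enorm_sub_rev, ← mul_assoc, hW, ← ENNReal.ofReal_mul (by positivity)]
        refine le_mul_of_one_le_left' (ENNReal.one_le_ofReal.2 ?_)
        have h5 : 1 + ‖ζ‖ ≤ 2 * R := by linarith [mem_ball_zero_iff.1 hζ]
        rw [Real.rpow_neg (by positivity), ← div_eq_mul_inv, one_le_div (by positivity)]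
        gcongr
    _ ≤ ENNReal.ofReal ((2 * R) ^ (5 / 2 : ℝ)) * J a := by
        rw [lintegral_const_mul' _ _ ENNReal.ofReal_ne_top]
        gcongr
        exact setLIntegral_le_lintegral _ _
    _ = _ := by
        rw [← ENNReal.ofReal_toReal ha1.ne, ← ENNReal.ofReal_mul (by positivity),
          ENNReal.toReal_ofReal (by positivity), Real.mul_rpow (by norm_num) (by linarith)]
        congr 1; ring

theorem enorm_inv_le (w : ℂ) : ‖w⁻¹‖ₑ ≤ (‖w‖ₑ)⁻¹ := by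
  rcases eq_or_ne w 0 with rfl | h
  · simp
  · rw [enorm_inv h]

theorem trunc_est {ι : Type*} (G : ℂ → ℂ) (hG : Differentiable ℂ G) (a : ℂ) (τ : ι → ℂ)
    (hinj : Function.Injective τ) (hτ : ∀ i, G (τ i) = a) (hd : ∀ i, deriv G (τ i) ≠ 0)
    (z : ℂ) (hz : G z ≠ a) (R : ℝ) (hR : 0 < R) (T : Finset ι)
    (hT : ∀ ζ ∈ ball z R, G ζ = a → ∃ i ∈ T, τ i = ζ) (B : ℝ) (hB0 : 0 ≤ B)
    (hB : ∫⁻ ζ in ball z R, (‖G ζ - a‖ₑ)⁻¹ ≤ ENNReal.ofReal B) :
    R ^ 3 / 2 * ‖deriv G z / (G z - a) ^ 2 - ∑ i ∈ T, (deriv G (τ i))⁻¹ / (z - τ i) ^ 2‖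
      ≤ B + 11 * R * ∑ i ∈ T, ‖(deriv G (τ i))⁻¹‖ := by
  classical
  set φ : ℂ → ℂ := fun ζ => (G ζ - a)⁻¹ - ∑ i ∈ T, (deriv G (τ i))⁻¹ * (ζ - τ i)⁻¹ with hφ
  have hne : ∀ ζ, G ζ ≠ a → ∀ i, ζ - τ i ≠ 0 := fun ζ h i h' => h (by rw [sub_eq_zero.1 h', hτ])
  have han : ∀ ζ, G ζ ≠ a → AnalyticAt ℂ φ ζ := by
    intro ζ h
    refine (((hG.analyticAt ζ).sub analyticAt_const).inv (sub_ne_zero.2 h)).sub
      (Finset.analyticAt_fun_sum _ fun i _ => analyticAt_const.mul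
        ((analyticAt_id.sub analyticAt_const).inv (hne ζ h i)))
  obtain ⟨H, hH, hHφ⟩ := removable φ (ball z R) (by
    intro ζ hζ
    by_cases h : G ζ = a
    · obtain ⟨i, hi, rfl⟩ := hT ζ hζ h
      obtain ⟨A, hA, hA'⟩ := local_pole G hG (τ i) (hd i)
      refine ⟨fun w => A w - ∑ j ∈ T.erase i, (deriv G (τ j))⁻¹ * (w - τ j)⁻¹,
        hA.sub (Finset.analyticAt_fun_sum _ fun j hj => analyticAt_const.mul
          ((analyticAt_id.sub analyticAt_const).inv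
            (sub_ne_zero.2 (hinj.ne (Finset.ne_of_mem_erase hj).symm)))), ?_⟩
      filter_upwards [hA'] with w hw
      rw [← hw, hτ, hφ]
      simp only
      rw [← Finset.add_sum_erase _ _ hi]
      ring
    · exact ⟨φ, han ζ h, EventuallyEq.rfl⟩)
  have hder : deriv H z
      = -(deriv G z / (G z - a) ^ 2 - ∑ i ∈ T, (deriv G (τ i))⁻¹ / (z - τ i) ^ 2) := by
    have h1 : H =ᶠ[𝓝 z] φ := by
      filter_upwards [hG.continuous.continuousAt.eventually_ne hz] with w hw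
      exact hHφ w (han w hw).continuousAt
    rw [h1.deriv_eq]
    have h2 := ((hG z).hasDerivAt.sub_const a).fun_inv (sub_ne_zero.2 hz)
    have h3 := HasDerivAt.fun_sum (u := T) fun i _ =>
      (((hasDerivAt_id z).sub_const (τ i)).fun_inv (hne z hz i)).const_mul (deriv G (τ i))⁻¹
    refine (h2.fun_sub h3).deriv.trans ?_
    simp only [id, neg_div, mul_neg, Finset.sum_neg_distrib, mul_one_div]
    ring
  have hGm := hG.continuous.measurable
  have h4 := area_est H z R hR hH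
    (fun ζ => (‖G ζ - a‖ₑ)⁻¹ + ∑ i ∈ T, ‖(deriv G (τ i))⁻¹‖ₑ * (‖ζ - τ i‖ₑ)⁻¹) (by fun_prop) (by
      intro ζ _
      by_cases h : G ζ = a
      · simp [h]
      · rw [hHφ ζ (han ζ h).continuousAt]
        refine enorm_sub_le.trans (add_le_add (enorm_inv_le _) ((enorm_sum_le _ _).trans
          (Finset.sum_le_sum fun i _ => ?_)))
        rw [enorm_mul]
        gcongr
        exact enorm_inv_le _)
  rw [hder, norm_neg, lintegral_add_left (by fun_prop),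
    lintegral_finsetSum _ fun i _ => by fun_prop] at h4
  have h5 : ∑ i ∈ T, ∫⁻ ζ in ball z R, ‖(deriv G (τ i))⁻¹‖ₑ * (‖ζ - τ i‖ₑ)⁻¹
      ≤ ENNReal.ofReal (11 * R * ∑ i ∈ T, ‖(deriv G (τ i))⁻¹‖) := by
    rw [Finset.mul_sum, ENNReal.ofReal_sum_of_nonneg fun _ _ => by positivity]
    refine Finset.sum_le_sum fun i _ => ?_
    rw [lintegral_const_mul _ (by fun_prop), mul_comm (11 * R),
      ENNReal.ofReal_mul (norm_nonneg _), ofReal_norm]
    gcongr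
    exact ker z (τ i) R hR
  have h6 := h4.trans (add_le_add hB h5)
  have h7 : 0 ≤ 11 * R * ∑ i ∈ T, ‖(deriv G (τ i))⁻¹‖ :=
    mul_nonneg (by positivity) (Finset.sum_nonneg fun _ _ => norm_nonneg _)
  rwa [← ENNReal.ofReal_add hB0 h7, ENNReal.ofReal_le_ofReal_iff (add_nonneg hB0 h7)] at h6

theorem rep {ι : Type*} (G : ℂ → ℂ) (hG : Differentiable ℂ G) (a : ℂ) (τ : ι → ℂ)
    (hinj : Function.Injective τ) (hτ : ∀ i, G (τ i) = a) (hsurj : ∀ ζ, G ζ = a → ∃ i, τ i = ζ)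
    (hd : ∀ i, deriv G (τ i) ≠ 0) (h0 : ∀ i, τ i ≠ 0) (hfin : ∀ R : ℝ, {i | ‖τ i‖ ≤ R}.Finite)
    (hsum : Summable fun i => ‖(deriv G (τ i))⁻¹‖ / ‖τ i‖ ^ 2) (C : ℝ) (hC0 : 0 ≤ C)
    (hC : ∀ R : ℝ, 1 ≤ R →
      ∫⁻ ζ in ball 0 R, (‖G ζ - a‖ₑ)⁻¹ ≤ ENNReal.ofReal (C * R ^ (5 / 2 : ℝ)))
    (z : ℂ) (hz : G z ≠ a) :
    HasSum (fun i => (deriv G (τ i))⁻¹ / (z - τ i) ^ 2) (deriv G z / (G z - a) ^ 2) := by
  classical
  set c : ι → ℂ := fun i => (deriv G (τ i))⁻¹ with hc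
  have hs : Summable fun i => c i / (z - τ i) ^ 2 := by
    refine Summable.of_norm_bounded_eventually (hsum.mul_left 4) ?_
    filter_upwards [(hfin (2 * ‖z‖)).compl_mem_cofinite] with i hi
    have h1 : 2 * ‖z‖ < ‖τ i‖ := not_le.1 hi
    have h2 : ‖τ i‖ / 2 ≤ ‖z - τ i‖ := by
      have := norm_sub_norm_le (τ i) z
      rw [norm_sub_rev] at this
      linarith
    have h3 : 0 < ‖τ i‖ := norm_pos_iff.2 (h0 i)
    rw [norm_div, norm_pow]
    calc ‖c i‖ / ‖z - τ i‖ ^ 2 ≤ ‖c i‖ / (‖τ i‖ / 2) ^ 2 := by gcongr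
      _ = 4 * (‖c i‖ / ‖τ i‖ ^ 2) := by field_simp; norm_num
  set T : ℝ → Finset ι := fun R => (hfin (2 * R)).toFinset with hT
  have hmem : ∀ R i, i ∈ T R ↔ ‖τ i‖ ≤ 2 * R := fun R i => by simp [hT]
  have hTt : Tendsto T atTop atTop := by
    refine tendsto_atTop_finset_of_monotone (fun R R' h i hi => ?_) fun i => ⟨‖τ i‖, ?_⟩
    · rw [hmem] at hi ⊢; linarith
    · rw [hmem]; linarith [norm_nonneg (τ i)]
  have h1 : Tendsto (fun R => ∑ i ∈ T R, c i / (z - τ i) ^ 2) atTop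
      (𝓝 (∑' i, c i / (z - τ i) ^ 2)) := hs.hasSum.comp hTt
  have h2 : Tendsto (fun R : ℝ => ∑' i, if ‖τ i‖ ≤ 2 * R then ‖c i‖ / R ^ 2 else 0) atTop
      (𝓝 (∑' _i : ι, (0 : ℝ))) := by
    refine tendsto_tsum_of_dominated_convergence (hsum.mul_left 4) (fun i => ?_) ?_
    · have h3 : Tendsto (fun R : ℝ => ‖c i‖ / R ^ 2) atTop (𝓝 0) :=
        tendsto_const_nhds.div_atTop (tendsto_pow_atTop two_ne_zero)
      refine h3.congr' ?_
      filter_upwards [eventually_ge_atTop ‖τ i‖] with R hR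
      rw [if_pos (by linarith [norm_nonneg (τ i)])]
    · filter_upwards [eventually_gt_atTop 0] with R hR i
      have h3 : 0 < ‖τ i‖ := norm_pos_iff.2 (h0 i)
      split_ifs with h
      · rw [Real.norm_eq_abs, abs_of_nonneg (by positivity)]
        calc ‖c i‖ / R ^ 2 ≤ ‖c i‖ / (‖τ i‖ / 2) ^ 2 := by gcongr; linarith
          _ = 4 * (‖c i‖ / ‖τ i‖ ^ 2) := by field_simp; norm_num
      · rw [norm_zero]; positivity
  have h3 : Tendsto (fun R : ℝ => 2 * C * 2 ^ (5 / 2 : ℝ) * R ^ (-(1 / 2) : ℝ)) atTop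
      (𝓝 (2 * C * 2 ^ (5 / 2 : ℝ) * 0)) :=
    (tendsto_rpow_neg_atTop (by norm_num)).const_mul _
  have h4 := h3.add (h2.const_mul 22)
  simp only [tsum_zero, mul_zero, add_zero] at h4
  have h5 : Tendsto (fun R => deriv G z / (G z - a) ^ 2 - ∑ i ∈ T R, c i / (z - τ i) ^ 2) atTop
      (𝓝 0) := by
    refine squeeze_zero_norm' ?_ h4
    filter_upwards [eventually_ge_atTop (max 1 ‖z‖)] with R hR
    have hR1 : 1 ≤ R := (le_max_left _ _).trans hR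
    have hRz : ‖z‖ ≤ R := (le_max_right _ _).trans hR
    have hsub : ball z R ⊆ ball 0 (2 * R) := ball_subset_ball' (by simp; linarith)
    have h6 := trunc_est G hG a τ hinj hτ hd z hz R (by linarith) (T R) (fun ζ hζ h => by
      obtain ⟨i, rfl⟩ := hsurj ζ h
      exact ⟨i, (hmem R i).2 (mem_ball_zero_iff.1 (hsub hζ)).le, rfl⟩)
      (C * (2 * R) ^ (5 / 2 : ℝ)) (by positivity)
      ((lintegral_mono_set hsub).trans (hC _ (by linarith)))
    have h7 : (∑' i, if ‖τ i‖ ≤ 2 * R then ‖c i‖ / R ^ 2 else 0)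
        = (∑ i ∈ T R, ‖c i‖) / R ^ 2 := by
      rw [tsum_eq_sum (s := T R) fun i hi => if_neg (by rwa [← hmem]), Finset.sum_div]
      exact Finset.sum_congr rfl fun i hi => if_pos ((hmem R i).1 hi)
    have h8 : (2 * R) ^ (5 / 2 : ℝ) = 2 ^ (5 / 2 : ℝ) * R ^ (-(1 / 2) : ℝ) * R ^ 3 := by
      rw [Real.mul_rpow (by norm_num) (by linarith), mul_assoc, ← Real.rpow_natCast R 3,
        ← Real.rpow_add (by linarith)]
      norm_num
    rw [h7]
    rw [h8] at h6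
    refine le_of_mul_le_mul_left (h6.trans (le_of_eq ?_)) (show 0 < R ^ 3 / 2 by positivity)
    change _ + 11 * R * ∑ i ∈ T R, ‖c i‖ = _
    field_simp
    ring
  have h6 := tendsto_nhds_unique h5 (tendsto_const_nhds.sub h1)
  rw [eq_comm, sub_eq_zero] at h6
  rw [h6]
  exact hs.hasSum

end Pool.Agent.Lib.H3CK
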