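import Mathlib

set_option autoImplicit false

/-! The primitive of `exp (exp z)` and the location of its `a`-points. -/

namespace Pool.Agent.Lib.H3CK

open Complex Metric Set Filter Topology MeasureTheory
open scoped Real

theorem exists_EE : ∃ E : ℂ → ℂ, E 0 = 0 ∧ ∀ s, HasDerivAt E (dslope cexp 0 s) s := by
  have h1 : Differentiable ℂ (dslope cexp 0) := differentiableOn_univ.1
    ((Complex.differentiableOn_dslope univ_mem).2 Complex.differentiable_exp.differentiableOn)
  obtain ⟨E, hE⟩ := h1.isExactOn_univ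
  exact ⟨fun s => E s - E 0, sub_self _, fun s => (hE s (mem_univ s)).sub_const _⟩

/-- The primitive of `(exp s - 1) / s`. -/
noncomputable def EE : ℂ → ℂ := exists_EE.choose

theorem EE_deriv (s : ℂ) : HasDerivAt EE (dslope cexp 0 s) s := exists_EE.choose_spec.2 s

theorem mul_dslope (s : ℂ) : s * dslope cexp 0 s = cexp s - 1 := by
  simpa using sub_smul_dslope cexp 0 s

theorem EE_real (x : ℝ) : (EE x).im = 0 := by
  have h1 : ∀ y : ℝ, HasDerivAt (fun y : ℝ => (EE y).im) 0 y := by
    intro y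
    have h2 := Complex.imCLM.hasFDerivAt.comp_hasDerivAt y (EE_deriv y).comp_ofReal
    have h3 : (dslope cexp 0 (y : ℂ)).im = 0 := by
      rcases eq_or_ne y 0 with rfl | hy
      · simp
      · have h4 : (y : ℂ) ≠ 0 := by exact_mod_cast hy
        have h5 : dslope cexp 0 (y : ℂ) = (((Real.exp y - 1) / y : ℝ) : ℂ) := by
          push_cast
          rw [← mul_dslope]; field_simp
        rw [h5, Complex.ofReal_im]
    simpa [h3, Function.comp_def] using h2
  have h2 := is_const_of_deriv_eq_zero (fun y => (h1 y).differentiableAt) (fun y => (h1 y).deriv)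
    x 0
  have h3 : EE 0 = 0 := exists_EE.choose_spec.1
  simpa [h3] using h2

/-- A primitive of `exp (exp z)`. -/
noncomputable def GG (z : ℂ) : ℂ := z + EE (cexp z)

theorem GG_deriv (z : ℂ) : HasDerivAt GG (cexp (cexp z)) z := by
  have h := (hasDerivAt_id z).fun_add ((EE_deriv (cexp z)).comp z (Complex.hasDerivAt_exp z))
  rw [mul_comm, mul_dslope, add_sub_cancel] at h
  exact h

theorem GG_diff : Differentiable ℂ GG := fun z => (GG_deriv z).differentiableAt

theorem GG_vert (x y₁ y₂ : ℝ) (h : y₁ ≤ y₂) : ‖GG (x + y₂ * I) - GG (x + y₁ * I)‖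
    ≤ ∫ φ in y₁..y₂, Real.exp (Real.exp x * Real.cos φ) := by
  have h1 : ∀ y : ℝ, HasDerivAt (fun y : ℝ => GG (x + y * I))
      (cexp (cexp (x + y * I)) * I) y := by
    intro y
    have h2 : HasDerivAt (fun w : ℂ => GG (x + w * I)) (cexp (cexp (x + y * I)) * I) y := by
      simpa [Function.comp_def] using
        (GG_deriv (x + y * I)).comp (y : ℂ) (((hasDerivAt_id (y : ℂ)).mul_const I).const_add (x : ℂ))
    exact h2.comp_ofReal
  rw [← intervalIntegral.integral_eq_sub_of_hasDerivAt (fun y _ => h1 y)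
    (Continuous.intervalIntegrable (by fun_prop) _ _)]
  refine (intervalIntegral.norm_integral_le_integral_norm h).trans (le_of_eq ?_)
  congr 1
  funext y
  rw [norm_mul, Complex.norm_I, mul_one, Complex.norm_exp, Complex.exp_re]
  simp

theorem GG_im_pi (x : ℝ) : (GG (x + π * I)).im = π := by
  have h : cexp (x + π * I) = ((-Real.exp x : ℝ) : ℂ) := by
    rw [Complex.exp_add, Complex.exp_pi_mul_I]; simp
  rw [GG, h, Complex.add_im, EE_real]; simp

theorem GG_im_neg_pi (x : ℝ) : (GG (x + (-π : ℝ) * I)).im = -π := by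
  have h : cexp (x + (-π : ℝ) * I) = ((-Real.exp x : ℝ) : ℂ) := by
    rw [Complex.exp_add]
    push_cast
    rw [neg_mul, Complex.exp_neg, Complex.exp_pi_mul_I]; simp
  rw [GG, h, Complex.add_im, EE_real]; simp

theorem int_left (ρ α : ℝ) (hρ : 0 ≤ ρ) (h1 : π / 2 ≤ α) (h2 : α ≤ π) :
    ∫ φ in α..π, Real.exp (ρ * Real.cos φ) ≤ π - α := by
  have h := intervalIntegral.integral_mono_on (μ := volume) h2
    (f := fun φ => Real.exp (ρ * Real.cos φ)) (g := fun _ => (1 : ℝ))
    (Continuous.intervalIntegrable (by fun_prop) _ _) intervalIntegrable_const fun φ hφ => by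
      rw [Real.exp_le_one_iff]
      exact mul_nonpos_of_nonneg_of_nonpos hρ (Real.cos_nonpos_of_pi_div_two_le_of_le
        (h1.trans hφ.1) (by linarith [hφ.2, Real.pi_pos]))
  simpa using h

theorem int_right (ρ α D : ℝ) (hρ : 0 ≤ ρ) (h1 : 0 ≤ α) (h2 : α ≤ π / 2)
    (hD : D + π / 2 ≤ ∫ φ in α..π, Real.exp (ρ * Real.cos φ)) :
    D * (1 + ρ * Real.sin α) ≤ 3 * Real.exp (ρ * Real.cos α) := by
  have hc : Continuous fun φ => Real.exp (ρ * Real.cos φ) := by fun_prop
  have hpi := Real.pi_pos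
  rw [← intervalIntegral.integral_add_adjacent_intervals (b := π / 2)
    (hc.intervalIntegrable _ _) (hc.intervalIntegrable _ _)] at hD
  have h3 := int_left ρ (π / 2) hρ le_rfl (by linarith)
  set J := ∫ φ in α..π / 2, Real.exp (ρ * Real.cos φ) with hJ
  have h4 : D ≤ J := by linarith
  have h5 : J ≤ 2 * Real.exp (ρ * Real.cos α) := by
    have h := intervalIntegral.integral_mono_on (μ := volume) h2
      (f := fun φ => Real.exp (ρ * Real.cos φ)) (g := fun _ => Real.exp (ρ * Real.cos α))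
      (hc.intervalIntegrable _ _) intervalIntegrable_const fun φ hφ => by
        have := Real.cos_le_cos_of_nonneg_of_le_pi h1 (by linarith [hφ.2]) hφ.1
        gcongr
    simp only [intervalIntegral.integral_const, smul_eq_mul] at h
    have h6 := Real.exp_pos (ρ * Real.cos α)
    nlinarith [Real.pi_le_four]
  have h6 : ρ * Real.sin α * J ≤ Real.exp (ρ * Real.cos α) := by
    have h7 : ∀ φ : ℝ, HasDerivAt (fun φ => -Real.exp (ρ * Real.cos φ))
        (ρ * Real.sin φ * Real.exp (ρ * Real.cos φ)) φ := by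
      intro φ
      exact ((((Real.hasDerivAt_cos φ).const_mul ρ).exp).fun_neg).congr_deriv (by ring)
    have h8 := intervalIntegral.integral_eq_sub_of_hasDerivAt (a := α) (b := π / 2)
      (fun φ _ => h7 φ) (Continuous.intervalIntegrable (by fun_prop) _ _)
    rw [hJ, ← intervalIntegral.integral_const_mul]
    have h := intervalIntegral.integral_mono_on (μ := volume) h2
      (f := fun φ => ρ * Real.sin α * Real.exp (ρ * Real.cos φ))
      (g := fun φ => ρ * Real.sin φ * Real.exp (ρ * Real.cos φ))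
      (Continuous.intervalIntegrable (by fun_prop) _ _)
      (Continuous.intervalIntegrable (by fun_prop) _ _) fun φ hφ => by
        have := Real.sin_le_sin_of_le_of_le_pi_div_two (by linarith) hφ.2 hφ.1
        gcongr
    linarith [Real.exp_pos (ρ * Real.cos (π / 2))]
  have h7 : 0 ≤ ρ * Real.sin α :=
    mul_nonneg hρ (Real.sin_nonneg_of_nonneg_of_le_pi h1 (by linarith))
  nlinarith

/-- The strip containing a point. -/
noncomputable def jj (t : ℂ) : ℤ := ⌊(t.im + π) / (2 * π)⌋

theorem jj_spec (t : ℂ) : -π ≤ t.im - 2 * π * jj t ∧ t.im - 2 * π * jj t < π := by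
  have h0 : 0 < 2 * π := Real.two_pi_pos
  have h1 := Int.floor_le ((t.im + π) / (2 * π))
  have h2 := Int.lt_floor_add_one ((t.im + π) / (2 * π))
  rw [le_div_iff₀ h0] at h1
  rw [div_lt_iff₀ h0] at h2
  unfold jj
  constructor <;> linarith

theorem exp_shift (t : ℂ) : cexp (t.re + (t.im - 2 * π * jj t : ℝ) * I) = cexp t := by
  rw [← Complex.exp_periodic.int_mul (jj t)]
  congr 1
  apply Complex.ext <;> simp
  ring

theorem GG_shift (t : ℂ) :
    GG (t.re + (t.im - 2 * π * jj t : ℝ) * I) = GG t - 2 * π * jj t * I := by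
  rw [GG, GG, exp_shift]
  apply Complex.ext <;> simp
  ring

theorem odd_bound (j : ℤ) (s b : ℝ) (hs : s = 1 ∨ s = -1) (hb : |b| ≤ 1) :
    (1 + |(j : ℝ)|) / 4 + π / 2 ≤ |s * π - (b - 2 * π * j)| := by
  have hpi := Real.pi_gt_d2
  have h1 : 1 ≤ |s + 2 * j| := by
    rcases hs with rfl | rfl
    · exact_mod_cast Int.one_le_abs (show (1 : ℤ) + 2 * j ≠ 0 by omega)
    · exact_mod_cast Int.one_le_abs (show (-1 : ℤ) + 2 * j ≠ 0 by omega)
  have h2 : 2 * |(j : ℝ)| ≤ |s + 2 * j| + 1 := by
    have h3 : |s| = 1 := by rcases hs with rfl | rfl <;> simp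
    have h4 := abs_sub (s + 2 * j) s
    rw [add_sub_cancel_left, abs_mul, abs_two, h3] at h4
    exact h4
  have h3 : π * |s + 2 * j| ≤ |s * π - (b - 2 * π * j)| + 1 := by
    have h4 := abs_add_le (s * π - (b - 2 * π * j)) b
    rw [show s * π - (b - 2 * π * j) + b = π * (s + 2 * j) by ring, abs_mul,
      abs_of_pos Real.pi_pos] at h4
    linarith
  nlinarith

theorem sol_est (a t : ℂ) (ha : ‖a‖ < 1) (ht : GG t = a) :
    |t.im - 2 * π * jj t| < π / 2 ∧
    (1 + |(jj t : ℝ)|) * (1 + |(cexp t).im|) ≤ 12 * Real.exp (cexp t).re := by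
  obtain ⟨h1, h2⟩ := jj_spec t
  have hsh := GG_shift t
  have hex := exp_shift t
  set θ := t.im - 2 * π * jj t with hθ
  have hb : |a.im| ≤ 1 := (Complex.abs_im_le_norm a).trans ha.le
  have him : (GG (t.re + θ * I)).im = a.im - 2 * π * jj t := by rw [hsh, ht]; simp
  have hI : (1 + |(jj t : ℝ)|) / 4 + π / 2
      ≤ ∫ φ in |θ|..π, Real.exp (Real.exp t.re * Real.cos φ) := by
    rcases le_total 0 θ with h | h
    · rw [abs_of_nonneg h]
      refine (odd_bound _ 1 _ (Or.inl rfl) hb).trans (le_trans ?_ (GG_vert t.re θ π h2.le))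
      refine le_trans (le_of_eq ?_) (Complex.abs_im_le_norm _)
      rw [Complex.sub_im, GG_im_pi, him, one_mul]
    · rw [abs_of_nonpos h]
      have h3 := intervalIntegral.integral_comp_neg (a := -θ) (b := π)
        (fun φ => Real.exp (Real.exp t.re * Real.cos φ))
      simp only [Real.cos_neg, neg_neg] at h3
      rw [h3]
      refine (odd_bound _ (-1) _ (Or.inr rfl) hb).trans (le_trans ?_ (GG_vert t.re (-π) θ h1))
      refine le_trans (le_of_eq ?_) (Complex.abs_im_le_norm _)
      rw [Complex.sub_im, GG_im_neg_pi, him, abs_sub_comm, neg_one_mul]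
  have hθπ : |θ| ≤ π := abs_le.2 ⟨h1, h2.le⟩
  have h3 : |θ| < π / 2 := by
    by_contra h
    have h4 := int_left (Real.exp t.re) |θ| (Real.exp_pos _).le (not_lt.1 h) hθπ
    have h5 := abs_nonneg (jj t : ℝ)
    linarith [not_lt.1 h]
  refine ⟨h3, ?_⟩
  have h4 := int_right _ _ _ (Real.exp_pos _).le (abs_nonneg θ) h3.le hI
  have h5 : (cexp t).re = Real.exp t.re * Real.cos |θ| := by
    rw [← hex, Complex.exp_re, Real.cos_abs]; simp
  have h6 : |(cexp t).im| = Real.exp t.re * Real.sin |θ| := by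
    rw [← hex, Complex.exp_im, abs_mul, abs_of_pos (Real.exp_pos _),
      ← Real.abs_sin_eq_sin_abs_of_abs_le_pi hθπ]
    simp
  rw [h5, h6]
  linarith

theorem sep (u v : ℂ) (hu : 0 < u.re) (hv : 0 < v.re) (h10 : 10 ≤ ‖u‖) (huv : ‖v - u‖ ≤ 1 / 4)
    (h : log u + EE u = log v + EE v) : u = v := by
  set s : Set ℂ := closedBall u (1 / 4) ∩ {w | 0 < w.re} with hs
  have hconv : Convex ℝ s := (convex_closedBall _ _).inter (convex_halfSpace_re_gt 0)
  have hder : ∀ w ∈ s, HasDerivWithinAt (fun w => u * cexp (-u) * (log w + EE w) - w)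
      (u * cexp (-u) * (w⁻¹ + dslope cexp 0 w) - 1) s w := fun w hw =>
    ((((Complex.hasDerivAt_log (Or.inl hw.2)).fun_add (EE_deriv w)).const_mul _).fun_sub
      (hasDerivAt_id w)).hasDerivWithinAt
  have hbd : ∀ w ∈ s, ‖u * cexp (-u) * (w⁻¹ + dslope cexp 0 w) - 1‖ ≤ 3 / 4 := by
    intro w hw
    have h1 : ‖w - u‖ ≤ 1 / 4 := mem_closedBall_iff_norm.1 hw.1
    have h2 : ‖u‖ ≤ ‖w‖ + 1 / 4 := by
      have := norm_sub_norm_le u w
      rw [norm_sub_rev] at this
      linarith
    have h3 : 0 < ‖w‖ := by linarith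
    have h4 : w ≠ 0 := norm_pos_iff.1 h3
    have h5 : u * cexp (-u) * (w⁻¹ + dslope cexp 0 w) - 1
        = ((cexp (w - u) - 1) * u - (w - u)) / w := by
      rw [eq_div_iff h4, sub_eq_add_neg w u, Complex.exp_add]
      have h6 := mul_dslope w
      have h7 := inv_mul_cancel₀ h4
      linear_combination (u * cexp (-u)) * h6 + (u * cexp (-u)) * h7
    rw [h5, norm_div, div_le_iff₀ h3]
    have h6 := Complex.norm_exp_sub_one_le (x := w - u) (by linarith)
    have h7 : ‖(cexp (w - u) - 1) * u‖ ≤ 1 / 2 * ‖u‖ := by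
      rw [norm_mul]; gcongr; linarith
    linarith [norm_sub_le ((cexp (w - u) - 1) * u) (w - u)]
  have h1 := hconv.norm_image_sub_le_of_norm_hasDerivWithin_le hder hbd
    (show u ∈ s from ⟨mem_closedBall_self (by norm_num), hu⟩)
    (show v ∈ s from ⟨mem_closedBall_iff_norm.2 huv, hv⟩)
  rw [← h, show u * cexp (-u) * (log u + EE u) - v - (u * cexp (-u) * (log u + EE u) - u)
    = -(v - u) by ring, norm_neg] at h1
  have h2 : ‖v - u‖ = 0 := by linarith [norm_nonneg (v - u)]
  exact (sub_eq_zero.1 (norm_eq_zero.1 h2)).symm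

theorem sol_re_pos (a t : ℂ) (ha : ‖a‖ < 1) (ht : GG t = a) : 0 < (cexp t).re := by
  have h := abs_lt.1 (sol_est a t ha ht).1
  rw [← exp_shift, Complex.exp_re]
  have := Real.cos_pos_of_mem_Ioo h
  simp only [add_re, ofReal_re, mul_re, I_re, mul_zero, ofReal_im, I_im, mul_one, sub_self,
    add_zero, add_im, mul_im, zero_add]
  positivity

theorem sol_log (a t : ℂ) (ht : GG t = a) (ha : ‖a‖ < 1) :
    log (cexp t) + EE (cexp t) = a - 2 * π * jj t * I := by
  have h := abs_lt.1 (sol_est a t ha ht).1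
  have hpi := Real.pi_pos
  rw [← ht, ← GG_shift, GG, exp_shift]
  congr 1
  rw [← exp_shift]
  apply Complex.log_exp
  · simp only [add_im, ofReal_im, mul_im, ofReal_re, I_im, mul_one, I_re, mul_zero, add_zero,
      zero_add]
    linarith [h.1]
  · simp only [add_im, ofReal_im, mul_im, ofReal_re, I_im, mul_one, I_re, mul_zero, add_zero,
      zero_add]
    linarith [h.2]

theorem sol_finite (a : ℂ) (R : ℝ) : {t : ℂ | GG t = a ∧ ‖t‖ ≤ R}.Finite := by
  by_contra h
  obtain ⟨x, -, hx⟩ := Set.Infinite.exists_accPt_of_subset_isCompact h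
    (isCompact_closedBall (0 : ℂ) R) fun t ht => mem_closedBall_zero_iff.2 ht.2
  rw [accPt_iff_frequently_nhdsNE] at hx
  obtain ⟨w, h1, h2⟩ :=
    (hx.and_eventually ((GG_deriv x).eventually_ne (c := a) (Complex.exp_ne_zero _))).exists
  exact h2 h1.1

theorem small_finite (a : ℂ) : {t : ℂ | GG t = a ∧ ‖cexp t‖ < 10}.Finite := by
  obtain ⟨C, hC⟩ := (isCompact_closedBall (0 : ℂ) 10).exists_bound_of_continuousOn
    (f := EE) fun s _ => (EE_deriv s).continuousAt.continuousWithinAt
  refine (sol_finite a (‖a‖ + C)).subset fun t ht => ⟨ht.1, ?_⟩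
  have h1 : t = a - EE (cexp t) := by rw [← ht.1, GG]; ring
  rw [h1]
  linarith [norm_sub_le a (EE (cexp t)), hC _ (mem_closedBall_zero_iff.2 ht.2.le)]

end Pool.Agent.Lib.H3CK
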