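import Mathlib
import Pool.Agent.Lib.helper3.CKB
import Pool.Agent.Lib.helper3.CKC

set_option autoImplicit false

/-! Summability of the residues and the order of growth. -/

namespace Pool.Agent.Lib.H3CK

open Complex Metric Set Filter Topology MeasureTheory
open scoped Real

theorem summable_pow32 : Summable fun n : ℕ => ((1 + n : ℝ) ^ (3 / 2 : ℝ))⁻¹ := by
  have h := (summable_nat_add_iff 1).2 (Real.summable_nat_rpow_inv.2 (show (1 : ℝ) < 3 / 2 by norm_num))
  simpa [add_comm] using h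

theorem summable_log32 :
    Summable fun n : ℕ => ((1 + n : ℝ) * Real.log (n + 2) ^ (3 / 2 : ℝ))⁻¹ := by
  have hl : ∀ n : ℕ, 0 < Real.log (n + 2) := fun n =>
    Real.log_pos (by linarith [(Nat.cast_nonneg n : (0 : ℝ) ≤ n)])
  rw [← summable_condensed_iff_of_nonneg (fun n => by have := hl n; positivity)]
  · refine (summable_pow32.mul_left (3 ^ (3 / 2 : ℝ))).of_nonneg_of_le
      (fun k => by have := hl (2 ^ k); positivity) fun k => ?_
    have h1 : (1 + k : ℝ) / 3 ≤ Real.log ((2 ^ k : ℕ) + 2) := by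
      have h2 := Real.log_two_gt_d9
      have h3 : Real.log (2 ^ k) ≤ Real.log ((2 ^ k : ℕ) + 2) :=
        Real.log_le_log (by positivity) (by push_cast; linarith)
      have h4 : Real.log 2 ≤ Real.log ((2 ^ k : ℕ) + 2) :=
        Real.log_le_log (by positivity) (by linarith [(Nat.cast_nonneg (2 ^ k) : (0 : ℝ) ≤ _)])
      rw [Real.log_pow] at h3
      nlinarith [(Nat.cast_nonneg k : (0 : ℝ) ≤ k)]
    have h2 : ((1 + k : ℝ) / 3) ^ (3 / 2 : ℝ) ≤ Real.log ((2 ^ k : ℕ) + 2) ^ (3 / 2 : ℝ) := by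
      gcongr
    calc (2 : ℝ) ^ k * ((1 + (2 ^ k : ℕ) : ℝ) * Real.log ((2 ^ k : ℕ) + 2) ^ (3 / 2 : ℝ))⁻¹
        ≤ (2 : ℝ) ^ k * ((2 : ℝ) ^ k * ((1 + k : ℝ) / 3) ^ (3 / 2 : ℝ))⁻¹ := by
          gcongr
          push_cast; linarith
      _ = _ := by
          rw [Real.div_rpow (by positivity) (by norm_num)]
          field_simp
  · intro m n _ hmn
    have h1 := hl m
    have h2 : (m : ℝ) ≤ n := by exact_mod_cast hmn
    gcongr

theorem summable_natAbs {g : ℕ → ℝ} (h : Summable g) : Summable fun j : ℤ => g j.natAbs :=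
  summable_int_iff_summable_nat_and_neg.2 ⟨by simpa using h, by simpa using h⟩

/-- The horizontal cell index. -/
noncomputable def mm (t : ℂ) : ℤ := ⌊8 * (cexp t).im⌋

/-- The lower bound for `exp (Re (exp t))`. -/
noncomputable def PP (t : ℂ) : ℝ := (1 + (jj t).natAbs) * (1 + (mm t).natAbs) / 96

/-- The vertical cell index. -/
noncomputable def qq (t : ℂ) : ℕ := ⌊8 * ((cexp t).re - Real.log (PP t))⌋₊

theorem PP_pos (t : ℂ) : 0 < PP t := by unfold PP; positivity

theorem mm_le (t : ℂ) : ((mm t).natAbs : ℝ) ≤ 8 * |(cexp t).im| + 1 := by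
  rw [Nat.cast_natAbs, Int.cast_abs, abs_le]
  have h1 := Int.floor_le (8 * (cexp t).im)
  have h2 := Int.lt_floor_add_one (8 * (cexp t).im)
  unfold mm
  constructor <;> linarith [le_abs_self (cexp t).im, neg_abs_le (cexp t).im]

theorem log_PP_le (a t : ℂ) (ha : ‖a‖ < 1) (ht : GG t = a) : Real.log (PP t) ≤ (cexp t).re := by
  rw [Real.log_le_iff_le_exp (PP_pos t), PP, div_le_iff₀ (by norm_num), Nat.cast_natAbs,
    Int.cast_abs]
  have h1 := (sol_est a t ha ht).2
  have h2 := mm_le t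
  have h3 := abs_nonneg (jj t : ℝ)
  have h4 := abs_nonneg (cexp t).im
  nlinarith

theorem cell_inj (a t s : ℂ) (ha : ‖a‖ < 1) (ht : GG t = a) (hs : GG s = a) (h10 : 10 ≤ ‖cexp t‖)
    (hj : jj t = jj s) (hm : mm t = mm s) (hq : qq t = qq s) : t = s := by
  have hP : PP t = PP s := by rw [PP, PP, hj, hm]
  have h1 : |8 * (cexp s).im - 8 * (cexp t).im| < 1 := Int.abs_sub_lt_one_of_floor_eq_floor hm.symm
  have h2 : |8 * (cexp s).re - 8 * (cexp t).re| < 1 := by
    have a1 := log_PP_le a t ha ht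
    have a2 := log_PP_le a s ha hs
    have b1 := Nat.floor_le (show 0 ≤ 8 * ((cexp t).re - Real.log (PP t)) by linarith)
    have b2 := Nat.floor_le (show 0 ≤ 8 * ((cexp s).re - Real.log (PP s)) by linarith)
    have c1 := Nat.lt_floor_add_one (8 * ((cexp t).re - Real.log (PP t)))
    have c2 := Nat.lt_floor_add_one (8 * ((cexp s).re - Real.log (PP s)))
    unfold qq at hq
    rw [hq] at b1 c1
    rw [hP] at b1 c1
    rw [abs_lt]
    constructor <;> linarith
  have h3 : ‖cexp s - cexp t‖ ≤ 1 / 4 := by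
    refine (Complex.norm_le_abs_re_add_abs_im _).trans ?_
    rw [← mul_sub, abs_mul, abs_of_pos (by norm_num : (0 : ℝ) < 8)] at h1 h2
    rw [Complex.sub_re, Complex.sub_im]
    linarith
  have h4 := sep _ _ (sol_re_pos a t ha ht) (sol_re_pos a s ha hs) h10 h3
    (by rw [sol_log a t ht ha, sol_log a s hs ha, hj])
  have h5 : GG t = GG s := ht.trans hs.symm
  rw [GG, GG, h4] at h5
  exact add_right_cancel h5

theorem weight_le (a t : ℂ) (ha : ‖a‖ < 1) (ht : GG t = a) (h10 : 10 ≤ ‖cexp t‖) :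
    ‖(cexp (cexp t))⁻¹‖ / ‖t‖ ^ 2 ≤ 384 * (((1 + (jj t).natAbs : ℝ) ^ (3 / 2 : ℝ))⁻¹ *
      (((1 + (mm t).natAbs : ℝ) * Real.log ((mm t).natAbs + 2) ^ (3 / 2 : ℝ))⁻¹ *
        Real.exp (-1 / 8) ^ qq t)) := by
  set J : ℝ := 1 + (jj t).natAbs with hJ
  set M : ℝ := 1 + (mm t).natAbs with hM
  set L : ℝ := Real.log ((mm t).natAbs + 2) with hL
  have hJ0 : 0 < J := by positivity
  have hM0 : 0 < M := by positivity
  have hL0 : 0 < L := Real.log_pos (by linarith [(Nat.cast_nonneg (mm t).natAbs : (0 : ℝ) ≤ _)])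
  have h1 : ‖(cexp (cexp t))⁻¹‖ ≤ 96 / (J * M) * Real.exp (-1 / 8) ^ qq t := by
    have a1 := log_PP_le a t ha ht
    have b1 := Nat.floor_le (show 0 ≤ 8 * ((cexp t).re - Real.log (PP t)) by linarith)
    rw [norm_inv, Complex.norm_exp, ← Real.exp_neg, ← Real.exp_nat_mul,
      show 96 / (J * M) = (PP t)⁻¹ by rw [PP, inv_div], ← Real.exp_log (PP_pos t),
      ← Real.exp_neg, ← Real.exp_add, Real.exp_le_exp]
    unfold qq
    linarith
  rw [Complex.norm_exp] at h10
  have hx1 : 1 ≤ t.re := by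
    by_contra h
    have := Real.exp_le_exp.2 (not_le.1 h).le
    linarith [Real.exp_one_lt_d9]
  have hxN : t.re ≤ ‖t‖ := Complex.re_le_norm t
  have h2 : L / 2 ≤ ‖t‖ := by
    have h3 := mm_le t
    have h4 : |(cexp t).im| ≤ Real.exp t.re := by
      rw [← Complex.norm_exp]; exact Complex.abs_im_le_norm _
    have h5 : L ≤ Real.log (Real.exp t.re ^ 2) :=
      Real.log_le_log (by positivity) (by nlinarith)
    rw [Real.log_pow, Real.log_exp] at h5
    push_cast at h5
    linarith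
  have h3 : J / 2 ≤ ‖t‖ := by
    have h4 := (sol_est a t ha ht).1
    have h5 := Complex.abs_im_le_norm t
    have h6 := abs_sub t.im (t.im - 2 * π * jj t)
    rw [sub_sub_cancel, abs_mul, abs_of_pos Real.two_pi_pos] at h6
    rw [hJ, Nat.cast_natAbs, Int.cast_abs]
    have h7 := abs_nonneg (jj t : ℝ)
    nlinarith [Real.pi_gt_three, Real.pi_le_four]
  have hN : 0 < ‖t‖ := by linarith
  have h4 : L ^ (3 / 2 : ℝ) * J ^ (1 / 2 : ℝ) / 4 ≤ ‖t‖ ^ 2 := by
    calc _ = (L / 2) ^ (3 / 2 : ℝ) * (J / 2) ^ (1 / 2 : ℝ) := by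
          rw [Real.div_rpow hL0.le (by norm_num), Real.div_rpow hJ0.le (by norm_num),
            div_mul_div_comm, ← Real.rpow_add two_pos]
          norm_num
      _ ≤ ‖t‖ ^ (3 / 2 : ℝ) * ‖t‖ ^ (1 / 2 : ℝ) := by gcongr
      _ = _ := by rw [← Real.rpow_add hN]; norm_num
  have h5 : J ^ (3 / 2 : ℝ) = J * J ^ (1 / 2 : ℝ) := by
    rw [show (3 / 2 : ℝ) = 1 + 1 / 2 by norm_num, Real.rpow_add hJ0, Real.rpow_one]
  calc _ ≤ 96 / (J * M) * Real.exp (-1 / 8) ^ qq t / (L ^ (3 / 2 : ℝ) * J ^ (1 / 2 : ℝ) / 4) := by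
        gcongr
    _ = _ := by rw [h5]; field_simp; norm_num

theorem sol_summable (a : ℂ) (ha : ‖a‖ < 1) :
    Summable fun t : {t : ℂ // GG t = a} => ‖(cexp (cexp t))⁻¹‖ / ‖(t : ℂ)‖ ^ 2 := by
  have hfin : {t : {t : ℂ // GG t = a} | ‖cexp t‖ < 10}.Finite :=
    ((small_finite a).preimage Subtype.val_injective.injOn).subset fun t ht => ⟨t.2, ht⟩
  rw [← hfin.summable_compl_iff]
  have hgeo : Summable fun q : ℕ => Real.exp (-1 / 8) ^ q :=
    summable_geometric_of_lt_one (Real.exp_pos _).le (Real.exp_lt_one_iff.2 (by norm_num))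
  have hl : ∀ n : ℕ, 0 < Real.log (n + 2) := fun n =>
    Real.log_pos (by linarith [(Nat.cast_nonneg n : (0 : ℝ) ≤ n)])
  have h1 := (summable_natAbs summable_log32).mul_of_nonneg hgeo
    (fun m => by have := hl m.natAbs; positivity) fun _ => by positivity
  have h2 := ((summable_natAbs summable_pow32).mul_of_nonneg h1 (fun _ => by positivity)
    fun p => by have := hl p.1.natAbs; positivity).mul_left 384
  have hinj : Function.Injective
      fun t : ↥{t : {t : ℂ // GG t = a} | ‖cexp t‖ < 10}ᶜ => (jj t, mm t, qq t) := by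
    intro t s h
    simp only [Prod.mk.injEq] at h
    exact Subtype.ext (Subtype.ext
      (cell_inj a _ _ ha t.1.2 s.1.2 (not_lt.1 t.2) h.1 h.2.1 h.2.2))
  exact (h2.comp_injective hinj).of_nonneg_of_le (fun _ => by simp only [Function.comp]; positivity)
    fun t => weight_le a _ ha t.1.2 (not_lt.1 t.2)

/-- The reciprocal of the example. -/
noncomputable def kk (a z : ℂ) : ℂ := (GG z - a) ^ 2 / cexp (cexp z)

theorem kk_diff (a : ℂ) : Differentiable ℂ (kk a) :=
  ((GG_diff.sub_const a).fun_pow 2).fun_div (by fun_prop) fun _ => Complex.exp_ne_zero _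

theorem kk_lower (a : ℂ) (ha : ‖a‖ < 1) (x y : ℝ) (h1 : π - 1 / 2 ≤ y) (h2 : y ≤ π) :
    Real.exp x / 2 ≤ Real.posLog ‖kk a (x + y * I)‖ := by
  have hpi := Real.pi_gt_three
  have h3 := (GG_vert x y π h2).trans (int_left _ _ (Real.exp_pos x).le (by linarith) h2)
  have h4 : 1 ≤ ‖GG (x + y * I) - a‖ := by
    have h5 := abs_le.1 ((Complex.abs_im_le_norm _).trans h3)
    rw [Complex.sub_im, GG_im_pi] at h5
    have h6 := abs_lt.1 ((Complex.abs_im_le_norm a).trans_lt ha)
    refine le_trans ?_ ((le_abs_self _).trans (Complex.abs_im_le_norm _))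
    rw [Complex.sub_im]
    linarith [h5.2, h6.2]
  have h5 : Real.cos y ≤ -1 / 2 := by
    have h6 := Real.one_sub_sq_div_two_le_cos (x := π - y)
    rw [Real.cos_pi_sub] at h6
    nlinarith
  have h6 : Real.exp (Real.exp x / 2) ≤ ‖kk a (x + y * I)‖ := by
    rw [kk, norm_div, norm_pow, Complex.norm_exp, Complex.exp_re, le_div_iff₀ (Real.exp_pos _),
      ← Real.exp_add]
    refine le_trans (Real.exp_le_one_iff.2 ?_) (one_le_pow₀ h4)
    simp only [add_re, ofReal_re, mul_re, I_re, mul_zero, ofReal_im, I_im, mul_one, sub_self,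
      add_zero, add_im, mul_im, zero_add]
    nlinarith [Real.exp_pos x]
  calc Real.exp x / 2 = Real.log (Real.exp (Real.exp x / 2)) := (Real.log_exp _).symm
    _ ≤ Real.log ‖kk a (x + y * I)‖ := Real.log_le_log (Real.exp_pos _) h6
    _ ≤ _ := le_max_right _ _

theorem prox_lower (a : ℂ) (ha : ‖a‖ < 1) (r : ℝ) (hr : 10 ≤ r) :
    Real.exp (r - 1) / (160 * r) ≤ ValueDistribution.proximity (kk a) ⊤ r := by
  have hr0 : 0 < r := by linarith
  have hpi := Real.pi_gt_d2
  have hpi' := Real.pi_lt_d2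
  rw [ValueDistribution.proximity_top, Real.circleAverage_def, smul_eq_mul]
  have hc : Continuous fun θ => Real.posLog ‖kk a (circleMap 0 r θ)‖ :=
    Real.continuous_posLog.comp ((kk_diff a).continuous.comp (continuous_circleMap 0 r)).norm
  have e1 : (0 : ℝ) < 3 / r := by positivity
  have e2 : 3 / r ≤ 3.1 / r := by gcongr; norm_num
  have e3 : 3.1 / r ≤ 1 := by rw [div_le_one hr0]; linarith
  have h1 : ∫ θ in (3 / r)..(3.1 / r), Real.posLog ‖kk a (circleMap 0 r θ)‖
      ≤ ∫ θ in (0 : ℝ)..2 * π, Real.posLog ‖kk a (circleMap 0 r θ)‖ :=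
    intervalIntegral.integral_mono_interval e1.le e2 (by linarith)
      (Eventually.of_forall fun _ => Real.posLog_nonneg) (hc.intervalIntegrable _ _)
  have h2 := intervalIntegral.integral_mono_on (μ := volume) e2
    (f := fun _ => Real.exp (r - 1) / 2) (g := fun θ => Real.posLog ‖kk a (circleMap 0 r θ)‖)
    intervalIntegrable_const (hc.intervalIntegrable _ _) fun θ hθ => by
      have g0 : 0 < θ := e1.trans_le hθ.1
      have g1 : 3 ≤ θ * r := (div_le_iff₀ hr0).1 hθ.1
      have g2 : θ * r ≤ 3.1 := (le_div_iff₀ hr0).1 hθ.2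
      have g3 : θ ≤ 0.31 := by nlinarith
      have g4 := Real.sin_gt_sub_cube g0
      have g5 := Real.sin_le g0.le
      have g6 := Real.one_sub_sq_div_two_le_cos (x := θ)
      have g7 : circleMap 0 r θ = (r * Real.cos θ : ℝ) + (r * Real.sin θ : ℝ) * I := by
        rw [circleMap, Complex.exp_mul_I]; push_cast; ring
      have g8 : r * θ ^ 3 ≤ 0.31 := by nlinarith
      rw [g7]
      refine le_trans ?_ (kk_lower a ha _ _ (by nlinarith) (by nlinarith))
      have g9 : r - 1 ≤ r * Real.cos θ := by nlinarith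
      gcongr
  simp only [intervalIntegral.integral_const, smul_eq_mul] at h2
  calc Real.exp (r - 1) / (160 * r) = 8⁻¹ * ((3.1 / r - 3 / r) * (Real.exp (r - 1) / 2)) := by
        field_simp; norm_num
    _ ≤ (2 * π)⁻¹ * ((3.1 / r - 3 / r) * (Real.exp (r - 1) / 2)) := by
        have : 0 ≤ (3.1 / r - 3 / r) * (Real.exp (r - 1) / 2) :=
          mul_nonneg (by linarith) (by positivity)
        gcongr
        linarith
    _ ≤ _ := by gcongr; exact h2.trans h1

theorem char_large (a : ℂ) (ha : ‖a‖ < 1) (ρ R : ℝ) :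
    ∃ r > R, r ≠ 0 ∧ r ^ ρ < ValueDistribution.characteristic (kk a)⁻¹ ⊤ r := by
  have hm : Meromorphic (kk a) := fun z => ((kk_diff a).analyticAt z).meromorphicAt
  set C := max |Real.log ‖kk a 0‖| |Real.log ‖meromorphicTrailingCoeffAt (kk a) 0‖| with hC
  have hC0 : 0 ≤ C := le_max_of_le_left (abs_nonneg _)
  have h1 := (tendsto_exp_div_rpow_atTop (max ρ 0 + 1)).eventually_gt_atTop
    ((1 + C) * 160 * Real.exp 1)
  obtain ⟨r, h2, h3, h4⟩ := (h1.and ((eventually_gt_atTop R).and (eventually_ge_atTop 10))).exists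
  have hr0 : 0 < r := by linarith
  refine ⟨r, h3, hr0.ne', ?_⟩
  have h5 := abs_le.1 (ValueDistribution.characteristic_sub_characteristic_inv_le (R := r) hm)
  have h6 : ValueDistribution.proximity (kk a) ⊤ r ≤ ValueDistribution.characteristic (kk a) ⊤ r :=
    le_add_of_nonneg_right (ValueDistribution.logCounting_nonneg (by linarith))
  have h7 := prox_lower a ha r h4
  have h8 : r ^ ρ ≤ r ^ max ρ 0 := Real.rpow_le_rpow_of_exponent_le (by linarith) (le_max_left _ _)
  have h9 : 1 ≤ r ^ max ρ 0 := Real.one_le_rpow (by linarith) (le_max_right _ _)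
  have h10 : (1 + C) * r ^ max ρ 0 < Real.exp (r - 1) / (160 * r) := by
    rw [lt_div_iff₀ (by positivity), Real.rpow_add hr0, Real.rpow_one] at h2
    rw [lt_div_iff₀ (by positivity), Real.exp_sub, lt_div_iff₀ (Real.exp_pos _)]
    linarith
  nlinarith [h5.2]

theorem main_thm : ∃ (c t : ℕ → ℂ), (∀ n, t n ≠ 0) ∧ Tendsto t atTop (cocompact ℂ) ∧
    Summable (fun n => ‖c n‖ / ‖t n‖ ^ 2) ∧
    (∀ ρ : ℝ, ∀ R : ℝ, ∃ r > R,
      r ^ ρ < ValueDistribution.characteristic (fun z : ℂ => ∑' n, c n / (z - t n) ^ 2) ⊤ r) ∧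
    {z : ℂ | 0 < meromorphicOrderAt (fun w : ℂ => ∑' n, c n / (w - t n) ^ 2) z}.Finite := by
  obtain ⟨a, ha, ha0, C, hC0, hC⟩ := exists_good GG GG_diff.continuous (GG 0)
  have hder : ∀ z, deriv GG z = cexp (cexp z) := fun z => (GG_deriv z).deriv
  have hfin : ∀ R : ℝ, {i : {t : ℂ // GG t = a} | ‖(i : ℂ)‖ ≤ R}.Finite := fun R =>
    ((sol_finite a R).preimage Subtype.val_injective.injOn).subset fun t ht => ⟨t.2, ht⟩
  have h0 : ∀ i : {t : ℂ // GG t = a}, (i : ℂ) ≠ 0 := fun i h => ha0 (by rw [← h, i.2])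
  have hrep := rep GG GG_diff a (Subtype.val : {t : ℂ // GG t = a} → ℂ) Subtype.val_injective
    (fun i => i.2) (fun ζ h => ⟨⟨ζ, h⟩, rfl⟩) (fun i => by rw [hder]; exact Complex.exp_ne_zero _)
    h0 hfin (by simpa only [hder] using sol_summable a ha) C hC0 hC
  simp only [hder] at hrep
  have hcount : Countable {t : ℂ // GG t = a} := by
    rw [← countable_univ_iff]
    refine (countable_iUnion fun n : ℕ => (hfin n).countable).mono fun i _ => ?_
    obtain ⟨n, hn⟩ := exists_nat_ge ‖(i : ℂ)‖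
    exact mem_iUnion.2 ⟨n, hn⟩
  obtain ⟨e, he⟩ := exists_injective_nat {t : ℂ // GG t = a}
  set c : ℕ → ℂ := Function.extend e (fun i => (cexp (cexp i))⁻¹) 0 with hc
  set t : ℕ → ℂ := Function.extend e Subtype.val fun n => (n : ℂ) + 1 with ht
  have hce : ∀ i, c (e i) = (cexp (cexp i))⁻¹ := fun i => he.extend_apply _ _ i
  have hte : ∀ i, t (e i) = i := fun i => he.extend_apply _ _ i
  have hc0 : ∀ n, n ∉ range e → c n = 0 := fun n hn => Function.extend_apply' _ _ _ hn
  have ht0 : ∀ n, n ∉ range e → t n = n + 1 := fun n hn => Function.extend_apply' _ _ _ hn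
  have hf : ∀ z, GG z ≠ a → ∑' n, c n / (z - t n) ^ 2 = (kk a)⁻¹ z := by
    intro z hz
    have h1 : HasSum (fun n => c n / (z - t n) ^ 2) (cexp (cexp z) / (GG z - a) ^ 2) := by
      rw [← he.hasSum_iff fun n hn => by rw [hc0 n hn, zero_div]]
      simpa only [Function.comp_def, hce, hte] using hrep z hz
    rw [h1.tsum_eq, Pi.inv_apply, kk, inv_div]
  have hev : ∀ z, (fun w : ℂ => ∑' n, c n / (w - t n) ^ 2) =ᶠ[𝓝[≠] z] (kk a)⁻¹ := fun z =>
    ((GG_deriv z).eventually_ne (c := a) (Complex.exp_ne_zero _)).mono hf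
  refine ⟨c, t, fun n => ?_, ?_, ?_, fun ρ R => ?_, ?_⟩
  · by_cases hn : n ∈ range e
    · obtain ⟨i, rfl⟩ := hn
      rw [hte]; exact h0 i
    · rw [ht0 n hn]; exact Nat.cast_add_one_ne_zero n
  · rw [← Metric.cobounded_eq_cocompact, ← tendsto_norm_atTop_iff_cobounded,
      Filter.tendsto_atTop,
      ← Nat.cofinite_eq_atTop]
    intro R
    obtain ⟨N, hN⟩ := exists_nat_ge R
    refine ((((hfin R).image e).union (finite_lt_nat N)).subset fun n hn => ?_)
    have hn' : ‖t n‖ < R := not_le.1 hn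
    by_cases h : n ∈ range e
    · obtain ⟨i, rfl⟩ := h
      rw [hte] at hn'
      exact Or.inl ⟨i, hn'.le, rfl⟩
    · rw [ht0 n h, show (n : ℂ) + 1 = ((n + 1 : ℕ) : ℂ) by push_cast; rfl,
        Complex.norm_natCast] at hn'
      have h1 : ((n + 1 : ℕ) : ℝ) < N := hn'.trans_le hN
      have h2 : n + 1 < N := by exact_mod_cast h1
      exact Or.inr (show n < N by omega)
  · rw [← he.summable_iff fun n hn => by rw [hc0 n hn, norm_zero, zero_div]]
    simpa only [Function.comp_def, hce, hte] using sol_summable a ha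
  · obtain ⟨r, h1, h2, h3⟩ := char_large a ha ρ R
    refine ⟨r, h1, ?_⟩
    rwa [ValueDistribution.characteristic_congr_codiscrete (g := (kk a)⁻¹) ?_ h2]
    rw [EventuallyEq, Filter.Eventually, mem_codiscrete]
    intro z
    rw [disjoint_principal_right, compl_compl]
    exact hev z
  · refine finite_empty.subset fun z hz => ?_
    have han := (kk_diff a).analyticAt z
    have h1 : 0 ≤ meromorphicOrderAt (kk a) z := han.meromorphicOrderAt_nonneg
    have h2 : meromorphicOrderAt (kk a) z ≠ ⊤ := by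
      rw [meromorphicOrderAt_ne_top_iff_eventually_ne_zero han.meromorphicAt]
      filter_upwards [(GG_deriv z).eventually_ne (c := a) (Complex.exp_ne_zero _)] with w hw
      exact div_ne_zero (pow_ne_zero _ (sub_ne_zero.2 hw)) (Complex.exp_ne_zero _)
    rw [mem_ofPred_eq, meromorphicOrderAt_congr (hev z), meromorphicOrderAt_inv] at hz
    lift meromorphicOrderAt (kk a) z to ℤ using h2 with n hn
    have h3 : (0 : ℤ) ≤ n := by exact_mod_cast h1
    have h4 : (0 : ℤ) < -n := by exact_mod_cast hz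
    omega

end Pool.Agent.Lib.H3CK
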