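import Mathlib
import Pool.Agent.Lib.helper3.L2W

set_option autoImplicit false
open Complex Filter Topology Metric

namespace Pool.Agent.Lib.H3CompEss

open MeasureTheory AddCircle
open scoped ComplexConjugate

noncomputable section

section res
variable {A : Type} [NormedRing A] [NormedAlgebra ℂ A] [CompleteSpace A]

def Rs (B : A) (w : ℂ) : A := ∑' m : ℕ, (w • B) ^ m

omit [CompleteSpace A] in
lemma nsm {B : A} (hB : ‖B‖ ≤ 1) (w : ℂ) : ‖w • B‖ ≤ ‖w‖ := by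
  rw [norm_smul]; exact mul_le_of_le_one_right (norm_nonneg _) hB

lemma Rs_norm (h1 : ‖(1 : A)‖ ≤ 1) {B : A} (hB : ‖B‖ ≤ 1) {w : ℂ} {ρ : ℝ} (hρ : ρ < 1) (hw : ‖w‖ ≤ ρ) :
    ‖Rs B w‖ ≤ (1 - ρ)⁻¹ := by
  have h := tsum_geometric_le_of_norm_lt_one (w • B) (((nsm hB w).trans hw).trans_lt hρ)
  have h2 : (1 - ‖w • B‖)⁻¹ ≤ (1 - ρ)⁻¹ := inv_anti₀ (by linarith) (by linarith [nsm hB w])
  rw [Rs]; linarith

lemma Rs_left {B : A} (hB : ‖B‖ ≤ 1) {w : ℂ} (hw : ‖w‖ < 1) : Rs B w * (1 - w • B) = 1 :=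
  geom_series_mul_neg _ ((nsm hB w).trans_lt hw)

lemma Rs_right {B : A} (hB : ‖B‖ ≤ 1) {w : ℂ} (hw : ‖w‖ < 1) : (1 - w • B) * Rs B w = 1 :=
  mul_neg_geom_series _ ((nsm hB w).trans_lt hw)

lemma Rs_sub {B : A} (hB : ‖B‖ ≤ 1) {w p : ℂ} (hw : ‖w‖ < 1) (hp : ‖p‖ < 1) :
    Rs B w - Rs B p = (w - p) • (Rs B w * B * Rs B p) := by
  calc Rs B w - Rs B p = Rs B w * ((1 - p • B) * Rs B p) - Rs B w * (1 - w • B) * Rs B p := by
        rw [Rs_right hB hp, Rs_left hB hw, mul_one, one_mul]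
    _ = _ := by
        simp only [mul_sub, sub_mul, mul_one, one_mul, mul_smul_comm, smul_mul_assoc, sub_smul,
          mul_assoc]
        abel

lemma Rs_hasSum {B : A} (hB : ‖B‖ ≤ 1) {w : ℂ} (hw : ‖w‖ < 1) :
    HasSum (fun m : ℕ => w ^ m • B ^ m) (Rs B w) := by
  have e : (fun m : ℕ => w ^ m • B ^ m) = fun m => (w • B) ^ m :=
    funext fun m => (smul_pow w B m).symm
  rw [e]
  exact (summable_geometric_of_norm_lt_one ((nsm hB w).trans_lt hw)).hasSum

end res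

abbrev H := lp (fun _ : ℕ => ℂ) 2

def ev (a : H) (z : ℂ) : ℂ := ∑' n : ℕ, a n * z ^ n

lemma norm_coord (a : H) (n : ℕ) : ‖a n‖ ≤ ‖a‖ := lp.norm_apply_le_norm (by norm_num) a n

lemma hs (a : H) : HasSum (fun n => ‖a n‖ ^ 2) (‖a‖ ^ 2) := by
  have h1 := lp.hasSum_norm (p := 2) (by norm_num) a
  simpa only [ENNReal.toReal_ofNat, Real.rpow_two] using h1

def e0 : H →L[ℂ] ℂ := innerSL ℂ (lp.single 2 0 (1 : ℂ) : H)

lemma e0_apply (a : H) : e0 a = a 0 := by
  simp only [e0, innerSL_apply_apply]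
  rw [lp.inner_single_left]; simp

section shift
variable {B : H →L[ℂ] H} (hB1 : ∀ f n, B f n = f (n + 1)) (hB : ‖B‖ ≤ 1)
include hB1

lemma B_pow (m : ℕ) : ∀ (a : H) (n : ℕ), (B ^ m) a n = a (n + m) := by
  induction m with
  | zero => intro a n; simp
  | succ m ih => intro a n; rw [pow_succ', mul_apply_eq_comp, hB1, ih, add_assoc, add_comm 1]

lemma B_norm (x : H) : ‖x‖ ^ 2 = ‖x 0‖ ^ 2 + ‖B x‖ ^ 2 := by
  have h3 := (hasSum_nat_add_iff' 1).2 (hs x)
  simp only [← hB1, Finset.range_one, Finset.sum_singleton] at h3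
  have := h3.unique (hs (B x))
  linarith

include hB

lemma ev_eq (a : H) {w : ℂ} (hw : ‖w‖ < 1) : ev a w = Rs B w a 0 := by
  have h := ((Rs_hasSum hB hw).mapL (ContinuousLinearMap.apply ℂ H a)).mapL e0
  simp only [ContinuousLinearMap.apply_apply, _root_.smul_apply, map_smul, e0_apply,
    B_pow hB1, zero_add, smul_eq_mul] at h
  rw [← h.tsum_eq, ev]
  exact tsum_congr fun n => mul_comm _ _

lemma major (a : H) {w : ℂ} (hw : ‖w‖ < 1) :
    ‖ev a w‖ ^ 2 ≤ 2 * (inner ℂ a (Rs B w a)).re - ‖a‖ ^ 2 := by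
  rw [ev_eq hB1 hB a hw]
  set x := Rs B w a with hx
  have h1 : a = x - w • B x := by
    have := congrArg (fun T : H →L[ℂ] H => T a) (Rs_right hB hw)
    simpa [mul_apply_eq_comp] using this.symm
  have h2 : x = a + w • B x := by rw [eq_comm, ← eq_sub_iff_add_eq]; exact h1
  have h3 : ‖w • B x‖ ^ 2 = ‖x‖ ^ 2 - 2 * (inner ℂ a x).re + ‖a‖ ^ 2 := by
    have : w • B x = -(a - x) := by rw [h1]; abel
    rw [this, norm_neg, @norm_sub_sq ℂ]
    simp only [RCLike.re_to_complex]; ring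
  have h4 := B_norm hB1 x
  rw [norm_smul, mul_pow] at h3
  have h5 : ‖w‖ ^ 2 ≤ 1 := pow_le_one₀ (norm_nonneg _) hw.le
  nlinarith [sq_nonneg ‖B x‖]

lemma pointwise {ρ : ℝ} (hρ0 : 0 ≤ ρ) (hρ : ρ < 1) : ∃ K : ℝ, 0 ≤ K ∧ ∀ (a : H) (p : ℂ), ‖p‖ ≤ ρ →
    ev a p = 0 → ∃ c : ℂ, ∀ w : ℂ, ‖w‖ < 1 → ‖ev a w‖ ^ 2 ≤
      2 * (inner ℂ a (Rs B w a) - inner ℂ a (Rs B p a) - c * (w - p)).re +
        K * ‖a‖ ^ 2 * ‖w - p‖ ^ 2 := by
  set δ := (1 - ρ) / 2 with hδ
  have hδ0 : 0 < δ := by rw [hδ]; linarith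
  set M := δ⁻¹ with hM
  have hM0 : 0 < M := inv_pos.2 hδ0
  have hMδ : M * δ = 1 := inv_mul_cancel₀ hδ0.ne'
  have hR : ∀ w : ℂ, ‖w‖ ≤ ρ + δ → ‖Rs B w‖ ≤ M := fun w hw => by
    have := Rs_norm ContinuousLinearMap.norm_id_le hB (ρ := ρ + δ) (by rw [hδ]; linarith) hw
    rwa [show 1 - (ρ + δ) = δ by rw [hδ]; ring] at this
  refine ⟨(2 * M + 4 * M ^ 2) * M ^ 2 + M ^ 4 + 2 * M ^ 3, by positivity, fun a p hp hap => ?_⟩
  have hp1 : ‖p‖ < 1 := hp.trans_lt hρ
  have hRp := hR p (by linarith)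
  have hin : ∀ T : H →L[ℂ] H, ‖inner ℂ a (T a)‖ ≤ ‖T‖ * ‖a‖ ^ 2 := fun T => by
    refine (norm_inner_le_norm _ _).trans ?_
    have := T.le_opNorm a
    nlinarith [norm_nonneg a]
  have hm : ∀ X Y : H →L[ℂ] H, ∀ s t : ℝ, ‖X‖ ≤ s → ‖Y‖ ≤ t → ‖X * B * Y‖ ≤ s * t := by
    intro X Y s t hX hY
    refine (norm_mul_le _ _).trans (mul_le_mul ((norm_mul_le _ _).trans ?_) hY (norm_nonneg _)
      ((norm_nonneg _).trans hX))
    exact (mul_le_of_le_one_right (norm_nonneg _) hB).trans hX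
  refine ⟨inner ℂ a ((Rs B p * B * Rs B p) a), fun w hw => ?_⟩
  have hU : 0 ≤ ‖a‖ ^ 2 := sq_nonneg _
  by_cases hwp : ‖w - p‖ ≤ δ
  · have hRw := hR w (by
      have := norm_add_le p (w - p)
      rw [add_sub_cancel] at this; linarith)
    have h1 : ‖ev a w‖ ≤ ‖w - p‖ * (M * M * ‖a‖) := by
      have e : ev a w = ((w - p) • (Rs B w * B * Rs B p)) a 0 := by
        rw [← Rs_sub hB hw hp1, _root_.sub_apply, lp.coeFn_sub, Pi.sub_apply,
          ← ev_eq hB1 hB a hw, ← ev_eq hB1 hB a hp1, hap, sub_zero]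
      rw [e]
      refine (norm_coord _ _).trans ?_
      rw [_root_.smul_apply, norm_smul]
      refine mul_le_mul_of_nonneg_left (((Rs B w * B * Rs B p).le_opNorm a).trans ?_) (norm_nonneg _)
      exact mul_le_mul_of_nonneg_right (hm _ _ _ _ hRw hRp) (norm_nonneg _)
    have h2 : inner ℂ a (Rs B w a) - inner ℂ a (Rs B p a) -
        inner ℂ a ((Rs B p * B * Rs B p) a) * (w - p) =
        (w - p) ^ 2 * inner ℂ a ((Rs B w * B * Rs B p * B * Rs B p) a) := by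
      have e1 : Rs B w * B * Rs B p - Rs B p * B * Rs B p =
          (w - p) • (Rs B w * B * Rs B p * B * Rs B p) := by
        rw [← sub_mul, ← sub_mul, Rs_sub hB hw hp1, smul_mul_assoc, smul_mul_assoc]
      rw [← inner_sub_right, ← _root_.sub_apply, Rs_sub hB hw hp1, _root_.smul_apply,
        inner_smul_right, mul_comm _ (w - p), ← mul_sub, ← inner_sub_right, ← _root_.sub_apply, e1,
        _root_.smul_apply, inner_smul_right]
      ring
    rw [h2]
    have h3 : ‖(w - p) ^ 2 * inner ℂ a ((Rs B w * B * Rs B p * B * Rs B p) a)‖ ≤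
        ‖w - p‖ ^ 2 * (M * M * M * ‖a‖ ^ 2) := by
      rw [norm_mul, norm_pow]
      refine mul_le_mul_of_nonneg_left ((hin _).trans ?_) (by positivity)
      exact mul_le_mul_of_nonneg_right (hm _ _ _ _ (hm _ _ _ _ hRw hRp) hRp) hU
    have h4 := (abs_le.1 ((Complex.abs_re_le_norm _).trans h3)).1
    have h5 := pow_le_pow_left₀ (norm_nonneg _) h1 2
    have h6 : 0 ≤ (2 * M + 4 * M ^ 2) * M ^ 2 * ‖a‖ ^ 2 * ‖w - p‖ ^ 2 := by positivity
    nlinarith
  · push Not at hwp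
    have h1 := major hB1 hB a hw
    have h2 : ‖inner ℂ a (Rs B p a)‖ ≤ M * ‖a‖ ^ 2 :=
      (hin _).trans (mul_le_mul_of_nonneg_right hRp hU)
    have h3 : ‖inner ℂ a ((Rs B p * B * Rs B p) a) * (w - p)‖ ≤ M * M * ‖a‖ ^ 2 * 2 := by
      rw [norm_mul]
      refine mul_le_mul ((hin _).trans (mul_le_mul_of_nonneg_right (hm _ _ _ _ hRp hRp) hU))
        ((norm_sub_le _ _).trans (by linarith)) (norm_nonneg _) (by positivity)
    have h4 := (abs_le.1 ((Complex.abs_re_le_norm _).trans h2)).2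
    have h5 := (abs_le.1 ((Complex.abs_re_le_norm _).trans h3)).2
    have h6 : 1 ≤ M ^ 2 * ‖w - p‖ ^ 2 := by
      have : 1 ≤ M * ‖w - p‖ := by rw [← hMδ]; exact mul_le_mul_of_nonneg_left hwp.le hM0.le
      nlinarith
    have h7 : (2 * M + 4 * M ^ 2) * ‖a‖ ^ 2 * 1 ≤ (2 * M + 4 * M ^ 2) * ‖a‖ ^ 2 *
        (M ^ 2 * ‖w - p‖ ^ 2) := mul_le_mul_of_nonneg_left h6 (by positivity)
    have h8 : 0 ≤ (M ^ 4 + 2 * M ^ 3) * ‖a‖ ^ 2 * ‖w - p‖ ^ 2 := by positivity
    simp only [Complex.sub_re]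
    nlinarith

end shift

def circ (g : H) (r : ℝ) : C(UnitAddCircle, ℂ) := ∑' n : ℕ, (g n * (r : ℂ) ^ n) • fourier n

lemma circ_hasSum (g : H) {r : ℝ} (h0 : 0 ≤ r) (h1 : r < 1) :
    HasSum (fun n : ℕ => (g n * (r : ℂ) ^ n) • (fourier n : C(UnitAddCircle, ℂ))) (circ g r) := by
  refine Summable.hasSum (Summable.of_norm_bounded
    ((summable_geometric_of_lt_one h0 h1).mul_left ‖g‖) fun n => ?_)
  rw [norm_smul, fourier_norm, mul_one, norm_mul, norm_pow, Complex.norm_real, Real.norm_eq_abs,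
    abs_of_nonneg h0]
  exact mul_le_mul_of_nonneg_right (norm_coord g n) (by positivity)

lemma circ_apply (g : H) {r : ℝ} (h0 : 0 ≤ r) (h1 : r < 1) (t : UnitAddCircle) :
    circ g r t = ev g (r * fourier 1 t) := by
  have h := (circ_hasSum g h0 h1).mapL (ContinuousMap.evalCLM ℂ t)
  refine h.tsum_eq.symm.trans (tsum_congr fun n => ?_)
  have : (fourier (n : ℤ) t : ℂ) = (fourier 1 t) ^ n := by
    induction n with
    | zero => simp
    | succ n ih => rw [pow_succ, ← ih, ← fourier_add]; push_cast; rfl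
  simp only [map_smul, smul_eq_mul, mul_pow, ← this, mul_assoc]
  rfl

lemma circ_inner (g h : H) {r : ℝ} (h0 : 0 ≤ r) (h1 : r < 1) :
    HasSum (fun n : ℕ => conj (h n * (r : ℂ) ^ n) * (g n * (r : ℂ) ^ n))
      (∫ t, conj (circ h r t) * circ g r t ∂haarAddCircle) := by
  let L := ContinuousMap.toLp (E := ℂ) 2 (haarAddCircle (T := 1)) ℂ
  have hg := (circ_hasSum g h0 h1).mapL L
  have hh := (circ_hasSum h h0 h1).mapL L
  simp only [map_smul] at hg hh
  have ho := orthonormal_iff_ite.1 (orthonormal_fourier (T := 1))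
  have h2 : ∀ n : ℕ, inner ℂ (L (fourier n)) (L (circ g r)) = g n * (r : ℂ) ^ n := by
    intro n
    have h3 := hg.mapL (innerSL ℂ (L (fourier n)))
    refine h3.unique ?_
    have e1 : innerSL ℂ (L (fourier n)) ((g n * (r : ℂ) ^ n) • L (fourier n)) =
        g n * (r : ℂ) ^ n := by
      have := ho n n
      rw [if_pos rfl] at this
      rw [innerSL_apply_apply, inner_smul_right]
      exact (congrArg _ this).trans (mul_one _)
    rw [← e1]
    refine hasSum_single (f := fun m : ℕ => innerSL ℂ (L (fourier n))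
      ((g m * (r : ℂ) ^ m) • L (fourier m))) n (fun m hm => ?_)
    have := ho n m
    rw [if_neg (by exact_mod_cast hm.symm)] at this
    rw [innerSL_apply_apply, inner_smul_right]
    exact (congrArg _ this).trans (mul_zero _)
  have h4 := (hh.mapL (innerSL ℂ (L (circ g r)))).star
  simp only [innerSL_apply_apply, inner_smul_right, RCLike.star_def, map_mul, inner_conj_symm,
    h2] at h4
  rw [ContinuousMap.inner_toLp] at h4
  simpa only [map_mul, mul_comm] using h4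

lemma parseval (g : H) {r : ℝ} (h0 : 0 ≤ r) (h1 : r < 1) :
    HasSum (fun n : ℕ => ‖g n‖ ^ 2 * r ^ (2 * n)) (∫ t, ‖circ g r t‖ ^ 2 ∂haarAddCircle) := by
  have h := circ_inner g g h0 h1
  simp only [Complex.conj_mul'] at h
  have h2 : ∫ t, ((‖circ g r t‖ : ℂ)) ^ 2 ∂haarAddCircle =
      ((∫ t, ‖circ g r t‖ ^ 2 ∂haarAddCircle : ℝ) : ℂ) := by
    rw [← integral_complex_ofReal]; push_cast; rfl
  rw [h2] at h
  refine Complex.hasSum_ofReal.1 ?_
  convert h using 2 with n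
  rw [norm_mul, norm_pow, Complex.norm_real, Real.norm_eq_abs, abs_of_nonneg h0]
  push_cast; ring

def one : H := lp.single 2 0 (1 : ℂ)

lemma ev_single (j : ℕ) (z : ℂ) : ev (lp.single 2 j (1 : ℂ)) z = z ^ j := by
  rw [ev, tsum_eq_single j]
  · simp
  · intro m hm; rw [lp.single_apply_ne _ _ _ hm, zero_mul]

lemma ev_zero (g : H) : ev g 0 = g 0 := by
  rw [ev, tsum_eq_single 0]
  · simp
  · intro m hm; simp [hm]

lemma mean (g : H) {r : ℝ} (h0 : 0 ≤ r) (h1 : r < 1) :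
    ∫ t, circ g r t ∂haarAddCircle = g 0 := by
  have h := circ_inner g one h0 h1
  have e : ∀ t, circ one r t = 1 := by
    intro t; rw [circ_apply _ h0 h1, one, ev_single, pow_zero]
  simp only [e, map_one, one_mul] at h
  refine h.unique ?_
  have e1 : conj (one 0 * (r : ℂ) ^ 0) * (g 0 * (r : ℂ) ^ 0) = g 0 := by simp [one]
  rw [← e1]
  refine hasSum_single (f := fun n : ℕ => conj (one n * (r : ℂ) ^ n) *
    (g n * (r : ℂ) ^ n)) 0 (fun m hm => ?_)
  rw [one, lp.single_apply_ne _ _ _ hm]; simp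

lemma abel (g : H) (C : ℝ) (h : ∀ r : ℝ, 0 ≤ r → r < 1 → ∫ t, ‖circ g r t‖ ^ 2 ∂haarAddCircle ≤ C) :
    ‖g‖ ^ 2 ≤ C := by
  refine hasSum_le_of_sum_le (hs g) fun s => ?_
  have h1 : Tendsto (fun r : ℝ => ∑ n ∈ s, ‖g n‖ ^ 2 * r ^ (2 * n)) (𝓝[<] 1)
      (𝓝 (∑ n ∈ s, ‖g n‖ ^ 2 * (1 : ℝ) ^ (2 * n))) :=
    (Continuous.tendsto (by fun_prop) _).mono_left nhdsWithin_le_nhds
  simp only [one_pow, mul_one] at h1
  refine le_of_tendsto h1 ?_
  filter_upwards [Ioo_mem_nhdsLT (show (0 : ℝ) < 1 by norm_num)] with r hr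
  exact (sum_le_hasSum s (fun n _ => by have := hr.1; positivity)
    (parseval g hr.1.le hr.2)).trans (h r hr.1.le hr.2)

lemma int_cont (f : UnitAddCircle → ℂ) (hf : Continuous f) : Integrable f haarAddCircle :=
  hf.integrable_of_hasCompactSupport (HasCompactSupport.of_compactSpace _)

lemma int_cont' (f : UnitAddCircle → ℝ) (hf : Continuous f) : Integrable f haarAddCircle :=
  hf.integrable_of_hasCompactSupport (HasCompactSupport.of_compactSpace _)

lemma key {ρ : ℝ} (hρ0 : 0 ≤ ρ) (hρ : ρ < 1) : ∃ M : ℝ, 1 ≤ M ∧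
    ∀ (S : H →L[ℂ] H) (ψ : ℂ → ℂ) (ω : ℂ), (∀ z, ‖z‖ < 1 → ‖ψ z‖ < 1) →
      (∀ a z, ‖z‖ < 1 → ev (S a) z = ev a (ψ z)) → ‖ψ 0‖ ≤ ρ →
      ∃ K : H →L[ℂ] H, IsCompactOperator K ∧
        ‖S - K‖ ≤ M * ‖S (lp.single 2 1 (1 : ℂ)) - ω • one‖ := by
  obtain ⟨B, hB1, hB⟩ := Pool.Agent.Lib.H3L2W.exists_wcomp (fun _ : ℕ => (1 : ℂ)) (· + 1)
    (add_left_injective 1) 1 zero_le_one (by simp)
  simp only [one_mul] at hB1
  obtain ⟨K, hK0, hK⟩ := pointwise hB1 hB hρ0 hρ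
  refine ⟨(1 + (1 - ρ)⁻¹) * (1 + K), one_le_mul_of_one_le_of_one_le
    (by have : 0 < (1 - ρ)⁻¹ := inv_pos.2 (by linarith)
        linarith) (by linarith), fun S ψ ω hψ hS hp => ?_⟩
  set p := ψ 0 with hpdef
  have hp1 : ‖p‖ < 1 := hp.trans_lt hρ
  set ε := ‖S (lp.single 2 1 (1 : ℂ)) - ω • one‖ with hε
  set d : H := S (lp.single 2 1 (1 : ℂ)) - p • one with hd
  have hlin : ∀ (a b : H) (c : ℂ) (z : ℂ), ‖z‖ < 1 → ev (a - c • b) z = ev a z - c * ev b z := by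
    intro a b c z hz
    simp only [ev_eq hB1 hB _ hz, map_sub, map_smul, lp.coeFn_sub, lp.coeFn_smul, Pi.sub_apply,
      Pi.smul_apply, smul_eq_mul]
  have hdev : ∀ z, ‖z‖ < 1 → ev d z = ψ z - p := fun z hz => by
    rw [hd, hlin _ _ _ _ hz, hS _ _ hz, one, ev_single, ev_single]; simp
  have hd0 : d 0 = 0 := by rw [← ev_zero, hdev 0 (by simp), sub_self]
  have hdε : ‖d‖ ^ 2 ≤ ε ^ 2 := by
    refine hasSum_le (fun n => ?_) (hs d) (hs _)
    by_cases hn : n = 0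
    · rw [hn, hd0]; simp
    · simp [hd, one, Pi.single_eq_of_ne hn]
  have main : ∀ a : H, (∃ N, ∀ n, N ≤ n → a n = 0) → ev a p = 0 →
      ‖S a‖ ^ 2 ≤ K * ‖a‖ ^ 2 * ε ^ 2 := by
    rintro a ⟨N, hN⟩ hap
    obtain ⟨c, hc⟩ := hK a p hp hap
    have hz : ∀ m, N ≤ m → (B ^ m) a = 0 := fun m hm => by
      ext n; rw [B_pow hB1, hN _ (by omega)]; rfl
    let h : H := ∑ m ∈ Finset.range N, lp.single 2 m (inner ℂ a ((B ^ m) a))
    have hh : ∀ m, h m = inner ℂ a ((B ^ m) a) := fun m => by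
      simp only [h, lp.coeFn_sum, Finset.sum_apply, lp.single_apply, Pi.single_apply,
        Finset.sum_ite_eq, Finset.mem_range]
      split_ifs with hm
      · rfl
      · rw [hz m (by omega), inner_zero_right]
    have hev : ∀ w, ‖w‖ < 1 → ev h w = inner ℂ a (Rs B w a) := fun w hw => by
      have h1 := ((Rs_hasSum hB hw).mapL (ContinuousLinearMap.apply ℂ H a)).mapL (innerSL ℂ a)
      simp only [ContinuousLinearMap.apply_apply, _root_.smul_apply, map_smul,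
        innerSL_apply_apply, smul_eq_mul] at h1
      rw [← h1.tsum_eq, ev]
      exact tsum_congr fun n => by rw [hh, mul_comm]
    refine abel _ _ fun r h0 h1 => ?_
    have hr : ∀ t : UnitAddCircle, ‖(r : ℂ) * fourier 1 t‖ < 1 := fun t => by
      simpa [abs_of_nonneg h0] using h1
    have hpt : ∀ t, ‖circ (S a) r t‖ ^ 2 ≤
        2 * (circ (S h) r t - ev h p - c * circ d r t).re + K * ‖a‖ ^ 2 * ‖circ d r t‖ ^ 2 := by
      intro t
      rw [circ_apply _ h0 h1, circ_apply _ h0 h1, circ_apply _ h0 h1, hS _ _ (hr t), hS _ _ (hr t),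
        hdev _ (hr t), hev _ (hψ _ (hr t)), hev _ hp1]
      exact hc _ (hψ _ (hr t))
    have i1 : Integrable (fun t => circ (S h) r t - ev h p - c * circ d r t) haarAddCircle :=
      int_cont _ (by fun_prop)
    have i2 : ∫ t, (circ (S h) r t - ev h p - c * circ d r t) ∂haarAddCircle = 0 := by
      rw [integral_sub (int_cont _ (by fun_prop)) (int_cont _ (by fun_prop)),
        integral_sub (int_cont _ (by fun_prop)) (int_cont _ (by fun_prop)), integral_const_mul,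
        mean _ h0 h1, mean _ h0 h1, hd0, ← ev_zero, hS _ _ (by simp)]
      simp [hpdef]
    have i3 : ∫ t, (circ (S h) r t - ev h p - c * circ d r t).re ∂haarAddCircle = 0 := by
      have := integral_re i1
      simp only [RCLike.re_to_complex] at this
      rw [this, i2, Complex.zero_re]
    have i4 : ∫ t, ‖circ d r t‖ ^ 2 ∂haarAddCircle ≤ ε ^ 2 := by
      refine (hasSum_le (fun n => ?_) (parseval d h0 h1) (hs d)).trans hdε
      exact mul_le_of_le_one_right (sq_nonneg _) (pow_le_one₀ h0 h1.le)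
    refine (integral_mono (int_cont' _ (by fun_prop)) (int_cont' _ (by fun_prop)) hpt).trans ?_
    rw [integral_add (int_cont' _ (by fun_prop)) (int_cont' _ (by fun_prop)), integral_const_mul,
      integral_const_mul, i3, mul_zero, zero_add]
    exact mul_le_mul_of_nonneg_left i4 (by positivity)
  let φp : H →L[ℂ] ℂ := e0 ∘L Rs B p
  have hφp : ∀ a, φp a = ev a p := fun a => by
    rw [ev_eq hB1 hB a hp1]; exact e0_apply _
  refine ⟨(ContinuousLinearMap.toSpanSingleton ℂ (S one)) ∘L φp,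
    (isCompactOperator_of_locallyCompactSpace_dom φp).clm_comp
      (ContinuousLinearMap.toSpanSingleton ℂ (S one)), ?_⟩
  set K' := (ContinuousLinearMap.toSpanSingleton ℂ (S one)) ∘L φp with hK'
  have hε0 : 0 ≤ ε := norm_nonneg _
  have hi : 0 < (1 - ρ)⁻¹ := inv_pos.2 (by linarith)
  refine ContinuousLinearMap.opNorm_le_bound _ (by positivity) fun a => ?_
  have fin : ∀ a : H, (∃ N, ∀ n, N ≤ n → a n = 0) →
      ‖(S - K') a‖ ≤ (1 + (1 - ρ)⁻¹) * (1 + K) * ε * ‖a‖ := by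
    rintro a ⟨N, hN⟩
    have e : (S - K') a = S (a - ev a p • one) := by
      simp [hK', hφp, ContinuousLinearMap.toSpanSingleton_apply]
    have h1 := main (a - ev a p • one) ⟨N + 1, fun n hn => by
      have hn0 : n ≠ 0 := by omega
      simp [hN n (by omega), one, Pi.single_eq_of_ne hn0]⟩
      (by rw [hlin _ _ _ _ hp1, one, ev_single]; simp)
    have h2 : ‖a - ev a p • one‖ ≤ (1 + (1 - ρ)⁻¹) * ‖a‖ := by
      refine (norm_sub_le _ _).trans ?_
      have : ‖ev a p‖ ≤ (1 - ρ)⁻¹ * ‖a‖ := by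
        rw [ev_eq hB1 hB a hp1]
        exact (norm_coord _ _).trans (((Rs B p).le_opNorm a).trans
          (mul_le_mul_of_nonneg_right (Rs_norm ContinuousLinearMap.norm_id_le hB hρ hp) (norm_nonneg _)))
      rw [norm_smul, one, lp.norm_single (by norm_num), norm_one]
      linarith
    rw [e]
    refine (pow_le_pow_iff_left₀ (norm_nonneg _) (by positivity) two_ne_zero).1 (h1.trans ?_)
    have h3 := pow_le_pow_left₀ (norm_nonneg _) h2 2
    calc K * ‖a - ev a p • one‖ ^ 2 * ε ^ 2 ≤ (1 + K) ^ 2 * ((1 + (1 - ρ)⁻¹) * ‖a‖) ^ 2 * ε ^ 2 := by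
          gcongr; nlinarith
      _ = _ := by ring
  have hcl : IsClosed {a : H | ‖(S - K') a‖ ≤ (1 + (1 - ρ)⁻¹) * (1 + K) * ε * ‖a‖} :=
    isClosed_le (by fun_prop) (by fun_prop)
  refine hcl.mem_of_tendsto (lp.hasSum_single (p := 2) (by simp) a)
    (Eventually.of_forall fun s => fin _ ⟨s.sup id + 1, fun n hn => ?_⟩)
  simp only [lp.coeFn_sum, Finset.sum_apply, lp.single_apply, Pi.single_apply, Finset.sum_ite_eq]
  rw [if_neg]
  intro hs
  have := Finset.le_sup (f := id) hs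
  simp only [id] at this
  omega

end

end Pool.Agent.Lib.H3CompEss
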