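import Mathlib

set_option autoImplicit false

/-! A cone algebra: continuous on `closed disc × [0,1]`, holomorphic in the first variable and
constant on the bottom slice. -/

namespace Pool.Agent.Lib.H3Cortex

open Set Metric Filter Topology
open scoped ComplexConjugate

noncomputable section

abbrev D : Type := closedBall (0 : ℂ) 1
abbrev T : Type := sphere (0 : ℂ) 1
abbrev J : Type := Icc (0 : ℝ) 1

instance : CompactSpace D := isCompact_iff_compactSpace.1 (isCompact_closedBall _ _)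

def rho (w : ℂ) : D := ⟨w / (max 1 ‖w‖ : ℝ), by
  have : (0 : ℝ) < max 1 ‖w‖ := lt_max_of_lt_left one_pos
  rw [mem_closedBall_zero_iff, norm_div, Complex.norm_real, Real.norm_of_nonneg this.le,
    div_le_one this]
  exact le_max_right _ _⟩

lemma rho_cont : Continuous rho := by
  refine Continuous.subtype_mk (continuous_id.div (by fun_prop) fun w => ?_) _
  exact_mod_cast (lt_max_of_lt_left one_pos : (0 : ℝ) < max 1 ‖w‖).ne'

lemma rho_val {w : ℂ} (hw : ‖w‖ ≤ 1) : (rho w : ℂ) = w := by simp [rho, max_eq_left hw]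

lemma rho_coe (w : D) : rho w = w := Subtype.ext (rho_val (mem_closedBall_zero_iff.1 w.2))

def o : D := ⟨0, by simp⟩

def A : Subalgebra ℂ C(D × J, ℂ) where
  carrier := {f | (∀ t, DifferentiableOn ℂ (fun w => f (rho w, t)) (ball 0 1)) ∧
    ∀ w, f (w, 0) = f (o, 0)}
  mul_mem' := fun {f g} hf hg => ⟨fun t => (hf.1 t).mul (hg.1 t), fun w => by
    simp only [ContinuousMap.mul_apply, hf.2 w, hg.2 w]⟩
  add_mem' := fun {f g} hf hg => ⟨fun t => (hf.1 t).add (hg.1 t), fun w => by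
    simp only [ContinuousMap.add_apply, hf.2 w, hg.2 w]⟩
  algebraMap_mem' := fun c => ⟨fun t => by simp, fun w => by simp⟩

lemma A_closed : IsClosed (A : Set C(D × J, ℂ)) := by
  refine isClosed_of_closure_subset fun f hf => ?_
  obtain ⟨u, hu, hl⟩ := mem_closure_iff_seq_limit.1 hf
  refine ⟨fun t => ?_, fun w => ?_⟩
  · have h1 := (ContinuousMap.tendsto_iff_tendstoUniformly.1 hl).comp fun w => (rho w, t)
    exact h1.tendstoUniformlyOn.tendstoLocallyUniformlyOn.differentiableOn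
      (.of_forall fun n => (hu n).1 t) isOpen_ball
  · have h1 := ((continuous_eval_const (w, (0 : J))).tendsto f).comp hl
    have h2 := ((continuous_eval_const (o, (0 : J))).tendsto f).comp hl
    exact tendsto_nhds_unique h1 (h2.congr fun n => ((hu n).2 w).symm)

instance : CompleteSpace A := A_closed.completeSpace_coe

def inc (w : T) : D := ⟨w, sphere_subset_closedBall w.2⟩

lemma inc_cont : Continuous inc := continuous_subtype_val.subtype_mk _

lemma maxp {f : C(D × J, ℂ)} (t : J) (hf : DifferentiableOn ℂ (fun w => f (rho w, t)) (ball 0 1))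
    {C : ℝ} (h : ∀ w : T, ‖f (inc w, t)‖ ≤ C) (w : D) : ‖f (w, t)‖ ≤ C := by
  have hd : DiffContOnCl ℂ (fun w => f (rho w, t)) (ball 0 1) :=
    ⟨hf, (f.continuous.comp (rho_cont.prodMk continuous_const)).continuousOn⟩
  have := Complex.norm_le_of_forall_mem_frontier_norm_le isBounded_ball hd (C := C) (z := w)
    (fun z hz => ?_) (by rw [closure_ball _ one_ne_zero]; exact w.2)
  · simpa only [rho_coe] using this
  · rw [frontier_ball _ one_ne_zero] at hz
    have e : rho z = inc ⟨z, hz⟩ := rho_coe (inc ⟨z, hz⟩)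
    simpa only [e] using h ⟨z, hz⟩

def e1 : T := ⟨1, by simp⟩

lemma nonvanishing {f : C(D × J, ℂ)} (hf : f ∈ A) (h : ∀ (w : T) t, f (inc w, t) ≠ 0) (x : D × J) :
    f x ≠ 0 := by
  have hc : Continuous fun p : T × J => ‖f (inc p.1, p.2)‖⁻¹ :=
    (f.continuous.comp ((inc_cont.comp continuous_fst).prodMk continuous_snd)).norm.inv₀
      fun p => norm_ne_zero_iff.2 (h _ _)
  obtain ⟨C, hC⟩ := (isCompact_range hc).bddAbove
  set U : Set J := {t | ∀ w, f (w, t) ≠ 0} with hU
  have hcl : IsClosed U := by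
    have : U = ⋂ w, {t | 1 ≤ C * ‖f (w, t)‖} := by
      ext t
      simp only [hU, mem_ofPred_eq, mem_iInter]
      refine ⟨fun ht w => ?_, fun ht w h0 => ?_⟩
      · have hd : DiffContOnCl ℂ (fun w => (f (rho w, t))⁻¹) (ball 0 1) :=
          ⟨(hf.1 t).inv fun w _ => ht _, ((f.continuous.comp
            (rho_cont.prodMk continuous_const)).inv₀ fun w => ht _).continuousOn⟩
        have := Complex.norm_le_of_forall_mem_frontier_norm_le isBounded_ball hd (C := C) (z := w)
          (fun z hz => ?_) (by rw [closure_ball _ one_ne_zero]; exact w.2)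
        · rw [rho_coe, norm_inv] at this
          exact (inv_le_iff_one_le_mul₀ (norm_pos_iff.2 (ht w))).1 this
        · rw [frontier_ball _ one_ne_zero] at hz
          have e : rho z = inc ⟨z, hz⟩ := rho_coe (inc ⟨z, hz⟩)
          rw [e, norm_inv]
          exact hC ⟨(⟨z, hz⟩, t), rfl⟩
      · have := ht w
        rw [h0, norm_zero, mul_zero] at this
        linarith
    rw [this]
    exact isClosed_iInter fun w => isClosed_le continuous_const (by fun_prop)
  have hop : IsOpen U := by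
    have : Uᶜ = Prod.snd '' {x : D × J | f x = 0} := by
      ext t; simp [hU]
    rw [← isClosed_compl_iff, this]
    exact isClosedMap_snd_of_compactSpace _ (isClosed_eq f.continuous continuous_const)
  have h0 : (0 : J) ∈ U := fun w => by
    rw [hf.2 w, ← hf.2 (inc e1)]; exact h _ _
  have := IsClopen.eq_univ ⟨hcl, hop⟩ ⟨0, h0⟩
  exact (this ▸ mem_univ x.2 : x.2 ∈ U) x.1

lemma isUnit_of (f : A) (h : ∀ (w : T) t, f.1 (inc w, t) ≠ 0) : IsUnit f := by
  have h0 := nonvanishing f.2 h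
  let g : C(D × J, ℂ) := ⟨fun x => (f.1 x)⁻¹, f.1.continuous.inv₀ h0⟩
  have hg : g ∈ A := ⟨fun t => (f.2.1 t).inv fun w _ => h0 _, fun w => by
    simp only [g, ContinuousMap.coe_mk, f.2.2 w]⟩
  refine IsUnit.of_mul_eq_one ⟨g, hg⟩ (Subtype.ext (ContinuousMap.ext fun x => ?_))
  exact mul_inv_cancel₀ (h0 x)

/-- `a(t) + b(t) t w` as an element of `A`. -/
def aff (a b : J → ℂ) (ha : Continuous a) (hb : Continuous b) : A :=
  ⟨⟨fun x => a x.2 + b x.2 * ((x.2 : ℝ) * x.1), by fun_prop⟩, fun t => by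
    refine DifferentiableOn.congr (f := fun w => a t + b t * ((t : ℝ) * w)) (by fun_prop)
      fun w hw => ?_
    simp only [ContinuousMap.coe_mk, rho_val (mem_ball_zero_iff.1 hw).le], fun w => by simp⟩

lemma peak (w0 : T) (t0 : J) : ∃ g : A, (∀ x, ‖g.1 x‖ ≤ 1) ∧ g.1 (inc w0, t0) = 1 ∧
    ∀ x, ‖g.1 x‖ = 1 → ∀ f : A, f.1 x = f.1 (inc w0, t0) := by
  have hw0 : ‖(w0 : ℂ)‖ = 1 := mem_sphere_zero_iff_norm.1 w0.2
  have hww : (w0 : ℂ) * conj (w0 : ℂ) = 1 := by
    rw [Complex.mul_conj, Complex.normSq_eq_norm_sq, hw0]; simp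
  set g := aff (fun t => ((1 - |(t : ℝ) - t0|) * (1 - t / 2) : ℝ))
    (fun t => ((1 - |(t : ℝ) - t0|) / 2 : ℝ) * conj (w0 : ℂ)) (by fun_prop) (by fun_prop) with hg
  have hgx : ∀ x : D × J, ‖g.1 x‖ = (1 - |(x.2 : ℝ) - t0|) *
      ‖((1 - x.2 / 2 : ℝ) : ℂ) + (x.2 / 2 : ℝ) * (x.1 * conj (w0 : ℂ))‖ := by
    intro x
    have h1 : 0 ≤ 1 - |(x.2 : ℝ) - t0| := by
      have := x.2.2; have := t0.2
      rw [sub_nonneg, abs_le]; constructor <;> linarith [x.2.2.1, x.2.2.2, t0.2.1, t0.2.2]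
    rw [← Real.norm_of_nonneg h1, ← Complex.norm_real, ← norm_mul]
    congr 1
    simp only [hg, aff, ContinuousMap.coe_mk]
    push_cast; ring
  have hu : ∀ x : D × J, ‖(x.1 : ℂ) * conj (w0 : ℂ)‖ ≤ 1 := fun x => by
    rw [norm_mul, Complex.norm_conj, hw0, mul_one]; exact mem_closedBall_zero_iff.1 x.1.2
  have hin : ∀ x : D × J,
      ‖((1 - x.2 / 2 : ℝ) : ℂ) + (x.2 / 2 : ℝ) * (x.1 * conj (w0 : ℂ))‖ ≤ 1 := fun x => by
    refine (norm_add_le _ _).trans ?_
    have := x.2.2.1; have := x.2.2.2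
    rw [norm_mul, Complex.norm_real, Complex.norm_real, Real.norm_of_nonneg (by linarith),
      Real.norm_of_nonneg (by linarith)]
    nlinarith [hu x]
  refine ⟨g, fun x => ?_, ?_, fun x hx f => ?_⟩
  · rw [hgx]
    nlinarith [hin x, abs_nonneg ((x.2 : ℝ) - t0), norm_nonneg
      (((1 - x.2 / 2 : ℝ) : ℂ) + (x.2 / 2 : ℝ) * (x.1 * conj (w0 : ℂ)))]
  · simp only [hg, aff, ContinuousMap.coe_mk, inc, sub_self, abs_zero]
    push_cast
    linear_combination ((t0 : ℝ) / 2 : ℂ) * hww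
  · rw [hgx] at hx
    have h1 := hin x
    have h2 := hu x
    set u := (x.1 : ℂ) * conj (w0 : ℂ) with hudef
    set N := ‖((1 - x.2 / 2 : ℝ) : ℂ) + (x.2 / 2 : ℝ) * u‖ with hN
    have hN0 : 0 ≤ N := norm_nonneg _
    have ha := abs_nonneg ((x.2 : ℝ) - t0)
    have hN1 : N = 1 := by nlinarith
    have ht : x.2 = t0 := by
      rw [hN1] at hx
      exact Subtype.ext (sub_eq_zero.1 (abs_eq_zero.1 (by linarith)))
    rcases eq_or_lt_of_le t0.2.1 with h0 | h0
    · have : t0 = 0 := Subtype.ext h0.symm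
      rw [show x = (x.1, 0) from Prod.ext rfl (ht.trans this), this, f.2.2, f.2.2 (inc w0)]
    · have hsq : N ^ 2 = 1 := by rw [hN1]; ring
      rw [hN, ← Complex.normSq_eq_norm_sq, Complex.normSq_apply, ht] at hsq
      simp only [Complex.add_re, Complex.ofReal_re, Complex.re_ofReal_mul, Complex.add_im,
        Complex.ofReal_im, Complex.im_ofReal_mul, zero_add] at hsq
      have h3 : u.re * u.re + u.im * u.im ≤ 1 := by
        rw [← Complex.normSq_apply, Complex.normSq_eq_norm_sq]; nlinarith [norm_nonneg u]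
      have h4 := t0.2.2
      have h5 : 1 ≤ u.re := by
        by_contra hc
        push Not at hc
        have e1 : (t0 : ℝ) / 2 * ((t0 : ℝ) / 2) * (u.re * u.re + u.im * u.im)
            ≤ (t0 : ℝ) / 2 * ((t0 : ℝ) / 2) * 1 := by gcongr
        have e2 : (1 - (t0 : ℝ) / 2) * ((t0 : ℝ) / 2) * u.re < (1 - (t0 : ℝ) / 2) * ((t0 : ℝ) / 2) * 1 :=
          mul_lt_mul_of_pos_left hc (mul_pos (by linarith) (by linarith))
        nlinarith
      have h6 : u = 1 := Complex.ext (by simp; nlinarith) (by simp; nlinarith)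
      have h7 : x.1 = inc w0 := Subtype.ext (by
        change (x.1 : ℂ) = w0
        linear_combination (w0 : ℂ) * h6 - (x.1 : ℂ) * hww)
      rw [show x = (inc w0, t0) from Prod.ext h7 ht]

lemma tdz (f : A) (hf : ¬ IsUnit f) : ∃ y : ℕ → A, (∀ n, ‖y n‖ = 1) ∧
    Tendsto (fun n => ‖f * y n‖) atTop (𝓝 0) := by
  obtain ⟨w0, t0, h0⟩ : ∃ (w : T) (t : J), f.1 (inc w, t) = 0 := by
    by_contra hc
    push Not at hc
    exact hf (isUnit_of f hc)
  obtain ⟨g, hg1, hg0, hgp⟩ := peak w0 t0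
  refine ⟨fun n => g ^ n, fun n => le_antisymm ?_ ?_, ?_⟩
  · refine (ContinuousMap.norm_le _ zero_le_one).2 fun x => ?_
    simpa using pow_le_one₀ (norm_nonneg _) (hg1 x)
  · have := (g ^ n).1.norm_coe_le_norm (inc w0, t0)
    have e : (g ^ n).1 (inc w0, t0) = 1 := by simp [hg0]
    rw [e, norm_one] at this
    exact this
  · have hD := Antitone.tendstoUniformly_of_forall_tendsto
      (F := fun (n : ℕ) (x : D × J) => ‖f.1 x‖ * ‖g.1 x‖ ^ n) (f := fun _ => (0 : ℝ))
      (fun n => by fun_prop) (fun a b hab x => mul_le_mul_of_nonneg_left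
        (pow_le_pow_of_le_one (norm_nonneg _) (hg1 x) hab) (norm_nonneg _)) continuous_const
      fun x => by
        rcases eq_or_lt_of_le (hg1 x) with h | h
        · simp [hgp x h f, h0]
        · simpa using (tendsto_pow_atTop_nhds_zero_of_lt_one (norm_nonneg _) h).const_mul ‖f.1 x‖
    refine Metric.tendsto_nhds.2 fun ε hε => ?_
    filter_upwards [Metric.tendstoUniformly_iff.1 hD ε hε] with n hn
    rw [dist_zero_right, norm_norm]
    refine (ContinuousMap.norm_lt_iff _ hε).2 fun x => ?_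
    have := hn x
    rw [dist_comm, dist_zero_right, Real.norm_of_nonneg (by positivity)] at this
    simpa using this

/-- Restriction to the lateral boundary. -/
def res : A →ₐ[ℂ] C(T × J, ℂ) :=
  (ContinuousMap.compRightAlgHom ℂ ℂ ⟨fun p : T × J => (inc p.1, p.2),
    (inc_cont.comp continuous_fst).prodMk continuous_snd⟩).comp A.val

lemma res_norm (f : A) : ‖res f‖ = ‖f‖ := by
  refine le_antisymm ((ContinuousMap.norm_le (res f) (norm_nonneg f)).2 fun p =>
    f.1.norm_coe_le_norm (inc p.1, p.2))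
    ((ContinuousMap.norm_le f.1 (norm_nonneg (res f))).2 fun x => ?_)
  exact maxp x.2 (f.2.1 x.2) (fun w => (res f).norm_coe_le_norm (w, x.2)) x.1

def ev : A →ₐ[ℂ] ℂ := (ContinuousMap.evalAlgHom ℂ ℂ (o, (1 : J))).comp A.val

def p : A := aff (fun _ => 0) (fun _ => 1) continuous_const continuous_const
def q : A := aff (fun t => 1 - (t : ℝ)) (fun _ => 0) (by fun_prop) continuous_const
def wb : C(T × J, ℂ) := ⟨fun x => conj (x.1 : ℂ), by fun_prop⟩

lemma ev_p : ev p = 0 := by
  change (0 : ℂ) + 1 * (((1 : J) : ℝ) * (o : ℂ)) = 0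
  simp [o]

lemma ev_q : ev q = 0 := by
  change (1 : ℂ) - ((1 : J) : ℝ) + 0 * (((1 : J) : ℝ) * (o : ℂ)) = 0
  simp

lemma bezout : wb * res p + res q = 1 := by
  ext x
  have hw : (x.1 : ℂ) * conj (x.1 : ℂ) = 1 := by
    rw [Complex.mul_conj, Complex.normSq_eq_norm_sq, mem_sphere_zero_iff_norm.1 x.1.2]; simp
  change conj (x.1 : ℂ) * (0 + 1 * ((x.2 : ℝ) * (x.1 : ℂ))) + (1 - (x.2 : ℝ) +
    0 * ((x.2 : ℝ) * (x.1 : ℂ))) = 1
  linear_combination ((x.2 : ℝ) : ℂ) * hw

lemma wb_norm : ‖wb‖ ≤ 1 := (ContinuousMap.norm_le _ zero_le_one).2 fun x => by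
  simp [wb]

end

end Pool.Agent.Lib.H3Cortex
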