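import Mathlib

set_option autoImplicit false

/-! Smooth matrix families and trace invariants, for dimension counts. -/

namespace Pool.Agent.Lib.H3Dim

open Matrix Polynomial

noncomputable section

section smooth
variable {E : Type} [NormedAddCommGroup E] [NormedSpace ℝ E] {σ : Type} [Fintype σ] [DecidableEq σ]

def Sm (f : E → Matrix σ σ ℂ) : Prop := ∀ a b, ContDiff ℝ 1 fun θ => f θ a b

omit [DecidableEq σ] in
lemma Sm.mul {f g : E → Matrix σ σ ℂ} (hf : Sm f) (hg : Sm g) : Sm fun θ => f θ * g θ :=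
  fun a b => by
    simp only [Matrix.mul_apply]
    exact ContDiff.sum fun c _ => (hf a c).mul (hg c b)

omit [Fintype σ] [DecidableEq σ] in
lemma Sm.add {f g : E → Matrix σ σ ℂ} (hf : Sm f) (hg : Sm g) : Sm fun θ => f θ + g θ :=
  fun a b => (hf a b).add (hg a b)

omit [Fintype σ] [DecidableEq σ] in
lemma Sm.sub {f g : E → Matrix σ σ ℂ} (hf : Sm f) (hg : Sm g) : Sm fun θ => f θ - g θ :=
  fun a b => (hf a b).sub (hg a b)

omit [Fintype σ] [DecidableEq σ] in
lemma Sm.smul {c : E → ℂ} {g : E → Matrix σ σ ℂ} (hc : ContDiff ℝ 1 c) (hg : Sm g) :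
    Sm fun θ => c θ • g θ := fun a b => hc.mul (hg a b)

omit [Fintype σ] [DecidableEq σ] in
lemma Sm.conj {g : E → Matrix σ σ ℂ} (hg : Sm g) : Sm fun θ => (g θ)ᴴ :=
  fun a b => Complex.conjCLE.contDiff.comp (hg b a)

lemma Sm.pow {f : E → Matrix σ σ ℂ} (hf : Sm f) (n : ℕ) : Sm fun θ => f θ ^ n := by
  induction n with
  | zero => exact fun a b => contDiff_const
  | succ n ih => simp only [pow_succ]; exact ih.mul hf

lemma Sm.aeval {f : E → Matrix σ σ ℂ} (hf : Sm f) (p : ℂ[X]) : Sm fun θ => aeval (f θ) p := by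
  induction p using Polynomial.induction_on' with
  | add p q hp hq => simp only [map_add]; exact hp.add hq
  | monomial n c =>
    simp only [aeval_monomial, ← Algebra.smul_def]
    exact Sm.smul contDiff_const (hf.pow n)

lemma Sm.adj {f : E → Matrix σ σ ℂ} (hf : Sm f) : Sm fun θ => adjugate (f θ) := fun a b => by
  simp only [adjugate_apply, det_apply', updateRow_apply]
  refine ContDiff.sum fun s _ => contDiff_const.mul (contDiff_prod fun i _ => ?_)
  split_ifs
  exacts [contDiff_const, hf _ _]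

omit [DecidableEq σ] in
lemma Sm.trace {f : E → Matrix σ σ ℂ} (hf : Sm f) : ContDiff ℝ 1 fun θ => (trace (f θ)).re :=
  Complex.reCLM.contDiff.comp (ContDiff.sum fun c _ => hf c c)

end smooth

def inv {σ : Type} [Fintype σ] [DecidableEq σ] (p q : ℂ[X]) (X Y : Matrix σ σ ℂ) : ℝ :=
  (trace (aeval (X + Y) p * (X - Y) * aeval (X + Y) q * (X - Y))).re

lemma inv_conj {ι σ : Type} [Fintype ι] [DecidableEq ι] [Fintype σ] [DecidableEq σ]
    (R : Matrix σ ι ℂ) (S : Matrix ι σ ℂ) (h1 : R * S = 1) (h2 : S * R = 1) (p q : ℂ[X])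
    (X Y : Matrix ι ι ℂ) : inv p q (R * X * S) (R * Y * S) = inv p q X Y := by
  let φ : Matrix ι ι ℂ →ₐ[ℂ] Matrix σ σ ℂ :=
    { toFun := fun Z => R * Z * S
      map_one' := by rw [Matrix.mul_one, h1]
      map_mul' := fun Z W => by
        simp only [Matrix.mul_assoc]
        rw [← Matrix.mul_assoc S R, h2, Matrix.one_mul]
      map_zero' := by simp
      map_add' := fun Z W => by rw [Matrix.mul_add, Matrix.add_mul]
      commutes' := fun c => by
        simp only [Algebra.algebraMap_eq_smul_one, Matrix.mul_smul, Matrix.smul_mul,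
          Matrix.mul_one, h1] }
  have hφ : ∀ Z, trace (φ Z) = trace Z := fun Z => by
    change trace (R * Z * S) = _
    rw [Matrix.trace_mul_cycle, h2, Matrix.one_mul]
  change inv p q (φ X) (φ Y) = _
  simp only [inv, ← map_add, ← map_sub, aeval_algHom_apply, ← map_mul, hφ]

end

end Pool.Agent.Lib.H3Dim
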