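import Pool.Agent.Lib.helper3.Haar

set_option autoImplicit false

/-! A double orthonormal system carrying rearranged Haar blocks on anti-diagonals. -/

namespace Pool.Agent.Lib.H3Double

open MeasureTheory Set Filter Topology Pool.Agent.Lib.H3Haar
open scoped Classical

noncomputable section

def L : ℕ → ℕ
  | 0 => 0
  | j + 1 => L j + 8 ^ L j

def N (j : ℕ) : ℕ := 2 ^ L (j + 1)

lemma L_mono : StrictMono L := strictMono_nat_of_lt_succ fun j => by
  simp [L]

lemma N_lt {j j' : ℕ} (h : j < j') : 2 * N j ≤ N j' := by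
  rw [N, N, ← pow_succ']
  exact Nat.pow_le_pow_right two_pos (L_mono (by omega))

abbrev Blk (j : ℕ) := Σ r : Fin (8 ^ L j), Fin (2 ^ (L j + r))
abbrev Idx := Σ j : ℕ, Blk j

def lev (t : Idx) : ℕ := L t.1 + t.2.1
def u (t : Idx) : ℕ := (2 * (t.2.2 : ℕ) + 1) * 2 ^ (8 ^ L t.1 - (t.2.1 : ℕ) - 1)
def pos (t : Idx) : ℕ × ℕ := (N t.1 + u t, 2 * N t.1 - u t)

lemma u_pos (t : Idx) : 0 < u t := by unfold u; positivity

lemma u_lt (t : Idx) : u t < N t.1 := by
  obtain ⟨j, r, q⟩ := t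
  have h : L (j + 1) = (L j + r + 1) + (8 ^ L j - r - 1) := by have := r.2; simp only [L]; omega
  have hq := q.2
  simp only [u, N]
  rw [h, pow_add 2 (L j + r + 1)]
  exact Nat.mul_lt_mul_of_pos_right (by omega) (by positivity)

lemma odd_pow {a a' q q' : ℕ} (h : (2 * q + 1) * 2 ^ a = (2 * q' + 1) * 2 ^ a') : a = a' := by
  wlog h1 : a ≤ a' generalizing a a' q q'
  · exact (this h.symm (by omega)).symm
  obtain ⟨d, rfl⟩ := Nat.exists_eq_add_of_le h1
  rw [pow_add, mul_comm (2 ^ a), ← mul_assoc] at h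
  have h2 := Nat.eq_of_mul_eq_mul_right (by positivity) h
  rcases d with _ | d
  · rfl
  · rw [pow_succ, ← mul_assoc] at h2; omega

lemma pos_inj : Function.Injective pos := by
  rintro ⟨j, r, q⟩ ⟨j', r', q'⟩ h
  have h1 := u_lt ⟨j, r, q⟩
  have h2 := u_lt ⟨j', r', q'⟩
  simp only [pos, Prod.mk.injEq] at h h1 h2
  have hj : j = j' := by
    rcases lt_trichotomy j j' with h3 | h3 | h3
    · have := N_lt h3; omega
    · exact h3
    · have := N_lt h3; omega
  subst hj
  have h4 : u ⟨j, r, q⟩ = u ⟨j, r', q'⟩ := by omega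
  have h5 := odd_pow h4
  have hr : r = r' := Fin.ext (by have := r.2; have := r'.2; simp only at h5; omega)
  subst hr
  have h6 := Nat.eq_of_mul_eq_mul_right (by positivity) h4
  have hq : q = q' := Fin.ext (by simp only at h6; omega)
  rw [hq]

lemma lev_inj {t t' : Idx} (h : (lev t, (t.2.2 : ℕ)) = (lev t', (t'.2.2 : ℕ))) : t = t' := by
  obtain ⟨j, r, q⟩ := t
  obtain ⟨j', r', q'⟩ := t'
  simp only [lev, Prod.mk.injEq] at h
  have hr := r.2
  have hr' := r'.2
  have hj : j = j' := by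
    rcases lt_trichotomy j j' with h3 | h3 | h3
    · have := L_mono.monotone (show j + 1 ≤ j' from h3); simp only [L] at this; omega
    · exact h3
    · have := L_mono.monotone (show j' + 1 ≤ j from h3); simp only [L] at this; omega
  subst hj
  have hr : r = r' := Fin.ext (by omega)
  subst hr
  rw [Fin.ext h.2]

def A : ℕ × ℕ → ℝ → ℝ := Function.extend pos (fun t => H (lev t) t.2.2) fun _ _ => 1
def B : ℕ × ℕ → ℝ → ℝ := Function.extend pos (fun _ _ => 1) fun p => H (Nat.pair p.1 p.2 + 1) 1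
def φ (i k : ℕ) (z : ℝ × ℝ) : ℝ := A (i, k) z.1 * B (i, k) z.2
def co : ℕ × ℕ → ℝ := Function.extend pos (fun t => 2 / 8 ^ L t.1 / √(2 ^ lev t)) 0
def lam (m n : ℕ) : ℝ :=
  1 + ∑ i ∈ Finset.range (m + 1), ∑ k ∈ Finset.range (n + 1), if (i, k) ∈ range pos then 1 else 0

lemma A_pos (t : Idx) : A (pos t) = H (lev t) t.2.2 := pos_inj.extend_apply _ _ _
lemma B_pos (t : Idx) : B (pos t) = fun _ => 1 := pos_inj.extend_apply _ _ _
lemma co_pos (t : Idx) : co (pos t) = 2 / 8 ^ L t.1 / √(2 ^ lev t) := pos_inj.extend_apply _ _ _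
lemma A_off {p : ℕ × ℕ} (h : p ∉ range pos) : A p = fun _ => 1 := Function.extend_apply' _ _ _ h
lemma B_off {p : ℕ × ℕ} (h : p ∉ range pos) : B p = H (Nat.pair p.1 p.2 + 1) 1 :=
  Function.extend_apply' _ _ _ h
lemma co_off {p : ℕ × ℕ} (h : p ∉ range pos) : co p = 0 := Function.extend_apply' _ _ _ h

abbrev μ : Measure (ℝ × ℝ) := volume.restrict (Icc (0 : ℝ) 1 ×ˢ Icc (0 : ℝ) 1)

lemma μ_eq : μ = ν.prod ν := by rw [Measure.prod_restrict]; rfl

lemma one_lt (c : ℕ) : 1 < 2 ^ (c + 1) := Nat.one_lt_two_pow (by omega)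

lemma orth (p p' : ℕ × ℕ) : ∫ z, φ p.1 p.2 z * φ p'.1 p'.2 z ∂μ = if p = p' then 1 else 0 := by
  have e : ∀ z : ℝ × ℝ, φ p.1 p.2 z * φ p'.1 p'.2 z = (A p z.1 * A p' z.1) * (B p z.2 * B p' z.2) :=
    fun z => mul_mul_mul_comm _ _ _ _
  simp only [e]
  rw [μ_eq, integral_prod_mul (fun x => A p x * A p' x) (fun y => B p y * B p' y)]
  by_cases h : p ∈ range pos <;> by_cases h' : p' ∈ range pos
  · obtain ⟨t, rfl⟩ := h
    obtain ⟨t', rfl⟩ := h'
    rw [A_pos, A_pos, B_pos, B_pos, int_HH (lev t) _ (lev t') _ t.2.2.2 t'.2.2.2]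
    by_cases h1 : t = t'
    · subst h1; simp
    · rw [if_neg fun h => h1 (lev_inj h), if_neg fun h => h1 (pos_inj h), zero_mul]
  · have : p ≠ p' := fun e => h' (e ▸ h)
    obtain ⟨t, rfl⟩ := h
    simp [B_pos, B_off h', int_H _ _ (one_lt _), this]
  · have : p ≠ p' := fun e => h (e ▸ h')
    obtain ⟨t, rfl⟩ := h'
    simp [B_pos, B_off h, int_H _ _ (one_lt _), this]
  · rw [A_off h, A_off h', B_off h, B_off h', int_HH _ _ _ _ (one_lt _) (one_lt _)]
    simp [Nat.pair_eq_pair, Prod.ext_iff]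

lemma φ_mem (i k : ℕ) : MemLp (φ i k) 2 μ := by
  have : IsFiniteMeasure μ := by rw [μ_eq]; infer_instance
  by_cases h : (i, k) ∈ range pos
  · obtain ⟨t, ht⟩ := h
    have e : φ i k = fun z => H (lev t) t.2.2 z.1 := by
      funext z; rw [φ, ← ht, A_pos, B_pos, mul_one]
    rw [e]
    exact MemLp.of_bound ((H_meas _ _).comp measurable_fst).aestronglyMeasurable _
      (ae_of_all _ fun z => H_bdd _ _ _)
  · have e : φ i k = fun z => H (Nat.pair i k + 1) 1 z.2 := by
      funext z; rw [φ, A_off h, B_off h, one_mul]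
    rw [e]
    exact MemLp.of_bound ((H_meas _ _).comp measurable_snd).aestronglyMeasurable _
      (ae_of_all _ fun z => H_bdd _ _ _)

lemma lam_eq (m n : ℕ) : lam m n =
    1 + ((Finset.range (m + 1) ×ˢ Finset.range (n + 1)).filter (· ∈ range pos)).card := by
  rw [lam, ← Finset.sum_product' (f := fun i k => if (i, k) ∈ range pos then (1 : ℝ) else 0),
    Finset.card_filter]
  push_cast; rfl

lemma lam_top (M : ℝ) : ∃ K, ∀ i k, K ≤ i → K ≤ k → M ≤ lam i k := by
  obtain ⟨m, hm⟩ := exists_nat_ge M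
  refine ⟨2 * N m, fun i k hi hk => ?_⟩
  let t : ∀ j, Blk j := fun j => ⟨⟨0, by positivity⟩, ⟨0, by positivity⟩⟩
  have h := Finset.card_le_card_of_injOn (s := Finset.range m)
    (t := (Finset.range (i + 1) ×ˢ Finset.range (k + 1)).filter (· ∈ range pos))
    (fun j => pos ⟨j, t j⟩) (fun j hj => by
      have h1 := N_lt (Finset.mem_range.1 hj)
      have h2 := u_lt ⟨j, t j⟩
      simp only [Finset.coe_filter, Finset.mem_product, Finset.mem_range, mem_ofPred_eq,
        mem_range_self, and_true]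
      simp only [pos] at h2 ⊢
      omega) (fun j _ j' _ h => congrArg Sigma.fst (pos_inj h))
  rw [Finset.card_range] at h
  rw [lam_eq]
  have : (m : ℝ) ≤ _ := Nat.cast_le.2 h
  linarith

lemma lam_pos_le (t : Idx) : lam (pos t).1 (pos t).2 ≤ 6 * 4 ^ L t.1 := by
  have h := Finset.card_le_card (s := (Finset.range ((pos t).1 + 1) ×ˢ
    Finset.range ((pos t).2 + 1)).filter (· ∈ range pos))
    (t := insert (pos t) (Finset.range (2 * 2 ^ L t.1) ×ˢ Finset.range (2 * 2 ^ L t.1))) (by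
      intro p hp
      obtain ⟨h1, t', rfl⟩ := Finset.mem_filter.1 hp
      have h2 := u_lt t
      have h3 := u_lt t'
      have h4 := u_pos t'
      simp only [Finset.mem_product, Finset.mem_range, pos, Finset.mem_insert,
        Prod.mk.injEq] at h1 ⊢
      rcases lt_trichotomy t'.1 t.1 with h5 | h5 | h5
      · have : N t'.1 ≤ 2 ^ L t.1 := Nat.pow_le_pow_right two_pos (L_mono.monotone h5)
        omega
      · rw [h5] at h1 h3 ⊢; omega
      · have := N_lt h5; omega)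
  have h2 := h.trans (Finset.card_insert_le _ _)
  rw [Finset.card_product, Finset.card_range] at h2
  rw [lam_eq]
  have h3 : (_ : ℝ) ≤ _ := Nat.cast_le.2 h2
  have h4 : (4 : ℝ) ^ L t.1 = 2 ^ L t.1 * 2 ^ L t.1 := by rw [← mul_pow]; norm_num
  have h5 : (1 : ℝ) ≤ 4 ^ L t.1 := one_le_pow₀ (by norm_num)
  push_cast at h3
  linarith

lemma lam_one (m n : ℕ) : 1 ≤ lam m n := by rw [lam_eq]; simp

lemma co_summable : Summable fun p : ℕ × ℕ => co p ^ 2 * lam p.1 p.2 := by
  refine (pos_inj.summable_iff fun p hp => by simp [co_off hp]).1 ?_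
  have h0 : ∀ t : Idx, 0 ≤ co (pos t) ^ 2 * lam (pos t).1 (pos t).2 := fun t =>
    mul_nonneg (sq_nonneg _) (zero_le_one.trans (lam_one _ _))
  refine (summable_sigma_of_nonneg h0).2 ⟨fun j => Summable.of_finite, ?_⟩
  refine Summable.of_nonneg_of_le (fun j => tsum_nonneg fun t => h0 _) (fun j => ?_)
    (summable_geometric_two.mul_left 24)
  rw [tsum_fintype]
  have h1 : ∀ t : Blk j, co (pos ⟨j, t⟩) ^ 2 * lam (pos ⟨j, t⟩).1 (pos ⟨j, t⟩).2 ≤
      (2 / 8 ^ L j) ^ 2 / 2 ^ (L j + t.1) * (6 * 4 ^ L j) := fun t => by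
    rw [co_pos, div_pow, Real.sq_sqrt (by positivity)]
    exact mul_le_mul_of_nonneg_left (lam_pos_le _) (by positivity)
  refine (Finset.sum_le_sum fun t _ => h1 t).trans ?_
  rw [Fintype.sum_sigma]
  have h2 : ∀ r : Fin (8 ^ L j), ∑ _q : Fin (2 ^ (L j + r)),
      (2 / 8 ^ L j : ℝ) ^ 2 / 2 ^ (L j + r) * (6 * 4 ^ L j) = (2 / 8 ^ L j) ^ 2 * (6 * 4 ^ L j) :=
    fun r => by simp; field_simp
  simp only [h2]
  have h3 : (1 / 2 : ℝ) ^ L j ≤ (1 / 2) ^ j :=
    pow_le_pow_of_le_one (by norm_num) (by norm_num) (L_mono.id_le j)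
  have h4 : (8 : ℝ) ^ L j = 4 ^ L j * 2 ^ L j := by rw [← mul_pow]; norm_num
  refine le_trans (le_of_eq ?_) (mul_le_mul_of_nonneg_left h3 (by norm_num))
  simp only [Finset.sum_const, Finset.card_univ, Fintype.card_fin, nsmul_eq_mul, one_div, inv_pow]
  push_cast
  rw [h4]; field_simp; norm_num

def S (a : ℕ → ℕ → ℝ) (m n : ℕ) (z : ℝ × ℝ) : ℝ :=
  ∑ i ∈ Finset.range (m + 1), ∑ k ∈ Finset.range (n + 1), a i k * φ i k z

lemma growth (a : ℕ → ℕ → ℝ) (ha : Summable fun p : ℕ × ℕ => a p.1 p.2 ^ 2) :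
    ∀ᵐ z ∂μ, ∃ C : ℝ, ∀ m n, |S a m n z| / √(lam m n) ≤ C := by
  have hi : ∀ p : ℕ × ℕ, Integrable (fun z => (a p.1 p.2 * φ p.1 p.2 z) ^ 2) μ := fun p =>
    ((φ_mem p.1 p.2).const_mul _).integrable_sq
  have he : ∀ p : ℕ × ℕ, ∫ z, ‖(a p.1 p.2 * φ p.1 p.2 z) ^ 2‖ ∂μ = a p.1 p.2 ^ 2 := fun p => by
    have := orth p p
    simp only [if_true, ← sq] at this
    simp only [norm_pow, Real.norm_eq_abs, sq_abs]
    simp only [mul_pow]
    rw [integral_const_mul, this, mul_one]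
  have hfin : ∫⁻ z, ∑' p : ℕ × ℕ, ‖(a p.1 p.2 * φ p.1 p.2 z) ^ 2‖ₑ ∂μ ≠ ⊤ := by
    rw [lintegral_tsum fun p => (hi p).1.enorm]
    simp only [← ofReal_integral_norm_eq_lintegral_enorm (hi _), he]
    rw [← ENNReal.ofReal_tsum_of_nonneg (fun p => sq_nonneg _) ha]
    exact ENNReal.ofReal_ne_top
  filter_upwards [ae_lt_top' (AEMeasurable.tsum fun p => (hi p).1.enorm) hfin] with z hz
  have hs : Summable fun p : ℕ × ℕ => (a p.1 p.2 * φ p.1 p.2 z) ^ 2 :=
    .of_norm (NNReal.summable_coe.2 (ENNReal.tsum_coe_ne_top_iff_summable.1 hz.ne))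
  refine ⟨√(∑' p : ℕ × ℕ, (a p.1 p.2 * φ p.1 p.2 z) ^ 2), fun m n => ?_⟩
  have hl : 0 < lam m n := one_pos.trans_le (lam_one m n)
  rw [div_le_iff₀ (Real.sqrt_pos.2 hl), ← Real.sqrt_mul (tsum_nonneg fun p => sq_nonneg _)]
  refine Real.le_sqrt_of_sq_le ?_
  set R := Finset.range (m + 1) ×ˢ Finset.range (n + 1) with hR
  set T := R.filter fun p => φ p.1 p.2 z ≠ 0 with hT
  have e : S a m n z = ∑ p ∈ T, a p.1 p.2 * φ p.1 p.2 z := by
    rw [S, ← Finset.sum_product' (f := fun i k => a i k * φ i k z), hT, Finset.sum_filter_of_ne]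
    exact fun p _ h => right_ne_zero_of_mul h
  have h1 : (T.filter (· ∉ range pos)).card ≤ 1 := Finset.card_le_one.2 fun p hp p' hp' => by
    have key : ∀ p ∈ T.filter (· ∉ range pos), b (Nat.pair p.1 p.2 + 1) z.2 = 1 := fun p hp => by
      obtain ⟨h2, h3⟩ := Finset.mem_filter.1 hp
      have h4 := right_ne_zero_of_mul (Finset.mem_filter.1 h2).2
      rw [B_off h3] at h4
      exact H_supp h4
    have aux : ∀ c c', b (c + 1) z.2 = 1 → b (c' + 1) z.2 = 1 → ¬ c < c' := fun c c' h h' hc => by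
      obtain ⟨d, rfl⟩ := Nat.exists_eq_add_of_lt hc
      have := b_div (c + 1) (d + 1) z.2
      rw [show c + 1 + (d + 1) = c + d + 1 + 1 by ring, h', h, Nat.div_eq_of_lt (one_lt d)] at this
      omega
    have := le_antisymm (not_lt.1 (aux _ _ (key p' hp') (key p hp)))
      (not_lt.1 (aux _ _ (key p hp) (key p' hp')))
    exact Prod.ext (Nat.pair_eq_pair.1 this).1 (Nat.pair_eq_pair.1 this).2
  have h2 : (T.card : ℝ) ≤ lam m n := by
    have h3 := Finset.card_filter_add_card_filter_not (s := T) (· ∈ range pos)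
    have h4 : (T.filter (· ∈ range pos)).card ≤ (R.filter (· ∈ range pos)).card :=
      Finset.card_le_card (Finset.filter_subset_filter _ (Finset.filter_subset _ _))
    rw [lam_eq]
    exact_mod_cast (by omega : T.card ≤ 1 + (R.filter (· ∈ range pos)).card)
  rw [sq_abs, e, mul_comm]
  exact sq_sum_le_card_mul_sum_sq.trans (mul_le_mul h2 (hs.sum_le_tsum T fun p _ => sq_nonneg _)
    (Finset.sum_nonneg fun p _ => sq_nonneg _) hl.le)

lemma jump (j : ℕ) (z : ℝ × ℝ) (h0 : 0 ≤ z.1) (h1 : z.1 < 1) :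
    2 * S (fun i k => co (i, k)) (N j + b (L (j + 1)) z.1) (2 * N j) z -
      S (fun i k => co (i, k)) (N j) (2 * N j) z - S (fun i k => co (i, k)) (2 * N j) (2 * N j) z
      = 2 := by
  set U := b (L (j + 1)) z.1 with hU
  have hUN : U < N j := b_lt _ h0 h1
  let w : ℕ → ℝ := fun i => 2 * (if i ≤ N j + U then 1 else 0) - (if i ≤ N j then 1 else 0) - 1
  have e : ∀ m ≤ 2 * N j, S (fun i k => co (i, k)) m (2 * N j) z =
      ∑ p ∈ Finset.range (2 * N j + 1) ×ˢ Finset.range (2 * N j + 1),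
        (if p.1 ≤ m then 1 else 0) * (co p * φ p.1 p.2 z) := fun m hm => by
    rw [Finset.sum_product, S]
    simp only [ite_mul, one_mul, zero_mul, Finset.sum_ite_irrel, Finset.sum_const_zero]
    rw [← Finset.sum_filter]
    refine Finset.sum_congr ?_ fun _ _ => rfl
    ext i; simp only [Finset.mem_range, Finset.mem_filter]; omega
  rw [e _ (by omega), e _ (by omega), e _ le_rfl, Finset.mul_sum, ← Finset.sum_sub_distrib,
    ← Finset.sum_sub_distrib]
  rw [Finset.sum_congr rfl (g := fun p => w p.1 * (co p * φ p.1 p.2 z)) fun p hp => by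
    have : p.1 ≤ 2 * N j := by have := Finset.mem_range.1 (Finset.mem_product.1 hp).1; omega
    simp only [w, if_pos this]; ring]
  rw [← Finset.sum_of_injOn (s := (Finset.univ : Finset (Blk j))) (fun t => pos ⟨j, t⟩)
    (f := fun t => if b (L j + t.1) z.1 = t.2 then (2 / 8 ^ L j : ℝ) else 0)
    (fun t _ t' _ h => by simpa using pos_inj h) (fun t _ => by
      have := u_lt ⟨j, t⟩
      simp only [pos, Finset.coe_product, Finset.coe_range, mem_prod, mem_Iio] at this ⊢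
      omega) (fun p hp hp' => ?_) (fun t _ => ?_)]
  · rw [Fintype.sum_sigma]
    have : ∀ r : Fin (8 ^ L j), (∑ q : Fin (2 ^ (L j + r)),
        if b (L j + r) z.1 = q then (2 / 8 ^ L j : ℝ) else 0) = 2 / 8 ^ L j := fun r => by
      rw [Finset.sum_eq_single ⟨_, b_lt (L j + r) h0 h1⟩ (fun q _ hq => if_neg fun h =>
        hq (Fin.ext h.symm)) (by simp), if_pos rfl]
    simp only [this, Finset.sum_const, Finset.card_univ, Fintype.card_fin, nsmul_eq_mul]
    push_cast; field_simp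
  · by_cases h : p ∈ range pos
    · obtain ⟨⟨j', t⟩, rfl⟩ := h
      have h2 := u_lt ⟨j', t⟩
      have h3 := u_pos ⟨j', t⟩
      have h4 := Finset.mem_range.1 (Finset.mem_product.1 hp).1
      simp only [pos] at h2 h4
      rcases lt_trichotomy j' j with h5 | rfl | h5
      · have := N_lt h5
        simp only [w, pos]
        rw [if_pos (by omega), if_pos (by omega)]; ring
      · exact (hp' ⟨t, by simp, rfl⟩).elim
      · have := N_lt h5; omega
    · rw [co_off h, zero_mul, mul_zero]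
  · obtain ⟨r, q⟩ := t
    have h2 := u_pos ⟨j, r, q⟩
    have h3 : L (j + 1) = (L j + r + 1) + (8 ^ L j - r - 1) := by have := r.2; simp only [L]; omega
    have h4 : u ⟨j, r, q⟩ ≤ U ↔ 2 * q + 1 ≤ b (L j + r + 1) z.1 := by
      rw [← b_div (L j + r + 1) (8 ^ L j - r - 1), ← h3, Nat.le_div_iff_mul_le (by positivity)]
      rfl
    have h5 : φ (pos ⟨j, r, q⟩).1 (pos ⟨j, r, q⟩).2 z =
        √(2 ^ (L j + r)) * G q (b (L j + r + 1) z.1) := by
      rw [φ, A_pos, B_pos, mul_one]; rfl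
    have h6 : (√(2 ^ (L j + r)) : ℝ) ≠ 0 := by positivity
    rw [h5, co_pos, ← mul_assoc (_ / _), show lev ⟨j, r, q⟩ = L j + r from rfl,
      div_mul_cancel₀ _ h6, ← b_succ]
    simp only [w, pos, add_le_add_iff_left, h4, G]
    rw [if_neg (show ¬ N j + u ⟨j, r, q⟩ ≤ N j by omega)]
    split_ifs <;> first | omega | ring

lemma diverge : ∀ᵐ z ∂μ, ¬ ∃ l : ℝ,
    Tendsto (fun p : ℕ × ℕ => S (fun i k => co (i, k)) p.1 p.2 z) atTop (𝓝 l) := by
  have h : ∀ᵐ z ∂μ, z.1 ≠ 1 := by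
    rw [μ_eq]
    exact Measure.quasiMeasurePreserving_fst.ae (Measure.ae_ne ν 1)
  filter_upwards [h, ae_restrict_mem (measurableSet_Icc.prod measurableSet_Icc)] with z h1 hz
  rintro ⟨l, hl⟩
  have hN : Tendsto N atTop atTop := tendsto_atTop_mono (fun j => by
    have := L_mono.id_le (j + 1)
    have h2 : L (j + 1) < 2 ^ L (j + 1) := Nat.lt_two_pow_self
    simp only [id, N] at this ⊢; omega) tendsto_id
  have key : ∀ f : ℕ → ℕ, (∀ j, N j ≤ f j) →
      Tendsto (fun j => S (fun i k => co (i, k)) (f j) (2 * N j) z) atTop (𝓝 l) := fun f hf =>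
    hl.comp (f := fun j => (f j, 2 * N j)) (by
      rw [← prod_atTop_atTop_eq]
      exact (tendsto_atTop_mono hf hN).prodMk (tendsto_atTop_mono (fun j => by omega) hN))
  have h2 := (((key (fun j => N j + b (L (j + 1)) z.1) fun j => by omega).const_mul 2).sub
    (key N fun j => le_rfl)).sub (key (fun j => 2 * N j) fun j => by omega)
  simp only [jump _ z hz.1.1 (lt_of_le_of_ne hz.1.2 h1), tendsto_const_nhds_iff] at h2
  linarith

end

end Pool.Agent.Lib.H3Double
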