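import Mathlib

open Filter Topology

namespace Pool.Agent.Lib.helper3.EssSpec

variable {H : Type*} [NormedAddCommGroup H] [InnerProductSpace ℂ H]

/-- The essential spectrum: the `z` for which `A - z` is not invertible modulo the compact
operators, i.e. the spectrum of the image of `A` in the Calkin algebra. -/
def essSpectrum (A : H →L[ℂ] H) : Set ℂ :=
  {z | ¬ ∃ B : H →L[ℂ] H, IsCompactOperator (B * (A - z • 1) - 1 : H →L[ℂ] H) ∧
    IsCompactOperator ((A - z • 1) * B - 1 : H →L[ℂ] H)}

theorem cpt_mul_left {K : H →L[ℂ] H} (hK : IsCompactOperator K) (B : H →L[ℂ] H) :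
    IsCompactOperator (B * K : H →L[ℂ] H) := hK.clm_comp B

theorem cpt_mul_right {K : H →L[ℂ] H} (hK : IsCompactOperator K) (B : H →L[ℂ] H) :
    IsCompactOperator (K * B : H →L[ℂ] H) := hK.comp_clm B

theorem cpt_add {K K' : H →L[ℂ] H} (hK : IsCompactOperator K) (hK' : IsCompactOperator K') :
    IsCompactOperator (K + K' : H →L[ℂ] H) := hK.add hK'

theorem cpt_sub {K K' : H →L[ℂ] H} (hK : IsCompactOperator K) (hK' : IsCompactOperator K') :
    IsCompactOperator (K - K' : H →L[ℂ] H) := hK.sub hK'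

variable [CompleteSpace H]

theorem compact_of_essSpectrum {A : H →L[ℂ] H} (hA : IsSelfAdjoint A) {t : ℝ}
    (h : essSpectrum A ⊆ {(t : ℂ)}) : IsCompactOperator (A - (t : ℂ) • 1 : H →L[ℂ] H) := by
  let φ : C(spectrum ℝ A, ℝ) →⋆ₐ[ℝ] (H →L[ℂ] H) := cfcHom hA
  have hφc : Continuous φ := cfcHom_continuous hA
  have hφn : ∀ f, ‖φ f‖ = ‖f‖ := fun f => norm_cfcHom A f hA
  let idf : C(spectrum ℝ A, ℝ) := (ContinuousMap.id ℝ).restrict (spectrum ℝ A)
  have hid : φ idf = A := cfcHom_id hA
  have hsub : ∀ r : ℝ, φ (idf - algebraMap ℝ _ r) = A - (r : ℂ) • 1 := by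
    intro r
    rw [map_sub, hid, AlgHomClass.commutes, Algebra.algebraMap_eq_smul_one, Complex.coe_smul]
  let I : Ideal C(spectrum ℝ A, ℝ) :=
    { carrier := {f | IsCompactOperator (φ f)}
      add_mem' := fun {f g} hf hg => by
        simp only [Set.mem_ofPred_eq, map_add] at hf hg ⊢
        exact cpt_add hf hg
      zero_mem' := by
        simp only [Set.mem_ofPred_eq, map_zero]
        exact isCompactOperator_zero
      smul_mem' := fun c f hf => by
        simp only [Set.mem_ofPred_eq, smul_eq_mul, map_mul] at hf ⊢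
        exact cpt_mul_left hf _ }
  have hIc : IsClosed (I : Set C(spectrum ℝ A, ℝ)) :=
    (isClosed_setOfPred_isCompactOperator (σ₁₂ := RingHom.id ℂ) (M₁ := H) (M₂ := H)).preimage hφc
  have hmem : idf - algebraMap ℝ _ t ∈ I := by
    rw [← ContinuousMap.idealOfSet_ofIdeal_isClosed hIc, ContinuousMap.mem_idealOfSet]
    intro x hx
    by_contra hne
    apply hx
    have hxt : (x : ℝ) ≠ t := by
      intro e
      apply hne
      simp [idf, e]
    have hz : ((x : ℝ) : ℂ) ∉ essSpectrum A := fun hz =>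
      hxt (Complex.ofReal_injective (Set.mem_singleton_iff.1 (h hz)))
    simp only [essSpectrum, Set.mem_ofPred_eq, not_not] at hz
    obtain ⟨B, hB, -⟩ := hz
    set δ : ℝ := 1 / (2 * (‖B‖ + 1)) with hδ
    have hδ0 : 0 < δ := by positivity
    have hBδ : ‖B‖ * δ ≤ 1 / 2 := by
      rw [hδ, mul_one_div, div_le_div_iff₀ (by positivity) (by positivity)]
      nlinarith [norm_nonneg B]
    let g : C(spectrum ℝ A, ℝ) := ⟨fun y => max 0 (δ - |(y : ℝ) - x|), by fun_prop⟩
    let u : C(spectrum ℝ A, ℝ) := idf - algebraMap ℝ _ (x : ℝ)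
    have hu : φ u = A - ((x : ℝ) : ℂ) • 1 := hsub x
    have hstep : ∀ k : ℕ, IsCompactOperator (φ g - B ^ k * φ (u ^ k * g) : H →L[ℂ] H) := by
      intro k
      induction k with
      | zero =>
        simp only [pow_zero, one_mul, sub_self]
        exact isCompactOperator_zero
      | succ k ih =>
        have e : φ g - B ^ (k + 1) * φ (u ^ (k + 1) * g) = (φ g - B ^ k * φ (u ^ k * g)) -
            B ^ k * ((B * (A - ((x : ℝ) : ℂ) • 1) - 1) * φ (u ^ k * g)) := by
          rw [pow_succ' u, mul_assoc u, map_mul φ u, hu, pow_succ B]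
          noncomm_ring
        rw [e]
        exact cpt_sub ih (cpt_mul_left (cpt_mul_right hB _) _)
    have hbound : ∀ k : ℕ, ‖B ^ k * φ (u ^ k * g)‖ ≤ (1 / 2) ^ k * δ := by
      intro k
      have h1 : ‖u ^ k * g‖ ≤ δ ^ k * δ := by
        rw [ContinuousMap.norm_le _ (by positivity)]
        intro y
        have ey : (u ^ k * g) y = ((y : ℝ) - x) ^ k * max 0 (δ - |(y : ℝ) - x|) := by
          simp [u, g, idf]
        rw [ey, norm_mul, norm_pow, Real.norm_eq_abs, Real.norm_eq_abs]
        by_cases hy : |(y : ℝ) - x| ≤ δ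
        · rw [max_eq_right (by linarith), abs_of_nonneg (by linarith : 0 ≤ δ - |(y : ℝ) - x|)]
          exact mul_le_mul (pow_le_pow_left₀ (abs_nonneg _) hy k) (by linarith [abs_nonneg ((y : ℝ) - x)])
            (by linarith) (by positivity)
        · rw [max_eq_left (by linarith), abs_zero, mul_zero]
          positivity
      have h2 : ‖B ^ k‖ ≤ ‖B‖ ^ k := by
        rcases Nat.eq_zero_or_pos k with rfl | hk
        · rw [pow_zero, pow_zero]
          exact ContinuousLinearMap.norm_id_le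
        · exact norm_pow_le' B hk
      calc _ ≤ ‖B ^ k‖ * ‖φ (u ^ k * g)‖ := norm_mul_le _ _
        _ ≤ ‖B‖ ^ k * (δ ^ k * δ) := by
          rw [hφn]
          exact mul_le_mul h2 h1 (norm_nonneg _) (by positivity)
        _ = (‖B‖ * δ) ^ k * δ := by ring
        _ ≤ _ := mul_le_mul_of_nonneg_right (pow_le_pow_left₀ (by positivity) hBδ k) hδ0.le
    have ht0 : Tendsto (fun k : ℕ => B ^ k * φ (u ^ k * g)) atTop (𝓝 0) := by
      refine squeeze_zero_norm hbound ?_
      simpa using (tendsto_pow_atTop_nhds_zero_of_lt_one (r := (1 / 2 : ℝ)) (by norm_num)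
        (by norm_num)).mul_const δ
    have ht1 : Tendsto (fun k : ℕ => φ g - B ^ k * φ (u ^ k * g)) atTop (𝓝 (φ g)) := by
      simpa using ht0.const_sub (φ g)
    have hg : g ∈ I := isCompactOperator_of_tendsto ht1 (Eventually.of_forall hstep)
    rw [ContinuousMap.mem_setOfIdeal]
    refine ⟨g, hg, ?_⟩
    have : g x = δ := by simp [g, hδ0.le]
    rw [this]
    exact hδ0.ne'
  have : IsCompactOperator (φ (idf - algebraMap ℝ _ t)) := hmem
  rwa [hsub] at this

end Pool.Agent.Lib.helper3.EssSpec
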