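import Pool.Agent.Lib.helper3.BanachLim
import Pool.Agent.Lib.helper3.EssSpec

open Filter Topology
open scoped InnerProductSpace ComplexOrder ENNReal

namespace Pool.Agent.Lib.helper3.BanachLim

variable {H : Type*} [NormedAddCommGroup H] [InnerProductSpace ℂ H] [CompleteSpace H]

theorem exists_orthonormal_seq (hH : ¬ FiniteDimensional ℂ H) :
    ∃ e : ℕ → H, Orthonormal ℂ e := by
  obtain ⟨w, b, hb⟩ := exists_hilbertBasis ℂ H
  have hw : w.Infinite := by
    intro hf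
    apply hH
    have hr : Set.range b = w := by rw [hb]; exact Subtype.range_coe
    have hd := b.dense_span
    rw [hr] at hd
    have : FiniteDimensional ℂ (Submodule.span ℂ w) := FiniteDimensional.span_of_finite ℂ hf
    rw [(Submodule.closed_of_finiteDimensional _).submodule_topologicalClosure_eq] at hd
    rw [hd] at this
    exact LinearEquiv.finiteDimensional Submodule.topEquiv
  exact ⟨b ∘ hw.natEmbedding, b.orthonormal.comp _ (hw.natEmbedding).injective⟩

theorem avg_compact {K : H →L[ℂ] H} (hK : IsCompactOperator K) {e : ℕ → H}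
    (he : Orthonormal ℂ e) {M ε : ℝ} (hM : 0 ≤ M) (hε : 0 < ε) :
    ∃ C : ℝ, ∀ S : H →L[ℂ] H, ‖S‖ ≤ M → ∀ N : ℕ,
      ∑ i ∈ Finset.range N, ‖⟪S (e i), K (S (e i))⟫_ℂ‖ ≤ N * ((M + 1) * ε) + C := by
  obtain ⟨Q, hQ, hQs⟩ := IsCompactOperator.image_closedBall_subset_compact
    (f := (K : H →ₗ[ℂ] H)) hK M
  obtain ⟨s, hs, hcov⟩ := Metric.totallyBounded_iff.1 hQ.totallyBounded ε hε
  lift s to Finset H using hs
  refine ⟨(∑ u ∈ s, (M * ‖u‖) ^ 2) / ε, fun S hS N => ?_⟩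
  have hpt : ∀ i, ‖⟪S (e i), K (S (e i))⟫_ℂ‖ ≤ (M + 1) * ε +
      (∑ u ∈ s, ‖⟪e i, ContinuousLinearMap.adjoint S u⟫_ℂ‖ ^ 2) / ε := by
    intro i
    have h1 : ‖S (e i)‖ ≤ M := by
      have := S.le_of_opNorm_le hS (e i)
      rwa [he.1 i, mul_one] at this
    have h2 : K (S (e i)) ∈ Q := hQs ⟨S (e i), by simpa using h1, rfl⟩
    obtain ⟨u, hu, hud⟩ := Set.mem_iUnion₂.1 (hcov h2)
    rw [Metric.mem_ball, dist_eq_norm] at hud
    have e1 : ⟪S (e i), K (S (e i))⟫_ℂ = ⟪S (e i), K (S (e i)) - u⟫_ℂ +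
        ⟪e i, ContinuousLinearMap.adjoint S u⟫_ℂ := by
      rw [ContinuousLinearMap.adjoint_inner_right, inner_sub_right]; ring
    have h3 : ‖⟪S (e i), K (S (e i)) - u⟫_ℂ‖ ≤ M * ε :=
      (norm_inner_le_norm _ _).trans (mul_le_mul h1 hud.le (norm_nonneg _) hM)
    have h4 : ‖⟪e i, ContinuousLinearMap.adjoint S u⟫_ℂ‖ ^ 2 ≤
        ∑ u ∈ s, ‖⟪e i, ContinuousLinearMap.adjoint S u⟫_ℂ‖ ^ 2 :=
      Finset.single_le_sum (f := fun u => ‖⟪e i, ContinuousLinearMap.adjoint S u⟫_ℂ‖ ^ 2)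
        (fun _ _ => sq_nonneg _) (by exact_mod_cast hu)
    have h5 : ‖⟪e i, ContinuousLinearMap.adjoint S u⟫_ℂ‖ ≤ ε +
        (∑ u ∈ s, ‖⟪e i, ContinuousLinearMap.adjoint S u⟫_ℂ‖ ^ 2) / ε := by
      rw [← sub_le_iff_le_add', le_div_iff₀ hε]
      nlinarith [sq_nonneg (‖⟪e i, ContinuousLinearMap.adjoint S u⟫_ℂ‖ - ε), sq_nonneg ε,
        mul_nonneg (norm_nonneg ⟪e i, ContinuousLinearMap.adjoint S u⟫_ℂ) hε.le]
    rw [e1]
    linarith [norm_add_le ⟪S (e i), K (S (e i)) - u⟫_ℂ ⟪e i, ContinuousLinearMap.adjoint S u⟫_ℂ]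
  refine (Finset.sum_le_sum fun i _ => hpt i).trans ?_
  rw [Finset.sum_add_distrib, Finset.sum_const, Finset.card_range, nsmul_eq_mul,
    ← Finset.sum_div, Finset.sum_comm]
  gcongr with u hu
  refine (he.sum_inner_products_le _).trans ?_
  apply pow_le_pow_left₀ (norm_nonneg _)
  apply ContinuousLinearMap.le_of_opNorm_le
  rwa [LinearIsometryEquiv.norm_map]

theorem eq_one_of_compact (hH : ¬ FiniteDimensional ℂ H) {L : Linf →ₗ[ℂ] ℂ}
    (hL : IsBanachLimit L) {T A : H →L[ℂ] H} (hT : PowerBounded T) (hA : IsAsympLimit L T A)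
    {t : ℝ} (ht : 0 < t) (hK : IsCompactOperator (A - (t : ℂ) • 1 : H →L[ℂ] H)) : t = 1 := by
  obtain ⟨e, he⟩ := exists_orthonormal_seq hH
  obtain ⟨M, hM⟩ := id hT
  have hM0 : 0 ≤ M := (norm_nonneg _).trans (hM 0)
  have main : ∀ ε : ℝ, 0 < ε → ∃ C : ℝ, ∀ N : ℕ,
      |1 - t| * N ≤ (N * ((M + 1) * ε) + C) * (1 + 2 / t) := by
    intro ε hε
    obtain ⟨C, hC⟩ := avg_compact hK he hM0 hε
    refine ⟨C, fun N => ?_⟩
    set D := N * ((M + 1) * ε) + C with hD
    choose a ha using fun i => exists_seq hT (e i) (e i)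
    set s : ℂ := ∑ i ∈ Finset.range N, ⟪e i, A (e i)⟫_ℂ with hs
    set r : ℕ → ℝ := fun n => ∑ i ∈ Finset.range N, ‖(T ^ n) (e i)‖ ^ 2 with hr
    have hLs : L (∑ i ∈ Finset.range N, a i) = s := by
      rw [map_sum]
      exact Finset.sum_congr rfl fun i _ => (hA _ _ _ (ha i)).symm
    have hcoe : ∀ n, (∑ i ∈ Finset.range N, a i : Linf) n = (r n : ℂ) := by
      intro n
      rw [lp.coeFn_sum, Finset.sum_apply, hr]
      push_cast
      refine Finset.sum_congr rfl fun i _ => ?_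
      rw [ha, inner_self_eq]
      push_cast
      rfl
    have hn : ∀ n, |s.re - t * r n| ≤ D := by
      intro n
      have e1 : s - ((t * r n : ℝ) : ℂ) = ∑ i ∈ Finset.range N,
          ⟪(T ^ n) (e i), (A - (t : ℂ) • 1 : H →L[ℂ] H) ((T ^ n) (e i))⟫_ℂ := by
        rw [hs, hr]
        simp only [Finset.mul_sum, Complex.ofReal_sum]
        rw [← Finset.sum_sub_distrib]
        refine Finset.sum_congr rfl fun i _ => ?_
        have e2 : (A - (t : ℂ) • 1 : H →L[ℂ] H) ((T ^ n) (e i)) =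
            A ((T ^ n) (e i)) - (t : ℂ) • (T ^ n) (e i) := rfl
        rw [e2, inner_sub_right, inner_smul_right, invariant hL hT hA, inner_self_eq,
          Complex.ofReal_mul]
      have h1 := (norm_sum_le _ _).trans (hC (T ^ n) (hM n) N)
      rw [← e1] at h1
      have h2 := (Complex.abs_re_le_norm _).trans h1
      rwa [Complex.sub_re, Complex.ofReal_re] at h2
    have hr0 : r 0 = N := by
      simp [hr, he.1]
    have h0 := hn 0
    rw [hr0] at h0
    have hlo : ∀ n, N - 2 * D / t ≤ r n := by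
      intro n
      have := hn n
      rw [abs_le] at this h0
      rw [sub_le_comm, le_div_iff₀ ht]
      nlinarith
    have hup : ∀ n, r n ≤ N + 2 * D / t := by
      intro n
      have := hn n
      rw [abs_le] at this h0
      rw [← sub_le_iff_le_add', le_div_iff₀ ht]
      nlinarith
    have h1 := hL.lower _ (N - 2 * D / t) fun n => by
      rw [hcoe n, Complex.real_le_real]; exact hlo n
    have h2 := hL.upper _ (N + 2 * D / t) fun n => by
      rw [hcoe n, Complex.real_le_real]; exact hup n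
    rw [hLs] at h1 h2
    have h3 := (Complex.le_def.1 h1).1
    have h4 := (Complex.le_def.1 h2).1
    rw [Complex.ofReal_re] at h3 h4
    have e3 : D * (1 + 2 / t) = D + 2 * D / t := by ring
    have e4 : |1 - t| * N = |(N : ℝ) - t * N| := by
      rw [← abs_of_nonneg (Nat.cast_nonneg (α := ℝ) N), ← abs_mul,
        abs_of_nonneg (Nat.cast_nonneg (α := ℝ) N)]
      congr 1
      ring
    rw [e3, e4, abs_le]
    rw [abs_le] at h0
    constructor <;> linarith
  by_contra hne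
  have hp : 0 < |1 - t| := abs_pos.2 (sub_ne_zero.2 (Ne.symm hne))
  have hq : 0 < 1 + 2 / t := by positivity
  obtain ⟨C, hC⟩ := main (|1 - t| / (2 * (M + 1) * (1 + 2 / t))) (by positivity)
  obtain ⟨N, hN⟩ := exists_nat_gt (2 * (C * (1 + 2 / t)) / |1 - t|)
  have h1 := hC N
  have e : (N * ((M + 1) * (|1 - t| / (2 * (M + 1) * (1 + 2 / t)))) + C) * (1 + 2 / t) =
      |1 - t| * N / 2 + C * (1 + 2 / t) := by
    field_simp
  rw [e] at h1
  rw [div_lt_iff₀ hp] at hN
  linarith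

theorem isSelfAdjoint_of_asympLimit {L : Linf →ₗ[ℂ] ℂ} (hL : IsBanachLimit L)
    {T A : H →L[ℂ] H} (hT : PowerBounded T) (hA : IsAsympLimit L T A) : IsSelfAdjoint A := by
  rw [ContinuousLinearMap.isSelfAdjoint_iff_isSymmetric,
    LinearMap.isSymmetric_iff_inner_map_self_real]
  intro v
  obtain ⟨a, ha⟩ := exists_seq hT v v
  have h := hL.pos a fun n => by
    rw [ha, inner_self_eq]
    exact Complex.zero_le_real.2 (sq_nonneg _)
  rw [← hA v v a ha] at h
  have him : (⟪v, A v⟫_ℂ).im = 0 := (Complex.le_def.1 h).2.symm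
  change (starRingEnd ℂ) ⟪A v, v⟫_ℂ = ⟪A v, v⟫_ℂ
  rw [inner_conj_symm, ← inner_conj_symm (A v) v]
  exact (Complex.conj_eq_iff_im.2 him).symm

end Pool.Agent.Lib.helper3.BanachLim
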