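import Mathlib

set_option maxRecDepth 100000

namespace Pool.Agent.Lib.helper3.ExpMax

def ladd {α : Type} (add : α → α → α) : List α → List α → List α
  | [], q => q
  | x :: p, [] => x :: p
  | x :: p, y :: q => add x y :: ladd add p q

def lmul {α : Type} (add mul : α → α → α) (z : α) : List α → List α → List α
  | [], _ => []
  | x :: p, q => ladd add (q.map (mul x)) (z :: lmul add mul z p q)

noncomputable def leval {α : Type} (ev : α → ℝ) (t : ℝ) : List α → ℝ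
  | [] => 0
  | x :: p => ev x + t * leval ev t p

theorem leval_add {α : Type} {add : α → α → α} {ev : α → ℝ} (t : ℝ)
    (h : ∀ x y, ev (add x y) = ev x + ev y) (p q : List α) :
    leval ev t (ladd add p q) = leval ev t p + leval ev t q := by
  induction p generalizing q with
  | nil => simp [ladd, leval]
  | cons x p ih =>
    cases q with
    | nil => simp [ladd, leval]
    | cons y q => simp only [ladd, leval, h, ih]; ring

theorem leval_mul {α : Type} {add mul : α → α → α} {z : α} {ev : α → ℝ} (t : ℝ)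
    (h : ∀ x y, ev (add x y) = ev x + ev y) (hm : ∀ x y, ev (mul x y) = ev x * ev y)
    (hz : ev z = 0) (p q : List α) :
    leval ev t (lmul add mul z p q) = leval ev t p * leval ev t q := by
  have hmap : ∀ x (q : List α), leval ev t (q.map (mul x)) = ev x * leval ev t q := by
    intro x q
    induction q with
    | nil => simp [leval]
    | cons y q ih => simp only [List.map, leval, hm, ih]; ring
  induction p with
  | nil => simp [lmul, leval]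
  | cons x p ih => simp only [lmul, leval_add t h, hmap, leval, hz, ih]; ring

theorem leval_nonneg {α : Type} {ok : α → Bool} {ev : α → ℝ} {t : ℝ} (ht : 0 ≤ t)
    (h : ∀ x, ok x = true → 0 ≤ ev x) (p : List α) (hp : p.all ok = true) : 0 ≤ leval ev t p := by
  induction p with
  | nil => exact le_rfl
  | cons x p ih =>
    rw [List.all_cons, Bool.and_eq_true] at hp
    exact add_nonneg (h x hp.1) (mul_nonneg ht (ih hp.2))

abbrev P3 : Type := List (List (List ℤ))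
def A1 : List ℤ → List ℤ → List ℤ := ladd Int.add
def M1 : List ℤ → List ℤ → List ℤ := lmul Int.add Int.mul 0
def A : P3 → P3 → P3 := ladd (ladd A1)
def M : P3 → P3 → P3 := lmul (ladd A1) (lmul A1 M1 []) []
def ok (p : P3) : Bool := p.all fun q => q.all fun r => r.all fun c => decide (0 ≤ c)
noncomputable def ev (x y z : ℝ) : P3 → ℝ := leval (leval (leval (fun c : ℤ => (c : ℝ)) z) y) x
def pX : P3 := [[], [[1]]]
def pY : P3 := [[[], [1]]]
def pZ : P3 := [[[0, 1]]]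
def p1 : P3 := [[[1]]]
def pm : P3 := [[[-1]]]
def n0 : P3 := []
def d0 : P3 := [[[1]]]
def f0 : P3 := [[[], [1]], [[1]]]
def n1 : P3 := [[[-1]],
  []]
def d1 : P3 := [[[], [1]],
  [[1]]]
theorem cn0 : n1 = A (M f0 n0) (M pm d0) := by decide +kernel
theorem cd0 : d1 = M f0 d0 := by decide +kernel
def f1 : P3 := [[[0, 1]], [[1]]]
def n2 : P3 := [[[0, -1], [-1]],
  [[-2]],
  [[]]]
def d2 : P3 := [[[0, 0], [0, 1]],
  [[0, 1], [1]],
  [[1]]]
theorem cn1 : n2 = A (M f1 n1) (M pm d1) := by decide +kernel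
theorem cd1 : d2 = M f1 d1 := by decide +kernel
def f2 : P3 := [[[1]], [[1]]]
def n3 : P3 := [[[0, -1], [-1, -1]],
  [[-2, -2], [-2]],
  [[-3]],
  [[0]]]
def d3 : P3 := [[[0, 0], [0, 1]],
  [[0, 1], [1, 1]],
  [[1, 1], [1]],
  [[1]]]
theorem cn2 : n3 = A (M f2 n2) (M pm d2) := by decide +kernel
theorem cd2 : d3 = M f2 d2 := by decide +kernel
def f3 : P3 := [[[0, 1], [1]]]
def n4 : P3 := [[[0, 0, -1], [0, -3, -1], [-1, -1]],
  [[0, -3, -2], [-3, -5], [-2]],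
  [[-1, -4], [-4]],
  [[-1, 0], [0]]]
def d4 : P3 := [[[0, 0, 0], [0, 0, 1], [0, 1]],
  [[0, 0, 1], [0, 2, 1], [1, 1]],
  [[0, 1, 1], [1, 2], [1]],
  [[0, 1], [1]]]
theorem cn3 : n4 = A (M f3 n3) (M pm d3) := by decide +kernel
theorem cd3 : d4 = M f3 d3 := by decide +kernel
def f4 : P3 := [[[1], [1]]]
def n5 : P3 := [[[0, 0, -1], [0, -3, -3], [-1, -5, -1], [-1, -1]],
  [[0, -3, -3], [-3, -10, -3], [-6, -6], [-2]],
  [[-1, -5, -1], [-6, -6], [-5]],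
  [[-1, -1], [-2, 0], [0]]]
def d5 : P3 := [[[0, 0, 0], [0, 0, 1], [0, 1, 1], [0, 1]],
  [[0, 0, 1], [0, 2, 2], [1, 3, 1], [1, 1]],
  [[0, 1, 1], [1, 3, 1], [2, 2], [1]],
  [[0, 1], [1, 1], [1]]]
theorem cn4 : n5 = A (M f4 n4) (M pm d4) := by decide +kernel
theorem cd4 : d5 = M f4 d4 := by decide +kernel
def f5 : P3 := [[[1, 1]]]
def n6 : P3 := [[[0, 0, -1, -1], [0, -3, -7, -3], [-1, -7, -7, -1], [-1, -3, -1]],
  [[0, -3, -7, -3], [-3, -15, -15, -3], [-7, -15, -7], [-3, -3]],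
  [[-1, -7, -7, -1], [-7, -15, -7], [-7, -7], [-1]],
  [[-1, -3, -1], [-3, -3, 0], [-1, 0]]]
def d6 : P3 := [[[0, 0, 0, 0], [0, 0, 1, 1], [0, 1, 2, 1], [0, 1, 1]],
  [[0, 0, 1, 1], [0, 2, 4, 2], [1, 4, 4, 1], [1, 2, 1]],
  [[0, 1, 2, 1], [1, 4, 4, 1], [2, 4, 2], [1, 1]],
  [[0, 1, 1], [1, 2, 1], [1, 1]]]
theorem cn5 : n6 = A (M f5 n5) (M pm d5) := by decide +kernel
theorem cd5 : d6 = M f5 d5 := by decide +kernel
def f6 : P3 := [[[0, 1], [1]], [[1]]]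
def n7 : P3 := [[[0, 0, 0, -1, -1], [0, 0, -3, -7, -3], [0, -3, -12, -9, -1], [-1, -7, -9, -2], [-1, -3, -1]],
  [[0, 0, -3, -7, -3], [0, -7, -25, -19, -3], [-3, -25, -33, -10], [-7, -19, -10], [-3, -3]],
  [[0, -3, -12, -9, -1], [-3, -25, -33, -10], [-12, -33, -19], [-9, -10], [-1]],
  [[-1, -7, -9, -2], [-7, -19, -10, 0], [-9, -10, 0], [-2, 0]],
  [[-1, -3, -1], [-3, -3, 0], [-1, 0]]]
def d7 : P3 := [[[0, 0, 0, 0, 0], [0, 0, 0, 1, 1], [0, 0, 2, 3, 1], [0, 1, 3, 2], [0, 1, 1]],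
  [[0, 0, 0, 1, 1], [0, 0, 4, 6, 2], [0, 4, 10, 7, 1], [1, 6, 7, 2], [1, 2, 1]],
  [[0, 0, 2, 3, 1], [0, 4, 10, 7, 1], [2, 10, 12, 4], [3, 7, 4], [1, 1]],
  [[0, 1, 3, 2], [1, 6, 7, 2], [3, 7, 4], [2, 2]],
  [[0, 1, 1], [1, 2, 1], [1, 1]]]
theorem cn6 : n7 = A (M f6 n6) (M p1 d6) := by decide +kernel
theorem cd6 : d7 = M f6 d6 := by decide +kernel
def f7 : P3 := [[[1], [1]], [[1]]]
def n8 : P3 := [[[0, 0, 0, -1, -1], [0, 0, -3, -7, -3], [0, -3, -13, -13, -3], [-1, -9, -18, -9, -1], [-2, -9, -9, -2], [-1, -3, -1]],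
  [[0, 0, -3, -7, -3], [0, -7, -27, -27, -7], [-3, -31, -60, -31, -3], [-10, -45, -45, -10], [-10, -23, -10], [-3, -3]],
  [[0, -3, -13, -13, -3], [-3, -31, -60, -31, -3], [-16, -73, -73, -16], [-25, -55, -25], [-12, -12], [-1]],
  [[-1, -9, -18, -9, -1], [-10, -45, -45, -10], [-25, -55, -25, 0], [-18, -18, 0], [-3, 0]],
  [[-2, -9, -9, -2], [-10, -23, -10, 0], [-12, -12, 0], [-3, 0]],
  [[-1, -3, -1], [-3, -3, 0], [-1, 0]]]
def d8 : P3 := [[[0, 0, 0, 0, 0], [0, 0, 0, 1, 1], [0, 0, 2, 4, 2], [0, 1, 5, 5, 1], [0, 2, 4, 2], [0, 1, 1]],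
  [[0, 0, 0, 1, 1], [0, 0, 4, 8, 4], [0, 4, 16, 16, 4], [1, 11, 20, 11, 1], [2, 9, 9, 2], [1, 2, 1]],
  [[0, 0, 2, 4, 2], [0, 4, 16, 16, 4], [2, 18, 32, 18, 2], [6, 23, 23, 6], [5, 10, 5], [1, 1]],
  [[0, 1, 5, 5, 1], [1, 11, 20, 11, 1], [6, 23, 23, 6], [8, 16, 8], [3, 3]],
  [[0, 2, 4, 2], [2, 9, 9, 2], [5, 10, 5], [3, 3]],
  [[0, 1, 1], [1, 2, 1], [1, 1]]]
theorem cn7 : n8 = A (M f7 n7) (M p1 d7) := by decide +kernel
theorem cd7 : d8 = M f7 d7 := by decide +kernel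
def f8 : P3 := [[[1, 1]], [[1]]]
def n9 : P3 := [[[0, 0, 0, -1, -2, -1], [0, 0, -3, -9, -9, -3], [0, -3, -14, -22, -14, -3], [-1, -9, -22, -22, -9, -1], [-2, -9, -14, -9, -2], [-1, -3, -3, -1]],
  [[0, 0, -3, -10, -10, -3], [0, -7, -33, -53, -33, -7], [-3, -33, -88, -88, -33, -3], [-10, -53, -88, -53, -10], [-10, -33, -33, -10], [-3, -7, -3]],
  [[0, -3, -17, -29, -17, -3], [-3, -37, -102, -102, -37, -3], [-17, -102, -174, -102, -17], [-29, -102, -102, -29], [-17, -37, -17], [-3, -3]],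
  [[-1, -12, -35, -35, -12, -1], [-12, -75, -130, -75, -12], [-35, -130, -130, -35, 0], [-35, -75, -35, 0], [-12, -12, 0], [-1]],
  [[-3, -18, -32, -18, -3], [-18, -69, -69, -18, 0], [-32, -69, -32, 0], [-18, -18, 0], [-3, 0]],
  [[-3, -12, -12, -3], [-12, -27, -12, 0], [-12, -12, 0], [-3, 0]],
  [[-1, -3, -1], [-3, -3, 0], [-1, 0]]]
def d9 : P3 := [[[0, 0, 0, 0, 0, 0], [0, 0, 0, 1, 2, 1], [0, 0, 2, 6, 6, 2], [0, 1, 6, 10, 6, 1], [0, 2, 6, 6, 2], [0, 1, 2, 1]],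
  [[0, 0, 0, 1, 2, 1], [0, 0, 4, 13, 13, 4], [0, 4, 22, 36, 22, 4], [1, 13, 36, 36, 13, 1], [2, 13, 22, 13, 2], [1, 4, 4, 1]],
  [[0, 0, 2, 7, 7, 2], [0, 4, 24, 40, 24, 4], [2, 24, 66, 66, 24, 2], [7, 40, 66, 40, 7], [7, 24, 24, 7], [2, 4, 2]],
  [[0, 1, 8, 14, 8, 1], [1, 16, 47, 47, 16, 1], [8, 47, 78, 47, 8], [14, 47, 47, 14], [8, 16, 8], [1, 1]],
  [[0, 3, 11, 11, 3], [3, 22, 38, 22, 3], [11, 38, 38, 11], [11, 22, 11], [3, 3]],
  [[0, 3, 6, 3], [3, 12, 12, 3], [6, 12, 6], [3, 3]],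
  [[0, 1, 1], [1, 2, 1], [1, 1]]]
theorem cn8 : n9 = A (M f8 n8) (M p1 d8) := by decide +kernel
theorem cd8 : d9 = M f8 d8 := by decide +kernel
def f9 : P3 := [[[1, 1], [1]]]
def n10 : P3 := [[[0, 0, 0, -1, -3, -3, -1], [0, 0, -3, -12, -18, -12, -3], [0, -3, -18, -39, -39, -18, -3], [-1, -12, -39, -56, -39, -12, -1], [-3, -18, -39, -39, -18, -3], [-3, -12, -18, -12, -3], [-1, -3, -3, -1]],
  [[0, 0, -3, -12, -18, -12, -3], [0, -7, -39, -83, -83, -39, -7], [-3, -39, -132, -193, -132, -39, -3], [-12, -83, -193, -193, -83, -12], [-18, -83, -132, -83, -18], [-12, -39, -39, -12], [-3, -7, -3]],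
  [[0, -3, -18, -39, -39, -18, -3], [-3, -39, -132, -193, -132, -39, -3], [-18, -132, -312, -312, -132, -18], [-39, -193, -312, -193, -39], [-39, -132, -132, -39], [-18, -39, -18], [-3, -3]],
  [[-1, -12, -39, -56, -39, -12, -1], [-12, -83, -193, -193, -83, -12], [-39, -193, -312, -193, -39, 0], [-56, -193, -193, -56, 0], [-39, -83, -39, 0], [-12, -12, 0], [-1]],
  [[-3, -18, -39, -39, -18, -3], [-18, -83, -132, -83, -18, 0], [-39, -132, -132, -39, 0], [-39, -83, -39, 0], [-18, -18, 0], [-3, 0]],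
  [[-3, -12, -18, -12, -3], [-12, -39, -39, -12, 0], [-18, -39, -18, 0], [-12, -12, 0], [-3, 0]],
  [[-1, -3, -3, -1], [-3, -7, -3, 0], [-3, -3, 0], [-1, 0]]]
def d10 : P3 := [[[0, 0, 0, 0, 0, 0, 0], [0, 0, 0, 1, 3, 3, 1], [0, 0, 2, 9, 14, 9, 2], [0, 1, 9, 22, 22, 9, 1], [0, 3, 14, 22, 14, 3], [0, 3, 9, 9, 3], [0, 1, 2, 1]],
  [[0, 0, 0, 1, 3, 3, 1], [0, 0, 4, 18, 28, 18, 4], [0, 4, 30, 71, 71, 30, 4], [1, 18, 71, 108, 71, 18, 1], [3, 28, 71, 71, 28, 3], [3, 18, 30, 18, 3], [1, 4, 4, 1]],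
  [[0, 0, 2, 9, 14, 9, 2], [0, 4, 30, 71, 71, 30, 4], [2, 30, 114, 172, 114, 30, 2], [9, 71, 172, 172, 71, 9], [14, 71, 114, 71, 14], [9, 30, 30, 9], [2, 4, 2]],
  [[0, 1, 9, 22, 22, 9, 1], [1, 18, 71, 108, 71, 18, 1], [9, 71, 172, 172, 71, 9], [22, 108, 172, 108, 22], [22, 71, 71, 22], [9, 18, 9], [1, 1]],
  [[0, 3, 14, 22, 14, 3], [3, 28, 71, 71, 28, 3], [14, 71, 114, 71, 14], [22, 71, 71, 22], [14, 28, 14], [3, 3]],
  [[0, 3, 9, 9, 3], [3, 18, 30, 18, 3], [9, 30, 30, 9], [9, 18, 9], [3, 3]],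
  [[0, 1, 2, 1], [1, 4, 4, 1], [2, 4, 2], [1, 1]]]
theorem cn9 : n10 = A (M f9 n9) (M p1 d9) := by decide +kernel
theorem cd9 : d10 = M f9 d9 := by decide +kernel
def f10 : P3 := [[[1, 1], [1]], [[1]]]
def n11 : P3 := [[[0, 0, 0, -1, -4, -6, -4, -1], [0, 0, -3, -17, -36, -36, -17, -3], [0, -3, -26, -78, -110, -78, -26, -3], [-1, -17, -78, -156, -156, -78, -17, -1], [-4, -36, -110, -156, -110, -36, -4], [-6, -36, -78, -78, -36, -6], [-4, -17, -26, -17, -4], [-1, -3, -3, -1]],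
  [[0, 0, -3, -17, -36, -36, -17, -3], [0, -7, -56, -164, -230, -164, -56, -7], [-3, -56, -258, -518, -518, -258, -56, -3], [-17, -164, -518, -743, -518, -164, -17], [-36, -230, -518, -518, -230, -36], [-36, -164, -258, -164, -36], [-17, -56, -56, -17], [-3, -7, -3]],
  [[0, -3, -26, -78, -110, -78, -26, -3], [-3, -56, -258, -518, -518, -258, -56, -3], [-26, -258, -822, -1182, -822, -258, -26], [-78, -518, -1182, -1182, -518, -78], [-110, -518, -822, -518, -110], [-78, -258, -258, -78], [-26, -56, -26], [-3, -3]],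
  [[-1, -17, -78, -156, -156, -78, -17, -1], [-17, -164, -518, -743, -518, -164, -17], [-78, -518, -1182, -1182, -518, -78, 0], [-156, -743, -1182, -743, -156, 0], [-156, -518, -518, -156, 0], [-78, -164, -78, 0], [-17, -17, 0], [-1]],
  [[-4, -36, -110, -156, -110, -36, -4], [-36, -230, -518, -518, -230, -36, 0], [-110, -518, -822, -518, -110, 0], [-156, -518, -518, -156, 0], [-110, -230, -110, 0], [-36, -36, 0], [-4, 0]],
  [[-6, -36, -78, -78, -36, -6], [-36, -164, -258, -164, -36, 0], [-78, -258, -258, -78, 0], [-78, -164, -78, 0], [-36, -36, 0], [-6, 0]],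
  [[-4, -17, -26, -17, -4], [-17, -56, -56, -17, 0], [-26, -56, -26, 0], [-17, -17, 0], [-4, 0]],
  [[-1, -3, -3, -1], [-3, -7, -3, 0], [-3, -3, 0], [-1, 0]]]
def d11 : P3 := [[[0, 0, 0, 0, 0, 0, 0, 0], [0, 0, 0, 1, 4, 6, 4, 1], [0, 0, 2, 12, 26, 26, 12, 2], [0, 1, 12, 40, 58, 40, 12, 1], [0, 4, 26, 58, 58, 26, 4], [0, 6, 26, 40, 26, 6], [0, 4, 12, 12, 4], [0, 1, 2, 1]],
  [[0, 0, 0, 1, 4, 6, 4, 1], [0, 0, 4, 24, 52, 52, 24, 4], [0, 4, 40, 128, 184, 128, 40, 4], [1, 24, 128, 272, 272, 128, 24, 1], [4, 52, 184, 272, 184, 52, 4], [6, 52, 128, 128, 52, 6], [4, 24, 40, 24, 4], [1, 4, 4, 1]],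
  [[0, 0, 2, 12, 26, 26, 12, 2], [0, 4, 40, 128, 184, 128, 40, 4], [2, 40, 204, 428, 428, 204, 40, 2], [12, 128, 428, 624, 428, 128, 12], [26, 184, 428, 428, 184, 26], [26, 128, 204, 128, 26], [12, 40, 40, 12], [2, 4, 2]],
  [[0, 1, 12, 40, 58, 40, 12, 1], [1, 24, 128, 272, 272, 128, 24, 1], [12, 128, 428, 624, 428, 128, 12], [40, 272, 624, 624, 272, 40], [58, 272, 428, 272, 58], [40, 128, 128, 40], [12, 24, 12], [1, 1]],
  [[0, 4, 26, 58, 58, 26, 4], [4, 52, 184, 272, 184, 52, 4], [26, 184, 428, 428, 184, 26], [58, 272, 428, 272, 58], [58, 184, 184, 58], [26, 52, 26], [4, 4]],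
  [[0, 6, 26, 40, 26, 6], [6, 52, 128, 128, 52, 6], [26, 128, 204, 128, 26], [40, 128, 128, 40], [26, 52, 26], [6, 6]],
  [[0, 4, 12, 12, 4], [4, 24, 40, 24, 4], [12, 40, 40, 12], [12, 24, 12], [4, 4]],
  [[0, 1, 2, 1], [1, 4, 4, 1], [2, 4, 2], [1, 1]]]
theorem cn10 : n11 = A (M f10 n10) (M pm d10) := by decide +kernel
theorem cd10 : d11 = M f10 d10 := by decide +kernel
def f11 : P3 := [[], [[1]]]
def n12 : P3 := [[[0, 0, 0, 0, 0, 0, 0, 0], [0, 0, 0, 1, 4, 6, 4, 1], [0, 0, 2, 12, 26, 26, 12, 2], [0, 1, 12, 40, 58, 40, 12, 1], [0, 4, 26, 58, 58, 26, 4], [0, 6, 26, 40, 26, 6], [0, 4, 12, 12, 4], [0, 1, 2, 1]],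
  [[0, 0, 0, 0, 0, 0, 0, 0], [0, 0, 1, 7, 16, 16, 7, 1], [0, 1, 14, 50, 74, 50, 14, 1], [0, 7, 50, 116, 116, 50, 7, 0], [0, 16, 74, 116, 74, 16, 0], [0, 16, 50, 50, 16, 0], [0, 7, 14, 7, 0], [0, 1, 1, 0]],
  [[0, 0, -1, -5, -10, -10, -5, -1], [0, -3, -16, -36, -46, -36, -16, -3], [-1, -16, -54, -90, -90, -54, -16, -1], [-5, -36, -90, -119, -90, -36, -5], [-10, -46, -90, -90, -46, -10], [-10, -36, -54, -36, -10], [-5, -16, -16, -5], [-1, -3, -1]],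
  [[0, -2, -14, -38, -52, -38, -14, -2], [-2, -32, -130, -246, -246, -130, -32, -2], [-14, -130, -394, -558, -394, -130, -14], [-38, -246, -558, -558, -246, -38], [-52, -246, -394, -246, -52], [-38, -130, -130, -38], [-14, -32, -14], [-2, -2]],
  [[-1, -13, -52, -98, -98, -52, -13, -1], [-13, -112, -334, -471, -334, -112, -13], [-52, -334, -754, -754, -334, -52, 0], [-98, -471, -754, -471, -98, 0], [-98, -334, -334, -98, 0], [-52, -112, -52, 0], [-13, -13, 0], [-1]],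
  [[-4, -30, -84, -116, -84, -30, -4], [-30, -178, -390, -390, -178, -30, 0], [-84, -390, -618, -390, -84, 0], [-116, -390, -390, -116, 0], [-84, -178, -84, 0], [-30, -30, 0], [-4, 0]],
  [[-6, -32, -66, -66, -32, -6], [-32, -140, -218, -140, -32, 0], [-66, -218, -218, -66, 0], [-66, -140, -66, 0], [-32, -32, 0], [-6, 0]],
  [[-4, -16, -24, -16, -4], [-16, -52, -52, -16, 0], [-24, -52, -24, 0], [-16, -16, 0], [-4, 0]],
  [[-1, -3, -3, -1], [-3, -7, -3, 0], [-3, -3, 0], [-1, 0]]]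
def d12 : P3 := [[],
  [[0, 0, 0, 0, 0, 0, 0, 0], [0, 0, 0, 1, 4, 6, 4, 1], [0, 0, 2, 12, 26, 26, 12, 2], [0, 1, 12, 40, 58, 40, 12, 1], [0, 4, 26, 58, 58, 26, 4], [0, 6, 26, 40, 26, 6], [0, 4, 12, 12, 4], [0, 1, 2, 1]],
  [[0, 0, 0, 1, 4, 6, 4, 1], [0, 0, 4, 24, 52, 52, 24, 4], [0, 4, 40, 128, 184, 128, 40, 4], [1, 24, 128, 272, 272, 128, 24, 1], [4, 52, 184, 272, 184, 52, 4], [6, 52, 128, 128, 52, 6], [4, 24, 40, 24, 4], [1, 4, 4, 1]],
  [[0, 0, 2, 12, 26, 26, 12, 2], [0, 4, 40, 128, 184, 128, 40, 4], [2, 40, 204, 428, 428, 204, 40, 2], [12, 128, 428, 624, 428, 128, 12], [26, 184, 428, 428, 184, 26], [26, 128, 204, 128, 26], [12, 40, 40, 12], [2, 4, 2]],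
  [[0, 1, 12, 40, 58, 40, 12, 1], [1, 24, 128, 272, 272, 128, 24, 1], [12, 128, 428, 624, 428, 128, 12], [40, 272, 624, 624, 272, 40], [58, 272, 428, 272, 58], [40, 128, 128, 40], [12, 24, 12], [1, 1]],
  [[0, 4, 26, 58, 58, 26, 4], [4, 52, 184, 272, 184, 52, 4], [26, 184, 428, 428, 184, 26], [58, 272, 428, 272, 58], [58, 184, 184, 58], [26, 52, 26], [4, 4]],
  [[0, 6, 26, 40, 26, 6], [6, 52, 128, 128, 52, 6], [26, 128, 204, 128, 26], [40, 128, 128, 40], [26, 52, 26], [6, 6]],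
  [[0, 4, 12, 12, 4], [4, 24, 40, 24, 4], [12, 40, 40, 12], [12, 24, 12], [4, 4]],
  [[0, 1, 2, 1], [1, 4, 4, 1], [2, 4, 2], [1, 1]]]
theorem cn11 : n12 = A (M f11 n11) (M p1 d11) := by decide +kernel
theorem cd11 : d12 = M f11 d11 := by decide +kernel
def f12 : P3 := [[[], [1]]]
def n13 : P3 := [[[], [0, 0, 0, 0, 0, 0, 0, 0], [0, 0, 0, 1, 4, 6, 4, 1], [0, 0, 2, 12, 26, 26, 12, 2], [0, 1, 12, 40, 58, 40, 12, 1], [0, 4, 26, 58, 58, 26, 4], [0, 6, 26, 40, 26, 6], [0, 4, 12, 12, 4], [0, 1, 2, 1]],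
  [[0, 0, 0, 0, 0, 0, 0, 0], [0, 0, 0, 1, 4, 6, 4, 1], [0, 0, 3, 19, 42, 42, 19, 3], [0, 2, 26, 90, 132, 90, 26, 2], [0, 11, 76, 174, 174, 76, 11, 0], [0, 22, 100, 156, 100, 22, 0], [0, 20, 62, 62, 20, 0], [0, 8, 16, 8, 0], [0, 1, 1, 0]],
  [[0, 0, 0, 1, 4, 6, 4, 1], [0, 0, 3, 19, 42, 42, 19, 3], [0, 1, 24, 92, 138, 92, 24, 1], [0, 8, 74, 182, 182, 74, 8, 0], [-1, 16, 94, 153, 94, 16, -1], [-4, 6, 38, 38, 6, -4], [-6, -12, -14, -12, -6], [-4, -12, -12, -4], [-1, -3, -1]],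
  [[0, 0, 2, 12, 26, 26, 12, 2], [0, 2, 26, 90, 132, 90, 26, 2], [0, 8, 74, 182, 182, 74, 8, 0], [-2, -2, 34, 66, 34, -2, -2], [-12, -62, -130, -130, -62, -12], [-26, -118, -190, -118, -26], [-26, -90, -90, -26], [-12, -28, -12], [-2, -2]],
  [[0, 1, 12, 40, 58, 40, 12, 1], [0, 11, 76, 174, 174, 76, 11, 0], [-1, 16, 94, 153, 94, 16, -1], [-12, -62, -130, -130, -62, -12, 0], [-40, -199, -326, -199, -40, 0], [-58, -206, -206, -58, 0], [-40, -88, -40, 0], [-12, -12, 0], [-1]],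
  [[0, 4, 26, 58, 58, 26, 4], [0, 22, 100, 156, 100, 22, 0], [-4, 6, 38, 38, 6, -4, 0], [-26, -118, -190, -118, -26, 0], [-58, -206, -206, -58, 0], [-58, -126, -58, 0], [-26, -26, 0], [-4, 0]],
  [[0, 6, 26, 40, 26, 6], [0, 20, 62, 62, 20, 0], [-6, -12, -14, -12, -6, 0], [-26, -90, -90, -26, 0], [-40, -88, -40, 0], [-26, -26, 0], [-6, 0]],
  [[0, 4, 12, 12, 4], [0, 8, 16, 8, 0], [-4, -12, -12, -4, 0], [-12, -28, -12, 0], [-12, -12, 0], [-4, 0]],
  [[0, 1, 2, 1], [0, 1, 1, 0], [-1, -3, -1, 0], [-2, -2, 0], [-1, 0]]]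
def d13 : P3 := [[[], []],
  [[], [0, 0, 0, 0, 0, 0, 0, 0], [0, 0, 0, 1, 4, 6, 4, 1], [0, 0, 2, 12, 26, 26, 12, 2], [0, 1, 12, 40, 58, 40, 12, 1], [0, 4, 26, 58, 58, 26, 4], [0, 6, 26, 40, 26, 6], [0, 4, 12, 12, 4], [0, 1, 2, 1]],
  [[], [0, 0, 0, 1, 4, 6, 4, 1], [0, 0, 4, 24, 52, 52, 24, 4], [0, 4, 40, 128, 184, 128, 40, 4], [1, 24, 128, 272, 272, 128, 24, 1], [4, 52, 184, 272, 184, 52, 4], [6, 52, 128, 128, 52, 6], [4, 24, 40, 24, 4], [1, 4, 4, 1]],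
  [[], [0, 0, 2, 12, 26, 26, 12, 2], [0, 4, 40, 128, 184, 128, 40, 4], [2, 40, 204, 428, 428, 204, 40, 2], [12, 128, 428, 624, 428, 128, 12], [26, 184, 428, 428, 184, 26], [26, 128, 204, 128, 26], [12, 40, 40, 12], [2, 4, 2]],
  [[], [0, 1, 12, 40, 58, 40, 12, 1], [1, 24, 128, 272, 272, 128, 24, 1], [12, 128, 428, 624, 428, 128, 12], [40, 272, 624, 624, 272, 40], [58, 272, 428, 272, 58], [40, 128, 128, 40], [12, 24, 12], [1, 1]],
  [[], [0, 4, 26, 58, 58, 26, 4], [4, 52, 184, 272, 184, 52, 4], [26, 184, 428, 428, 184, 26], [58, 272, 428, 272, 58], [58, 184, 184, 58], [26, 52, 26], [4, 4]],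
  [[], [0, 6, 26, 40, 26, 6], [6, 52, 128, 128, 52, 6], [26, 128, 204, 128, 26], [40, 128, 128, 40], [26, 52, 26], [6, 6]],
  [[], [0, 4, 12, 12, 4], [4, 24, 40, 24, 4], [12, 40, 40, 12], [12, 24, 12], [4, 4]],
  [[], [0, 1, 2, 1], [1, 4, 4, 1], [2, 4, 2], [1, 1]]]
theorem cn12 : n13 = A (M f12 n12) (M p1 d12) := by decide +kernel
theorem cd12 : d13 = M f12 d12 := by decide +kernel
def f13 : P3 := [[[0, 1]]]
def n14 : P3 := [[[0, 0], [0, 0, 0, 0, 0, 0, 0, 0, 0], [0, 0, 0, 0, 1, 4, 6, 4, 1], [0, 0, 0, 2, 12, 26, 26, 12, 2], [0, 0, 1, 12, 40, 58, 40, 12, 1], [0, 0, 4, 26, 58, 58, 26, 4], [0, 0, 6, 26, 40, 26, 6], [0, 0, 4, 12, 12, 4], [0, 0, 1, 2, 1]],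
  [[0, 0, 0, 0, 0, 0, 0, 0, 0], [0, 0, 0, 0, 1, 4, 6, 4, 1], [0, 0, 0, 4, 23, 48, 46, 20, 3], [0, 0, 4, 38, 116, 158, 102, 28, 2], [0, 1, 23, 116, 232, 214, 88, 12, 0], [0, 4, 48, 158, 214, 126, 26, 0], [0, 6, 46, 102, 88, 26, 0], [0, 4, 20, 28, 12, 0], [0, 1, 3, 2, 0]],
  [[0, 0, 0, 0, 1, 4, 6, 4, 1], [0, 0, 0, 4, 23, 48, 46, 20, 3], [0, 0, 5, 48, 144, 190, 116, 28, 1], [0, 4, 48, 202, 366, 310, 114, 12, 0], [1, 23, 144, 366, 425, 222, 40, 0], [4, 48, 190, 310, 222, 58, 0], [6, 46, 116, 114, 40, 0], [4, 20, 28, 12, 0], [1, 3, 1, 0]],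
  [[0, 0, 0, 2, 12, 26, 26, 12, 2], [0, 0, 4, 38, 116, 158, 102, 28, 2], [0, 4, 48, 202, 366, 310, 114, 12, 0], [2, 38, 202, 462, 494, 238, 38, 0], [12, 116, 366, 494, 298, 66, 0], [26, 158, 310, 238, 66, 0], [26, 102, 114, 38, 0], [12, 28, 12, 0], [2, 2, 0]],
  [[0, 0, 1, 12, 40, 58, 40, 12, 1], [0, 1, 23, 116, 232, 214, 88, 12, 0], [1, 23, 144, 366, 425, 222, 40, 0], [12, 116, 366, 494, 298, 66, 0, 0], [40, 232, 425, 298, 73, 0, 0], [58, 214, 222, 66, 0, 0], [40, 88, 40, 0, 0], [12, 12, 0, 0], [1, 0]],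
  [[0, 0, 4, 26, 58, 58, 26, 4], [0, 4, 48, 158, 214, 126, 26, 0], [4, 48, 190, 310, 222, 58, 0, 0], [26, 158, 310, 238, 66, 0, 0], [58, 214, 222, 66, 0, 0], [58, 126, 58, 0, 0], [26, 26, 0, 0], [4, 0, 0]],
  [[0, 0, 6, 26, 40, 26, 6], [0, 6, 46, 102, 88, 26, 0], [6, 46, 116, 114, 40, 0, 0], [26, 102, 114, 38, 0, 0], [40, 88, 40, 0, 0], [26, 26, 0, 0], [6, 0, 0]],
  [[0, 0, 4, 12, 12, 4], [0, 4, 20, 28, 12, 0], [4, 20, 28, 12, 0, 0], [12, 28, 12, 0, 0], [12, 12, 0, 0], [4, 0, 0]],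
  [[0, 0, 1, 2, 1], [0, 1, 3, 2, 0], [1, 3, 1, 0, 0], [2, 2, 0, 0], [1, 0, 0]]]
def d14 : P3 := [[[0, 0], [0, 0]],
  [[0, 0], [0, 0, 0, 0, 0, 0, 0, 0, 0], [0, 0, 0, 0, 1, 4, 6, 4, 1], [0, 0, 0, 2, 12, 26, 26, 12, 2], [0, 0, 1, 12, 40, 58, 40, 12, 1], [0, 0, 4, 26, 58, 58, 26, 4], [0, 0, 6, 26, 40, 26, 6], [0, 0, 4, 12, 12, 4], [0, 0, 1, 2, 1]],
  [[0, 0], [0, 0, 0, 0, 1, 4, 6, 4, 1], [0, 0, 0, 4, 24, 52, 52, 24, 4], [0, 0, 4, 40, 128, 184, 128, 40, 4], [0, 1, 24, 128, 272, 272, 128, 24, 1], [0, 4, 52, 184, 272, 184, 52, 4], [0, 6, 52, 128, 128, 52, 6], [0, 4, 24, 40, 24, 4], [0, 1, 4, 4, 1]],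
  [[0, 0], [0, 0, 0, 2, 12, 26, 26, 12, 2], [0, 0, 4, 40, 128, 184, 128, 40, 4], [0, 2, 40, 204, 428, 428, 204, 40, 2], [0, 12, 128, 428, 624, 428, 128, 12], [0, 26, 184, 428, 428, 184, 26], [0, 26, 128, 204, 128, 26], [0, 12, 40, 40, 12], [0, 2, 4, 2]],
  [[0, 0], [0, 0, 1, 12, 40, 58, 40, 12, 1], [0, 1, 24, 128, 272, 272, 128, 24, 1], [0, 12, 128, 428, 624, 428, 128, 12], [0, 40, 272, 624, 624, 272, 40], [0, 58, 272, 428, 272, 58], [0, 40, 128, 128, 40], [0, 12, 24, 12], [0, 1, 1]],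
  [[0, 0], [0, 0, 4, 26, 58, 58, 26, 4], [0, 4, 52, 184, 272, 184, 52, 4], [0, 26, 184, 428, 428, 184, 26], [0, 58, 272, 428, 272, 58], [0, 58, 184, 184, 58], [0, 26, 52, 26], [0, 4, 4]],
  [[0, 0], [0, 0, 6, 26, 40, 26, 6], [0, 6, 52, 128, 128, 52, 6], [0, 26, 128, 204, 128, 26], [0, 40, 128, 128, 40], [0, 26, 52, 26], [0, 6, 6]],
  [[0, 0], [0, 0, 4, 12, 12, 4], [0, 4, 24, 40, 24, 4], [0, 12, 40, 40, 12], [0, 12, 24, 12], [0, 4, 4]],
  [[0, 0], [0, 0, 1, 2, 1], [0, 1, 4, 4, 1], [0, 2, 4, 2], [0, 1, 1]]]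
theorem cn13 : n14 = A (M f13 n13) (M p1 d13) := by decide +kernel
theorem cd13 : d14 = M f13 d13 := by decide +kernel
def f14 : P3 := [[[1]]]
def n15 : P3 := [[[0, 0], [0, 0, 0, 0, 0, 0, 0, 0, 0], [0, 0, 0, 0, 1, 4, 6, 4, 1], [0, 0, 0, 2, 12, 26, 26, 12, 2], [0, 0, 1, 12, 40, 58, 40, 12, 1], [0, 0, 4, 26, 58, 58, 26, 4], [0, 0, 6, 26, 40, 26, 6], [0, 0, 4, 12, 12, 4], [0, 0, 1, 2, 1]],
  [[0, 0, 0, 0, 0, 0, 0, 0, 0], [0, 0, 0, 0, 1, 4, 6, 4, 1], [0, 0, 0, 4, 24, 52, 52, 24, 4], [0, 0, 4, 40, 128, 184, 128, 40, 4], [0, 1, 24, 128, 272, 272, 128, 24, 1], [0, 4, 52, 184, 272, 184, 52, 4], [0, 6, 52, 128, 128, 52, 6], [0, 4, 24, 40, 24, 4], [0, 1, 4, 4, 1]],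
  [[0, 0, 0, 0, 1, 4, 6, 4, 1], [0, 0, 0, 4, 24, 52, 52, 24, 4], [0, 0, 5, 52, 168, 242, 168, 52, 5], [0, 4, 52, 242, 494, 494, 242, 52, 4], [1, 24, 168, 494, 697, 494, 168, 24, 1], [4, 52, 242, 494, 494, 242, 52, 4], [6, 52, 168, 242, 168, 52, 6], [4, 24, 52, 52, 24, 4], [1, 4, 5, 4, 1]],
  [[0, 0, 0, 2, 12, 26, 26, 12, 2], [0, 0, 4, 40, 128, 184, 128, 40, 4], [0, 4, 52, 242, 494, 494, 242, 52, 4], [2, 40, 242, 666, 922, 666, 242, 40, 2], [12, 128, 494, 922, 922, 494, 128, 12], [26, 184, 494, 666, 494, 184, 26], [26, 128, 242, 242, 128, 26], [12, 40, 52, 40, 12], [2, 4, 4, 2]],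
  [[0, 0, 1, 12, 40, 58, 40, 12, 1], [0, 1, 24, 128, 272, 272, 128, 24, 1], [1, 24, 168, 494, 697, 494, 168, 24, 1], [12, 128, 494, 922, 922, 494, 128, 12], [40, 272, 697, 922, 697, 272, 40], [58, 272, 494, 494, 272, 58], [40, 128, 168, 128, 40], [12, 24, 24, 12], [1, 1, 1]],
  [[0, 0, 4, 26, 58, 58, 26, 4], [0, 4, 52, 184, 272, 184, 52, 4], [4, 52, 242, 494, 494, 242, 52, 4], [26, 184, 494, 666, 494, 184, 26], [58, 272, 494, 494, 272, 58], [58, 184, 242, 184, 58], [26, 52, 52, 26], [4, 4, 4]],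
  [[0, 0, 6, 26, 40, 26, 6], [0, 6, 52, 128, 128, 52, 6], [6, 52, 168, 242, 168, 52, 6], [26, 128, 242, 242, 128, 26], [40, 128, 168, 128, 40], [26, 52, 52, 26], [6, 6, 6]],
  [[0, 0, 4, 12, 12, 4], [0, 4, 24, 40, 24, 4], [4, 24, 52, 52, 24, 4], [12, 40, 52, 40, 12], [12, 24, 24, 12], [4, 4, 4]],
  [[0, 0, 1, 2, 1], [0, 1, 4, 4, 1], [1, 4, 5, 4, 1], [2, 4, 4, 2], [1, 1, 1]]]
def d15 : P3 := [[[0, 0], [0, 0]],
  [[0, 0], [0, 0, 0, 0, 0, 0, 0, 0, 0], [0, 0, 0, 0, 1, 4, 6, 4, 1], [0, 0, 0, 2, 12, 26, 26, 12, 2], [0, 0, 1, 12, 40, 58, 40, 12, 1], [0, 0, 4, 26, 58, 58, 26, 4], [0, 0, 6, 26, 40, 26, 6], [0, 0, 4, 12, 12, 4], [0, 0, 1, 2, 1]],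
  [[0, 0], [0, 0, 0, 0, 1, 4, 6, 4, 1], [0, 0, 0, 4, 24, 52, 52, 24, 4], [0, 0, 4, 40, 128, 184, 128, 40, 4], [0, 1, 24, 128, 272, 272, 128, 24, 1], [0, 4, 52, 184, 272, 184, 52, 4], [0, 6, 52, 128, 128, 52, 6], [0, 4, 24, 40, 24, 4], [0, 1, 4, 4, 1]],
  [[0, 0], [0, 0, 0, 2, 12, 26, 26, 12, 2], [0, 0, 4, 40, 128, 184, 128, 40, 4], [0, 2, 40, 204, 428, 428, 204, 40, 2], [0, 12, 128, 428, 624, 428, 128, 12], [0, 26, 184, 428, 428, 184, 26], [0, 26, 128, 204, 128, 26], [0, 12, 40, 40, 12], [0, 2, 4, 2]],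
  [[0, 0], [0, 0, 1, 12, 40, 58, 40, 12, 1], [0, 1, 24, 128, 272, 272, 128, 24, 1], [0, 12, 128, 428, 624, 428, 128, 12], [0, 40, 272, 624, 624, 272, 40], [0, 58, 272, 428, 272, 58], [0, 40, 128, 128, 40], [0, 12, 24, 12], [0, 1, 1]],
  [[0, 0], [0, 0, 4, 26, 58, 58, 26, 4], [0, 4, 52, 184, 272, 184, 52, 4], [0, 26, 184, 428, 428, 184, 26], [0, 58, 272, 428, 272, 58], [0, 58, 184, 184, 58], [0, 26, 52, 26], [0, 4, 4]],
  [[0, 0], [0, 0, 6, 26, 40, 26, 6], [0, 6, 52, 128, 128, 52, 6], [0, 26, 128, 204, 128, 26], [0, 40, 128, 128, 40], [0, 26, 52, 26], [0, 6, 6]],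
  [[0, 0], [0, 0, 4, 12, 12, 4], [0, 4, 24, 40, 24, 4], [0, 12, 40, 40, 12], [0, 12, 24, 12], [0, 4, 4]],
  [[0, 0], [0, 0, 1, 2, 1], [0, 1, 4, 4, 1], [0, 2, 4, 2], [0, 1, 1]]]
theorem cn14 : n15 = A (M f14 n14) (M p1 d14) := by decide +kernel
theorem cd14 : d15 = M f14 d14 := by decide +kernel
def dd : P3 := [[[0, 0, 0, 0, 0, 0, 0, 0, 0, 0, 0, 0, 0, 0, 0], [0, 0, 0, 0, 0, 0, 0, 0, 0, 0, 0, 0, 0, 0, 0], [0, 0, 0, 0, 0, 0, 1, 8, 28, 56, 70, 56, 28, 8, 1], [0, 0, 0, 0, 0, 4, 40, 172, 420, 644, 644, 420, 172, 40, 4], [0, 0, 0, 0, 6, 80, 436, 1316, 2470, 3032, 2470, 1316, 436, 80, 6], [0, 0, 0, 4, 80, 584, 2240, 5204, 7824, 7824, 5204, 2240, 584, 80, 4], [0, 0, 1, 40, 436, 2240, 6616, 12316, 15086, 12316, 6616, 2240, 436, 40, 1], [0, 0, 8, 172, 1316, 5204, 12316, 18680, 18680, 12316, 5204, 1316, 172, 8], [0, 0, 28, 420, 2470, 7824, 15086, 18680, 15086, 7824, 2470, 420, 28], [0, 0, 56, 644, 3032,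 7824, 12316, 12316, 7824, 3032, 644, 56], [0, 0, 70, 644, 2470, 5204, 6616, 5204, 2470, 644, 70], [0, 0, 56, 420, 1316, 2240, 2240, 1316, 420, 56], [0, 0, 28, 172, 436, 584, 436, 172, 28], [0, 0, 8, 40, 80, 80, 40, 8], [0, 0, 1, 4, 6, 4, 1]],
  [[0, 0, 0, 0, 0, 0, 0, 0, 0, 0, 0, 0, 0, 0, 0], [0, 0, 0, 0, 0, 0, 2, 16, 56, 112, 140, 112, 56, 16, 2], [0, 0, 0, 0, 0, 12, 120, 516, 1260, 1932, 1932, 1260, 516, 120, 12], [0, 0, 0, 0, 26, 336, 1804, 5404, 10106, 12392, 10106, 5404, 1804, 336, 26], [0, 0, 0, 26, 464, 3224, 12068, 27694, 41420, 41420, 27694, 12068, 3224, 464, 26], [0, 0, 12, 336, 3224, 15624, 44816, 82264, 100344, 82264, 44816, 15624, 3224, 336, 12], [0, 2, 120, 1804, 12068, 44816, 102832, 153950, 153950, 102832, 44816, 12068, 1804, 120, 2], [0, 16, 516, 5404, 27694, 82264, 153950, 188952, 153950, 82264, 27694, 5404, 516, 16], [0, 56, 1260, 10106, 41420, 100344, 153950, 153950, 100344,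 41420, 10106, 1260, 56], [0, 112, 1932, 12392, 41420, 82264, 102832, 82264, 41420, 12392, 1932, 112], [0, 140, 1932, 10106, 27694, 44816, 44816, 27694, 10106, 1932, 140], [0, 112, 1260, 5404, 12068, 15624, 12068, 5404, 1260, 112], [0, 56, 516, 1804, 3224, 3224, 1804, 516, 56], [0, 16, 120, 336, 464, 336, 120, 16], [0, 2, 12, 26, 26, 12, 2]],
  [[0, 0, 0, 0, 0, 0, 1, 8, 28, 56, 70, 56, 28, 8, 1], [0, 0, 0, 0, 0, 12, 120, 516, 1260, 1932, 1932, 1260, 516, 120, 12], [0, 0, 0, 0, 40, 512, 2736, 8176, 15272, 18720, 15272, 8176, 2736, 512, 40], [0, 0, 0, 58, 992, 6752, 25004, 57062, 85140, 85140, 57062, 25004, 6752, 992, 58], [0, 0, 40, 992, 9008, 42448, 119968, 218608, 266064, 218608, 119968, 42448, 9008, 992, 40], [0, 12, 512, 6752, 42448, 152632, 344392, 511860, 511860, 344392, 152632, 42448, 6752, 512, 12], [1, 120, 2736, 25004, 119968, 344392, 633792, 773962, 633792, 344392, 119968, 25004,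 2736, 120, 1], [8, 516, 8176, 57062, 218608, 511860, 773962, 773962, 511860, 218608, 57062, 8176, 516, 8], [28, 1260, 15272, 85140, 266064, 511860, 633792, 511860, 266064, 85140, 15272, 1260, 28], [56, 1932, 18720, 85140, 218608, 344392, 344392, 218608, 85140, 18720, 1932, 56], [70, 1932, 15272, 57062, 119968, 152632, 119968, 57062, 15272, 1932, 70], [56, 1260, 8176, 25004, 42448, 42448, 25004, 8176, 1260, 56], [28, 516, 2736, 6752, 9008, 6752, 2736, 516, 28], [8, 120, 512, 992, 992, 512, 120, 8], [1, 12, 40, 58, 40, 12, 1]],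
  [[0, 0, 0, 0, 0, 4, 40, 172, 420, 644, 644, 420, 172, 40, 4], [0, 0, 0, 0, 26, 336, 1804, 5404, 10106, 12392, 10106, 5404, 1804, 336, 26], [0, 0, 0, 58, 992, 6752, 25004, 57062, 85140, 85140, 57062, 25004, 6752, 992, 58], [0, 0, 58, 1392, 12440, 58128, 163536, 297320, 361612, 297320, 163536, 58128, 12440, 1392, 58], [0, 26, 992, 12440, 76216, 270244, 605228, 896590, 896590, 605228, 270244, 76216, 12440, 992, 26], [4, 336, 6752, 58128, 270244, 762600, 1391356, 1694584, 1391356, 762600, 270244, 58128, 6752, 336, 4], [40, 1804, 25004, 163536, 605228, 1391356, 2086968, 2086968, 1391356, 605228, 163536, 25004, 1804, 40], [172, 5404, 57062, 297320, 896590, 1694584, 2086968, 1694584, 896590, 297320, 57062, 5404, 172], [420, 10106, 85140, 361612, 896590, 1391356, 1391356, 896590, 361612, 85140, 10106, 420], [644, 12392, 85140, 297320, 605228, 762600, 605228, 297320, 85140, 12392, 644], [644, 10106,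 57062, 163536, 270244, 270244, 163536, 57062, 10106, 644], [420, 5404, 25004, 58128, 76216, 58128, 25004, 5404, 420], [172, 1804, 6752, 12440, 12440, 6752, 1804, 172], [40, 336, 992, 1392, 992, 336, 40], [4, 26, 58, 58, 26, 4]],
  [[0, 0, 0, 0, 6, 80, 436, 1316, 2470, 3032, 2470, 1316, 436, 80, 6], [0, 0, 0, 26, 464, 3224, 12068, 27694, 41420, 41420, 27694, 12068, 3224, 464, 26], [0, 0, 40, 992, 9008, 42448, 119968, 218608, 266064, 218608, 119968, 42448, 9008, 992, 40], [0, 26, 992, 12440, 76216, 270244, 605228, 896590, 896590, 605228, 270244, 76216, 12440, 992, 26], [6, 464, 9008, 76216, 351000, 985296, 1792856, 2181788, 1792856, 985296, 351000, 76216, 9008, 464, 6], [80, 3224, 42448, 270244, 985296, 2246760, 3357900, 3357900, 2246760, 985296, 270244, 42448, 3224, 80], [436, 12068, 119968, 605228, 1792856, 3357900, 4123872, 3357900, 1792856, 605228, 119968, 12068, 436], [1316, 27694, 218608,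 896590, 2181788, 3357900, 3357900, 2181788, 896590, 218608, 27694, 1316], [2470, 41420, 266064, 896590, 1792856, 2246760, 1792856, 896590, 266064, 41420, 2470], [3032, 41420, 218608, 605228, 985296, 985296, 605228, 218608, 41420, 3032], [2470, 27694, 119968, 270244, 351000, 270244, 119968, 27694, 2470], [1316, 12068, 42448, 76216, 76216, 42448, 12068, 1316], [436, 3224, 9008, 12440, 9008, 3224, 436], [80, 464, 992, 992, 464, 80], [6, 26, 40, 26, 6]],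
  [[0, 0, 0, 4, 80, 584, 2240, 5204, 7824, 7824, 5204, 2240, 584, 80, 4], [0, 0, 12, 336, 3224, 15624, 44816, 82264, 100344, 82264, 44816, 15624, 3224, 336, 12], [0, 12, 512, 6752, 42448, 152632, 344392, 511860, 511860, 344392, 152632, 42448, 6752, 512, 12], [4, 336, 6752, 58128, 270244, 762600, 1391356, 1694584, 1391356, 762600, 270244, 58128, 6752, 336, 4], [80, 3224, 42448, 270244, 985296, 2246760, 3357900, 3357900, 2246760, 985296, 270244, 42448, 3224, 80], [584, 15624, 152632, 762600, 2246760, 4196232, 5148960, 4196232, 2246760, 762600, 152632, 15624, 584], [2240, 44816, 344392, 1391356, 3357900, 5148960, 5148960, 3357900, 1391356, 344392, 44816, 2240], [5204, 82264, 511860, 1694584, 3357900, 4196232, 3357900, 1694584, 511860, 82264, 5204], [7824, 100344, 511860, 1391356, 2246760, 2246760, 1391356, 511860, 100344, 7824], [7824, 82264, 344392, 762600, 985296, 762600, 344392, 82264, 7824],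 [5204, 44816, 152632, 270244, 270244, 152632, 44816, 5204], [2240, 15624, 42448, 58128, 42448, 15624, 2240], [584, 3224, 6752, 6752, 3224, 584], [80, 336, 512, 336, 80], [4, 12, 12, 4]],
  [[0, 0, 1, 40, 436, 2240, 6616, 12316, 15086, 12316, 6616, 2240, 436, 40, 1], [0, 2, 120, 1804, 12068, 44816, 102832, 153950, 153950, 102832, 44816, 12068, 1804, 120, 2], [1, 120, 2736, 25004, 119968, 344392, 633792, 773962, 633792, 344392, 119968, 25004, 2736, 120, 1], [40, 1804, 25004, 163536, 605228, 1391356, 2086968, 2086968, 1391356, 605228, 163536, 25004, 1804, 40], [436, 12068, 119968, 605228, 1792856, 3357900, 4123872, 3357900, 1792856, 605228, 119968, 12068, 436], [2240, 44816, 344392, 1391356, 3357900, 5148960, 5148960, 3357900, 1391356, 344392, 44816, 2240], [6616, 102832, 633792, 2086968, 4123872, 5148960, 4123872, 2086968, 633792, 102832, 6616], [12316, 153950, 773962, 2086968, 3357900, 3357900,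 2086968, 773962, 153950, 12316], [15086, 153950, 633792, 1391356, 1792856, 1391356, 633792, 153950, 15086], [12316, 102832, 344392, 605228, 605228, 344392, 102832, 12316], [6616, 44816, 119968, 163536, 119968, 44816, 6616], [2240, 12068, 25004, 25004, 12068, 2240], [436, 1804, 2736, 1804, 436], [40, 120, 120, 40], [1, 2, 1]],
  [[0, 0, 8, 172, 1316, 5204, 12316, 18680, 18680, 12316, 5204, 1316, 172, 8], [0, 16, 516, 5404, 27694, 82264, 153950, 188952, 153950, 82264, 27694, 5404, 516, 16], [8, 516, 8176, 57062, 218608, 511860, 773962, 773962, 511860, 218608, 57062, 8176, 516, 8], [172, 5404, 57062, 297320, 896590, 1694584, 2086968, 1694584, 896590, 297320, 57062, 5404, 172], [1316, 27694, 218608, 896590, 2181788, 3357900, 3357900, 2181788, 896590, 218608, 27694, 1316], [5204, 82264, 511860, 1694584, 3357900, 4196232, 3357900, 1694584, 511860, 82264, 5204], [12316, 153950, 773962, 2086968, 3357900,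 3357900, 2086968, 773962, 153950, 12316], [18680, 188952, 773962, 1694584, 2181788, 1694584, 773962, 188952, 18680], [18680, 153950, 511860, 896590, 896590, 511860, 153950, 18680], [12316, 82264, 218608, 297320, 218608, 82264, 12316], [5204, 27694, 57062, 57062, 27694, 5204], [1316, 5404, 8176, 5404, 1316], [172, 516, 516, 172], [8, 16, 8]],
  [[0, 0, 28, 420, 2470, 7824, 15086, 18680, 15086, 7824, 2470, 420, 28], [0, 56, 1260, 10106, 41420, 100344, 153950, 153950, 100344, 41420, 10106, 1260, 56], [28, 1260, 15272, 85140, 266064, 511860, 633792, 511860, 266064, 85140, 15272, 1260, 28], [420, 10106, 85140, 361612, 896590, 1391356, 1391356, 896590, 361612, 85140, 10106, 420], [2470, 41420, 266064, 896590, 1792856, 2246760, 1792856, 896590, 266064, 41420, 2470], [7824, 100344, 511860, 1391356, 2246760, 2246760, 1391356, 511860, 100344, 7824], [15086, 153950, 633792, 1391356, 1792856, 1391356,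 633792, 153950, 15086], [18680, 153950, 511860, 896590, 896590, 511860, 153950, 18680], [15086, 100344, 266064, 361612, 266064, 100344, 15086], [7824, 41420, 85140, 85140, 41420, 7824], [2470, 10106, 15272, 10106, 2470], [420, 1260, 1260, 420], [28, 56, 28]],
  [[0, 0, 56, 644, 3032, 7824, 12316, 12316, 7824, 3032, 644, 56], [0, 112, 1932, 12392, 41420, 82264, 102832, 82264, 41420, 12392, 1932, 112], [56, 1932, 18720, 85140, 218608, 344392, 344392, 218608, 85140, 18720, 1932, 56], [644, 12392, 85140, 297320, 605228, 762600, 605228, 297320, 85140, 12392, 644], [3032, 41420, 218608, 605228, 985296, 985296, 605228, 218608, 41420, 3032], [7824, 82264, 344392, 762600, 985296, 762600, 344392, 82264, 7824], [12316, 102832, 344392, 605228, 605228, 344392, 102832, 12316], [12316, 82264, 218608, 297320, 218608, 82264, 12316], [7824, 41420, 85140, 85140, 41420, 7824], [3032, 12392, 18720, 12392, 3032],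 [644, 1932, 1932, 644], [56, 112, 56]],
  [[0, 0, 70, 644, 2470, 5204, 6616, 5204, 2470, 644, 70], [0, 140, 1932, 10106, 27694, 44816, 44816, 27694, 10106, 1932, 140], [70, 1932, 15272, 57062, 119968, 152632, 119968, 57062, 15272, 1932, 70], [644, 10106, 57062, 163536, 270244, 270244, 163536, 57062, 10106, 644], [2470, 27694, 119968, 270244, 351000, 270244, 119968, 27694, 2470], [5204, 44816, 152632, 270244, 270244, 152632, 44816, 5204], [6616, 44816, 119968, 163536, 119968, 44816, 6616], [5204, 27694, 57062, 57062, 27694, 5204], [2470, 10106, 15272, 10106, 2470], [644, 1932, 1932, 644], [70, 140, 70]],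
  [[0, 0, 56, 420, 1316, 2240, 2240, 1316, 420, 56], [0, 112, 1260, 5404, 12068, 15624, 12068, 5404, 1260, 112], [56, 1260, 8176, 25004, 42448, 42448, 25004, 8176, 1260, 56], [420, 5404, 25004, 58128, 76216, 58128, 25004, 5404, 420], [1316, 12068, 42448, 76216, 76216, 42448, 12068, 1316], [2240, 15624, 42448, 58128, 42448, 15624, 2240], [2240, 12068, 25004, 25004, 12068, 2240], [1316, 5404, 8176, 5404, 1316], [420, 1260, 1260, 420], [56, 112, 56]],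
  [[0, 0, 28, 172, 436, 584, 436, 172, 28], [0, 56, 516, 1804, 3224, 3224, 1804, 516, 56], [28, 516, 2736, 6752, 9008, 6752, 2736, 516, 28], [172, 1804, 6752, 12440, 12440, 6752, 1804, 172], [436, 3224, 9008, 12440, 9008, 3224, 436], [584, 3224, 6752, 6752, 3224, 584], [436, 1804, 2736, 1804, 436], [172, 516, 516, 172], [28, 56, 28]],
  [[0, 0, 8, 40, 80, 80, 40, 8], [0, 16, 120, 336, 464, 336, 120, 16], [8, 120, 512, 992, 992, 512, 120, 8], [40, 336, 992, 1392, 992, 336, 40], [80, 464, 992, 992, 464, 80], [80, 336, 512, 336, 80], [40, 120, 120, 40], [8, 16, 8]],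
  [[0, 0, 1, 4, 6, 4, 1], [0, 2, 12, 26, 26, 12, 2], [1, 12, 40, 58, 40, 12, 1], [4, 26, 58, 58, 26, 4], [6, 26, 40, 26, 6], [4, 12, 12, 4], [1, 2, 1]]]
def pP : P3 := [[[0], [0, 0], [0, 0, -1]], [[0], [0]], [[0, 0, -1], [0, 0, 0], [-1, 0, -1]]]
theorem cdd : dd = M d11 d11 := by decide +kernel
theorem okN : ok n15 = true := by decide +kernel
theorem okF : ok (A (M n15 n15) (M pP dd)) = true := by decide +kernel

variable (x y z : ℝ)

theorem i_add (a b : ℤ) : ((Int.add a b : ℤ) : ℝ) = a + b := Int.cast_add a b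
theorem i_mul (a b : ℤ) : ((Int.mul a b : ℤ) : ℝ) = a * b := Int.cast_mul a b
theorem ev_A (p q : P3) : ev x y z (A p q) = ev x y z p + ev x y z q :=
  leval_add x (leval_add y (leval_add z i_add)) p q
theorem ev_M (p q : P3) : ev x y z (M p q) = ev x y z p * ev x y z q :=
  leval_mul x (leval_add y (leval_add z i_add))
    (leval_mul y (leval_add z i_add) (leval_mul z i_add i_mul (by simp)) rfl) rfl p q
theorem ev_X : ev x y z pX = x := by simp [ev, pX, leval]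
theorem ev_Y : ev x y z pY = y := by simp [ev, pY, leval]
theorem ev_Z : ev x y z pZ = z := by simp [ev, pZ, leval]
theorem ev_1 : ev x y z p1 = 1 := by simp [ev, p1, leval]
theorem ev_m : ev x y z pm = -1 := by simp [ev, pm, leval]

variable {x y z}

theorem ev_ok (hx : 0 < x) (hy : 0 < y) (hz : 0 < z) {p : P3} (h : ok p = true) :
    0 ≤ ev x y z p :=
  leval_nonneg hx.le (leval_nonneg hy.le (leval_nonneg hz.le fun c hc =>
    Int.cast_nonneg (of_decide_eq_true hc))) p h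

theorem step {ε f s d n n' d' : ℝ} (hf : 0 < f) (h : s * d = n) (hd : 0 < d)
    (h1 : n' = f * n + ε * d) (h2 : d' = f * d) : (s + ε * f⁻¹) * d' = n' ∧ 0 < d' := by
  refine ⟨?_, h2 ▸ mul_pos hf hd⟩
  rw [h1, h2, ← h]
  field_simp

theorem main (hx : 0 < x) (hy : 0 < y) (hz : 0 < z) (S : ℝ)
    (hS : S = (x)⁻¹ + (y)⁻¹ + (z)⁻¹ + (1 : ℝ)⁻¹ - (x + y)⁻¹ - (x + z)⁻¹ - (x + 1)⁻¹ - (y + z)⁻¹ - (y + 1)⁻¹ - (z + 1)⁻¹ + (x + y + z)⁻¹ + (x + y + 1)⁻¹ + (x + z + 1)⁻¹ + (y + z + 1)⁻¹ - (x + y + z + 1)⁻¹) :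
    0 ≤ S ∧ (x ^ 2)⁻¹ + (y ^ 2)⁻¹ + (z ^ 2)⁻¹ + 1 ≤ S ^ 2 := by
  have s0 : (0 : ℝ) * ev x y z d0 = ev x y z n0 ∧ 0 < ev x y z d0 := by simp [ev, d0, n0, leval]
  have g0 : ev x y z f0 = (x + y) := by simp [ev, f0, leval] <;> ring
  have s1 := step (ε := -1) (f := (x + y)) (by positivity) s0.1 s0.2 (n' := ev x y z n1)
    (d' := ev x y z d1) (by rw [cn0, ev_A, ev_M, ev_M, g0, ev_m]) (by rw [cd0, ev_M, g0])
  have g1 : ev x y z f1 = (x + z) := by simp [ev, f1, leval] <;> ring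
  have s2 := step (ε := -1) (f := (x + z)) (by positivity) s1.1 s1.2 (n' := ev x y z n2)
    (d' := ev x y z d2) (by rw [cn1, ev_A, ev_M, ev_M, g1, ev_m]) (by rw [cd1, ev_M, g1])
  have g2 : ev x y z f2 = (x + 1) := by simp [ev, f2, leval] <;> ring
  have s3 := step (ε := -1) (f := (x + 1)) (by positivity) s2.1 s2.2 (n' := ev x y z n3)
    (d' := ev x y z d3) (by rw [cn2, ev_A, ev_M, ev_M, g2, ev_m]) (by rw [cd2, ev_M, g2])
  have g3 : ev x y z f3 = (y + z) := by simp [ev, f3, leval] <;> ring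
  have s4 := step (ε := -1) (f := (y + z)) (by positivity) s3.1 s3.2 (n' := ev x y z n4)
    (d' := ev x y z d4) (by rw [cn3, ev_A, ev_M, ev_M, g3, ev_m]) (by rw [cd3, ev_M, g3])
  have g4 : ev x y z f4 = (y + 1) := by simp [ev, f4, leval] <;> ring
  have s5 := step (ε := -1) (f := (y + 1)) (by positivity) s4.1 s4.2 (n' := ev x y z n5)
    (d' := ev x y z d5) (by rw [cn4, ev_A, ev_M, ev_M, g4, ev_m]) (by rw [cd4, ev_M, g4])
  have g5 : ev x y z f5 = (z + 1) := by simp [ev, f5, leval] <;> ring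
  have s6 := step (ε := -1) (f := (z + 1)) (by positivity) s5.1 s5.2 (n' := ev x y z n6)
    (d' := ev x y z d6) (by rw [cn5, ev_A, ev_M, ev_M, g5, ev_m]) (by rw [cd5, ev_M, g5])
  have g6 : ev x y z f6 = (x + y + z) := by simp [ev, f6, leval] <;> ring
  have s7 := step (ε := 1) (f := (x + y + z)) (by positivity) s6.1 s6.2 (n' := ev x y z n7)
    (d' := ev x y z d7) (by rw [cn6, ev_A, ev_M, ev_M, g6, ev_1]) (by rw [cd6, ev_M, g6])
  have g7 : ev x y z f7 = (x + y + 1) := by simp [ev, f7, leval] <;> ring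
  have s8 := step (ε := 1) (f := (x + y + 1)) (by positivity) s7.1 s7.2 (n' := ev x y z n8)
    (d' := ev x y z d8) (by rw [cn7, ev_A, ev_M, ev_M, g7, ev_1]) (by rw [cd7, ev_M, g7])
  have g8 : ev x y z f8 = (x + z + 1) := by simp [ev, f8, leval] <;> ring
  have s9 := step (ε := 1) (f := (x + z + 1)) (by positivity) s8.1 s8.2 (n' := ev x y z n9)
    (d' := ev x y z d9) (by rw [cn8, ev_A, ev_M, ev_M, g8, ev_1]) (by rw [cd8, ev_M, g8])
  have g9 : ev x y z f9 = (y + z + 1) := by simp [ev, f9, leval] <;> ring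
  have s10 := step (ε := 1) (f := (y + z + 1)) (by positivity) s9.1 s9.2 (n' := ev x y z n10)
    (d' := ev x y z d10) (by rw [cn9, ev_A, ev_M, ev_M, g9, ev_1]) (by rw [cd9, ev_M, g9])
  have g10 : ev x y z f10 = (x + y + z + 1) := by simp [ev, f10, leval] <;> ring
  have s11 := step (ε := -1) (f := (x + y + z + 1)) (by positivity) s10.1 s10.2 (n' := ev x y z n11)
    (d' := ev x y z d11) (by rw [cn10, ev_A, ev_M, ev_M, g10, ev_m]) (by rw [cd10, ev_M, g10])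
  have g11 : ev x y z f11 = (x) := by simp [ev, f11, leval] <;> ring
  have s12 := step (ε := 1) (f := (x)) (by positivity) s11.1 s11.2 (n' := ev x y z n12)
    (d' := ev x y z d12) (by rw [cn11, ev_A, ev_M, ev_M, g11, ev_1]) (by rw [cd11, ev_M, g11])
  have g12 : ev x y z f12 = (y) := by simp [ev, f12, leval] <;> ring
  have s13 := step (ε := 1) (f := (y)) (by positivity) s12.1 s12.2 (n' := ev x y z n13)
    (d' := ev x y z d13) (by rw [cn12, ev_A, ev_M, ev_M, g12, ev_1]) (by rw [cd12, ev_M, g12])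
  have g13 : ev x y z f13 = (z) := by simp [ev, f13, leval] <;> ring
  have s14 := step (ε := 1) (f := (z)) (by positivity) s13.1 s13.2 (n' := ev x y z n14)
    (d' := ev x y z d14) (by rw [cn13, ev_A, ev_M, ev_M, g13, ev_1]) (by rw [cd13, ev_M, g13])
  have g14 : ev x y z f14 = (1 : ℝ) := by simp [ev, f14, leval] <;> ring
  have s15 := step (ε := 1) (f := (1 : ℝ)) (by positivity) s14.1 s14.2 (n' := ev x y z n15)
    (d' := ev x y z d15) (by rw [cn14, ev_A, ev_M, ev_M, g14, ev_1]) (by rw [cd14, ev_M, g14])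
  have eD : ev x y z d15 = x * y * z * ev x y z d11 := by
    rw [cd14, ev_M, cd13, ev_M, cd12, ev_M, cd11, ev_M, g11, g12, g13, g14]; ring
  have eN : ev x y z n15 = S * (x * y * z * ev x y z d11) := by
    rw [← s15.1, eD, hS]; ring
  have eP : ev x y z pP =
      -(y * z * (y * z) + x * z * (x * z) + x * y * (x * y) + x * y * z * (x * y * z)) := by
    simp [ev, pP, leval]; ring
  have n0 := ev_ok hx hy hz okN
  have f0 := ev_ok hx hy hz okF
  rw [ev_A, ev_M, ev_M, cdd, ev_M, eN, eP] at f0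
  rw [eN] at n0
  have hD0 := s11.2
  generalize ev x y z d11 = D at n0 f0 hD0
  have hp : 0 < x * y * z * D := by positivity
  refine ⟨nonneg_of_mul_nonneg_left n0 hp, le_of_mul_le_mul_right ?_ (pow_pos hp 2)⟩
  have e : ((x ^ 2)⁻¹ + (y ^ 2)⁻¹ + (z ^ 2)⁻¹ + 1) * (x * y * z * D) ^ 2 =
      (y * z * (y * z) + x * z * (x * z) + x * y * (x * y) + x * y * z * (x * y * z)) * (D * D) := by
    field_simp
  rw [e]
  linarith

end Pool.Agent.Lib.helper3.ExpMax
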