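import Pool.Agent.Lib.helper3.FockDef

set_option autoImplicit false

/-! Torus coefficients of separately entire functions, Gaussian moments on `ℂ`,
diagonal operators. -/

namespace Pool.Agent.Lib.H3Fock

open MeasureTheory Set Filter Topology Complex
open scoped ComplexConjugate Real InnerProductSpace

noncomputable section

abbrev κ : Measure ℝ := volume.restrict (Icc 0 (2 * π))

def e (θ : ℝ) : ℂ := exp (θ * I)

@[fun_prop] lemma e_cont : Continuous e := by unfold e; fun_prop

lemma e_norm (θ : ℝ) : ‖e θ‖ = 1 := norm_exp_ofReal_mul_I θ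

def cf (m : ℕ) (h : ℂ → ℂ) : ℂ := ∫ θ, conj (e θ) ^ m * h (e θ) ∂κ

lemma cf_eq (m : ℕ) {h : ℂ → ℂ} (hh : Differentiable ℂ h) :
    cf m h = 2 * π / m.factorial * iteratedDeriv m h 0 := by
  have h1 := hh.differentiableOn.circleIntegral_one_div_sub_center_pow_smul (c := 0) one_pos m
  have h2 : ∀ θ : ℝ, deriv (circleMap 0 1) θ • (1 / (circleMap 0 1 θ - 0) ^ (m + 1)) •
      h (circleMap 0 1 θ) = I * (conj (e θ) ^ m * h (e θ)) := fun θ => by
    have e1 : circleMap 0 1 θ = e θ := by simp [circleMap, e]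
    have e2 : e θ ≠ 0 := exp_ne_zero _
    rw [deriv_circleMap, e1, ← Complex.inv_eq_conj (e_norm θ)]
    simp only [smul_eq_mul, sub_zero, inv_pow]
    field_simp
    ring
  simp only [circleIntegral, h2] at h1
  rw [intervalIntegral.integral_const_mul, intervalIntegral.integral_of_le (by positivity),
    ← integral_Icc_eq_integral_Ioc] at h1
  refine mul_left_cancel₀ I_ne_zero (h1.trans ?_)
  rw [smul_eq_mul]; ring

lemma cf_scale (m : ℕ) {h : ℂ → ℂ} (hh : Differentiable ℂ h) (w : ℂ) :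
    cf m (fun t => h (w * t)) = w ^ m * cf m h := by
  rw [cf_eq m hh, cf_eq m (by fun_prop), iteratedDeriv_comp_const_mul hh.contDiff]
  simp only [mul_zero]; ring

lemma cf_hasSum {h : ℂ → ℂ} (hh : Differentiable ℂ h) :
    HasSum (fun m => cf m h) (2 * π * h 1) := by
  have h1 := (hasSum_taylorSeries_of_entire hh 0 1).mul_left (2 * π : ℂ)
  have e1 : (fun m => cf m h) = fun n : ℕ => 2 * π *
      ((n.factorial : ℂ)⁻¹ • (1 - 0 : ℂ) ^ n • iteratedDeriv n h 0) := by
    funext m; rw [cf_eq m hh]; simp only [sub_zero, one_pow, smul_eq_mul]; ring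
  rwa [e1]

lemma int2 {F : ℝ × ℝ → ℂ} (hF : Continuous F) : Integrable F (κ.prod κ) := by
  rw [Measure.prod_restrict]
  exact hF.continuousOn.integrableOn_compact (isCompact_Icc.prod isCompact_Icc)

def cf2 (m n : ℕ) (G : ℂ × ℂ → ℂ) : ℂ :=
  ∫ p, conj (e p.1) ^ m * conj (e p.2) ^ n * G (e p.1, e p.2) ∂(κ.prod κ)

lemma cf2_left (m n : ℕ) {G : ℂ × ℂ → ℂ} (hG : Continuous G) :
    cf2 m n G = ∫ θ, conj (e θ) ^ m * cf n (fun t => G (e θ, t)) ∂κ := by
  rw [cf2, integral_prod _ (int2 (by fun_prop))]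
  simp only [cf, mul_assoc, integral_const_mul]

lemma cf2_right (m n : ℕ) {G : ℂ × ℂ → ℂ} (hG : Continuous G) :
    cf2 m n G = ∫ θ, conj (e θ) ^ n * cf m (fun t => G (t, e θ)) ∂κ := by
  rw [cf2, integral_prod_symm _ (int2 (by fun_prop))]
  simp only [cf, ← integral_const_mul]
  congr 1; funext θ; congr 1; funext φ; ring

lemma cf2_scale (m n : ℕ) {G : ℂ × ℂ → ℂ} (hG : Differentiable ℂ G) (a b : ℂ) :
    cf2 m n (fun p => G (a * p.1, b * p.2)) = a ^ m * b ^ n * cf2 m n G := by
  have hc := hG.continuous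
  have h1 : cf2 m n (fun p => G (a * p.1, b * p.2)) = b ^ n * cf2 m n (fun p => G (a * p.1, p.2)) := by
    rw [cf2_left _ _ (by fun_prop), cf2_left _ _ (by fun_prop), ← integral_const_mul]
    congr 1; funext θ
    rw [cf_scale n (h := fun t => G (a * e θ, t)) (by fun_prop)]; ring
  rw [h1, cf2_right _ _ (by fun_prop), cf2_right _ _ hc, ← integral_const_mul, ← integral_const_mul]
  congr 1; funext θ
  rw [cf_scale m (h := fun t => G (t, e θ)) (by fun_prop)]; ring

lemma cf2_zero {G : ℂ × ℂ → ℂ} (hG : Differentiable ℂ G) (h : ∀ m n, cf2 m n G = 0) :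
    G (1, 1) = 0 := by
  have hc := hG.continuous
  obtain ⟨M, hM⟩ := ((isCompact_sphere (0 : ℂ) 2).prod (isCompact_sphere (0 : ℂ) 1)).exists_bound_of_continuousOn
    hc.continuousOn
  have hb : ∀ m θ, ‖cf m (fun t => G (t, e θ))‖ ≤ M * (2 * π) * (1 / 2) ^ m := fun m θ => by
    have h1 := cf_scale m (h := fun t => G (t, e θ)) (by fun_prop) 2
    have h2 : ‖cf m (fun t => G (2 * t, e θ))‖ ≤ M * (2 * π) := by
      have := norm_integral_le_of_norm_le_const (μ := κ) (C := M)
        (f := fun φ => conj (e φ) ^ m * G (2 * e φ, e θ)) (ae_of_all _ fun φ => by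
          rw [norm_mul, norm_pow, norm_conj, e_norm, one_pow, one_mul]
          exact hM _ ⟨by simp [e_norm], by simp [e_norm]⟩)
      simpa [Real.pi_pos.le, cf] using this
    rw [h1, norm_mul, norm_pow, Complex.norm_two] at h2
    rw [one_div, inv_pow, ← div_eq_mul_inv, le_div_iff₀ (by positivity)]
    linarith
  have h1 : ∀ n, cf n (fun t => G (1, t)) = 0 := fun n => by
    have h2 := hasSum_integral_of_dominated_convergence (μ := κ)
      (F := fun m θ => conj (e θ) ^ n * cf m (fun t => G (t, e θ)))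
      (f := fun θ => conj (e θ) ^ n * (2 * π * G (1, e θ)))
      (fun m _ => M * (2 * π) * (1 / 2) ^ m) (fun m => by
        refine AEStronglyMeasurable.mul (Continuous.aestronglyMeasurable (by fun_prop)) ?_
        exact (int2 (F := fun p => conj (e p.2) ^ m * G (e p.2, e p.1))
          (by fun_prop)).integral_prod_left.1)
      (fun m => ae_of_all _ fun θ => by
        rw [norm_mul, norm_pow, norm_conj, e_norm, one_pow, one_mul]; exact hb m θ)
      (ae_of_all _ fun θ => summable_geometric_two.mul_left _) (integrable_const _)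
      (ae_of_all _ fun θ => (cf_hasSum (h := fun t => G (t, e θ)) (by fun_prop)).mul_left _)
    simp only [← cf2_right _ _ hc, h] at h2
    have h3 := hasSum_zero.unique h2
    simp only [mul_left_comm _ (2 * (π : ℂ)), integral_const_mul] at h3
    exact (mul_eq_zero.1 h3.symm).resolve_left (by simp)
  have h4 := cf_hasSum (h := fun t => G (1, t)) (by fun_prop)
  simp only [h1] at h4
  exact (mul_eq_zero.1 (hasSum_zero.unique h4).symm).resolve_left (by simp)

lemma gam_rot {a : ℂ} (ha : ‖a‖ = 1) : MeasurePreserving (fun w => a * w) gam gam := by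
  have h : MeasurePreserving (fun w : ℂ => a * w) volume volume :=
    (rotation ⟨a, mem_sphere_zero_iff_norm.2 ha⟩).measurePreserving
  refine ⟨by fun_prop, Measure.ext fun s hs => ?_⟩
  rw [Measure.map_apply h.measurable hs, gam, withDensity_apply _ hs,
    withDensity_apply _ (h.measurable hs), ← h.setLIntegral_comp_preimage hs (by fun_prop)]
  simp [ha]

lemma gam_int (f : ℂ → ℂ) : ∫ w, f w ∂gam = ∫ w : ℂ, (Real.exp (-‖w‖ ^ 2) : ℂ) * f w := by
  rw [gam, integral_withDensity_eq_integral_toReal_smul (by fun_prop) (by simp)]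
  simp only [ENNReal.toReal_ofReal (Real.exp_pos _).le, Complex.real_smul]

lemma mom (k : ℕ) : ∫ w : ℂ, ‖w‖ ^ (2 * k) * Real.exp (-‖w‖ ^ 2) = π * k.factorial := by
  have h := Complex.integral_rpow_mul_exp_neg_rpow (p := 2) (q := (2 * k : ℕ)) (by norm_num)
    (by have : (0 : ℝ) ≤ (2 * k : ℕ) := Nat.cast_nonneg _
        linarith)
  simp only [Real.rpow_natCast, Real.rpow_two] at h
  rw [h, show (((2 * k : ℕ) : ℝ) + 2) / 2 = k + 1 by push_cast; ring, Real.Gamma_nat_eq_factorial]
  ring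

lemma gam_pow (k : ℕ) : Integrable (fun w : ℂ => ‖w‖ ^ (2 * k)) gam := by
  rw [gam, integrable_withDensity_iff (by fun_prop) (by simp)]
  simp only [ENNReal.toReal_ofReal (Real.exp_pos _).le]
  exact Integrable.of_integral_ne_zero (by rw [mom]; positivity)

instance : IsFiniteMeasure gam := by
  have := gam_pow 0
  simp only [mul_zero, pow_zero, integrable_const_iff, one_ne_zero, false_or] at this
  exact this

lemma gam_orth (m n : ℕ) :
    ∫ w, conj w ^ m * w ^ n ∂gam = if m = n then (π * m.factorial : ℂ) else 0 := by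
  split_ifs with h
  · subst h
    rw [gam_int]
    have : ∀ w : ℂ, (Real.exp (-‖w‖ ^ 2) : ℂ) * (conj w ^ m * w ^ m) =
        ((‖w‖ ^ (2 * m) * Real.exp (-‖w‖ ^ 2) : ℝ) : ℂ) := fun w => by
      rw [← mul_pow, Complex.conj_mul', ← pow_mul]; push_cast; ring
    simp only [this]
    rw [integral_complex_ofReal, mom]; push_cast; rfl
  · have hn : ((n : ℝ) - m) ≠ 0 := sub_ne_zero.2 fun h1 => h (by exact_mod_cast h1.symm)
    have h1 := (gam_rot (e_norm (π / (n - m)))).integral_comp
      (MeasurableEquiv.mulLeft₀ _ (exp_ne_zero _)).measurableEmbedding fun w => conj w ^ m * w ^ n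
    have h2 : conj (e (π / (n - m))) ^ m * e (π / (n - m)) ^ n = -1 := by
      rw [e, ← exp_conj, ← exp_nat_mul, ← exp_nat_mul, ← exp_add, ← exp_pi_mul_I]
      congr 1
      have hn' : ((n : ℂ) - m) ≠ 0 := by exact_mod_cast hn
      simp only [map_mul, conj_ofReal, conj_I]
      push_cast; field_simp; ring
    simp only [map_mul, mul_pow, mul_mul_mul_comm (conj (e _) ^ m), h2, integral_const_mul] at h1
    linear_combination (-1 / 2 : ℂ) * h1

section diag
variable {H : Type} [NormedAddCommGroup H] [InnerProductSpace ℂ H] [CompleteSpace H] {ι : Type}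

omit [CompleteSpace H] in
lemma closure_diag (b : HilbertBasis ι ℂ H) (l : ι → ℂ) (G : Submodule ℂ (H × H))
    (h1 : ∀ x ∈ G, ∀ a, ⟪b a, x.2⟫_ℂ = l a * ⟪b a, x.1⟫_ℂ) (h2 : ∀ a, (b a, l a • b a) ∈ G)
    (x : H × H) : x ∈ closure (G : Set (H × H)) ↔ ∀ a, ⟪b a, x.2⟫_ℂ = l a * ⟪b a, x.1⟫_ℂ := by
  refine ⟨fun hx a => closure_minimal (fun y hy => h1 y hy a)
    (isClosed_eq (f := fun y : H × H => ⟪b a, y.2⟫_ℂ) (g := fun y => l a * ⟪b a, y.1⟫_ℂ)
      (by fun_prop) (by fun_prop)) hx, fun hx => ?_⟩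
  have h3 := (b.hasSum_repr x.1).prodMk (b.hasSum_repr x.2)
  refine mem_closure_of_tendsto h3 (Eventually.of_forall fun s => G.sum_mem fun a _ => ?_)
  have := G.smul_mem ⟪b a, x.1⟫_ℂ (h2 a)
  rwa [b.repr_apply_apply, b.repr_apply_apply, hx, mul_comm, mul_smul]

lemma exists_diag (b : HilbertBasis ι ℂ H) (m : ι → ℂ) (hm : Summable fun a => ‖m a‖) :
    ∃ R : H →L[ℂ] H, IsCompactOperator R ∧ ∀ f a, ⟪b a, R f⟫_ℂ = m a * ⟪b a, f⟫_ℂ := by
  classical
  let T : ι → H →L[ℂ] H := fun a =>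
    (ContinuousLinearMap.toSpanSingleton ℂ (m a • b a)) ∘L innerSL ℂ (b a)
  have hT : Summable T := Summable.of_norm_bounded hm fun a =>
    (ContinuousLinearMap.opNorm_comp_le _ _).trans (by
      simp [norm_smul, b.orthonormal.1 a])
  refine ⟨∑' a, T a, isClosed_setOfPred_isCompactOperator.mem_of_tendsto hT.hasSum
    (Eventually.of_forall fun s => (compactOperator (RingHom.id ℂ) H H).sum_mem fun a _ =>
      (isCompactOperator_of_locallyCompactSpace_dom (innerSL ℂ (b a))).clm_comp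
        (ContinuousLinearMap.toSpanSingleton ℂ (m a • b a))), fun f a => ?_⟩
  have h := (hT.hasSum.mapL (ContinuousLinearMap.apply ℂ H f)).mapL (innerSL ℂ (b a))
  have h1 : ∀ c, innerSL ℂ (b a) (ContinuousLinearMap.apply ℂ H f (T c)) =
      if a = c then m c * ⟪b c, f⟫_ℂ else 0 := fun c => by
    simp [T, orthonormal_iff_ite.1 b.orthonormal a c, mul_comm]
  simp only [h1] at h
  have h2 := hasSum_single (f := fun c => if a = c then m c * ⟪b c, f⟫_ℂ else 0) a
    fun c hc => if_neg hc.symm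
  rw [if_pos rfl] at h2
  exact h.unique h2

omit [CompleteSpace H] in
lemma not_compact (v : ℕ → H) (hv : Orthonormal ℂ v) (R : H →L[ℂ] H) (hR : IsCompactOperator R)
    (l : ℂ) (h : ∀ n, R (l • v n) = v n) : False := by
  obtain ⟨K, hK, h1⟩ := hR.image_closedBall_subset_compact (f := (R : H →ₗ[ℂ] H)) ‖l‖
  obtain ⟨x, -, φ, hφ, h2⟩ := hK.tendsto_subseq (x := v) fun n =>
    h1 ⟨l • v n, by simp [norm_smul, hv.1 n], h n⟩
  have h3 := h2.inner (𝕜 := ℂ) (h2.comp (tendsto_add_atTop_nat 1))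
  have h4 := h2.inner (𝕜 := ℂ) h2
  have h5 : ∀ n, ⟪v (φ n), v (φ (n + 1))⟫_ℂ = 0 := fun n => hv.2 (hφ n.lt_succ_self).ne
  have h6 : ∀ n, ⟪v (φ n), v (φ n)⟫_ℂ = 1 := fun n => by simp [hv.1 _]
  simp only [Function.comp, h5, h6, tendsto_const_nhds_iff] at h3 h4
  exact zero_ne_one (h3.trans h4.symm)

end diag

end

end Pool.Agent.Lib.H3Fock
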