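import Pool.Agent.Lib.helper3.FockA

set_option autoImplicit false

/-! The monomials in the Gaussian `L²` space of `ℂ²`. -/

namespace Pool.Agent.Lib.H3Fock

open MeasureTheory Set Filter Topology Complex
open scoped ComplexConjugate Real InnerProductSpace BoundedContinuousFunction

noncomputable section

abbrev mu : Measure (Fin 2 → ℂ) := Measure.pi fun _ => gam

def mon (a : ℕ × ℕ) (z : Fin 2 → ℂ) : ℂ := z 0 ^ a.1 * z 1 ^ a.2

lemma mon_diff (a : ℕ × ℕ) : Differentiable ℂ (mon a) := by unfold mon; fun_prop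

lemma mix_mem (a c : ℕ × ℕ) : MemLp (fun z => conj (mon c z) * mon a z) 2 mu := by
  have hc := (mon_diff a).continuous
  have hc' := (mon_diff c).continuous
  rw [memLp_two_iff_integrable_sq_norm (Continuous.aestronglyMeasurable (by fun_prop))]
  have h := Integrable.fintype_prod (ι := Fin 2) (μ := fun _ => gam)
    (f := fun i (w : ℂ) => ‖w‖ ^ (2 * ![c.1 + a.1, c.2 + a.2] i)) fun i => gam_pow _
  refine h.congr (ae_of_all _ fun z => ?_)
  simp [mon, Fin.prod_univ_two]; ring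

lemma mon_orth (a c : ℕ × ℕ) : ∫ z, conj (mon c z) * mon a z ∂mu =
    if c = a then (π ^ 2 * c.1.factorial * c.2.factorial : ℂ) else 0 := by
  have h := integral_fintype_prod_eq_prod (𝕜 := ℂ) (ι := Fin 2) (μ := fun _ => gam)
    (fun i (w : ℂ) => conj w ^ ![c.1, c.2] i * w ^ ![a.1, a.2] i)
  simp only [Fin.prod_univ_two, gam_orth, Matrix.cons_val_zero, Matrix.cons_val_one] at h
  have e1 : ∀ z, conj (mon c z) * mon a z =
      conj (z 0) ^ c.1 * z 0 ^ a.1 * (conj (z 1) ^ c.2 * z 1 ^ a.2) := fun z => by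
    simp only [mon, map_mul, map_pow]; ring
  simp only [e1, h, Prod.ext_iff]
  by_cases h1 : c.1 = a.1 <;> by_cases h2 : c.2 = a.2 <;> simp [h1, h2]
  ring

def nr (a : ℕ × ℕ) : ℝ := (π * √(a.1.factorial) * √(a.2.factorial))⁻¹

lemma nr_sq (a : ℕ × ℕ) : (nr a : ℂ) * nr a * (π ^ 2 * a.1.factorial * a.2.factorial) = 1 := by
  have h : nr a * nr a * (π ^ 2 * a.1.factorial * a.2.factorial) = 1 := by
    have h1 := Real.mul_self_sqrt (Nat.cast_nonneg (α := ℝ) a.1.factorial)
    have h2 := Real.mul_self_sqrt (Nat.cast_nonneg (α := ℝ) a.2.factorial)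
    have h3 : 0 < √(a.1.factorial : ℝ) := by positivity
    have h4 : 0 < √(a.2.factorial : ℝ) := by positivity
    rw [nr]
    nth_rewrite 3 [← h1, ← h2]
    field_simp
  exact_mod_cast h

/-- The class of `r * conj (z^c) * z^a`. -/
def w (r : ℂ) (c a : ℕ × ℕ) : Lp ℂ 2 mu := r • (mix_mem a c).toLp _

lemma w_ae (r : ℂ) (c a : ℕ × ℕ) : w r c a =ᵐ[mu] fun z => r * (conj (mon c z) * mon a z) := by
  filter_upwards [Lp.coeFn_smul r ((mix_mem a c).toLp _), (mix_mem a c).coeFn_toLp]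
    with z h1 h2
  rw [w, h1, Pi.smul_apply, h2, smul_eq_mul]

def v (a : ℕ × ℕ) : Lp ℂ 2 mu := w (nr a) 0 a

lemma v_ae (a : ℕ × ℕ) : v a =ᵐ[mu] fun z => nr a * mon a z := by
  filter_upwards [w_ae (nr a) 0 a] with z h
  rw [v, h]; simp [mon]

lemma inner_v (a : ℕ × ℕ) (f : Lp ℂ 2 mu) (g : (Fin 2 → ℂ) → ℂ) (h : f =ᵐ[mu] g) :
    ⟪v a, f⟫_ℂ = nr a * ∫ z, conj (mon a z) * g z ∂mu := by
  rw [L2.inner_def, ← integral_const_mul]
  refine integral_congr_ae ?_
  filter_upwards [v_ae a, h] with z h1 h2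
  rw [h1, h2]; simp; ring

lemma v_orth : Orthonormal ℂ v := orthonormal_iff_ite.2 fun a c => by
  rw [inner_v a _ _ (v_ae c)]
  simp only [mul_left_comm _ (nr c : ℂ), integral_const_mul, mon_orth]
  split_ifs with h
  · rw [← h, ← mul_assoc, nr_sq]
  · simp

lemma sqrt_summable (R : ℝ) : Summable fun m : ℕ => R ^ m / √(m.factorial) := by
  refine Summable.of_norm_bounded (g := fun m => ((2 * R ^ 2) ^ m / m.factorial + (1 / 2) ^ m) / 2)
    (((Real.summable_pow_div_factorial _).add summable_geometric_two).div_const _) fun m => ?_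
  have h1 : (R ^ m / √(m.factorial)) ^ 2 = (2 * R ^ 2) ^ m / m.factorial * (1 / 2) ^ m := by
    rw [div_pow, Real.sq_sqrt (Nat.cast_nonneg _), mul_pow, ← pow_mul, ← pow_mul, mul_comm m 2,
      one_div, inv_pow]
    field_simp
  refine abs_le_of_sq_le_sq' ?_ (by positivity) |> fun h => abs_le.2 h
  rw [h1]
  nlinarith [sq_nonneg ((2 * R ^ 2) ^ m / m.factorial - (1 / 2 : ℝ) ^ m)]

lemma ent {E : Type} [NormedAddCommGroup E] [NormedSpace ℂ E] [CompleteSpace E] (x : ℕ → E) (C : ℝ)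
    (hx : ∀ m, ‖x m‖ ≤ C) : (∀ t : ℂ, Summable fun m => (t ^ m / √(m.factorial)) • x m) ∧
    Differentiable ℂ fun t : ℂ => ∑' m, (t ^ m / √(m.factorial)) • x m := by
  have hb : ∀ (R : ℝ) (m : ℕ) (t : ℂ), ‖t‖ ≤ R →
      ‖(t ^ m / √(m.factorial)) • x m‖ ≤ R ^ m / √(m.factorial) * C := fun R m t ht => by
    rw [norm_smul, norm_div, norm_pow, Complex.norm_real, Real.norm_of_nonneg (Real.sqrt_nonneg _)]
    have := (norm_nonneg t).trans ht
    gcongr
    exact hx m
  refine ⟨fun t => .of_norm_bounded ((sqrt_summable ‖t‖).mul_right C) fun m => hb _ m t le_rfl,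
    fun t => (differentiableOn_tsum_of_summable_norm (U := Metric.ball 0 (‖t‖ + 1))
      ((sqrt_summable (‖t‖ + 1)).mul_right C) (fun m => by fun_prop) Metric.isOpen_ball
      fun m s hs => hb _ m s (mem_ball_zero_iff.1 hs).le).differentiableAt
      (Metric.isOpen_ball.mem_nhds (by simp))⟩

lemma entire (c : ℕ × ℕ → ℂ) (C : ℝ) (hc : ∀ a, ‖c a‖ ≤ C) : ∃ F : (Fin 2 → ℂ) → ℂ,
    Differentiable ℂ F ∧ ∀ z, HasSum (fun a => c a * (nr a * mon a z)) (F z) := by
  have hC : 0 ≤ C := (norm_nonneg _).trans (hc 0)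
  let x : ℕ → ℕ →ᵇ ℂ := fun m => .ofNormedAddCommGroupDiscrete (fun n => c (m, n)) C fun n => hc _
  let y : ℕ → (ℕ →ᵇ ℂ) →L[ℂ] ℂ := fun n => BoundedContinuousFunction.evalCLM ℂ n
  obtain ⟨hx1, hx2⟩ := ent x C fun m => (BoundedContinuousFunction.norm_le hC).2 fun n => hc _
  obtain ⟨hy1, hy2⟩ := ent y 1 fun n => ContinuousLinearMap.opNorm_le_bound _ zero_le_one fun f =>
    by rw [one_mul]; exact f.norm_coe_le_norm n
  refine ⟨fun z => (π : ℂ)⁻¹ * (∑' n, (z 1 ^ n / √(n.factorial)) • y n)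
    (∑' m, (z 0 ^ m / √(m.factorial)) • x m),
    ((hy2.comp (differentiable_apply 1)).clm_apply
      (hx2.comp (differentiable_apply 0))).const_mul _, fun z => ?_⟩
  have e1 : ∀ a : ℕ × ℕ, c a * (nr a * mon a z) =
      (π : ℂ)⁻¹ * (z 0 ^ a.1 / √(a.1.factorial) * (z 1 ^ a.2 / √(a.2.factorial) * c a)) := fun a => by
    simp only [nr, mon]; push_cast; ring
  simp only [e1]
  refine HasSum.mul_left _ ?_
  have hs : Summable fun a : ℕ × ℕ =>
      z 0 ^ a.1 / √(a.1.factorial) * (z 1 ^ a.2 / √(a.2.factorial) * c a) := by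
    refine .of_norm_bounded (((sqrt_summable ‖z 0‖).mul_of_nonneg (sqrt_summable ‖z 1‖)
      (fun _ => by positivity) fun _ => by positivity).mul_right C) fun a => ?_
    simp only [norm_mul, norm_div, norm_pow, Complex.norm_real,
      Real.norm_of_nonneg (Real.sqrt_nonneg _), mul_assoc]
    gcongr
    exact hc a
  have h1 := (hx1 (z 0)).hasSum.mapL (∑' n, (z 1 ^ n / √(n.factorial)) • y n)
  have h2 := hs.hasSum.prod_fiberwise (g := fun m => (∑' n, (z 1 ^ n / √(n.factorial)) • y n)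
    ((z 0 ^ m / √(m.factorial)) • x m)) fun m => by
      rw [map_smul, smul_eq_mul]
      exact ((hy1 (z 1)).hasSum.mapL (ContinuousLinearMap.apply ℂ ℂ (x m))).mul_left _
  rw [h1.unique h2]
  exact hs.hasSum

lemma sum_entire (c : lp (fun _ : ℕ × ℕ => ℂ) 2) : ∃ F : (Fin 2 → ℂ) → ℂ, Differentiable ℂ F ∧
    v_orth.orthogonalFamily.linearIsometry c =ᵐ[mu] F := by
  obtain ⟨F, hF, h⟩ := entire c ‖c‖ fun a => lp.norm_apply_le_norm (by norm_num) c a
  refine ⟨F, hF, ?_⟩
  obtain ⟨ns, h1, h2⟩ := (tendstoInMeasure_of_tendsto_Lp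
    (v_orth.orthogonalFamily.hasSum_linearIsometry c)).exists_seq_tendsto_ae'
  have h3 : ∀ᵐ z ∂mu, ∀ a, (c a • v a : Lp ℂ 2 mu) z = c a * (nr a * mon a z) :=
    ae_all_iff.2 fun a => by
      filter_upwards [Lp.coeFn_smul (c a) (v a), v_ae a] with z h4 h5
      rw [h4, Pi.smul_apply, h5, smul_eq_mul]
  filter_upwards [h2, h3, ae_all_iff.2 fun n => Lp.coeFn_fun_finsetSum (ns n) fun a => c a • v a]
    with z h4 h5 h6
  refine tendsto_nhds_unique (h4.congr fun n => ?_) ((h z).comp h1)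
  exact (h6 n).trans (Finset.sum_congr rfl fun a _ => h5 a)

lemma complete (f : Lp ℂ 2 mu) (g : (Fin 2 → ℂ) → ℂ) (hg : Differentiable ℂ g) (h : f =ᵐ[mu] g)
    (h0 : ∀ a, ⟪v a, f⟫_ℂ = 0) : f = 0 := by
  let G : ℂ × ℂ → ℂ := fun p => g ![p.1, p.2]
  have hG : Differentiable ℂ G := hg.comp (differentiable_pi.2 fun i => by
    fin_cases i <;> simp <;> fun_prop)
  have hc : ∀ m n, cf2 m n G = 0 := fun m n => by
    let F : (Fin 2 → ℂ) → ℂ := fun z => conj (mon (m, n) z) * g z
    have hFc : Continuous F := by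
      have := (mon_diff (m, n)).continuous
      have := hg.continuous
      fun_prop
    have hF : Integrable F mu := by
      have h1 := ((mix_mem 0 (m, n)).integrable_mul ((Lp.memLp f).ae_eq h))
      exact h1.congr (ae_of_all _ fun z => by simp [F, mon])
    have hF0 : ∫ z, F z ∂mu = 0 := by
      have h1 := h0 (m, n)
      rw [inner_v _ _ _ h] at h1
      exact (mul_eq_zero.1 h1).resolve_left (left_ne_zero_of_mul (left_ne_zero_of_mul_eq_one (nr_sq _)))
    let ρ : ℝ × ℝ → (Fin 2 → ℂ) → Fin 2 → ℂ := fun p z i => ![e p.1, e p.2] i * z i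
    have hρ : ∀ p, MeasurePreserving (ρ p) mu mu := fun p =>
      measurePreserving_pi _ _ fun i => gam_rot (by fin_cases i <;> exact e_norm _)
    have hρc : Continuous fun q : (ℝ × ℝ) × (Fin 2 → ℂ) => F (ρ q.1 q.2) :=
      hFc.comp (continuous_pi fun i => by fin_cases i <;> simp [ρ] <;> fun_prop)
    have hi : Integrable (Function.uncurry fun p z => F (ρ p z)) ((κ.prod κ).prod mu) := by
      refine (integrable_prod_iff hρc.aestronglyMeasurable).2 ⟨ae_of_all _ fun p =>
        (hρ p).integrable_comp_of_integrable hF, ?_⟩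
      have : ∀ p, ∫ z, ‖F (ρ p z)‖ ∂mu = ∫ z, ‖F z‖ ∂mu := fun p => by
        rw [← integral_map (hρ p).measurable.aemeasurable hFc.norm.aestronglyMeasurable,
          (hρ p).map_eq]
      simp only [Function.uncurry, this]
      exact integrable_const _
    have h1 := integral_integral_swap hi
    have h2 : ∀ p, ∫ z, F (ρ p z) ∂mu = 0 := fun p => by
      rw [← integral_map (hρ p).measurable.aemeasurable hFc.aestronglyMeasurable,
        (hρ p).map_eq, hF0]
    have h3 : ∀ z, ∫ p, F (ρ p z) ∂(κ.prod κ) =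
        cf2 m n G * (conj (mon (m, n) z) * mon (m, n) z) := fun z => by
      have h4 := cf2_scale m n hG (z 0) (z 1)
      rw [mul_comm, mul_assoc, show mon (m, n) z * cf2 m n G = _ from h4.symm, cf2,
        ← integral_const_mul]
      congr 1; funext p
      have : ρ p z = ![z 0 * e p.1, z 1 * e p.2] := by
        funext i; fin_cases i <;> simp [ρ, mul_comm]
      simp only [F, G, this, mon]
      simp; ring
    simp only [h2, h3, integral_const_mul, mon_orth, integral_zero, if_true] at h1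
    exact (mul_eq_zero.1 h1.symm).resolve_right (right_ne_zero_of_mul_eq_one (nr_sq (m, n)))
  have h5 : ∀ z, g z = 0 := fun z => by
    have h6 := cf2_zero (G := fun p => G (z 0 * p.1, z 1 * p.2)) (by fun_prop) fun m n => by
      rw [cf2_scale m n hG, hc, mul_zero]
    have : z = ![z 0 * 1, z 1 * 1] := by funext i; fin_cases i <;> simp
    rw [this]; exact h6
  refine Lp.ext (h.trans (EventuallyEq.trans (ae_of_all _ h5) (Lp.coeFn_zero _ _ _).symm))

def lam (c a : ℕ × ℕ) : ℂ := nr a * nr a * (π ^ 2 * (a + c).1.factorial * (a + c).2.factorial)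

lemma inner_w (a c d : ℕ × ℕ) : ⟪v d, w (nr a) c (a + c)⟫_ℂ = if d = a then lam c a else 0 := by
  rw [inner_v d _ _ (w_ae _ c _)]
  have e1 : ∀ z, conj (mon d z) * (nr a * (conj (mon c z) * mon (a + c) z)) =
      nr a * (conj (mon (d + c) z) * mon (a + c) z) := fun z => by
    simp only [mon, Prod.fst_add, Prod.snd_add, map_mul, map_pow]; ring
  simp only [e1, integral_const_mul, mon_orth, add_left_inj]
  split_ifs with h
  · rw [h, lam]; ring
  · simp

lemma lam22 (a : ℕ × ℕ) :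
    lam (2, 2) a = (((a.1 + 1) * (a.1 + 2) * ((a.2 + 1) * (a.2 + 2)) : ℕ) : ℂ) := by
  simp only [lam, Prod.fst_add, Prod.snd_add, Nat.factorial_succ]
  push_cast
  linear_combination ((a.1 + 1) * (a.1 + 2) * ((a.2 + 1) * (a.2 + 2)) : ℂ) * nr_sq a

lemma lam20 (m : ℕ) : lam (2, 2) (m, 0) = 2 * lam (2, 0) (m, 0) := by
  simp [lam, Nat.factorial]; ring

lemma lam_summable : Summable fun a : ℕ × ℕ => ‖-(lam (2, 2) a)⁻¹‖ := by
  have h : Summable fun m : ℕ => (1 : ℝ) / ((m + 1 : ℕ) : ℝ) ^ 2 :=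
    (summable_nat_add_iff 1).2 (Real.summable_one_div_nat_pow.2 one_lt_two)
  refine .of_nonneg_of_le (fun _ => norm_nonneg _) (fun a => ?_)
    (h.mul_of_nonneg h (fun _ => by positivity) fun _ => by positivity)
  rw [norm_neg, norm_inv, lam22, Complex.norm_natCast, div_mul_div_comm, one_mul, one_div]
  push_cast
  rw [sq, sq]
  gcongr <;> norm_num

end

end Pool.Agent.Lib.H3Fock
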