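import Mathlib

set_option autoImplicit false

namespace Pool.Agent.Lib.H3Fock

open MeasureTheory

/-- The measure with density `exp (-|w|²)` with respect to Lebesgue measure on `ℂ`. -/
noncomputable def gam : Measure ℂ :=
  volume.withDensity fun w => ENNReal.ofReal (Real.exp (-‖w‖ ^ 2))

end Pool.Agent.Lib.H3Fock
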