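import Mathlib

set_option autoImplicit false

/-! Algebraic part: the Jacobi operator of a positive solution of the sextic string equation. -/

namespace Pool.Agent.Lib.H3Freud

open Finset
open scoped ComplexConjugate

noncomputable section

def S (a v : ℤ → ℝ) : ℤ → ℝ := fun n => a (n + 1) * v (n + 1) + a n * v (n - 1)

def w1 (τ t : ℝ) (a : ℤ → ℝ) (n : ℤ) : ℝ :=
  6 * (a (n - 2) ^ 2 * a (n - 1) ^ 2 + (a (n - 1) ^ 2) ^ 2 + 2 * a (n - 1) ^ 2 * a n ^ 2
    + a (n - 1) ^ 2 * a (n + 1) ^ 2 + (a n ^ 2) ^ 2 + 2 * a n ^ 2 * a (n + 1) ^ 2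
    + (a (n + 1) ^ 2) ^ 2 + a (n + 1) ^ 2 * a (n + 2) ^ 2)
  - 4 * τ * (a (n - 1) ^ 2 + a n ^ 2 + a (n + 1) ^ 2) - 2 * t

def L (τ t : ℝ) (a v : ℤ → ℝ) : ℤ → ℝ := fun k =>
  a (k + 1) * w1 τ t a (k + 1) * v (k + 1)
  + a (k + 1) * a (k + 2) * a (k + 3) * (6 * (a k ^ 2 + a (k + 1) ^ 2 + a (k + 2) ^ 2
      + a (k + 3) ^ 2 + a (k + 4) ^ 2) - 4 * τ) * v (k + 3)
  + 6 * a (k + 1) * a (k + 2) * a (k + 3) * a (k + 4) * a (k + 5) * v (k + 5)

lemma comm (τ t : ℝ) (a v : ℤ → ℝ) (k : ℤ) :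
    L τ t a (S a v) k = S a (L τ t a v) k
      + (a (k + 1) ^ 2 * w1 τ t a (k + 1) - a k ^ 2 * w1 τ t a k) * v k := by
  simp only [L, S, w1, sub_eq_add_neg, add_assoc, Int.reduceAdd, Int.reduceNeg, add_zero,
    neg_add_cancel, add_neg_cancel]
  ring

lemma L_zero (τ t : ℝ) (a v : ℤ → ℝ) (h0 : a 0 = 0) :
    L τ t a v 0 = 6 * (S a)^[5] v 0 - 4 * τ * (S a)^[3] v 0 - 2 * t * S a v 0 := by
  simp only [L, S, w1, Function.iterate_succ, Function.iterate_zero, Function.comp, id,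
    Int.reduceAdd, Int.reduceNeg, Int.reduceSub, zero_add, zero_sub, sub_self, h0, neg_add_cancel]
  ring

def u (a : ℤ → ℝ) (k : ℕ) : ℤ → ℝ := (S a)^[k] fun n => if n = 0 then 1 else 0

lemma u_succ (a : ℤ → ℝ) (k : ℕ) : u a (k + 1) = S a (u a k) := Function.iterate_succ_apply' _ _ _

lemma u_add (a : ℤ → ℝ) (j k : ℕ) : u a (k + j) = (S a)^[j] (u a k) := by
  rw [u, add_comm, Function.iterate_add_apply]; rfl

variable {a : ℤ → ℝ} (ha : ∀ n ≤ 0, a n = 0)
include ha

lemma u_neg (k : ℕ) (n : ℤ) (hn : n < 0) : u a k n = 0 := by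
  cases k with
  | zero => simp [u, hn.ne]
  | succ k => rw [u_succ, S, ha _ (by omega), ha _ hn.le]; ring

omit ha in
lemma u_big (k : ℕ) (n : ℤ) (hn : (k : ℤ) < n) : u a k n = 0 := by
  induction k generalizing n with
  | zero => simp [u, (show n ≠ 0 by omega)]
  | succ k ih => rw [u_succ, S, ih _ (by omega), ih _ (by omega)]; ring

lemma L_u (τ t : ℝ) (hE : ∀ n : ℤ, 0 ≤ n → a n ^ 2 * w1 τ t a n = n) (k : ℕ) :
    L τ t a (u a k) = fun n => k * u a (k - 1) n := by
  induction k with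
  | zero =>
    funext n
    rcases lt_or_ge n 0 with hn | hn
    · simp [L, ha (n + 1) (by omega)]
    · simp [L, u, (show n + 1 ≠ 0 by omega), (show n + 3 ≠ 0 by omega), (show n + 5 ≠ 0 by omega)]
  | succ k ih =>
    funext n
    rw [u_succ, comm, ih]
    have h1 : S a (fun n => k * u a (k - 1) n) n = k * u a k n := by
      cases k with
      | zero => simp [S]
      | succ k => rw [u_succ a k, Nat.add_sub_cancel]; simp only [S]; ring
    rw [h1, Nat.add_sub_cancel]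
    rcases lt_or_ge n 0 with hn | hn
    · simp [u_neg ha k n hn]
    · rw [hE _ hn, hE _ (by omega)]; push_cast; ring

lemma pearson (τ t : ℝ) (hE : ∀ n : ℤ, 0 ≤ n → a n ^ 2 * w1 τ t a n = n) (k : ℕ) :
    6 * u a (k + 5) 0 - 4 * τ * u a (k + 3) 0 - 2 * t * u a (k + 1) 0 = k * u a (k - 1) 0 := by
  have := congrFun (L_u ha τ t hE k) 0
  rw [L_zero _ _ _ _ (ha 0 le_rfl)] at this
  rw [u_add, u_add, u_succ, this]

lemma sym (v w : ℤ → ℝ) (M : ℕ) :
    ∑ n ∈ range M, S a v n * w n = ∑ n ∈ range M, v n * S a w n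
      + a M * (v M * w (M - 1) - v (M - 1) * w M) := by
  induction M with
  | zero => simp [ha 0 le_rfl]
  | succ M ih =>
    rw [sum_range_succ, sum_range_succ, ih]
    simp only [S]; push_cast; simp only [add_sub_cancel_right]; ring

lemma inner (j l M : ℕ) (h : j + l < M) :
    ∑ n ∈ range M, u a j n * u a l n = u a (j + l) 0 := by
  induction j generalizing l with
  | zero =>
    rw [sum_eq_single 0]
    · simp [u]
    · intro b _ hb; simp [u, hb]
    · intro h; simp at h; omega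
  | succ j ih =>
    rw [u_succ, sym ha, u_big j M (by omega), u_big l M (by omega), ← u_succ,
      ih (l + 1) (by omega)]
    simp [add_assoc, add_comm 1 l]

lemma growth (K : ℝ) (hK : 0 ≤ K) (h0 : ∀ n, 0 ≤ a n) (hb : ∀ n : ℕ, a n ≤ K * √n) (k : ℕ) (n : ℤ) :
    |u a k n| ≤ (2 * K) ^ k * √(k.factorial) := by
  induction k generalizing n with
  | zero => by_cases h : n = 0 <;> simp [u, h]
  | succ k ih =>
    have key : ∀ m m' : ℤ, m ≤ m' + 1 → |a m * u a k m'| ≤
        K * √(k + 1 : ℕ) * ((2 * K) ^ k * √(k.factorial)) := by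
      intro m m' hm
      rcases lt_or_ge (k : ℤ) m' with h | h
      · rw [u_big k m' h]; simp only [mul_zero, abs_zero]; positivity
      rcases le_or_gt m 0 with h' | h'
      · rw [ha m h']; simp only [zero_mul, abs_zero]; positivity
      rw [abs_mul, abs_of_nonneg (h0 m)]
      obtain ⟨p, rfl⟩ := Int.eq_ofNat_of_zero_le h'.le
      refine mul_le_mul ((hb p).trans ?_) (ih _) (abs_nonneg _) (by positivity)
      gcongr
      omega
    rw [u_succ, S]
    refine (abs_add_le _ _).trans ((add_le_add (key _ _ (by omega)) (key _ _ (by omega))).trans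
      (le_of_eq ?_))
    rw [Nat.factorial_succ, Nat.cast_mul, Real.sqrt_mul (Nat.cast_nonneg _)]
    ring

lemma posdef (N j : ℕ) (c : ℕ → ℂ) :
    2 * ‖∑ k ∈ range N, c k * u a (k + j) 0‖ ≤ u a (j + j) 0
      + (∑ k ∈ range N, ∑ l ∈ range N, c k * conj (c l) * u a (k + l) 0).re := by
  set M := 2 * N + 2 * j + 1
  set w : ℕ → ℂ := fun n => ∑ k ∈ range N, c k * u a k n
  have h1 : ∑ k ∈ range N, c k * u a (k + j) 0 = ∑ n ∈ range M, w n * u a j n := by
    simp only [w, sum_mul]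
    rw [sum_comm]
    refine sum_congr rfl fun k hk => ?_
    rw [← inner ha k j M (by simp at hk; omega)]
    push_cast
    rw [mul_sum]
    exact sum_congr rfl fun n _ => by ring
  have h2 : ∑ k ∈ range N, ∑ l ∈ range N, c k * conj (c l) * u a (k + l) 0
      = ∑ n ∈ range M, w n * conj (w n) := by
    simp only [w, map_sum, sum_mul_sum]
    rw [sum_comm (s := range M)]
    refine sum_congr rfl fun k hk => ?_
    rw [sum_comm (s := range M)]
    refine sum_congr rfl fun l hl => ?_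
    rw [← inner ha k l M (by simp at hk hl; omega)]
    push_cast
    rw [mul_sum]
    exact sum_congr rfl fun n _ => by simp only [map_mul, Complex.conj_ofReal]; ring
  rw [h1, h2, ← inner ha j j M (by omega), Complex.re_sum, ← sum_add_distrib]
  refine (mul_le_mul_of_nonneg_left (norm_sum_le _ _) zero_le_two).trans ?_
  rw [mul_sum]
  refine sum_le_sum fun n _ => ?_
  rw [Complex.mul_conj, Complex.ofReal_re, Complex.normSq_eq_norm_sq, norm_mul, Complex.norm_real,
    Real.norm_eq_abs, ← abs_mul_abs_self (u a j n)]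
  nlinarith [sq_nonneg (‖w n‖ - |u a j n|)]

omit ha in
lemma u_zero : u a 0 0 = 1 := by simp [u]

lemma u_two : u a 2 0 = a 1 ^ 2 := by
  simp [u, S, ha 0 le_rfl]; ring

lemma u_four : u a 4 0 = a 1 ^ 2 * (a 1 ^ 2 + a 2 ^ 2) := by
  simp [u, S, ha 0 le_rfl]; ring

end

/-- Moment data attached to a positive solution. -/
structure Mom (τ t : ℝ) (m : ℕ → ℝ) : Prop where
  zero : m 0 = 1
  pearson : ∀ k, 6 * m (k + 5) - 4 * τ * m (k + 3) - 2 * t * m (k + 1) = k * m (k - 1)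
  growth : ∃ C : ℝ, 0 ≤ C ∧ ∀ k, |m k| ≤ C ^ k * √(k.factorial)
  pos : ∀ (N j : ℕ) (c : ℕ → ℂ), 2 * ‖∑ k ∈ range N, c k * m (k + j)‖ ≤ m (j + j)
      + (∑ k ∈ range N, ∑ l ∈ range N, c k * conj (c l) * m (k + l)).re

theorem exists_mom (τ t : ℝ) (b : ℕ → ℝ) (h0 : b 0 = 0) (hpos : ∀ n, 1 ≤ n → 0 < b n)
    (hE : ∀ n, 1 ≤ n → 6 * b n * (b (n - 2) * b (n - 1) + b (n - 1) ^ 2 + 2 * b (n - 1) * b n
      + b (n - 1) * b (n + 1) + b n ^ 2 + 2 * b n * b (n + 1) + b (n + 1) ^ 2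
      + b (n + 1) * b (n + 2)) - 4 * τ * b n * (b (n - 1) + b n + b (n + 1)) - 2 * t * b n = n) :
    ∃ m : ℕ → ℝ, Mom τ t m ∧ m 2 = b 1 ∧ m 4 = b 1 * (b 1 + b 2) := by
  have hnn : ∀ n, 0 ≤ b n := fun n => by
    rcases Nat.eq_zero_or_pos n with rfl | h
    · exact h0.ge
    · exact (hpos n h).le
  set a : ℤ → ℝ := fun n => √(b n.toNat) with hadef
  have ha : ∀ n ≤ 0, a n = 0 := fun n hn => by simp [a, Int.toNat_of_nonpos hn, h0]
  have hsq : ∀ n : ℤ, a n ^ 2 = b n.toNat := fun n => Real.sq_sqrt (hnn _)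
  have hE' : ∀ n : ℤ, 0 ≤ n → a n ^ 2 * w1 τ t a n = n := by
    intro n hn
    obtain ⟨p, rfl⟩ := Int.eq_ofNat_of_zero_le hn
    rcases Nat.eq_zero_or_pos p with rfl | hp
    · simp [ha 0 le_rfl]
    have e1 : ((p : ℤ) - 2).toNat = p - 2 := by omega
    have e2 : ((p : ℤ) - 1).toNat = p - 1 := by omega
    have e3 : ((p : ℤ) + 1).toNat = p + 1 := by omega
    have e4 : ((p : ℤ) + 2).toNat = p + 2 := by omega
    simp only [w1, hsq, e1, e2, e3, e4, Int.toNat_natCast, Int.cast_natCast]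
    rw [← hE p hp]; ring
  set K := 1 + |τ| + |t| with hK
  have hK1 : 1 ≤ K := by have := abs_nonneg τ; have := abs_nonneg t; linarith
  have hb : ∀ n : ℕ, b n ≤ K * n := by
    intro n
    rcases Nat.eq_zero_or_pos n with rfl | hn
    · simp [h0]
    have hn' : (1 : ℝ) ≤ n := by exact_mod_cast hn
    rcases le_or_gt (b n) K with h | h
    · nlinarith
    have hE1 := hE n hn
    have p1 := hnn (n - 2); have p2 := hnn (n - 1); have p3 := hnn n; have p4 := hnn (n + 1)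
    have p5 := hnn (n + 2)
    set s := b (n - 1) + b n + b (n + 1) with hs
    have hsK : K ≤ s := by linarith
    have h1 : 4 * s ^ 2 ≤ 6 * (b (n - 2) * b (n - 1) + b (n - 1) ^ 2 + 2 * b (n - 1) * b n
      + b (n - 1) * b (n + 1) + b n ^ 2 + 2 * b n * b (n + 1) + b (n + 1) ^ 2
      + b (n + 1) * b (n + 2)) := by
      rw [hs]
      nlinarith [mul_nonneg p1 p2, mul_nonneg p2 p3, mul_nonneg p3 p4, mul_nonneg p4 p5,
        sq_nonneg (b (n - 1) - b (n + 1)), sq_nonneg (b n), mul_nonneg p2 p4]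
    have h2 : 1 + 4 * τ * s + 2 * t ≤ 4 * s ^ 2 := by
      have := le_abs_self τ; have := le_abs_self t; have := abs_nonneg τ; have := abs_nonneg t
      have h3 : K * s ≤ s * s := mul_le_mul_of_nonneg_right hsK (by linarith)
      have h4 : τ * s ≤ |τ| * s := mul_le_mul_of_nonneg_right ‹τ ≤ |τ|› (by linarith)
      have h5 : (1 + |t|) * 1 ≤ (1 + |t|) * s := mul_le_mul_of_nonneg_left (by linarith) (by linarith)
      rw [hK] at h3
      nlinarith
    have h3 : b n * (1 + 4 * τ * s + 2 * t) ≤ b n * _ :=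
      mul_le_mul_of_nonneg_left (h2.trans h1) p3
    have : b n ≤ n := by nlinarith
    nlinarith
  refine ⟨fun k => u a k 0, ⟨u_zero, pearson ha τ t hE', ⟨2 * √K, by positivity, fun k =>
    growth ha _ (Real.sqrt_nonneg _) (fun n => Real.sqrt_nonneg _) (fun n => ?_) k 0⟩,
    posdef ha⟩, ?_, ?_⟩
  · rw [← Real.sqrt_mul (by linarith)]
    exact Real.sqrt_le_sqrt (by simpa using hb n)
  · simp only [u_two ha, hsq]; rfl
  · simp only [u_four ha, hsq]; rfl

end Pool.Agent.Lib.H3Freud
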