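import Pool.Agent.Lib.helper3.FreudA

set_option autoImplicit false

/-! The characteristic function of a positive moment functional of controlled growth. -/

namespace Pool.Agent.Lib.H3Freud

open Finset Filter Topology Complex
open scoped ComplexConjugate Real

noncomputable section

lemma sqrt_summable (R : ℝ) : Summable fun m : ℕ => R ^ m / √(m.factorial) := by
  refine Summable.of_norm_bounded (g := fun m => ((2 * R ^ 2) ^ m / m.factorial + (1 / 2) ^ m) / 2)
    (((Real.summable_pow_div_factorial _).add summable_geometric_two).div_const _) fun m => ?_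
  have h1 : (R ^ m / √(m.factorial)) ^ 2 = (2 * R ^ 2) ^ m / m.factorial * (1 / 2) ^ m := by
    rw [div_pow, Real.sq_sqrt (Nat.cast_nonneg _), mul_pow, ← pow_mul, ← pow_mul, mul_comm m 2,
      one_div, inv_pow]
    field_simp
  have h2 : (0 : ℝ) ≤ (2 * R ^ 2) ^ m / m.factorial := by positivity
  have h3 : (0 : ℝ) ≤ (1 / 2) ^ m := by positivity
  rw [Real.norm_eq_abs]
  refine abs_le_of_sq_le_sq' ?_ (by positivity) |> fun h => abs_le.2 h
  rw [h1]
  nlinarith [sq_nonneg ((2 * R ^ 2) ^ m / m.factorial - (1 / 2) ^ m : ℝ)]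

def phi (m : ℕ → ℝ) (j : ℕ) (z : ℂ) : ℂ := ∑' k, z ^ k / k.factorial * m (k + j)

variable {τ t : ℝ} {m : ℕ → ℝ} (h : Mom τ t m)
include h

lemma split : ∃ D : ℝ, 0 ≤ D ∧ ∀ k l, |m (k + l)| ≤
    D ^ k * √(k.factorial) * (D ^ l * √(l.factorial)) := by
  obtain ⟨C, hC, hg⟩ := h.growth
  refine ⟨2 * C, by positivity, fun k l => (hg _).trans ?_⟩
  have h1 : (k + l).factorial ≤ (2 ^ (k + l)) ^ 2 * (k.factorial * l.factorial) := by
    rw [← Nat.add_choose_mul_factorial_mul_factorial k l, mul_assoc]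
    refine Nat.mul_le_mul_right _ ((Nat.choose_le_two_pow _ _).trans ?_)
    exact Nat.le_self_pow two_ne_zero _
  have h2 : √((k + l).factorial) ≤ 2 ^ (k + l) * (√(k.factorial) * √(l.factorial)) := by
    rw [← Real.sqrt_mul (Nat.cast_nonneg _), ← Real.sqrt_sq (show (0 : ℝ) ≤ 2 ^ (k + l) by positivity),
      ← Real.sqrt_mul (by positivity)]
    exact Real.sqrt_le_sqrt (by exact_mod_cast h1)
  calc _ ≤ C ^ (k + l) * (2 ^ (k + l) * (√(k.factorial) * √(l.factorial))) := by gcongr
    _ = _ := by rw [mul_pow, mul_pow, pow_add, pow_add]; ring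

omit h in
lemma div_sqrt (x : ℝ) (k : ℕ) : x / k.factorial * √(k.factorial) = x / √(k.factorial) := by
  have : (0 : ℝ) < k.factorial := by exact_mod_cast k.factorial_pos
  rw [div_mul_eq_mul_div, div_eq_div_iff this.ne' (Real.sqrt_pos.2 this).ne', mul_assoc,
    Real.mul_self_sqrt this.le]

lemma term_bound (j : ℕ) (R : ℝ) : ∃ g : ℕ → ℝ, Summable g ∧
    ∀ z : ℂ, ‖z‖ ≤ R → ∀ k : ℕ, ‖z ^ k / k.factorial * m (k + j)‖ ≤ g k := by
  obtain ⟨D, hD, hs⟩ := split h
  refine ⟨fun k => (R * D) ^ k / √(k.factorial) * (D ^ j * √(j.factorial)),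
    (sqrt_summable _).mul_right _, fun z hz k => ?_⟩
  beta_reduce
  rw [norm_mul, norm_div, norm_pow, Complex.norm_natCast, Complex.norm_real, Real.norm_eq_abs,
    ← div_sqrt, mul_pow]
  calc _ ≤ R ^ k / k.factorial * (D ^ k * √(k.factorial) * (D ^ j * √(j.factorial))) := by
        have := (norm_nonneg z).trans hz
        gcongr
        exact hs k j
    _ = _ := by ring

lemma phi_summable (j : ℕ) (z : ℂ) : Summable fun k : ℕ => z ^ k / k.factorial * m (k + j) := by
  obtain ⟨g, hg, hb⟩ := term_bound h j ‖z‖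
  exact .of_norm_bounded hg (hb z le_rfl)

lemma phi_deriv (j : ℕ) (z : ℂ) : HasDerivAt (phi m j) (phi m (j + 1) z) z := by
  obtain ⟨g, hg, hb⟩ := term_bound h (j + 1) (‖z‖ + 1)
  have key := hasDerivAt_tsum_of_isPreconnected (𝕜 := ℂ) hg (t := Metric.ball 0 (‖z‖ + 1))
    (g := fun k y => y ^ (k + 1) / (k + 1).factorial * m (k + 1 + j))
    (g' := fun k y => y ^ k / k.factorial * m (k + (j + 1))) (y₀ := z) (y := z)
    Metric.isOpen_ball (convex_ball _ _).isPreconnected (fun k y _ => ?_)
    (fun k y hy => hb y (mem_ball_zero_iff.1 hy).le k) (by simp)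
    ((summable_nat_add_iff 1).2 (phi_summable h j z)) (by simp)
  · refine (key.const_add (m j : ℂ)).congr_of_eventuallyEq (.of_forall fun y => ?_)
    simp only [phi]
    rw [(phi_summable h j y).tsum_eq_zero_add]
    simp
  · refine (((hasDerivAt_pow (k + 1) y).div_const _).mul_const _).congr_deriv ?_
    have : ((k + 1 : ℕ) : ℂ) ≠ 0 := by exact_mod_cast k.succ_ne_zero
    have : (k.factorial : ℂ) ≠ 0 := by exact_mod_cast k.factorial_ne_zero
    rw [Nat.factorial_succ, Nat.add_sub_cancel, show k + 1 + j = k + (j + 1) by ring, Nat.cast_mul]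
    field_simp

omit h in
lemma phi_zero (j : ℕ) : phi m j 0 = m j := by
  rw [phi, tsum_eq_single 0]
  · simp
  · intro k hk; simp [hk]

lemma phi_pearson (z : ℂ) :
    6 * phi m 5 z - 4 * τ * phi m 3 z - 2 * t * phi m 1 z = z * phi m 0 z := by
  have h1 := (((phi_summable h 5 z).hasSum.mul_left 6).sub
    ((phi_summable h 3 z).hasSum.mul_left (4 * (τ : ℂ)))).sub
    ((phi_summable h 1 z).hasSum.mul_left (2 * (t : ℂ)))
  have h2 := (phi_summable h 0 z).hasSum.mul_left z
  refine h1.unique ?_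
  rw [← hasSum_nat_add_iff' 1]
  have hp : ∀ k : ℕ, 6 * (z ^ k / k.factorial * m (k + 5)) - 4 * τ * (z ^ k / k.factorial * m (k + 3))
      - 2 * t * (z ^ k / k.factorial * m (k + 1)) = z ^ k / k.factorial * (k * m (k - 1)) := by
    intro k
    have := congrArg (fun x : ℝ => (x : ℂ)) (h.pearson k)
    push_cast at this
    rw [← this]; ring
  simp only [hp, range_one, sum_singleton, Nat.cast_zero, zero_mul, mul_zero, sub_zero,
    Nat.add_sub_cancel]
  have e : (fun k : ℕ => z ^ (k + 1) / ((k + 1).factorial : ℂ) * (((k + 1 : ℕ) : ℂ) * m k))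
      = fun k => z * (z ^ k / k.factorial * m (k + 0)) := ?_
  · rw [e]; exact h2
  funext k
  have : ((k + 1 : ℕ) : ℂ) ≠ 0 := by exact_mod_cast k.succ_ne_zero
  have : (k.factorial : ℂ) ≠ 0 := by exact_mod_cast k.factorial_ne_zero
  rw [Nat.factorial_succ, Nat.cast_mul, add_zero]
  field_simp
  ring

lemma phi_bound (j : ℕ) (z : ℂ) (hz : conj z = -z) : 2 * ‖phi m j z‖ ≤ m (j + j) + 1 := by
  obtain ⟨D, hD, hs⟩ := split h
  set f : ℕ × ℕ → ℂ := fun p => z ^ p.1 / p.1.factorial * conj (z ^ p.2 / p.2.factorial)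
    * m (p.1 + p.2) with hf
  have hfs : Summable f := by
    refine .of_norm_bounded ((sqrt_summable (‖z‖ * D)).mul_of_nonneg (sqrt_summable (‖z‖ * D))
      (fun _ => by positivity) fun _ => by positivity) fun p => ?_
    simp only [hf, norm_mul, norm_div, norm_pow, Complex.norm_natCast, Complex.norm_real,
      Real.norm_eq_abs, Complex.norm_conj, ← div_sqrt, mul_pow]
    calc _ ≤ ‖z‖ ^ p.1 / p.1.factorial * (‖z‖ ^ p.2 / p.2.factorial) *
          (D ^ p.1 * √(p.1.factorial) * (D ^ p.2 * √(p.2.factorial))) := by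
          gcongr
          exact hs _ _
      _ = _ := by ring
  have hsum : ∑' p, f p = 1 := by
    have hs2 : Summable fun c => f (Finset.HasAntidiagonal.sigmaAntidiagonalEquivProd c) :=
      Finset.HasAntidiagonal.sigmaAntidiagonalEquivProd.summable_iff.2 hfs
    rw [← Finset.HasAntidiagonal.sigmaAntidiagonalEquivProd.tsum_eq f,
      Summable.tsum_sigma' (fun n => (hasSum_fintype _).summable) hs2]
    have : ∀ n : ℕ, ∑' c : antidiagonal n, f (Finset.HasAntidiagonal.sigmaAntidiagonalEquivProd ⟨n, c⟩)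
        = (z + -z) ^ n / n.factorial * m n := by
      intro n
      rw [tsum_fintype]
      change ∑ c : antidiagonal n, f c.1 = _
      rw [Finset.sum_coe_sort (antidiagonal n) f, (Commute.all z (-z)).add_pow', sum_div, sum_mul]
      refine sum_congr rfl fun p hp => ?_
      rw [HasAntidiagonal.mem_antidiagonal] at hp
      subst hp
      simp only [hf, map_div₀, map_pow, hz, map_natCast, nsmul_eq_mul]
      have : (p.1.factorial : ℂ) ≠ 0 := by exact_mod_cast p.1.factorial_ne_zero
      have : (p.2.factorial : ℂ) ≠ 0 := by exact_mod_cast p.2.factorial_ne_zero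
      have : ((p.1 + p.2).factorial : ℂ) ≠ 0 := by exact_mod_cast (p.1 + p.2).factorial_ne_zero
      rw [Nat.cast_add_choose ℂ]
      field_simp
    simp only [this]
    rw [tsum_eq_single 0]
    · simp [h.zero]
    · intro k hk; simp [hk]
  have hT : Tendsto (fun N : ℕ => range N ×ˢ range N) atTop atTop := by
    refine tendsto_atTop_finset_of_monotone (fun a b hab => product_subset_product
      (range_mono hab) (range_mono hab)) fun p => ⟨p.1 + p.2 + 1, ?_⟩
    simp only [mem_product, mem_range]; omega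
  have h1 : Tendsto (fun N : ℕ => ∑ p ∈ range N ×ˢ range N, f p) atTop (𝓝 1) := by
    have h0 : Tendsto (fun s : Finset (ℕ × ℕ) => ∑ p ∈ s, f p) atTop (𝓝 (∑' p, f p)) :=
      hfs.hasSum
    rw [← hsum]; exact h0.comp hT
  have h2 := (phi_summable h j z).hasSum.tendsto_sum_nat
  refine le_of_tendsto_of_tendsto' (h2.norm.const_mul 2)
    (((Complex.continuous_re.tendsto _).comp h1).const_add (m (j + j))) fun N => ?_
  have := h.pos N j fun k => z ^ k / k.factorial
  simpa only [Function.comp, sum_product, hf] using this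

end

end Pool.Agent.Lib.H3Freud
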