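import Pool.Agent.Lib.helper3.FreudB

set_option autoImplicit false

/-! The distribution attached to a bounded solution of the Pearson equation on the Fourier side. -/

namespace Pool.Agent.Lib.H3Freud

open Filter Topology Complex MeasureTheory Set
open scoped ComplexConjugate Real FourierTransform ContDiff

noncomputable section

def Test (g : ℝ → ℂ) : Prop := ContDiff ℝ ∞ g ∧ HasCompactSupport g

lemma Test.int {g : ℝ → ℂ} (hg : Test g) : Integrable g :=
  hg.1.continuous.integrable_of_hasCompactSupport hg.2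

lemma Test.fint {g : ℝ → ℂ} (hg : Test g) : Integrable (𝓕 g) :=
  (𝓕 (hg.2.toSchwartzMap hg.1)).integrable

lemma Test.mul {f g : ℝ → ℂ} (hf : ContDiff ℝ ∞ f) (hg : Test g) : Test fun x => f x * g x :=
  ⟨hf.mul hg.1, hg.2.mul_left⟩

lemma Test.add {f g : ℝ → ℂ} (hf : Test f) (hg : Test g) : Test fun x => f x + g x :=
  ⟨hf.1.add hg.1, hf.2.add hg.2⟩

lemma Test.deriv {g : ℝ → ℂ} (hg : Test g) : Test (deriv g) :=
  ⟨(contDiff_infty_iff_deriv.1 hg.1).2, hg.2.deriv⟩

lemma cd_ofReal : ContDiff ℝ ∞ fun x : ℝ => (x : ℂ) := Complex.ofRealCLM.contDiff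

lemma four_smul (c : ℂ) (g : ℝ → ℂ) (w : ℝ) : 𝓕 (fun x => c * g x) w = c * 𝓕 g w := by
  simp only [Real.fourier_real_eq_integral_exp_smul, smul_eq_mul, ← integral_const_mul]
  exact integral_congr_ae (.of_forall fun x => by ring)

lemma four_add {f g : ℝ → ℂ} (hf : Test f) (hg : Test g) (w : ℝ) :
    𝓕 (fun x => f x + g x) w = 𝓕 f w + 𝓕 g w := by
  have he : ContDiff ℝ ∞ fun v : ℝ => Complex.exp (↑(-2 * π * v * w) * Complex.I) :=
    ((cd_ofReal.comp (by fun_prop)).mul contDiff_const).cexp
  simp only [Real.fourier_real_eq_integral_exp_smul, smul_eq_mul, mul_add]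
  exact integral_add (Test.mul he hf).int (Test.mul he hg).int

lemma four_scale (g : ℝ → ℂ) (e : ℝ) (he : 0 < e) (w : ℝ) :
    𝓕 (fun x => g (e * x)) (e * w) = (e⁻¹ : ℝ) * 𝓕 g w := by
  simp only [Real.fourier_real_eq_integral_exp_smul, smul_eq_mul]
  have := Measure.integral_comp_mul_left
    (fun v : ℝ => Complex.exp (↑(-2 * π * v * w) * Complex.I) * g v) e
  rw [abs_of_pos (inv_pos.2 he), Complex.real_smul] at this
  rw [← this]
  exact integral_congr_ae (.of_forall fun x => by ring_nf)

def psi (m : ℕ → ℝ) (j : ℕ) (w : ℝ) : ℂ := phi m j (2 * π * I * w)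

def Lam (m : ℕ → ℝ) (j : ℕ) (g : ℝ → ℂ) : ℂ := ∫ w, 𝓕 g w * psi m j w

variable {τ t : ℝ} {m : ℕ → ℝ} (h : Mom τ t m)
include h

lemma psi_deriv (j : ℕ) (w : ℝ) : HasDerivAt (psi m j) (2 * π * I * psi m (j + 1) w) w := by
  have h1 : HasDerivAt (fun z : ℂ => phi m j (2 * π * I * z))
      (phi m (j + 1) (2 * π * I * w) * (2 * π * I * 1)) (w : ℂ) :=
    (phi_deriv h j _).comp (w : ℂ) ((hasDerivAt_id (w : ℂ)).const_mul _)
  exact h1.comp_ofReal.congr_deriv (by simp only [psi]; ring)

lemma psi_cont (j : ℕ) : Continuous (psi m j) :=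
  continuous_iff_continuousAt.2 fun w => (psi_deriv h j w).continuousAt

lemma psi_bound (j : ℕ) (w : ℝ) : ‖psi m j w‖ ≤ (m (j + j) + 1) / 2 := by
  have := phi_bound h j (2 * π * I * w) (by simp [map_mul, map_ofNat])
  simp only [psi]; linarith

lemma lam_int (j : ℕ) {F : ℝ → ℂ} (hF : Integrable F) : Integrable fun w => F w * psi m j w :=
  hF.mul_bdd (psi_cont h j).aestronglyMeasurable (.of_forall (psi_bound h j))

omit h in
lemma lam_smul (j : ℕ) (c : ℂ) (g : ℝ → ℂ) : Lam m j (fun x => c * g x) = c * Lam m j g := by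
  simp only [Lam, four_smul, mul_assoc, integral_const_mul]

lemma lam_add (j : ℕ) {f g : ℝ → ℂ} (hf : Test f) (hg : Test g) :
    Lam m j (fun x => f x + g x) = Lam m j f + Lam m j g := by
  simp only [Lam, four_add hf hg, add_mul]
  exact integral_add (lam_int h j hf.fint) (lam_int h j hg.fint)

lemma lam_x (j : ℕ) {g : ℝ → ℂ} (hg : Test g) :
    Lam m j (fun x => x * g x) = Lam m (j + 1) g := by
  have hx := Test.mul cd_ofReal hg
  have hd : ∀ w, HasDerivAt (𝓕 g) (-(2 * π * I) * 𝓕 (fun x : ℝ => x * g x) w) w := fun w => by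
    refine (Real.hasDerivAt_fourier hg.int (by simpa using hx.int) w).congr_deriv ?_
    rw [← four_smul]
    refine congrFun (congrArg _ (funext fun x => ?_)) w
    simp only [smul_eq_mul]; ring
  have i1 : Integrable fun w => 𝓕 g w * (2 * π * I * psi m (j + 1) w) := by
    refine ((lam_int h (j + 1) hg.fint).const_mul (2 * π * I)).congr (.of_forall fun w => ?_)
    simp only; ring
  have := integral_mul_deriv_eq_deriv_mul_of_integrable (fun w _ => hd w)
    (fun w _ => psi_deriv h j w) i1 (lam_int h j (hx.fint.const_mul _)) (lam_int h j hg.fint)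
  have hne : (2 * π * I : ℂ) ≠ 0 := by simp [Real.pi_ne_zero]
  apply mul_left_cancel₀ hne
  simp only [Lam, ← integral_const_mul]
  rw [← integral_neg] at this
  refine Eq.trans ?_ (this.symm.trans ?_) <;>
    exact integral_congr_ae (.of_forall fun w => by simp only; ring)

lemma lam_pow (k j : ℕ) {g : ℝ → ℂ} (hg : Test g) :
    Lam m j (fun x => x ^ k * g x) = Lam m (j + k) g := by
  induction k generalizing j with
  | zero => simp
  | succ k ih =>
    rw [show j + (k + 1) = j + 1 + k by ring, ← ih, ← lam_x h j (Test.mul (cd_ofReal.pow k) hg)]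
    congr 1; funext x; ring

lemma lam_deriv {g : ℝ → ℂ} (hg : Test g) :
    Lam m 0 (deriv g) = 6 * Lam m 5 g - 4 * τ * Lam m 3 g - 2 * t * Lam m 1 g := by
  have i (j : ℕ) (c : ℂ) : Integrable fun w => c * (𝓕 g w * psi m j w) :=
    (lam_int h j hg.fint).const_mul c
  have i2 : Integrable fun w => 6 * (𝓕 g w * psi m 5 w) - 4 * τ * (𝓕 g w * psi m 3 w) :=
    (i 5 6).sub (i 3 _)
  simp only [Lam, ← integral_const_mul]
  rw [← integral_sub (i 5 6) (i 3 _), ← integral_sub i2 (i 1 _),
    Real.fourier_deriv hg.int (hg.1.differentiable (by simp)) hg.deriv.int]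
  refine integral_congr_ae (.of_forall fun w => ?_)
  have := phi_pearson h (2 * π * I * w)
  simp only [psi, smul_eq_mul]
  linear_combination (-𝓕 g w) * this

omit h

def wt (τ t x : ℝ) : ℝ := Real.exp (-x ^ 6 + τ * x ^ 4 + t * x ^ 2)

lemma cd_wt : ContDiff ℝ ∞ fun x : ℝ => (wt τ t x : ℂ) :=
  cd_ofReal.comp (by unfold wt; fun_prop)

include h

lemma lam_vanish {f : ℝ → ℂ} (hf : Test f) (h0 : ∫ x, wt τ t x * f x = 0) : Lam m 0 f = 0 := by
  have hF := Test.mul (cd_wt (τ := τ) (t := t)) hf
  set F := fun x : ℝ => (wt τ t x : ℂ) * f x with hFd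
  obtain ⟨R, hR, hFR⟩ := hF.2.exists_pos_le_norm
  set G : ℝ → ℂ := fun x => ∫ y in (-R)..x, F y with hG
  have hGd : ∀ x, HasDerivAt G (F x) x := fun x =>
    (hF.1.continuous.integral_hasStrictDerivAt _ x).hasDerivAt
  have hGT : Test G := by
    refine ⟨contDiff_infty_iff_deriv.2 ⟨fun x => (hGd x).differentiableAt, ?_⟩,
      HasCompactSupport.intro (isCompact_Icc (a := -R) (b := R)) fun x hx => ?_⟩
    · rw [show deriv G = F from funext fun x => (hGd x).deriv]; exact hF.1
    · rcases le_or_gt x (-R) with hx1 | hx1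
      · rw [hG]
        refine (intervalIntegral.integral_congr (g := fun _ => 0) fun y hy => hFR y ?_).trans
          (by simp)
        rw [uIcc_of_ge hx1] at hy
        rw [Real.norm_eq_abs]
        exact le_abs.2 (.inr (by linarith [hy.2]))
      · have hx2 : R < x := by
          by_contra hc; exact hx ⟨hx1.le, not_lt.1 hc⟩
        rw [← h0]
        refine intervalIntegral.integral_eq_integral_of_support_subset fun y hy => ?_
        have : |y| < R := by
          by_contra hc; exact hy (hFR y (not_lt.1 hc))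
        rw [abs_lt] at this
        exact ⟨this.1, by linarith [this.2]⟩
  set E : ℝ → ℂ := fun x => Complex.exp (x ^ 6 - τ * x ^ 4 - t * x ^ 2) with hE
  have hEc : ContDiff ℝ ∞ E :=
    (((cd_ofReal.pow 6).sub (contDiff_const.mul (cd_ofReal.pow 4))).sub
      (contDiff_const.mul (cd_ofReal.pow 2))).cexp
  have hEd : ∀ x : ℝ, HasDerivAt E (E x * (6 * x ^ 5 - 4 * τ * x ^ 3 - 2 * t * x)) x := fun x => by
    have : HasDerivAt (fun z : ℂ => Complex.exp (z ^ 6 - τ * z ^ 4 - t * z ^ 2)) _ (x : ℂ) :=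
      (((hasDerivAt_pow 6 (x : ℂ)).sub ((hasDerivAt_pow 4 (x : ℂ)).const_mul (τ : ℂ))).sub
        ((hasDerivAt_pow 2 (x : ℂ)).const_mul (t : ℂ))).cexp
    exact this.comp_ofReal.congr_deriv (by simp only [hE, Pi.sub_apply]; push_cast; ring)
  have hEw : ∀ x : ℝ, E x * wt τ t x = 1 := fun x => by
    simp only [hE, wt]
    push_cast
    rw [← Complex.exp_add, ← Complex.exp_zero]
    congr 1; ring
  have hg := Test.mul hEc hGT
  set g := fun x => E x * G x with hgd
  have T (c : ℂ) (k : ℕ) : Test fun x => c * (x ^ k * g x) :=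
    Test.mul contDiff_const (Test.mul (cd_ofReal.pow k) hg)
  have hdg : deriv g = fun x => f x + (6 * (x ^ 5 * g x) + (-(4 * τ) * (x ^ 3 * g x)
      + -(2 * t) * (x ^ 1 * g x))) := by
    funext x
    rw [((hEd x).fun_mul (hGd x)).deriv]
    simp only [hFd, hgd]
    linear_combination (f x) * hEw x
  have := lam_deriv h hg
  rw [hdg, lam_add h 0 hf ((T _ _).add ((T _ _).add (T _ _))),
    lam_add h 0 (T _ _) ((T _ _).add (T _ _)), lam_add h 0 (T _ _) (T _ _), lam_smul, lam_smul,
    lam_smul, lam_pow h _ _ hg, lam_pow h _ _ hg, lam_pow h _ _ hg] at this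
  linear_combination this

omit h

lemma wt_int (k : ℕ) : Integrable fun x : ℝ => x ^ k * wt τ t x := by
  set A := |τ| + |t| + 1 with hA
  have h1 : Integrable fun x : ℝ => x ^ k * Real.exp (-1 * x ^ 2) := by
    simpa only [Real.rpow_natCast] using integrable_rpow_mul_exp_neg_mul_sq (b := 1) one_pos
      (s := k) (by have : (0 : ℝ) ≤ k := k.cast_nonneg; linarith)
  refine (h1.norm.const_mul (Real.exp (A ^ 3))).mono' (by unfold wt; fun_prop)
    (.of_forall fun x => ?_)
  rw [norm_mul, norm_mul, Real.norm_of_nonneg (Real.exp_pos _).le, wt,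
    Real.norm_of_nonneg (Real.exp_pos _).le, mul_left_comm, ← Real.exp_add]
  refine mul_le_mul_of_nonneg_left (Real.exp_le_exp.2 ?_) (norm_nonneg _)
  have := le_abs_self τ; have := le_abs_self t; have := abs_nonneg τ; have := abs_nonneg t
  have hy : 0 ≤ x ^ 2 := sq_nonneg x
  rw [show x ^ 6 = (x ^ 2) ^ 3 by ring, show x ^ 4 = (x ^ 2) ^ 2 by ring]
  generalize x ^ 2 = y at hy ⊢
  have e1 : τ * y ^ 2 ≤ |τ| * y ^ 2 := by gcongr
  have e2 : t * y ≤ |t| * y := by gcongr
  have hA1 : 1 ≤ A := by linarith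
  rcases le_total y A with hyA | hyA
  · have e3 : y ^ 2 ≤ A ^ 2 := by gcongr
    have e4 : y ≤ A ^ 2 := by nlinarith
    have e5 : |τ| * y ^ 2 ≤ |τ| * A ^ 2 := by gcongr
    have e6 : (|t| + 1) * y ≤ (|t| + 1) * A ^ 2 := by gcongr
    have e7 : A ^ 3 = |τ| * A ^ 2 + (|t| + 1) * A ^ 2 := by rw [pow_succ' A 2]; nth_rw 1 [hA]; ring
    have : 0 ≤ y ^ 3 := by positivity
    nlinarith
  · have e3 : A * y ^ 2 ≤ y * y ^ 2 := by gcongr
    have e4 : y ≤ y ^ 2 := by nlinarith
    have e5 : (|t| + 1) * y ≤ (|t| + 1) * y ^ 2 := by gcongr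
    have : 0 ≤ A ^ 3 := by positivity
    rw [hA] at e3
    nlinarith

include h

theorem mom_eq (k : ℕ) : m k * ∫ x, wt τ t x = ∫ x, x ^ k * wt τ t x := by
  let b : ContDiffBump (0 : ℝ) := ⟨1, 2, one_pos, one_lt_two⟩
  set c : ℝ → ℂ := fun x => b x with hc
  have hb0 : b 0 = 1 := b.one_of_mem_closedBall (by simp [b])
  have hcT : Test c := ⟨cd_ofReal.comp b.contDiff, b.hasCompactSupport.comp_left (g := ofReal) rfl⟩
  set I0 : ℝ := ∫ x, wt τ t x * b x with hI0
  have hI : 0 < I0 := by
    refine Continuous.integral_pos_of_hasCompactSupport_nonneg_nonzero (x := 0)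
      (Continuous.mul (by unfold wt; fun_prop) b.continuous) b.hasCompactSupport.mul_left
      (fun x => mul_nonneg (Real.exp_pos _).le b.nonneg) ?_
    simp [hb0, wt]
  have hIc : ∫ x, (wt τ t x : ℂ) * c x = I0 := by
    rw [hI0, ← integral_complex_ofReal]; simp [hc]
  have hI' : (I0 : ℂ) ≠ 0 := by exact_mod_cast hI.ne'
  have key : ∀ f, Test f → Lam m 0 f = Lam m 0 c / I0 * ∫ x, wt τ t x * f x := by
    intro f hf
    set J := ∫ x, (wt τ t x : ℂ) * f x with hJ
    have T : Test fun x => -(J / I0) * c x := Test.mul contDiff_const hcT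
    have := lam_vanish h (hf.add T) (by
      simp only [mul_add]
      rw [integral_add (Test.mul cd_wt hf).int (Test.mul cd_wt T).int]
      simp only [mul_left_comm (wt τ t _ : ℂ), integral_const_mul, hIc]
      rw [← hJ]
      field_simp
      ring)
    rw [lam_add h 0 hf T, lam_smul] at this
    linear_combination this
  set e : ℕ → ℝ := fun n => 1 / (n + 1) with he
  have hep : ∀ n, 0 < e n := fun n => by positivity
  have he0 : Tendsto e atTop (𝓝 0) := tendsto_one_div_add_atTop_nhds_zero_nat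
  have hT : ∀ n, Test fun x => c (e n * x) := fun n =>
    ⟨hcT.1.comp (by fun_prop), hcT.2.comp_homeomorph (Homeomorph.mulLeft₀ (e n) (hep n).ne')⟩
  have main : ∀ k : ℕ, (m k : ℂ) = Lam m 0 c / I0 * (∫ x, x ^ k * wt τ t x : ℝ) := by
    intro k
    have l1 : Tendsto (fun n => Lam m k fun x => c (e n * x)) atTop (𝓝 (m k)) := by
      have e1 : ∀ n, (Lam m k fun x => c (e n * x)) = ∫ w, 𝓕 c w * psi m k (e n * w) := by
        intro n
        have := Measure.integral_comp_mul_left
          (fun w : ℝ => 𝓕 (fun x => c (e n * x)) w * psi m k w) (e n)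
        simp only [four_scale c _ (hep n), mul_assoc, integral_const_mul,
          abs_of_pos (inv_pos.2 (hep n)), Complex.real_smul] at this
        exact (mul_left_cancel₀ (by exact_mod_cast (inv_pos.2 (hep n)).ne') this).symm
      have e2 : (m k : ℂ) = ∫ w, 𝓕 c w * psi m k 0 := by
        have := congrFun (hcT.1.continuous.fourierInv_fourier_eq hcT.int hcT.fint) 0
        rw [Real.fourierInv_eq'] at this
        simp only [inner_zero_right, mul_zero, ofReal_zero, zero_mul, Complex.exp_zero,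
          one_smul] at this
        rw [integral_mul_const, this]
        simp [psi, phi_zero, hc, hb0]
      simp only [e1]
      rw [e2]
      refine tendsto_integral_of_dominated_convergence (fun w => ‖𝓕 c w‖ * ((m (k + k) + 1) / 2))
        (fun n => hcT.fint.1.mul ((psi_cont h k).comp (by fun_prop)).aestronglyMeasurable)
        (hcT.fint.norm.mul_const _) (fun n => .of_forall fun w => ?_) (.of_forall fun w => ?_)
      · rw [norm_mul]; gcongr; exact psi_bound h k _
      · refine (((psi_cont h k).tendsto 0).comp ?_).const_mul _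
        simpa using he0.mul_const w
    have l2 : Tendsto (fun n => ∫ x, (wt τ t x : ℂ) * (x ^ k * c (e n * x))) atTop
        (𝓝 (∫ x, x ^ k * wt τ t x : ℝ)) := by
      rw [← integral_complex_ofReal]
      refine tendsto_integral_of_dominated_convergence (fun x => ‖x ^ k * wt τ t x‖)
        (fun n => (Test.mul cd_wt (Test.mul (cd_ofReal.pow k) (hT n))).int.1)
        (wt_int k).norm (fun n => .of_forall fun x => ?_) (.of_forall fun x => ?_)
      · simp only [norm_mul, norm_pow, Complex.norm_real, hc]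
        have : ‖b (e n * x)‖ ≤ 1 := by rw [Real.norm_of_nonneg b.nonneg]; exact b.le_one
        calc _ ≤ ‖wt τ t x‖ * (‖x‖ ^ k * 1) := by gcongr
          _ = _ := by ring
      · have : Tendsto (fun n => c (e n * x)) atTop (𝓝 (c 0)) :=
          (hcT.1.continuous.tendsto 0).comp (by simpa using he0.mul_const x)
        have := (this.const_mul ((x : ℂ) ^ k)).const_mul (wt τ t x : ℂ)
        simpa [hc, hb0, mul_comm] using this
    refine tendsto_nhds_unique l1 ((l2.const_mul _).congr fun n => ?_)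
    rw [← key _ (Test.mul (cd_ofReal.pow k) (hT n)), lam_pow h _ _ (hT n), zero_add]
  have m0 := main 0
  have mk := main k
  simp only [h.zero, pow_zero, one_mul, ofReal_one] at m0
  have : (m k : ℂ) * (∫ x, wt τ t x : ℝ) = (∫ x, x ^ k * wt τ t x : ℝ) := by
    rw [mk]; linear_combination (-(∫ x, x ^ k * wt τ t x : ℝ) : ℂ) * m0
  exact_mod_cast this

end

end Pool.Agent.Lib.H3Freud
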