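import Mathlib

namespace Pool.Agent.Lib.helper3.GS

open Filter Topology Metric Set unitInterval WeakDual TopologicalSpace Classical

/-- Indicators of rational intervals. -/
noncomputable def cc (q : ℚ × ℚ) : ℝ → Bool := fun x => decide ((q.1 : ℝ) < x ∧ x < q.2)

/-- A separable compact space. -/
abbrev L : Type := closure (range cc)

instance : CompactSpace L := isCompact_iff_compactSpace.1 isClosed_closure.isCompact

instance : SeparableSpace L := ⟨⟨Subtype.val ⁻¹' range cc,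
  (countable_range cc).preimage Subtype.val_injective, Subtype.dense_iff.2 (by
    rw [Subtype.image_preimage_coe, inter_eq_right.2 subset_closure])⟩⟩

lemma e_mem (m : ℝ) : (fun x => decide (x = m)) ∈ closure (range cc) := by
  have h1 : ∀ n : ℕ, ∃ q : ℚ, m - 1 / ((n : ℝ) + 1) < q ∧ (q : ℝ) < m := fun n =>
    exists_rat_btwn (sub_lt_self m Nat.one_div_pos_of_nat)
  have h2 : ∀ n : ℕ, ∃ q : ℚ, m < q ∧ (q : ℝ) < m + 1 / ((n : ℝ) + 1) := fun n =>
    exists_rat_btwn (lt_add_of_pos_right m Nat.one_div_pos_of_nat)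
  choose a ha ha' using h1
  choose b hb hb' using h2
  refine mem_closure_of_tendsto (b := atTop) (f := fun n => cc (a n, b n))
    (tendsto_pi_nhds.2 fun x => tendsto_const_nhds.congr' ?_)
    (Eventually.of_forall fun n => mem_range_self _)
  by_cases hx : x = m
  · exact Eventually.of_forall fun n => by simp [cc, hx, ha' n, hb n]
  · have hp : 0 < |x - m| := abs_pos.2 (sub_ne_zero.2 hx)
    filter_upwards [tendsto_one_div_add_atTop_nhds_zero_nat.eventually (gt_mem_nhds hp)] with n hn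
    simp only [cc, hx, decide_false]
    refine (decide_eq_false fun h => ?_).symm
    exact lt_asymm hn (abs_lt.2 ⟨by linarith [h.1, ha n], by linarith [h.2, hb' n]⟩)

/-- The points `e m`. -/
noncomputable def e (m : ℝ) : L := ⟨_, e_mem m⟩

/-- Coordinate idempotents. -/
noncomputable def p (i : ℝ) : C(L, ℂ) :=
  ⟨fun l => if l.1 i then 1 else 0, (continuous_of_discreteTopology
    (f := fun b : Bool => if b then (1 : ℂ) else 0)).comp
      ((continuous_apply i).comp continuous_subtype_val)⟩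

lemma p_e (i m : ℝ) : p i (e m) = if i = m then 1 else 0 := by simp [p, e]

/-- The non-separable closed subset. -/
def M : Set L := {l | ∀ i j, i ≠ j → p i l * p j l = 0}

lemma M_closed : IsClosed M := by
  simp only [M, ofPred_forall]
  exact isClosed_iInter fun i => isClosed_iInter fun j => isClosed_iInter fun _ =>
    isClosed_eq ((p i).continuous.mul (p j).continuous) continuous_const

lemma e_M (m : ℝ) : e m ∈ M := fun i j hij => by
  rw [p_e, p_e]
  split_ifs with h1 h2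
  · exact absurd (h1.trans h2.symm) hij
  all_goals simp

/-- The closed disc. -/
abbrev D : Type := closedBall (0 : ℂ) 1

lemma D_le (z : D) : ‖z.1‖ ≤ 1 := mem_closedBall_zero_iff.1 z.2

/-- The underlying set. -/
def K : Set (L × I × D) := {y | ‖y.2.2.1‖ = 1 ∨ y.2.1.1 = 0 ∨ y.1 ∈ M}

lemma K_closed : IsClosed K :=
  (isClosed_eq (by fun_prop) continuous_const).union
    ((isClosed_eq (by fun_prop) continuous_const).union (M_closed.preimage continuous_fst))

instance : CompactSpace K := isCompact_iff_compactSpace.1 K_closed.isCompact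

/-- Radial retraction. -/
noncomputable def r (z : ℂ) : D := ⟨(max 1 ‖z‖)⁻¹ • z, by
  have h : 0 < max 1 ‖z‖ := lt_max_of_lt_left one_pos
  rw [mem_closedBall_zero_iff, norm_smul, norm_inv, Real.norm_of_nonneg h.le,
    inv_mul_le_iff₀ h, mul_one]
  exact le_max_right _ _⟩

lemma r_cont : Continuous r := Continuous.subtype_mk
  (((continuous_const.max continuous_norm).inv₀ fun _ =>
    (lt_max_of_lt_left one_pos).ne').smul continuous_id) _

lemma r_val {z : ℂ} (h : ‖z‖ ≤ 1) : (r z).1 = z := by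
  simp [r, max_eq_left h]

/-- Points over `M`. -/
def pt (l : M) (t : I) (z : D) : K := ⟨(l.1, t, z), Or.inr (Or.inr l.2)⟩

lemma pt_cont (l : M) : Continuous fun y : I × D => pt l y.1 y.2 :=
  Continuous.subtype_mk (by fun_prop) _

/-- The algebra. -/
def A : Subalgebra ℂ C(K, ℂ) where
  carrier := {f | ∀ l t, DifferentiableOn ℂ (fun z => f (pt l t (r z))) (ball 0 1)}
  mul_mem' hf hg l t := (hf l t).mul (hg l t)
  add_mem' hf hg l t := (hf l t).add (hg l t)
  algebraMap_mem' c _ _ := differentiableOn_const (algebraMap ℂ ℂ c)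

lemma A_closed : IsClosed (A : Set C(K, ℂ)) := by
  refine IsSeqClosed.isClosed fun F f hF h l t => ?_
  exact ((ContinuousMap.tendsto_iff_tendstoUniformly.1 h).comp
    fun z => pt l t (r z)).tendstoUniformlyOn.tendstoLocallyUniformlyOn.differentiableOn
      (Eventually.of_forall fun n => hF n l t) isOpen_ball

instance : CompleteSpace A := A_closed.completeSpace_coe

lemma isUnit_of_ne (f : A) (h : ∀ x, f.1 x ≠ 0) : IsUnit f :=
  IsUnit.of_mul_eq_one ⟨⟨fun x => (f.1 x)⁻¹, f.1.continuous.inv₀ h⟩,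
    fun l t => (f.2 l t).inv fun _ _ => h _⟩
    (Subtype.ext (ContinuousMap.ext fun x => mul_inv_cancel₀ (h x)))

lemma ne_zero (f : A) (h : ∀ x : K, ‖x.1.2.2.1‖ = 1 ∨ x.1.2.1.1 = 0 → f.1 x ≠ 0) (x : K) :
    f.1 x ≠ 0 := by
  obtain ⟨⟨l, t, z⟩, hx⟩ := x
  rcases hx with hx | hx | hx
  · exact h _ (Or.inl hx)
  · exact h _ (Or.inr hx)
  have hc : Continuous fun y : I × D => f.1 (pt ⟨l, hx⟩ y.1 y.2) :=
    f.1.continuous.comp (pt_cont ⟨l, hx⟩)
  obtain ⟨y0, hy0, hmin⟩ := (isClosed_eq (f := fun y : I × D => ‖y.2.1‖) (g := fun _ => 1)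
    (by fun_prop) continuous_const).isCompact.exists_isMinOn ⟨(0, ⟨1, by simp⟩), by simp⟩
      hc.norm.continuousOn
  have hδ : 0 < ‖f.1 (pt ⟨l, hx⟩ y0.1 y0.2)‖ := norm_pos_iff.2 (h _ (Or.inl hy0))
  set δ := ‖f.1 (pt ⟨l, hx⟩ y0.1 y0.2)‖
  let U : Set I := {s | ∀ w : D, f.1 (pt ⟨l, hx⟩ s w) ≠ 0}
  have hU : U = ⋂ w : D, {s | δ ≤ ‖f.1 (pt ⟨l, hx⟩ s w)‖} := by
    refine Subset.antisymm (fun s hs => mem_iInter.2 fun w => ?_)
      fun s hs w => norm_pos_iff.1 (hδ.trans_le (mem_iInter.1 hs w))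
    have h1 : DiffContOnCl ℂ (fun z => (f.1 (pt ⟨l, hx⟩ s (r z)))⁻¹) (ball 0 1) :=
      ⟨(f.2 _ s).inv fun _ _ => hs _, ((hc.comp (continuous_const.prodMk r_cont)).inv₀
        fun _ => hs _).continuousOn⟩
    have h2 := Complex.norm_le_of_forall_mem_frontier_norm_le isBounded_ball h1 (C := δ⁻¹)
      (fun u hu => by
        rw [frontier_ball _ one_ne_zero, mem_sphere_zero_iff_norm] at hu
        rw [norm_inv]
        exact inv_anti₀ hδ (hmin (a := (s, r u)) (by
          change ‖(r u).1‖ = 1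
          rw [r_val hu.le, hu]))) (z := w.1) (by rw [closure_ball _ one_ne_zero]; exact w.2)
    rw [show r w.1 = w from Subtype.ext (r_val (D_le w)), norm_inv] at h2
    exact (inv_le_inv₀ (norm_pos_iff.2 (hs w)) hδ).1 h2
  have h1 : IsClosed U := hU ▸ isClosed_iInter fun w =>
    isClosed_le continuous_const (hc.comp (continuous_id.prodMk continuous_const)).norm
  have h2 : IsOpen U := by
    have := (isClosedMap_fst_of_compactSpace _ (isClosed_eq hc (continuous_const (y := 0)))).isOpen_compl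
    convert this using 1
    ext s
    simp [U]
  have h3 := IsClopen.eq_univ ⟨h1, h2⟩ ⟨0, fun w => h _ (Or.inr rfl)⟩
  exact (h3.symm ▸ mem_univ t : t ∈ U) z

/-- Point evaluations. -/
noncomputable def ev (x : K) : characterSpace ℂ A :=
  CharacterSpace.equivAlgHom.symm ((ContinuousMap.evalAlgHom ℂ ℂ x).comp A.val)

lemma ev_ap (x : K) (f : A) : ev x f = f.1 x := rfl

lemma exists_S : ∃ S : Set K, S.Countable ∧
    ∀ x : K, ‖x.1.2.2.1‖ = 1 ∨ x.1.2.1.1 = 0 → x ∈ closure S := by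
  let g1 : L × I × sphere (0 : ℂ) 1 → K := fun y =>
    ⟨(y.1, y.2.1, ⟨y.2.2.1, sphere_subset_closedBall y.2.2.2⟩),
      Or.inl (mem_sphere_zero_iff_norm.1 y.2.2.2)⟩
  let g2 : L × D → K := fun y => ⟨(y.1, 0, y.2), Or.inr (Or.inl rfl)⟩
  have h1 : Continuous g1 := Continuous.subtype_mk (by fun_prop) _
  have h2 : Continuous g2 := Continuous.subtype_mk (by fun_prop) _
  obtain ⟨S, hS, h⟩ := (isSeparable_range h1).union (isSeparable_range h2)
  refine ⟨S, hS, fun x hx => h ?_⟩
  rcases hx with hx | hx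
  · exact Or.inl ⟨(x.1.1, x.1.2.1, ⟨x.1.2.2.1, mem_sphere_zero_iff_norm.2 hx⟩), rfl⟩
  · exact Or.inr ⟨(x.1.1, x.1.2.2), Subtype.ext (Prod.ext rfl (Prod.ext (Subtype.ext hx.symm) rfl))⟩

lemma generated : ∃ S : Set (characterSpace ℂ A), S.Countable ∧
    ∀ f : A, spectrum ℂ f = closure ((fun φ : characterSpace ℂ A => φ f) '' S) := by
  obtain ⟨S, hS, h⟩ := exists_S
  refine ⟨ev '' S, hS.image _, fun f => Subset.antisymm (fun c hc => ?_)
    (closure_minimal ?_ (spectrum.isClosed f))⟩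
  · by_contra hn
    refine hc (isUnit_of_ne _ (ne_zero _ fun x hx h0 => hn ?_))
    have h1 : c = f.1 x := sub_eq_zero.1 h0
    rw [h1, image_image]
    exact image_closure_subset_closure_image f.1.continuous ⟨x, h x hx, rfl⟩
  · rintro _ ⟨φ, -, rfl⟩
    exact CharacterSpace.apply_mem_spectrum φ f

/-- The idempotents. -/
noncomputable def P (i : ℝ) : A :=
  ⟨⟨fun x => p i x.1.1, (p i).continuous.comp (by fun_prop)⟩,
    fun l _ => differentiableOn_const (p i l.1)⟩

/-- The height. -/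
noncomputable def H : A :=
  ⟨⟨fun x => (x.1.2.1.1 : ℂ), by fun_prop⟩, fun _ t => differentiableOn_const (t.1 : ℂ)⟩

/-- The coordinate. -/
noncomputable def Z : A :=
  ⟨⟨fun x => x.1.2.2.1, by fun_prop⟩, fun _ _ => differentiableOn_id.congr fun _ hz =>
    r_val (mem_ball_zero_iff.1 hz).le⟩

lemma char_zero {i j : ℝ} (hij : i ≠ j) (φ : characterSpace ℂ A) (hφ : ‖φ Z‖ < 1) :
    φ (P i * P j * H) = 0 := by
  set h := P i * P j * H with hh
  have h0 : ∀ l t z, h.1 (pt l t z) = 0 := fun l t z =>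
    mul_eq_zero_of_left (l.2 i j hij) _
  have key : ∀ n : ℕ, ‖φ h‖ ≤ ‖φ Z‖ ^ n * (‖h‖ * ‖(1 : A)‖) := fun n => by
    let G : A := ⟨⟨fun x => h.1 x * (star x.1.2.2.1) ^ n, by fun_prop⟩, fun l t =>
      (differentiableOn_const 0).congr fun _ _ => mul_eq_zero_of_left (h0 _ _ _) _⟩
    have h1 : h = Z ^ n * G := Subtype.ext (ContinuousMap.ext fun x => by
      change h.1 x = (Z ^ n).1 x * (h.1 x * (star x.1.2.2.1) ^ n)
      rw [SubmonoidClass.coe_pow, ContinuousMap.pow_apply]
      change h.1 x = x.1.2.2.1 ^ n * (h.1 x * (star x.1.2.2.1) ^ n)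
      obtain ⟨⟨l, t, z⟩, hx | hx | hx⟩ := x
      · have : z.1 * star z.1 = 1 := by
          rw [Complex.star_def, Complex.mul_conj, Complex.normSq_eq_norm_sq, show ‖z.1‖ = 1 from hx]
          simp
        rw [mul_left_comm, ← mul_pow, this, one_pow, mul_one]
      · have : h.1 ⟨(l, t, z), Or.inr (Or.inl hx)⟩ = 0 :=
          mul_eq_zero_of_right _ (Complex.ofReal_eq_zero.2 hx)
        rw [this, zero_mul, mul_zero]
      · have : h.1 ⟨(l, t, z), Or.inr (Or.inr hx)⟩ = 0 := h0 ⟨l, hx⟩ t z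
        rw [this, zero_mul, mul_zero])
    have h2 : ‖G‖ ≤ ‖h‖ := (ContinuousMap.norm_le _ (norm_nonneg h)).2 fun x => by
      change ‖h.1 x * (star x.1.2.2.1) ^ n‖ ≤ _
      rw [norm_mul, norm_pow, norm_star]
      exact (mul_le_of_le_one_right (norm_nonneg _)
        (pow_le_one₀ (norm_nonneg _) (D_le _))).trans (h.1.norm_coe_le_norm x)
    calc ‖φ h‖ = ‖φ Z‖ ^ n * ‖φ G‖ := by
          conv_lhs => rw [h1, map_mul, map_pow, norm_mul, norm_pow]
      _ ≤ _ := mul_le_mul_of_nonneg_left ((AlgHom.norm_apply_le_self_mul_norm_one φ G).trans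
          (mul_le_mul_of_nonneg_right h2 (norm_nonneg _))) (by positivity)
  have := (tendsto_pow_atTop_nhds_zero_of_lt_one (norm_nonneg _) hφ).mul_const (‖h‖ * ‖(1 : A)‖)
  rw [zero_mul] at this
  exact norm_le_zero_iff.1 (ge_of_tendsto' this key)

lemma not_sep : ¬ SeparableSpace (characterSpace ℂ A) := fun hs => by
  have hc : ∀ f : A, Continuous fun φ : characterSpace ℂ A => φ f := fun f =>
    (gelfandTransform ℂ A f).continuous
  refine not_countable (α := ℝ) (Pairwise.countable_of_isOpen_disjoint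
    (s := fun m => {φ : characterSpace ℂ A | φ (P m) ≠ 0 ∧ φ H ≠ 0 ∧ ‖φ Z‖ < 1})
    (fun i j hij => disjoint_left.2 fun φ h1 h2 => ?_) (fun m => ?_)
    fun m => ⟨ev (pt ⟨e m, e_M m⟩ 1 ⟨0, by simp⟩), ?_, ?_, ?_⟩)
  · have := char_zero hij φ h1.2.2
    rw [map_mul, map_mul] at this
    exact mul_ne_zero (mul_ne_zero h1.1 h2.1) h1.2.1 this
  · exact (isOpen_ne_fun (hc _) continuous_const).inter
      ((isOpen_ne_fun (hc _) continuous_const).inter (isOpen_lt (hc _).norm continuous_const))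
  · change p m (e m) ≠ 0
    rw [p_e, if_pos rfl]
    exact one_ne_zero
  · change ((1 : ℝ) : ℂ) ≠ 0
    simp
  · change ‖(0 : ℂ)‖ < 1
    simp

lemma norm_oneA : ‖(1 : A)‖ = 1 := by
  have : Nonempty K := ⟨pt ⟨e 0, e_M 0⟩ 1 ⟨0, by simp⟩⟩
  exact norm_one (α := C(K, ℂ))

end Pool.Agent.Lib.helper3.GS
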