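import Mathlib

namespace Pool.Agent.Lib.helper3.HS

open Set

lemma luz_step {G I : Type} [Countable G] [Countable I] [Infinite I] (B : I → Set G)
    (h1 : ∀ i, (B i).Infinite) (h2 : ∀ i j, i ≠ j → (B i ∩ B j).Finite) :
    ∃ C : Set G, C.Infinite ∧ (∀ i, (C ∩ B i).Finite) ∧
      ∀ F : Set G, F.Finite → {i | C ∩ B i ⊆ F}.Finite := by
  obtain ⟨g, hg⟩ := exists_injective_nat G
  obtain ⟨e, he⟩ := exists_injective_nat I
  have hx : ∀ i, ∃ x ∈ B i, (∀ j, e j < e i → x ∉ B j) ∧ e i < g x := by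
    intro i
    have f1 : (⋃ j ∈ e ⁻¹' Iio (e i), B i ∩ B j).Finite :=
      ((finite_Iio _).preimage he.injOn).biUnion fun j hj => h2 i j fun h => by
        rw [h] at hj; exact lt_irrefl (e j) hj
    have f2 : (g ⁻¹' Iic (e i)).Finite := (finite_Iic _).preimage hg.injOn
    obtain ⟨x, hx1, hx2⟩ := ((h1 i).sdiff (f1.union f2)).nonempty
    refine ⟨x, hx1, fun j hj hB => hx2 (Or.inl (mem_biUnion (x := j) hj ⟨hx1, hB⟩)), ?_⟩
    exact not_le.1 fun h => hx2 (Or.inr h)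
  choose x hx1 hx2 hx3 using hx
  have key : ∀ F : Set G, F.Finite → {i | x i ∈ F}.Finite := by
    intro F hF
    obtain ⟨K, hK⟩ := (hF.image g).bddAbove
    exact ((finite_Iic K).preimage he.injOn).subset fun i hi =>
      (hx3 i).le.trans (hK ⟨_, hi, rfl⟩)
  refine ⟨range x, fun h => infinite_univ ((key _ h).subset fun i _ => ⟨i, rfl⟩), fun j => ?_,
    fun F hF => (key F hF).subset fun i hi => hi ⟨⟨i, rfl⟩, hx1 i⟩⟩
  refine (((finite_Iic (e j)).preimage he.injOn).image x).subset ?_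
  rintro _ ⟨⟨i, rfl⟩, hi⟩
  exact ⟨i, not_lt.1 fun h => hx2 i j h hi, rfl⟩

/-- The property required at each stage. -/
def Stage {W : Type} [LT W] (α : W) (prev : ∀ β, β < α → Set (ℕ × ℕ)) (C : Set (ℕ × ℕ)) : Prop :=
  C.Infinite ∧ (∀ k, (C ∩ {p | p.1 = k}).Finite) ∧ (∀ β h, (C ∩ prev β h).Finite) ∧
    ∀ F : Set (ℕ × ℕ), F.Finite → {β | ∃ h : β < α, C ∩ prev β h ⊆ F}.Finite

lemma luz_rec {W : Type} [LinearOrder W] [WellFoundedLT W] (hW : ∀ α : W, (Iio α).Countable) :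
    ∃ A : W → Set (ℕ × ℕ), ∀ α, Stage α (fun β _ => A β) (A α) := by
  let A : W → Set (ℕ × ℕ) :=
    (wellFounded_lt (α := W)).fix fun α prev => Classical.epsilon (Stage α prev)
  have hA : ∀ α, A α = Classical.epsilon (Stage α fun β _ => A β) := fun α =>
    (wellFounded_lt (α := W)).fix_eq _ α
  refine ⟨A, fun α => ?_⟩
  induction α using WellFoundedLT.induction with
  | ind α ih =>
    rw [hA α]
    refine Classical.epsilon_spec (p := Stage α fun β _ => A β) ?_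
    have := (hW α).to_subtype
    obtain ⟨C, h1, h2, h3⟩ := luz_step (I := ℕ ⊕ Iio α)
      (Sum.elim (fun k => {p : ℕ × ℕ | p.1 = k}) fun β => A β.1) (by
        rintro (k | β)
        · exact infinite_of_injective_forall_mem (f := fun m : ℕ => (k, m))
            (fun a b h => (Prod.ext_iff.1 h).2) fun _ => rfl
        · exact (ih β.1 β.2).1) (by
        rintro (k | β) (m | γ) h
        · exact finite_empty.subset fun p hp => h (congrArg Sum.inl (hp.1.symm.trans hp.2))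
        · rw [inter_comm]; exact (ih γ.1 γ.2).2.1 k
        · exact (ih β.1 β.2).2.1 m
        · rcases lt_trichotomy β.1 γ.1 with h' | h' | h'
          · rw [inter_comm]; exact (ih γ.1 γ.2).2.2.1 β.1 h'
          · exact absurd (congrArg Sum.inr (Subtype.ext h')) h
          · exact (ih β.1 β.2).2.2.1 γ.1 h')
    refine ⟨C, h1, fun k => h2 (Sum.inl k), fun β h => h2 (Sum.inr ⟨β, h⟩), fun F hF => ?_⟩
    refine (((h3 F hF).preimage Sum.inr_injective.injOn).image Subtype.val).subset ?_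
    rintro β ⟨h, hβ⟩
    exact ⟨⟨β, h⟩, hβ, rfl⟩

lemma pigeon {W G : Type} [Countable G] {L : Set W} (hL : ¬ L.Countable) (f : W → Set G)
    (hf : ∀ α ∈ L, (f α).Finite) : ∃ F : Set G, F.Finite ∧ ¬ {α ∈ L | f α = F}.Countable := by
  by_contra h
  refine hL (((Countable.ofPred_finite (α := G)).biUnion
    (t := fun F _ => {α ∈ L | f α = F}) fun F hF => not_not.1 fun h' => h ⟨F, hF, h'⟩).mono ?_)
  intro α hα
  exact mem_iUnion₂.2 ⟨f α, hf α hα, hα, rfl⟩

theorem luzin : ∃ (W : Type) (A : W → Set (ℕ × ℕ)) (t : W → ℝ), ¬ (univ : Set W).Countable ∧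
    Function.Injective t ∧ (∀ α, t α ∈ Ioo (0 : ℝ) 1) ∧ (∀ α, (A α).Infinite) ∧
    (∀ α β, α ≠ β → (A α ∩ A β).Finite) ∧ ∀ (L R : Set W) (E : Set (ℕ × ℕ)),
      (∀ α ∈ L, (A α \ E).Finite) → (∀ β ∈ R, (A β ∩ E).Finite) → L.Countable ∨ R.Countable := by
  let W := (Cardinal.aleph.{0} 1).ord.ToType
  have hW : ∀ α : W, (Iio α).Countable := fun α =>
    Cardinal.le_aleph0_iff_set_countable.1 (Cardinal.lt_aleph_one_iff.1 (by
      have := Cardinal.mk_Iio_lt α (by rw [Cardinal.mk_ord_toType, Ordinal.type_toType])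
      rwa [Cardinal.mk_ord_toType] at this))
  obtain ⟨A, hA⟩ := luz_rec hW
  have hc : Cardinal.mk W ≤ Cardinal.mk (Ioo (0 : ℝ) 1) := by
    rw [Cardinal.mk_ord_toType, Cardinal.mk_Ioo_real zero_lt_one]
    exact Cardinal.aleph_one_le_continuum
  obtain ⟨t⟩ := (Cardinal.le_def _ _).1 hc
  refine ⟨W, A, fun α => (t α).1, fun h => ?_, Subtype.val_injective.comp t.injective,
    fun α => (t α).2, fun α => (hA α).1, fun α β h => ?_, fun L R E hL hR => ?_⟩
  · have := Cardinal.lt_aleph_one_iff.2 (Cardinal.le_aleph0_iff_set_countable.2 h)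
    rw [Cardinal.mk_univ, Cardinal.mk_ord_toType] at this
    exact lt_irrefl _ this
  · rcases lt_or_gt_of_ne h with h' | h'
    · rw [inter_comm]; exact (hA β).2.2.1 α h'
    · exact (hA α).2.2.1 β h'
  · by_contra h
    obtain ⟨F1, f1, h1⟩ := pigeon (fun h' => h (Or.inl h')) _ hL
    obtain ⟨F2, f2, h2⟩ := pigeon (fun h' => h (Or.inr h')) _ hR
    obtain ⟨L0, hL0, hc0, hi⟩ := Set.Infinite.exists_subset_countable_infinite
      (s := {α ∈ L | A α \ E = F1}) fun h' => h1 h'.countable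
    have hc1 : (⋃ α ∈ L0, Iic α).Countable := hc0.biUnion fun α _ => by
      rw [← Iio_insert]; exact (hW α).insert α
    obtain ⟨β, hβ1, hβ2⟩ : ∃ β ∈ {α ∈ R | A α ∩ E = F2}, β ∉ ⋃ α ∈ L0, Iic α := by
      by_contra h'
      exact h2 (hc1.mono fun β hβ => not_not.1 fun h'' => h' ⟨β, hβ, h''⟩)
    refine hi (((hA β).2.2.2 _ (f1.union f2)).subset fun α hα => ⟨?_, fun p hp => ?_⟩)
    · exact not_le.1 fun h' => hβ2 (mem_biUnion (x := α) hα h')
    · by_cases hE : p ∈ E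
      · exact Or.inr (hβ1.2 ▸ ⟨hp.1, hE⟩)
      · exact Or.inl ((hL0 hα).2 ▸ ⟨hp.2, hE⟩)

end Pool.Agent.Lib.helper3.HS
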