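import Pool.Agent.Lib.helper3.HStmt

namespace Pool.Agent.Lib.helper3.HS

open KS Filter Topology BoundedContinuousFunction

variable (W : Type) [TopologicalSpace W] [DiscreteTopology W]

/-- Bounded families. -/
noncomputable def Bnd (E : Ban) : Ban where
  X := W →ᵇ E.X

/-- Evaluation of a bounded family. -/
noncomputable def bev {E : Ban} (α : W) : (Bnd W E).X →L[ℂ] E.X := evalCLM ℂ α

/-- Countably supported bounded families. -/
def cs (E : Ban) : Submodule ℂ (Bnd W E).X where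
  carrier := {f | {α | bev W α f ≠ 0}.Countable}
  add_mem' {f g} hf hg := (hf.union hg).mono fun α hα => by
    by_contra h
    simp only [Set.mem_union, Set.mem_ofPred_eq, not_or, not_not] at h
    exact hα (by rw [map_add, h.1, h.2, add_zero])
  zero_mem' := Set.countable_empty.mono fun α hα => hα (map_zero _)
  smul_mem' c f hf := Set.Countable.mono (s₂ := {α | bev W α f ≠ 0})
    (fun α hα (h : bev W α f = 0) => hα (by rw [map_smul, h, smul_zero])) hf

omit [DiscreteTopology W] in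
lemma mem_cs {E : Ban} {f : (Bnd W E).X} : f ∈ cs W E ↔ {α | bev W α f ≠ 0}.Countable := Iff.rfl

lemma bev_mk {E : Ban} (f : W → E.X) (C : ℝ) (hb : ∀ α, ‖f α‖ ≤ C) (α : W) :
    bev W α (ofNormedAddCommGroupDiscrete f C hb) = f α := rfl

omit [DiscreteTopology W] in
lemma cs_closed (E : Ban) : IsClosed (cs W E : Set (Bnd W E).X) := by
  refine IsSeqClosed.isClosed fun f g hf hg => ?_
  refine (Set.countable_iUnion fun n => (mem_cs W).1 (hf n)).mono fun α hα => ?_
  by_contra h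
  simp only [Set.mem_iUnion, Set.mem_ofPred_eq, not_exists, not_not] at h
  have := ((bev W α).continuous.tendsto g).comp hg
  simp only [Function.comp_def, h] at this
  exact hα (tendsto_nhds_unique this tendsto_const_nhds)

/-- The space of countably supported bounded families. -/
noncomputable def CSup (E : Ban) : Ban := Sub (Bnd W E) (cs W E) (cs_closed W E)

variable {W} {E : Ban}

/-- Evaluation. -/
noncomputable def ev (α : W) : (CSup W E).X →L[ℂ] E.X := (bev W α).comp (cs W E).subtypeL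

/-- Constructor. -/
noncomputable def mkC (f : W → E.X) (C : ℝ) (hb : ∀ α, ‖f α‖ ≤ C) (hs : {α | f α ≠ 0}.Countable) :
    (CSup W E).X :=
  (⟨ofNormedAddCommGroupDiscrete f C hb, (mem_cs W).2 hs⟩ : cs W E)

lemma ev_mkC (f : W → E.X) (C : ℝ) (hb : ∀ α, ‖f α‖ ≤ C) (hs : {α | f α ≠ 0}.Countable) (α : W) :
    ev α (mkC f C hb hs) = f α := rfl

omit [DiscreteTopology W] in
lemma ev_ext {x y : (CSup W E).X} (h : ∀ α, ev α x = ev α y) : x = y :=
  Subtype.ext (BoundedContinuousFunction.ext h)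

omit [DiscreteTopology W] in
lemma ev_le (α : W) (x : (CSup W E).X) : ‖ev α x‖ ≤ ‖x‖ := norm_coe_le_norm (Subtype.val x) α

omit [DiscreteTopology W] in
lemma cs_norm_le (x : (CSup W E).X) {C : ℝ} (hC : 0 ≤ C) (h : ∀ α, ‖ev α x‖ ≤ C) : ‖x‖ ≤ C :=
  (norm_le (f := Subtype.val x) hC).2 h

omit [DiscreteTopology W] in
lemma ev_supp (x : (CSup W E).X) : {α | ev α x ≠ 0}.Countable :=
  (mem_cs W).1 (Subtype.property (p := fun f => f ∈ cs W E) x)

/-- A pointwise map between such spaces. -/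
noncomputable def mapC {F : Ban} (g : W → E.X → F.X) (hl : ∀ α, IsLinearMap ℂ (g α)) (C : ℝ)
    (hC : 0 ≤ C) (hb : ∀ α x, ‖g α x‖ ≤ C * ‖x‖) (x : (CSup W E).X) : (CSup W F).X :=
  mkC (fun α => g α (ev α x)) (C * ‖x‖)
    (fun α => (hb _ _).trans (mul_le_mul_of_nonneg_left (ev_le α x) hC))
    ((ev_supp x).mono fun α hα (h : ev α x = 0) => hα (by rw [h, (hl α).map_zero]))

lemma mapC_bdd {F : Ban} (g : W → E.X → F.X) (hl : ∀ α, IsLinearMap ℂ (g α)) (C : ℝ)
    (hC : 0 ≤ C) (hb : ∀ α x, ‖g α x‖ ≤ C * ‖x‖) : IsBoundedLinearMap ℂ (mapC g hl C hC hb) :=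
  IsLinearMap.with_bound
    ⟨fun x y => ev_ext fun α => by simp only [mapC, ev_mkC, map_add, (hl α).map_add],
      fun c x => ev_ext fun α => by simp only [mapC, ev_mkC, map_smul, (hl α).map_smul]⟩ C
    fun x => cs_norm_le _ (by positivity) fun α =>
      (hb _ _).trans (mul_le_mul_of_nonneg_left (ev_le α x) hC)

/-- The module of countably supported families. -/
noncomputable def modC {A : BAlg} (act : W → A.B.X → E.X → E.X)
    (h1 : ∀ α x, IsLinearMap ℂ fun a => act α a x) (h2 : ∀ α a, IsLinearMap ℂ (act α a))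
    (h3 : ∀ α a b x, act α (A.m a b) x = act α a (act α b x))
    (h4 : ∀ α a x, ‖act α a x‖ ≤ ‖a‖ * ‖x‖) : Mod A where
  M := CSup W E
  act a := mapC (fun α => act α a) (fun α => h2 α a) ‖a‖ (norm_nonneg a) fun α => h4 α a
  lin_left x := ⟨fun a b => ev_ext fun α => by
      simp only [mapC, ev_mkC, map_add, (h1 α _).map_add],
    fun c a => ev_ext fun α => by simp only [mapC, ev_mkC, map_smul, (h1 α _).map_smul]⟩
  lin_right a := (mapC_bdd _ _ _ _ _).toIsLinearMap
  act_mul a b x := ev_ext fun α => h3 α a b _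
  bound := ⟨1, fun a x => cs_norm_le _ (by positivity) fun α => by
    rw [one_mul]
    exact (h4 α a _).trans (mul_le_mul_of_nonneg_left (ev_le α x) (norm_nonneg a))⟩

/-- The scalars. -/
noncomputable def CB : Ban where
  X := ℂ

theorem not_hered (A : BAlg) (hW : ¬ (Set.univ : Set W).Countable) (l : W → A.B.X → ℂ)
    (hl : ∀ α, IsLinearMap ℂ (l α)) (hm : ∀ α a b, l α (A.m a b) = l α a * l α b)
    (hb : ∀ α a, ‖l α a‖ ≤ ‖a‖) (hs : ∀ a, {α | l α a ≠ 0}.Countable) (u : W → A.B.X)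
    (hu : ∀ α, ‖u α‖ ≤ 1) (hlu : ∀ α, l α (u α) = 1) {G : Type} [Countable G] (δ : G → A.B.X)
    (hδ : ∀ n a, A.m (δ n) a = A.m a (δ n)) (hsep : ∀ b, (∀ n, A.m (δ n) b = 0) → b = 0) :
    ¬ Hereditary A := by
  intro H
  let X : Mod A := modC (W := W) (E := A.B) (fun _ => A.m) (fun _ => A.lin_left)
    (fun _ => A.lin_right) (fun _ => A.assoc) fun _ => A.norm_le
  let Y : Mod A := modC (W := W) (E := CB) (fun α a (x : ℂ) => (l α a * x : ℂ))
    (fun α (x : ℂ) => ⟨fun a b => by rw [(hl α).map_add]; exact add_mul _ _ x,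
      fun c a => by rw [(hl α).map_smul]; exact smul_mul_assoc c _ x⟩)
    (fun α a => ⟨fun (x y : ℂ) => mul_add _ x y, fun c (x : ℂ) => mul_smul_comm c _ x⟩)
    (fun α a b (x : ℂ) => by rw [hm]; exact mul_assoc _ _ x)
    fun α a (x : ℂ) => (norm_mul_le _ x).trans (mul_le_mul_of_nonneg_right (hb α a) (norm_nonneg x))
  let P := ideal A ⊤ isClosed_univ fun _ _ _ => trivial
  let val : P.M.X →L[ℂ] A.B.X := (⊤ : Submodule ℂ A.B.X).subtypeL
  let inc : A.B.X → P.M.X := fun a => (⟨a, trivial⟩ : (⊤ : Submodule ℂ A.B.X))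
  have hb' : ∀ α a, ‖l α a‖ ≤ 1 * ‖a‖ := fun α a => by rw [one_mul]; exact hb α a
  have hr1 : ∀ α, IsLinearMap ℂ fun x : CB.X => (show ℂ from x) • u α := fun α =>
    ⟨fun (x y : ℂ) => add_smul x y _, fun c (x : ℂ) => smul_assoc c x _⟩
  have hr2 : ∀ α (x : CB.X), ‖(show ℂ from x) • u α‖ ≤ 1 * ‖x‖ := fun α (x : ℂ) => by
    rw [one_mul, norm_smul]
    exact mul_le_of_le_one_right (norm_nonneg _) (hu α)
  obtain ⟨ψ, hψ, hσ⟩ := H ⊤ isClosed_univ (fun _ _ _ => trivial) X Y
    (mapC (E := A.B) (F := CB) l hl 1 zero_le_one hb')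
    ⟨mapC_bdd _ _ _ _ _, fun a x => ev_ext fun α => hm α a _⟩
    ⟨mapC (E := CB) (F := A.B) _ hr1 1 zero_le_one hr2, mapC_bdd _ _ _ _ _,
      fun y => ev_ext fun α => by
        refine ((hl α).map_smul _ _).trans ?_
        rw [hlu]
        exact mul_one (M := ℂ) _⟩
    (fun x => mkC (E := CB) (fun α => l α (val x)) ‖val x‖ (fun α => hb α _) (hs _))
    ⟨IsLinearMap.with_bound
      ⟨fun x y => ev_ext fun α => by
        simp only [ev_mkC, map_add]
        exact (hl α).map_add _ _,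
      fun c x => ev_ext fun α => by
        simp only [ev_mkC, map_smul]
        exact (hl α).map_smul _ _⟩ 1
      fun x => cs_norm_le _ (by positivity) fun α => hb' α _,
      fun a x => ev_ext fun α => hm α a _⟩
  have hc := Set.countable_iUnion fun n => ev_supp (ψ (inc (δ n)))
  obtain ⟨α, hα⟩ : ∃ α, α ∉ ⋃ n, {α | ev α (ψ (inc (δ n))) ≠ 0} := by
    by_contra h
    exact hW (hc.mono fun α _ => not_not.1 fun h' => h ⟨α, h'⟩)
  simp only [Set.mem_iUnion, Set.mem_ofPred_eq, not_exists, not_not] at hα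
  have h0 : ev α (ψ (inc (u α))) = 0 := hsep _ fun n => by
    have e1 := congrArg (ev α) (hψ.2 (δ n) (inc (u α)))
    have e2 := congrArg (ev α) (hψ.2 (u α) (inc (δ n)))
    have e3 : P.act (δ n) (inc (u α)) = P.act (u α) (inc (δ n)) := Subtype.ext (hδ n _)
    have e4 : A.m (u α) (ev α (ψ (inc (δ n)))) = 0 := by
      rw [hα n]; exact (A.lin_right _).map_zero
    exact e1.symm.trans ((congrArg (fun z => ev α (ψ z)) e3).trans (e2.trans e4))
  have h1 : l α (ev α (ψ (inc (u α)))) = l α (u α) := congrArg (ev α) (hσ (inc (u α)))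
  rw [h0, (hl α).map_zero, hlu] at h1
  exact zero_ne_one h1

end Pool.Agent.Lib.helper3.HS
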