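import Pool.Agent.Lib.helper3.HSep2
import Pool.Agent.Lib.helper3.HNP
import Pool.Agent.Lib.helper3.HLuz

namespace Pool.Agent.Lib.helper3.HS

open KS Filter Topology BoundedContinuousFunction Set

lemma cut {W : Type} (U : Set W) (r : W → ℝ) (hr : Function.Injective r)
    (h : ∀ q : ℚ, {α ∈ U | r α < q}.Countable ∨ {α ∈ U | (q : ℝ) < r α}.Countable) :
    U.Countable := by
  classical
  let Bad : ℚ → Set W := fun q =>
    if {α ∈ U | r α < q}.Countable then {α ∈ U | r α < q} else {α ∈ U | (q : ℝ) < r α}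
  have h1 : (⋃ q, Bad q).Countable := countable_iUnion fun q => by
    simp only [Bad]
    split_ifs with hq
    · exact hq
    · exact (h q).resolve_left hq
  have key : ∀ α ∈ U \ ⋃ q, Bad q, ∀ β ∈ U \ ⋃ q, Bad q, ¬ r α < r β := by
    intro α hα β hβ hlt
    obtain ⟨q, h2, h3⟩ := exists_rat_btwn hlt
    by_cases hq : {α ∈ U | r α < q}.Countable
    · exact hα.2 (mem_iUnion.2 ⟨q, by simp only [Bad, if_pos hq]; exact ⟨hα.1, h2⟩⟩)
    · exact hβ.2 (mem_iUnion.2 ⟨q, by simp only [Bad, if_neg hq]; exact ⟨hβ.1, h3⟩⟩)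
  have h2 : (U \ ⋃ q, Bad q).Subsingleton := fun α hα β hβ =>
    hr (le_antisymm (not_lt.1 (key β hβ α hα)) (not_lt.1 (key α hα β hβ)))
  exact (h2.countable.union h1).mono fun α hα => by
    by_cases h3 : α ∈ ⋃ q, Bad q
    · exact Or.inr h3
    · exact Or.inl ⟨hα, h3⟩

/-- The data of the construction. -/
structure AD (M G W : Type) [CStarAlgebra M] where
  A : W → Set G
  inf : ∀ α, (A α).Infinite
  ad : ∀ α β, α ≠ β → (A α ∩ A β).Finite
  luz : ∀ (L R : Set W) (E : Set G),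
    (∀ α ∈ L, (A α \ E).Finite) → (∀ β ∈ R, (A β ∩ E).Finite) → L.Countable ∨ R.Countable
  p : W → M
  idem : ∀ α, p α * p α = p α
  sa : ∀ α, star (p α) = p α
  D : M →L[ℂ] ℂ
  O : M →L[ℂ] ℂ
  comm : ∀ x y, x * y = y * x → D x * O y = D y * O x
  r : W → ℝ
  inj : Function.Injective r
  hD : ∀ α, D (p α) ≠ 0
  hO : ∀ α, O (p α) / D (p α) = r α

variable {M G W : Type} [CStarAlgebra M] [TopologicalSpace G] [DiscreteTopology G] (d : AD M G W)

/-- The filter along a member of the family. -/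
def AD.F (α : W) : Filter G := cofinite ⊓ 𝓟 (d.A α)

omit [TopologicalSpace G] [DiscreteTopology G] in
lemma AD.ev_iff {α : W} {q : G → Prop} :
    (∀ᶠ n in d.F α, q n) ↔ {n | n ∈ d.A α ∧ ¬ q n}.Finite := by
  rw [AD.F, eventually_inf_principal, eventually_cofinite]
  simp only [Classical.not_imp]

instance (α : W) : (d.F α).NeBot := ⟨fun h => d.inf α (by
  have : ∀ᶠ n in d.F α, False := by rw [h]; exact eventually_bot
  exact (d.ev_iff.1 this).subset fun n hn => ⟨hn, id⟩)⟩

omit [TopologicalSpace G] [DiscreteTopology G] in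
lemma AD.norm_p (α : W) : ‖d.p α‖ = 1 := by
  have h1 := CStarRing.norm_star_mul_self (x := d.p α)
  rw [d.sa, d.idem] at h1
  have h2 : ‖d.p α‖ ≠ 0 := fun h => d.hD α (by rw [norm_eq_zero.1 h, map_zero])
  exact mul_left_cancel₀ h2 (by rw [← h1, mul_one])

/-- Limit along a member of the family. -/
def AD.Lim (α : W) (a : G →ᵇ M) (c : ℂ) : Prop := Tendsto (fun n => a n) (d.F α) (𝓝 (c • d.p α))

variable {d}

omit [DiscreteTopology G] in
lemma AD.Lim.le {α : W} {a : G →ᵇ M} {c : ℂ} (h : d.Lim α a c) : ‖c‖ ≤ ‖a‖ := by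
  have := le_of_tendsto' (Tendsto.norm h) fun n => norm_coe_le_norm a n
  rwa [norm_smul, d.norm_p, mul_one] at this

omit [DiscreteTopology G] in
lemma AD.Lim.add {α : W} {a b : G →ᵇ M} {c e : ℂ} (h : d.Lim α a c) (h' : d.Lim α b e) :
    d.Lim α (a + b) (c + e) := by
  unfold AD.Lim
  rw [add_smul]
  exact Tendsto.add h h'

omit [DiscreteTopology G] in
lemma AD.Lim.sub {α : W} {a b : G →ᵇ M} {c e : ℂ} (h : d.Lim α a c) (h' : d.Lim α b e) :
    d.Lim α (a - b) (c - e) := by
  unfold AD.Lim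
  rw [sub_smul]
  exact Tendsto.sub h h'

omit [DiscreteTopology G] in
lemma AD.Lim.smul {α : W} {a : G →ᵇ M} {c : ℂ} (h : d.Lim α a c) (e : ℂ) :
    d.Lim α (e • a) (e * c) := by
  unfold AD.Lim
  rw [mul_smul]
  exact Tendsto.const_smul h e

omit [DiscreteTopology G] in
lemma AD.Lim.mul {α : W} {a b : G →ᵇ M} {c e : ℂ} (h : d.Lim α a c) (h' : d.Lim α b e) :
    d.Lim α (a * b) (c * e) := by
  have := Tendsto.mul h h'
  rwa [smul_mul_smul_comm, d.idem] at this

omit [DiscreteTopology G] in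
lemma AD.Lim.star {α : W} {a : G →ᵇ M} {c : ℂ} (h : d.Lim α a c) :
    d.Lim α (star a) (star c) := by
  have := Tendsto.star h
  rwa [star_smul, d.sa] at this

omit [DiscreteTopology G] in
lemma AD.Lim.unique {α : W} {a : G →ᵇ M} {c e : ℂ} (h : d.Lim α a c) (h' : d.Lim α a e) :
    c = e := by
  have := (h.sub h').le
  rwa [sub_self, norm_zero, norm_le_zero_iff, sub_eq_zero] at this

variable (d)

/-- Smallness off finitely many members. -/
def AD.Sm (a : G →ᵇ M) : Prop :=
  ∀ ε > 0, ∃ S : Finset W, ∀ᶠ n in cofinite, (∀ α ∈ S, n ∉ d.A α) → ‖a n‖ ≤ ε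

/-- The algebra. -/
def AD.alg : NonUnitalStarSubalgebra ℂ (G →ᵇ M) where
  carrier := {a | (∀ α, ∃ c, d.Lim α a c) ∧ d.Sm a}
  add_mem' {a b} ha hb := by
    classical
    refine ⟨fun α => ⟨_, (ha.1 α).choose_spec.add (hb.1 α).choose_spec⟩, fun ε hε => ?_⟩
    obtain ⟨S, hS⟩ := ha.2 _ (half_pos hε)
    obtain ⟨T, hT⟩ := hb.2 _ (half_pos hε)
    refine ⟨S ∪ T, ?_⟩
    filter_upwards [hS, hT] with n h1 h2 h3
    have h4 := h1 fun α hα => h3 α (Finset.mem_union_left _ hα)
    have h5 := h2 fun α hα => h3 α (Finset.mem_union_right _ hα)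
    exact (norm_add_le (a n) (b n)).trans (by linarith)
  zero_mem' := ⟨fun α => ⟨0, by unfold AD.Lim; rw [zero_smul]; exact tendsto_const_nhds⟩,
    fun ε hε => ⟨∅, Eventually.of_forall fun n _ => norm_zero.trans_le hε.le⟩⟩
  mul_mem' {a b} ha hb := by
    refine ⟨fun α => ⟨_, (ha.1 α).choose_spec.mul (hb.1 α).choose_spec⟩, fun ε hε => ?_⟩
    obtain ⟨S, hS⟩ := hb.2 (ε / (‖a‖ + 1)) (by positivity)
    refine ⟨S, hS.mono fun n h1 h2 => (norm_mul_le (a n) (b n)).trans ?_⟩
    calc ‖a n‖ * ‖b n‖ ≤ (‖a‖ + 1) * (ε / (‖a‖ + 1)) := by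
          gcongr
          · linarith [norm_coe_le_norm a n]
          · exact h1 h2
      _ = ε := by field_simp
  smul_mem' c a ha := by
    refine ⟨fun α => ⟨_, (ha.1 α).choose_spec.smul c⟩, fun ε hε => ?_⟩
    obtain ⟨S, hS⟩ := ha.2 (ε / (‖c‖ + 1)) (by positivity)
    refine ⟨S, hS.mono fun n h1 h2 => (norm_smul_le c (a n)).trans ?_⟩
    calc ‖c‖ * ‖a n‖ ≤ (‖c‖ + 1) * (ε / (‖c‖ + 1)) := by
          gcongr
          · linarith
          · exact h1 h2
      _ = ε := by field_simp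
  star_mem' {a} ha := by
    refine ⟨fun α => ⟨_, (ha.1 α).choose_spec.star⟩, fun ε hε => ?_⟩
    obtain ⟨S, hS⟩ := ha.2 ε hε
    exact ⟨S, hS.mono fun n h1 h2 => (norm_star (a n)).trans_le (h1 h2)⟩

omit [DiscreteTopology G] in
lemma AD.mem_alg {a : G →ᵇ M} : a ∈ d.alg ↔ (∀ α, ∃ c, d.Lim α a c) ∧ d.Sm a := Iff.rfl

omit [DiscreteTopology G] in
lemma AD.closed : IsClosed (d.alg : Set (G →ᵇ M)) := by
  refine IsSeqClosed.isClosed fun f g hf hg => ⟨fun α => ?_, fun ε hε => ?_⟩
  · choose c hc using fun k => (d.mem_alg.1 (hf k)).1 α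
    have h1 : CauchySeq c := Metric.cauchySeq_iff.2 fun ε hε => by
      obtain ⟨N, hN⟩ := Metric.cauchySeq_iff.1 hg.cauchySeq ε hε
      refine ⟨N, fun m hm n hn => lt_of_le_of_lt ?_ (hN m hm n hn)⟩
      rw [dist_eq_norm, dist_eq_norm]
      exact ((hc m).sub (hc n)).le
    obtain ⟨e, he⟩ := cauchySeq_tendsto_of_complete h1
    exact ⟨e, (tendsto_iff_tendstoUniformly.1 hg).tendsto_of_eventually_tendsto
      (Eventually.of_forall hc) (he.smul_const _)⟩
  · obtain ⟨k, hk⟩ := (Metric.tendsto_nhds.1 hg _ (half_pos hε)).exists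
    obtain ⟨S, hS⟩ := (d.mem_alg.1 (hf k)).2 _ (half_pos hε)
    refine ⟨S, hS.mono fun n h1 h2 => ?_⟩
    have h3 := dist_coe_le_dist (f := f k) (g := g) n
    rw [dist_eq_norm] at h3
    linarith [h1 h2, norm_sub_norm_le (g n) (f k n), norm_sub_rev (g n) (f k n)]

/-- The ambient algebra. -/
noncomputable def amb (G M : Type) [TopologicalSpace G] [CStarAlgebra M] : CS where
  X := G →ᵇ M

/-- The C*-algebra. -/
noncomputable def AD.cs : CS := (amb G M).sub d.alg d.closed

/-- The underlying function. -/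
noncomputable def AD.val : d.cs.X →L[ℂ] (G →ᵇ M) := d.alg.toSubmodule.subtypeL

omit [DiscreteTopology G] in
lemma AD.val_mem (a : d.cs.X) : (∀ α, ∃ c, d.Lim α (d.val a) c) ∧ d.Sm (d.val a) :=
  d.mem_alg.1 (Subtype.property (p := fun a => a ∈ d.alg) a)

omit [DiscreteTopology G] in
lemma AD.val_mul (a b : d.cs.X) : d.val (a * b) = d.val a * d.val b := rfl

omit [DiscreteTopology G] in
lemma AD.norm_val (a : d.cs.X) : ‖d.val a‖ = ‖a‖ := rfl

omit [DiscreteTopology G] in
lemma AD.ext {a b : d.cs.X} (h : ∀ n, d.val a n = d.val b n) : a = b :=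
  Subtype.ext (BoundedContinuousFunction.ext h)

/-- The characters. -/
noncomputable def AD.lam0 (α : W) (a : d.cs.X) : ℂ := ((d.val_mem a).1 α).choose

omit [DiscreteTopology G] in
lemma AD.lim0 (α : W) (a : d.cs.X) : d.Lim α (d.val a) (d.lam0 α a) :=
  ((d.val_mem a).1 α).choose_spec

/-- The characters as linear maps. -/
noncomputable def AD.lam (α : W) : d.cs.X →ₗ[ℂ] ℂ where
  toFun := d.lam0 α
  map_add' a b := (d.lim0 α _).unique (by rw [map_add]; exact (d.lim0 α a).add (d.lim0 α b))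
  map_smul' c a := (d.lim0 α _).unique (by rw [map_smul]; exact (d.lim0 α a).smul c)

omit [DiscreteTopology G] in
lemma AD.lim (α : W) (a : d.cs.X) : d.Lim α (d.val a) (d.lam α a) := d.lim0 α a

omit [DiscreteTopology G] in
lemma AD.lam_supp (a : d.cs.X) : {α | d.lam α a ≠ 0}.Countable := by
  choose S hS using fun k : ℕ => (d.val_mem a).2 (1 / ((k : ℝ) + 1)) (by positivity)
  refine (countable_iUnion fun k => (S k).countable_toSet).mono fun α hα => ?_
  by_contra h
  simp only [mem_iUnion, Finset.mem_coe, not_exists] at h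
  refine hα (norm_le_zero_iff.1 (ge_of_tendsto' tendsto_one_div_add_atTop_nhds_zero_nat fun k => ?_))
  have h1 : ∀ᶠ n in d.F α, ∀ β ∈ S k, n ∉ d.A β := (eventually_all_finset _).2 fun β hβ =>
    d.ev_iff.2 ((d.ad α β fun e => h k (e ▸ hβ)).subset fun n hn => ⟨hn.1, not_not.1 hn.2⟩)
  have h2 := le_of_tendsto (Tendsto.norm (d.lim α a))
    (((hS k).filter_mono inf_le_left).mp (h1.mono fun n h3 h4 => h4 h3))
  rwa [norm_smul, d.norm_p, mul_one] at h2

/-- The generators along the family. -/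
noncomputable def AD.u0 (α : W) : G →ᵇ M :=
  ofNormedAddCommGroupDiscrete ((d.A α).indicator fun _ => d.p α) 1 fun _ =>
    (norm_indicator_le_norm_self _ _).trans (d.norm_p α).le

lemma AD.norm_u0 (α : W) : ‖d.u0 α‖ ≤ 1 := (norm_le zero_le_one).2 fun n =>
  (norm_indicator_le_norm_self (s := d.A α) (fun _ => d.p α) n).trans (d.norm_p α).le

lemma AD.u0_pos {α : W} {n : G} (h : n ∈ d.A α) : d.u0 α n = d.p α :=
  indicator_of_mem h fun _ => d.p α

lemma AD.u0_neg {α : W} {n : G} (h : n ∉ d.A α) : d.u0 α n = 0 :=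
  indicator_of_notMem h fun _ => d.p α

lemma AD.lim_same (α : W) : d.Lim α (d.u0 α) 1 := by
  unfold AD.Lim
  rw [one_smul]
  exact tendsto_const_nhds.congr' (d.ev_iff.2 (finite_empty.subset fun n hn =>
    hn.2 (d.u0_pos hn.1).symm))

lemma AD.lim_ne {α β : W} (h : α ≠ β) : d.Lim α (d.u0 β) 0 := by
  unfold AD.Lim
  rw [zero_smul]
  exact tendsto_const_nhds.congr' (d.ev_iff.2 ((d.ad α β h).subset fun n hn =>
    ⟨hn.1, not_not.1 fun h' => hn.2 (d.u0_neg h').symm⟩))

/-- The generators as elements of the algebra. -/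
noncomputable def AD.u (α : W) : d.cs.X :=
  (⟨d.u0 α, d.mem_alg.2 ⟨fun β => by
      by_cases h : β = α
      · exact ⟨1, h ▸ d.lim_same β⟩
      · exact ⟨0, d.lim_ne h⟩,
    fun ε hε => ⟨{α}, Eventually.of_forall fun n h => by
      rw [d.u0_neg (h α (Finset.mem_singleton_self α)), norm_zero]; exact hε.le⟩⟩⟩ : d.alg)

lemma AD.val_u (α : W) : d.val (d.u α) = d.u0 α := rfl

open Classical in
/-- Functions supported at a point. -/
noncomputable def sg0 (n : G) (m : M) : G →ᵇ M :=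
  ofNormedAddCommGroupDiscrete (fun k => if k = n then m else 0) ‖m‖ fun k => by
    split_ifs
    · exact le_rfl
    · exact norm_zero.trans_le (norm_nonneg _)

lemma sg0_pos (n : G) (m : M) : sg0 n m n = m := if_pos rfl

lemma sg0_neg {n k : G} (h : k ≠ n) (m : M) : sg0 n m k = 0 := if_neg h

lemma AD.sg0_mem (n : G) (m : M) : sg0 n m ∈ d.alg := by
  have h : ∀ᶠ k in cofinite, sg0 n m k = 0 :=
    (eventually_cofinite_ne n).mono fun k hk => sg0_neg hk m
  refine d.mem_alg.2 ⟨fun α => ⟨0, ?_⟩, fun ε hε => ⟨∅, h.mono fun k hk _ => ?_⟩⟩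
  · unfold AD.Lim
    rw [zero_smul]
    exact tendsto_const_nhds.congr' ((h.filter_mono inf_le_left).mono fun k hk => hk.symm)
  · rw [hk, norm_zero]; exact hε.le

/-- Point-supported elements of the algebra. -/
noncomputable def AD.sg (n : G) (m : M) : d.cs.X := (⟨sg0 n m, d.sg0_mem n m⟩ : d.alg)

lemma AD.val_sg (n : G) (m : M) : d.val (d.sg n m) = sg0 n m := rfl

theorem AD.not_hered [Countable G] (hW : ¬ (univ : Set W).Countable) :
    ¬ Hereditary d.cs.alg := by
  let _ : TopologicalSpace W := ⊥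
  have _ : DiscreteTopology W := ⟨rfl⟩
  refine HS.not_hered d.cs.alg hW d.lam0 (fun α => (d.lam α).isLinear)
    (fun α a b => (d.lim0 α _).unique ((d.lim0 α a).mul (d.lim0 α b))) (fun α a => (d.lim0 α a).le)
    d.lam_supp d.u d.norm_u0
    (fun α => (d.lim0 α _).unique (d.lim_same α)) (fun n => d.sg n 1)
    (fun n (a : d.cs.X) => d.ext fun k => ?_) fun (b : d.cs.X) hb => d.ext fun k => ?_
  · change sg0 n (1 : M) k * d.val a k = d.val a k * sg0 n (1 : M) k
    by_cases h : k = n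
    · rw [h, sg0_pos, one_mul, mul_one]
    · rw [sg0_neg h, zero_mul, mul_zero]
  · have h : sg0 k (1 : M) k * d.val b k = d.val 0 k := congrArg (fun z => d.val z k) (hb k)
    rwa [sg0_pos, one_mul] at h

omit [DiscreteTopology G] in
lemma AD.countable_supp (B : Set d.cs.X) (hB : ∀ a ∈ B, ∀ b ∈ B, a * b = b * a) :
    {α | ∃ b ∈ B, d.lam α b ≠ 0}.Countable := by
  classical
  let f : G → ℝ := fun n => if h : ∃ b ∈ B, d.D (d.val b n) ≠ 0 then
    (d.O (d.val h.choose n) / d.D (d.val h.choose n)).re else 0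
  have hf : ∀ n, ∀ b ∈ B, d.D (d.val b n) ≠ 0 →
      f n = (d.O (d.val b n) / d.D (d.val b n)).re := by
    intro n b hb h0
    have h : ∃ b ∈ B, d.D (d.val b n) ≠ 0 := ⟨b, hb, h0⟩
    simp only [f, dif_pos h]
    congr 1
    rw [div_eq_div_iff h.choose_spec.2 h0, mul_comm, mul_comm (d.O _)]
    exact d.comm _ _ (congrArg (fun z => d.val z n) (hB b hb _ h.choose_spec.1))
  have ht : ∀ α, (∃ b ∈ B, d.lam α b ≠ 0) → Tendsto f (d.F α) (𝓝 (d.r α)) := by
    rintro α ⟨b, hb, h0⟩
    have h1 := (d.D.continuous.tendsto _).comp (d.lim α b)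
    have h2 := (d.O.continuous.tendsto _).comp (d.lim α b)
    rw [map_smul, smul_eq_mul] at h1 h2
    have h3 := mul_ne_zero h0 (d.hD α)
    have h4 := (Complex.continuous_re.tendsto _).comp (h2.div h1 h3)
    rw [mul_div_mul_left _ _ h0, d.hO, Complex.ofReal_re] at h4
    exact h4.congr' ((h1.eventually_ne h3).mono fun n hn => (hf n b hb hn).symm)
  refine cut _ d.r d.inj fun q => d.luz _ _ {n | f n < q} (fun α hα => ?_) fun α hα => ?_
  · exact d.ev_iff.1 ((ht α hα.1).eventually_lt_const hα.2)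
  · exact (d.ev_iff.1 ((ht α hα.1).eventually_const_lt hα.2)).subset fun n hn =>
      ⟨hn.1, not_lt.2 (le_of_lt hn.2)⟩

lemma AD.sg_cont (n : G) : Continuous (d.sg n) := by
  refine (LipschitzWith.of_dist_le_mul (K := 1) fun x y => ?_).continuous
  rw [dist_eq_norm, ← d.norm_val, map_sub, NNReal.coe_one, one_mul, dist_eq_norm]
  refine (norm_le (norm_nonneg _)).2 fun k => ?_
  change ‖sg0 n x k - sg0 n y k‖ ≤ _
  by_cases h : k = n
  · rw [h, sg0_pos, sg0_pos]
  · rw [sg0_neg h, sg0_neg h, sub_zero, norm_zero]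
    exact norm_nonneg _

theorem AD.sep [Countable G] [TopologicalSpace.SeparableSpace M] (B : Set d.cs.X)
    (hB : ∀ a ∈ B, ∀ b ∈ B, a * b = b * a) : TopologicalSpace.IsSeparable B := by
  classical
  have hU := d.countable_supp B hB
  set U := {α | ∃ b ∈ B, d.lam α b ≠ 0}
  let s : Set d.cs.X := d.u '' U ∪ ⋃ n, range (d.sg n)
  have hs : TopologicalSpace.IsSeparable s := (hU.image _).isSeparable.union
    (TopologicalSpace.IsSeparable.iUnion fun n => TopologicalSpace.isSeparable_range (d.sg_cont n))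
  refine (hs.span (R := ℂ)).closure.mono fun a ha => Metric.mem_closure_iff.2 fun ε hε => ?_
  obtain ⟨S, hS⟩ := (d.val_mem a).2 _ (half_pos hε)
  let b : d.cs.X := ∑ α ∈ S, d.lam α a • d.u α
  have hb : b ∈ Submodule.span ℂ s := Submodule.sum_mem _ fun α _ => by
    by_cases h : d.lam α a = 0
    · rw [h, zero_smul]; exact Submodule.zero_mem _
    · exact Submodule.smul_mem _ _ (Submodule.subset_span (Or.inl ⟨α, ⟨a, ha, h⟩, rfl⟩))
  have h1 : ∀ α ∈ S, ∀ᶠ n in cofinite, n ∈ d.A α → ‖d.val (a - b) n‖ ≤ ε / 2 := by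
    intro α hα
    have e : d.lam α (a - b) = 0 := by
      simp only [b, map_sub, map_sum, map_smul]
      rw [Finset.sum_eq_single_of_mem α hα fun β _ h => by
        rw [(d.lim α (d.u β)).unique (d.lim_ne h.symm), smul_zero],
        (d.lim α (d.u α)).unique (d.lim_same α), smul_eq_mul, mul_one, sub_self]
    have h2 := Tendsto.norm (d.lim α (a - b))
    rw [e, zero_smul, norm_zero] at h2
    exact eventually_inf_principal.1 ((h2.eventually_lt_const (half_pos hε)).mono fun n h => h.le)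
  have h2 : ∀ᶠ n in cofinite, ‖d.val (a - b) n‖ ≤ ε / 2 := by
    filter_upwards [hS, (eventually_all_finset S).2 h1] with n h3 h4
    by_cases h : ∃ α ∈ S, n ∈ d.A α
    · obtain ⟨α, h5, h6⟩ := h
      exact h4 α h5 h6
    · have h5 : ∀ α ∈ S, n ∉ d.A α := fun α h5 h6 => h ⟨α, h5, h6⟩
      have e : d.val b n = 0 := by
        simp only [b, map_sum, map_smul, BoundedContinuousFunction.sum_apply]
        exact Finset.sum_eq_zero fun α hα => by
          rw [BoundedContinuousFunction.smul_apply, d.val_u, d.u0_neg (h5 α hα), smul_zero]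
      rw [map_sub, BoundedContinuousFunction.sub_apply, e, sub_zero]
      exact h3 h5
  have hT := eventually_cofinite.1 h2
  let c : d.cs.X := ∑ n ∈ hT.toFinset, d.sg n (d.val (a - b) n)
  have hc : c ∈ Submodule.span ℂ s := Submodule.sum_mem _ fun n _ =>
    Submodule.subset_span (Or.inr (mem_iUnion.2 ⟨n, _, rfl⟩))
  refine ⟨b + c, Submodule.add_mem _ hb hc, ?_⟩
  rw [dist_eq_norm, ← sub_sub, ← d.norm_val, map_sub]
  refine lt_of_le_of_lt ((norm_le (half_pos hε).le).2 fun k => ?_) (half_lt_self hε)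
  rw [BoundedContinuousFunction.sub_apply]
  simp only [c, map_sum, BoundedContinuousFunction.sum_apply, d.val_sg]
  by_cases hk : k ∈ hT.toFinset
  · rw [Finset.sum_eq_single_of_mem k hk fun n _ h => sg0_neg h.symm _, sg0_pos, sub_self, norm_zero]
    exact (half_pos hε).le
  · rw [Finset.sum_eq_zero fun n hn => sg0_neg (fun h : k = n => hk (h ▸ hn)) _, sub_zero]
    exact not_not.1 fun h => hk (hT.mem_toFinset.2 h)

end Pool.Agent.Lib.helper3.HS
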