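import Pool.Agent.Lib.helper3.HAlg

namespace Pool.Agent.Lib.helper3.HS

open Set

/-- Two by two matrices. -/
def M2 : Type := Matrix (Fin 2) (Fin 2) ℂ

noncomputable instance : CStarAlgebra M2 := Matrix.instCStarAlgebra (n := Fin 2)

instance : FiniteDimensional ℂ M2 :=
  inferInstanceAs (FiniteDimensional ℂ (Matrix (Fin 2) (Fin 2) ℂ))

instance : TopologicalSpace.SeparableSpace M2 := by
  have := FiniteDimensional.proper ℂ M2
  infer_instance

/-- Matrix entries. -/
def ent (i j : Fin 2) : M2 →ₗ[ℂ] ℂ where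
  toFun x := (show Matrix (Fin 2) (Fin 2) ℂ from x) i j
  map_add' _ _ := rfl
  map_smul' _ _ := rfl

lemma ent_mul (x y : M2) (i j : Fin 2) :
    ent i j (x * y) = ent i 0 x * ent 0 j y + ent i 1 x * ent 1 j y := by
  change ((show Matrix (Fin 2) (Fin 2) ℂ from x) * (show Matrix (Fin 2) (Fin 2) ℂ from y)) i j = _
  rw [Matrix.mul_apply, Fin.sum_univ_two]
  rfl

lemma ent_star (x : M2) (i j : Fin 2) : ent i j (star x) = star (ent j i x) := rfl

lemma ent_ext {x y : M2} (h : ∀ i j, ent i j x = ent i j y) : x = y := Matrix.ext h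

/-- Rank-one projections. -/
noncomputable def pr (t : ℝ) : M2 :=
  Matrix.of fun i j : Fin 2 => ((t ^ (i.val + j.val) / (1 + t ^ 2) : ℝ) : ℂ)

lemma ent_pr (t : ℝ) (i j : Fin 2) :
    ent i j (pr t) = ((t ^ (i.val + j.val) / (1 + t ^ 2) : ℝ) : ℂ) := rfl

theorem main : ∃ A : CS, ¬ Hereditary A.alg ∧ ∀ (B : NonUnitalStarSubalgebra ℂ A.X)
    (hc : IsClosed (B : Set A.X)), (∀ a ∈ B, ∀ b ∈ B, a * b = b * a) →
      Hereditary (A.sub B hc).alg := by
  obtain ⟨W, A, t, hW, ht, ht', h1, h2, h3⟩ := luzin
  have hp : ∀ α, 0 < 1 - t α ^ 2 := fun α => by nlinarith [(ht' α).1, (ht' α).2]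
  have hD : ∀ α, (ent 0 0 - ent 1 1) (pr (t α)) = (((1 - t α ^ 2) / (1 + t α ^ 2) : ℝ) : ℂ) := by
    intro α
    rw [LinearMap.sub_apply, ent_pr, ent_pr, ← Complex.ofReal_sub, sub_div]
    norm_num
  let d : AD M2 (ℕ × ℕ) W :=
    { A := A
      inf := h1
      ad := h2
      luz := h3
      p := fun α => pr (t α)
      idem := fun α => ent_ext fun i j => by
        rw [ent_mul]
        simp only [ent_pr, ← Complex.ofReal_mul, ← Complex.ofReal_add]
        congr 1
        have : 0 < 1 + t α ^ 2 := by positivity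
        simp only [Fin.val_zero, Fin.val_one, pow_add]
        field_simp
      sa := fun α => ent_ext fun i j => by
        rw [ent_star, ent_pr, ent_pr, add_comm j.val]
        exact Complex.conj_ofReal _
      D := LinearMap.toContinuousLinearMap (ent 0 0 - ent 1 1)
      O := LinearMap.toContinuousLinearMap (ent 0 1)
      comm := fun x y h => by
        have := congrArg (ent 0 1) h
        rw [ent_mul, ent_mul] at this
        change (ent 0 0 x - ent 1 1 x) * ent 0 1 y = (ent 0 0 y - ent 1 1 y) * ent 0 1 x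
        linear_combination this
      r := fun α => t α / (1 - t α ^ 2)
      inj := fun α β h => ht (by
        have h4 := (div_eq_div_iff (hp α).ne' (hp β).ne').1 h
        have h5 : (t α - t β) * (1 + t α * t β) = 0 := by linear_combination h4
        have h6 : 0 < 1 + t α * t β := by have := mul_pos (ht' α).1 (ht' β).1; linarith
        exact sub_eq_zero.1 ((mul_eq_zero.1 h5).resolve_right h6.ne'))
      hD := fun α => by
        change (ent 0 0 - ent 1 1) (pr (t α)) ≠ 0
        rw [hD]
        have := hp α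
        exact Complex.ofReal_ne_zero.2 (by positivity)
      hO := fun α => by
        change ent 0 1 (pr (t α)) / (ent 0 0 - ent 1 1) (pr (t α)) = _
        rw [hD, ent_pr, ← Complex.ofReal_div]
        congr 1
        have := hp α
        have : 0 < 1 + t α ^ 2 := by positivity
        simp only [Fin.val_zero, Fin.val_one, zero_add, pow_one]
        field_simp }
  exact ⟨d.cs, d.not_hered hW, fun B hc hB => hered_of_sep _ (d.sep B hB).separableSpace⟩

end Pool.Agent.Lib.helper3.HS
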