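import Pool.Agent.Lib.helper3.HStmt

namespace Pool.Agent.Lib.helper3.HS

open KS Filter Topology

/-- Coefficients of modulus at most one. -/
def Sg (ε : ℕ → ℝ) : Prop := ∀ n, |ε n| ≤ 1

lemma sum_update {E : Type} [NormedAddCommGroup E] [NormedSpace ℂ E] (a : ℕ → E) (a0 : E)
    {S : Finset ℕ} {k : ℕ} (hk : k ∉ S) (ε : ℕ → ℝ) (c : ℝ) :
    a0 + (c : ℂ) • a k + ∑ n ∈ S, (ε n : ℂ) • a n =
      a0 + ∑ n ∈ insert k S, ((Function.update ε k c n : ℝ) : ℂ) • a n := by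
  rw [Finset.sum_insert hk, Function.update_self, add_assoc]
  congr 2
  refine Finset.sum_congr rfl fun n hn => ?_
  rw [Function.update_of_ne (fun h : n = k => hk (h ▸ hn))]

lemma Sg.update {ε : ℕ → ℝ} (h : Sg ε) (k : ℕ) {c : ℝ} (hc : |c| ≤ 1) :
    Sg (Function.update ε k c) := fun n => by
  by_cases hn : n = k
  · rw [hn, Function.update_self]; exact hc
  · rw [Function.update_of_ne hn]; exact h n

lemma sign {E F G : Type} [NormedAddCommGroup E] [NormedSpace ℂ E] [NormedAddCommGroup F]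
    [NormedSpace ℂ F] [NormedAddCommGroup G] [NormedSpace ℂ G] (b : E → F → G)
    (hl : ∀ y, IsLinearMap ℂ fun x => b x y) (hr : ∀ x, IsLinearMap ℂ (b x)) {C : ℝ} (hC : 0 ≤ C)
    (hb : ∀ x y, ‖b x y‖ ≤ C * ‖x‖ * ‖y‖) (a : ℕ → E) (y : ℕ → F) (α β : ℝ) (S : Finset ℕ) :
    ∀ a0 y0, (∀ ε, Sg ε → ‖a0 + ∑ n ∈ S, (ε n : ℂ) • a n‖ ≤ α) →
      (∀ ε, Sg ε → ‖y0 + ∑ n ∈ S, (ε n : ℂ) • y n‖ ≤ β) →
      ‖b a0 y0 + ∑ n ∈ S, b (a n) (y n)‖ ≤ C * α * β := by
  have h0 : Sg fun _ => 0 := fun _ => by simp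
  induction S using Finset.induction_on with
  | empty =>
    intro a0 y0 h1 h2
    have h1' := h1 _ h0
    have h2' := h2 _ h0
    simp only [Finset.sum_empty, add_zero] at h1' h2' ⊢
    refine (hb _ _).trans ?_
    have := (norm_nonneg a0).trans h1'
    gcongr
  | insert k S hk ih =>
    intro a0 y0 h1 h2
    have key : ∀ c : ℝ, |c| ≤ 1 → ‖b (a0 + (c : ℂ) • a k) (y0 + (c : ℂ) • y k) +
        ∑ n ∈ S, b (a n) (y n)‖ ≤ C * α * β := fun c hc =>
      ih _ _ (fun ε hε => by rw [sum_update a a0 hk]; exact h1 _ (hε.update k hc))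
        (fun ε hε => by rw [sum_update y y0 hk]; exact h2 _ (hε.update k hc))
    have k1 := key 1 (by simp)
    have k2 := key (-1) (by simp)
    have e : (2 : ℂ) • (b a0 y0 + ∑ n ∈ insert k S, b (a n) (y n)) =
        (b (a0 + ((1 : ℝ) : ℂ) • a k) (y0 + ((1 : ℝ) : ℂ) • y k) + ∑ n ∈ S, b (a n) (y n)) +
        (b (a0 + ((-1 : ℝ) : ℂ) • a k) (y0 + ((-1 : ℝ) : ℂ) • y k) + ∑ n ∈ S, b (a n) (y n)) := by
      have l1 : ∀ x x' y, b (x + x') y = b x y + b x' y := fun x x' y => (hl y).map_add x x'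
      have l2 : ∀ (c : ℂ) x y, b (c • x) y = c • b x y := fun c x y => (hl y).map_smul c x
      have r1 : ∀ x y y', b x (y + y') = b x y + b x y' := fun x y y' => (hr x).map_add y y'
      have r2 : ∀ (c : ℂ) x y, b x (c • y) = c • b x y := fun c x y => (hr x).map_smul c y
      rw [Finset.sum_insert hk]
      simp only [l1, l2, r1, r2]
      push_cast
      module
    have e2 := congrArg norm e
    rw [norm_smul, Complex.norm_two] at e2
    have := norm_add_le_of_le k1 k2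
    linarith

variable {A : BAlg}

lemma Mod.exists_bound (X : Mod A) : ∃ C, 0 ≤ C ∧ ∀ a x, ‖X.act a x‖ ≤ C * ‖a‖ * ‖x‖ := by
  obtain ⟨C, hC⟩ := X.bound
  refine ⟨max C 0, le_max_right _ _, fun a x => (hC a x).trans ?_⟩
  gcongr
  exact le_max_left _ _

lemma Mod.act_bdd (X : Mod A) (a : A.B.X) : IsBoundedLinearMap ℂ (X.act a) := by
  obtain ⟨C, -, hC⟩ := X.exists_bound
  exact (X.lin_right a).with_bound (C * ‖a‖) (hC a)

lemma bdd_sum {E F : Type} [NormedAddCommGroup E] [NormedSpace ℂ E] [NormedAddCommGroup F]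
    [NormedSpace ℂ F] {f : E → F} (hf : IsBoundedLinearMap ℂ f) (S : Finset ℕ) (x : ℕ → E) :
    f (∑ n ∈ S, x n) = ∑ n ∈ S, f (x n) := map_sum hf.toContinuousLinearMap x S

theorem proj_of_pu (A : BAlg) (I : Submodule ℂ A.B.X) (hc : IsClosed (I : Set A.B.X))
    (hI : ∀ a, ∀ x ∈ I, A.m a x ∈ I) (u v : ℕ → A.B.X) (hv : ∀ n, v n ∈ I)
    (h1 : ∀ (S : Finset ℕ) ε, Sg ε → ‖∑ n ∈ S, (ε n : ℂ) • v n‖ ≤ 3)
    (h2 : ∀ x (S : Finset ℕ) ε, Sg ε → ‖∑ n ∈ S, (ε n : ℂ) • A.m x (u n)‖ ≤ ‖x‖)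
    (h3 : ∀ x ∈ I, ∀ η > 0, ∃ N, ∀ S : Finset ℕ, (∀ n ∈ S, N ≤ n) → ∀ ε, Sg ε →
      ‖∑ n ∈ S, (ε n : ℂ) • A.m x (u n)‖ ≤ η)
    (h4 : ∀ x ∈ I, Tendsto (fun N => ∑ n ∈ Finset.range N, A.m (A.m x (u n)) (v n)) atTop (𝓝 x)) :
    Proj (ideal A I hc hI) := by
  intro X Y σ hσ ⟨r, hr, hσr⟩ φ hφ
  obtain ⟨C, hC0, hC⟩ := X.exists_bound
  let V : ℕ → (ideal A I hc hI).M.X := fun n => (⟨v n, hv n⟩ : I)
  let val : (ideal A I hc hI).M.X →L[ℂ] A.B.X := I.subtypeL
  have hval : ∀ x, ‖val x‖ = ‖x‖ := fun _ => rfl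
  have hrφ := hr.comp hφ.1
  obtain ⟨K, hK0, hK⟩ := hrφ.bound
  let w : ℕ → X.M.X := fun n => r (φ (V n))
  have hw : ∀ (S : Finset ℕ) ε, Sg ε → ‖0 + ∑ n ∈ S, (ε n : ℂ) • w n‖ ≤ K * 3 := by
    intro S ε hε
    have e : ∑ n ∈ S, (ε n : ℂ) • w n = r (φ (∑ n ∈ S, (ε n : ℂ) • V n)) := by
      refine Eq.symm ((bdd_sum hrφ S _).trans (Finset.sum_congr rfl fun n _ => ?_))
      exact hrφ.map_smul _ _
    rw [zero_add, e]
    refine (hK _).trans (mul_le_mul_of_nonneg_left ?_ hK0.le)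
    rw [← hval, map_sum]
    simp only [map_smul]
    exact h1 S ε hε
  let f : (ideal A I hc hI).M.X → ℕ → X.M.X := fun x n => X.act (A.m (val x) (u n)) (w n)
  have hf : ∀ x (S : Finset ℕ) (η : ℝ),
      (∀ ε, Sg ε → ‖∑ n ∈ S, (ε n : ℂ) • A.m (val x) (u n)‖ ≤ η) →
      ‖∑ n ∈ S, f x n‖ ≤ C * η * (K * 3) := by
    intro x S η hη
    have := sign X.act X.lin_left X.lin_right hC0 hC (fun n => A.m (val x) (u n)) w η (K * 3) S 0 0
      (fun ε hε => by rw [zero_add]; exact hη ε hε) (hw S)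
    rwa [(X.lin_right 0).map_zero, zero_add] at this
  have hs : ∀ x, Summable (f x) := by
    intro x
    refine summable_iff_vanishing_norm.2 fun δ hδ => ?_
    have hp : 0 < δ / (2 * (C + 1) * (K * 3)) := by positivity
    obtain ⟨N, hN⟩ := h3 (val x) (Subtype.property (p := fun y => y ∈ I) x) _ hp
    refine ⟨Finset.range N, fun S hS => ?_⟩
    refine (hf x S _ (hN S fun n hn => ?_)).trans_lt ?_
    · have := Finset.disjoint_left.1 hS hn
      rwa [Finset.mem_range, not_lt] at this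
    · have e : (C + 1) * (δ / (2 * (C + 1) * (K * 3))) * (K * 3) = δ / 2 := by field_simp
      have : C * (δ / (2 * (C + 1) * (K * 3))) * (K * 3) ≤
          (C + 1) * (δ / (2 * (C + 1) * (K * 3))) * (K * 3) := by gcongr; linarith
      linarith
  refine ⟨fun x => ∑' n, f x n, ⟨IsLinearMap.with_bound ⟨fun x y => ?_, fun c x => ?_⟩
    (C * (K * 3)) fun x => ?_, fun a x => ?_⟩, fun x => ?_⟩
  · rw [← (hs x).tsum_add (hs y)]
    refine tsum_congr fun n => ?_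
    simp only [f]
    rw [map_add, (A.lin_left (u n)).map_add, (X.lin_left (w n)).map_add]
  · rw [← (hs x).tsum_const_smul c]
    refine tsum_congr fun n => ?_
    simp only [f]
    rw [map_smul, (A.lin_left (u n)).map_smul, (X.lin_left (w n)).map_smul]
  · refine le_of_tendsto' (hs x).hasSum.tendsto_sum_nat.norm fun N => ?_
    refine (hf x _ ‖x‖ fun ε hε => h2 _ _ ε hε).trans_eq (by ring)
  · have := (X.act_bdd a).toContinuousLinearMap.map_tsum (hs x)
    refine Eq.trans (tsum_congr fun n => ?_) this.symm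
    change X.act (A.m (A.m a (val x)) (u n)) (w n) = X.act a (X.act (A.m (val x) (u n)) (w n))
    rw [A.assoc, X.act_mul]
  · have t1 := ((hσ.1.continuous.tendsto _).comp (hs x).hasSum.tendsto_sum_nat)
    let g : ℕ → (ideal A I hc hI).M.X := fun n => (ideal A I hc hI).act (A.m (val x) (u n)) (V n)
    have t2 : Tendsto (fun N => ∑ n ∈ Finset.range N, g n) atTop (𝓝 x) := by
      refine (Topology.IsInducing.subtypeVal.tendsto_nhds_iff).2 ?_
      refine (h4 (val x) (Subtype.property (p := fun y => y ∈ I) x)).congr fun N => ?_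
      exact (map_sum val g (Finset.range N)).symm
    have t3 := (hφ.1.continuous.tendsto _).comp t2
    refine tendsto_nhds_unique t1 (t3.congr fun N => ?_)
    simp only [Function.comp]
    rw [bdd_sum hφ.1, bdd_sum hσ.1]
    refine Finset.sum_congr rfl fun n _ => ?_
    simp only [g, f, w]
    rw [hφ.2, hσ.2, hσr]

end Pool.Agent.Lib.helper3.HS
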