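import Pool.Agent.Lib.helper3.HSep1

namespace Pool.Agent.Lib.helper3.HS

open KS Filter Topology

/-- Ramp functions. -/
noncomputable def G (n : ℕ) (t : ℝ) : ℝ := min 1 (max 0 (2 ^ n * t - 1))

lemma G_cont (n : ℕ) : Continuous (G n) := by unfold G; fun_prop

lemma G_nonneg (n : ℕ) (t : ℝ) : 0 ≤ G n t := le_min zero_le_one (le_max_left _ _)

lemma G_le (n : ℕ) (t : ℝ) : G n t ≤ 1 := min_le_left _ _

lemma G_eq_zero {n : ℕ} {t : ℝ} (h : 2 ^ n * t ≤ 1) : G n t = 0 := by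
  unfold G
  rw [max_eq_left (by linarith), min_eq_right zero_le_one]

lemma G_eq_one {n : ℕ} {t : ℝ} (h : 2 ≤ 2 ^ n * t) : G n t = 1 :=
  min_eq_left (le_max_of_le_right (by linarith))

lemma G_zero (n : ℕ) : G n 0 = 0 := G_eq_zero (by simp)

lemma G_mono (n : ℕ) (t : ℝ) : G n t ≤ G (n + 1) t := by
  rcases le_or_gt (2 ^ n * t) 1 with h | h
  · rw [G_eq_zero h]; exact G_nonneg _ _
  · rw [G_eq_one (n := n + 1) (by rw [pow_succ]; linarith)]; exact G_le _ _

/-- Differences of ramps. -/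
noncomputable def Df (k n : ℕ) (t : ℝ) : ℝ := G (n + k + 1) t - G (n + k) t

lemma Df_nonneg (k n : ℕ) (t : ℝ) : 0 ≤ Df k n t := sub_nonneg.2 (G_mono _ _)

lemma sum_Df (k N : ℕ) (t : ℝ) : ∑ n ∈ Finset.range N, Df k n t = G (N + k) t - G k t := by
  induction N with
  | zero => simp
  | succ N ih => rw [Finset.sum_range_succ, ih, Df, add_right_comm N 1 k]; ring

lemma sum_Df_le (k : ℕ) (S : Finset ℕ) (ε : ℕ → ℝ) (hε : Sg ε) (t : ℝ) :
    |∑ n ∈ S, ε n * Df k n t| ≤ 1 := by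
  obtain ⟨N, hN⟩ := S.exists_nat_subset_range
  refine (Finset.abs_sum_le_sum_abs _ _).trans ?_
  have h1 : ∑ n ∈ S, |ε n * Df k n t| ≤ ∑ n ∈ S, Df k n t := Finset.sum_le_sum fun n _ => by
    rw [abs_mul, abs_of_nonneg (Df_nonneg k n t)]
    exact mul_le_of_le_one_left (Df_nonneg k n t) (hε n)
  have h2 := Finset.sum_le_sum_of_subset_of_nonneg hN fun n _ _ => Df_nonneg k n t
  rw [sum_Df] at h2
  linarith [G_le (N + k) t, G_nonneg k t]

/-- The larger bumps. -/
noncomputable def Vf (n : ℕ) (t : ℝ) : ℝ := Df 0 n t + Df 1 n t + Df 2 n t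

lemma Df_mul_Vf (n : ℕ) (t : ℝ) : Df 1 n t * Vf n t = Df 1 n t := by
  have e : Vf n t = G (n + 3) t - G n t := by simp only [Vf, Df, add_zero]; ring
  rw [e]
  rcases le_or_gt (2 ^ (n + 2) * t) 1 with h | h
  · have h2 : Df 1 n t = 0 := le_antisymm
      (by rw [Df, G_eq_zero (n := n + 1 + 1) h]; linarith [G_nonneg (n + 1) t]) (Df_nonneg _ _ _)
    rw [h2, zero_mul]
  · rcases le_or_gt (2 ^ n * t) 1 with h' | h'
    · rw [G_eq_zero h', G_eq_one (n := n + 3) (by rw [pow_succ]; linarith)]; ring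
    · have h2 : Df 1 n t = 0 := le_antisymm
        (by rw [Df, G_eq_one (n := n + 1) (by rw [pow_succ]; linarith)]
            linarith [G_le (n + 1 + 1) t]) (Df_nonneg _ _ _)
      rw [h2, zero_mul]

lemma Df_tail {N n : ℕ} (hn : N ≤ n) {t : ℝ} (ht : (1 / 2) ^ N ≤ t) : Df 1 n t = 0 := by
  have h0 : (0 : ℝ) < (1 / 2) ^ N := by positivity
  have h1 : (1 : ℝ) ≤ 2 ^ n * t := by
    calc (1 : ℝ) = 2 ^ N * (1 / 2) ^ N := by rw [← mul_pow]; norm_num
      _ ≤ 2 ^ n * t := by gcongr; norm_num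
  refine le_antisymm ?_ (Df_nonneg _ _ _)
  rw [Df, G_eq_one (n := n + 1) (by rw [pow_succ]; linarith)]
  linarith [G_le (n + 1 + 1) t]

lemma Df_cont (k n : ℕ) : Continuous (Df k n) := (G_cont _).sub (G_cont _)

lemma Df_zero (k n : ℕ) : Df k n 0 = 0 := by rw [Df, G_zero, G_zero, sub_zero]

lemma Vf_cont (n : ℕ) : Continuous (Vf n) := ((Df_cont _ _).add (Df_cont _ _)).add (Df_cont _ _)

lemma Vf_zero (n : ℕ) : Vf n 0 = 0 := by simp [Vf, Df_zero]

variable {X : Type} [NonUnitalCStarAlgebra X]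

lemma cfc_comb (h : X) (f : ℕ → ℝ → ℝ) (hf : ∀ n, Continuous (f n)) (h0 : ∀ n, f n 0 = 0)
    (S : Finset ℕ) (ε : ℕ → ℝ) :
    ∑ n ∈ S, (ε n : ℂ) • cfcₙ (f n) h = cfcₙ (fun t => ∑ n ∈ S, ε n * f n t) h := by
  have e : (fun t => ∑ n ∈ S, ε n * f n t) = ∑ n ∈ S, fun t => ε n * f n t := by
    funext t; rw [Finset.sum_apply]
  rw [e, cfcₙ_sum _ h S (fun n _ => ((hf n).const_mul _).continuousOn) (fun n _ => by simp [h0])]
  refine Finset.sum_congr rfl fun n _ => ?_
  rw [cfcₙ_const_mul _ _ h (hf n).continuousOn (h0 n), Complex.coe_smul]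

lemma exists_h [TopologicalSpace.SeparableSpace X] [PartialOrder X] [StarOrderedRing X]
    (I : Submodule ℂ X) (hc : IsClosed (I : Set X)) (hI : ∀ a, ∀ x ∈ I, a * x ∈ I) :
    ∃ h ∈ I, 0 ≤ h ∧ ‖h‖ ≤ 1 / 2 ∧ ∀ x ∈ I, ∀ η > 0, ∃ δ > 0, ∀ w, ‖w‖ ≤ 1 →
      ‖star w * h * w‖ ≤ δ → ‖x * w‖ ≤ η := by
  obtain ⟨z, hz⟩ := TopologicalSpace.exists_dense_seq I
  let d : ℕ → ℝ := fun k => (1 / 2) ^ (k + 1) / (1 + ‖(z k : X)‖)
  have hd : ∀ k, 0 < d k := fun k => by positivity
  let y : ℕ → X := fun k => (d k : ℂ) • (z k : X)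
  have hy : ∀ k, ‖y k‖ ≤ (1 / 2) ^ (k + 1) := fun k => by
    simp only [y, d]
    rw [norm_smul, Complex.norm_real, Real.norm_of_nonneg (by positivity), div_mul_eq_mul_div,
      div_le_iff₀ (by positivity)]
    gcongr
    linarith
  have hyy : ∀ k, ‖star (y k) * y k‖ ≤ (1 / 2) / 2 / 2 ^ k := fun k => by
    rw [CStarRing.norm_star_mul_self]
    have h1 : ‖y k‖ ≤ 1 / 2 := (hy k).trans (by
      rw [pow_succ]; exact mul_le_of_le_one_left (by norm_num) (pow_le_one₀ (by norm_num) (by norm_num)))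
    calc ‖y k‖ * ‖y k‖ ≤ (1 / 2) * (1 / 2) ^ (k + 1) := by gcongr; exact hy k
      _ = (1 / 2) / 2 / 2 ^ k := by rw [pow_succ, one_div_pow]; ring
  have hs : Summable fun k => star (y k) * y k :=
    Summable.of_norm_bounded (hasSum_geometric_two' (1 / 2)).summable hyy
  refine ⟨∑' k, star (y k) * y k, ?_, tsum_nonneg fun k => star_mul_self_nonneg _,
    tsum_of_norm_bounded (hasSum_geometric_two' (1 / 2)) hyy, fun x hx η hη => ?_⟩
  · exact hc.mem_of_tendsto hs.hasSum.tendsto_sum_nat (Eventually.of_forall fun N =>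
      I.sum_mem fun k _ => hI _ _ (I.smul_mem _ (z k).2))
  · obtain ⟨k, hk⟩ := hz.exists_dist_lt ⟨x, hx⟩ (half_pos hη)
    refine ⟨(d k * (η / 2)) ^ 2, by have := hd k; positivity, fun w hw hδ => ?_⟩
    have h1 : star (y k) * y k ≤ ∑' k, star (y k) * y k :=
      hs.le_tsum k fun j _ => star_mul_self_nonneg _
    have h2 := star_left_conjugate_le_conjugate h1 w
    have e : star w * (star (y k) * y k) * w = star (y k * w) * (y k * w) := by
      simp only [star_mul, mul_assoc]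
    rw [e] at h2
    have h3 := (CStarAlgebra.norm_le_norm_of_nonneg_of_le (star_mul_self_nonneg _) h2).trans hδ
    rw [CStarRing.norm_star_mul_self, ← sq] at h3
    have h4 := (pow_le_pow_iff_left₀ (norm_nonneg _) (by have := hd k; positivity) two_ne_zero).1 h3
    simp only [y] at h4
    rw [smul_mul_assoc, norm_smul, Complex.norm_real, Real.norm_of_nonneg (hd k).le] at h4
    have h5 := le_of_mul_le_mul_left h4 (hd k)
    have h6 : ‖(x - z k) * w‖ ≤ η / 2 := (norm_mul_le _ _).trans (by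
      have : ‖x - z k‖ < η / 2 := by rw [← dist_eq_norm]; exact hk
      nlinarith [norm_nonneg (x - z k)])
    have e2 : x * w = (x - z k) * w + z k * w := by rw [sub_mul, sub_add_cancel]
    rw [e2]
    linarith [norm_add_le ((x - z k) * w) (z k * w)]

theorem exists_pu [TopologicalSpace.SeparableSpace X] (I : Submodule ℂ X)
    (hc : IsClosed (I : Set X)) (hI : ∀ a, ∀ x ∈ I, a * x ∈ I) :
    ∃ u v : ℕ → X, (∀ n, v n ∈ I) ∧
      (∀ (S : Finset ℕ) ε, Sg ε → ‖∑ n ∈ S, (ε n : ℂ) • v n‖ ≤ 3) ∧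
      (∀ x (S : Finset ℕ) ε, Sg ε → ‖∑ n ∈ S, (ε n : ℂ) • (x * u n)‖ ≤ ‖x‖) ∧
      (∀ x ∈ I, ∀ η > 0, ∃ N, ∀ S : Finset ℕ, (∀ n ∈ S, N ≤ n) → ∀ ε, Sg ε →
        ‖∑ n ∈ S, (ε n : ℂ) • (x * u n)‖ ≤ η) ∧
      ∀ x ∈ I, Tendsto (fun N => ∑ n ∈ Finset.range N, x * u n * v n) atTop (𝓝 x) := by
  let _ := CStarAlgebra.spectralOrder X
  have _ := CStarAlgebra.spectralOrderedRing X
  obtain ⟨h, hhI, h0, hn, hA⟩ := exists_h I hc hI
  have hsa : IsSelfAdjoint h := IsSelfAdjoint.of_nonneg h0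
  have hσ : ∀ t ∈ quasispectrum ℝ h, 0 ≤ t ∧ t ≤ 1 / 2 := fun t ht =>
    ⟨quasispectrum_nonneg_of_nonneg h h0 t ht, by
      have := norm_apply_le_norm_cfcₙ (fun x : ℝ => x) h ht continuousOn_id rfl hsa
      rw [cfcₙ_id' ℝ h hsa] at this
      exact ((le_abs_self t).trans this).trans hn⟩
  let J : NonUnitalStarSubalgebra ℂ X :=
    { carrier := {a | a ∈ I ∧ star a ∈ I}
      add_mem' := fun ha hb => ⟨I.add_mem ha.1 hb.1, by rw [star_add]; exact I.add_mem ha.2 hb.2⟩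
      zero_mem' := ⟨I.zero_mem, by rw [star_zero]; exact I.zero_mem⟩
      mul_mem' := fun ha hb => ⟨hI _ _ hb.1, by rw [star_mul]; exact hI _ _ ha.2⟩
      smul_mem' := fun c _ ha => ⟨I.smul_mem _ ha.1, by rw [star_smul]; exact I.smul_mem _ ha.2⟩
      star_mem' := fun ha => ⟨ha.2, by rw [star_star]; exact ha.1⟩ }
  have _ : IsClosed (J : Set X) := hc.inter (hc.preimage continuous_star)
  have hmem : ∀ f : ℝ → ℝ, cfcₙ f h ∈ I := fun f =>
    (cfcₙ_mem (𝕜' := ℂ) (s := J) f (And.intro hhI (by rw [hsa.star_eq]; exact hhI))).1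
  have hmul : ∀ x (S : Finset ℕ) (ε : ℕ → ℝ), ∑ n ∈ S, (ε n : ℂ) • (x * cfcₙ (Df 1 n) h) =
      x * cfcₙ (fun t => ∑ n ∈ S, ε n * Df 1 n t) h := by
    intro x S ε
    rw [← cfc_comb h _ (Df_cont 1) (Df_zero 1), Finset.mul_sum]
    exact Finset.sum_congr rfl fun n _ => (mul_smul_comm _ _ _).symm
  have hone : ∀ (S : Finset ℕ) ε, Sg ε → ‖cfcₙ (fun t => ∑ n ∈ S, ε n * Df 1 n t) h‖ ≤ 1 :=
    fun S ε hε => norm_cfcₙ_le fun t _ => sum_Df_le 1 S ε hε t
  have htail : ∀ x ∈ I, ∀ η > 0, ∃ N, ∀ S : Finset ℕ, (∀ n ∈ S, N ≤ n) → ∀ ε, Sg ε →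
      ‖∑ n ∈ S, (ε n : ℂ) • (x * cfcₙ (Df 1 n) h)‖ ≤ η := by
    intro x hx η hη
    obtain ⟨δ, hδ, hw⟩ := hA x hx η hη
    obtain ⟨N, hN⟩ := exists_pow_lt_of_lt_one hδ (by norm_num : (1 / 2 : ℝ) < 1)
    refine ⟨N, fun S hS ε hε => ?_⟩
    rw [hmul]
    refine hw _ (hone S ε hε) ?_
    set g : ℝ → ℝ := fun t => ∑ n ∈ S, ε n * Df 1 n t with hg
    have gc : Continuous g := continuous_finsetSum _ fun n _ => (Df_cont 1 n).const_mul _
    have g0 : g 0 = 0 := by simp [hg, Df_zero]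
    have e : star (cfcₙ g h) * h * cfcₙ g h = cfcₙ (fun t => g t * t * g t) h := by
      rw [cfcₙ_mul (fun t => g t * t) g h (gc.mul continuous_id).continuousOn (mul_zero _)
        gc.continuousOn g0, cfcₙ_mul g (fun t => t) h gc.continuousOn g0 continuousOn_id rfl,
        cfcₙ_id' ℝ h hsa, IsSelfAdjoint.cfcₙ.star_eq]
    rw [e]
    refine norm_cfcₙ_le fun t ht => ?_
    rcases le_or_gt ((1 / 2 : ℝ) ^ N) t with h1 | h1
    · have : g t = 0 := Finset.sum_eq_zero fun n hn => by rw [Df_tail (hS n hn) h1, mul_zero]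
      rw [this, mul_zero, norm_zero]
      exact hδ.le
    · have h2 : |g t| ≤ 1 := sum_Df_le 1 S ε hε t
      rw [Real.norm_eq_abs, abs_mul, abs_mul, abs_of_nonneg (hσ t ht).1]
      have h3 := (hσ t ht).1
      calc |g t| * t * |g t| ≤ 1 * t * 1 := by gcongr
        _ ≤ δ := by linarith
  refine ⟨fun n => cfcₙ (Df 1 n) h, fun n => cfcₙ (Vf n) h, fun n => hmem _, fun S ε hε => ?_,
    fun x S ε hε => ?_, htail, fun x hx => ?_⟩
  · rw [cfc_comb h _ Vf_cont Vf_zero]
    refine norm_cfcₙ_le fun t _ => ?_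
    simp only [Vf, mul_add, Finset.sum_add_distrib]
    have h1 := sum_Df_le 0 S ε hε t
    have h2 := sum_Df_le 1 S ε hε t
    have h3 := sum_Df_le 2 S ε hε t
    refine (abs_add_three _ _ _).trans ?_
    linarith
  · rw [hmul]
    exact (norm_mul_le _ _).trans (mul_le_of_le_one_right (norm_nonneg _) (hone S ε hε))
  · have s1 : Sg fun _ => 1 := fun _ => by simp
    have hs : Summable fun n => x * cfcₙ (Df 1 n) h := by
      refine summable_iff_vanishing_norm.2 fun δ hδ => ?_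
      obtain ⟨N, hN⟩ := htail x hx _ (half_pos hδ)
      refine ⟨Finset.range N, fun S hS => ?_⟩
      have := hN S (fun n hn => by
        have := Finset.disjoint_left.1 hS hn
        rwa [Finset.mem_range, not_lt] at this) _ s1
      simp only [Complex.ofReal_one, one_smul] at this
      linarith
    have t1 := hs.hasSum.tendsto_sum_nat
    set z := ∑' n, x * cfcₙ (Df 1 n) h
    have hz : z ∈ I := hc.mem_of_tendsto t1 (Eventually.of_forall fun N =>
      I.sum_mem fun k _ => hI _ _ (hmem _))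
    have t2 : Tendsto (fun N => (x - ∑ n ∈ Finset.range N, x * cfcₙ (Df 1 n) h) * h) atTop
        (𝓝 0) := by
      refine squeeze_zero_norm (a := fun N => ‖x‖ * (1 / 2) ^ N) (fun N => ?_) ?_
      · have e1 := hmul x (Finset.range N) fun _ => 1
        simp only [Complex.ofReal_one, one_smul, one_mul, sum_Df] at e1
        have gc : Continuous fun t => G (N + 1) t - G 1 t := (G_cont _).sub (G_cont _)
        have g0 : (fun t => G (N + 1) t - G 1 t) 0 = 0 := by simp [G_zero]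
        have e2 : cfcₙ (fun t => t - (G (N + 1) t - G 1 t) * t) h =
            h - cfcₙ (fun t => G (N + 1) t - G 1 t) h * h := by
          rw [cfcₙ_sub (fun t => t) (fun t => (G (N + 1) t - G 1 t) * t) h continuousOn_id rfl
            (gc.mul continuous_id).continuousOn (mul_zero _),
            cfcₙ_mul (fun t => G (N + 1) t - G 1 t) (fun t => t) h gc.continuousOn g0
              continuousOn_id rfl, cfcₙ_id' ℝ h hsa]
        rw [e1, sub_mul, mul_assoc, ← mul_sub, ← e2]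
        refine (norm_mul_le _ _).trans (mul_le_mul_of_nonneg_left
          (norm_cfcₙ_le fun t ht => ?_) (norm_nonneg _))
        obtain ⟨h1, h2⟩ := hσ t ht
        rw [G_eq_zero (n := 1) (by linarith), sub_zero]
        have h3 := G_nonneg (N + 1) t
        have h4 := G_le (N + 1) t
        rcases le_or_gt ((1 / 2 : ℝ) ^ N) t with h5 | h5
        · have h6 : (1 : ℝ) ≤ 2 ^ N * t := by
            calc (1 : ℝ) = 2 ^ N * (1 / 2) ^ N := by rw [← mul_pow]; norm_num
              _ ≤ 2 ^ N * t := by gcongr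
          rw [G_eq_one (by rw [pow_succ]; linarith), one_mul, sub_self, norm_zero]
          positivity
        · rw [Real.norm_of_nonneg (by nlinarith)]
          nlinarith
      · have := (tendsto_pow_atTop_nhds_zero_of_lt_one (by norm_num : (0 : ℝ) ≤ 1 / 2)
          (by norm_num)).const_mul ‖x‖
        rwa [mul_zero] at this
    have e3 : (x - z) * h = 0 := tendsto_nhds_unique ((t1.const_sub x).mul_const h) t2
    have e4 : x - z = 0 := by
      set y := x - z
      have hp : 0 < 1 / (1 + ‖y‖) := by positivity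
      have h1 : ‖y * (((1 / (1 + ‖y‖) : ℝ) : ℂ) • star y)‖ ≤ 0 := le_of_forall_pos_le_add fun η hη => by
        obtain ⟨δ, hδ, hw⟩ := hA y (I.sub_mem hx hz) η hη
        rw [zero_add]
        refine hw _ ?_ ?_
        · rw [norm_smul, Complex.norm_real, Real.norm_of_nonneg hp.le, norm_star,
            div_mul_eq_mul_div, div_le_one (by positivity)]
          linarith
        · rw [star_smul, star_star, smul_mul_assoc, e3, smul_zero, zero_mul, norm_zero]
          exact hδ.le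
      rw [mul_smul_comm, norm_smul, Complex.norm_real, Real.norm_of_nonneg hp.le,
        CStarRing.norm_self_mul_star] at h1
      have h2 : ‖y‖ * ‖y‖ ≤ 0 := by
        by_contra h3
        exact absurd h1 (not_le.2 (mul_pos hp (not_le.1 h3)))
      exact norm_eq_zero.1 (by nlinarith [norm_nonneg y])
    rw [sub_eq_zero] at e4
    rw [← e4] at t1
    refine t1.congr fun N => Finset.sum_congr rfl fun n _ => ?_
    rw [mul_assoc, ← cfcₙ_mul (Df 1 n) (Vf n) h (Df_cont 1 n).continuousOn (Df_zero 1 n)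
      (Vf_cont n).continuousOn (Vf_zero n)]
    simp only [Df_mul_Vf]

theorem hered_of_sep (A : CS) (h : TopologicalSpace.SeparableSpace A.X) : Hereditary A.alg := by
  intro I hc hI
  obtain ⟨u, v, h0, h1, h2, h3, h4⟩ := exists_pu (X := A.X) I hc hI
  exact proj_of_pu A.alg I hc hI u v h0 h1 h2 h3 h4

end Pool.Agent.Lib.helper3.HS
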