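import Pool.Agent.Lib.helper3.KStmt

namespace Pool.Agent.Lib.helper3.HS

open KS

/-- A left Banach module with continuous action (any bound `C`). -/
structure Mod (A : BAlg) where
  M : Ban
  act : A.B.X → M.X → M.X
  lin_left : ∀ x, IsLinearMap ℂ fun a => act a x
  lin_right : ∀ a, IsLinearMap ℂ (act a)
  act_mul : ∀ a b x, act (A.m a b) x = act a (act b x)
  bound : ∃ C : ℝ, ∀ a x, ‖act a x‖ ≤ C * ‖a‖ * ‖x‖

variable {A : BAlg}

/-- `f` is a morphism of Banach modules. -/
def IsHom (P Q : Mod A) (f : P.M.X → Q.M.X) : Prop :=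
  IsBoundedLinearMap ℂ f ∧ ∀ a x, f (P.act a x) = Q.act a (f x)

/-- Projectivity: morphisms lift along admissible epimorphisms. -/
def Proj (P : Mod A) : Prop :=
  ∀ (X Y : Mod A) (σ : X.M.X → Y.M.X), IsHom X Y σ → HasLinRightInv σ →
    ∀ φ : P.M.X → Y.M.X, IsHom P Y φ → ∃ ψ : P.M.X → X.M.X, IsHom P X ψ ∧ ∀ x, σ (ψ x) = φ x

/-- A closed left ideal as a left module. -/
noncomputable def ideal (A : BAlg) (I : Submodule ℂ A.B.X) (hc : IsClosed (I : Set A.B.X))
    (hI : ∀ a, ∀ x ∈ I, A.m a x ∈ I) : Mod A where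
  M := Sub A.B I hc
  act a x := ⟨A.m a x.1, hI a x.1 x.2⟩
  lin_left x := ⟨fun a b => Subtype.ext ((A.lin_left x.1).map_add a b),
    fun c a => Subtype.ext ((A.lin_left x.1).map_smul c a)⟩
  lin_right a := ⟨fun x y => Subtype.ext ((A.lin_right a).map_add x.1 y.1),
    fun c x => Subtype.ext ((A.lin_right a).map_smul c x.1)⟩
  act_mul a b x := Subtype.ext (A.assoc a b x.1)
  bound := ⟨1, fun a x => by rw [one_mul]; exact A.norm_le a x.1⟩

/-- Every closed left ideal is projective. -/
def Hereditary (A : BAlg) : Prop :=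
  ∀ (I : Submodule ℂ A.B.X) (hc : IsClosed (I : Set A.B.X)) (hI : ∀ a, ∀ x ∈ I, A.m a x ∈ I),
    Proj (ideal A I hc hI)

/-- A C*-algebra (no unit assumed). -/
structure CS where
  X : Type
  [inst : NonUnitalCStarAlgebra X]

instance (A : CS) : NonUnitalCStarAlgebra A.X := A.inst

/-- The Banach space of a C*-algebra. -/
noncomputable def CS.ban (A : CS) : Ban where
  X := A.X

/-- The product. -/
def CS.mul (A : CS) (a b : A.X) : A.X := a * b

/-- The Banach algebra of a C*-algebra. -/
noncomputable def CS.alg (A : CS) : BAlg where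
  B := A.ban
  m := A.mul
  lin_left b := ⟨fun x y => add_mul (R := A.X) x y b, fun c x => smul_mul_assoc (β := A.X) c x b⟩
  lin_right a := ⟨fun x y => mul_add (R := A.X) a x y, fun c x => mul_smul_comm (β := A.X) c a x⟩
  assoc a b c := mul_assoc (G := A.X) a b c
  norm_le a b := norm_mul_le (α := A.X) a b

/-- A closed self-adjoint subalgebra as a C*-algebra. -/
noncomputable def CS.sub (A : CS) (B : NonUnitalStarSubalgebra ℂ A.X)
    (hc : IsClosed (B : Set A.X)) : CS where
  X := B
  inst := NonUnitalStarSubalgebra.nonUnitalCStarAlgebra B (h_closed := hc)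

end Pool.Agent.Lib.helper3.HS
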