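import Mathlib

set_option autoImplicit false

/-! Schwarz-Pick, escape of orbits to the boundary, and Szegő kernels in `ℓ²(ℕ) = H²`. -/

namespace Pool.Agent.Lib.H3Hardy

open Metric Filter Topology ComplexConjugate
open scoped InnerProductSpace

noncomputable def mob (a z : ℂ) : ℂ := (z - a) / (1 - conj a * z)

lemma den_ne {a z : ℂ} (ha : ‖a‖ < 1) (hz : ‖z‖ < 1) : 1 - conj a * z ≠ 0 := by
  intro h
  have := congrArg norm (sub_eq_zero.1 h)
  rw [norm_one, norm_mul, Complex.norm_conj] at this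
  nlinarith [norm_nonneg a, norm_nonneg z]

lemma mob_id {a z : ℂ} (ha : ‖a‖ < 1) (hz : ‖z‖ < 1) :
    (1 - ‖mob a z‖ ^ 2) * ‖1 - conj a * z‖ ^ 2 = (1 - ‖a‖ ^ 2) * (1 - ‖z‖ ^ 2) := by
  have := norm_pos_iff.2 (den_ne ha hz)
  rw [mob, norm_div, div_pow, sub_mul, div_mul_cancel₀ _ (by positivity)]
  simp only [Complex.sq_norm, Complex.normSq_apply, Complex.sub_re, Complex.sub_im, Complex.mul_re,
    Complex.mul_im, Complex.one_re, Complex.one_im, Complex.conj_re, Complex.conj_im]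
  ring

lemma one_sub_sq_pos {z : ℂ} (hz : ‖z‖ < 1) : 0 < 1 - ‖z‖ ^ 2 := by
  nlinarith [norm_nonneg z]

lemma pos_of_mul_pos_of_sq {x y : ℝ} (h : 0 < x * y ^ 2) : 0 < x := by
  by_contra hc
  nlinarith [sq_nonneg y]

lemma mob_lt {a z : ℂ} (ha : ‖a‖ < 1) (hz : ‖z‖ < 1) : ‖mob a z‖ < 1 := by
  have h := mob_id ha hz
  have h2 := mul_pos (one_sub_sq_pos ha) (one_sub_sq_pos hz)
  rw [← h] at h2
  have := pos_of_mul_pos_of_sq h2
  nlinarith [norm_nonneg (mob a z)]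

lemma mob_mob {a z : ℂ} (ha : ‖a‖ < 1) (hz : ‖z‖ < 1) : mob (-a) (mob a z) = z := by
  have h1 := den_ne ha hz
  have h2 := den_ne (a := -a) (by simpa using ha) (mob_lt ha hz)
  have h3 : mob a z * (1 - conj a * z) = z - a := div_mul_cancel₀ _ h1
  rw [mob, div_eq_iff h2, map_neg]
  linear_combination h3

lemma mob_diff {a : ℂ} (ha : ‖a‖ < 1) : DifferentiableOn ℂ (mob a) (ball 0 1) :=
  DifferentiableOn.div (by fun_prop) (by fun_prop) fun z hz => den_ne ha (by simpa using hz)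

lemma pick {φ : ℂ → ℂ} (hd : DifferentiableOn ℂ φ (ball 0 1)) (hm : ∀ z, ‖z‖ < 1 → ‖φ z‖ < 1)
    {w : ℂ} (hw : ‖w‖ < 1) :
    (∀ z, ‖z‖ < 1 → ‖mob (φ w) (φ z)‖ ≤ ‖mob w z‖) ∧
      ∀ z₀, ‖z₀‖ < 1 → z₀ ≠ w → ‖mob (φ w) (φ z₀)‖ = ‖mob w z₀‖ →
        ∀ z, ‖z‖ < 1 → ‖mob (φ w) (φ z)‖ = ‖mob w z‖ := by
  have hw' : ‖-w‖ < 1 := by simpa using hw
  let F : ℂ → ℂ := mob (φ w) ∘ φ ∘ mob (-w)
  have F1 : DifferentiableOn ℂ F (ball 0 1) :=
    (mob_diff (hm w hw)).comp (hd.comp (mob_diff hw') fun z hz => by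
      simpa using mob_lt hw' (by simpa using hz)) fun z hz => by
        simpa using hm _ (mob_lt hw' (by simpa using hz))
  have F0 : F 0 = 0 := by simp [F, mob]
  have F2 : Set.MapsTo F (ball 0 1) (closedBall (F 0) 1) := fun z hz => by
    rw [F0, mem_closedBall_zero_iff]
    exact (mob_lt (hm w hw) (hm _ (mob_lt hw' (by simpa using hz)))).le
  have F3 : ∀ z, ‖z‖ < 1 → F (mob w z) = mob (φ w) (φ z) := fun z hz => by
    simp [F, mob_mob hw hz]
  refine ⟨fun z hz => ?_, fun z₀ h0 hne he z hz => ?_⟩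
  · have := Complex.dist_le_dist_of_mapsTo_ball F1 F2 (z := mob w z) (by simpa using mob_lt hw hz)
    simpa [F0, F3 z hz] using this
  · have hn : mob w z₀ ≠ 0 := div_ne_zero (sub_ne_zero.2 hne) (den_ne hw h0)
    obtain ⟨C, hC, h⟩ := Complex.affine_of_mapsTo_ball_of_exists_norm_dslope_eq_div' F1 F2
      ⟨mob w z₀, by simpa using mob_lt hw h0, by
        rw [dslope_of_ne _ hn, slope_def_module, F0, F3 _ h0, norm_smul, sub_zero, sub_zero, he,
          norm_inv, inv_mul_cancel₀ (norm_ne_zero_iff.2 hn), div_one]⟩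
    have := h (show mob w z ∈ ball 0 1 by simpa using mob_lt hw hz)
    rw [F3 z hz, F0] at this
    simp [this, hC]

/-- Without a fixed point, either orbits escape to the boundary, or `φ` is an automorphism
(recorded through the resulting distortion bound). -/
lemma escape {φ : ℂ → ℂ} (hd : DifferentiableOn ℂ φ (ball 0 1)) (hm : ∀ z, ‖z‖ < 1 → ‖φ z‖ < 1)
    (hf : ∀ z, ‖z‖ < 1 → φ z ≠ z) :
    (∀ z, ‖z‖ < 1 → Tendsto (fun n => ‖φ^[n] z‖) atTop (𝓝 1)) ∨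
      ∃ M : ℝ, ∀ z, ‖z‖ < 1 → 1 - ‖φ z‖ ^ 2 ≤ M * (1 - ‖z‖ ^ 2) := by
  rw [or_iff_not_imp_left]
  intro h
  push Not at h
  obtain ⟨z, hz, h⟩ := h
  have h1 : ∀ n, ‖φ^[n] z‖ < 1 := fun n => by
    induction n with
    | zero => exact hz
    | succ n ih => rw [Function.iterate_succ_apply']; exact hm _ ih
  rw [tendsto_order, not_and_or] at h
  rcases h with h | h
  swap
  · exact absurd (fun a ha => Eventually.of_forall fun n => (h1 n).trans ha) h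
  push Not at h
  obtain ⟨r, hr, h⟩ := h
  obtain ⟨w, hw, s, hs, hlim⟩ := (isCompact_closedBall (0 : ℂ) r).tendsto_subseq'
    (x := fun n => φ^[n] z) (h.mono fun n hn => by simpa using hn)
  have hw1 : ‖w‖ < 1 := lt_of_le_of_lt (by simpa using hw) hr
  let c : ℕ → ℝ := fun n => ‖mob (φ^[n] z) (φ (φ^[n] z))‖
  have c1 : Antitone c := antitone_nat_of_succ_le fun n => by
    simp only [c, Function.iterate_succ_apply']
    exact (pick hd hm (h1 n)).1 _ (hm _ (h1 n))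
  have c2 := tendsto_atTop_ciInf c1 ⟨0, by rintro _ ⟨n, rfl⟩; exact norm_nonneg _⟩
  have hc : ∀ v, ‖v‖ < 1 → ContinuousAt φ v := fun v hv =>
    (hd.differentiableAt (isOpen_ball.mem_nhds (by simpa using hv))).continuousAt
  have hG : ∀ v, ‖v‖ < 1 → ContinuousAt (fun v => ‖mob v (φ v)‖) v := fun v hv => by
    have := hc v hv
    exact (ContinuousAt.div (f := fun v => φ v - v) (g := fun v => 1 - conj v * φ v) (by fun_prop)
      (continuousAt_const.sub (Complex.continuous_conj.continuousAt.mul this))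
      (den_ne hv (hm v hv))).norm
  have e1 := tendsto_nhds_unique (((hG w hw1).tendsto.comp hlim)) (c2.comp hs.tendsto_atTop)
  have e2 := tendsto_nhds_unique (((hG _ (hm w hw1)).tendsto.comp ((hc w hw1).tendsto.comp hlim)))
    ((c2.comp ((tendsto_add_atTop_nat 1).comp hs.tendsto_atTop)).congr fun n => by
      simp [c, Function.iterate_succ_apply'])
  have e3 := (pick hd hm hw1).2 _ (hm w hw1) (hf w hw1) (e2.trans e1.symm)
  have p1 := one_sub_sq_pos (hm w hw1)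
  have p2 : 0 < 1 - ‖w‖ := by linarith
  refine ⟨4 / ((1 - ‖φ w‖ ^ 2) * (1 - ‖w‖) ^ 2), fun v hv => ?_⟩
  have i1 := mob_id hw1 hv
  have i2 := mob_id (hm w hw1) (hm v hv)
  rw [e3 v hv] at i2
  have p3 := one_sub_sq_pos (mob_lt hw1 hv)
  have p4 := one_sub_sq_pos hv
  have b1 : ‖1 - conj (φ w) * φ v‖ ≤ 2 := by
    refine (norm_sub_le _ _).trans ?_
    rw [norm_one, norm_mul, Complex.norm_conj]
    nlinarith [hm w hw1, hm v hv, norm_nonneg (φ w), norm_nonneg (φ v)]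
  have b2 : 1 - ‖w‖ ≤ ‖1 - conj w * v‖ := by
    refine le_trans ?_ (norm_sub_norm_le _ _)
    rw [norm_one, norm_mul, Complex.norm_conj]
    nlinarith [norm_nonneg w]
  have b3 : (1 - ‖φ w‖ ^ 2) * (1 - ‖φ v‖ ^ 2) ≤ (1 - ‖mob w v‖ ^ 2) * 2 ^ 2 := by
    rw [← i2]; gcongr
  have b4 : (1 - ‖mob w v‖ ^ 2) * (1 - ‖w‖) ^ 2 ≤ 1 - ‖v‖ ^ 2 := by
    calc _ ≤ (1 - ‖mob w v‖ ^ 2) * ‖1 - conj w * v‖ ^ 2 := by gcongr
      _ ≤ _ := by rw [i1]; nlinarith [sq_nonneg ‖w‖]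
  rw [div_mul_eq_mul_div, le_div_iff₀ (by positivity)]
  nlinarith [mul_le_mul_of_nonneg_right b3 (sq_nonneg (1 - ‖w‖))]

/-- The Szegő kernel. -/
lemma exists_kernel {z : ℂ} (hz : ‖z‖ < 1) : ∃ k : lp (fun _ : ℕ => ℂ) 2,
    (∀ a : lp (fun _ : ℕ => ℂ) 2, ⟪k, a⟫_ℂ = ∑' n, a n * z ^ n) ∧ ‖k‖ ^ 2 * (1 - ‖z‖ ^ 2) = 1 := by
  have h0 : ‖z‖ ^ 2 < 1 := by linarith [one_sub_sq_pos hz]
  have hs := hasSum_geometric_of_lt_one (sq_nonneg ‖z‖) h0
  have e : ∀ n : ℕ, ‖conj z ^ n‖ ^ (2 : ENNReal).toReal = (‖z‖ ^ 2) ^ n := fun n => by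
    simp [← pow_mul, mul_comm]
  refine ⟨⟨fun n => conj z ^ n, memℓp_gen (by simpa only [e] using hs.summable)⟩, fun a => ?_, ?_⟩
  · rw [lp.inner_eq_tsum]
    simp
  · have := lp.norm_rpow_eq_tsum (p := 2) (by norm_num)
      (⟨fun n => conj z ^ n, memℓp_gen (by simpa only [e] using hs.summable)⟩ :
        lp (fun _ : ℕ => ℂ) 2)
    simp only [e, hs.tsum_eq] at this
    simp only [ENNReal.toReal_ofNat, Real.rpow_ofNat] at this
    rw [this, inv_mul_cancel₀ (one_sub_sq_pos hz).ne']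

lemma weak_null {ι : Type*} {l : Filter ι} (u : ι → lp (fun _ : ℕ => ℂ) 2) (hu : ∀ i, ‖u i‖ ≤ 1)
    (h : ∀ n, Tendsto (fun i => ⟪u i, lp.single 2 n (1 : ℂ)⟫_ℂ) l (𝓝 0)) (y : lp (fun _ : ℕ => ℂ) 2) :
    Tendsto (fun i => ⟪u i, y⟫_ℂ) l (𝓝 0) := by
  rw [Metric.tendsto_nhds]
  intro η hη
  obtain ⟨s, hs⟩ := ((Metric.tendsto_nhds.1 (lp.hasSum_single (p := 2) (by norm_num) y)) _
    (half_pos hη)).exists
  have h2 : Tendsto (fun i => ⟪u i, ∑ n ∈ s, lp.single 2 n (y n)⟫_ℂ) l (𝓝 0) := by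
    have := tendsto_finsetSum s fun n _ => (h n).const_mul (y n)
    simp only [mul_zero, Finset.sum_const_zero] at this
    refine this.congr fun i => ?_
    rw [inner_sum]
    refine Finset.sum_congr rfl fun n _ => ?_
    rw [← inner_smul_right, ← lp.single_smul, smul_eq_mul, mul_one]
  filter_upwards [Metric.tendsto_nhds.1 h2 _ (half_pos hη)] with i hi
  rw [dist_zero_right] at hi ⊢
  rw [dist_eq_norm'] at hs
  have h3 := norm_inner_le_norm (𝕜 := ℂ) (u i) (y - ∑ n ∈ s, lp.single 2 n (y n))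
  rw [inner_sub_right] at h3
  have h4 := mul_le_of_le_one_left (norm_nonneg (y - ∑ n ∈ s, lp.single 2 n (y n))) (hu i)
  linarith [norm_sub_norm_le ⟪u i, y⟫_ℂ ⟪u i, ∑ n ∈ s, lp.single 2 n (y n)⟫_ℂ]

lemma unif_null {H : Type*} [NormedAddCommGroup H] [InnerProductSpace ℂ H] {ι : Type*}
    {l : Filter ι} (u : ι → H) (hu : ∀ i, ‖u i‖ ≤ 1)
    (h : ∀ y, Tendsto (fun i => ⟪u i, y⟫_ℂ) l (𝓝 0)) {K : Set H} (hK : IsCompact K) {η : ℝ}
    (hη : 0 < η) : ∀ᶠ i in l, ∀ y ∈ K, ‖⟪u i, y⟫_ℂ‖ < η := by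
  refine hK.induction_on (p := fun s => ∀ᶠ i in l, ∀ y ∈ s, ‖⟪u i, y⟫_ℂ‖ < η) (by simp)
    (fun s t hst ht => ht.mono fun i hi y hy => hi y (hst hy))
    (fun s t hs ht => (hs.and ht).mono fun i hi y hy => hy.elim (hi.1 y) (hi.2 y))
    fun y _ => ⟨ball y (η / 2), nhdsWithin_le_nhds (ball_mem_nhds _ (half_pos hη)), ?_⟩
  filter_upwards [Metric.tendsto_nhds.1 (h y) _ (half_pos hη)] with i hi v hv
  rw [dist_zero_right] at hi
  rw [mem_ball, dist_eq_norm] at hv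
  have h3 := norm_inner_le_norm (𝕜 := ℂ) (u i) (v - y)
  rw [inner_sub_right] at h3
  have h4 := mul_le_of_le_one_left (norm_nonneg (v - y)) (hu i)
  linarith [norm_sub_norm_le ⟪u i, v⟫_ℂ ⟪u i, y⟫_ℂ]

lemma adj_null {H : Type*} [NormedAddCommGroup H] [InnerProductSpace ℂ H] [CompleteSpace H]
    {T : H →L[ℂ] H} (hT : IsCompactOperator T) {ι : Type*} {l : Filter ι} (u : ι → H)
    (hu : ∀ i, ‖u i‖ ≤ 1) (h : ∀ y, Tendsto (fun i => ⟪u i, y⟫_ℂ) l (𝓝 0)) {η : ℝ} (hη : 0 < η) :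
    ∀ᶠ i in l, ‖ContinuousLinearMap.adjoint T (u i)‖ < η := by
  obtain ⟨K, hK, hK'⟩ := IsCompactOperator.image_closedBall_subset_compact
    (f := (T : H →ₗ[ℂ] H)) hT ‖ContinuousLinearMap.adjoint T‖
  filter_upwards [unif_null u hu h hK (pow_pos hη 2)] with i hi
  have := hi _ (hK' ⟨ContinuousLinearMap.adjoint T (u i), by
    simpa using ((ContinuousLinearMap.adjoint T).le_opNorm (u i)).trans
      (mul_le_of_le_one_right (norm_nonneg _) (hu i)), rfl⟩)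
  rw [ContinuousLinearMap.coe_coe, ← ContinuousLinearMap.adjoint_inner_left,
    inner_self_eq_norm_sq_to_K, norm_pow, RCLike.norm_ofReal, abs_norm] at this
  exact lt_of_pow_lt_pow_left₀ 2 hη.le this

end Pool.Agent.Lib.H3Hardy
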