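import Mathlib

set_option autoImplicit false

namespace Pool.Agent.Lib.H3Heat

open Complex Metric Set Filter Topology

theorem fact_le (k : ℕ) : ((2 * k).factorial : ℝ) ≤ k.factorial * (2 * k : ℝ) ^ k := by
  have h1 : (2 * k - k).factorial * (2 * k).descFactorial k = (2 * k).factorial :=
    Nat.factorial_mul_descFactorial (by omega)
  have h2 : 2 * k - k = k := by omega
  rw [h2] at h1
  have h3 : (2 * k).descFactorial k ≤ (2 * k) ^ k := Nat.descFactorial_le_pow _ _
  have h4 : (2 * k).factorial ≤ k.factorial * (2 * k) ^ k := by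
    rw [← h1]; exact Nat.mul_le_mul_left _ h3
  exact_mod_cast h4

/-- The `k`-th term of the heat series. -/
noncomputable def term (f : ℂ → ℂ) (lam : ℝ) (k : ℕ) (z : ℂ) : ℂ :=
  (-(lam : ℂ)) ^ k / ((Nat.factorial k : ℕ) : ℂ) * iteratedDeriv (2 * k) f z

theorem term_le (f : ℂ → ℂ) (hf : Differentiable ℂ f)
    (hb : ∀ z : ℂ, ‖f z‖ ≤ 3 * Real.exp (z.im ^ 2)) (lam : ℝ) (hl : 0 < lam) (k : ℕ) (z : ℂ)
    (hz : |z.im| < 2) :
    ‖term f lam k z‖ ≤ 3 * Real.exp 8 * (2 * Real.exp 2 * lam) ^ k := by
  rcases Nat.eq_zero_or_pos k with rfl | hk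
  · simp only [term, pow_zero, Nat.factorial_zero, Nat.cast_one, div_one, mul_zero,
      iteratedDeriv_zero, one_mul, mul_one]
    refine (hb z).trans ?_
    have h1 : z.im ^ 2 ≤ 8 := by
      have := abs_lt.1 hz
      nlinarith
    gcongr
  · have hk0 : (0 : ℝ) < k := by exact_mod_cast hk
    have hR : 0 < Real.sqrt k := Real.sqrt_pos.2 hk0
    have hsq : Real.sqrt k ^ 2 = k := Real.sq_sqrt hk0.le
    have h1 := Complex.norm_iteratedDeriv_le_of_forall_mem_sphere_norm_le (f := f) (c := z)
      (C := 3 * Real.exp (8 + 2 * k)) (2 * k) hR hf.diffContOnCl (by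
        intro w hw
        refine (hb w).trans ?_
        have h2 : |w.im - z.im| ≤ Real.sqrt k := by
          rw [← Complex.sub_im]
          exact (Complex.abs_im_le_norm _).trans (mem_sphere_iff_norm.1 hw).le
        have h3 : |w.im| ≤ 2 + Real.sqrt k := by
          have := abs_sub_abs_le_abs_sub w.im z.im
          linarith
        have h4 : w.im ^ 2 ≤ (2 + Real.sqrt k) ^ 2 := by
          rw [← sq_abs]; gcongr
        have h5 : w.im ^ 2 ≤ 8 + 2 * k := by nlinarith [sq_nonneg (2 - Real.sqrt k)]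
        gcongr)
    rw [pow_mul, hsq] at h1
    have hf0 : (0 : ℝ) < k.factorial := by exact_mod_cast k.factorial_pos
    rw [term, norm_mul, norm_div, norm_pow, norm_neg, Complex.norm_real, Real.norm_eq_abs,
      abs_of_pos hl, Complex.norm_natCast]
    have hkk : (0 : ℝ) < (k : ℝ) ^ k := pow_pos hk0 k
    calc lam ^ k / k.factorial * ‖iteratedDeriv (2 * k) f z‖
        ≤ lam ^ k / k.factorial * ((k.factorial * (2 * k : ℝ) ^ k) *
            (3 * Real.exp (8 + 2 * k)) / (k : ℝ) ^ k) := by
          gcongr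
          refine h1.trans ?_
          gcongr
          exact fact_le k
      _ = 3 * Real.exp 8 * (2 * Real.exp 2 * lam) ^ k := by
          have he : Real.exp (8 + 2 * k) = Real.exp 8 * Real.exp 2 ^ k := by
            rw [Real.exp_add, ← Real.exp_nat_mul, mul_comm (k : ℝ) 2]
          rw [he, mul_pow, mul_pow, mul_pow]
          field_simp

theorem term_diff (f : ℂ → ℂ) (hf : Differentiable ℂ f) (lam : ℝ) (k : ℕ) :
    Differentiable ℂ (term f lam k) := by
  have h : Differentiable ℂ (iteratedDeriv (2 * k) f) :=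
    (hf.contDiff (n := ((2 * k + 1 : ℕ) : WithTop ℕ∞))).differentiable_iteratedDeriv _
      (by exact_mod_cast Nat.lt_succ_self _)
  unfold term
  exact h.const_mul _

theorem heat_zero (f : ℂ → ℂ) (hf : Differentiable ℂ f)
    (hb : ∀ z : ℂ, ‖f z‖ ≤ 3 * Real.exp (z.im ^ 2)) (m : ℝ) (hm : 0 < m) :
    ∃ lam : ℝ, 0 < lam ∧ ∀ c : ℂ, c.im = 1 → f c = 0 →
      (∀ w ∈ sphere c (1 / 2), m ≤ ‖f w‖) →
      ∃ z ∈ closedBall c (1 / 2), ∑' k : ℕ, term f lam k z = 0 := by
  set A : ℝ := 3 * Real.exp 8 with hA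
  have hA0 : 0 < A := by positivity
  set ρ : ℝ := min (1 / 2) (m / (8 * A)) with hρ
  have hρ0 : 0 < ρ := lt_min (by norm_num) (by positivity)
  have hρ1 : ρ ≤ 1 / 2 := min_le_left _ _
  have hρ2 : ρ ≤ m / (8 * A) := min_le_right _ _
  refine ⟨ρ / (2 * Real.exp 2), by positivity, ?_⟩
  set lam : ℝ := ρ / (2 * Real.exp 2) with hlam
  have hl : 0 < lam := by positivity
  have hlr : 2 * Real.exp 2 * lam = ρ := by rw [hlam]; field_simp
  intro c hc hfc hsph
  set U : Set ℂ := {z | |z.im| < 2} with hU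
  have hUo : IsOpen U := isOpen_lt (by fun_prop) continuous_const
  have hT : ∀ k z, z ∈ U → ‖term f lam k z‖ ≤ A * ρ ^ k := by
    intro k z hz
    have := term_le f hf hb lam hl k z hz
    rwa [hlr] at this
  have hgs : Summable (fun k : ℕ => ρ ^ k) := summable_geometric_of_lt_one hρ0.le (by linarith)
  have hsum : Summable (fun k : ℕ => A * ρ ^ k) := hgs.mul_left A
  set g : ℂ → ℂ := fun z => ∑' k : ℕ, term f lam k z with hg
  have hgd : DifferentiableOn ℂ g U :=
    differentiableOn_tsum_of_summable_norm hsum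
      (fun k => (term_diff f hf lam k).differentiableOn) hUo hT
  have hclose : ∀ z ∈ U, ‖g z - f z‖ ≤ m / 4 := by
    intro z hz
    have hs : Summable (fun k => term f lam k z) :=
      Summable.of_norm_bounded hsum (fun k => hT k z hz)
    have h0 : term f lam 0 z = f z := by simp [term]
    have h1 : g z - f z = ∑' k : ℕ, term f lam (k + 1) z := by
      rw [hg]
      simp only
      rw [hs.tsum_eq_zero_add, h0]; ring
    rw [h1]
    have h2 : HasSum (fun k : ℕ => A * ρ * ρ ^ k) (A * ρ * (1 - ρ)⁻¹) :=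
      (hasSum_geometric_of_lt_one hρ0.le (by linarith)).mul_left _
    refine (tsum_of_norm_bounded h2 (fun k => ?_)).trans ?_
    · refine (hT (k + 1) z hz).trans (le_of_eq ?_)
      ring
    · have h3 : (1 - ρ)⁻¹ ≤ 2 := by
        rw [inv_le_comm₀ (by linarith) (by norm_num)]; linarith
      have h4 : A * ρ ≤ m / 8 := by
        calc A * ρ ≤ A * (m / (8 * A)) := by gcongr
          _ = m / 8 := by field_simp
      calc A * ρ * (1 - ρ)⁻¹ ≤ m / 8 * 2 :=
            mul_le_mul h4 h3 (inv_nonneg.2 (by linarith)) (by positivity)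
        _ = m / 4 := by ring
  have hsub : closedBall c (1 / 2) ⊆ U := by
    intro z hz
    have h2 : |z.im - c.im| ≤ 1 / 2 := by
      rw [← Complex.sub_im]
      exact (Complex.abs_im_le_norm _).trans (mem_closedBall_iff_norm.1 hz)
    rw [hc] at h2
    have := abs_le.1 h2
    show |z.im| < 2
    rw [abs_lt]; constructor <;> linarith
  by_contra hcon
  push Not at hcon
  have hd : DiffContOnCl ℂ (fun z => (g z)⁻¹) (ball c (1 / 2)) := by
    apply DifferentiableOn.diffContOnCl
    rw [closure_ball c (by norm_num)]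
    exact (hgd.mono hsub).inv hcon
  have hmax := Complex.norm_le_of_forall_mem_frontier_norm_le (f := fun z => (g z)⁻¹)
    isBounded_ball hd (C := (3 * m / 4)⁻¹) (by
      intro w hw
      rw [frontier_ball c (by norm_num)] at hw
      have h1 := hsph w hw
      have h2 := hclose w (hsub (sphere_subset_closedBall hw))
      have h3 : ‖f w‖ ≤ ‖g w‖ + ‖g w - f w‖ := by
        have := norm_sub_le (g w) (g w - f w)
        simpa using this
      rw [norm_inv]
      exact inv_anti₀ (by positivity) (by linarith)) (z := c)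
    (subset_closure (mem_ball_self (by norm_num)))
  have h1 := hclose c (hsub (mem_closedBall_self (by norm_num)))
  rw [hfc, sub_zero] at h1
  have h2 : 0 < ‖g c‖ := norm_pos_iff.2 (hcon c (mem_closedBall_self (by norm_num)))
  simp only [norm_inv] at hmax
  rw [inv_le_inv₀ h2 (by positivity)] at hmax
  linarith

end Pool.Agent.Lib.H3Heat
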