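import Mathlib

set_option autoImplicit false

namespace Pool.Agent.Lib.H3Heat

open Complex Metric Set Filter Topology Finset

theorem norm_cos_le (z : ℂ) : ‖Complex.cos z‖ ≤ Real.cosh z.im := by
  rw [Complex.cos, norm_div, Real.cosh_eq]
  have h1 : ‖cexp (z * I) + cexp (-z * I)‖ ≤ Real.exp z.im + Real.exp (-z.im) := by
    refine (norm_add_le _ _).trans (le_of_eq ?_)
    rw [Complex.norm_exp, Complex.norm_exp]
    simp [add_comm]
  have h2 : ‖(2 : ℂ)‖ = 2 := by simp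
  rw [h2]
  gcongr

theorem cos_sub_one (u : ℂ) (hu : ‖u‖ ≤ 1) : ‖Complex.cos u - 1‖ ≤ ‖u‖ ^ 2 := by
  have h1 := Complex.cos_bound hu
  have h2 : Complex.cos u - 1 = (Complex.cos u - (1 - u ^ 2 / 2)) - u ^ 2 / 2 := by ring
  rw [h2]
  refine (norm_sub_le _ _).trans ?_
  have h3 : ‖u ^ 2 / 2‖ = ‖u‖ ^ 2 / 2 := by simp
  have h4 : ‖u‖ ^ 4 ≤ ‖u‖ ^ 2 := pow_le_pow_of_le_one (norm_nonneg _) hu (by norm_num)
  rw [h3]
  nlinarith [sq_nonneg ‖u‖]

theorem cos_pow_sub_one (u : ℂ) (N : ℕ) (hN : 1 ≤ N) (t : ℝ) (h : N * ‖u‖ ^ 2 ≤ t) (ht : t ≤ 1) :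
    ‖Complex.cos u ^ N - 1‖ ≤ 2 * t := by
  have hN' : (1 : ℝ) ≤ N := by exact_mod_cast hN
  have h0 : 0 ≤ ‖u‖ ^ 2 := by positivity
  have hu : ‖u‖ ≤ 1 := by
    have : ‖u‖ ^ 2 ≤ 1 := by nlinarith
    exact (sq_le_one_iff₀ (norm_nonneg _)).1 this
  have h1 := Finset.norm_prod_one_add_sub_one_le (range N) (fun _ => Complex.cos u - 1)
  simp only [add_sub_cancel, prod_const, card_range, sum_const, nsmul_eq_mul] at h1
  have h2 : N * ‖Complex.cos u - 1‖ ≤ t := by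
    have := cos_sub_one u hu
    nlinarith
  have ht0 : 0 ≤ t := le_trans (by positivity) h
  have h3 := Real.abs_exp_sub_one_le (x := t) (by rw [abs_of_nonneg ht0]; exact ht)
  rw [abs_of_nonneg ht0] at h3
  have h4 := Real.exp_le_exp.2 h2
  linarith [le_abs_self (Real.exp t - 1)]

/-- A very lacunary sequence of powers of two. -/
def NN (k : ℕ) : ℕ := 2 ^ (3 ^ (k + 3))

theorem three_pow_ge (k : ℕ) : k + 13 ≤ 3 ^ (k + 3) := by
  induction k with
  | zero => norm_num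
  | succ k ih => rw [show k + 1 + 3 = (k + 3) + 1 by ring, pow_succ]; omega

theorem NN_ge (k : ℕ) : 2 ^ (k + 12) ≤ NN k :=
  Nat.pow_le_pow_right (by norm_num) (by have := three_pow_ge k; omega)

theorem NN_sq {j k : ℕ} (h : j < k) : NN j ^ 2 * 2 ^ (k + 12) ≤ NN k := by
  unfold NN
  rw [← pow_mul, ← pow_add]
  apply Nat.pow_le_pow_right (by norm_num)
  obtain ⟨i, rfl⟩ : ∃ i, k = i + 1 := ⟨k - 1, by omega⟩
  have h1 : 3 ^ (j + 3) ≤ 3 ^ (i + 3) := Nat.pow_le_pow_right (by norm_num) (by omega)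
  have h2 := three_pow_ge i
  have h3 : 3 ^ (i + 1 + 3) = 3 ^ (i + 3) * 3 := pow_succ 3 (i + 3)
  rw [h3]
  omega

theorem NN_dvd {j k : ℕ} (h : k ≤ j) : NN k ∣ NN j :=
  pow_dvd_pow _ (Nat.pow_le_pow_right (by norm_num) (by omega))

theorem NN_pos (k : ℕ) : 0 < NN k := by unfold NN; positivity

theorem NN_pos' (k : ℕ) : (0 : ℝ) < NN k := by exact_mod_cast NN_pos k

theorem inv_NN_le (k : ℕ) : ((NN k : ℝ))⁻¹ ≤ (1 / 4096) * (1 / 2) ^ k := by
  have h : ((2 : ℝ) ^ (k + 12)) ≤ NN k := by exact_mod_cast NN_ge k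
  calc ((NN k : ℝ))⁻¹ ≤ ((2 : ℝ) ^ (k + 12))⁻¹ := inv_anti₀ (by positivity) h
    _ = (1 / 4096) * (1 / 2) ^ k := by rw [pow_add, one_div, one_div, inv_pow]; field_simp; norm_num

/-- The factors. -/
noncomputable def fac (k : ℕ) (z : ℂ) : ℂ := Complex.cos (z / NN k) ^ NN k

/-- The partial products. -/
noncomputable def QQ (n : ℕ) (z : ℂ) : ℂ := ∏ k ∈ range n, fac k z

/-- The infinite product. -/
noncomputable def PP (z : ℂ) : ℂ := ∏' k, (1 + (fac k z - 1))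

theorem mul_norm_div_sq (k : ℕ) (z : ℂ) :
    (NN k : ℝ) * ‖z / NN k‖ ^ 2 = ‖z‖ ^ 2 * ((NN k : ℝ))⁻¹ := by
  rw [norm_div, Complex.norm_natCast]
  have := NN_pos' k
  field_simp

theorem fac_diff (k : ℕ) : Differentiable ℂ (fac k) := by
  unfold fac; fun_prop

theorem fac_ev (R : ℝ) : ∀ᶠ k in atTop, ∀ z ∈ ball (0 : ℂ) R,
    ‖fac k z - 1‖ ≤ 2 * (R ^ 2 * (1 / 2) ^ k) := by
  have h1 : Tendsto (fun k : ℕ => R ^ 2 * (1 / 2 : ℝ) ^ k) atTop (𝓝 (R ^ 2 * 0)) :=
    (tendsto_pow_atTop_nhds_zero_of_lt_one (by norm_num) (by norm_num)).const_mul _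
  rw [mul_zero] at h1
  filter_upwards [h1.eventually_le_const one_pos] with k hk z hz
  apply cos_pow_sub_one _ _ (NN_pos k) _ _ hk
  rw [mul_norm_div_sq]
  have h2 : ‖z‖ < R := mem_ball_zero_iff.1 hz
  have h3 := inv_NN_le k
  have h4 : (0 : ℝ) < (1 / 2) ^ k := by positivity
  have h5 : ‖z‖ ^ 2 ≤ R ^ 2 := by gcongr
  apply mul_le_mul h5 (by linarith) (inv_nonneg.2 (NN_pos' k).le) (by positivity)

theorem geo_summable (R : ℝ) : Summable (fun k : ℕ => 2 * (R ^ 2 * (1 / 2 : ℝ) ^ k)) :=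
  (summable_geometric_two.mul_left _).mul_left _

theorem PP_loc (R : ℝ) : TendstoLocallyUniformlyOn QQ PP atTop (ball (0 : ℂ) R) := by
  have h := ((geo_summable R).hasProdLocallyUniformlyOn_nat_one_add (f := fun k z => fac k z - 1)
    isOpen_ball (fac_ev R) (fun k => ((fac_diff k).continuous.sub continuous_const).continuousOn)
    ).tendstoLocallyUniformlyOn_finsetRange
  refine h.congr (fun n z _ => ?_)
  simp [QQ]

theorem QQ_diff (n : ℕ) : Differentiable ℂ (QQ n) := by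
  unfold QQ
  exact Differentiable.fun_finsetProd fun k _ => fac_diff k

theorem PP_diff : Differentiable ℂ PP := by
  intro z
  have h := (PP_loc (‖z‖ + 1)).differentiableOn
    (Eventually.of_forall fun n => (QQ_diff n).differentiableOn) isOpen_ball
  exact h.differentiableAt (isOpen_ball.mem_nhds (by simp))

theorem QQ_tendsto (z : ℂ) : Tendsto (fun n => QQ n z) atTop (𝓝 (PP z)) :=
  (PP_loc (‖z‖ + 1)).tendsto_at (by simp)

theorem PP_ne_zero (z : ℂ) (hz : z.im ≠ 0) : PP z ≠ 0 := by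
  apply tprod_one_add_ne_zero_of_summable
  · intro k
    rw [add_sub_cancel, fac]
    apply pow_ne_zero
    intro h
    obtain ⟨n, hn⟩ := Complex.cos_eq_zero_iff.1 h
    have h1 : (NN k : ℂ) ≠ 0 := by exact_mod_cast (NN_pos k).ne'
    rw [div_eq_iff h1] at hn
    apply hz
    have h2 : z = (((2 * n + 1) * Real.pi / 2 * NN k : ℝ) : ℂ) := by
      rw [hn]; push_cast; ring
    rw [h2, Complex.ofReal_im]
  · apply Summable.of_norm_bounded_eventually_nat (geo_summable (‖z‖ + 1))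
    filter_upwards [fac_ev (‖z‖ + 1)] with k hk
    rw [norm_norm]
    exact hk z (by simp)

theorem PP_even (z : ℂ) : PP (-z) = PP z := by
  unfold PP fac
  simp only [neg_div, Complex.cos_neg]

theorem PP_real (x : ℝ) : (PP x).im = 0 := by
  have h1 : ∀ n, (QQ n x).im = 0 := by
    intro n
    have : QQ n x = ((∏ k ∈ range n, Real.cos (x / NN k) ^ NN k : ℝ) : ℂ) := by
      simp [QQ, fac]
    rw [this, Complex.ofReal_im]
  have h2 := (Complex.continuous_im.tendsto _).comp (QQ_tendsto x)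
  have h3 : (Complex.im ∘ fun n => QQ n x) = fun _ => 0 := funext h1
  rw [h3] at h2
  exact tendsto_nhds_unique h2 tendsto_const_nhds

theorem PP_le (z : ℂ) (a : ℕ → ℝ) (S : ℝ) (h : ∀ k, ‖fac k z‖ ≤ Real.exp (a k))
    (hS : ∀ n, ∑ k ∈ range n, a k ≤ S) : ‖PP z‖ ≤ Real.exp S := by
  apply le_of_tendsto' (QQ_tendsto z).norm
  intro n
  rw [QQ, norm_prod]
  calc ∏ k ∈ range n, ‖fac k z‖ ≤ ∏ k ∈ range n, Real.exp (a k) :=
        prod_le_prod (fun _ _ => norm_nonneg _) fun k _ => h k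
    _ = Real.exp (∑ k ∈ range n, a k) := (Real.exp_sum _ _).symm
    _ ≤ Real.exp S := Real.exp_le_exp.2 (hS n)

theorem div_im (z : ℂ) (k : ℕ) : (z / NN k).im = z.im / NN k := by
  rw [← Complex.ofReal_natCast, Complex.div_ofReal_im]

theorem fac_le_sq (k : ℕ) (z : ℂ) : ‖fac k z‖ ≤ Real.exp (z.im ^ 2 * (1 / 4 * (1 / 2) ^ k)) := by
  rw [fac, norm_pow]
  have h1 := (norm_cos_le (z / NN k)).trans (Real.cosh_le_exp_half_sq _)
  rw [div_im] at h1
  have hp := NN_pos' k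
  calc ‖Complex.cos (z / NN k)‖ ^ NN k ≤ Real.exp ((z.im / NN k) ^ 2 / 2) ^ NN k := by gcongr
    _ = Real.exp (z.im ^ 2 * ((NN k : ℝ)⁻¹ / 2)) := by
        rw [← Real.exp_nat_mul]; congr 1; field_simp
    _ ≤ _ := by
        have h3 := inv_NN_le k
        have h4 : (0 : ℝ) < (1 / 2) ^ k := by positivity
        gcongr
        linarith

theorem cosh_le_exp_abs (y : ℝ) : Real.cosh y ≤ Real.exp |y| := by
  rw [Real.cosh_eq]
  have h1 : Real.exp y ≤ Real.exp |y| := Real.exp_le_exp.2 (le_abs_self y)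
  have h2 : Real.exp (-y) ≤ Real.exp |y| := Real.exp_le_exp.2 (neg_le_abs y)
  linarith

theorem fac_le_lin (k : ℕ) (z : ℂ) : ‖fac k z‖ ≤ Real.exp |z.im| := by
  rw [fac, norm_pow]
  have h1 := (norm_cos_le (z / NN k)).trans (cosh_le_exp_abs _)
  rw [div_im] at h1
  have hp := NN_pos' k
  calc ‖Complex.cos (z / NN k)‖ ^ NN k ≤ Real.exp |z.im / NN k| ^ NN k := by gcongr
    _ = Real.exp |z.im| := by
        rw [← Real.exp_nat_mul, abs_div, abs_of_pos hp]; congr 1; field_simp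

theorem geo_le (n : ℕ) : ∑ k ∈ range n, (1 / 2 : ℝ) ^ k ≤ 2 := by
  exact (summable_geometric_two.sum_le_tsum _ (fun _ _ => by positivity)).trans
    tsum_geometric_two.le

theorem PP_le_sq (z : ℂ) : ‖PP z‖ ≤ Real.exp (z.im ^ 2 / 2) := by
  apply PP_le z _ _ (fun k => fac_le_sq k z)
  intro n
  rw [← mul_sum, ← mul_sum]
  have := geo_le n
  nlinarith [sq_nonneg z.im]

theorem PP_le_rpow (θ : ℝ) (h0 : 0 < θ) (h1 : θ ≤ 1) :
    ∃ C : ℝ, 0 ≤ C ∧ ∀ z : ℂ, ‖PP z‖ ≤ Real.exp (C * ‖z‖ ^ (1 + θ)) := by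
  set q : ℝ := (1 / 2 : ℝ) ^ θ with hq
  have hq0 : 0 < q := by positivity
  have hq1 : q < 1 := Real.rpow_lt_one (by norm_num) (by norm_num) h0
  refine ⟨(1 - q)⁻¹, inv_nonneg.2 (by linarith), fun z => ?_⟩
  set r := ‖z‖ with hr
  have hr0 : 0 ≤ r := norm_nonneg _
  have him : |z.im| ≤ r := Complex.abs_im_le_norm z
  apply PP_le z (fun k => q ^ k * r ^ (1 + θ))
  · intro k
    set t : ℝ := r * (1 / 2) ^ k with ht
    have ht0 : 0 ≤ t := by positivity
    have hrt : q ^ k * r ^ (1 + θ) = r * t ^ θ := by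
      rw [Real.rpow_add' hr0 (by linarith), Real.rpow_one, ht,
        Real.mul_rpow hr0 (by positivity), hq, ← Real.rpow_natCast, ← Real.rpow_natCast,
        ← Real.rpow_mul (by norm_num), ← Real.rpow_mul (by norm_num), mul_comm θ]
      ring
    rw [hrt]
    rcases le_total 1 t with h | h
    · refine (fac_le_lin k z).trans (Real.exp_le_exp.2 ?_)
      have := Real.one_le_rpow h h0.le
      nlinarith
    · refine (fac_le_sq k z).trans (Real.exp_le_exp.2 ?_)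
      have h2 : t ≤ t ^ θ := by
        rcases eq_or_lt_of_le ht0 with h3 | h3
        · rw [← h3]; positivity
        · have := Real.rpow_le_rpow_of_exponent_ge h3 h h1
          rwa [Real.rpow_one] at this
      have h3 : z.im ^ 2 ≤ r ^ 2 := by rw [← sq_abs]; gcongr
      have h4 : (0 : ℝ) < (1 / 2) ^ k := by positivity
      calc z.im ^ 2 * (1 / 4 * (1 / 2) ^ k) ≤ r ^ 2 * (1 * (1 / 2) ^ k) := by
            gcongr; norm_num
        _ = r * t := by rw [ht]; ring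
        _ ≤ r * t ^ θ := by gcongr
  · intro n
    rw [← sum_mul]
    gcongr
    rw [← tsum_geometric_of_lt_one hq0.le hq1]
    exact (summable_geometric_of_lt_one hq0.le hq1).sum_le_tsum _ (fun _ _ => by positivity)

theorem fac_imag (k : ℕ) (y : ℝ) : ‖fac k (y * I)‖ = Real.cosh (y / NN k) ^ NN k := by
  rw [fac, norm_pow]
  have : (y : ℂ) * I / NN k = ((y / NN k : ℝ) : ℂ) * I := by push_cast; ring
  rw [this, Complex.cos_mul_I, ← Complex.ofReal_cosh, Complex.norm_real, Real.norm_eq_abs,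
    abs_of_pos (Real.cosh_pos _)]

theorem PP_imag (J : ℕ) : ∃ c : ℝ, 0 < c ∧ ∀ y : ℝ, c * Real.exp (J * y) ≤ ‖PP (y * I)‖ := by
  refine ⟨∏ k ∈ range J, (1 / 2 : ℝ) ^ NN k, prod_pos fun _ _ => by positivity, fun y => ?_⟩
  apply ge_of_tendsto (QQ_tendsto _).norm
  filter_upwards [eventually_ge_atTop J] with n hn
  rw [QQ, norm_prod]
  simp only [fac_imag]
  have h1 : (∏ k ∈ range J, (1 / 2 : ℝ) ^ NN k) * Real.exp (J * y)
      = ∏ k ∈ range J, (1 / 2 * Real.exp (y / NN k)) ^ NN k := by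
    have h2 : Real.exp (J * y) = ∏ k ∈ range J, Real.exp (y / NN k) ^ NN k := by
      have h3 : ∀ k ∈ range J, Real.exp (y / NN k) ^ NN k = Real.exp y := by
        intro k _
        have hp := NN_pos' k
        rw [← Real.exp_nat_mul]; congr 1; field_simp
      rw [prod_congr rfl h3, prod_const, card_range, Real.exp_nat_mul]
    rw [h2, ← prod_mul_distrib]
    exact prod_congr rfl fun k _ => (mul_pow _ _ _).symm
  rw [h1]
  calc ∏ k ∈ range J, (1 / 2 * Real.exp (y / NN k)) ^ NN k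
      ≤ ∏ k ∈ range J, Real.cosh (y / NN k) ^ NN k := by
        apply prod_le_prod (fun _ _ => by positivity)
        intro k _
        gcongr
        rw [Real.cosh_eq]
        linarith [Real.exp_pos (-(y / NN k))]
    _ ≤ ∏ k ∈ range n, Real.cosh (y / NN k) ^ NN k := by
        rw [← prod_range_mul_prod_Ico _ hn]
        apply le_mul_of_one_le_right (prod_nonneg fun _ _ => (pow_pos (Real.cosh_pos _) _).le)
        calc (1 : ℝ) = ∏ _k ∈ Finset.Ico J n, (1 : ℝ) := by simp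
          _ ≤ _ := prod_le_prod (fun _ _ => zero_le_one)
            fun k _ => one_le_pow₀ (Real.one_le_cosh _)

theorem fac_near (j k : ℕ) (w : ℂ) (hw : ‖w‖ ≤ 2) :
    ‖fac k (2 * Real.pi * NN j + w) - 1‖ ≤ 2 * (1 / 32 * (1 / 2) ^ k) := by
  have h4 : (0 : ℝ) < (1 / 2) ^ k := by positivity
  have h5 : (1 / 2 : ℝ) ^ k ≤ 1 := pow_le_one₀ (by norm_num) (by norm_num)
  have hk : (NN k : ℂ) ≠ 0 := by exact_mod_cast (NN_pos k).ne'
  rcases le_or_gt k j with h | h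
  · obtain ⟨m, hm⟩ := NN_dvd h
    have h1 : (2 * Real.pi * NN j + w) / NN k = w / NN k + m * (2 * Real.pi) := by
      rw [hm]; push_cast; field_simp; ring
    rw [fac, h1, Complex.cos_add_nat_mul_two_pi]
    apply cos_pow_sub_one _ _ (NN_pos k) _ _ (by linarith)
    rw [mul_norm_div_sq]
    have h2 : ‖w‖ ^ 2 ≤ 2 ^ 2 := by gcongr
    have h3 := inv_NN_le k
    calc ‖w‖ ^ 2 * ((NN k : ℝ))⁻¹ ≤ 2 ^ 2 * (1 / 4096 * (1 / 2) ^ k) :=
          mul_le_mul h2 h3 (inv_nonneg.2 (NN_pos' k).le) (by positivity)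
      _ ≤ _ := by linarith
  · rw [fac]
    apply cos_pow_sub_one _ _ (NN_pos k) _ _ (by linarith)
    rw [mul_norm_div_sq]
    have hj : (1 : ℝ) ≤ NN j := by exact_mod_cast NN_pos j
    have h1 : ‖(2 * Real.pi * NN j + w : ℂ)‖ ≤ 10 * NN j := by
      refine (norm_add_le _ _).trans ?_
      have : ‖(2 * Real.pi * NN j : ℂ)‖ = 2 * Real.pi * NN j := by
        simp [abs_of_pos Real.pi_pos]
      rw [this]
      nlinarith [Real.pi_le_four]
    have h2 : ((NN j : ℝ)) ^ 2 * 2 ^ (k + 12) ≤ NN k := by exact_mod_cast NN_sq h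
    have h3 : ((NN j : ℝ)) ^ 2 * ((NN k : ℝ))⁻¹ ≤ 1 / 4096 * (1 / 2) ^ k := by
      rw [← div_eq_mul_inv, div_le_iff₀ (NN_pos' k)]
      calc ((NN j : ℝ)) ^ 2 = 1 / 4096 * (1 / 2) ^ k * (((NN j : ℝ)) ^ 2 * 2 ^ (k + 12)) := by
            rw [pow_add, one_div, one_div, inv_pow]; field_simp; norm_num
        _ ≤ _ := by gcongr
    calc ‖(2 * Real.pi * NN j + w : ℂ)‖ ^ 2 * ((NN k : ℝ))⁻¹
        ≤ (10 * NN j) ^ 2 * ((NN k : ℝ))⁻¹ := by
          gcongr
      _ = 100 * (((NN j : ℝ)) ^ 2 * ((NN k : ℝ))⁻¹) := by ring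
      _ ≤ _ := by linarith

theorem PP_near (j : ℕ) (w : ℂ) (hw : ‖w‖ ≤ 2) : 1 / 2 ≤ ‖PP (2 * Real.pi * NN j + w)‖ := by
  apply ge_of_tendsto' (QQ_tendsto _).norm
  intro n
  set z : ℂ := 2 * Real.pi * NN j + w with hz
  have h1 := Finset.norm_prod_one_add_sub_one_le (range n) (fun k => fac k z - 1)
  simp only [add_sub_cancel] at h1
  have h2 : ∑ k ∈ range n, ‖fac k z - 1‖ ≤ 1 / 8 := by
    refine (sum_le_sum fun k _ => fac_near j k w hw).trans ?_
    rw [← mul_sum, ← mul_sum]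
    linarith [geo_le n]
  have h3 := Real.abs_exp_sub_one_le (x := 1 / 8) (by norm_num [abs_of_pos])
  have h4 := Real.exp_le_exp.2 h2
  have h5 := le_abs_self (Real.exp (1 / 8) - 1)
  have h6 : |(1 / 8 : ℝ)| = 1 / 8 := abs_of_pos (by norm_num)
  have h7 : ‖(1 : ℂ)‖ ≤ ‖QQ n z‖ + ‖QQ n z - 1‖ := by
    have := norm_sub_le (QQ n z) (QQ n z - 1)
    simpa using this
  rw [norm_one] at h7
  have h8 : ‖QQ n z - 1‖ ≤ Real.exp (∑ k ∈ range n, ‖fac k z - 1‖) - 1 := h1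
  linarith

end Pool.Agent.Lib.H3Heat
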