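import Mathlib
import Pool.Agent.Lib.helper3.HeatA
import Pool.Agent.Lib.helper3.HeatB

set_option autoImplicit false

namespace Pool.Agent.Lib.H3Heat

open Complex Metric Set Filter Topology Finset

/-- The counterexample. -/
noncomputable def FF (z : ℂ) : ℂ := (Complex.cos z - Complex.cos I) * PP z

theorem cos_I : Complex.cos I = (Real.cosh 1 : ℝ) := by
  have := Complex.cos_mul_I 1
  rw [one_mul] at this
  rw [this]; simp

theorem cosh_one_le : Real.cosh 1 ≤ 2 := by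
  rw [Real.cosh_eq]
  have h1 := Real.exp_one_lt_d9
  have h2 : Real.exp (-1) ≤ 1 := Real.exp_le_one_iff.2 (by norm_num)
  linarith

theorem norm_cos_I : ‖Complex.cos I‖ ≤ 2 := by
  rw [cos_I, Complex.norm_real, Real.norm_eq_abs, abs_of_pos (Real.cosh_pos _)]
  exact cosh_one_le

theorem FF_diff : Differentiable ℂ FF := by
  unfold FF
  exact (Complex.differentiable_cos.sub_const _).mul PP_diff

theorem FF_real (x : ℝ) : (FF x).im = 0 := by
  rw [FF, cos_I, ← Complex.ofReal_cos, ← Complex.ofReal_sub, Complex.im_ofReal_mul, PP_real,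
    mul_zero]

theorem FF_even (z : ℂ) : FF (-z) = FF z := by
  rw [FF, FF, PP_even, Complex.cos_neg]

theorem cos_eq_cos_I (z : ℂ) (h : Complex.cos z - Complex.cos I = 0) :
    (∃ n : ℤ, z = -I + 2 * (n * Real.pi)) ∨ (∃ n : ℤ, z = I + 2 * (n * Real.pi)) := by
  rw [Complex.cos_sub_cos] at h
  simp only [mul_eq_zero, neg_eq_zero, OfNat.ofNat_ne_zero, false_or] at h
  rcases h with h | h
  · obtain ⟨n, hn⟩ := Complex.sin_eq_zero_iff.1 h
    exact Or.inl ⟨n, by linear_combination 2 * hn⟩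
  · obtain ⟨n, hn⟩ := Complex.sin_eq_zero_iff.1 h
    exact Or.inr ⟨n, by linear_combination 2 * hn⟩

theorem FF_zero (z : ℂ) (h : FF z = 0) : |z.im| < 2 := by
  rcases mul_eq_zero.1 h with h | h
  · rcases cos_eq_cos_I z h with ⟨n, rfl⟩ | ⟨n, rfl⟩ <;> simp
  · by_cases hz : z.im = 0
    · rw [hz]; simp
    · exact absurd h (PP_ne_zero z hz)

theorem FF_le_sq (z : ℂ) : ‖FF z‖ ≤ 3 * Real.exp (z.im ^ 2) := by
  rw [FF, norm_mul]
  have h1 : ‖Complex.cos z - Complex.cos I‖ ≤ 3 * Real.exp (z.im ^ 2 / 2) := by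
    have h2 := (norm_cos_le z).trans (Real.cosh_le_exp_half_sq _)
    have h3 : 1 ≤ Real.exp (z.im ^ 2 / 2) := Real.one_le_exp (by positivity)
    linarith [norm_sub_le (Complex.cos z) (Complex.cos I), norm_cos_I]
  calc _ ≤ 3 * Real.exp (z.im ^ 2 / 2) * Real.exp (z.im ^ 2 / 2) :=
        mul_le_mul h1 (PP_le_sq z) (norm_nonneg _) (by positivity)
    _ = _ := by rw [mul_assoc, ← Real.exp_add]; congr 2; ring

theorem FF_order (ε : ℝ) (hε : 0 < ε) :
    ∃ R : ℝ, ∀ z : ℂ, R ≤ ‖z‖ → ‖FF z‖ ≤ Real.exp (‖z‖ ^ (1 + ε)) := by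
  set θ : ℝ := min (ε / 2) 1 with hθ
  have h0 : 0 < θ := lt_min (by linarith) one_pos
  have h1 : θ ≤ 1 := min_le_right _ _
  have h2 : θ ≤ ε / 2 := min_le_left _ _
  obtain ⟨C, hC, hP⟩ := PP_le_rpow θ h0 h1
  have ht := (tendsto_rpow_atTop (y := ε - θ) (by linarith)).eventually_ge_atTop (C + 3)
  obtain ⟨R, hR⟩ := eventually_atTop.1 (ht.and (eventually_ge_atTop 1))
  refine ⟨R, fun z hz => ?_⟩
  obtain ⟨h3, h4⟩ := hR _ hz
  set r := ‖z‖ with hr
  have h5 : r ≤ r ^ (1 + θ) := by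
    have := Real.rpow_le_rpow_of_exponent_le h4 (show (1 : ℝ) ≤ 1 + θ by linarith)
    rwa [Real.rpow_one] at this
  have h6 : ‖Complex.cos z - Complex.cos I‖ ≤ Real.exp (3 * r ^ (1 + θ)) := by
    have h7 := (norm_cos_le z).trans (cosh_le_exp_abs _)
    have h8 : Real.exp |z.im| ≤ Real.exp r := Real.exp_le_exp.2 (Complex.abs_im_le_norm z)
    have h9 : 1 ≤ Real.exp r := Real.one_le_exp (by linarith)
    have h10 : 3 ≤ Real.exp 2 := by linarith [Real.add_one_le_exp 2]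
    calc _ ≤ 3 * Real.exp r := by
          linarith [norm_sub_le (Complex.cos z) (Complex.cos I), norm_cos_I]
      _ ≤ Real.exp 2 * Real.exp r := by gcongr
      _ = Real.exp (2 + r) := (Real.exp_add _ _).symm
      _ ≤ _ := Real.exp_le_exp.2 (by linarith)
  rw [FF, norm_mul]
  calc _ ≤ Real.exp (3 * r ^ (1 + θ)) * Real.exp (C * r ^ (1 + θ)) :=
        mul_le_mul h6 (hP z) (norm_nonneg _) (by positivity)
    _ = Real.exp (r ^ (1 + θ) * (C + 3)) := by rw [← Real.exp_add]; congr 1; ring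
    _ ≤ Real.exp (r ^ (1 + θ) * r ^ (ε - θ)) := by gcongr
    _ = _ := by rw [← Real.rpow_add (by linarith)]; congr 2; ring

theorem FF_type (C R : ℝ) : ∃ z : ℂ, R ≤ ‖z‖ ∧ Real.exp (C * ‖z‖) < ‖FF z‖ := by
  obtain ⟨J, hJ⟩ := exists_nat_ge (C + 1)
  obtain ⟨c, hc, hP⟩ := PP_imag J
  set y : ℝ := max (max R 5) c⁻¹ with hy
  have h1 : R ≤ y := (le_max_left _ _).trans (le_max_left _ _)
  have h2 : 5 ≤ y := (le_max_right _ _).trans (le_max_left _ _)
  have h3 : c⁻¹ ≤ y := le_max_right _ _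
  have hn : ‖(y * I : ℂ)‖ = y := by simp [abs_of_pos (show 0 < y by linarith)]
  refine ⟨y * I, by rwa [hn], ?_⟩
  rw [hn, FF, norm_mul]
  have h4 : 1 ≤ ‖Complex.cos (y * I) - Complex.cos I‖ := by
    rw [Complex.cos_mul_I, cos_I, ← Complex.ofReal_cosh, ← Complex.ofReal_sub, Complex.norm_real,
      Real.norm_eq_abs]
    refine le_trans ?_ (le_abs_self _)
    have h5 : 3 ≤ Real.cosh y := by
      rw [Real.cosh_eq]
      linarith [Real.add_one_le_exp y, Real.exp_pos (-y)]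
    linarith [cosh_one_le]
  have h5 : 1 < c * Real.exp y := by
    have h6 : c⁻¹ < Real.exp y := by linarith [Real.add_one_le_exp y]
    calc (1 : ℝ) = c * c⁻¹ := by field_simp
      _ < _ := by gcongr
  calc Real.exp (C * y) < c * Real.exp y * Real.exp (C * y) :=
        lt_mul_of_one_lt_left (Real.exp_pos _) h5
    _ = c * Real.exp ((C + 1) * y) := by rw [mul_assoc, ← Real.exp_add]; congr 2; ring
    _ ≤ c * Real.exp (J * y) := by gcongr
    _ ≤ ‖PP (y * I)‖ := hP y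
    _ ≤ _ := le_mul_of_one_le_left (norm_nonneg _) h4

theorem sphere_min : ∃ m : ℝ, 0 < m ∧ ∀ w ∈ sphere (I : ℂ) (1 / 2),
    m ≤ ‖Complex.cos w - Complex.cos I‖ := by
  have hne : (sphere (I : ℂ) (1 / 2)).Nonempty := NormedSpace.sphere_nonempty.2 (by norm_num)
  obtain ⟨w, hw, hmin⟩ := (isCompact_sphere (I : ℂ) (1 / 2)).exists_isMinOn hne
    (f := fun w => ‖Complex.cos w - Complex.cos I‖) (by fun_prop)
  refine ⟨_, ?_, fun v hv => hmin hv⟩
  rw [norm_pos_iff]
  intro h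
  have hw' : ‖w - I‖ = 1 / 2 := mem_sphere_iff_norm.1 hw
  rcases cos_eq_cos_I w h with ⟨n, hn⟩ | ⟨n, hn⟩
  · have h1 := Complex.abs_im_le_norm (w - I)
    rw [hw', hn] at h1
    norm_num at h1
  · have h1 : w - I = ((2 * (n * Real.pi) : ℝ) : ℂ) := by rw [hn]; push_cast; ring
    rw [h1, Complex.norm_real, Real.norm_eq_abs, abs_mul, abs_mul, abs_of_pos Real.pi_pos] at hw'
    rcases eq_or_ne n 0 with rfl | h0
    · norm_num at hw'
    · have h2 : (1 : ℝ) ≤ |(n : ℝ)| := by exact_mod_cast Int.one_le_abs h0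
      have h3 : |(2 : ℝ)| = 2 := abs_of_pos (by norm_num)
      rw [h3] at hw'
      nlinarith [Real.pi_gt_three]

theorem main_zero : ∃ lam : ℝ, 0 < lam ∧
    ∀ B : ℝ, ∃ z : ℂ, B < ‖z‖ ∧ z.im ≠ 0 ∧ ∑' k : ℕ, term FF lam k z = 0 := by
  obtain ⟨m, hm, hsph⟩ := sphere_min
  obtain ⟨lam, hl, H⟩ := heat_zero FF FF_diff FF_le_sq (m * (1 / 2)) (by positivity)
  refine ⟨lam, hl, fun B => ?_⟩
  obtain ⟨j, hj⟩ := exists_nat_ge (B + 1)
  have hper : ∀ w : ℂ, Complex.cos (2 * Real.pi * NN j + w) = Complex.cos w := by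
    intro w
    rw [show (2 * Real.pi * NN j + w : ℂ) = w + NN j * (2 * Real.pi) by ring,
      Complex.cos_add_nat_mul_two_pi]
  obtain ⟨z, hz, hz0⟩ := H (2 * Real.pi * NN j + I) (by simp) (by rw [FF, hper]; simp) (by
    intro w hw
    obtain ⟨v, rfl⟩ : ∃ v, w = 2 * Real.pi * NN j + v := ⟨w - 2 * Real.pi * NN j, by ring⟩
    have hv : ‖v - I‖ = 1 / 2 := by
      rw [← mem_sphere_iff_norm.1 hw]; congr 1; ring
    rw [FF, hper, norm_mul]
    apply mul_le_mul (hsph v (mem_sphere_iff_norm.2 hv)) (PP_near j v ?_) (by norm_num)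
      (norm_nonneg _)
    have := norm_add_le (v - I) I
    rw [sub_add_cancel, hv, Complex.norm_I] at this
    linarith)
  have hz' := mem_closedBall_iff_norm.1 hz
  refine ⟨z, ?_, ?_, hz0⟩
  · have h1 := abs_le.1 ((Complex.abs_re_le_norm _).trans hz')
    have h2 : (z - (2 * Real.pi * NN j + I)).re = z.re - 2 * Real.pi * NN j := by simp
    rw [h2] at h1
    have h3 : (j : ℝ) ≤ NN j := by
      have h4 : j < 2 ^ j := Nat.lt_two_pow_self
      have h5 : 2 ^ j ≤ 2 ^ (j + 12) := Nat.pow_le_pow_right (by norm_num) (by omega)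
      exact_mod_cast (h4.le.trans h5).trans (NN_ge j)
    have h4 := Complex.re_le_norm z
    have h5 := NN_pos' j
    nlinarith [Real.pi_gt_three, h1.1]
  · have h1 := abs_le.1 ((Complex.abs_im_le_norm _).trans hz')
    have h2 : (z - (2 * Real.pi * NN j + I)).im = z.im - 1 := by simp
    rw [h2] at h1
    intro h
    linarith [h1.1]

end Pool.Agent.Lib.H3Heat
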