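import Mathlib

namespace Pool.Agent.Lib.helper3.KS

/-- A complex Banach space. -/
structure Ban where
  X : Type
  [grp : NormedAddCommGroup X]
  [spc : NormedSpace ℂ X]
  [cpl : CompleteSpace X]

instance (E : Ban) : NormedAddCommGroup E.X := E.grp

instance (E : Ban) : NormedSpace ℂ E.X := E.spc

instance (E : Ban) : CompleteSpace E.X := E.cpl

/-- A Banach algebra, no unit assumed: a Banach space with an associative bilinear contractive
product. -/
structure BAlg where
  B : Ban
  m : B.X → B.X → B.X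
  lin_left : ∀ b, IsLinearMap ℂ fun a => m a b
  lin_right : ∀ a, IsLinearMap ℂ (m a)
  assoc : ∀ a b c, m (m a b) c = m a (m b c)
  norm_le : ∀ a b, ‖m a b‖ ≤ ‖a‖ * ‖b‖

/-- The opposite algebra; its left modules and left ideals are the right modules and right ideals
of `A`. -/
def BAlg.op (A : BAlg) : BAlg where
  B := A.B
  m a b := A.m b a
  lin_left := A.lin_right
  lin_right := A.lin_left
  assoc a b c := (A.assoc c b a).symm
  norm_le a b := (A.norm_le b a).trans_eq (mul_comm _ _)

/-- A Banach left module. -/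
structure LMod (A : BAlg) where
  M : Ban
  act : A.B.X → M.X → M.X
  lin_left : ∀ x, IsLinearMap ℂ fun a => act a x
  lin_right : ∀ a, IsLinearMap ℂ (act a)
  act_mul : ∀ a b x, act (A.m a b) x = act a (act b x)
  norm_act : ∀ a x, ‖act a x‖ ≤ ‖a‖ * ‖x‖

variable {A : BAlg}

/-- `f` is a morphism of Banach modules. -/
def IsHom (P Q : LMod A) (f : P.M.X → Q.M.X) : Prop :=
  IsBoundedLinearMap ℂ f ∧ ∀ a x, f (P.act a x) = Q.act a (f x)

/-- `f` has a bounded linear right inverse. -/
def HasLinRightInv {X Y : Ban} (f : X.X → Y.X) : Prop :=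
  ∃ r : Y.X → X.X, IsBoundedLinearMap ℂ r ∧ ∀ y, f (r y) = y

/-- Projectivity, retraction form. -/
def ProjR (P : LMod A) : Prop :=
  ∀ (Y : LMod A) (φ : Y.M.X → P.M.X), IsHom Y P φ → HasLinRightInv φ →
    ∃ ψ : P.M.X → Y.M.X, IsHom P Y ψ ∧ ∀ x, φ (ψ x) = x

/-- Projectivity, lifting form. -/
def ProjL (P : LMod A) : Prop :=
  ∀ (X Y : LMod A) (σ : X.M.X → Y.M.X), IsHom X Y σ → HasLinRightInv σ →
    ∀ φ : P.M.X → Y.M.X, IsHom P Y φ → ∃ ψ : P.M.X → X.M.X, IsHom P X ψ ∧ ∀ x, σ (ψ x) = φ x

/-- `A` as a left module over itself. -/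
def reg (A : BAlg) : LMod A where
  M := A.B
  act := A.m
  lin_left := A.lin_left
  lin_right := A.lin_right
  act_mul := A.assoc
  norm_act := A.norm_le

/-- A closed subspace as a Banach space. -/
noncomputable def Sub (B : Ban) (S : Submodule ℂ B.X) (hc : IsClosed (S : Set B.X)) : Ban where
  X := S
  cpl := hc.completeSpace_coe

/-- A closed left ideal as a left module. -/
noncomputable def ideal (A : BAlg) (I : Submodule ℂ A.B.X) (hc : IsClosed (I : Set A.B.X))
    (hI : ∀ a, ∀ x ∈ I, A.m a x ∈ I) : LMod A where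
  M := Sub A.B I hc
  act a x := ⟨A.m a x.1, hI a x.1 x.2⟩
  lin_left x := ⟨fun a b => Subtype.ext ((A.lin_left x.1).map_add a b),
    fun c a => Subtype.ext ((A.lin_left x.1).map_smul c a)⟩
  lin_right a := ⟨fun x y => Subtype.ext ((A.lin_right a).map_add x.1 y.1),
    fun c x => Subtype.ext ((A.lin_right a).map_smul c x.1)⟩
  act_mul a b x := Subtype.ext (A.assoc a b x.1)
  norm_act a x := A.norm_le a x.1

/-- Every closed left ideal is projective. -/
def Hereditary (A : BAlg) : Prop :=
  ∀ (I : Submodule ℂ A.B.X) (hc : IsClosed (I : Set A.B.X)) (hI : ∀ a, ∀ x ∈ I, A.m a x ∈ I),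
    ProjL (ideal A I hc hI)

/-- Bounded operators on `E` with the operator norm. -/
noncomputable def Op (E : Ban) : Ban where
  X := E.X →L[ℂ] E.X

/-- An operator as a function. -/
def app {E : Ban} (T : (Op E).X) : E.X → E.X := DFunLike.coe (F := E.X →L[ℂ] E.X) T

/-- Composition of operators. -/
noncomputable def comp {E : Ban} (S T : (Op E).X) : (Op E).X :=
  ContinuousLinearMap.comp (σ₁₂ := RingHom.id ℂ) (σ₂₃ := RingHom.id ℂ) S T

/-- The subspace of compact operators. -/
def KSub (E : Ban) : Submodule ℂ (Op E).X where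
  carrier := {T | IsCompactOperator (app T)}
  add_mem' hT hU := IsCompactOperator.add hT hU
  zero_mem' := isCompactOperator_zero
  smul_mem' c _ hT := IsCompactOperator.smul hT c

theorem isClosed_KSub (E : Ban) : IsClosed (KSub E : Set (Op E).X) :=
  isClosed_setOfPred_isCompactOperator (σ₁₂ := RingHom.id ℂ) (M₁ := E.X) (M₂ := E.X)

theorem comp_mem {E : Ban} {S : (Op E).X} (hS : S ∈ KSub E) (T : (Op E).X) : comp S T ∈ KSub E :=
  IsCompactOperator.comp_clm (f := app S) hS (T : E.X →L[ℂ] E.X)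

/-- The Banach algebra of compact operators on `E`. -/
noncomputable def K (E : Ban) : BAlg where
  B := Sub (Op E) (KSub E) (isClosed_KSub E)
  m S T := ⟨comp S.1 T.1, comp_mem S.2 T.1⟩
  lin_left T := ⟨fun S U => Subtype.ext (ContinuousLinearMap.add_comp S.1 U.1 T.1),
    fun c S => Subtype.ext (ContinuousLinearMap.smul_comp c S.1 T.1)⟩
  lin_right S := ⟨fun T U => Subtype.ext (ContinuousLinearMap.comp_add S.1 T.1 U.1),
    fun c T => Subtype.ext (ContinuousLinearMap.comp_smul S.1 c T.1)⟩
  assoc _ _ _ := rfl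
  norm_le S T := ContinuousLinearMap.opNorm_comp_le S.1 T.1

end Pool.Agent.Lib.helper3.KS
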