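import Pool.Agent.Lib.helper3.KRight2
import Pool.Agent.Lib.helper3.KStmt

namespace Pool.Agent.Lib.helper3.KS

open Pool.Agent.Lib.helper3

lemma bridge (A : BAlg) {A' : Type} [NormedAddCommGroup A'] [NormedSpace ℂ A'] [CompleteSpace A']
    (μ : KP.BMul A') (e : A' ≃ₗᵢ[ℂ] A.B.X) (he : ∀ a b, e (μ.m a b) = A.m (e a) (e b))
    (h : ProjR (reg A)) : KP.ProjectiveR (KP.reg μ) := by
  rintro Y φ hφ ⟨r, hr⟩
  have he' : ∀ a b, e.symm (A.m a b) = μ.m (e.symm a) (e.symm b) := fun a b =>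
    e.injective (by rw [he, e.apply_symm_apply, e.apply_symm_apply, e.apply_symm_apply])
  let Y' : LMod A :=
    { M := ⟨Y.X⟩
      act := fun a x => Y.act (e.symm a) x
      lin_left := fun x => ⟨fun a b => by rw [map_add, map_add]; rfl,
        fun c a => by rw [map_smul, map_smul]; rfl⟩
      lin_right := fun a => (Y.act (e.symm a)).isLinear
      act_mul := fun a b x => by rw [he', Y.act_mul]
      norm_act := fun a x => by
        have h1 := Y.norm_act (e.symm a) x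
        rwa [e.symm.norm_map] at h1 }
  let φ0 : Y.X →L[ℂ] A' := φ
  let r0 : A' →L[ℂ] Y.X := r
  have hr0 : ∀ x, φ0 (r0 x) = x := hr
  have hφ0 : ∀ a x, φ0 (Y.act a x) = μ.m a (φ0 x) := hφ
  obtain ⟨ψ, ⟨hψ1, hψ2⟩, hid⟩ := h Y' (fun x => e (φ0 x))
    ⟨((e.toContinuousLinearEquiv : A' →L[ℂ] A.B.X).comp φ0).isBoundedLinearMap, fun a x => by
      have h1 : e (φ0 (Y.act (e.symm a) x)) = A.m a (e (φ0 x)) := by
        rw [hφ0, he, e.apply_symm_apply]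
      exact h1⟩
    ⟨fun y => r0 (e.symm y),
      (r0.comp (e.symm.toContinuousLinearEquiv : A.B.X →L[ℂ] A')).isBoundedLinearMap, fun y => by
        have h1 : e (φ0 (r0 (e.symm y))) = y := by rw [hr0, e.apply_symm_apply]
        exact h1⟩
  let ψ0 : A.B.X →L[ℂ] Y.X := hψ1.toContinuousLinearMap
  have hψ0 : ∀ a x, ψ0 (A.m a x) = Y.act (e.symm a) (ψ0 x) := hψ2
  have hid0 : ∀ x, e (φ0 (ψ0 x)) = x := hid
  refine ⟨ψ0.comp (e.toContinuousLinearEquiv : A' →L[ℂ] A.B.X), fun a x => ?_, fun x => ?_⟩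
  · have h1 : ψ0 (e (μ.m a x)) = Y.act a (ψ0 (e x)) := by rw [he, hψ0, e.symm_apply_apply]
    exact h1
  · exact e.injective (hid0 (e x))

lemma ProjL.toR {A : BAlg} {P : LMod A} (h : ProjL P) : ProjR P := fun Y φ hφ hr =>
  h Y P φ hφ hr id ⟨IsBoundedLinearMap.id, fun _ _ => rfl⟩

lemma Hereditary.proj {A : BAlg} (h : Hereditary A) : ProjR (reg A) := by
  intro Y φ hφ hr
  obtain ⟨ψ, ⟨hψ1, hψ2⟩, hid⟩ := h ⊤ isClosed_univ (fun _ _ _ => Submodule.mem_top) Y (reg A) φ hφ hr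
    Subtype.val ⟨(⊤ : Submodule ℂ A.B.X).subtypeL.isBoundedLinearMap, fun _ _ => rfl⟩
  let j : A.B.X →L[ℂ] (⊤ : Submodule ℂ A.B.X) :=
    (ContinuousLinearMap.id ℂ A.B.X).codRestrict ⊤ fun _ => Submodule.mem_top
  exact ⟨fun x => ψ (j x), ⟨hψ1.comp j.isBoundedLinearMap, fun a x => hψ2 a (j x)⟩,
    fun x => hid (j x)⟩

/-- The two models of the compact operators agree. -/
noncomputable def eK (E : Ban) : KP.KA E.X ≃ₗᵢ[ℂ] (K E).B.X where
  toFun T := ⟨T.1, T.2⟩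
  invFun T := ⟨T.1, T.2⟩
  map_add' _ _ := rfl
  map_smul' _ _ := rfl
  left_inv _ := rfl
  right_inv _ := rfl
  norm_map' _ := rfl

lemma left_of (E : Ban) (h : ProjR (reg (K E))) :
    KP.ProjectiveR (KP.reg (KP.leftMul (KP.KA E.X))) :=
  bridge (K E) _ (eK E) (fun _ _ => rfl) h

lemma right_of (E : Ban) (h : ProjR (reg (K E).op)) :
    KP.ProjectiveR (KP.reg (KP.rightMul (KP.KA E.X))) :=
  bridge (K E).op _ (eK E) (fun _ _ => rfl) h

theorem not_left : ∃ E : Ban, ¬ ProjR (reg (K E)) :=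
  ⟨⟨KP.L1⟩, fun h => KP.not_proj_left (left_of ⟨KP.L1⟩ h)⟩

theorem not_right : ∃ E : Ban, ¬ ProjR (reg (K E).op) :=
  ⟨⟨KP.JL⟩, fun h => KP.not_proj_right (E := (⟨KP.JL⟩ : Ban).X) KP.jd (right_of ⟨KP.JL⟩ h)⟩

end Pool.Agent.Lib.helper3.KS
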