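import Mathlib

namespace Pool.Agent.Lib.helper3.KP

/-- An associative, contractive bilinear multiplication on a normed space `A`. -/
structure BMul (A : Type) [NormedAddCommGroup A] [NormedSpace ℂ A] where
  m : A →ₗ[ℂ] A →ₗ[ℂ] A
  assoc : ∀ a b c, m (m a b) c = m a (m b c)
  norm_le : ∀ a b, ‖m a b‖ ≤ ‖a‖ * ‖b‖

section Sides

variable (A : Type) [NonUnitalNormedRing A] [NormedSpace ℂ A] [IsScalarTower ℂ A A]
  [SMulCommClass ℂ A A]

/-- The product `a * b` of a normed algebra: its modules are the left modules. -/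
def leftMul : BMul A where
  m := LinearMap.mul ℂ A
  assoc := mul_assoc
  norm_le := norm_mul_le

/-- The opposite product `b * a`: its modules are the right modules, `act a x` being `x · a`. -/
def rightMul : BMul A where
  m := (LinearMap.mul ℂ A).flip
  assoc a b c := (mul_assoc c b a).symm
  norm_le a b := (norm_mul_le b a).trans_eq (mul_comm _ _)

end Sides

variable {A : Type} [NormedAddCommGroup A] [NormedSpace ℂ A]

/-- A Banach module over `(A, μ)`. -/
structure Mod (μ : BMul A) where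
  X : Type
  [grp : NormedAddCommGroup X]
  [spc : NormedSpace ℂ X]
  [cpl : CompleteSpace X]
  act : A →ₗ[ℂ] X →ₗ[ℂ] X
  act_mul : ∀ a b x, act (μ.m a b) x = act a (act b x)
  norm_act : ∀ a x, ‖act a x‖ ≤ ‖a‖ * ‖x‖

variable {μ : BMul A}

instance (M : Mod μ) : NormedAddCommGroup M.X := M.grp

instance (M : Mod μ) : NormedSpace ℂ M.X := M.spc

instance (M : Mod μ) : CompleteSpace M.X := M.cpl

/-- `f` is a morphism of modules. -/
def IsHom (M N : Mod μ) (f : M.X →L[ℂ] N.X) : Prop :=
  ∀ a x, f (M.act a x) = N.act a (f x)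

/-- Projectivity, retraction form: every morphism onto `P` with a bounded linear right inverse
has a right inverse that is a morphism. -/
def ProjectiveR (P : Mod μ) : Prop :=
  ∀ (Y : Mod μ) (φ : Y.X →L[ℂ] P.X), IsHom Y P φ → (∃ r : P.X →L[ℂ] Y.X, ∀ x, φ (r x) = x) →
    ∃ ψ : P.X →L[ℂ] Y.X, IsHom P Y ψ ∧ ∀ x, φ (ψ x) = x

/-- Projectivity, lifting form: morphisms out of `P` lift along every morphism that has a bounded
linear right inverse. -/
def ProjectiveL (P : Mod μ) : Prop :=
  ∀ (X Y : Mod μ) (σ : X.X →L[ℂ] Y.X), IsHom X Y σ → (∃ r : Y.X →L[ℂ] X.X, ∀ y, σ (r y) = y) →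
    ∀ φ : P.X →L[ℂ] Y.X, IsHom P Y φ → ∃ ψ : P.X →L[ℂ] X.X, IsHom P X ψ ∧ ∀ x, σ (ψ x) = φ x

/-- `A` as a module over itself. -/
def reg (μ : BMul A) [CompleteSpace A] : Mod μ where
  X := A
  act := μ.m
  act_mul := μ.assoc
  norm_act := μ.norm_le

/-- A closed one-sided ideal `I` as a module over `A`. -/
noncomputable def idealMod (μ : BMul A) [CompleteSpace A] (I : Submodule ℂ A)
    (hc : IsClosed (I : Set A)) (hI : ∀ a, ∀ x ∈ I, μ.m a x ∈ I) : Mod μ where
  X := I
  cpl := hc.completeSpace_coe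
  act := LinearMap.mk₂ ℂ (fun a (x : I) => (⟨μ.m a x, hI a x x.2⟩ : I))
    (fun a b x => Subtype.ext (by simp))
    (fun c a x => Subtype.ext (by simp))
    (fun a x y => Subtype.ext (by simp))
    (fun c a x => Subtype.ext (by simp))
  act_mul a b x := Subtype.ext (μ.assoc a b x)
  norm_act a x := μ.norm_le a x

/-- Every closed one-sided ideal is projective. -/
def Hereditary (μ : BMul A) [CompleteSpace A] : Prop :=
  ∀ (I : Submodule ℂ A) (hc : IsClosed (I : Set A)) (hI : ∀ a, ∀ x ∈ I, μ.m a x ∈ I),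
    ProjectiveL (idealMod μ I hc hI)

/-- The algebra of compact operators on `E`. -/
def KA (E : Type) [NormedAddCommGroup E] [NormedSpace ℂ E] :
    NonUnitalSubalgebra ℂ (E →L[ℂ] E) where
  carrier := {T | IsCompactOperator T}
  add_mem' hT hU := hT.add hU
  zero_mem' := isCompactOperator_zero
  mul_mem' {_ U} hT _ := hT.comp_clm U
  smul_mem' c _ hT := hT.smul c

noncomputable instance (E : Type) [NormedAddCommGroup E] [NormedSpace ℂ E] :
    NormedSpace ℂ (KA E) := (KA E).toSubmodule.normedSpace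

instance (E : Type) [NormedAddCommGroup E] [NormedSpace ℂ E] [CompleteSpace E] :
    CompleteSpace (KA E) :=
  (isClosed_setOfPred_isCompactOperator (σ₁₂ := RingHom.id ℂ) (M₁ := E) (M₂ := E)).completeSpace_coe

end Pool.Agent.Lib.helper3.KP
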