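import Pool.Agent.Lib.helper3.KDefs

namespace Pool.Agent.Lib.helper3.KP

open Filter Topology

section Gen

variable {A B Λ : Type} [NormedAddCommGroup A] [NormedSpace ℂ A] [NormedAddCommGroup B]
  [NormedSpace ℂ B]

/-- The bound predicate. -/
def Bd {Idx : Type} (q : Idx → Seminorm ℂ (Λ → B)) (v : A × (Λ → B)) (M : ℝ) : Prop :=
  ‖v.1‖ ≤ M ∧ (∀ l, ‖v.2 l‖ ≤ M) ∧ ∀ i, q i v.2 ≤ M

variable {Idx : Type} {q : Idx → Seminorm ℂ (Λ → B)}

omit [NormedSpace ℂ A] in
lemma Bd.add {v w : A × (Λ → B)} {M N : ℝ} (hv : Bd q v M) (hw : Bd q w N) :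
    Bd q (v + w) (M + N) :=
  ⟨(norm_add_le _ _).trans (add_le_add hv.1 hw.1),
    fun l => (norm_add_le _ _).trans (add_le_add (hv.2.1 l) (hw.2.1 l)),
    fun i => (map_add_le_add (q i) _ _).trans (add_le_add (hv.2.2 i) (hw.2.2 i))⟩

lemma Bd.smul {v : A × (Λ → B)} {M : ℝ} (c : ℂ) (hv : Bd q v M) : Bd q (c • v) (‖c‖ * M) :=
  ⟨(norm_smul_le c v.1).trans (mul_le_mul_of_nonneg_left hv.1 (norm_nonneg c)),
    fun l => (norm_smul_le c (v.2 l)).trans (mul_le_mul_of_nonneg_left (hv.2.1 l) (norm_nonneg c)),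
    fun i => (map_smul_eq_mul (q i) c v.2).trans_le
      (mul_le_mul_of_nonneg_left (hv.2.2 i) (norm_nonneg c))⟩

lemma Bd.neg {v : A × (Λ → B)} {M : ℝ} (hv : Bd q v M) : Bd q (-v) M := by
  have h := hv.smul (-1)
  rwa [neg_one_smul, norm_neg, norm_one, one_mul] at h

omit [NormedSpace ℂ A] in
lemma bd_zero : Bd q (0 : A × (Λ → B)) 0 :=
  ⟨norm_zero.le, fun _ => norm_zero.le, fun i => (map_zero (q i)).le⟩

/-- The data of a test module. -/
structure Data (A B Λ : Type) [NormedAddCommGroup A] [NormedSpace ℂ A] [NormedAddCommGroup B]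
    [NormedSpace ℂ B] where
  Idx : Type
  q : Idx → Seminorm ℂ (Λ → B)
  cont : ∀ i, Continuous (q i)
  C : Submodule ℂ (A × (Λ → B))
  closed : ∀ w, (∀ ε > 0, ∃ v ∈ C, Bd q (v - w) ε) → w ∈ C

variable (D : Data A B Λ)

/-- Bounded elements. -/
def Data.sub : Submodule ℂ (A × (Λ → B)) where
  carrier := {v | v ∈ D.C ∧ ∃ M, Bd D.q v M}
  add_mem' := fun ⟨h1, _, h2⟩ ⟨h3, _, h4⟩ => ⟨D.C.add_mem h1 h3, _, h2.add h4⟩
  zero_mem' := ⟨D.C.zero_mem, _, bd_zero⟩
  smul_mem' := fun c _ ⟨h1, _, h2⟩ => ⟨D.C.smul_mem c h1, _, h2.smul c⟩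

/-- The carrier of the test module. -/
def Data.X : Type := D.sub

instance : AddCommGroup D.X := inferInstanceAs (AddCommGroup D.sub)

noncomputable instance : Module ℂ D.X := inferInstanceAs (Module ℂ D.sub)

/-- The underlying family. -/
noncomputable def Data.val : D.X →ₗ[ℂ] A × (Λ → B) := D.sub.subtype

lemma Data.val_mem (x : D.X) : D.val x ∈ D.C ∧ ∃ M, Bd D.q (D.val x) M := Subtype.property x

lemma Data.val_inj {x y : D.X} (h : D.val x = D.val y) : x = y := Subtype.ext h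

/-- The gauge. -/
noncomputable def Data.nrm (x : D.X) : ℝ := sInf {M | Bd D.q (D.val x) M}

lemma Data.nrm_le {x : D.X} {M : ℝ} (h : Bd D.q (D.val x) M) : D.nrm x ≤ M :=
  csInf_le ⟨0, fun _ hN => (norm_nonneg _).trans hN.1⟩ h

lemma Data.bd_nrm (x : D.X) : Bd D.q (D.val x) (D.nrm x) := by
  have hne : {M | Bd D.q (D.val x) M}.Nonempty := (D.val_mem x).2
  exact ⟨le_csInf hne fun _ hN => hN.1, fun l => le_csInf hne fun _ hN => hN.2.1 l,
    fun i => le_csInf hne fun _ hN => hN.2.2 i⟩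

/-- The gauge as a group norm. -/
noncomputable def Data.gn : AddGroupNorm D.X where
  toFun := D.nrm
  map_zero' := le_antisymm (D.nrm_le (by rw [map_zero]; exact bd_zero))
    ((norm_nonneg _).trans (D.bd_nrm 0).1)
  add_le' x y := D.nrm_le (by rw [map_add]; exact (D.bd_nrm x).add (D.bd_nrm y))
  neg' x := by
    refine le_antisymm (D.nrm_le (by rw [map_neg]; exact (D.bd_nrm x).neg)) (D.nrm_le ?_)
    have h := (D.bd_nrm (-x)).neg
    rwa [map_neg, neg_neg] at h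
  eq_zero_of_map_eq_zero' x hx := by
    have h := D.bd_nrm x
    rw [hx] at h
    refine D.val_inj ?_
    rw [map_zero]
    exact Prod.ext (norm_le_zero_iff.1 h.1) (funext fun l => norm_le_zero_iff.1 (h.2.1 l))

noncomputable instance : NormedAddCommGroup D.X := D.gn.toNormedAddCommGroup

lemma Data.norm_le {x : D.X} {M : ℝ} (h : Bd D.q (D.val x) M) : ‖x‖ ≤ M := D.nrm_le h

lemma Data.bd_norm (x : D.X) : Bd D.q (D.val x) ‖x‖ := D.bd_nrm x

noncomputable instance : NormedSpace ℂ D.X where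
  norm_smul_le c x := D.norm_le (by rw [map_smul]; exact (D.bd_norm x).smul c)

instance [CompleteSpace A] [CompleteSpace B] : CompleteSpace D.X := by
  refine Metric.complete_of_cauchySeq_tendsto fun u hu => ?_
  have hu' := Metric.cauchySeq_iff.1 hu
  have hb : ∀ m n, Bd D.q (D.val (u m) - D.val (u n)) (dist (u m) (u n)) := by
    intro m n
    rw [dist_eq_norm, ← map_sub]
    exact D.bd_norm _
  have h1 : CauchySeq fun n => (D.val (u n)).1 := Metric.cauchySeq_iff.2 fun ε hε => by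
    obtain ⟨N, hN⟩ := hu' ε hε
    refine ⟨N, fun m hm n hn => ?_⟩
    rw [dist_eq_norm]
    exact (hb m n).1.trans_lt (hN m hm n hn)
  have h2 : ∀ l, CauchySeq fun n => (D.val (u n)).2 l := fun l =>
    Metric.cauchySeq_iff.2 fun ε hε => by
      obtain ⟨N, hN⟩ := hu' ε hε
      refine ⟨N, fun m hm n hn => ?_⟩
      rw [dist_eq_norm]
      exact ((hb m n).2.1 l).trans_lt (hN m hm n hn)
  obtain ⟨a, ha⟩ := cauchySeq_tendsto_of_complete h1
  choose ξ hξ using fun l => cauchySeq_tendsto_of_complete (h2 l)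
  have hξ' : Tendsto (fun n => (D.val (u n)).2) atTop (𝓝 ξ) := tendsto_pi_nhds.2 hξ
  have key : ∀ ε > 0, ∃ N, ∀ n ≥ N, Bd D.q (D.val (u n) - (a, ξ)) ε := by
    intro ε hε
    obtain ⟨N, hN⟩ := hu' ε hε
    refine ⟨N, fun n hn => ⟨?_, fun l => ?_, fun i => ?_⟩⟩
    · refine le_of_tendsto (ha.const_sub (D.val (u n)).1).norm ?_
      filter_upwards [eventually_ge_atTop N] with m hm
      exact (hb n m).1.trans (hN n hn m hm).le
    · refine le_of_tendsto ((hξ l).const_sub ((D.val (u n)).2 l)).norm ?_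
      filter_upwards [eventually_ge_atTop N] with m hm
      exact ((hb n m).2.1 l).trans (hN n hn m hm).le
    · refine le_of_tendsto (((D.cont i).tendsto _).comp (hξ'.const_sub (D.val (u n)).2)) ?_
      filter_upwards [eventually_ge_atTop N] with m hm
      exact ((hb n m).2.2 i).trans (hN n hn m hm).le
  have hC : (a, ξ) ∈ D.C := D.closed _ fun ε hε => by
    obtain ⟨N, hN⟩ := key ε hε
    exact ⟨_, (D.val_mem (u N)).1, hN N le_rfl⟩
  have hB : ∃ M, Bd D.q (a, ξ) M := by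
    obtain ⟨N, hN⟩ := key 1 one_pos
    have h3 := (D.bd_norm (u N)).add (hN N le_rfl).neg
    rw [neg_sub, add_sub_cancel] at h3
    exact ⟨_, h3⟩
  let W : D.X := (⟨(a, ξ), hC, hB⟩ : D.sub)
  refine ⟨W, Metric.tendsto_atTop.2 fun ε hε => ?_⟩
  obtain ⟨N, hN⟩ := key (ε / 2) (half_pos hε)
  refine ⟨N, fun n hn => ?_⟩
  rw [dist_eq_norm]
  refine lt_of_le_of_lt (D.norm_le ?_) (half_lt_self hε)
  rw [map_sub]
  exact hN n hn

theorem crit [CompleteSpace A] [CompleteSpace B] (μ : BMul A) (actB : A →ₗ[ℂ] B →ₗ[ℂ] B)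
    (hmul : ∀ a b x, actB (μ.m a b) x = actB a (actB b x))
    (hnB : ∀ a x, ‖actB a x‖ ≤ ‖a‖ * ‖x‖)
    (hq : ∀ a ξ M, (∀ i, D.q i ξ ≤ M) → ∀ i, D.q i (fun l => actB a (ξ l)) ≤ ‖a‖ * M)
    (hC : ∀ a, ∀ v ∈ D.C, (μ.m a v.1, fun l => actB a (v.2 l)) ∈ D.C)
    (r : A →ₗ[ℂ] (Λ → B)) (hrC : ∀ T, (T, r T) ∈ D.C) (hrB : ∀ T, Bd D.q (T, r T) ‖T‖)
    (hP : ProjectiveR (reg μ)) :
    ∃ (ρ : A →ₗ[ℂ] (Λ → B)) (M : ℝ), (∀ T, (T, ρ T) ∈ D.C ∧ ∀ i, D.q i (ρ T) ≤ M * ‖T‖) ∧
      ∀ a T l, ρ (μ.m a T) l = actB a (ρ T l) := by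
  have hbd : ∀ a v M, Bd D.q v M → Bd D.q (μ.m a v.1, fun l => actB a (v.2 l)) (‖a‖ * M) :=
    fun a v M h => ⟨(μ.norm_le a v.1).trans (mul_le_mul_of_nonneg_left h.1 (norm_nonneg a)),
      fun l => (hnB a _).trans (mul_le_mul_of_nonneg_left (h.2.1 l) (norm_nonneg a)),
      hq a v.2 M h.2.2⟩
  let f : A → D.X → D.X := fun a x =>
    (⟨(μ.m a (D.val x).1, fun l => actB a ((D.val x).2 l)), hC a _ (D.val_mem x).1, _,
      hbd a _ _ (D.bd_norm x)⟩ : D.sub)
  have hf : ∀ a x, D.val (f a x) = (μ.m a (D.val x).1, fun l => actB a ((D.val x).2 l)) :=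
    fun a x => rfl
  let Y : Mod μ :=
    { X := D.X
      act := LinearMap.mk₂ ℂ f
        (fun a b x => D.val_inj (by
          rw [map_add, hf, hf, hf]
          exact Prod.ext (by simp) (funext fun l => by simp)))
        (fun c a x => D.val_inj (by
          rw [map_smul, hf, hf]
          exact Prod.ext (by simp) (funext fun l => by simp)))
        (fun a x y => D.val_inj (by
          rw [map_add, hf, hf, hf, map_add]
          exact Prod.ext (by simp) (funext fun l => by simp)))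
        (fun c a x => D.val_inj (by
          rw [map_smul, hf, hf, map_smul]
          exact Prod.ext (by simp) (funext fun l => by simp)))
      act_mul := fun a b x => D.val_inj
        (Prod.ext (μ.assoc a b _) (funext fun l => hmul a b _))
      norm_act := fun a x => D.norm_le (hbd a _ _ (D.bd_norm x)) }
  let φ : D.X →L[ℂ] A := ((LinearMap.fst ℂ A (Λ → B)).comp D.val).mkContinuous 1 fun x => by
    rw [one_mul]
    exact (D.bd_norm x).1
  let r0 : A →ₗ[ℂ] D.X :=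
    { toFun := fun T => (⟨(T, r T), hrC T, _, hrB T⟩ : D.sub)
      map_add' := fun T U => D.val_inj (Prod.ext rfl (map_add r T U))
      map_smul' := fun c T => D.val_inj (Prod.ext rfl (map_smul r c T)) }
  let r1 : A →L[ℂ] D.X := r0.mkContinuous 1 fun T => by
    rw [one_mul]
    exact D.norm_le (hrB T)
  obtain ⟨ψ, hψ, hid⟩ := hP Y φ (fun a x => rfl) ⟨r1, fun T => rfl⟩
  let ψ' : A →L[ℂ] D.X := ψ
  have hid' : ∀ T, (D.val (ψ' T)).1 = T := hid
  refine ⟨(LinearMap.snd ℂ A (Λ → B)).comp (D.val.comp ψ'.toLinearMap), ‖ψ'‖,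
    fun T => ⟨?_, fun i => ?_⟩, fun a T l => ?_⟩
  · have h1 := (D.val_mem (ψ' T)).1
    have h2 : D.val (ψ' T) = (T, (D.val (ψ' T)).2) := Prod.ext (hid' T) rfl
    rw [h2] at h1
    exact h1
  · exact ((D.bd_norm (ψ' T)).2.2 i).trans (ψ'.le_opNorm T)
  · have h3 : ψ' (μ.m a T) = f a (ψ' T) := hψ a T
    exact congrArg (fun x => (D.val x).2 l) h3

end Gen

variable {A : Type} [NormedAddCommGroup A] [NormedSpace ℂ A] {μ : BMul A}

lemma ProjectiveL.toR {P : Mod μ} (h : ProjectiveL P) : ProjectiveR P := fun Y φ hφ hr =>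
  h Y P φ hφ hr (ContinuousLinearMap.id ℂ P.X) fun _ _ => rfl

lemma Hereditary.proj [CompleteSpace A] (h : Hereditary μ) : ProjectiveR (reg μ) := by
  intro Y φ hφ hr
  obtain ⟨ψ, hψ, hid⟩ := h ⊤ isClosed_univ (fun _ _ _ => Submodule.mem_top) Y (reg μ) φ hφ hr
    (⊤ : Submodule ℂ A).subtypeL fun _ _ => rfl
  let j : A →L[ℂ] (⊤ : Submodule ℂ A) :=
    (ContinuousLinearMap.id ℂ A).codRestrict ⊤ fun _ => Submodule.mem_top
  exact ⟨ψ.comp j, fun a x => hψ a (j x), fun x => hid (j x)⟩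

/-- A finite sum of norms of continuous linear images, as a seminorm. -/
noncomputable def sn {V W κ : Type} [AddCommGroup V] [Module ℂ V] [TopologicalSpace V]
    [NormedAddCommGroup W] [NormedSpace ℂ W] (s : Finset κ) (L : κ → V →L[ℂ] W) : Seminorm ℂ V :=
  Seminorm.of (fun v => ∑ k ∈ s, ‖L k v‖)
    (fun v w => by
      rw [← Finset.sum_add_distrib]
      exact Finset.sum_le_sum fun k _ => by rw [map_add]; exact norm_add_le _ _)
    (fun c v => by
      rw [Finset.mul_sum]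
      exact Finset.sum_congr rfl fun k _ => by rw [map_smul, norm_smul])

lemma sn_apply {V W κ : Type} [AddCommGroup V] [Module ℂ V] [TopologicalSpace V]
    [NormedAddCommGroup W] [NormedSpace ℂ W] (s : Finset κ) (L : κ → V →L[ℂ] W) (v : V) :
    sn s L v = ∑ k ∈ s, ‖L k v‖ := rfl

lemma sn_cont {V W κ : Type} [AddCommGroup V] [Module ℂ V] [TopologicalSpace V]
    [NormedAddCommGroup W] [NormedSpace ℂ W] (s : Finset κ) (L : κ → V →L[ℂ] W) :
    Continuous (sn s L) :=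
  continuous_finsetSum s fun k _ => (L k).continuous.norm

lemma hasSum_of_approx {ι W : Type} [NormedAddCommGroup W] (f : ι → W) (a : W)
    (h : ∀ ε > 0, ∃ (f' : ι → W) (a' : W), HasSum f' a' ∧ ‖a' - a‖ ≤ ε ∧
      ∀ S : Finset ι, ‖∑ i ∈ S, (f' i - f i)‖ ≤ ε) : HasSum f a := by
  refine Metric.tendsto_nhds.2 fun ε hε => ?_
  obtain ⟨f', a', h1, h2, h3⟩ := h (ε / 4) (by positivity)
  filter_upwards [Metric.tendsto_nhds.1 h1 (ε / 4) (by positivity)] with S hS
  rw [dist_eq_norm] at hS ⊢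
  have h4 : ∑ i ∈ S, f i - a = (∑ i ∈ S, f' i - a') + (a' - a) - ∑ i ∈ S, (f' i - f i) := by
    rw [Finset.sum_sub_distrib]
    abel
  rw [h4]
  have h5 := norm_sub_le ((∑ i ∈ S, f' i - a') + (a' - a)) (∑ i ∈ S, (f' i - f i))
  have h6 := norm_add_le (∑ i ∈ S, f' i - a') (a' - a)
  linarith [h3 S]

end Pool.Agent.Lib.helper3.KP
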