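import Pool.Agent.Lib.helper3.KTree

namespace Pool.Agent.Lib.helper3.KP

open Filter Topology

lemma scale_le {W : Type} [NormedAddCommGroup W] [NormedSpace ℂ W] (F : W → ℝ)
    (hF : ∀ (c : ℂ) u, F (c • u) = ‖c‖ * F u) (M : ℝ) (h : ∀ u, ‖u‖ ≤ 1 → F u ≤ M) (u : W) :
    F u ≤ ‖u‖ * M := by
  by_cases hu : u = 0
  · have h1 := hF 0 u
    rw [zero_smul, norm_zero, zero_mul] at h1
    rw [hu, h1, norm_zero, zero_mul]
  · have h0 : 0 < ‖u‖ := norm_pos_iff.2 hu
    have h1 : u = (‖u‖ : ℂ) • ((‖u‖ : ℂ)⁻¹ • u) := by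
      rw [smul_smul, mul_inv_cancel₀ (by exact_mod_cast h0.ne'), one_smul]
    have h2 : ‖(‖u‖ : ℂ)⁻¹ • u‖ ≤ 1 := by
      rw [norm_smul, norm_inv, Complex.norm_real, norm_norm, inv_mul_cancel₀ h0.ne']
    have h3 := hF (‖u‖ : ℂ) ((‖u‖ : ℂ)⁻¹ • u)
    rw [← h1, Complex.norm_real, norm_norm] at h3
    rw [h3]
    exact mul_le_mul_of_nonneg_left (h _ h2) h0.le

/-- Inclusion of the compact operators. -/
noncomputable def incl (E : Type) [NormedAddCommGroup E] [NormedSpace ℂ E] :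
    KA E →ₗ[ℂ] (E →L[ℂ] E) := (KA E).toSubmodule.subtype

/-- Rank-one operators `f ⊗ x`, linear in `f`. -/
noncomputable def ro {E : Type} [NormedAddCommGroup E] [NormedSpace ℂ E] (x : E) :
    (E →L[ℂ] ℂ) →ₗ[ℂ] KA E where
  toFun f := ⟨f.smulRight x, rankOne_compact f x⟩
  map_add' f g := Subtype.ext (ContinuousLinearMap.ext fun z => add_smul (f z) (g z) x)
  map_smul' c f := Subtype.ext (ContinuousLinearMap.ext fun z => mul_smul c (f z) x)

/-- The space `ℓ¹` of the tree. -/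
abbrev L1 : Type := lp (fun _ : Gm => ℂ) 1

/-- Coordinates. -/
noncomputable def crd1 (γ : Gm) : L1 →L[ℂ] ℂ := lp.evalCLM ℂ (fun _ : Gm => ℂ) 1 γ

/-- Unit vectors. -/
noncomputable def e1 (γ : Gm) : L1 := lp.single 1 γ 1

lemma crd1_e1_same (γ : Gm) : crd1 γ (e1 γ) = 1 :=
  lp.single_apply_self (E := fun _ : Gm => ℂ) 1 γ 1

lemma crd1_e1_ne {γ δ : Gm} (h : γ ≠ δ) : crd1 γ (e1 δ) = 0 :=
  lp.single_apply_ne (E := fun _ : Gm => ℂ) 1 δ 1 h

lemma norm_e1 (γ : Gm) : ‖e1 γ‖ = 1 := by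
  rw [e1, lp.norm_single (by simp), norm_one]

lemma norm_crd1_le (γ : Gm) : ‖crd1 γ‖ ≤ 1 :=
  ContinuousLinearMap.opNorm_le_bound _ zero_le_one fun x => by
    rw [one_mul]
    exact lp.norm_apply_le_norm one_ne_zero x γ

lemma sum_crd1_le (x : L1) (S : Finset Gm) : ∑ γ ∈ S, ‖crd1 γ x‖ ≤ ‖x‖ := by
  have h := lp.sum_rpow_le_norm_rpow (p := 1) (by simp) x S
  simp only [ENNReal.toReal_one, Real.rpow_one] at h
  exact h

lemma sum_crd1_le' {κ : Type} (x : L1) (S : Finset κ) (k : κ → Gm) (hk : Set.InjOn k S) :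
    ∑ a ∈ S, ‖crd1 (k a) x‖ ≤ ‖x‖ := by
  have h := sum_crd1_le x (S.image k)
  rwa [Finset.sum_image hk] at h

/-- Coordinate projections. -/
noncomputable def P1 (γ : Gm) : L1 →L[ℂ] L1 := (crd1 γ).smulRight (e1 γ)

lemma norm_sum_P1 (S : Finset Gm) (x : L1) : ‖∑ γ ∈ S, P1 γ x‖ ≤ ‖x‖ := by
  refine (norm_sum_le _ _).trans (le_trans (le_of_eq ?_) (sum_crd1_le x S))
  refine Finset.sum_congr rfl fun γ _ => ?_
  rw [P1, ContinuousLinearMap.smulRight_apply, norm_smul, norm_e1, mul_one]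

lemma hasSum_P1 (x : L1) : HasSum (fun γ => P1 γ x) x := by
  have h := lp.hasSum_single (p := 1) (by simp) x
  have h2 : ∀ γ, P1 γ x = lp.single 1 γ (x γ) := by
    intro γ
    rw [P1, ContinuousLinearMap.smulRight_apply, e1, ← lp.single_smul, smul_eq_mul, mul_one]
    rfl
  simpa only [h2] using h

lemma hasSum_P1_comp (T : L1 →L[ℂ] L1) (hT : IsCompactOperator T) :
    HasSum (fun γ => P1 γ * T) T := by
  refine Metric.tendsto_nhds.2 fun ε hε => ?_
  obtain ⟨K, hK, hTK⟩ := IsCompactOperator.image_closedBall_subset_compact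
    (f := T.toLinearMap) hT 1
  obtain ⟨t, -, ht, hcov⟩ := finite_cover_balls_of_compact hK (e := ε / 4) (by positivity)
  have h1 : ∀ᶠ S : Finset Gm in atTop, ∀ z ∈ t, dist (∑ γ ∈ S, P1 γ z) z < ε / 4 :=
    (ht.eventually_all).2 fun z _ => Metric.tendsto_nhds.1 (hasSum_P1 z) (ε / 4) (by positivity)
  filter_upwards [h1] with S hS
  rw [dist_eq_norm]
  refine lt_of_le_of_lt (b := 3 * ε / 4) ?_ (by linarith)
  refine ContinuousLinearMap.opNorm_le_of_unit_norm (by positivity) fun x hx => ?_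
  have h2 : T x ∈ K := hTK ⟨x, by simp [hx], rfl⟩
  obtain ⟨z, hz, hxz⟩ := Set.mem_iUnion₂.1 (hcov h2)
  have h3 := hS z hz
  rw [Metric.mem_ball, dist_eq_norm] at hxz
  rw [dist_eq_norm] at h3
  have h4 : (∑ γ ∈ S, P1 γ * T - T) x =
      ∑ γ ∈ S, P1 γ (T x - z) + (∑ γ ∈ S, P1 γ z - z) - (T x - z) := by
    simp only [_root_.sub_apply, _root_.sum_apply, _root_.mul_apply_eq_comp, map_sub,
      Finset.sum_sub_distrib]
    abel
  rw [h4]
  have h5 := norm_sub_le (∑ γ ∈ S, P1 γ (T x - z) + (∑ γ ∈ S, P1 γ z - z)) (T x - z)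
  have h6 := norm_add_le (∑ γ ∈ S, P1 γ (T x - z)) (∑ γ ∈ S, P1 γ z - z)
  linarith [norm_sum_P1 S (T x - z)]

/-- The pairing of bounded functions with `ℓ¹`. -/
noncomputable def chi : Linf Gm →L[ℂ] L1 →L[ℂ] ℂ :=
  lp.dualPairing ⊤ 1 (fun _ : Gm => ContinuousLinearMap.mul ℂ ℂ) (K := 1)
    fun _ => ContinuousLinearMap.opNorm_mul_le ℂ ℂ

lemma chi_le (v : Linf Gm) (x : L1) : ‖chi v x‖ ≤ ‖v‖ * ‖x‖ := by
  have h : ‖chi‖ ≤ 1 := lp.norm_dualPairing _ _
  have h2 := chi.le_opNorm₂ v x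
  have h3 : ‖chi‖ * ‖v‖ * ‖x‖ ≤ 1 * ‖v‖ * ‖x‖ := by gcongr
  linarith

lemma chi_e1 (v : Linf Gm) (γ : Gm) : chi v (e1 γ) = v γ := by
  have h : chi v (e1 γ) = ∑' δ, v δ * crd1 δ (e1 γ) := rfl
  rw [h, tsum_eq_single γ, crd1_e1_same, mul_one]
  intro δ hδ
  rw [crd1_e1_ne hδ, mul_zero]

/-- The seminorms of the left test module. -/
noncomputable def qL : Finset Gm ⊕ (Gm × {u : L1 →L[ℂ] L1 // ‖u‖ ≤ 1} ×
    {p : Finset Br × (Br → Gm) // Set.InjOn p.2 p.1}) → Seminorm ℂ (Gm → (L1 →L[ℂ] L1))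
  | Sum.inl S => sn {()} fun _ => ∑ γ ∈ S, ContinuousLinearMap.proj γ
  | Sum.inr (γ, u, p) => sn p.1.1 fun t =>
      (ContinuousLinearMap.compL ℂ L1 L1 ℂ ((crd1 (p.1.2 t)).comp u.1)).comp
        (ContinuousLinearMap.proj γ)

lemma qL_inl (S : Finset Gm) (ξ : Gm → (L1 →L[ℂ] L1)) : qL (Sum.inl S) ξ = ‖∑ γ ∈ S, ξ γ‖ := by
  simp only [qL, sn_apply, Finset.sum_singleton, _root_.sum_apply, ContinuousLinearMap.proj_apply]

lemma qL_inr (γ : Gm) (u : {u : L1 →L[ℂ] L1 // ‖u‖ ≤ 1})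
    (p : {p : Finset Br × (Br → Gm) // Set.InjOn p.2 p.1}) (ξ : Gm → (L1 →L[ℂ] L1)) :
    qL (Sum.inr (γ, u, p)) ξ = ∑ t ∈ p.1.1, ‖(crd1 (p.1.2 t)).comp (u.1.comp (ξ γ))‖ := rfl

/-- The left test module. -/
noncomputable def DL : Data (KA L1) (L1 →L[ℂ] L1) Gm where
  Idx := _
  q := qL
  cont i := by
    rcases i with S | ⟨γ, u, p⟩
    · exact sn_cont _ _
    · exact sn_cont _ _
  C :=
    { carrier := {v | HasSum v.2 (incl L1 v.1)}
      add_mem' := fun h1 h2 => h1.add h2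
      zero_mem' := hasSum_zero
      smul_mem' := fun c _ h => h.const_smul c }
  closed w h := hasSum_of_approx _ _ fun ε hε => by
    obtain ⟨v, hv, hb⟩ := h ε hε
    refine ⟨v.2, incl L1 v.1, hv, hb.1, fun S => ?_⟩
    have h1 := hb.2.2 (Sum.inl S)
    rw [qL_inl] at h1
    exact h1

theorem not_proj_left : ¬ ProjectiveR (reg (leftMul (KA L1))) := by
  intro hP
  obtain ⟨ρ, M, hρ, hmul⟩ := crit DL (leftMul (KA L1))
    ((LinearMap.mul ℂ (L1 →L[ℂ] L1)).comp (incl L1))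
    (fun a b x => mul_assoc (incl L1 a) (incl L1 b) x)
    (fun a x => norm_mul_le (incl L1 a) x)
    (by
      intro a ξ M h i
      rcases i with S | ⟨γ, u, p⟩
      · have h1 := h (Sum.inl S)
        have h2 : DL.q (Sum.inl S) ξ = ‖∑ γ ∈ S, ξ γ‖ := qL_inl S ξ
        rw [h2] at h1
        refine (qL_inl S _).trans_le ?_
        have h3 : ∑ γ ∈ S, ((LinearMap.mul ℂ (L1 →L[ℂ] L1)).comp (incl L1)) a (ξ γ) =
            incl L1 a * ∑ γ ∈ S, ξ γ := by
          rw [Finset.mul_sum]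
          rfl
        rw [h3]
        exact (norm_mul_le _ _).trans (mul_le_mul_of_nonneg_left h1 (norm_nonneg _))
      · have hM : 0 ≤ M := (apply_nonneg _ _).trans (h (Sum.inl ∅))
        have h1 := scale_le
          (fun v : L1 →L[ℂ] L1 => ∑ t ∈ p.1.1, ‖(crd1 (p.1.2 t)).comp (v.comp (ξ γ))‖)
          (fun c v => by
            rw [Finset.mul_sum]
            refine Finset.sum_congr rfl fun t _ => ?_
            rw [ContinuousLinearMap.smul_comp, ContinuousLinearMap.comp_smul, norm_smul])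
          M (fun v hv => h (Sum.inr (γ, ⟨v, hv⟩, p))) (u.1.comp (incl L1 a))
        refine le_trans h1 (mul_le_mul_of_nonneg_right ?_ hM)
        refine (u.1.opNorm_comp_le _).trans ?_
        exact mul_le_of_le_one_left (norm_nonneg _) u.2)
    (fun a v hv => HasSum.mul_left (incl L1 a) hv)
    (LinearMap.pi fun γ => (LinearMap.mul ℂ (L1 →L[ℂ] L1) (P1 γ)).comp (incl L1))
    (fun T => hasSum_P1_comp (incl L1 T) T.2)
    (by
      intro T
      have hS : ∀ S : Finset Gm, ‖∑ γ ∈ S, P1 γ * incl L1 T‖ ≤ ‖T‖ := by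
        intro S
        refine ContinuousLinearMap.opNorm_le_bound _ (norm_nonneg _) fun x => ?_
        rw [_root_.sum_apply]
        exact (norm_sum_P1 S (incl L1 T x)).trans ((incl L1 T).le_opNorm x)
      refine ⟨le_rfl, fun γ => ?_, fun i => ?_⟩
      · have h1 := hS {γ}
        rw [Finset.sum_singleton] at h1
        exact h1
      · rcases i with S | ⟨γ, u, p⟩
        · exact (qL_inl S _).trans_le (hS S)
        · refine (qL_inr γ u p _).trans_le ?_
          have h2 : ∀ t, (crd1 (p.1.2 t)).comp (u.1.comp (P1 γ * incl L1 T)) =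
              crd1 (p.1.2 t) (u.1 (e1 γ)) • (crd1 γ).comp (incl L1 T) := by
            intro t
            refine ContinuousLinearMap.ext fun x => ?_
            have h3 : (crd1 (p.1.2 t)).comp (u.1.comp (P1 γ * incl L1 T)) x =
              crd1 (p.1.2 t) (u.1 (crd1 γ (incl L1 T x) • e1 γ)) := rfl
            rw [h3, map_smul, map_smul, smul_eq_mul, mul_comm]
            rfl
          have h4 : ‖(crd1 γ).comp (incl L1 T)‖ ≤ ‖T‖ :=
            ((crd1 γ).opNorm_comp_le _).trans (mul_le_of_le_one_left (norm_nonneg _) (norm_crd1_le γ))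
          have h5 : ∑ t ∈ p.1.1, ‖crd1 (p.1.2 t) (u.1 (e1 γ))‖ ≤ 1 := by
            refine (sum_crd1_le' _ _ _ p.2).trans ((u.1.le_opNorm _).trans ?_)
            rw [norm_e1, mul_one]
            exact u.2
          calc ∑ t ∈ p.1.1, ‖(crd1 (p.1.2 t)).comp (u.1.comp (P1 γ * incl L1 T))‖
              = (∑ t ∈ p.1.1, ‖crd1 (p.1.2 t) (u.1 (e1 γ))‖) * ‖(crd1 γ).comp (incl L1 T)‖ := by
                rw [Finset.sum_mul]
                exact Finset.sum_congr rfl fun t _ => by rw [h2, norm_smul]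
            _ ≤ 1 * ‖T‖ := mul_le_mul h5 h4 (norm_nonneg _) zero_le_one
            _ = ‖T‖ := one_mul _)
    hP
  let V : Gm → (L1 →L[ℂ] ℂ) →ₗ[ℂ] (L1 →L[ℂ] ℂ) := fun γ =>
    (ContinuousLinearMap.compL ℂ L1 L1 ℂ (crd1 [])).toLinearMap.comp
      ((LinearMap.proj γ).comp (ρ.comp (ro (e1 []))))
  have hV : ∀ γ f, V γ f = (crd1 []).comp (ρ (ro (e1 []) f) γ) := fun γ f => rfl
  have key : ∀ f x γ, ρ (ro x f) γ = (V γ f).smulRight x := by
    intro f x γ
    have h1 : ro x f = (leftMul (KA L1)).m (ro x (crd1 [])) (ro (e1 []) f) := by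
      refine Subtype.ext (ContinuousLinearMap.ext fun z => ?_)
      have h2 : ((leftMul (KA L1)).m (ro x (crd1 [])) (ro (e1 []) f) : L1 →L[ℂ] L1) z =
        crd1 [] (f z • e1 []) • x := rfl
      rw [h2, map_smul, crd1_e1_same, smul_eq_mul, mul_one]
      rfl
    rw [h1, hmul]
    rfl
  have hsum : ∀ f, HasSum (fun γ => V γ f) f := by
    intro f
    have h1 : HasSum (ρ (ro (e1 []) f)) (incl L1 (ro (e1 []) f)) := (hρ _).1
    have h2 := (ContinuousLinearMap.compL ℂ L1 L1 ℂ (crd1 [])).hasSum h1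
    have h3 : ContinuousLinearMap.compL ℂ L1 L1 ℂ (crd1 []) (incl L1 (ro (e1 []) f)) = f := by
      refine ContinuousLinearMap.ext fun z => ?_
      have h4 : ContinuousLinearMap.compL ℂ L1 L1 ℂ (crd1 []) (incl L1 (ro (e1 []) f)) z =
        crd1 [] (f z • e1 []) := rfl
      rw [h4, map_smul, crd1_e1_same, smul_eq_mul, mul_one]
    rw [h3] at h2
    exact h2
  refine lemmaF (ι := Finset Gm) (fun S => ∑ γ ∈ S, V γ) (fun t m => chi (ind (tail t m)))
    (fun t => ?_) (fun S => ⟨S.card * |M|, fun S' m m0 hsep hm => ?_⟩) (fun t s m h => ?_)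
    (fun t s h => ?_)
  · obtain ⟨S, hS⟩ := (Metric.tendsto_nhds.1 (hsum (chi (ind (tail t 0)))) (1 / 4)
      (by norm_num)).exists
    rw [dist_eq_norm] at hS
    exact ⟨S, by rwa [LinearMap.sum_apply]⟩
  · let T : KA L1 := ∑ t ∈ S', ro (e1 (node t m0)) (chi (ind (tail t (m t))))
    have hT : ‖T‖ ≤ 1 := by
      have h1 : ‖T‖ = ‖incl L1 T‖ := rfl
      rw [h1]
      refine ContinuousLinearMap.opNorm_le_bound _ zero_le_one fun x => ?_
      rw [map_sum, _root_.sum_apply, one_mul]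
      refine (norm_sum_le _ _).trans ?_
      have h2 : ∀ t, ‖incl L1 (ro (e1 (node t m0)) (chi (ind (tail t (m t))))) x‖ =
          ‖chi.flip x (ind (tail t (m t)))‖ := by
        intro t
        have h3 : incl L1 (ro (e1 (node t m0)) (chi (ind (tail t (m t))))) x =
          chi (ind (tail t (m t))) x • e1 (node t m0) := rfl
        rw [h3, norm_smul, norm_e1, mul_one]
        rfl
      simp only [h2]
      refine (wk_sum S' (fun t => ind (tail t (m t))) 1 (fun w hw => norm_sum_ind_le S'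
        (fun t => tail t (m t)) (fun a ha b hb hab i h4 h5 => tail_disj hsep ha hb hab (hm a ha) h4 h5)
        w 1 zero_le_one fun a _ => hw a) (chi.flip x)).trans ?_
      rw [mul_one]
      exact ContinuousLinearMap.opNorm_le_bound _ (norm_nonneg _) fun v =>
        (chi_le v x).trans_eq (mul_comm _ _)
    have hinj : Set.InjOn (fun t => node t m0) S' := fun a ha b hb h => hsep a ha b hb h
    have hγ : ∀ γ, ∑ s ∈ S', ‖V γ (chi (ind (tail s (m s))))‖ ≤ |M| := by
      intro γ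
      have h1 := (hρ T).2 (Sum.inr (γ, ⟨ContinuousLinearMap.id ℂ L1,
        ContinuousLinearMap.norm_id_le⟩, ⟨(S', fun t => node t m0), hinj⟩))
      have h2 : M * ‖T‖ ≤ |M| :=
        (mul_le_mul_of_nonneg_right (le_abs_self M) (norm_nonneg _)).trans
          (mul_le_of_le_one_right (abs_nonneg M) hT)
      refine le_trans (le_of_eq ?_) (h1.trans h2)
      refine Finset.sum_congr rfl fun s hs => ?_
      congr 1
      refine ContinuousLinearMap.ext fun z => ?_
      have h3 : ρ T γ = ∑ t ∈ S', (V γ (chi (ind (tail t (m t))))).smulRight (e1 (node t m0)) := by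
        simp only [T, map_sum, Finset.sum_apply, key]
      have h4 : crd1 (node s m0) (ρ T γ z) = V γ (chi (ind (tail s (m s)))) z := by
        rw [h3, _root_.sum_apply, map_sum, Finset.sum_eq_single s]
        · rw [ContinuousLinearMap.smulRight_apply, map_smul, crd1_e1_same, smul_eq_mul, mul_one]
        · intro t ht hts
          rw [ContinuousLinearMap.smulRight_apply, map_smul,
            crd1_e1_ne fun h5 => hts (hsep s hs t ht h5).symm, smul_zero]
        · intro h5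
          exact absurd hs h5
      exact h4.symm
    calc ∑ t ∈ S', ‖(∑ γ ∈ S, V γ) (chi (ind (tail t (m t))))‖
        ≤ ∑ t ∈ S', ∑ γ ∈ S, ‖V γ (chi (ind (tail t (m t))))‖ :=
          Finset.sum_le_sum fun t _ => by
            rw [LinearMap.sum_apply]
            exact norm_sum_le _ _
      _ ≤ ∑ _γ ∈ S, |M| := by
          rw [Finset.sum_comm]
          exact Finset.sum_le_sum fun γ _ => hγ γ
      _ = S.card * |M| := by rw [Finset.sum_const, nsmul_eq_mul]
  · rw [← map_sub, ← map_sub]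
    congr 1
    exact lp.ext (funext fun γ => ind_tail_sub h γ)
  · obtain ⟨γ, h1, h2⟩ := exists_node_sep h
    have h3 := (chi (ind (tail t 0)) - chi (ind (tail s 0))).le_opNorm (e1 γ)
    rw [_root_.sub_apply, chi_e1, chi_e1, ind_pos h1, ind_neg h2, sub_zero, norm_one, norm_e1,
      mul_one] at h3
    exact h3

end Pool.Agent.Lib.helper3.KP
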