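import Pool.Agent.Lib.helper3.KLeft

namespace Pool.Agent.Lib.helper3.KP

open Filter Topology

lemma summable_compact {E F : Type} [NormedAddCommGroup E] [NormedSpace ℂ E] [NormedAddCommGroup F]
    [NormedSpace ℂ F] [CompleteSpace F] (T : E →L[ℂ] F) (hT : IsCompactOperator T) (x : ℕ → E)
    (hx : ∀ S : Finset ℕ, ‖∑ k ∈ S, x k‖ ≤ 1) : Summable fun k => T (x k) := by
  rw [summable_iff_vanishing_norm]
  by_contra hcon
  push Not at hcon
  obtain ⟨ε, hε, hg⟩ := hcon
  choose g hg1 hg2 using hg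
  let U : ℕ → Finset ℕ := fun n => Nat.rec ∅ (fun _ s => s ∪ g s) n
  have hU : ∀ n, U (n + 1) = U n ∪ g (U n) := fun n => rfl
  have hmono : Monotone U := monotone_nat_of_le_succ fun n => by
    rw [hU]
    exact Finset.subset_union_left
  have hdis : ∀ m n, m < n → Disjoint (g (U m)) (g (U n)) := by
    intro m n hmn
    refine Disjoint.mono_left ?_ (hg1 (U n)).symm
    refine le_trans ?_ (hmono (Nat.succ_le_of_lt hmn))
    rw [hU]
    exact Finset.subset_union_right
  let y : ℕ → E := fun n => ∑ k ∈ g (U n), x k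
  obtain ⟨K, hK, hTK⟩ := IsCompactOperator.image_closedBall_subset_compact
    (f := T.toLinearMap) hT 1
  have hyK : ∀ n, T (y n) ∈ K := fun n => hTK ⟨y n, by simpa using hx _, rfl⟩
  obtain ⟨w, -, φ, hφ, hlim⟩ := hK.tendsto_subseq hyK
  have hw : ε ≤ ‖w‖ := ge_of_tendsto' hlim.norm fun n => by
    have h1 := hg2 (U (φ n))
    simp only [Function.comp, y, map_sum]
    exact h1
  have hc := hlim.cesaro_smul
  have hb : ∀ n : ℕ, ‖((n : ℝ)⁻¹) • ∑ i ∈ Finset.range n, ((fun n => T (y n)) ∘ φ) i‖ ≤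
      (n : ℝ)⁻¹ * ‖T‖ := by
    intro n
    rw [norm_smul, norm_inv, Real.norm_natCast]
    refine mul_le_mul_of_nonneg_left ?_ (by positivity)
    have h1 : ∑ i ∈ Finset.range n, ((fun n => T (y n)) ∘ φ) i =
        T (∑ k ∈ (Finset.range n).biUnion fun i => g (U (φ i)), x k) := by
      rw [Finset.sum_biUnion, map_sum]
      · rfl
      · intro i _ j _ hij
        rcases lt_or_gt_of_ne hij with h | h
        · exact hdis _ _ (hφ h)
        · exact (hdis _ _ (hφ h)).symm
    rw [h1]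
    exact (T.le_opNorm _).trans (mul_le_of_le_one_right (norm_nonneg _) (hx _))
  have h0 : Tendsto (fun n : ℕ => (n : ℝ)⁻¹ * ‖T‖) atTop (𝓝 (0 * ‖T‖)) :=
    tendsto_inv_atTop_nhds_zero_nat.mul_const _
  have h2 : ‖w‖ ≤ 0 * ‖T‖ := le_of_tendsto_of_tendsto' hc.norm h0 hb
  linarith

/-- Nodes and branches. -/
abbrev Lm : Type := Gm ⊕ Br

/-- The sets whose indicators span the space: singletons of nodes, and tails of branches together
with the branch itself. -/
def bs (m : ℕ) : Lm → Lm → Prop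
  | Sum.inl γ, l => l = Sum.inl γ
  | Sum.inr t, Sum.inl γ => tail t m γ
  | Sum.inr t, Sum.inr s => s = t

/-- The Johnson-Lindenstrauss space of the binary tree. -/
noncomputable def JL : Submodule ℂ (Linf Lm) :=
  (Submodule.span ℂ (Set.range fun l => ind (bs 0 l))).topologicalClosure

instance : CompleteSpace JL := (Submodule.isClosed_topologicalClosure _).completeSpace_coe

lemma ind_step (t : Br) (m : ℕ) :
    ind (bs (m + 1) (Sum.inr t)) = ind (bs m (Sum.inr t)) - ind (bs 0 (Sum.inl (node t m))) := by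
  refine lp.ext (funext fun l => ?_)
  have h0 : (ind (bs m (Sum.inr t)) - ind (bs 0 (Sum.inl (node t m)))) l =
    ind (bs m (Sum.inr t)) l - ind (bs 0 (Sum.inl (node t m))) l := rfl
  rw [h0]
  rcases l with γ | s
  · by_cases h : γ = node t m
    · have h1 : γ.length = m := by rw [h, node_length]
      rw [ind_neg (p := bs (m + 1) (Sum.inr t)) (i := Sum.inl γ) fun h2 => absurd h2.1 (by omega),
        ind_pos (p := bs m (Sum.inr t)) (i := Sum.inl γ) ⟨h1.ge, by rw [h1]; exact h⟩,
        ind_pos (p := bs 0 (Sum.inl (node t m))) (congrArg Sum.inl h), sub_self]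
    · rw [ind_neg (p := bs 0 (Sum.inl (node t m))) fun h2 => h (Sum.inl_injective h2), sub_zero]
      by_cases h3 : tail t m γ
      · have h4 : m + 1 ≤ γ.length := by
          refine Nat.succ_le_of_lt (lt_of_le_of_ne h3.1 fun h5 => h ?_)
          rw [h5]
          exact h3.2
        rw [ind_pos (p := bs (m + 1) (Sum.inr t)) (i := Sum.inl γ) ⟨h4, h3.2⟩,
          ind_pos (p := bs m (Sum.inr t)) (i := Sum.inl γ) h3]
      · rw [ind_neg (p := bs (m + 1) (Sum.inr t)) (i := Sum.inl γ)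
            fun h2 => h3 ⟨Nat.le_of_succ_le h2.1, h2.2⟩,
          ind_neg (p := bs m (Sum.inr t)) (i := Sum.inl γ) h3]
  · rw [ind_neg (p := bs 0 (Sum.inl (node t m))) Sum.inr_ne_inl, sub_zero]
    rfl

lemma ind_mem (m : ℕ) (l : Lm) : ind (bs m l) ∈ JL := by
  have h0 : ∀ l, ind (bs 0 l) ∈ JL := fun l =>
    Submodule.le_topologicalClosure _ (Submodule.subset_span ⟨l, rfl⟩)
  rcases l with γ | t
  · exact h0 (Sum.inl γ)
  · induction m with
    | zero => exact h0 _
    | succ m ih =>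
      rw [ind_step]
      exact JL.sub_mem ih (h0 _)

/-- The basic vectors. -/
noncomputable def bv (m : ℕ) (l : Lm) : JL := ⟨ind (bs m l), ind_mem m l⟩

lemma bv_step (t : Br) (m : ℕ) :
    bv (m + 1) (Sum.inr t) = bv m (Sum.inr t) - bv 0 (Sum.inl (node t m)) :=
  Subtype.ext (ind_step t m)

lemma bv_eq (t : Br) (m : ℕ) :
    bv m (Sum.inr t) = bv 0 (Sum.inr t) - ∑ i ∈ Finset.range m, bv 0 (Sum.inl (node t i)) := by
  induction m with
  | zero => simp
  | succ m ih => rw [bv_step, ih, Finset.sum_range_succ, sub_sub]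

/-- Point evaluations. -/
noncomputable def dl (l : Lm) : JL →L[ℂ] ℂ := (pt l).comp JL.subtypeL

lemma dl_le (l : Lm) (x : JL) : ‖dl l x‖ ≤ ‖x‖ := norm_pt_le l x.1

lemma norm_dl_le (l : Lm) : ‖dl l‖ ≤ 1 :=
  ContinuousLinearMap.opNorm_le_bound _ zero_le_one fun x => by
    rw [one_mul]
    exact dl_le l x

lemma JL_norm_le (x : JL) (M : ℝ) (hM : 0 ≤ M) (h : ∀ l, ‖dl l x‖ ≤ M) : ‖x‖ ≤ M :=
  lp.norm_le_of_forall_le (f := x.1) hM h

lemma dl_bv_pos {m : ℕ} {l r : Lm} (h : bs m l r) : dl r (bv m l) = 1 := ind_pos h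

lemma dl_bv_neg {m : ℕ} {l r : Lm} (h : ¬ bs m l r) : dl r (bv m l) = 0 := ind_neg h

lemma norm_sum_bv_le {κ : Type} (S : Finset κ) (m : κ → ℕ) (l : κ → Lm)
    (hd : ∀ a ∈ S, ∀ b ∈ S, a ≠ b → ∀ i, bs (m a) (l a) i → bs (m b) (l b) i → False)
    (w : κ → ℂ) (B : ℝ) (hB : 0 ≤ B) (hw : ∀ a ∈ S, ‖w a‖ ≤ B) :
    ‖∑ a ∈ S, w a • bv (m a) (l a)‖ ≤ B := by
  have h := norm_sum_ind_le S (fun a => bs (m a) (l a)) hd w B hB hw
  have h2 : ((∑ a ∈ S, w a • bv (m a) (l a) : JL) : Linf Lm) = ∑ a ∈ S, w a • ind (bs (m a) (l a)) := by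
    rw [Submodule.coe_sum]
    rfl
  rw [← h2] at h
  exact h

lemma norm_bv_le (m : ℕ) (l : Lm) : ‖bv m l‖ ≤ 1 :=
  JL_norm_le _ _ zero_le_one fun r => by
    by_cases h : bs m l r
    · rw [dl_bv_pos h, norm_one]
    · rw [dl_bv_neg h, norm_zero]
      exact zero_le_one

lemma sep_disj {S : Finset Br} {m0 : ℕ} (hS : Sep S m0) {m : Br → ℕ} (hm : ∀ t ∈ S, m0 ≤ m t) :
    ∀ a ∈ S, ∀ b ∈ S, a ≠ b → ∀ i, bs (m a) (Sum.inr a) i → bs (m b) (Sum.inr b) i → False := by
  intro a ha b hb hab i h1 h2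
  rcases i with γ | s
  · exact tail_disj hS ha hb hab (hm a ha) h1 h2
  · exact hab (h1.symm.trans h2)

lemma eventually_disj (S : Finset Lm) :
    ∀ᶠ m in atTop, ∀ a ∈ S, ∀ b ∈ S, a ≠ b → ∀ i, bs m a i → bs m b i → False := by
  rw [eventually_all_finset]
  intro a _
  rw [eventually_all_finset]
  intro b _
  rcases a with γ | t <;> rcases b with δ | s
  · exact Eventually.of_forall fun m hab i h1 h2 => hab (h1.symm.trans h2)
  · filter_upwards [eventually_gt_atTop γ.length] with m hm _ i h1 h2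
    have h3 : i = Sum.inl γ := h1
    subst h3
    exact absurd h2.1 (not_le.2 hm)
  · filter_upwards [eventually_gt_atTop δ.length] with m hm _ i h1 h2
    have h3 : i = Sum.inl δ := h2
    subst h3
    exact absurd h1.1 (not_le.2 hm)
  · classical
    filter_upwards [eventually_sep {t, s}] with m hm hab
    exact sep_disj (m := fun _ => m) hm (fun _ _ => le_rfl) t (by simp) s (by simp)
      fun h => hab (congrArg Sum.inr h)

lemma summable_node (T : JL →L[ℂ] JL) (hT : IsCompactOperator T) (t : Br) :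
    Summable fun i => T (bv 0 (Sum.inl (node t i))) := by
  refine summable_compact T hT _ fun S => ?_
  have h := norm_sum_bv_le S (fun _ => 0) (fun i => Sum.inl (node t i))
    (fun a _ b _ hab i h1 h2 => hab (node_inj t (Sum.inl_injective (h1.symm.trans h2))))
    (fun _ => 1) 1 zero_le_one fun _ _ => norm_one.le
  simpa only [one_smul] using h

/-- The columns of a compact operator. -/
noncomputable def col (T : JL →L[ℂ] JL) : Lm → JL
  | Sum.inl γ => T (bv 0 (Sum.inl γ))
  | Sum.inr t => T (bv 0 (Sum.inr t)) - ∑' i, T (bv 0 (Sum.inl (node t i)))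

lemma tendsto_col (T : JL →L[ℂ] JL) (hT : IsCompactOperator T) (l : Lm) :
    Tendsto (fun m => T (bv m l)) atTop (𝓝 (col T l)) := by
  rcases l with γ | t
  · exact tendsto_const_nhds
  · have h := (summable_node T hT t).hasSum.tendsto_sum_nat.const_sub (T (bv 0 (Sum.inr t)))
    refine h.congr fun m => ?_
    rw [bv_eq t m, map_sub, map_sum]

lemma norm_sum_col_le (T : JL →L[ℂ] JL) (hT : IsCompactOperator T) (S : Finset Lm) (w : Lm → ℂ)
    (B : ℝ) (hB : 0 ≤ B) (hw : ∀ a ∈ S, ‖w a‖ ≤ B) : ‖∑ l ∈ S, w l • col T l‖ ≤ B * ‖T‖ := by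
  have h1 := (tendsto_finsetSum S fun l _ => (tendsto_col T hT l).const_smul (w l)).norm
  refine le_of_tendsto h1 ?_
  filter_upwards [eventually_disj S] with m hm
  have h2 : ∑ l ∈ S, w l • T (bv m l) = T (∑ l ∈ S, w l • bv m l) := by
    simp only [map_sum, map_smul]
  rw [h2, mul_comm]
  exact (T.le_opNorm _).trans (mul_le_mul_of_nonneg_left
    (norm_sum_bv_le S (fun _ => m) id hm w B hB hw) T.opNorm_nonneg)

lemma JL_approx (p : JL → Prop) (hgen : ∀ l, p (bv 0 l)) (h0 : p 0)
    (hadd : ∀ x y, p x → p y → p (x + y)) (hsmul : ∀ (c : ℂ) x, p x → p (c • x)) (z : JL)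
    (ε : ℝ) (hε : 0 < ε) : ∃ z', p z' ∧ ‖z' - z‖ < ε := by
  have hz : z.1 ∈ closure (Submodule.span ℂ (Set.range fun l => ind (bs 0 l)) : Set (Linf Lm)) := z.2
  obtain ⟨v, hv, hd⟩ := Metric.mem_closure_iff.1 hz ε hε
  have h1 : ∃ hv' : v ∈ JL, p ⟨v, hv'⟩ := by
    refine Submodule.span_induction (p := fun v _ => ∃ hv' : v ∈ JL, p ⟨v, hv'⟩) ?_ ?_ ?_ ?_ hv
    · rintro _ ⟨l, rfl⟩
      exact ⟨_, hgen l⟩
    · exact ⟨_, h0⟩
    · rintro x y _ _ ⟨hx, hx'⟩ ⟨hy, hy'⟩
      exact ⟨_, hadd _ _ hx' hy'⟩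
    · rintro c x _ ⟨hx, hx'⟩
      exact ⟨_, hsmul c _ hx'⟩
  obtain ⟨hv', hp⟩ := h1
  rw [dist_comm, dist_eq_norm] at hd
  exact ⟨⟨v, hv'⟩, hp, hd⟩

lemma hasSum_col (T : JL →L[ℂ] JL) (hT : IsCompactOperator T) (z : JL) :
    HasSum (fun l => dl l z • col T l) (T z) := by
  refine hasSum_of_approx _ _ fun ε hε => ?_
  have hN : 0 < ‖T‖ + 1 := by positivity
  suffices hex : ∃ z' : JL, HasSum (fun l => dl l z' • col T l) (T z') ∧
      ‖z' - z‖ < ε / (‖T‖ + 1) by
    obtain ⟨z', hp, hd⟩ := hex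
    have h1 : ‖z' - z‖ * ‖T‖ ≤ ε := by
      rw [lt_div_iff₀ hN] at hd
      nlinarith [norm_nonneg (z' - z)]
    refine ⟨_, _, hp, ?_, fun S => ?_⟩
    · rw [← map_sub]
      exact (T.le_opNorm _).trans (by rw [mul_comm]; exact h1)
    · simp only [← sub_smul, ← map_sub]
      exact (norm_sum_col_le T hT S _ _ (norm_nonneg (z' - z)) fun l _ => dl_le l _).trans h1
  refine JL_approx (fun z => HasSum (fun l => dl l z • col T l) (T z)) ?_ ?_ ?_ ?_ z
    (ε / (‖T‖ + 1)) (by positivity)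
  · intro l
    rcases l with γ | t
    · have h1 := hasSum_single (f := fun l => dl l (bv 0 (Sum.inl γ)) • col T l) (Sum.inl γ)
        fun l hl => by rw [dl_bv_neg (l := Sum.inl γ) hl, zero_smul]
      rw [dl_bv_pos (l := Sum.inl γ) rfl, one_smul] at h1
      exact h1
    · have h1 : HasSum ((fun l => dl l (bv 0 (Sum.inr t)) • col T l) ∘ Sum.inl)
          (∑' i, T (bv 0 (Sum.inl (node t i)))) := by
        rw [← (node_inj t).hasSum_iff]
        · refine (summable_node T hT t).hasSum.congr_fun ?_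
          intro i
          have h2 : bs 0 (Sum.inr t) (Sum.inl (node t i)) := ⟨Nat.zero_le _, by rw [node_length]⟩
          simp only [Function.comp]
          rw [dl_bv_pos h2, one_smul]
          rfl
        · intro γ hγ
          simp only [Function.comp]
          rw [dl_bv_neg (m := 0) (l := Sum.inr t) (r := Sum.inl γ) fun h2 => hγ ⟨_, h2.2.symm⟩,
            zero_smul]
      have h2 := hasSum_single (f := (fun l => dl l (bv 0 (Sum.inr t)) • col T l) ∘ Sum.inr) t
        fun s hs => by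
          simp only [Function.comp]
          rw [dl_bv_neg (m := 0) (l := Sum.inr t) (r := Sum.inr s) hs, zero_smul]
      have h3 := h1.sum h2
      simp only [Function.comp] at h3
      rw [dl_bv_pos (l := Sum.inr t) (r := Sum.inr t) rfl, one_smul] at h3
      have h4 : col T (Sum.inr t) =
        T (bv 0 (Sum.inr t)) - ∑' i, T (bv 0 (Sum.inl (node t i))) := rfl
      rw [h4, add_sub_cancel] at h3
      exact h3
  · simp only [map_zero, zero_smul]
    exact hasSum_zero
  · intro x y hx hy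
    simp only [map_add, add_smul]
    exact hx.add hy
  · intro c x hx
    simp only [map_smul, smul_assoc]
    exact hx.const_smul c

lemma tendsto_node (z : JL) (t : Br) :
    Tendsto (fun m => dl (Sum.inl (node t m)) z) atTop (𝓝 (dl (Sum.inr t) z)) := by
  refine Metric.tendsto_nhds.2 fun ε hε => ?_
  suffices hex : ∃ z' : JL, Tendsto (fun m => dl (Sum.inl (node t m)) z') atTop
      (𝓝 (dl (Sum.inr t) z')) ∧ ‖z' - z‖ < ε / 3 by
    obtain ⟨z', hp, hd⟩ := hex
    filter_upwards [Metric.tendsto_nhds.1 hp (ε / 3) (by positivity)] with m hm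
    rw [dist_eq_norm] at hm ⊢
    have h1 : dl (Sum.inl (node t m)) z - dl (Sum.inr t) z =
        (dl (Sum.inl (node t m)) z' - dl (Sum.inr t) z') - dl (Sum.inl (node t m)) (z' - z) +
          dl (Sum.inr t) (z' - z) := by
      rw [map_sub, map_sub]
      ring
    rw [h1]
    have h2 := norm_add_le ((dl (Sum.inl (node t m)) z' - dl (Sum.inr t) z') -
      dl (Sum.inl (node t m)) (z' - z)) (dl (Sum.inr t) (z' - z))
    have h3 := norm_sub_le (dl (Sum.inl (node t m)) z' - dl (Sum.inr t) z')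
      (dl (Sum.inl (node t m)) (z' - z))
    linarith [dl_le (Sum.inl (node t m)) (z' - z), dl_le (Sum.inr t) (z' - z)]
  refine JL_approx
    (fun z => Tendsto (fun m => dl (Sum.inl (node t m)) z) atTop (𝓝 (dl (Sum.inr t) z)))
    ?_ ?_ ?_ ?_ z (ε / 3) (by positivity)
  · intro l
    rcases l with γ | s
    · rw [dl_bv_neg (l := Sum.inl γ) Sum.inr_ne_inl]
      refine tendsto_const_nhds.congr' ?_
      filter_upwards [eventually_gt_atTop γ.length] with m hm
      refine (dl_bv_neg (l := Sum.inl γ) fun h => ?_).symm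
      have h1 := congrArg List.length (Sum.inl_injective h)
      rw [node_length] at h1
      omega
    · by_cases h : t = s
      · rw [dl_bv_pos (l := Sum.inr s) (r := Sum.inr t) h]
        refine tendsto_const_nhds.congr fun m => (dl_bv_pos (l := Sum.inr s) ?_).symm
        exact ⟨Nat.zero_le _, by rw [node_length, h]⟩
      · rw [dl_bv_neg (l := Sum.inr s) (r := Sum.inr t) h]
        refine tendsto_const_nhds.congr' ?_
        obtain ⟨i, hi⟩ := Function.ne_iff.1 h
        filter_upwards [eventually_gt_atTop i] with m hm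
        refine (dl_bv_neg (l := Sum.inr s) fun h1 => hi ?_).symm
        have h2 := h1.2
        rw [node_length] at h2
        exact node_eq_iff.1 h2 i hm
  · simp only [map_zero]
    exact tendsto_const_nhds
  · intro x y hx hy
    simp only [map_add]
    exact hx.add hy
  · intro c x hx
    simp only [map_smul]
    exact hx.const_smul c

lemma JL_eq_zero (z : JL) (h : ∀ γ, dl (Sum.inl γ) z = 0) : z = 0 := by
  refine norm_le_zero_iff.1 (JL_norm_le z 0 le_rfl fun l => ?_)
  rcases l with γ | t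
  · rw [h, norm_zero]
  · have h1 := tendsto_node z t
    simp only [h] at h1
    rw [← tendsto_nhds_unique tendsto_const_nhds h1, norm_zero]

end Pool.Agent.Lib.helper3.KP
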