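import Pool.Agent.Lib.helper3.KRight1

namespace Pool.Agent.Lib.helper3.KP

open Filter Topology

/-- The facts about the Johnson-Lindenstrauss space that are used. -/
structure JD (E : Type) [NormedAddCommGroup E] [NormedSpace ℂ E] where
  bv : ℕ → Lm → E
  dl : Lm → E →L[ℂ] ℂ
  col : (E →L[ℂ] E) → Lm → E
  bv_eq : ∀ t m, bv m (Sum.inr t) =
    bv 0 (Sum.inr t) - ∑ i ∈ Finset.range m, bv 0 (Sum.inl (node t i))
  dl_le : ∀ l x, ‖dl l x‖ ≤ ‖x‖
  nrm_le : ∀ (x : E) (M : ℝ), 0 ≤ M → (∀ l, ‖dl l x‖ ≤ M) → ‖x‖ ≤ M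
  dl_bv_pos : ∀ {m : ℕ} {l r : Lm}, bs m l r → dl r (bv m l) = 1
  dl_bv_neg : ∀ {m : ℕ} {l r : Lm}, ¬ bs m l r → dl r (bv m l) = 0
  norm_sum_bv_le : ∀ (S : Finset Br) (m : Br → ℕ) (l : Br → Lm),
    (∀ a ∈ S, ∀ b ∈ S, a ≠ b → ∀ i, bs (m a) (l a) i → bs (m b) (l b) i → False) →
    ∀ (w : Br → ℂ) (B : ℝ), 0 ≤ B → (∀ a ∈ S, ‖w a‖ ≤ B) → ‖∑ a ∈ S, w a • bv (m a) (l a)‖ ≤ B
  norm_bv_le : ∀ m l, ‖bv m l‖ ≤ 1
  tendsto_col : ∀ T : E →L[ℂ] E, IsCompactOperator T → ∀ l,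
    Tendsto (fun m => T (bv m l)) atTop (𝓝 (col T l))
  norm_sum_col_le : ∀ T : E →L[ℂ] E, IsCompactOperator T → ∀ (S : Finset Lm) (w : Lm → ℂ) (B : ℝ),
    0 ≤ B → (∀ a ∈ S, ‖w a‖ ≤ B) → ‖∑ l ∈ S, w l • col T l‖ ≤ B * ‖T‖
  hasSum_col : ∀ T : E →L[ℂ] E, IsCompactOperator T → ∀ z, HasSum (fun l => dl l z • col T l) (T z)
  eq_zero : ∀ z, (∀ γ, dl (Sum.inl γ) z = 0) → z = 0

/-- The data for `JL`. -/
noncomputable def jd : JD JL :=
  ⟨bv, dl, col, bv_eq, dl_le, JL_norm_le, dl_bv_pos, dl_bv_neg, norm_sum_bv_le, norm_bv_le,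
    tendsto_col, norm_sum_col_le, hasSum_col, JL_eq_zero⟩

variable {E : Type} [NormedAddCommGroup E] [NormedSpace ℂ E] [CompleteSpace E] (J : JD E)

omit [CompleteSpace E] in
lemma JD.norm_dl_le (l : Lm) : ‖J.dl l‖ ≤ 1 :=
  ContinuousLinearMap.opNorm_le_bound _ zero_le_one fun x => by
    rw [one_mul]
    exact J.dl_le l x

/-- Admissible families of tails. -/
abbrev Adm : Type :=
  {p : Finset Br × (Br → ℕ) × ℕ // Sep p.1 p.2.2 ∧ ∀ t ∈ p.1, p.2.2 ≤ p.2.1 t}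

/-- The seminorms of the right test module. -/
noncomputable def qR : (Lm × Finset Lm) ⊕ (Lm × {u : E →L[ℂ] E // ‖u‖ ≤ 1} × Adm) →
    Seminorm ℂ (Lm → (E →L[ℂ] E))
  | Sum.inl (r, S) => sn S fun l =>
      (ContinuousLinearMap.compL ℂ E E ℂ (J.dl r)).comp (ContinuousLinearMap.proj l)
  | Sum.inr (l, u, p) => sn p.1.1 fun t =>
      (ContinuousLinearMap.apply ℂ E (u.1 (J.bv (p.1.2.1 t) (Sum.inr t)))).comp
        (ContinuousLinearMap.proj l)

lemma qR_inl (r : Lm) (S : Finset Lm) (ξ : Lm → (E →L[ℂ] E)) :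
    qR J (Sum.inl (r, S)) ξ = ∑ l ∈ S, ‖(J.dl r).comp (ξ l)‖ := rfl

lemma qR_inr (l : Lm) (u : {u : E →L[ℂ] E // ‖u‖ ≤ 1}) (p : Adm) (ξ : Lm → (E →L[ℂ] E)) :
    qR J (Sum.inr (l, u, p)) ξ = ∑ t ∈ p.1.1, ‖ξ l (u.1 (J.bv (p.1.2.1 t) (Sum.inr t)))‖ := rfl

/-- The right test module. -/
noncomputable def DR : Data (KA E) (E →L[ℂ] E) Lm where
  Idx := _
  q := qR J
  cont i := by
    rcases i with ⟨r, S⟩ | ⟨l, u, p⟩
    · exact sn_cont _ _
    · exact sn_cont _ _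
  C :=
    { carrier := {v | ∀ x, HasSum (fun l => v.2 l x) (incl E v.1 x)}
      add_mem' := fun h1 h2 x => (h1 x).add (h2 x)
      zero_mem' := fun _ => hasSum_zero
      smul_mem' := fun c _ h x => (h x).const_smul c }
  closed w h x := hasSum_of_approx _ _ fun ε hε => by
    have hN : 0 < ‖x‖ + 1 := by positivity
    obtain ⟨v, hv, hb⟩ := h (ε / (‖x‖ + 1)) (by positivity)
    have h0 : ε / (‖x‖ + 1) * ‖x‖ ≤ ε := by
      rw [div_mul_eq_mul_div, div_le_iff₀ hN]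
      nlinarith
    refine ⟨fun l => v.2 l x, incl E v.1 x, hv x, ?_, fun S => ?_⟩
    · exact ((incl E (v - w).1).le_opNorm x).trans
        ((mul_le_mul_of_nonneg_right hb.1 (norm_nonneg x)).trans h0)
    · refine J.nrm_le _ _ hε.le fun r => ?_
      have h1 := hb.2.2 (Sum.inl (r, S))
      rw [qR_inl] at h1
      rw [map_sum]
      refine (norm_sum_le _ _).trans (le_trans ?_
        ((mul_le_mul_of_nonneg_right h1 (norm_nonneg x)).trans h0))
      rw [Finset.sum_mul]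
      exact Finset.sum_le_sum fun l _ => ((J.dl r).comp ((v - w).2 l)).le_opNorm x

/-- The linear splitting. -/
noncomputable def rR : KA E →ₗ[ℂ] (Lm → (E →L[ℂ] E)) where
  toFun T l := (J.dl l).smulRight (J.col (incl E T) l)
  map_add' T U := funext fun l => by
    have h : J.col (incl E (T + U)) l = J.col (incl E T) l + J.col (incl E U) l :=
      tendsto_nhds_unique (J.tendsto_col _ (T + U).2 l)
        ((J.tendsto_col _ T.2 l).add (J.tendsto_col _ U.2 l))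
    rw [h]
    exact ContinuousLinearMap.ext fun z => smul_add (J.dl l z) _ _
  map_smul' c T := funext fun l => by
    have h : J.col (incl E (c • T)) l = c • J.col (incl E T) l :=
      tendsto_nhds_unique (J.tendsto_col _ (c • T).2 l) ((J.tendsto_col _ T.2 l).const_smul c)
    rw [h]
    exact ContinuousLinearMap.ext fun z => smul_comm (J.dl l z) c _

lemma norm_col_le (T : KA E) (l : Lm) : ‖J.col (incl E T) l‖ ≤ ‖T‖ := by
  have h := J.norm_sum_col_le (incl E T) T.2 {l} (fun _ => 1) 1 zero_le_one fun _ _ => norm_one.le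
  rw [Finset.sum_singleton, one_smul, one_mul] at h
  exact h

lemma rR_bd (T : KA E) : Bd (DR J).q (T, rR J T) ‖T‖ := by
  refine ⟨le_rfl, fun l => ?_, fun i => ?_⟩
  · refine (ContinuousLinearMap.norm_smulRight_apply (J.dl l) (J.col (incl E T) l)).trans_le ?_
    exact (mul_le_of_le_one_left (norm_nonneg _) (J.norm_dl_le l)).trans (norm_col_le J T l)
  · rcases i with ⟨r, S⟩ | ⟨l, u, p⟩
    · refine (qR_inl J r S _).trans_le ?_
      have h1 := wk_sum S (J.col (incl E T)) (1 * ‖T‖)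
        (fun w hw => J.norm_sum_col_le (incl E T) T.2 S w 1 zero_le_one fun a _ => hw a) (J.dl r)
      rw [one_mul] at h1
      refine le_trans (Finset.sum_le_sum fun l _ => ?_)
        (h1.trans (mul_le_of_le_one_left (norm_nonneg _) (J.norm_dl_le r)))
      refine ContinuousLinearMap.opNorm_le_bound _ (norm_nonneg _) fun x => ?_
      have h2 : (J.dl r).comp (rR J T l) x = J.dl r (J.dl l x • J.col (incl E T) l) := rfl
      refine (congrArg norm h2).trans_le ?_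
      rw [map_smul, norm_smul, mul_comm]
      exact mul_le_mul_of_nonneg_left (J.dl_le l x) (norm_nonneg _)
    · refine (qR_inr J l u p _).trans_le ?_
      have h1 := wk_sum p.1.1 (fun t => J.bv (p.1.2.1 t) (Sum.inr t)) 1
        (fun w hw => J.norm_sum_bv_le p.1.1 p.1.2.1 Sum.inr (sep_disj p.2.1 p.2.2) w 1 zero_le_one
          fun a _ => hw a) ((J.dl l).comp u.1)
      have h2 : ‖(J.dl l).comp u.1‖ * 1 ≤ 1 := by
        rw [mul_one]
        exact ((J.dl l).opNorm_comp_le _).trans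
          (mul_le_one₀ (J.norm_dl_le l) u.1.opNorm_nonneg u.2)
      calc ∑ t ∈ p.1.1, ‖rR J T l (u.1 (J.bv (p.1.2.1 t) (Sum.inr t)))‖
          = (∑ t ∈ p.1.1, ‖(J.dl l).comp u.1 (J.bv (p.1.2.1 t) (Sum.inr t))‖) *
              ‖J.col (incl E T) l‖ := by
            rw [Finset.sum_mul]
            exact Finset.sum_congr rfl fun t _ => norm_smul _ _
        _ ≤ 1 * ‖T‖ := mul_le_mul (h1.trans h2) (norm_col_le J T l) (norm_nonneg _) zero_le_one
        _ = ‖T‖ := one_mul _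

lemma exists_rho (hP : ProjectiveR (reg (rightMul (KA E)))) :
    ∃ (ρ : KA E →ₗ[ℂ] (Lm → (E →L[ℂ] E))) (M : ℝ),
      (∀ T, (∀ x, HasSum (fun l => ρ T l x) (incl E T x)) ∧ ∀ i, qR J i (ρ T) ≤ M * ‖T‖) ∧
      ∀ a T l, ρ (T * a) l = ρ T l * incl E a :=
  crit (DR J) (rightMul (KA E)) ((LinearMap.mul ℂ (E →L[ℂ] E)).flip.comp (incl E))
    (fun a b x => (mul_assoc x (incl E b) (incl E a)).symm)
    (fun a x => (norm_mul_le x (incl E a)).trans_eq (mul_comm _ _))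
    (by
      intro a ξ M h i
      rcases i with ⟨r, S⟩ | ⟨l, u, p⟩
      · have h1 : ∑ l ∈ S, ‖(J.dl r).comp (ξ l)‖ ≤ M := h (Sum.inl (r, S))
        refine (qR_inl J r S _).trans_le (le_trans ?_ (mul_le_mul_of_nonneg_left h1 (norm_nonneg a)))
        rw [Finset.mul_sum]
        refine Finset.sum_le_sum fun l _ => ?_
        rw [mul_comm]
        exact ((J.dl r).comp (ξ l)).opNorm_comp_le (incl E a)
      · have hM : 0 ≤ M := (apply_nonneg _ _).trans (h (Sum.inr (l, u, p)))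
        have h1 := scale_le
          (fun v : E →L[ℂ] E => ∑ t ∈ p.1.1, ‖ξ l (v (J.bv (p.1.2.1 t) (Sum.inr t)))‖)
          (fun c v => by
            rw [Finset.mul_sum]
            refine Finset.sum_congr rfl fun t _ => ?_
            rw [_root_.smul_apply, map_smul, norm_smul])
          M (fun v hv => h (Sum.inr (l, ⟨v, hv⟩, p))) ((incl E a).comp u.1)
        refine le_trans h1 (mul_le_mul_of_nonneg_right ?_ hM)
        refine ((incl E a).opNorm_comp_le _).trans ?_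
        exact mul_le_of_le_one_right (incl E a).opNorm_nonneg u.2)
    (fun a v hv x => hv (incl E a x)) (rR J) (fun T x => J.hasSum_col (incl E T) T.2 x) (rR_bd J) hP

/-- Rank-one operators `f ⊗ y`, linear in `y`. -/
noncomputable def roR (f : E →L[ℂ] ℂ) :
    E →ₗ[ℂ] KA E where
  toFun y := ro y f
  map_add' x y := Subtype.ext (ContinuousLinearMap.ext fun z => smul_add (f z) x y)
  map_smul' c y := Subtype.ext (ContinuousLinearMap.ext fun z => smul_comm (f z) c y)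

/-- The projection attached to an admissible family. -/
noncomputable def TT (p : Adm) : KA E :=
  ∑ t ∈ p.1.1, ro (J.bv (p.1.2.1 t) (Sum.inr t)) (J.dl (Sum.inr t))

lemma norm_TT (p : Adm) : ‖TT J p‖ ≤ 1 := by
  have h1 : ‖TT J p‖ = ‖incl E (TT J p)‖ := rfl
  rw [h1]
  refine ContinuousLinearMap.opNorm_le_bound _ zero_le_one fun x => ?_
  rw [TT, map_sum, _root_.sum_apply, one_mul]
  exact J.norm_sum_bv_le p.1.1 p.1.2.1 Sum.inr (sep_disj p.2.1 p.2.2) (fun t => J.dl (Sum.inr t) x) _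
    (norm_nonneg x) fun t _ => J.dl_le _ x

lemma exists_V (hP : ProjectiveR (reg (rightMul (KA E)))) :
    ∃ (V : Lm → E →ₗ[ℂ] E) (M : ℝ), (∀ y, HasSum (fun l => V l y) y) ∧
      (∀ l (p : Adm), ∑ t ∈ p.1.1, ‖V l (J.bv (p.1.2.1 t) (Sum.inr t))‖ ≤ M) ∧
      ∀ r (L : Finset Lm) (p : Adm) (τ : Lm → Br), (∀ l ∈ L, τ l ∈ p.1.1) →
        ∑ l ∈ L, ‖J.dl r (V l (J.bv (p.1.2.1 (τ l)) (Sum.inr (τ l))))‖ ≤ M := by
  obtain ⟨ρ, M, hρ, hmul⟩ := exists_rho J hP
  let f0 : E →L[ℂ] ℂ := J.dl (Sum.inl [])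
  let x0 : E := J.bv 0 (Sum.inl [])
  have hfx : f0 x0 = 1 := J.dl_bv_pos (l := Sum.inl []) rfl
  let V : Lm → E →ₗ[ℂ] E := fun l =>
    (ContinuousLinearMap.apply ℂ E x0).toLinearMap.comp ((LinearMap.proj l).comp (ρ.comp (roR f0)))
  have key : ∀ f y l z, ρ (ro y f) l z = f z • V l y := by
    intro f y l z
    have h1 : ro y f = ro y f0 * ro x0 f := by
      refine Subtype.ext (ContinuousLinearMap.ext fun z => ?_)
      have h2 : ((ro y f0 * ro x0 f : KA E) : E →L[ℂ] E) z = f0 (f z • x0) • y := rfl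
      rw [h2, map_smul, hfx, smul_eq_mul, mul_one]
      rfl
    rw [h1, hmul]
    exact map_smul (ρ (ro y f0) l) (f z) x0
  have hTT : ∀ (p : Adm) l, ∀ s ∈ p.1.1,
      ρ (TT J p) l (J.bv (p.1.2.1 s) (Sum.inr s)) = V l (J.bv (p.1.2.1 s) (Sum.inr s)) := by
    intro p l s hs
    rw [TT, map_sum, Finset.sum_apply, _root_.sum_apply, Finset.sum_eq_single s]
    · rw [key, J.dl_bv_pos (l := Sum.inr s) (r := Sum.inr s) rfl, one_smul]
    · intro t _ hts
      rw [key, J.dl_bv_neg (l := Sum.inr s) (r := Sum.inr t) hts, zero_smul]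
    · intro h
      exact absurd hs h
  have hM : ∀ p : Adm, M * ‖TT J p‖ ≤ |M| := fun p =>
    (mul_le_mul_of_nonneg_right (le_abs_self M) (norm_nonneg _)).trans
      (mul_le_of_le_one_right (abs_nonneg M) (norm_TT J p))
  refine ⟨V, |M|, fun y => ?_, fun l p => ?_, fun r L p τ hτ => ?_⟩
  · have h1 := (hρ (ro y f0)).1 x0
    have h2 : incl E (ro y f0) x0 = f0 x0 • y := rfl
    rw [h2, hfx, one_smul] at h1
    exact h1
  · have h1 := ((hρ (TT J p)).2 (Sum.inr (l, ⟨ContinuousLinearMap.id ℂ E,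
      ContinuousLinearMap.norm_id_le⟩, p))).trans (hM p)
    rw [qR_inr] at h1
    refine le_trans (le_of_eq (Finset.sum_congr rfl fun s hs => ?_)) h1
    rw [← hTT p l s hs]
    rfl
  · have h1 := ((hρ (TT J p)).2 (Sum.inl (r, L))).trans (hM p)
    rw [qR_inl] at h1
    refine le_trans (Finset.sum_le_sum fun l hl => ?_) h1
    rw [← hTT p l _ (hτ l hl)]
    exact (((J.dl r).comp (ρ (TT J p) l)).le_opNorm _).trans
      (mul_le_of_le_one_right ((J.dl r).comp (ρ (TT J p) l)).opNorm_nonneg (J.norm_bv_le _ _))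

include J in
theorem not_proj_right : ¬ ProjectiveR (reg (rightMul (KA E))) := by
  intro hP
  obtain ⟨V, M, hsum, h1, h2⟩ := exists_V J hP
  let S1 : Set Lm := ⋃ γ : Gm, Function.support fun l => V l (J.bv 0 (Sum.inl γ))
  have hS1 : S1.Countable := Set.countable_iUnion fun γ => (hsum _).summable.countable_support
  have hconst : ∀ l ∉ S1, ∀ t m, V l (J.bv m (Sum.inr t)) = V l (J.bv 0 (Sum.inr t)) := by
    intro l hl t m
    rw [J.bv_eq t m, map_sub, map_sum, Finset.sum_eq_zero, sub_zero]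
    intro i _
    by_contra h
    exact hl (Set.mem_iUnion.2 ⟨node t i, h⟩)
  let W : Gm → ℕ → Set Lm := fun γ k =>
    {l | l ∉ S1 ∧ ∃ t, 1 / ((k : ℝ) + 1) < ‖J.dl (Sum.inl γ) (V l (J.bv 0 (Sum.inr t)))‖}
  have hW : ∀ γ k, (W γ k).Finite := by
    intro γ k
    by_contra hinf
    obtain ⟨n, hn⟩ := exists_nat_gt (((k : ℝ) + 1) * M)
    obtain ⟨L, hL, hcard⟩ := Set.Infinite.exists_subset_card_eq hinf n
    have h3 : ∀ l, ∃ t, l ∈ L → 1 / ((k : ℝ) + 1) < ‖J.dl (Sum.inl γ) (V l (J.bv 0 (Sum.inr t)))‖ := by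
      intro l
      by_cases hl : l ∈ L
      · obtain ⟨t, ht⟩ := (hL hl).2
        exact ⟨t, fun _ => ht⟩
      · exact ⟨fun _ => false, fun h => absurd h hl⟩
    choose τ hτ using h3
    classical
    obtain ⟨m0, hm0⟩ := (eventually_sep (L.image τ)).exists
    have h4 := h2 (Sum.inl γ) L ⟨(L.image τ, fun _ => m0, m0), hm0, fun _ _ => le_rfl⟩ τ
      fun l hl => Finset.mem_image_of_mem τ hl
    have h5 : ∑ _l ∈ L, 1 / ((k : ℝ) + 1) ≤
        ∑ l ∈ L, ‖J.dl (Sum.inl γ) (V l (J.bv m0 (Sum.inr (τ l))))‖ :=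
      Finset.sum_le_sum fun l hl => by
        rw [hconst l (hL hl).1]
        exact (hτ l hl).le
    rw [Finset.sum_const, hcard, nsmul_eq_mul, mul_one_div, div_le_iff₀ (by positivity)] at h5
    have h6 : (∑ l ∈ L, ‖J.dl (Sum.inl γ) (V l (J.bv m0 (Sum.inr (τ l))))‖) * ((k : ℝ) + 1) ≤
        M * ((k : ℝ) + 1) := mul_le_mul_of_nonneg_right h4 (by positivity)
    linarith
  let S0 : Set Lm := S1 ∪ ⋃ γ, ⋃ k, W γ k
  have hS0 : S0.Countable :=
    hS1.union (Set.countable_iUnion fun γ => Set.countable_iUnion fun k => (hW γ k).countable)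
  have hzero : ∀ t, Function.support (fun l => V l (J.bv 0 (Sum.inr t))) ⊆ S0 := by
    intro t l hl
    by_contra h
    refine hl (J.eq_zero _ fun γ => ?_)
    by_contra h3
    obtain ⟨k, hk⟩ := exists_nat_one_div_lt (norm_pos_iff.2 h3)
    exact h (Or.inr (Set.mem_iUnion.2 ⟨γ, Set.mem_iUnion.2 ⟨k, fun h4 => h (Or.inl h4), t, hk⟩⟩))
  have : Countable S0 := hS0.to_subtype
  refine lemmaF (ι := Finset S0) (fun L => ∑ l ∈ L, V l.1) (fun t m => J.bv m (Sum.inr t))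
    (fun t => ?_) (fun L => ⟨L.card * M, fun S m m0 hsep hm => ?_⟩) (fun t s m h => ?_)
    (fun t s h => ?_)
  · have h3 := (hasSum_subtype_iff_of_support_subset (hzero t)).2 (hsum _)
    obtain ⟨L, hL⟩ := (Metric.tendsto_nhds.1 h3 (1 / 4) (by norm_num)).exists
    rw [dist_eq_norm] at hL
    exact ⟨L, by rwa [LinearMap.sum_apply]⟩
  · calc ∑ t ∈ S, ‖(∑ l ∈ L, V l.1) (J.bv (m t) (Sum.inr t))‖
        ≤ ∑ t ∈ S, ∑ l ∈ L, ‖V l.1 (J.bv (m t) (Sum.inr t))‖ :=
          Finset.sum_le_sum fun t _ => by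
            rw [LinearMap.sum_apply]
            exact norm_sum_le _ _
      _ ≤ ∑ _l ∈ L, M := by
          rw [Finset.sum_comm]
          exact Finset.sum_le_sum fun l _ => h1 l.1 ⟨(S, m, m0), hsep, hm⟩
      _ = L.card * M := by rw [Finset.sum_const, nsmul_eq_mul]
  · rw [J.bv_eq t m, J.bv_eq s m, sub_sub_cancel, sub_sub_cancel]
    refine Finset.sum_congr rfl fun i hi => ?_
    rw [node_eq_iff.2 fun j hj => node_eq_iff.1 h j (hj.trans (Finset.mem_range.1 hi))]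
  · have h3 := J.dl_le (Sum.inr t) (J.bv 0 (Sum.inr t) - J.bv 0 (Sum.inr s))
    rw [map_sub, J.dl_bv_pos (l := Sum.inr t) (r := Sum.inr t) rfl,
      J.dl_bv_neg (l := Sum.inr s) (r := Sum.inr t) h, sub_zero, norm_one] at h3
    exact h3

end Pool.Agent.Lib.helper3.KP
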