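import Pool.Agent.Lib.helper3.KGen

namespace Pool.Agent.Lib.helper3.KP

open Filter Topology

/-- Branches of the binary tree. -/
abbrev Br : Type := ℕ → Bool

/-- Nodes of the binary tree. -/
abbrev Gm : Type := List Bool

/-- The node of the branch `t` at level `m`. -/
def node (t : Br) (m : ℕ) : Gm := (List.range m).map t

lemma node_length (t : Br) (m : ℕ) : (node t m).length = m := by simp [node]

lemma node_eq_iff {t s : Br} {m : ℕ} : node t m = node s m ↔ ∀ i < m, t i = s i := by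
  simp [node, List.map_inj_left]

lemma node_inj (t : Br) : Function.Injective (node t) := fun m n h => by
  have := congrArg List.length h
  rwa [node_length, node_length] at this

/-- The part of the branch `t` from level `m` on. -/
def tail (t : Br) (m : ℕ) (γ : Gm) : Prop := m ≤ γ.length ∧ γ = node t γ.length

/-- The branches in `S` are separated at level `m`. -/
def Sep (S : Finset Br) (m : ℕ) : Prop := ∀ t ∈ S, ∀ s ∈ S, node t m = node s m → t = s

lemma eventually_sep (S : Finset Br) : ∀ᶠ m in atTop, Sep S m := by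
  unfold Sep
  rw [eventually_all_finset]
  intro t _
  rw [eventually_all_finset]
  intro s _
  by_cases h : t = s
  · exact Eventually.of_forall fun _ _ => h
  · obtain ⟨i, hi⟩ := Function.ne_iff.1 h
    filter_upwards [eventually_gt_atTop i] with m hm h2
    exact absurd (node_eq_iff.1 h2 i hm) hi

lemma tail_disj {S : Finset Br} {m0 : ℕ} (hS : Sep S m0) {t s : Br} (ht : t ∈ S) (hs : s ∈ S)
    (hts : t ≠ s) {m m' : ℕ} (hm : m0 ≤ m) {γ : Gm} (h1 : tail t m γ) (h2 : tail s m' γ) :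
    False := by
  have h3 : node t γ.length = node s γ.length := h1.2.symm.trans h2.2
  exact hts (hS t ht s hs (node_eq_iff.2 fun i hi =>
    node_eq_iff.1 h3 i (lt_of_lt_of_le hi (hm.trans h1.1))))

lemma not_countable_Br : ¬ (Set.univ : Set Br).Countable := by
  intro h
  have : Countable Br := Set.countable_univ_iff.1 h
  obtain ⟨f, hf⟩ := exists_surjective_nat Br
  obtain ⟨k, hk⟩ := hf fun n => !(f n n)
  have h1 := congrFun hk k
  cases h2 : f k k <;> simp [h2] at h1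

theorem lemmaF {G ι : Type} [NormedAddCommGroup G] [NormedSpace ℂ G] [Countable ι]
    (V : ι → G →ₗ[ℂ] G) (h : Br → ℕ → G)
    (H1 : ∀ t, ∃ i, ‖V i (h t 0) - h t 0‖ < 1 / 4)
    (H2 : ∀ i, ∃ C : ℝ, ∀ (S : Finset Br) (m : Br → ℕ) (m0 : ℕ), Sep S m0 → (∀ t ∈ S, m0 ≤ m t) →
      ∑ t ∈ S, ‖V i (h t (m t))‖ ≤ C)
    (H3 : ∀ t s m, node t m = node s m → h t 0 - h t m = h s 0 - h s m)
    (H4 : ∀ t s, t ≠ s → 1 ≤ ‖h t 0 - h s 0‖) : False := by
  let Bad : ι → Set Br := fun i => {t | ∀ m0, ∃ m ≥ m0, 1 / 4 ≤ ‖V i (h t m)‖}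
  have hBad : ∀ i, (Bad i).Finite := by
    intro i
    obtain ⟨C, hC⟩ := H2 i
    by_contra hinf
    obtain ⟨n, hn⟩ := exists_nat_gt (4 * C)
    obtain ⟨S, hS, hcard⟩ := Set.Infinite.exists_subset_card_eq hinf n
    obtain ⟨m0, hm0⟩ := (eventually_sep S).exists
    have h1 : ∀ t, ∃ m, t ∈ S → m0 ≤ m ∧ 1 / 4 ≤ ‖V i (h t m)‖ := by
      intro t
      by_cases ht : t ∈ S
      · obtain ⟨m, hm1, hm2⟩ := hS ht m0
        exact ⟨m, fun _ => ⟨hm1, hm2⟩⟩
      · exact ⟨0, fun h2 => absurd h2 ht⟩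
    choose m hm using h1
    have h2 := hC S m m0 hm0 fun t ht => (hm t ht).1
    have h3 : ∑ _t ∈ S, (1 / 4 : ℝ) ≤ ∑ t ∈ S, ‖V i (h t (m t))‖ :=
      Finset.sum_le_sum fun t ht => (hm t ht).2
    rw [Finset.sum_const, hcard, nsmul_eq_mul] at h3
    linarith
  choose i hi using H1
  have hG : ∀ t, ∃ m, t ∉ ⋃ j, Bad j → ‖V (i t) (h t m)‖ < 1 / 4 := by
    intro t
    by_cases ht : t ∈ ⋃ j, Bad j
    · exact ⟨0, fun h2 => absurd ht h2⟩
    · have h1 : t ∉ Bad (i t) := fun h2 => ht (Set.mem_iUnion.2 ⟨_, h2⟩)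
      simp only [Bad, Set.mem_ofPred_eq, not_forall, not_exists, not_and, not_le] at h1
      obtain ⟨m0, hm0⟩ := h1
      exact ⟨m0, fun _ => hm0 m0 le_rfl⟩
  choose m hm using hG
  have hclose : ∀ t ∉ ⋃ j, Bad j, ‖V (i t) (h t 0 - h t (m t)) - h t 0‖ < 1 / 2 := by
    intro t ht
    have h1 : V (i t) (h t 0 - h t (m t)) - h t 0 =
        (V (i t) (h t 0) - h t 0) - V (i t) (h t (m t)) := by
      rw [map_sub]
      abel
    rw [h1]
    linarith [norm_sub_le (V (i t) (h t 0) - h t 0) (V (i t) (h t (m t))), hi t, hm t ht]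
  have hinj : Set.InjOn (fun t => (i t, node t (m t))) (⋃ j, Bad j)ᶜ := by
    intro t ht s hs hts
    by_contra hne
    have h1 : i t = i s := congrArg Prod.fst hts
    have h2 : node t (m t) = node s (m s) := congrArg Prod.snd hts
    have h3 : m t = m s := by
      have := congrArg List.length h2
      rwa [node_length, node_length] at this
    have h4 := hclose t ht
    have h5 := hclose s hs
    rw [← h3] at h2
    rw [← h1, ← h3, ← H3 t s (m t) h2] at h5
    have h6 := H4 t s hne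
    have h7 : h t 0 - h s 0 = (V (i t) (h t 0 - h t (m t)) - h s 0) -
        (V (i t) (h t 0 - h t (m t)) - h t 0) := by abel
    rw [h7] at h6
    linarith [norm_sub_le (V (i t) (h t 0 - h t (m t)) - h s 0)
      (V (i t) (h t 0 - h t (m t)) - h t 0)]
  have hc1 : ((⋃ j, Bad j)ᶜ).Countable :=
    Set.countable_of_injective_of_countable_image hinj (Set.to_countable _)
  have hc2 : (⋃ j, Bad j).Countable := Set.countable_iUnion fun j => (hBad j).countable
  apply not_countable_Br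
  rw [← Set.union_compl_self (⋃ j, Bad j)]
  exact hc2.union hc1

/-- Bounded scalar functions. -/
abbrev Linf (ι : Type) : Type := lp (fun _ : ι => ℂ) ⊤

open Classical in
/-- Indicator functions. -/
noncomputable def ind {ι : Type} (p : ι → Prop) : Linf ι :=
  ⟨fun i => if p i then 1 else 0, memℓp_infty ⟨1, by
    rintro _ ⟨i, rfl⟩
    by_cases h : p i <;> simp [h]⟩⟩

lemma ind_pos {ι : Type} {p : ι → Prop} {i : ι} (h : p i) : ind p i = 1 := if_pos h

lemma ind_neg {ι : Type} {p : ι → Prop} {i : ι} (h : ¬ p i) : ind p i = 0 := if_neg h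

/-- Point evaluation. -/
noncomputable def pt {ι : Type} (i : ι) : Linf ι →L[ℂ] ℂ := lp.evalCLM ℂ (fun _ : ι => ℂ) ⊤ i

lemma pt_apply {ι : Type} (i : ι) (f : Linf ι) : pt i f = f i := rfl

lemma norm_pt_le {ι : Type} (i : ι) (f : Linf ι) : ‖f i‖ ≤ ‖f‖ :=
  lp.norm_apply_le_norm ENNReal.top_ne_zero f i

lemma norm_sum_ind_le {ι κ : Type} (S : Finset κ) (p : κ → ι → Prop)
    (hd : ∀ a ∈ S, ∀ b ∈ S, a ≠ b → ∀ i, p a i → p b i → False) (w : κ → ℂ) (B : ℝ) (hB : 0 ≤ B)
    (hw : ∀ a ∈ S, ‖w a‖ ≤ B) : ‖∑ a ∈ S, w a • ind (p a)‖ ≤ B := by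
  refine lp.norm_le_of_forall_le hB fun i => ?_
  rw [← pt_apply, map_sum]
  simp only [map_smul, pt_apply, smul_eq_mul]
  by_cases h : ∃ a ∈ S, p a i
  · obtain ⟨a, ha, hp⟩ := h
    rw [Finset.sum_eq_single a, ind_pos hp, mul_one]
    · exact hw a ha
    · intro b hb hba
      rw [ind_neg fun h2 => hd b hb a ha hba i h2 hp, mul_zero]
    · intro h2
      exact absurd ha h2
  · rw [Finset.sum_eq_zero, norm_zero]
    · exact hB
    · intro a ha
      rw [ind_neg fun h2 => h ⟨a, ha, h2⟩, mul_zero]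

lemma wk_sum {W κ : Type} [NormedAddCommGroup W] [NormedSpace ℂ W] (S : Finset κ) (x : κ → W)
    (B : ℝ) (h : ∀ w : κ → ℂ, (∀ a, ‖w a‖ ≤ 1) → ‖∑ a ∈ S, w a • x a‖ ≤ B) (φ : W →L[ℂ] ℂ) :
    ∑ a ∈ S, ‖φ (x a)‖ ≤ ‖φ‖ * B := by
  choose w hw1 hw2 using fun a => Complex.exists_norm_eq_mul_self (φ (x a))
  have h1 : ((∑ a ∈ S, ‖φ (x a)‖ : ℝ) : ℂ) = φ (∑ a ∈ S, w a • x a) := by
    rw [map_sum]
    push_cast
    exact Finset.sum_congr rfl fun a _ => by rw [map_smul, smul_eq_mul, hw2]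
  calc ∑ a ∈ S, ‖φ (x a)‖ ≤ ‖((∑ a ∈ S, ‖φ (x a)‖ : ℝ) : ℂ)‖ := by
        rw [Complex.norm_real]
        exact le_abs_self _
    _ ≤ ‖φ‖ * ‖∑ a ∈ S, w a • x a‖ := by
        rw [h1]
        exact φ.le_opNorm _
    _ ≤ ‖φ‖ * B := mul_le_mul_of_nonneg_left (h w fun a => (hw1 a).le) (norm_nonneg φ)

lemma ind_tail_sub {t s : Br} {m : ℕ} (h : node t m = node s m) (γ : Gm) :
    ind (tail t 0) γ - ind (tail t m) γ = ind (tail s 0) γ - ind (tail s m) γ := by
  by_cases h1 : m ≤ γ.length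
  · have h2 : ∀ u : Br, ind (tail u 0) γ - ind (tail u m) γ = 0 := by
      intro u
      by_cases h3 : γ = node u γ.length
      · rw [ind_pos (p := tail u 0) ⟨Nat.zero_le _, h3⟩, ind_pos (p := tail u m) ⟨h1, h3⟩, sub_self]
      · rw [ind_neg (p := tail u 0) fun h4 => h3 h4.2, ind_neg (p := tail u m) fun h4 => h3 h4.2,
          sub_self]
    rw [h2, h2]
  · have h2 : node t γ.length = node s γ.length :=
      node_eq_iff.2 fun i hi => node_eq_iff.1 h i (hi.trans (not_le.1 h1))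
    rw [ind_neg (p := tail t m) fun h4 => h1 h4.1, ind_neg (p := tail s m) fun h4 => h1 h4.1]
    by_cases h3 : γ = node t γ.length
    · rw [ind_pos (p := tail t 0) ⟨Nat.zero_le _, h3⟩,
        ind_pos (p := tail s 0) ⟨Nat.zero_le _, h3.trans h2⟩]
    · rw [ind_neg (p := tail t 0) fun h4 => h3 h4.2,
        ind_neg (p := tail s 0) fun h4 => h3 (h4.2.trans h2.symm)]

lemma exists_node_sep {t s : Br} (h : t ≠ s) : ∃ γ, tail t 0 γ ∧ ¬ tail s 0 γ := by
  obtain ⟨i, hi⟩ := Function.ne_iff.1 h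
  refine ⟨node t (i + 1), ⟨Nat.zero_le _, by rw [node_length]⟩, fun h2 => hi ?_⟩
  have h3 := h2.2
  rw [node_length] at h3
  exact node_eq_iff.1 h3 i (Nat.lt_succ_self i)

lemma rankOne_compact {E F : Type} [NormedAddCommGroup E] [NormedSpace ℂ E] [NormedAddCommGroup F]
    [NormedSpace ℂ F] (f : E →L[ℂ] ℂ) (y : F) : IsCompactOperator (f.smulRight y) :=
  (isCompactOperator_of_locallyCompactSpace_dom f).clm_comp
    (ContinuousLinearMap.toSpanSingleton ℂ y)

end Pool.Agent.Lib.helper3.KP
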