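import Mathlib

set_option autoImplicit false

/-! Cauchy estimate for powers; direct sums of operators. -/

namespace Pool.Agent.Lib.H3Kreiss

/-- Cauchy estimate for the powers. -/
lemma pow_le {A : Type*} [NormedRing A] [NormedAlgebra ℂ A] [CompleteSpace A] {T : A}
    (hT : spectrum ℂ T ⊆ Metric.closedBall 0 1) {ρ K : ℝ} (hρ : 1 < ρ)
    (hK : ∀ z : ℂ, ‖z‖ = ρ → ‖resolvent T z‖ ≤ K) (n : ℕ) : ‖T ^ n‖ ≤ K * ρ ^ (n + 1) := by
  have h0 : 0 < ρ⁻¹ := by positivity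
  let r : NNReal := ⟨ρ⁻¹, h0.le⟩
  have hr' : (r : ℝ) = ρ⁻¹ := rfl
  have hr : (r : ENNReal) < (spectralRadius ℂ T)⁻¹ := by
    have : spectralRadius ℂ T ≤ 1 := iSup₂_le fun k hk => by
      exact_mod_cast (show ‖k‖ ≤ 1 by simpa using hT hk)
    refine lt_of_lt_of_le ?_ (ENNReal.one_le_inv.2 this)
    exact_mod_cast (show ρ⁻¹ < 1 from inv_lt_one_of_one_lt₀ hρ)
  have H1 := (spectrum.differentiableOn_inverse_one_sub_smul hr).hasFPowerSeriesOnBall h0
  have H2 := (spectrum.hasFPowerSeriesOnBall_inverse_one_sub_smul ℂ T).hasFPowerSeriesAt.eq_formalMultilinearSeries H1.hasFPowerSeriesAt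
  have H3 := norm_cauchyPowerSeries_le (fun z : ℂ => Ring.inverse (1 - z • T)) 0 r n
  rw [← H2, ContinuousMultilinearMap.norm_mkPiRing] at H3
  have H4 : ∀ θ, ‖Ring.inverse (1 - circleMap 0 r θ • T)‖ ≤ ρ * K := fun θ => by
    have hn : ‖circleMap 0 r θ‖ = ρ⁻¹ := by simp [hr', abs_of_pos h0]
    have hne : circleMap 0 r θ ≠ 0 := by rw [← norm_pos_iff, hn]; exact h0
    have := spectrum.units_smul_resolvent_self (r := (Units.mk0 _ hne)⁻¹) (a := T)
    simp only [resolvent, Units.smul_def, inv_inv, Units.val_mk0, map_one,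
      Units.val_inv_eq_inv_val] at this
    rw [← this, norm_smul, norm_inv, hn, inv_inv]
    exact mul_le_mul_of_nonneg_left (hK _ (by rw [norm_inv, hn, inv_inv])) (by linarith)
  have H5 : ∫ θ : ℝ in 0..2 * Real.pi, ‖Ring.inverse (1 - circleMap 0 r θ • T)‖ ≤
      2 * Real.pi * (ρ * K) := by
    have := intervalIntegral.norm_integral_le_of_norm_le_const (a := 0) (b := 2 * Real.pi)
      (C := ρ * K) (f := fun θ => ‖Ring.inverse (1 - circleMap 0 r θ • T)‖)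
      fun θ _ => by rw [norm_norm]; exact H4 θ
    rw [sub_zero, abs_of_pos Real.two_pi_pos, mul_comm (ρ * K)] at this
    exact (le_abs_self _).trans this
  refine H3.trans ?_
  have e : |(r : ℝ)|⁻¹ = ρ := by rw [hr', abs_of_pos h0, inv_inv]
  rw [e]
  calc _ ≤ ((2 * Real.pi)⁻¹ * (2 * Real.pi * (ρ * K))) * ρ ^ n := by gcongr
    _ = _ := by rw [pow_succ]; field_simp

/-- direct sums -/
lemma exists_sum {ι : Type} {E : ι → Type} [∀ i, NormedAddCommGroup (E i)]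
    [∀ i, NormedSpace ℂ (E i)] (A : ∀ i, E i →L[ℂ] E i) {C : ℝ} (hC : 0 ≤ C) (h : ∀ i, ‖A i‖ ≤ C) :
    ∃ D : lp E 2 →L[ℂ] lp E 2, (∀ f i, D f i = A i (f i)) ∧ ‖D‖ ≤ C := by
  have hb : ∀ (f : lp E 2) i, ‖A i (f i)‖ ≤ ‖((C : ℂ) • f) i‖ := fun f i => by
    rw [lp.coeFn_smul, Pi.smul_apply, norm_smul, Complex.norm_real, Real.norm_of_nonneg hC]
    exact (A i).le_of_opNorm_le (h i) _
  let L : lp E 2 →ₗ[ℂ] lp E 2 :=
    { toFun := fun f => ⟨fun i => A i (f i), (lp.memℓp ((C : ℂ) • f)).mono' (hb f)⟩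
      map_add' := fun f g => by ext i; simp
      map_smul' := fun c f => by ext i; simp }
  have hL : ∀ f, ‖L f‖ ≤ C * ‖f‖ := fun f => by
    refine (lp.norm_mono (by norm_num) (hb f)).trans ?_
    rw [norm_smul, Complex.norm_real, Real.norm_of_nonneg hC]
  exact ⟨L.mkContinuous C hL, fun _ _ => rfl, L.mkContinuous_norm_le hC hL⟩

lemma le_sum {ι : Type} {E : ι → Type} [∀ i, NormedAddCommGroup (E i)]
    [∀ i, NormedSpace ℂ (E i)] (A : ∀ i, E i →L[ℂ] E i) (D : lp E 2 →L[ℂ] lp E 2)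
    (hD : ∀ f i, D f i = A i (f i)) (i : ι) : ‖A i‖ ≤ ‖D‖ := by
  classical
  refine (A i).opNorm_le_bound (norm_nonneg _) fun x => ?_
  have h1 := D.le_opNorm (lp.single 2 i x)
  have h2 := lp.norm_apply_le_norm (p := 2) (by norm_num) (D (lp.single 2 i x)) i
  rw [hD, lp.single_apply_self] at h2
  rw [lp.norm_single (by norm_num)] at h1
  exact h2.trans h1

/-- A direct sum of operators with uniformly bounded resolvents. -/
lemma sum_res {ι : Type} {E : ι → Type} [∀ i, NormedAddCommGroup (E i)]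
    [∀ i, NormedSpace ℂ (E i)] [∀ i, CompleteSpace (E i)] (A : ∀ i, E i →L[ℂ] E i) (K : ℝ → ℝ)
    (hK : ∀ ρ, 1 < ρ → 0 ≤ K ρ)
    (h : ∀ i (z : ℂ), 1 < ‖z‖ → z ∈ resolventSet ℂ (A i) ∧ ‖resolvent (A i) z‖ ≤ K ‖z‖) :
    ∃ D : lp E 2 →L[ℂ] lp E 2, spectrum ℂ D ⊆ Metric.closedBall 0 1 ∧
      (∀ z : ℂ, 1 < ‖z‖ → ‖resolvent D z‖ ≤ K ‖z‖) ∧ ∀ i n, ‖A i ^ n‖ ≤ ‖D ^ n‖ := by
  obtain ⟨D, hD, -⟩ := exists_sum A (C := K 2 * 2 ^ (1 + 1)) (by have := hK 2 (by norm_num); positivity)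
    fun i => by
      simpa only [pow_one] using pow_le (T := A i) (fun z hz => by
        by_contra hc
        exact hz (h i z (by simpa using hc)).1) (ρ := 2) (K := K 2) (by norm_num)
        (fun z hz => hz ▸ (h i z (by rw [hz]; norm_num)).2) 1
  have key : ∀ z : ℂ, 1 < ‖z‖ → z ∈ resolventSet ℂ D ∧ ‖resolvent D z‖ ≤ K ‖z‖ := fun z hz => by
    obtain ⟨R, hR, hR'⟩ := exists_sum (fun i => resolvent (A i) z) (hK _ hz) fun i => (h i z hz).2
    have e : ∀ (f : lp E 2) i, (algebraMap ℂ (lp E 2 →L[ℂ] lp E 2) z - D) f i =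
        (algebraMap ℂ (E i →L[ℂ] E i) z - A i) (f i) := fun f i => by
      simp [hD]
    have f1 : (algebraMap ℂ _ z - D) * R = 1 := by
      ext f i
      rw [mul_apply_eq_comp, e, hR, ← mul_apply_eq_comp, resolvent,
        Ring.mul_inverse_cancel _ (h i z hz).1]
      rfl
    have f2 : R * (algebraMap ℂ _ z - D) = 1 := by
      ext f i
      rw [mul_apply_eq_comp, hR, e, ← mul_apply_eq_comp, resolvent,
        Ring.inverse_mul_cancel _ (h i z hz).1]
      rfl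
    have hu : IsUnit (algebraMap ℂ _ z - D) := ⟨⟨_, _, f1, f2⟩, rfl⟩
    refine ⟨hu, ?_⟩
    rwa [resolvent, ← one_mul (Ring.inverse _), ← f2, mul_assoc, Ring.mul_inverse_cancel _ hu,
      mul_one]
  refine ⟨D, fun z hz => ?_, fun z hz => (key z hz).2, fun i n => le_sum (fun i => A i ^ n) _ ?_ i⟩
  · by_contra hc
    exact hz (key z (by simpa using hc)).1
  · induction n with
    | zero => simp
    | succ n ih => intro f i; rw [pow_succ', pow_succ', mul_apply_eq_comp, hD, ih]; rfl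

end Pool.Agent.Lib.H3Kreiss
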