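import Mathlib

set_option autoImplicit false

/-! Weighted shifts with resolvent bounds; Cauchy estimate for powers; direct sums. -/

namespace Pool.Agent.Lib.H3Kreiss

open Finset Matrix

lemma schur {n : Type*} [Fintype n] [DecidableEq n] (B : Matrix n n ℂ) (w : n → n → ℝ)
    (hw : ∀ j i, 0 < w j i) (C : ℝ) (hC : 0 ≤ C) (h1 : ∀ j, ∑ i, ‖B j i‖ * w j i ≤ C)
    (h2 : ∀ i, ∑ j, ‖B j i‖ * (w j i)⁻¹ ≤ C) : ‖toEuclideanCLM (𝕜 := ℂ) (n := n) B‖ ≤ C := by
  refine ContinuousLinearMap.opNorm_le_bound _ hC fun x => ?_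
  refine (sq_le_sq₀ (norm_nonneg _) (by positivity)).mp ?_
  rw [EuclideanSpace.norm_sq_eq, mul_pow, EuclideanSpace.norm_sq_eq]
  calc _ ≤ ∑ j, C * ∑ i, ‖B j i‖ * (w j i)⁻¹ * ‖x i‖ ^ 2 := by
        refine sum_le_sum fun j _ => ?_
        have e : ‖(toEuclideanCLM (𝕜 := ℂ) (n := n) B x) j‖ ≤ ∑ i, ‖B j i‖ * ‖x i‖ := by
          refine le_trans (le_of_eq ?_) ((norm_sum_le _ _).trans
            (sum_le_sum fun i _ => norm_mul_le (B j i) (x i)))
          rfl
        refine (pow_le_pow_left₀ (norm_nonneg _) e 2).trans ?_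
        refine (sum_sq_le_sum_mul_sum_of_sq_le_mul univ (f := fun i => ‖B j i‖ * w j i)
          (g := fun i => ‖B j i‖ * (w j i)⁻¹ * ‖x i‖ ^ 2)
          (fun i _ => by have := hw j i; positivity) (fun i _ => by have := hw j i; positivity)
          (fun i _ => le_of_eq (by have := hw j i; field_simp))).trans ?_
        exact mul_le_mul_of_nonneg_right (h1 j)
          (sum_nonneg fun i _ => by have := hw j i; positivity)
    _ = C * ∑ i, (∑ j, ‖B j i‖ * (w j i)⁻¹) * ‖x i‖ ^ 2 := by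
        rw [← mul_sum, sum_comm]; simp only [sum_mul]
    _ ≤ C * ∑ i, C * ‖x i‖ ^ 2 := by gcongr with i; exact h2 i
    _ = _ := by rw [← mul_sum]; ring

lemma bern {x s : ℝ} (hx : 1 ≤ x) (h0 : 0 ≤ s) (h1 : s ≤ 1) :
    (x - 1) ^ s ≤ x ^ s * (1 - s / x) := by
  have := rpow_one_add_le_one_add_mul_self (s := -1 / x)
    (by rw [le_div_iff₀ (by linarith)]; linarith) h0 h1
  rw [show x - 1 = x * (1 + -1 / x) by field_simp; ring, Real.mul_rpow (by linarith)
    (by rw [neg_div, ← sub_eq_add_neg, sub_nonneg, div_le_one (by linarith)]; exact hx)]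
  exact mul_le_mul_of_nonneg_left (this.trans (le_of_eq (by ring))) (by positivity)

lemma tel1 {s : ℝ} (h0 : 0 < s) (h1 : s ≤ 1) (J : ℕ) :
    ∑ x ∈ range J, ((x + 1 : ℕ) : ℝ) ^ (s - 1) ≤ (J : ℝ) ^ s / s := by
  induction J with
  | zero => simp [h0.ne']
  | succ J ih =>
    rw [sum_range_succ]
    have := bern (x := ((J + 1 : ℕ) : ℝ)) (by simp) h0.le h1
    rw [Real.rpow_sub_one (by positivity), le_div_iff₀ h0] at *
    simp only [Nat.cast_add, Nat.cast_one, add_sub_cancel_right] at *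
    rw [add_mul]
    have e : ((J:ℝ) + 1) ^ s * (1 - s / (J + 1)) = (J + 1) ^ s - (J + 1) ^ s / (J + 1) * s := by ring
    linarith

lemma tel2 {s : ℝ} (h0 : 0 < s) (h1 : s < 1) (q : ℕ) (hq : 1 ≤ q) (T : ℕ) :
    ∑ x ∈ range T, ((q + x + 1 : ℕ) : ℝ) ^ (-s - 1) ≤
      ((q : ℝ) ^ (-s) - ((q + T : ℕ) : ℝ) ^ (-s)) / s := by
  induction T with
  | zero => simp
  | succ T ih =>
    rw [sum_range_succ, ← add_assoc]
    have hb := bern (x := ((q + T + 1 : ℕ) : ℝ)) (by exact_mod_cast (by omega)) h0.le h1.le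
    rw [show ((q + T + 1 : ℕ) : ℝ) - 1 = ((q + T : ℕ) : ℝ) by push_cast; ring] at hb
    have p1 : (0:ℝ) < ((q + T : ℕ) : ℝ) := by exact_mod_cast (by omega)
    have p2 : (0:ℝ) < ((q + T + 1 : ℕ) : ℝ) := by positivity
    rw [Real.rpow_sub_one p2.ne', le_div_iff₀ h0] at *
    rw [Real.rpow_neg p1.le] at ih
    rw [Real.rpow_neg p2.le, add_mul]
    set X := ((q + T + 1 : ℕ) : ℝ)
    have p3 := Real.rpow_pos_of_pos p1 s
    have p4 := Real.rpow_pos_of_pos p2 s
    have : (X ^ s)⁻¹ * (1 + s / X) ≤ (((q + T : ℕ) : ℝ) ^ s)⁻¹ := by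
      rw [inv_mul_le_iff₀ p4, ← div_eq_mul_inv, le_div_iff₀ p3]
      have : 0 ≤ s / X := by positivity
      nlinarith [mul_le_mul_of_nonneg_left hb (show 0 ≤ 1 + s / X by linarith),
        mul_nonneg p4.le (mul_self_nonneg (s / X))]
    have e : (X ^ s)⁻¹ * (1 + s / X) = (X ^ s)⁻¹ + (X ^ s)⁻¹ / X * s := by ring
    linarith

lemma sum_inj {n : Type*} (S : Finset n) (τ : n → ℕ) (h : Set.InjOn τ S) (T : ℕ)
    (hT : ∀ i ∈ S, τ i < T) (F : ℕ → ℝ) (hF : ∀ t, 0 ≤ F t) :
    ∑ i ∈ S, F (τ i) ≤ ∑ t ∈ range T, F t := by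
  rw [← sum_image h]
  exact sum_le_sum_of_subset_of_nonneg (image_subset_iff.mpr fun i hi => mem_range.mpr (hT i hi))
    fun t _ _ => hF t

lemma point {x y p q t s : ℝ} (hx : 0 < x) (hq : 0 < q) (ht : 0 ≤ t) (h1 : y = x + t)
    (h2 : p = q + t) (s0 : 0 < s) (s1 : s ≤ 1 / 2) :
    ((y / x * (p / q)) ^ (1 / 2 - s) - 1) / (t + 1) * √(y / x / (p / q)) ≤
      3 * (y ^ (-s) * x ^ (s - 1)) + 2 * (q ^ s * p ^ (-s - 1)) := by
  have hy : 0 < y := by linarith
  have hp : 0 < p := by linarith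
  have hu : 1 ≤ y / x := by rw [le_div_iff₀ hx]; linarith
  have hv : 1 ≤ p / q := by rw [le_div_iff₀ hq]; linarith
  have e1 : y ^ (-s) * x ^ (s - 1) = (y / x) ^ (1 / 2 - s) * √(y / x) / y := by
    rw [Real.sqrt_eq_rpow, ← Real.rpow_add (by linarith), Real.div_rpow hy.le hx.le,
      show 1 / 2 - s + 1 / 2 = -s + 1 by ring, Real.rpow_add_one hy.ne',
      show s - 1 = -(-s + 1) by ring, Real.rpow_neg hx.le]
    field_simp
  have e2 : q ^ s * p ^ (-s - 1) = (p / q) ^ (1 / 2 - s) / √(p / q) / p := by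
    rw [Real.sqrt_eq_rpow, ← Real.rpow_sub (by linarith), Real.div_rpow hp.le hq.le,
      show 1 / 2 - s - 1 / 2 = -s by ring, Real.rpow_sub_one hp.ne', Real.rpow_neg hq.le]
    field_simp
  have U1 : 1 ≤ (y / x) ^ (1 / 2 - s) := Real.one_le_rpow hu (by linarith)
  have U2 : (y / x) ^ (1 / 2 - s) ≤ y / x := by
    simpa using Real.rpow_le_rpow_of_exponent_le hu (show 1 / 2 - s ≤ 1 by linarith)
  have V1 : 1 ≤ (p / q) ^ (1 / 2 - s) := Real.one_le_rpow hv (by linarith)
  have V2 : (p / q) ^ (1 / 2 - s) ≤ √(p / q) := by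
    rw [Real.sqrt_eq_rpow]; exact Real.rpow_le_rpow_of_exponent_le hv (by linarith)
  have Q1 : 1 ≤ √(p / q) := Real.one_le_sqrt.mpr hv
  have Q2 : √(p / q) ≤ p / q := by nlinarith [Real.mul_self_sqrt (show 0 ≤ p / q by linarith)]
  have P1 : 1 ≤ √(y / x) := Real.one_le_sqrt.mpr hu
  have P2 : √(y / x) / p ≤ 2 / p + 2 * √(y / x) / y := by
    rcases le_total (y / x) 4 with h | h
    · have : √(y / x) ≤ 2 := Real.sqrt_le_iff.mpr ⟨by norm_num, by linarith⟩
      have := div_le_div_of_nonneg_right this hp.le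
      have : 0 ≤ 2 * √(y / x) / y := by positivity
      linarith
    · rw [le_div_iff₀ hx] at h
      have : √(y / x) / p ≤ 2 * √(y / x) / y := by
        rw [div_le_div_iff₀ hp hy]; nlinarith
      have : 0 ≤ 2 / p := by positivity
      linarith
  rw [e1, e2, Real.mul_rpow (by linarith) (by linarith), Real.sqrt_div (by linarith)]
  generalize (y / x) ^ (1 / 2 - s) = U at *
  generalize (p / q) ^ (1 / 2 - s) = V at *
  generalize √(y / x) = P at *
  generalize √(p / q) = Q at *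
  have a1 : (U - 1) / (t + 1) ≤ U / y := by
    rw [le_div_iff₀ hx] at U2
    rw [div_le_div_iff₀ (by linarith) hy]; nlinarith
  have a2 : (V - 1) / (t + 1) ≤ V / p := by
    have := V2.trans Q2
    rw [le_div_iff₀ hq] at this
    rw [div_le_div_iff₀ (by linarith) hp]; nlinarith
  have a3 : V / Q ≤ 1 := (div_le_one (by linarith)).mpr V2
  have a4 : 0 ≤ V / Q := by positivity
  have a5 : 0 ≤ P / y := by positivity
  calc _ = (U - 1) / (t + 1) * (V / Q * P) + (V - 1) / (t + 1) * (P / Q) := by ring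
    _ ≤ U / y * (1 * P) + V / p * (P / Q) := by gcongr
    _ = U * (P / y) + V / Q * (P / p) := by ring
    _ ≤ U * (P / y) + V / Q * (2 / p + 2 * P / y) := by gcongr
    _ = U * (P / y) + 2 * (V / Q / p) + 2 * (V / Q * (P / y)) := by ring
    _ ≤ U * (P / y) + 2 * (V / Q / p) + 2 * (U * (P / y)) := by gcongr; linarith
    _ = _ := by ring

section
variable {n : Type*} [Fintype n] {a b : n → ℕ} {M : ℕ} {ρ β : ℝ}

lemma rs0 (ha : Function.Injective a) (hρ : 1 < ρ) (j : n) :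
    ∑ i, (if a i ≤ a j then (ρ - 1) / ρ ^ (a j - a i + 1) else 0) ≤ 1 := by
  rw [← sum_filter]
  refine (sum_inj _ (fun i => a j - a i) (fun i hi k hk e => ha (by
    simp only [coe_filter, mem_univ, true_and, Set.mem_ofPred_eq] at hi hk e; omega)) (a j + 1)
    (fun i _ => by omega) (fun t => (ρ - 1) / ρ ^ (t + 1))
    fun t => div_nonneg (by linarith) (by positivity)).trans ?_
  have : ∀ T, ∑ t ∈ range T, (ρ - 1) / ρ ^ (t + 1) = 1 - 1 / ρ ^ T := fun T => by
    induction T with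
    | zero => simp
    | succ T ih => rw [sum_range_succ, ih]; field_simp; ring
  rw [this]
  have : 0 < 1 / ρ ^ (a j + 1) := by positivity
  linarith

lemma rs1 (ha : Function.Injective a) (a0 : ∀ i, 1 ≤ a i) (b0 : ∀ i, 1 ≤ b i)
    (hM : ∀ i, a i + b i = M) (hρ : 1 < ρ) (h0 : 0 < β) (h1 : β < 1) (j : n) :
    ∑ i, (if a i ≤ a j then (ρ - 1) / ρ ^ (a j - a i + 1) *
      (((a j : ℝ) / a i * (b i / b j)) ^ (β / 2) - 1) * √((a j : ℝ) / a i / (b i / b j)) else 0)
      ≤ 40 * β / (1 - β) := by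
  set s := (1 - β) / 4 with hs
  have s0 : 0 < s := by linarith
  have aj : (0:ℝ) < a j := by exact_mod_cast a0 j
  have bj : (0:ℝ) < b j := by exact_mod_cast b0 j
  have key : ∀ i, (if a i ≤ a j then (ρ - 1) / ρ ^ (a j - a i + 1) *
      (((a j : ℝ) / a i * (b i / b j)) ^ (β / 2) - 1) * √((a j : ℝ) / a i / (b i / b j)) else 0) ≤
      if a i < a j then 2 * β * (3 * ((a j : ℝ) ^ (-s) * ((a i - 1 + 1 : ℕ) : ℝ) ^ (s - 1)) +
        2 * ((b j : ℝ) ^ s * ((b j + (b i - b j - 1) + 1 : ℕ) : ℝ) ^ (-s - 1))) else 0 := by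
    intro i
    rcases lt_trichotomy (a i) (a j) with h | h | h
    · have := hM i; have := hM j; have := a0 i
      rw [if_pos h.le, if_pos h, show a i - 1 + 1 = a i by omega,
        show b j + (b i - b j - 1) + 1 = b i by omega]
      have ai : (0:ℝ) < a i := by exact_mod_cast a0 i
      obtain ⟨t, ht⟩ := Nat.exists_eq_add_of_le h.le
      have e1 : (a j : ℝ) = a i + t := by exact_mod_cast ht
      have e2 : (b i : ℝ) = b j + t := by exact_mod_cast (by omega)
      have t0 : (0:ℝ) ≤ t := t.cast_nonneg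
      have hp := point ai bj t0 e1 e2 s0 (by linarith)
      have hX : 1 ≤ (a j : ℝ) / a i * (b i / b j) :=
        one_le_mul_of_one_le_of_one_le (by rw [le_div_iff₀ ai]; linarith)
          (by rw [le_div_iff₀ bj]; linarith)
      have g0 : 0 < 1 / 2 - s := by linarith
      set X := (a j : ℝ) / a i * (b i / b j)
      have X1 : 1 ≤ X ^ (1 / 2 - s) := Real.one_le_rpow hX g0.le
      have X2 : 1 ≤ X ^ (β / 2) := Real.one_le_rpow hX (by linarith)
      have hb := rpow_one_add_le_one_add_mul_self (s := X ^ (1 / 2 - s) - 1)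
        (p := β / 2 / (1 / 2 - s)) (by linarith) (by positivity)
        (by rw [div_le_one g0]; linarith)
      rw [add_sub_cancel, ← Real.rpow_mul (by linarith), mul_div_cancel₀ _ g0.ne'] at hb
      have hc : β / 2 / (1 / 2 - s) ≤ 2 * β := by rw [div_le_iff₀ g0]; nlinarith
      have hd : (ρ - 1) / ρ ^ (t + 1) ≤ 1 / (t + 1) := by
        have := one_add_mul_le_pow (a := ρ - 1) (by linarith) (t + 1)
        rw [div_le_div_iff₀ (by positivity) (by positivity)]
        push_cast at this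
        rw [add_sub_cancel] at this
        linarith
      rw [show a j - a i = t by omega]
      refine le_trans ?_ (mul_le_mul_of_nonneg_left hp (by positivity))
      calc _ ≤ 1 / (t + 1) * (2 * β * (X ^ (1 / 2 - s) - 1)) * √((a j : ℝ) / a i / (b i / b j)) := by
            gcongr
            nlinarith
        _ = _ := by ring
    · have hij := ha h
      subst hij
      simp [aj.ne', bj.ne']
    · rw [if_neg (by omega), if_neg (by omega)]
  refine (sum_le_sum fun i _ => key i).trans ?_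
  rw [← sum_filter, ← mul_sum, sum_add_distrib, ← mul_sum, ← mul_sum, ← mul_sum, ← mul_sum]
  have k1 := (sum_inj (univ.filter fun i => a i < a j) (fun i => a i - 1) (fun i _ k _ e => ha (by
    have := a0 i; have := a0 k; simp only at e; omega)) (a j)
    (fun i hi => by have := (mem_filter.mp hi).2; omega) (fun t => ((t + 1 : ℕ) : ℝ) ^ (s - 1))
    fun t => by positivity).trans (tel1 s0 (by linarith) _)
  have k2 := (sum_inj (univ.filter fun i => a i < a j) (fun i => b i - b j - 1)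
    (fun i hi k hk e => ha (by
      have := hM i; have := hM k; have := hM j
      simp only [coe_filter, mem_univ, true_and, Set.mem_ofPred_eq] at hi hk e; omega)) M
    (fun i hi => by have := hM i; have := a0 i; omega)
    (fun t => ((b j + t + 1 : ℕ) : ℝ) ^ (-s - 1))
    fun t => by positivity).trans (tel2 s0 (by linarith) _ (b0 j) _)
  have k3 : ((b j : ℝ) ^ (-s) - ((b j + M : ℕ) : ℝ) ^ (-s)) / s ≤ (b j : ℝ) ^ (-s) / s := by
    gcongr
    have : 0 ≤ ((b j + M : ℕ) : ℝ) ^ (-s) := by positivity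
    linarith
  have k4 := k2.trans k3
  have p1 := Real.rpow_pos_of_pos aj s
  have p2 := Real.rpow_pos_of_pos bj s
  calc _ ≤ 2 * β * (3 * ((a j : ℝ) ^ (-s) * ((a j : ℝ) ^ s / s)) +
        2 * ((b j : ℝ) ^ s * ((b j : ℝ) ^ (-s) / s))) := by gcongr
    _ = _ := by
      rw [Real.rpow_neg aj.le, Real.rpow_neg bj.le, show 1 - β = 4 * s by linarith]
      field_simp; ring

end

/-- conjugation by a diagonal matrix -/
noncomputable def cj {N : ℕ} (d : Fin N → ℝ) (X : Matrix (Fin N) (Fin N) ℂ) :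
    Matrix (Fin N) (Fin N) ℂ := Matrix.of fun j i => X j i * ((d j / d i : ℝ) : ℂ)

lemma cj_mul {N : ℕ} {d : Fin N → ℝ} (hd : ∀ i, 0 < d i) (X Y : Matrix (Fin N) (Fin N) ℂ) :
    cj d X * cj d Y = cj d (X * Y) := by
  ext j i
  simp only [cj, mul_apply, of_apply, sum_mul]
  refine sum_congr rfl fun k _ => ?_
  have : (d k : ℂ) ≠ 0 := by exact_mod_cast (hd k).ne'
  push_cast; field_simp

/-- the shift by `m` -/
def sh (N m : ℕ) : Matrix (Fin N) (Fin N) ℂ := Matrix.of fun j i => if j.1 = i.1 + m then 1 else 0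

lemma sh_mul {N : ℕ} (X : Matrix (Fin N) (Fin N) ℂ) (j i : Fin N) :
    (sh N 1 * X) j i = if h : 0 < j.1 then X ⟨j.1 - 1, by omega⟩ i else 0 := by
  simp only [sh, mul_apply, of_apply]
  split_ifs with h
  · rw [sum_eq_single ⟨j.1 - 1, by omega⟩]
    · rw [if_pos (by simp only; omega), one_mul]
    · intro k _ hk
      rw [if_neg (fun e => hk (Fin.ext (by simp only; omega))), zero_mul]
    · simp
  · exact sum_eq_zero fun k _ => by rw [if_neg (by omega), zero_mul]

lemma cj_pow {N : ℕ} {d : Fin N → ℝ} (hd : ∀ i, 0 < d i) (m : ℕ) :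
    cj d (sh N 1) ^ m = cj d (sh N m) := by
  induction m with
  | zero =>
    ext j i
    by_cases h : j = i
    · simp [cj, sh, h, (hd i).ne']
    · simp [cj, sh, h, Fin.val_inj]
  | succ m ih =>
    rw [pow_succ', ih, cj_mul hd]
    congr 1
    ext j i
    rw [sh_mul]
    simp only [sh, of_apply]
    split_ifs <;> first | rfl | omega

/-- the resolvent of the shift -/
noncomputable def rz (N : ℕ) (z : ℂ) : Matrix (Fin N) (Fin N) ℂ :=
  Matrix.of fun j i => if i.1 + 1 ≤ j.1 + 1 then 1 / z ^ (j.1 + 1 - (i.1 + 1) + 1) else 0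

lemma rz_mul {N : ℕ} {d : Fin N → ℝ} (hd : ∀ i, 0 < d i) {z : ℂ} (hz : z ≠ 0) :
    (z • 1 - cj d (sh N 1)) * cj d (rz N z) = 1 := by
  rw [sub_mul, cj_mul hd, smul_mul_assoc, one_mul]
  ext j i
  simp only [cj, Matrix.sub_apply, Matrix.smul_apply, of_apply, sh_mul, rz, smul_eq_mul]
  rcases lt_trichotomy j.1 i.1 with h | h | h
  · rw [one_apply_ne (fun e => by simp [e] at h), if_neg (by omega)]
    split_ifs <;> first | omega | simp
  · obtain rfl := Fin.ext h
    split_ifs <;> first | omega | simp [hz, (hd j).ne']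
  · rw [one_apply_ne (fun e => by simp [e] at h), if_pos (by omega), dif_pos (by omega),
      if_pos (by omega), show j.1 + 1 - (i.1 + 1) + 1 = j.1 - 1 + 1 - (i.1 + 1) + 1 + 1 by omega,
      pow_succ]
    field_simp; ring

/-- the weights -/
noncomputable def dd (N : ℕ) (β : ℝ) : Fin N → ℝ :=
  fun i => (((i.1 + 1 : ℕ) : ℝ) / ((N - i.1 : ℕ) : ℝ)) ^ (β / 2)

/-- the weighted shift -/
noncomputable def WS (N : ℕ) (β : ℝ) : EuclideanSpace ℂ (Fin N) →L[ℂ] EuclideanSpace ℂ (Fin N) :=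
  toEuclideanCLM (𝕜 := ℂ) (n := Fin N) (cj (dd N β) (sh N 1))

lemma dd_pos (N : ℕ) (β : ℝ) (i : Fin N) : 0 < dd N β i :=
  Real.rpow_pos_of_pos (div_pos (by positivity) (by exact_mod_cast (by omega))) _

lemma dd_div (N : ℕ) (β : ℝ) (j i : Fin N) : dd N β j / dd N β i =
    (((j.1 + 1 : ℕ) : ℝ) / ((i.1 + 1 : ℕ) : ℝ) * (((N - i.1 : ℕ) : ℝ) / ((N - j.1 : ℕ) : ℝ))) ^ (β / 2) := by
  have : (0 : ℝ) < ((N - i.1 : ℕ) : ℝ) := by exact_mod_cast (by omega)
  have : (0 : ℝ) < ((N - j.1 : ℕ) : ℝ) := by exact_mod_cast (by omega)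
  simp only [dd]
  rw [← Real.div_rpow (by positivity) (by positivity)]
  congr 1; field_simp

lemma WS_res (N : ℕ) (β : ℝ) {z : ℂ} (hz0 : z ≠ 0) : z ∈ resolventSet ℂ (WS N β) ∧
    resolvent (WS N β) z = toEuclideanCLM (𝕜 := ℂ) (n := Fin N) (cj (dd N β) (rz N z)) := by
  let Φ := toEuclideanCLM (𝕜 := ℂ) (n := Fin N)
  have e1 := rz_mul (N := N) (dd_pos N β) hz0
  have e2 := mul_eq_one_comm.mp e1
  have f1 := congrArg Φ e1
  have f2 := congrArg Φ e2
  simp only [map_mul, map_sub, map_smul, map_one] at f1 f2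
  rw [← Algebra.algebraMap_eq_smul_one] at f1 f2
  have hu : IsUnit (algebraMap ℂ _ z - Φ (cj (dd N β) (sh N 1))) := ⟨⟨_, _, f1, f2⟩, rfl⟩
  refine ⟨hu, ?_⟩
  change Ring.inverse (algebraMap ℂ _ z - Φ (cj (dd N β) (sh N 1))) = _
  rw [← one_mul (Ring.inverse _), ← f2, mul_assoc, Ring.mul_inverse_cancel _ hu, mul_one]

lemma WS_pow (N : ℕ) (β : ℝ) : ((N + 1 : ℕ) : ℝ) ^ β ≤ ‖WS (N + 1) β ^ N‖ := by
  let Φ := toEuclideanCLM (𝕜 := ℂ) (n := Fin (N + 1))
  let d := dd (N + 1) β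
  change _ ≤ ‖Φ _ ^ N‖
  rw [← map_pow, cj_pow (dd_pos _ β)]
  have h2 := (Φ (cj d (sh (N + 1) N))).le_opNorm (EuclideanSpace.single 0 1)
  have h3 := PiLp.norm_apply_le (Φ (cj d (sh (N + 1) N)) (EuclideanSpace.single 0 1)) (Fin.last N)
  have h4 : (Φ (cj d (sh (N + 1) N)) (EuclideanSpace.single 0 1)) (Fin.last N) =
      ((d (Fin.last N) / d 0 : ℝ) : ℂ) := by
    simp [Φ, cj, sh]
  rw [h4, dd_div, Complex.norm_real, Real.norm_of_nonneg (by positivity)] at h3
  simp only [Fin.val_last, Fin.val_zero, show N + 1 - N = 1 by omega, zero_add,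
    Nat.cast_one, div_one, Nat.sub_zero] at h3
  rw [← sq, ← Real.rpow_natCast, ← Real.rpow_mul (by positivity)] at h3
  simp only [PiLp.norm_single, norm_one, mul_one] at h2
  rw [show ((2 : ℕ) : ℝ) * (β / 2) = β by push_cast; ring] at h3
  exact h3.trans h2

lemma main1 {β : ℝ} (h0 : 0 < β) (h1 : β < 1) (N : ℕ) {z : ℂ} (hz : 1 < ‖z‖) :
    ‖resolvent (WS N β) z‖ ≤ (1 + 40 * β / (1 - β)) / (‖z‖ - 1) := by
  let a : Fin N → ℕ := fun i => i.1 + 1
  let b : Fin N → ℕ := fun i => N - i.1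
  have ha : Function.Injective a := fun i j e => Fin.ext (by simp only [a] at e; omega)
  have hb : Function.Injective b := fun i j e => Fin.ext (by simp only [b] at e; omega)
  have a0 : ∀ i, 1 ≤ a i := fun i => by simp [a]
  have b0 : ∀ i, 1 ≤ b i := fun i => by simp only [b]; omega
  have hM : ∀ i, a i + b i = N + 1 := fun i => by simp only [a, b]; omega
  have a1 : ∀ i, (0:ℝ) < a i := fun i => by exact_mod_cast a0 i
  have b1 : ∀ i, (0:ℝ) < b i := fun i => by exact_mod_cast b0 i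
  let d := dd N β
  have hdd : ∀ j i, d j / d i = ((a j : ℝ) / a i * (b i / b j)) ^ (β / 2) := dd_div N β
  let Φ := toEuclideanCLM (𝕜 := ℂ) (n := Fin N)
  have hz0 : z ≠ 0 := by rintro rfl; norm_num at hz
  have hρ : 0 < ‖z‖ - 1 := by linarith
  have hn : ∀ j i, ‖((‖z‖ - 1) • rz N z) j i‖ =
      if a i ≤ a j then (‖z‖ - 1) / ‖z‖ ^ (a j - a i + 1) else 0 := fun j i => by
    simp only [Matrix.smul_apply, rz, of_apply, a, norm_smul, Real.norm_of_nonneg hρ.le]
    split_ifs <;> simp [div_eq_mul_inv]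
  have hsw : ∀ j i, (if a i ≤ a j then (‖z‖ - 1) / ‖z‖ ^ (a j - a i + 1) else 0) =
      if b j ≤ b i then (‖z‖ - 1) / ‖z‖ ^ (b i - b j + 1) else 0 := fun j i => by
    have := hM i; have := hM j
    split_ifs <;> first | rfl | omega | rw [show a j - a i = b i - b j by omega]
  have n0 := schur ((‖z‖ - 1) • rz N z) (fun _ _ => 1) (fun _ _ => one_pos) 1 zero_le_one
    (fun j => by simpa only [hn, mul_one] using rs0 ha hz j)
    (fun i => by simpa only [hn, inv_one, mul_one, hsw] using rs0 hb hz i)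
  have hn1 : ∀ j i, ‖(cj d ((‖z‖ - 1) • rz N z) - (‖z‖ - 1) • rz N z) j i‖ =
      (if a i ≤ a j then (‖z‖ - 1) / ‖z‖ ^ (a j - a i + 1) else 0) *
        |((a j : ℝ) / a i * (b i / b j)) ^ (β / 2) - 1| := fun j i => by
    rw [← hn, ← hdd, ← Real.norm_eq_abs, ← Complex.norm_real, ← norm_mul]
    simp [cj, mul_sub]
  have hab : ∀ j i, a i ≤ a j → |((a j : ℝ) / a i * (b i / b j)) ^ (β / 2) - 1| =
      ((a j : ℝ) / a i * (b i / b j)) ^ (β / 2) - 1 := fun j i h => by
    have := hM i; have := hM j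
    refine abs_of_nonneg (sub_nonneg.mpr (Real.one_le_rpow (one_le_mul_of_one_le_of_one_le
      ((one_le_div (a1 i)).mpr (by exact_mod_cast h))
      ((one_le_div (b1 j)).mpr (by exact_mod_cast (by omega)))) (by linarith)))
  have n1 := schur (cj d ((‖z‖ - 1) • rz N z) - (‖z‖ - 1) • rz N z)
    (fun j i => √((a j : ℝ) / a i / (b i / b j)))
    (fun j i => by have := a1 i; have := b1 i; have := a1 j; have := b1 j; positivity)
    (40 * β / (1 - β)) (div_nonneg (by linarith) (by linarith))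
    (fun j => by
      refine le_trans (le_of_eq (sum_congr rfl fun i _ => ?_)) (rs1 ha a0 b0 hM hz h0 h1 j)
      rw [hn1]
      split_ifs with h
      · rw [hab j i h]
      · simp)
    (fun i => by
      refine le_trans (le_of_eq (sum_congr rfl fun j _ => ?_))
        (rs1 hb b0 a0 (fun i => (add_comm _ _).trans (hM i)) hz h0 h1 i)
      rw [hn1, hsw]
      split_ifs with h
      · rw [hab j i (by have := hM i; have := hM j; omega), ← Real.sqrt_inv, inv_div,
          mul_comm ((a j : ℝ) / a i)]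
      · simp)
  have e3 : cj d ((‖z‖ - 1) • rz N z) = ((‖z‖ - 1 : ℝ) : ℂ) • cj d (rz N z) := by
    ext j i; simp [cj, mul_assoc]
  have := norm_add_le (Φ ((‖z‖ - 1) • rz N z))
    (Φ (cj d ((‖z‖ - 1) • rz N z) - (‖z‖ - 1) • rz N z))
  rw [← map_add, add_sub_cancel, e3, map_smul, norm_smul, Complex.norm_real,
    Real.norm_of_nonneg hρ.le, ← e3] at this
  rw [(WS_res N β hz0).2, le_div_iff₀' hρ]
  exact this.trans (add_le_add n0 n1)

lemma pt2 {ρ β : ℝ} (hρ : 1 < ρ) (h1 : 1 < β) (t : ℕ) :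
    (t : ℝ) ^ β / ρ ^ (t + 1) ≤ β ^ β * (1 + 1 / (ρ - 1) ^ β) := by
  have p0 : 0 < ρ - 1 := by linarith
  have p1 := Real.rpow_pos_of_pos p0 β
  have p2 := Real.rpow_pos_of_pos (show 0 < β by linarith) β
  have p3 : 1 ≤ ρ ^ (t + 1) := one_le_pow₀ hρ.le
  rcases le_total (t : ℝ) β with h | h
  · have := Real.rpow_le_rpow t.cast_nonneg h (show 0 ≤ β by linarith)
    refine (div_le_self (by positivity) p3).trans (this.trans ?_)
    exact le_mul_of_one_le_right p2.le (le_add_of_nonneg_right (by positivity))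
  · have b1 := one_add_mul_self_le_rpow_one_add (s := ρ - 1) (by linarith) (p := t / β)
      ((one_le_div (by linarith)).2 h)
    have b2 := Real.rpow_le_rpow (x := t / β * (ρ - 1)) (by positivity)
      (le_trans (le_add_of_nonneg_left zero_le_one) b1) (show 0 ≤ β by linarith)
    rw [add_sub_cancel, ← Real.rpow_mul (by linarith), div_mul_cancel₀ _ (by linarith),
      Real.rpow_natCast, Real.mul_rpow (by positivity) p0.le,
      Real.div_rpow t.cast_nonneg (by linarith), div_mul_eq_mul_div, div_le_iff₀ p2,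
      ← le_div_iff₀ p1] at b2
    have b3 : ρ ^ t ≤ ρ ^ (t + 1) := pow_le_pow_right₀ hρ.le (by omega)
    rw [div_le_iff₀ (by positivity)]
    refine b2.trans ?_
    calc _ = β ^ β * (1 / (ρ - 1) ^ β) * ρ ^ t := by ring
      _ ≤ _ := by gcongr; linarith

lemma rs2 {n : Type*} [Fintype n] {a : n → ℕ} {ρ β : ℝ} (ha : Function.Injective a)
    (a0 : ∀ i, 1 ≤ a i) (hρ : 1 < ρ) (h1 : 1 < β) (j : n) :
    ∑ i, (if a i ≤ a j then 1 / ρ ^ (a j - a i + 1) * ((a j : ℝ) / a i) ^ β else 0) ≤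
      2 ^ β * (1 / (ρ - 1) + β ^ β * (1 + 1 / (ρ - 1) ^ β) * ∑' k : ℕ, 1 / (k : ℝ) ^ β) := by
  have p0 : 0 < ρ - 1 := by linarith
  have hs := Real.summable_one_div_nat_rpow.2 h1
  have key : ∀ i, (if a i ≤ a j then 1 / ρ ^ (a j - a i + 1) * ((a j : ℝ) / a i) ^ β else 0) ≤
      2 ^ β * (1 / (ρ - 1) * (if a i ≤ a j then (ρ - 1) / ρ ^ (a j - a i + 1) else 0) +
        β ^ β * (1 + 1 / (ρ - 1) ^ β) * (1 / (a i : ℝ) ^ β)) := fun i => by
    have ai : (0 : ℝ) < a i := by exact_mod_cast a0 i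
    split_ifs with h
    · obtain ⟨t, ht⟩ := Nat.exists_eq_add_of_le h
      rw [ht, Nat.add_sub_cancel_left]
      have q1 : (((a i + t : ℕ) : ℝ) / a i) ^ β ≤ 2 ^ β * (1 + (t : ℝ) ^ β / (a i : ℝ) ^ β) := by
        rw [← Real.div_rpow t.cast_nonneg ai.le]
        have e : ((a i + t : ℕ) : ℝ) / a i = 1 + t / a i := by push_cast; field_simp
        have x0 : (0 : ℝ) ≤ t / a i := by positivity
        rw [e]
        generalize (t : ℝ) / a i = x at *
        have x1 := Real.rpow_nonneg x0 β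
        rcases le_total x 1 with h | h
        · exact (Real.rpow_le_rpow (by positivity) (by linarith) (by linarith)).trans
            (le_mul_of_one_le_right (by positivity) (by linarith))
        · refine (Real.rpow_le_rpow (y := 2 * x) (by positivity) (by linarith) (by linarith)).trans ?_
          rw [Real.mul_rpow (by norm_num) x0]
          gcongr; linarith
      have q2 := pt2 hρ h1 t
      calc _ ≤ 1 / ρ ^ (t + 1) * (2 ^ β * (1 + (t : ℝ) ^ β / (a i : ℝ) ^ β)) := by gcongr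
        _ = 2 ^ β * (1 / (ρ - 1) * ((ρ - 1) / ρ ^ (t + 1)) +
          (t : ℝ) ^ β / ρ ^ (t + 1) * (1 / (a i : ℝ) ^ β)) := by field_simp
        _ ≤ _ := by gcongr
    · positivity
  refine (sum_le_sum fun i _ => key i).trans ?_
  rw [← mul_sum, sum_add_distrib, ← mul_sum, ← mul_sum]
  have k1 := rs0 ha hρ j
  have k2 : ∑ i, 1 / (a i : ℝ) ^ β ≤ ∑' k : ℕ, 1 / (k : ℝ) ^ β := by
    rw [← sum_image (f := fun k : ℕ => 1 / (k : ℝ) ^ β) ha.injOn]
    exact hs.sum_le_tsum _ fun _ _ => by positivity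
  gcongr
  exact mul_le_of_le_one_right (by positivity) k1

lemma main2 {β : ℝ} (h1 : 1 < β) (N : ℕ) {z : ℂ} (hz : 1 < ‖z‖) :
    ‖resolvent (WS N β) z‖ ≤
      2 ^ β * (1 / (‖z‖ - 1) + β ^ β * (1 + 1 / (‖z‖ - 1) ^ β) * ∑' k : ℕ, 1 / (k : ℝ) ^ β) := by
  let a : Fin N → ℕ := fun i => i.1 + 1
  let b : Fin N → ℕ := fun i => N - i.1
  have ha : Function.Injective a := fun i j e => Fin.ext (by simp only [a] at e; omega)
  have hb : Function.Injective b := fun i j e => Fin.ext (by simp only [b] at e; omega)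
  have a0 : ∀ i, 1 ≤ a i := fun i => by simp [a]
  have b0 : ∀ i, 1 ≤ b i := fun i => by simp only [b]; omega
  have hM : ∀ i, a i + b i = N + 1 := fun i => by simp only [a, b]; omega
  have a1 : ∀ i, (0:ℝ) < a i := fun i => by exact_mod_cast a0 i
  have b1 : ∀ i, (0:ℝ) < b i := fun i => by exact_mod_cast b0 i
  let d := dd N β
  have hdd : ∀ j i, d j / d i = ((a j : ℝ) / a i * (b i / b j)) ^ (β / 2) := dd_div N β
  have hz0 : z ≠ 0 := by rintro rfl; norm_num at hz
  have hρ : 0 < ‖z‖ - 1 := by linarith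
  have hn : ∀ j i, ‖cj d (rz N z) j i‖ = (if a i ≤ a j then 1 / ‖z‖ ^ (a j - a i + 1) else 0) *
      (((a j : ℝ) / a i) ^ (β / 2) * ((b i : ℝ) / b j) ^ (β / 2)) := fun j i => by
    have := a1 i; have := b1 i; have := a1 j; have := b1 j
    rw [← Real.mul_rpow (by positivity) (by positivity), ← hdd]
    simp only [cj, rz, of_apply, a, norm_mul, Complex.norm_real,
      Real.norm_of_nonneg (div_pos (dd_pos N β j) (dd_pos N β i)).le, d]
    split_ifs <;> simp
  have hh : ∀ x : ℝ, 0 < x → x ^ (β / 2) * x ^ (β / 2) = x ^ β := fun x hx => by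
    rw [← Real.rpow_add hx, add_halves]
  rw [(WS_res N β hz0).2]
  refine schur _ (fun j i => ((a j : ℝ) / a i) ^ (β / 2) / ((b i : ℝ) / b j) ^ (β / 2))
    (fun j i => by have := a1 i; have := b1 i; have := a1 j; have := b1 j; positivity) _
    (by positivity) (fun j => ?_) (fun i => ?_)
  · refine le_trans (le_of_eq (sum_congr rfl fun i _ => ?_)) (rs2 ha a0 hz h1 j)
    have := a1 i; have := b1 i; have := a1 j; have := b1 j
    rw [hn, ← hh _ (by positivity)]
    split_ifs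
    · field_simp
    · simp
  · refine le_trans (le_of_eq (sum_congr rfl fun j _ => ?_)) (rs2 hb b0 hz h1 i)
    have := a1 i; have := b1 i; have := a1 j; have := b1 j
    have := hM i; have := hM j
    rw [hn, ← hh ((b i : ℝ) / b j) (by positivity)]
    split_ifs <;> first | omega | (rw [show a j - a i = b i - b j by omega]; field_simp) | simp

end Pool.Agent.Lib.H3Kreiss
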