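import Mathlib

open Filter Topology

namespace Pool.Agent.Lib.helper3.LocVan

variable {K : Type*} [TopologicalSpace K] [CompactSpace K] [T2Space K]
variable {A : Type*} [NormedRing A] [NormedAlgebra ℝ A]

/-- clamp -/
noncomputable def clamp (w : C(K, ℝ)) (η : ℝ) : C(K, ℝ) :=
  ⟨fun s => max (-η) (min η (w s)), by fun_prop⟩

omit [T2Space K] in
theorem norm_clamp (w : C(K, ℝ)) {η : ℝ} (hη : 0 ≤ η) : ‖clamp w η‖ ≤ η := by
  rw [ContinuousMap.norm_le _ hη]
  intro s
  change |max (-η) (min η (w s))| ≤ η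
  rw [abs_le]
  exact ⟨le_max_left _ _, max_le (by linarith) (min_le_left _ _)⟩

omit [CompactSpace K] [T2Space K] in
theorem clamp_mul (w g : C(K, ℝ)) {η : ℝ} (h : ∀ s, g s ≠ 0 → |w s| ≤ η) :
    w * g = clamp w η * g := by
  ext s
  by_cases hs : g s = 0
  · simp [hs]
  · have := abs_le.1 (h s hs)
    change w s * g s = max (-η) (min η (w s)) * g s
    rw [min_eq_right this.2, max_eq_right this.1]

/-- bump adapted to three functions -/
noncomputable def bump (a : Fin 3 → C(K, ℝ)) (s0 : K) (η : ℝ) : C(K, ℝ) :=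
  ⟨fun s => max 0 (η - ∑ i, |a i s - a i s0|), by fun_prop⟩

omit [CompactSpace K] [T2Space K] in
theorem bump_self (a : Fin 3 → C(K, ℝ)) (s0 : K) {η : ℝ} (hη : 0 < η) : bump a s0 η s0 ≠ 0 := by
  change max 0 (η - ∑ i, |a i s0 - a i s0|) ≠ 0
  simp [hη.le, hη.ne']

omit [CompactSpace K] [T2Space K] in
theorem bump_near (a : Fin 3 → C(K, ℝ)) (s0 : K) (η : ℝ) (i : Fin 3) (s : K)
    (h : bump a s0 η s ≠ 0) : |(a i - algebraMap ℝ C(K, ℝ) (a i s0)) s| ≤ η := by
  have h1 : 0 < η - ∑ i, |a i s - a i s0| := by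
    by_contra hn
    exact h (max_eq_left (not_lt.1 hn))
  have h2 : |a i s - a i s0| ≤ ∑ i, |a i s - a i s0| :=
    Finset.single_le_sum (f := fun i => |a i s - a i s0|) (fun _ _ => abs_nonneg _)
      (Finset.mem_univ i)
  have e : (a i - algebraMap ℝ C(K, ℝ) (a i s0)) s = a i s - a i s0 := by simp
  rw [e]
  linarith

omit [T2Space K] in
theorem local_vanish (φ : C(K, ℝ) →ₐ[ℝ] A) (hφ : ∀ f, ‖φ f‖ ≤ ‖f‖) (X : A)
    (a b : Fin 3 → C(K, ℝ)) (hX : ∑ i, φ (a i) * X * φ (b i) = 0) {C : ℝ}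
    (ha : ∀ i, ‖a i‖ ≤ C) (hb : ∀ i, ‖b i‖ ≤ C) (s0 t0 : K) {η : ℝ} (hη : 0 < η)
    (hF : 6 * C * η < |∑ i, a i s0 * b i t0|) :
    φ (bump a s0 η) * X * φ (bump b t0 η) = 0 := by
  set g := bump a s0 η
  set h := bump b t0 η
  set Y := φ g * X * φ h with hY
  have hC : 0 ≤ C := (norm_nonneg _).trans (ha 0)
  have e0 : ∑ i, φ (a i) * Y * φ (b i) = 0 := by
    have : ∀ i, φ (a i) * Y * φ (b i) = φ g * (φ (a i) * X * φ (b i)) * φ h := by
      intro i
      have c1 : φ (a i) * φ g = φ g * φ (a i) := by rw [← map_mul, ← map_mul, mul_comm]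
      have c2 : φ h * φ (b i) = φ (b i) * φ h := by rw [← map_mul, ← map_mul, mul_comm]
      calc _ = (φ (a i) * φ g) * X * (φ h * φ (b i)) := by rw [hY]; noncomm_ring
        _ = _ := by rw [c1, c2]; noncomm_ring
    simp_rw [this]
    rw [← Finset.sum_mul, ← Finset.mul_sum, hX, mul_zero, zero_mul]
  have est : ∀ i, ‖φ (a i) * Y * φ (b i) - (a i s0 * b i t0) • Y‖ ≤ 2 * C * η * ‖Y‖ := by
    intro i
    have l1 : φ (a i - algebraMap ℝ _ (a i s0)) * Y =
        φ (clamp (a i - algebraMap ℝ _ (a i s0)) η) * Y := by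
      rw [hY, ← mul_assoc, ← mul_assoc, ← map_mul, clamp_mul _ g (bump_near a s0 η i), map_mul]
      noncomm_ring
    have l2 : Y * φ (b i - algebraMap ℝ _ (b i t0)) =
        Y * φ (clamp (b i - algebraMap ℝ _ (b i t0)) η) := by
      rw [hY, mul_assoc, ← map_mul, mul_comm h, clamp_mul _ h (bump_near b t0 η i), mul_comm _ h,
        map_mul]
      noncomm_ring
    have e : φ (a i) * Y * φ (b i) - (a i s0 * b i t0) • Y =
        φ (a i - algebraMap ℝ _ (a i s0)) * Y * φ (b i) +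
          (a i s0) • (Y * φ (b i - algebraMap ℝ _ (b i t0))) := by
      rw [map_sub, map_sub, AlgHomClass.commutes, AlgHomClass.commutes,
        Algebra.algebraMap_eq_smul_one, Algebra.algebraMap_eq_smul_one]
      simp only [sub_mul, mul_sub, smul_mul_assoc, mul_smul_comm, one_mul, mul_one, smul_sub,
        smul_smul]
      abel
    have n1 : ‖φ (clamp (a i - algebraMap ℝ _ (a i s0)) η) * Y * φ (b i)‖ ≤ η * ‖Y‖ * C :=
      (norm_mul_le _ _).trans (mul_le_mul ((norm_mul_le _ _).trans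
        (mul_le_mul_of_nonneg_right ((hφ _).trans (norm_clamp _ hη.le)) (norm_nonneg _)))
        ((hφ _).trans (hb i)) (norm_nonneg _) (by positivity))
    have n2 : ‖(a i s0) • (Y * φ (clamp (b i - algebraMap ℝ _ (b i t0)) η))‖ ≤
        C * (‖Y‖ * η) := by
      rw [norm_smul]
      exact mul_le_mul (((a i).norm_coe_le_norm s0).trans (ha i)) ((norm_mul_le _ _).trans
        (mul_le_mul_of_nonneg_left ((hφ _).trans (norm_clamp _ hη.le)) (norm_nonneg _)))
        (norm_nonneg _) hC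
    rw [e, l1, l2]
    refine (norm_add_le _ _).trans ?_
    linarith
  have e1 : -((∑ i, a i s0 * b i t0) • Y) =
      ∑ i, (φ (a i) * Y * φ (b i) - (a i s0 * b i t0) • Y) := by
    rw [Finset.sum_sub_distrib, e0, zero_sub, Finset.sum_smul]
  have n3 : |∑ i, a i s0 * b i t0| * ‖Y‖ ≤ 6 * C * η * ‖Y‖ := by
    have := (norm_sum_le _ _).trans (Finset.sum_le_sum fun i (_ : i ∈ Finset.univ) => est i)
    rw [← e1, norm_neg, norm_smul, Real.norm_eq_abs] at this
    simp only [Finset.sum_const, Finset.card_univ, Fintype.card_fin, nsmul_eq_mul] at this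
    push_cast at this
    linarith
  by_contra hne
  have hp : 0 < ‖Y‖ := norm_pos_iff.2 hne
  nlinarith

theorem ideal_trick (φ : C(K, ℝ) →ₐ[ℝ] A) (hφ : ∀ f, ‖φ f‖ ≤ ‖f‖) (U V : A)
    (hc : (∀ f, Commute (φ f) U) ∨ ∀ f, Commute (φ f) V) (G : C(K, ℝ))
    (h : ∀ s, G s ≠ 0 → ∃ g : C(K, ℝ), g s ≠ 0 ∧ U * φ g * V = 0) : U * φ G * V = 0 := by
  have hφc : Continuous φ := AddMonoidHomClass.continuous_of_bound φ 1 fun f => by
    simpa using hφ f
  let I : Ideal C(K, ℝ) :=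
    { carrier := {f | U * φ f * V = 0}
      add_mem' := fun {f g} hf hg => by
        simp only [Set.mem_ofPred_eq, map_add, mul_add, add_mul] at hf hg ⊢
        rw [hf, hg, add_zero]
      zero_mem' := by simp
      smul_mem' := fun c f hf => by
        simp only [Set.mem_ofPred_eq, smul_eq_mul] at hf ⊢
        rcases hc with hc | hc
        · rw [map_mul, ← mul_assoc, ← (hc c).eq, mul_assoc (φ c), mul_assoc (φ c), hf, mul_zero]
        · rw [mul_comm c, map_mul, ← mul_assoc, mul_assoc _ (φ c), (hc c).eq, ← mul_assoc, hf,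
            zero_mul] }
  have hIc : IsClosed (I : Set C(K, ℝ)) :=
    isClosed_eq ((continuous_const.mul hφc).mul continuous_const) continuous_const
  have hmem : G ∈ I := by
    rw [← ContinuousMap.idealOfSet_ofIdeal_isClosed hIc, ContinuousMap.mem_idealOfSet]
    intro x hx
    by_contra hne
    obtain ⟨g, h1, h2⟩ := h x hne
    exact hx (ContinuousMap.mem_setOfIdeal.2 ⟨g, h2, h1⟩)
  exact hmem

theorem global_vanish (φ : C(K, ℝ) →ₐ[ℝ] A) (hφ : ∀ f, ‖φ f‖ ≤ ‖f‖) (X : A)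
    (a b : Fin 3 → C(K, ℝ)) (hX : ∑ i, φ (a i) * X * φ (b i) = 0) (G Hh : C(K, ℝ))
    (h : ∀ t, Hh t ≠ 0 → ∃ m : ℝ, 0 < m ∧ ∀ s, G s ≠ 0 → m ≤ |∑ i, a i s * b i t|) :
    φ G * X * φ Hh = 0 := by
  set C : ℝ := ∑ i, (‖a i‖ + ‖b i‖) with hC
  have hab : ∀ i, ‖a i‖ + ‖b i‖ ≤ C := fun i =>
    Finset.single_le_sum (f := fun i => ‖a i‖ + ‖b i‖) (fun _ _ => by positivity)
      (Finset.mem_univ i)
  have ha : ∀ i, ‖a i‖ ≤ C := fun i => by linarith [hab i, norm_nonneg (b i)]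
  have hb : ∀ i, ‖b i‖ ≤ C := fun i => by linarith [hab i, norm_nonneg (a i)]
  have hC0 : 0 ≤ C := (norm_nonneg _).trans (ha 0)
  have := ideal_trick φ hφ (φ G * X) 1 (Or.inr fun f => Commute.one_right _) Hh fun t ht => by
    obtain ⟨m, hm, hms⟩ := h t ht
    have hη : 0 < m / (6 * C + 1) := by positivity
    refine ⟨bump b t (m / (6 * C + 1)), bump_self b t hη, ?_⟩
    have h2 := ideal_trick φ hφ 1 (X * φ (bump b t (m / (6 * C + 1))))
      (Or.inl fun f => Commute.one_right _) G fun s hs => by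
        refine ⟨bump a s (m / (6 * C + 1)), bump_self a s hη, ?_⟩
        rw [one_mul, ← mul_assoc]
        refine local_vanish φ hφ X a b hX ha hb s t hη (lt_of_lt_of_le ?_ (hms s hs))
        rw [← mul_div_assoc, div_lt_iff₀ (by positivity)]
        nlinarith
    rw [one_mul, ← mul_assoc] at h2
    rw [mul_one, h2]
  rwa [mul_one] at this

end Pool.Agent.Lib.helper3.LocVan
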