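import Pool.Agent.Lib.helper3.LocVan
import Pool.Agent.Lib.helper3.AdComm

open Filter Topology

namespace Pool.Agent.Lib.helper3.MeanAl

theorem F_mono {l t s1 s2 : ℝ} (h0 : 0 ≤ l) (h1 : l < 1) (ht : 0 < t) (hs : 0 ≤ s1)
    (h : s1 < s2) :
    s1 ^ l * t ^ (1 - l) + s1 ^ (1 - l) * t ^ l < s2 ^ l * t ^ (1 - l) + s2 ^ (1 - l) * t ^ l := by
  have a1 : s1 ^ l ≤ s2 ^ l := Real.rpow_le_rpow hs h.le h0
  have a2 : s1 ^ (1 - l) < s2 ^ (1 - l) := Real.rpow_lt_rpow hs h (by linarith)
  have b1 : 0 < t ^ (1 - l) := Real.rpow_pos_of_pos ht _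
  have b2 : 0 < t ^ l := Real.rpow_pos_of_pos ht _
  nlinarith [mul_le_mul_of_nonneg_right a1 b1.le, mul_lt_mul_of_pos_right a2 b2]

theorem F_diag {l t : ℝ} (ht : 0 < t) : t ^ l * t ^ (1 - l) + t ^ (1 - l) * t ^ l = 2 * t := by
  rw [← Real.rpow_add ht, ← Real.rpow_add ht, add_sub_cancel, sub_add_cancel, Real.rpow_one]
  ring

variable {A : Type*} [CStarAlgebra A] [PartialOrder A] [StarOrderedRing A]

theorem commute_of_fixed {P V : A} (hP0 : 0 ≤ P) {l : ℝ} (h0 : 0 ≤ l) (h1 : l < 1)
    (h : CFC.rpow P l * V * CFC.rpow P (1 - l) + CFC.rpow P (1 - l) * V * CFC.rpow P l =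
      (2 : ℝ) • (V * P)) : P * (V * P) = (V * P) * P := by
  have hP : IsSelfAdjoint P := IsSelfAdjoint.of_nonneg hP0
  let φ : C(spectrum ℝ P, ℝ) →ₐ[ℝ] A := (cfcHom hP).toAlgHom
  have hφ : ∀ f, ‖φ f‖ ≤ ‖f‖ := fun f => (norm_cfcHom P f hP).le
  let x : C(spectrum ℝ P, ℝ) := (ContinuousMap.id ℝ).restrict (spectrum ℝ P)
  have hx : φ x = P := cfcHom_id hP
  have hx0 : ∀ s, 0 ≤ x s := fun s => spectrum_nonneg_of_nonneg hP0 s.2
  have hpw : ∀ r : ℝ, 0 ≤ r → ∃ f : C(spectrum ℝ P, ℝ), φ f = CFC.rpow P r ∧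
      ∀ s, f s = x s ^ r := by
    intro r hr
    have hc : ContinuousOn (fun y : ℝ => y ^ r) (spectrum ℝ P) :=
      (Real.continuous_rpow_const hr).continuousOn
    refine ⟨⟨_, hc.domRestrict⟩, ?_, fun s => rfl⟩
    change _ = P ^ r
    rw [CFC.rpow_eq_cfc_real hP0, cfc_apply (fun y : ℝ => y ^ r) P hP hc]
    rfl
  obtain ⟨f1, e1, p1⟩ := hpw l h0
  obtain ⟨f2, e2, p2⟩ := hpw (1 - l) (by linarith)
  let a : Fin 3 → C(spectrum ℝ P, ℝ) := ![f1, f2, algebraMap ℝ _ (-2)]
  let b : Fin 3 → C(spectrum ℝ P, ℝ) := ![f2, f1, x]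
  have hX : ∑ i, φ (a i) * V * φ (b i) = 0 := by
    rw [Fin.sum_univ_three]
    change φ f1 * V * φ f2 + φ f2 * V * φ f1 + φ (algebraMap ℝ _ (-2)) * V * φ x = 0
    rw [e1, e2, h, hx, AlgHomClass.commutes, Algebra.algebraMap_eq_smul_one, smul_mul_assoc,
      smul_mul_assoc, one_mul, ← add_smul]
    simp
  have hF : ∀ s t, ∑ i, a i s * b i t =
      x s ^ l * x t ^ (1 - l) + x s ^ (1 - l) * x t ^ l - 2 * x t := by
    intro s t
    rw [Fin.sum_univ_three]
    change f1 s * f2 t + f2 s * f1 t + (-2) * x t = _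
    rw [p1, p2, p1, p2]
    ring
  have key := AdComm.commute_of_abs φ hφ x (by rw [hx]; exact hP) (V * P) fun c => by
    let u : C(spectrum ℝ P, ℝ) := ⟨fun s => max (x s - c) 0, by fun_prop⟩
    let v : C(spectrum ℝ P, ℝ) := ⟨fun s => max (c - x s) 0, by fun_prop⟩
    have hu : ∀ s, u s ≠ 0 → c < x s := fun s hs => by
      by_contra hn
      exact hs (max_eq_right (by linarith [not_lt.1 hn]))
    have hv : ∀ s, v s ≠ 0 → x s < c := fun s hs => by
      by_contra hn
      exact hs (max_eq_right (by linarith [not_lt.1 hn]))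
    have z1 := LocVan.global_vanish φ hφ V a b hX u (x * v) fun t ht => by
      have ht' : x t * v t ≠ 0 := ht
      have t0 : 0 < x t := lt_of_le_of_ne (hx0 t) (Ne.symm (left_ne_zero_of_mul ht'))
      have t1 := hv t (right_ne_zero_of_mul ht')
      have m1 := F_mono h0 h1 t0 t0.le t1
      rw [F_diag t0] at m1
      refine ⟨_, sub_pos.2 m1, fun s hs => ?_⟩
      rw [hF]
      have m2 := F_mono h0 h1 t0 (t0.trans t1).le (hu s hs)
      exact le_trans (by linarith) (le_abs_self _)
    have z2 := LocVan.global_vanish φ hφ V a b hX v (x * u) fun t ht => by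
      have ht' : x t * u t ≠ 0 := ht
      have t0 : 0 < x t := lt_of_le_of_ne (hx0 t) (Ne.symm (left_ne_zero_of_mul ht'))
      have t1 := hu t (right_ne_zero_of_mul ht')
      have m1 := F_mono h0 h1 t0 (le_max_right c 0) (max_lt t1 t0)
      rw [F_diag t0] at m1
      refine ⟨_, sub_pos.2 m1, fun s hs => ?_⟩
      rw [hF]
      have m2 := F_mono h0 h1 t0 (hx0 s) ((hv s hs).trans_le (le_max_left c 0))
      exact le_trans (by linarith) (neg_le_abs _)
    have q1 : AdComm.absSub x c = u + v := by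
      ext s
      change |x s - c| = max (x s - c) 0 + max (c - x s) 0
      rcases le_total (x s) c with hc | hc
      · rw [abs_of_nonpos (by linarith), max_eq_right (by linarith), max_eq_left (by linarith)]
        ring
      · rw [abs_of_nonneg (by linarith), max_eq_left (by linarith), max_eq_right (by linarith)]
        ring
    have q2 : x = algebraMap ℝ _ c + u - v := by
      ext s
      change x s = c + max (x s - c) 0 - max (c - x s) 0
      rcases le_total (x s) c with hc | hc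
      · rw [max_eq_right (by linarith), max_eq_left (by linarith)]
        ring
      · rw [max_eq_left (by linarith), max_eq_right (by linarith)]
        ring
    have q3 : φ x = c • (1 : A) + φ u - φ v := by
      conv_lhs => rw [q2]
      rw [map_sub, map_add, AlgHomClass.commutes, Algebra.algebraMap_eq_smul_one]
    rw [map_mul, hx, ← mul_assoc, mul_assoc (φ u)] at z1
    rw [map_mul, hx, ← mul_assoc, mul_assoc (φ v)] at z2
    rw [q1, map_add, q3]
    generalize V * P = T at z1 z2 ⊢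
    generalize φ u = U at z1 z2 ⊢
    generalize φ v = W at z1 z2 ⊢
    simp only [mul_sub, sub_mul, mul_add, add_mul, mul_smul_comm, smul_mul_assoc, mul_one,
      one_mul, z1, z2, smul_sub, smul_add]
    abel
  rwa [hx] at key

theorem rpow_mul_rpow {P : A} (hP0 : 0 ≤ P) {l : ℝ} (h0 : 0 ≤ l) (h1 : l ≤ 1) :
    CFC.rpow P l * CFC.rpow P (1 - l) = P := by
  change P ^ l * P ^ (1 - l) = P
  rw [CFC.rpow_eq_cfc_real hP0, CFC.rpow_eq_cfc_real hP0, ← cfc_mul _ _ P
    (Real.continuous_rpow_const h0).continuousOn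
    (Real.continuous_rpow_const (by linarith)).continuousOn]
  conv_rhs => rw [← cfc_id' ℝ P (IsSelfAdjoint.of_nonneg hP0)]
  apply cfc_congr
  intro s hs
  change s ^ l * s ^ (1 - l) = s
  rw [← Real.rpow_add' (spectrum_nonneg_of_nonneg hP0 hs) (by simp), add_sub_cancel, Real.rpow_one]

variable {H : Type*} [NormedAddCommGroup H] [InnerProductSpace ℂ H] [CompleteSpace H]

/-- `T = V |T|` is the canonical polar decomposition: `V` is a partial isometry with the same
kernel as `T`. -/
def IsPolar (T V : H →L[ℂ] H) : Prop :=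
  V * star V * V = V ∧ V.ker = T.ker ∧ T = V * CFC.abs T

/-- the `μ`-Aluthge transform `|T|^μ V |T|^(1-μ)` -/
noncomputable def aluthge (μ : ℝ) (T V : H →L[ℂ] H) : H →L[ℂ] H :=
  CFC.rpow (CFC.abs T) μ * V * CFC.rpow (CFC.abs T) (1 - μ)

/-- the mean `λ`-Aluthge transform -/
noncomputable def meanAluthge (l : ℝ) (T V : H →L[ℂ] H) : H →L[ℂ] H :=
  (1 / 2 : ℂ) • (aluthge l T V + aluthge (1 - l) T V)

theorem fixed_iff {T V : H →L[ℂ] H} (hV : IsPolar T V) {l : ℝ} (h0 : 0 ≤ l) (h1 : l < 1) :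
    meanAluthge l T V = T ↔ Commute T (star T * T) := by
  obtain ⟨-, hk, hT⟩ := hV
  have hP0 : 0 ≤ CFC.abs T := CFC.abs_nonneg T
  have hsq := CFC.abs_mul_abs T
  constructor
  · intro h
    have h2 : CFC.rpow (CFC.abs T) l * V * CFC.rpow (CFC.abs T) (1 - l) +
        CFC.rpow (CFC.abs T) (1 - l) * V * CFC.rpow (CFC.abs T) l = (2 : ℝ) • (V * CFC.abs T) := by
      rw [← hT]
      conv_rhs => rw [← h]
      rw [meanAluthge, aluthge, aluthge, sub_sub_cancel, ← Complex.coe_smul, smul_smul]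
      norm_num
    have h3 := commute_of_fixed hP0 h0 h1 h2
    rw [← hT] at h3
    have h4 : Commute T (CFC.abs T) := h3.symm
    rw [← hsq]
    exact h4.mul_right h4
  · intro h
    have h4 : Commute (CFC.abs T) T := Commute.cfcₙ_nnreal h.symm _
    have hsa : IsSelfAdjoint (CFC.abs T) := IsSelfAdjoint.of_nonneg hP0
    generalize hP : CFC.abs T = P at *
    have hD : (V * P - P * V) * P = 0 := by
      rw [sub_mul, mul_assoc P, ← hT, h4.eq, sub_self]
    have hVP : Commute P V := by
      rw [Commute, SemiconjBy, eq_comm, ← sub_eq_zero]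
      ext z
      obtain ⟨y, hy, w, hw, rfl⟩ := Submodule.exists_add_mem_mem_orthogonal (K := P.ker) z
      have hy0 : P y = 0 := hy
      have hVy : V y = 0 := by
        have : y ∈ T.ker := by
          change T y = 0
          rw [hT]
          change V (P y) = 0
          rw [hy0, map_zero]
        rw [← hk] at this
        exact this
      have e1 : (V * P - P * V) y = 0 := by
        change V (P y) - P (V y) = 0
        rw [hy0, hVy, map_zero, map_zero, sub_zero]
      have e2 : (V * P - P * V) w = 0 := by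
        rw [P.orthogonal_ker, ← ContinuousLinearMap.star_eq_adjoint, hsa.star_eq] at hw
        have hle : P.range.topologicalClosure ≤ (V * P - P * V).ker := by
          apply Submodule.topologicalClosure_minimal _ _ (V * P - P * V).isClosed_ker
          rintro _ ⟨q, rfl⟩
          exact congrArg (fun L : H →L[ℂ] H => L q) hD
        exact hle hw
      rw [map_add, e1, e2, add_zero]
      rfl
    have c1 : ∀ r : ℝ, CFC.rpow P r * V = V * CFC.rpow P r := fun r =>
      (Commute.cfc_nnreal hVP _).eq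
    rw [meanAluthge, aluthge, aluthge, hP, c1, c1, mul_assoc, mul_assoc,
      rpow_mul_rpow hP0 h0 h1.le, rpow_mul_rpow hP0 (by linarith) (by linarith), ← hT,
      ← two_smul ℂ, smul_smul]
    norm_num

end Pool.Agent.Lib.helper3.MeanAl
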