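import Mathlib

namespace Pool.Agent.Lib.helper3.NoAP

open Finset

/-- The sign attached to a Boolean. -/
def sg (b : Bool) : ℝ := if b then -1 else 1

lemma abs_sg (b : Bool) : |sg b| = 1 := by cases b <;> simp [sg]

lemma sg_mul_self (b : Bool) : sg b * sg b = 1 := by cases b <;> simp [sg]

lemma sum_exp_le {I : Type} [Fintype I] [DecidableEq I] (a : I → ℝ) (ha : ∀ i, |a i| ≤ 1) (l : ℝ) :
    ∑ ε : I → Bool, Real.exp (l * ∑ i, sg (ε i) * a i) ≤
      2 ^ Fintype.card I * Real.exp (l ^ 2 * Fintype.card I / 2) := by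
  have h1 : ∀ ε : I → Bool, Real.exp (l * ∑ i, sg (ε i) * a i) =
      ∏ i, Real.exp (l * (sg (ε i) * a i)) := by
    intro ε
    rw [Finset.mul_sum, Real.exp_sum]
  simp_rw [h1]
  rw [← Fintype.prod_sum (fun (i : I) (b : Bool) => Real.exp (l * (sg b * a i)))]
  have h2 : ∀ i, ∑ b : Bool, Real.exp (l * (sg b * a i)) ≤ 2 * Real.exp (l ^ 2 / 2) := by
    intro i
    have h3 := Real.cosh_le_exp_half_sq (l * a i)
    rw [Real.cosh_eq] at h3
    have h4 : Real.exp ((l * a i) ^ 2 / 2) ≤ Real.exp (l ^ 2 / 2) := by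
      apply Real.exp_le_exp.2
      have h5 : (a i) ^ 2 ≤ 1 := by
        have := ha i
        rw [← sq_abs]
        nlinarith [abs_nonneg (a i)]
      rw [mul_pow]
      nlinarith [sq_nonneg l]
    simp only [Fintype.sum_bool, sg, if_true, Bool.false_eq_true, if_false, one_mul, neg_mul,
      mul_neg]
    linarith
  calc ∏ i, ∑ b : Bool, Real.exp (l * (sg b * a i)) ≤ ∏ _i : I, 2 * Real.exp (l ^ 2 / 2) := by
        apply Finset.prod_le_prod
        · intro i _
          exact Finset.sum_nonneg fun b _ => (Real.exp_pos _).le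
        · intro i _
          exact h2 i
    _ = 2 ^ Fintype.card I * Real.exp (l ^ 2 * Fintype.card I / 2) := by
        rw [Finset.prod_const, Finset.card_univ, mul_pow, ← Real.exp_nat_mul]
        congr 2
        ring

lemma disc {I C : Type} [Fintype I] [DecidableEq I] [Fintype C] (a : C → I → ℝ)
    (ha : ∀ c i, |a c i| ≤ 1) (l : ℝ) :
    ∃ ε : I → Bool, ∀ c, Real.exp (l * |∑ i, sg (ε i) * a c i|) ≤
      2 * Fintype.card C * Real.exp (l ^ 2 * Fintype.card I / 2) := by
  set B : ℝ := Real.exp (l ^ 2 * Fintype.card I / 2) with hB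
  let F : (I → Bool) → ℝ := fun ε => ∑ c, (Real.exp (l * ∑ i, sg (ε i) * a c i) +
    Real.exp ((-l) * ∑ i, sg (ε i) * a c i))
  have hsum : ∑ ε : I → Bool, F ε ≤ ∑ _ε : I → Bool, 2 * Fintype.card C * B := by
    simp only [F]
    rw [Finset.sum_comm]
    have h1 : ∀ c, ∑ ε : I → Bool, (Real.exp (l * ∑ i, sg (ε i) * a c i) +
        Real.exp ((-l) * ∑ i, sg (ε i) * a c i)) ≤ 2 * (2 ^ Fintype.card I * B) := by
      intro c
      rw [Finset.sum_add_distrib]
      have h2 := sum_exp_le (a c) (ha c) l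
      have h3 := sum_exp_le (a c) (ha c) (-l)
      rw [neg_sq] at h3
      linarith
    calc _ ≤ ∑ _c : C, 2 * (2 ^ Fintype.card I * B) := Finset.sum_le_sum fun c _ => h1 c
      _ = _ := by
        simp only [Finset.sum_const, Finset.card_univ, nsmul_eq_mul, Fintype.card_fun,
          Fintype.card_bool]
        push_cast
        ring
  obtain ⟨ε, -, hε⟩ := Finset.exists_le_of_sum_le Finset.univ_nonempty hsum
  refine ⟨ε, fun c => le_trans ?_ hε⟩
  have h4 : Real.exp (l * ∑ i, sg (ε i) * a c i) + Real.exp ((-l) * ∑ i, sg (ε i) * a c i) ≤ F ε :=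
    Finset.single_le_sum (f := fun c => Real.exp (l * ∑ i, sg (ε i) * a c i) +
      Real.exp ((-l) * ∑ i, sg (ε i) * a c i))
      (fun c _ => add_nonneg (Real.exp_pos _).le (Real.exp_pos _).le) (Finset.mem_univ c)
  refine le_trans ?_ h4
  rcases abs_cases (∑ i, sg (ε i) * a c i) with ⟨h, -⟩ | ⟨h, -⟩
  · rw [h]
    linarith [Real.exp_pos ((-l) * ∑ i, sg (ε i) * a c i)]
  · rw [h, mul_neg, ← neg_mul]
    linarith [Real.exp_pos (l * ∑ i, sg (ε i) * a c i)]

/-- Binary strings of length `k`. -/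
def I : ℕ → Type
  | 0 => Unit
  | k + 1 => I k × Bool

instance instFintypeI : ∀ k, Fintype (I k)
  | 0 => inferInstanceAs (Fintype Unit)
  | k + 1 => @instFintypeProd (I k) Bool (instFintypeI k) inferInstance

noncomputable instance instDecEqI (k : ℕ) : DecidableEq (I k) := Classical.decEq _

lemma card_I : ∀ k, Fintype.card (I k) = 2 ^ k
  | 0 => rfl
  | k + 1 => by
    have h : Fintype.card (I (k + 1)) = Fintype.card (I k × Bool) := rfl
    rw [h, Fintype.card_prod, card_I k, Fintype.card_bool, pow_succ]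

lemma sum_I_succ {k : ℕ} (f : I (k + 1) → ℝ) :
    ∑ j, f j = ∑ i : I k, ∑ a : Bool, f (i, a) :=
  Fintype.sum_prod_type (α₁ := I k) (α₂ := Bool) f

/-- Walsh matrix. -/
def w : ∀ k, I k → I k → ℝ
  | 0, _, _ => 1
  | k + 1, i, x => w k i.1 x.1 * sg (i.2 && x.2)

lemma abs_w : ∀ k (i x : I k), |w k i x| = 1
  | 0, _, _ => by simp [w]
  | k + 1, i, x => by
    have h : w (k + 1) i x = w k i.1 x.1 * sg (i.2 && x.2) := rfl
    rw [h, abs_mul, abs_w k, abs_sg, one_mul]

lemma w_orth : ∀ k (i i' : I k), ∑ x, w k i x * w k i' x = if i = i' then 2 ^ k else 0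
  | 0, i, i' => by
    have h : i = i' := rfl
    have h2 : ∀ x : I 0, w 0 i x * w 0 i' x = 1 := fun x => by simp [w]
    rw [if_pos h]
    simp only [h2, Finset.sum_const, Finset.card_univ, card_I, nsmul_eq_mul]
    simp
  | k + 1, i, i' => by
    rw [sum_I_succ]
    have h : ∀ (x : I k) (a : Bool), w (k + 1) i (x, a) * w (k + 1) i' (x, a) =
        (w k i.1 x * w k i'.1 x) * (sg (i.2 && a) * sg (i'.2 && a)) := by
      intro x a
      have h1 : w (k + 1) i (x, a) = w k i.1 x * sg (i.2 && a) := rfl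
      have h2 : w (k + 1) i' (x, a) = w k i'.1 x * sg (i'.2 && a) := rfl
      rw [h1, h2]
      ring
    simp_rw [h, ← Finset.mul_sum]
    rw [← Finset.sum_mul, w_orth k]
    have he : i = i' ↔ i.1 = i'.1 ∧ i.2 = i'.2 := Prod.ext_iff
    by_cases h1 : i.1 = i'.1
    · by_cases h2 : i.2 = i'.2
      · rw [if_pos h1, if_pos (he.2 ⟨h1, h2⟩), h2]
        simp only [sg_mul_self]
        simp [pow_succ]
      · rw [if_neg (fun h3 : i = i' => h2 (he.1 h3).2)]
        have h4 : ∀ u v : Bool, u ≠ v → ∑ a : Bool, sg (u && a) * sg (v && a) = 0 := by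
          intro u v huv
          cases u <;> cases v <;> simp_all [sg]
        rw [h4 _ _ h2, mul_zero]
    · rw [if_neg h1, if_neg (fun h3 : i = i' => h1 (he.1 h3).1), zero_mul]

lemma disc_I (k m : ℕ) {C : Type} [Fintype C] (hC : Fintype.card C ≤ 2 ^ m) (a : C → I k → ℝ)
    (ha : ∀ c i, |a c i| ≤ 1) :
    ∃ ε : I k → Bool, ∀ c, |∑ i, sg (ε i) * a c i| / 2 ^ k ≤ (m + 2) / √2 ^ k := by
  have hr : (0 : ℝ) < √2 ^ k := by positivity
  have hr2 : (√2 : ℝ) ^ k * √2 ^ k = 2 ^ k := by
    rw [← mul_pow, Real.mul_self_sqrt (by norm_num)]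
  obtain ⟨ε, hε⟩ := disc a ha (1 / √2 ^ k)
  refine ⟨ε, fun c => ?_⟩
  have h1 := hε c
  have h2 : (1 / √2 ^ k : ℝ) ^ 2 * (Fintype.card (I k) : ℝ) / 2 = 1 / 2 := by
    rw [card_I]
    push_cast
    rw [← hr2]
    field_simp
  rw [h2] at h1
  have he : (2 : ℝ) ≤ Real.exp 1 := by
    have := Real.add_one_le_exp (1 : ℝ)
    linarith
  have h3 : (2 : ℝ) * Fintype.card C * Real.exp (1 / 2) ≤ Real.exp (m + 2) := by
    have h4 : (Fintype.card C : ℝ) ≤ Real.exp m := by
      have h5 : (Fintype.card C : ℝ) ≤ 2 ^ m := by exact_mod_cast hC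
      have h6 : (2 : ℝ) ^ m ≤ Real.exp 1 ^ m := pow_le_pow_left₀ (by norm_num) he m
      rw [← Real.exp_nat_mul, mul_one] at h6
      linarith
    have h7 : Real.exp (1 / 2) ≤ Real.exp 1 := Real.exp_le_exp.2 (by norm_num)
    have h8 : Real.exp (m + 2) = Real.exp 1 * Real.exp m * Real.exp 1 := by
      rw [← Real.exp_add, ← Real.exp_add]
      congr 1
      ring
    rw [h8]
    gcongr
  have h9 := Real.exp_le_exp.1 (h1.trans h3)
  rw [← hr2, div_le_div_iff₀ (by positivity) hr]
  rw [one_div, inv_mul_le_iff₀ hr] at h9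
  nlinarith

/-- The error bound at level `k`. -/
noncomputable def gam (k : ℕ) : ℝ := (4 * k + 10) / √2 ^ k

lemma bracket (b c y y' z z' : Bool) :
    (∑ a : Bool, (sg (a && y) * sg (b && z)) * (sg (a && y') * sg (b && z'))) / 2 -
      (sg (c && y) * sg (!b && z)) * (sg (c && y') * sg (!b && z')) =
    if y = y' then (if z = z' then 0 else 2 * sg b) else (if z = z' then -sg c else sg c * sg b) := by
  cases b <;> cases c <;> cases y <;> cases y' <;> cases z <;> cases z' <;>
    simp [sg] <;> norm_num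

theorem exists_sys : ∃ (s : ∀ k, I k → I (k + 2) → ℝ) (t : ∀ k, I (k + 1) → I (k + 2) → ℝ),
    (∀ k i g, |s k i g| ≤ 1) ∧ (∀ k j g, |t k j g| ≤ 1) ∧
    (∀ k i i', ∑ g, s k i g * s k i' g = if i = i' then 2 ^ (k + 2) else 0) ∧
    (∀ k j j', ∑ g, t k j g * t k j' g = if j = j' then 2 ^ (k + 2) else 0) ∧
    (∀ k i j, ∑ g, s k i g * t k j g = 0) ∧
    (∀ k g h, |(∑ j, t k j g * t k j h) / 2 ^ (k + 1) - (∑ i, s k i g * s k i h) / 2 ^ k| ≤ gam k) ∧
    (∀ k g h, |(∑ j, t k j g * s (k + 1) j h) / 2 ^ (k + 1)| ≤ gam k) := by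
  have hb : ∀ k, ∃ b : I k → Bool, ∀ p : I k × I k,
      |∑ i, sg (b i) * (w k i p.1 * w k i p.2)| / 2 ^ k ≤ (((2 * k : ℕ) : ℝ) + 2) / √2 ^ k := by
    intro k
    refine disc_I k (2 * k) ?_ (fun (p : I k × I k) i => w k i p.1 * w k i p.2) ?_
    · rw [Fintype.card_prod, card_I, ← pow_add, two_mul]
    · intro p i
      rw [abs_mul, abs_w, abs_w, one_mul]
  choose b hb using hb
  have hc : ∀ k, ∃ c : I k → Bool, ∀ p : (I k × I k) × Bool,
      |∑ i, sg (c i) * (w k i p.1.1 * w k i p.1.2 * sg (b k i && p.2))| / 2 ^ k ≤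
        (((2 * k + 1 : ℕ) : ℝ) + 2) / √2 ^ k := by
    intro k
    refine disc_I k (2 * k + 1) ?_
      (fun (p : (I k × I k) × Bool) i => w k i p.1.1 * w k i p.1.2 * sg (b k i && p.2)) ?_
    · rw [Fintype.card_prod, Fintype.card_prod, card_I, Fintype.card_bool, ← pow_add, pow_succ,
        two_mul]
    · intro p i
      rw [abs_mul, abs_mul, abs_w, abs_w, abs_sg, one_mul, one_mul]
  choose c hc using hc
  let si : ∀ k, I k → I (k + 2) := fun k i => ((i, c k i), !(b k i))
  let ti : ∀ k, I (k + 1) → I (k + 2) := fun k j => (j, b k j.1)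
  have he : ∀ k, ∃ e : I (k + 1) → Bool, ∀ p : I (k + 2) × I (k + 3),
      |∑ j, sg (e j) * (w (k + 2) (ti k j) p.1 * w (k + 3) (si (k + 1) j) p.2)| / 2 ^ (k + 1) ≤
        (((2 * k + 5 : ℕ) : ℝ) + 2) / √2 ^ (k + 1) := by
    intro k
    refine disc_I (k + 1) (2 * k + 5) ?_
      (fun (p : I (k + 2) × I (k + 3)) j =>
        w (k + 2) (ti k j) p.1 * w (k + 3) (si (k + 1) j) p.2) ?_
    · rw [Fintype.card_prod, card_I, card_I, ← pow_add]
      apply le_of_eq
      congr 1
      ring
    · intro p i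
      rw [abs_mul, abs_w, abs_w, one_mul]
  choose e he using he
  let e' : ∀ k, I k → Bool := fun k => Nat.casesOn (motive := fun k => I k → Bool) k
    (fun _ => false) e
  have hsi : ∀ k (i i' : I k), si k i = si k i' ↔ i = i' := by
    intro k i i'
    refine ⟨fun h => ?_, fun h => h ▸ rfl⟩
    exact congrArg (fun p : I (k + 2) => p.1.1) h
  have hti : ∀ k (j j' : I (k + 1)), ti k j = ti k j' ↔ j = j' := by
    intro k j j'
    refine ⟨fun h => ?_, fun h => h ▸ rfl⟩
    exact congrArg (fun p : I (k + 2) => p.1) h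
  have hst : ∀ k (i : I k) (j : I (k + 1)), si k i ≠ ti k j := by
    intro k i j h
    have h1 : i = j.1 := congrArg (fun p : I (k + 2) => p.1.1) h
    have h2 : (!(b k i)) = b k j.1 := congrArg (fun p : I (k + 2) => p.2) h
    rw [← h1] at h2
    cases hh : b k i <;> simp [hh] at h2
  have hr : ∀ k, (0 : ℝ) < √2 ^ k := fun k => by positivity
  refine ⟨fun k i g => sg (e' k i) * w (k + 2) (si k i) g, fun k j g => w (k + 2) (ti k j) g,
    ?_, ?_, ?_, ?_, ?_, ?_, ?_⟩
  · intro k i g
    rw [abs_mul, abs_sg, abs_w, one_mul]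
  · intro k j g
    rw [abs_w]
  · intro k i i'
    have h1 : ∀ g, sg (e' k i) * w (k + 2) (si k i) g * (sg (e' k i') * w (k + 2) (si k i') g) =
        (sg (e' k i) * sg (e' k i')) * (w (k + 2) (si k i) g * w (k + 2) (si k i') g) := by
      intro g
      ring
    simp_rw [h1]
    rw [← Finset.mul_sum, w_orth]
    by_cases h : i = i'
    · subst h
      simp [sg_mul_self]
    · rw [if_neg h, if_neg (fun h3 => h ((hsi k i i').1 h3)), mul_zero]
  · intro k j j'
    rw [w_orth]
    by_cases h : j = j'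
    · subst h
      simp
    · rw [if_neg h, if_neg (fun h3 => h ((hti k j j').1 h3))]
  · intro k i j
    simp_rw [mul_assoc]
    rw [← Finset.mul_sum, w_orth, if_neg (hst k i j), mul_zero]
  · intro k g h
    obtain ⟨⟨x, y⟩, z⟩ := g
    obtain ⟨⟨x', y'⟩, z'⟩ := h
    have h1 : (∑ j, w (k + 2) (ti k j) ((x, y), z) * w (k + 2) (ti k j) ((x', y'), z')) / 2 ^ (k + 1) -
        (∑ i, sg (e' k i) * w (k + 2) (si k i) ((x, y), z) *
          (sg (e' k i) * w (k + 2) (si k i) ((x', y'), z'))) / 2 ^ k =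
        (∑ i, (w k i x * w k i x') * (if y = y' then (if z = z' then 0 else 2 * sg (b k i))
          else (if z = z' then -sg (c k i) else sg (c k i) * sg (b k i)))) / 2 ^ k := by
      rw [sum_I_succ, pow_succ, mul_comm ((2 : ℝ) ^ k) 2, ← div_div, ← sub_div, Finset.sum_div,
        ← Finset.sum_sub_distrib]
      congr 1
      refine Finset.sum_congr rfl fun i _ => ?_
      rw [← bracket]
      have h2 : ∀ (a : Bool) (u : I k) (v v' : Bool), w (k + 2) (ti k (i, a)) ((u, v), v') =
          w k i u * sg (a && v) * sg (b k i && v') := fun a u v v' => rfl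
      have h3 : ∀ (u : I k) (v v' : Bool), w (k + 2) (si k i) ((u, v), v') =
          w k i u * sg (c k i && v) * sg (!(b k i) && v') := fun u v v' => rfl
      simp only [h2, h3, Fintype.sum_bool]
      have h4 := sg_mul_self (e' k i)
      linear_combination (-(w k i x * sg (c k i && y) * sg (!(b k i) && z) *
        (w k i x' * sg (c k i && y') * sg (!(b k i) && z')))) * h4
    refine (congrArg abs h1).le.trans ?_
    have hk : (0 : ℝ) ≤ k := Nat.cast_nonneg k
    rw [abs_div, abs_of_pos (by positivity : (0 : ℝ) < 2 ^ k)]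
    by_cases hy : y = y'
    · by_cases hz : z = z'
      · simp only [if_pos hy, if_pos hz, mul_zero, Finset.sum_const_zero, abs_zero, zero_div]
        unfold gam
        positivity
      · simp only [if_pos hy, if_neg hz]
        have h5 := hb k (x, x')
        have h6 : ∑ i, w k i x * w k i x' * (2 * sg (b k i)) =
            2 * ∑ i, sg (b k i) * (w k i x * w k i x') := by
          rw [Finset.mul_sum]
          exact Finset.sum_congr rfl fun i _ => by ring
        rw [h6, abs_mul, abs_two, mul_div_assoc]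
        unfold gam
        have h7 : 2 * ((((2 * k : ℕ) : ℝ) + 2) / √2 ^ k) ≤ (4 * k + 10) / √2 ^ k := by
          rw [← mul_div_assoc]
          apply div_le_div_of_nonneg_right _ (hr k).le
          push_cast
          linarith
        linarith
    · have h7 : (((2 * k + 1 : ℕ) : ℝ) + 2) / √2 ^ k ≤ gam k := by
        unfold gam
        apply div_le_div_of_nonneg_right _ (hr k).le
        push_cast
        linarith
      by_cases hz : z = z'
      · simp only [if_neg hy, if_pos hz]
        have h5 := hc k ((x, x'), false)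
        have h6 : ∑ i, w k i x * w k i x' * (-sg (c k i)) =
            -∑ i, sg (c k i) * (w k i x * w k i x' * sg (b k i && false)) := by
          rw [← Finset.sum_neg_distrib]
          exact Finset.sum_congr rfl fun i _ => by simp [sg]
        rw [h6, abs_neg]
        exact h5.trans h7
      · simp only [if_neg hy, if_neg hz]
        have h5 := hc k ((x, x'), true)
        have h6 : ∑ i, w k i x * w k i x' * (sg (c k i) * sg (b k i)) =
            ∑ i, sg (c k i) * (w k i x * w k i x' * sg (b k i && true)) :=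
          Finset.sum_congr rfl fun i _ => by rw [Bool.and_true]; ring
        rw [h6]
        exact h5.trans h7
  · intro k g h
    have h5 := he k (g, h)
    have h6 : ∑ j, w (k + 2) (ti k j) g * (sg (e' (k + 1) j) * w (k + 1 + 2) (si (k + 1) j) h) =
        ∑ j, sg (e k j) * (w (k + 2) (ti k j) g * w (k + 3) (si (k + 1) j) h) :=
      Finset.sum_congr rfl fun j _ => by
        have h8 : e' (k + 1) j = e k j := rfl
        rw [h8]
        ring
    rw [abs_div, abs_of_pos (by positivity : (0 : ℝ) < 2 ^ (k + 1))]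
    refine le_trans (le_of_eq ?_) (h5.trans ?_)
    · exact congrArg (fun u => |u| / 2 ^ (k + 1)) h6
    · unfold gam
      have hk : (0 : ℝ) ≤ k := Nat.cast_nonneg k
      have h9 : (1 : ℝ) ≤ √2 := Real.one_le_sqrt.2 (by norm_num)
      have h10 : (√2 : ℝ) ^ k ≤ √2 ^ (k + 1) := pow_le_pow_right₀ h9 (Nat.le_succ k)
      apply div_le_div₀ (by positivity) _ (hr k) h10
      push_cast
      linarith

end Pool.Agent.Lib.helper3.NoAP
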