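import Pool.Agent.Lib.helper3.NoAP1

namespace Pool.Agent.Lib.helper3.NoAP

open Finset Filter Topology

noncomputable def s : ∀ k, I k → I (k + 2) → ℝ := exists_sys.choose

noncomputable def t : ∀ k, I (k + 1) → I (k + 2) → ℝ := exists_sys.choose_spec.choose

lemma hs : ∀ k i g, |s k i g| ≤ 1 := exists_sys.choose_spec.choose_spec.1

lemma ht : ∀ k j g, |t k j g| ≤ 1 := exists_sys.choose_spec.choose_spec.2.1

lemma hss : ∀ k i i', ∑ g, s k i g * s k i' g = if i = i' then 2 ^ (k + 2) else 0 :=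
  exists_sys.choose_spec.choose_spec.2.2.1

lemma htt : ∀ k j j', ∑ g, t k j g * t k j' g = if j = j' then 2 ^ (k + 2) else 0 :=
  exists_sys.choose_spec.choose_spec.2.2.2.1

lemma hst : ∀ k i j, ∑ g, s k i g * t k j g = 0 :=
  exists_sys.choose_spec.choose_spec.2.2.2.2.1

lemma hA : ∀ k g h,
    |(∑ j, t k j g * t k j h) / 2 ^ (k + 1) - (∑ i, s k i g * s k i h) / 2 ^ k| ≤ gam k :=
  exists_sys.choose_spec.choose_spec.2.2.2.2.2.1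

lemma hB : ∀ k g h, |(∑ j, t k j g * s (k + 1) j h) / 2 ^ (k + 1)| ≤ gam k :=
  exists_sys.choose_spec.choose_spec.2.2.2.2.2.2

lemma bessel (k : ℕ) (u : I (k + 2) → ℝ) (M : ℝ) (hu : ∀ g, |u g| ≤ M) :
    ∑ j, ((2 ^ (k + 2) : ℝ)⁻¹ * ∑ g, t k j g * u g) ^ 2 ≤ M ^ 2 := by
  set N : ℝ := 2 ^ (k + 2) with hN
  have hN0 : 0 < N := by positivity
  set a : I (k + 1) → ℝ := fun j => N⁻¹ * ∑ g, t k j g * u g with ha
  have h1 : ∀ j, ∑ g, t k j g * u g = N * a j := by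
    intro j
    simp only [ha]
    field_simp
  have h2 : ∑ g, u g * ∑ j, a j * t k j g = N * ∑ j, a j ^ 2 := by
    simp_rw [Finset.mul_sum]
    rw [Finset.sum_comm]
    refine Finset.sum_congr rfl fun j _ => ?_
    have h3 : ∑ g, u g * (a j * t k j g) = a j * ∑ g, t k j g * u g := by
      rw [Finset.mul_sum]
      exact Finset.sum_congr rfl fun g _ => by ring
    rw [h3, h1]
    ring
  have h4 : ∑ g, (∑ j, a j * t k j g) ^ 2 = N * ∑ j, a j ^ 2 := by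
    simp_rw [sq, Finset.sum_mul_sum]
    rw [Finset.sum_comm, Finset.mul_sum]
    refine Finset.sum_congr rfl fun j _ => ?_
    rw [Finset.sum_comm]
    have h5 : ∀ j', ∑ g, a j * t k j g * (a j' * t k j' g) =
        if j = j' then a j * a j' * N else 0 := by
      intro j'
      have h6 : ∑ g, a j * t k j g * (a j' * t k j' g) = a j * a j' * ∑ g, t k j g * t k j' g := by
        rw [Finset.mul_sum]
        exact Finset.sum_congr rfl fun g _ => by ring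
      rw [h6, htt]
      split_ifs
      · rfl
      · simp
    simp_rw [h5]
    rw [Finset.sum_ite_eq]
    simp only [Finset.mem_univ, if_true]
    ring
  have h7 : 0 ≤ ∑ g, (u g - ∑ j, a j * t k j g) ^ 2 := Finset.sum_nonneg fun g _ => sq_nonneg _
  have h8 : ∑ g, (u g - ∑ j, a j * t k j g) ^ 2 =
      ∑ g, u g ^ 2 - 2 * ∑ g, u g * ∑ j, a j * t k j g + ∑ g, (∑ j, a j * t k j g) ^ 2 := by
    rw [Finset.mul_sum, ← Finset.sum_sub_distrib, ← Finset.sum_add_distrib]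
    exact Finset.sum_congr rfl fun g _ => by ring
  have h9 : ∑ g, u g ^ 2 ≤ N * M ^ 2 := by
    calc ∑ g, u g ^ 2 ≤ ∑ _g : I (k + 2), M ^ 2 := Finset.sum_le_sum fun g _ => by
          rw [← sq_abs]
          exact pow_le_pow_left₀ (abs_nonneg _) (hu g) 2
      _ = N * M ^ 2 := by
          rw [Finset.sum_const, Finset.card_univ, card_I, nsmul_eq_mul]
          push_cast
          rfl
  rw [h8, h2, h4] at h7
  have h10 : N * ∑ j, a j ^ 2 ≤ N * M ^ 2 := by linarith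
  exact le_of_mul_le_mul_left h10 hN0

variable (𝕜 : Type) [RCLike 𝕜]

/-- The ambient space. -/
abbrev L : Type := lp (fun k : ℕ => I (k + 2) → 𝕜) ⊤

/-- Coordinate functional. -/
noncomputable def crd (k : ℕ) (g : I (k + 2)) : L 𝕜 →L[𝕜] 𝕜 :=
  (ContinuousLinearMap.proj g).comp (lp.evalCLM 𝕜 (fun k : ℕ => I (k + 2) → 𝕜) ⊤ k)

lemma crd_apply (k : ℕ) (g : I (k + 2)) (f : L 𝕜) : crd 𝕜 k g f = f k g := rfl

lemma norm_crd_le (k : ℕ) (g : I (k + 2)) (f : L 𝕜) : ‖crd 𝕜 k g f‖ ≤ ‖f‖ :=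
  (norm_le_pi_norm (f k) g).trans (lp.norm_apply_le_norm ENNReal.top_ne_zero f k)

/-- Averaged pairing with a real vector. -/
noncomputable def pair (k : ℕ) (v : I (k + 2) → ℝ) : L 𝕜 →L[𝕜] 𝕜 :=
  (((2 ^ (k + 2) : ℝ)⁻¹ : ℝ) : 𝕜) • ∑ g, (v g : 𝕜) • crd 𝕜 k g

lemma pair_apply (k : ℕ) (v : I (k + 2) → ℝ) (f : L 𝕜) :
    pair 𝕜 k v f = (((2 ^ (k + 2) : ℝ)⁻¹ : ℝ) : 𝕜) * ∑ g, (v g : 𝕜) * crd 𝕜 k g f := by
  simp only [pair, _root_.smul_apply, _root_.sum_apply, smul_eq_mul]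

lemma norm_avg_le {n : ℕ} (z : I n → 𝕜) (M : ℝ) (hz : ∀ i, ‖z i‖ ≤ M) :
    ‖(((2 ^ n : ℝ)⁻¹ : ℝ) : 𝕜) * ∑ i, z i‖ ≤ M := by
  have hN : (0 : ℝ) < 2 ^ n := by positivity
  rw [norm_mul, RCLike.norm_ofReal, abs_of_pos (inv_pos.2 hN), inv_mul_le_iff₀ hN]
  calc ‖∑ i, z i‖ ≤ ∑ i, ‖z i‖ := norm_sum_le _ _
    _ ≤ ∑ _i : I n, M := Finset.sum_le_sum fun i _ => hz i
    _ = 2 ^ n * M := by
        rw [Finset.sum_const, Finset.card_univ, card_I, nsmul_eq_mul]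
        push_cast
        rfl

lemma norm_pair_le (k : ℕ) (v : I (k + 2) → ℝ) (hv : ∀ g, |v g| ≤ 1) (f : L 𝕜) :
    ‖pair 𝕜 k v f‖ ≤ ‖f‖ := by
  rw [pair_apply]
  refine norm_avg_le 𝕜 _ _ fun g => ?_
  rw [norm_mul, RCLike.norm_ofReal]
  calc |v g| * ‖crd 𝕜 k g f‖ ≤ 1 * ‖f‖ :=
        mul_le_mul (hv g) (norm_crd_le 𝕜 k g f) (norm_nonneg _) zero_le_one
    _ = ‖f‖ := one_mul _

/-- Inclusion of the `k`-th block. -/
noncomputable def sgl (k : ℕ) : (I (k + 2) → 𝕜) →L[𝕜] L 𝕜 :=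
  lp.singleContinuousLinearMap 𝕜 (fun k : ℕ => I (k + 2) → 𝕜) ⊤ k

lemma norm_sgl (k : ℕ) (u : I (k + 2) → 𝕜) : ‖sgl 𝕜 k u‖ = ‖u‖ :=
  lp.norm_single (E := fun k : ℕ => I (k + 2) → 𝕜) (p := ⊤) (by simp) k u

lemma crd_sgl_same (k : ℕ) (u : I (k + 2) → 𝕜) (g : I (k + 2)) : crd 𝕜 k g (sgl 𝕜 k u) = u g :=
  congrFun (lp.single_apply_self (E := fun k : ℕ => I (k + 2) → 𝕜) ⊤ k u) g

lemma crd_sgl_ne {k m : ℕ} (h : k ≠ m) (u : I (m + 2) → 𝕜) (g : I (k + 2)) :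
    crd 𝕜 k g (sgl 𝕜 m u) = 0 :=
  congrFun (lp.single_apply_ne (E := fun k : ℕ => I (k + 2) → 𝕜) ⊤ m u h) g

/-- Cast of a real vector. -/
def cv {ι : Type} (v : ι → ℝ) : ι → 𝕜 := fun g => (v g : 𝕜)

lemma pair_sgl_same (k : ℕ) (v u : I (k + 2) → ℝ) :
    pair 𝕜 k v (sgl 𝕜 k (cv 𝕜 u)) = (((2 ^ (k + 2) : ℝ)⁻¹ * ∑ g, v g * u g : ℝ) : 𝕜) := by
  rw [pair_apply]
  simp only [crd_sgl_same, cv]
  push_cast
  rfl

lemma pair_sgl_ne {k m : ℕ} (h : k ≠ m) (v : I (k + 2) → ℝ) (u : I (m + 2) → 𝕜) :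
    pair 𝕜 k v (sgl 𝕜 m u) = 0 := by
  rw [pair_apply]
  simp only [crd_sgl_ne 𝕜 h, mul_zero, Finset.sum_const_zero]

/-- The space without the approximation property. -/
def E : Submodule 𝕜 (L 𝕜) where
  carrier := {f | ∀ k j, pair 𝕜 k (t k j) f = pair 𝕜 (k + 1) (s (k + 1) j) f}
  add_mem' := by
    intro f g hf hg k j
    rw [map_add, map_add, hf k j, hg k j]
  zero_mem' := by
    intro k j
    rw [map_zero, map_zero]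
  smul_mem' := by
    intro c f hf k j
    rw [map_smul, map_smul, hf k j]

lemma isClosed_E : IsClosed (E 𝕜 : Set (L 𝕜)) := by
  have h : (E 𝕜 : Set (L 𝕜)) =
      ⋂ k, ⋂ j, {f | pair 𝕜 k (t k j) f = pair 𝕜 (k + 1) (s (k + 1) j) f} := by
    ext f
    simp only [Set.mem_iInter]
    rfl
  rw [h]
  exact isClosed_iInter fun k => isClosed_iInter fun j =>
    isClosed_eq (pair 𝕜 k (t k j)).continuous (pair 𝕜 (k + 1) (s (k + 1) j)).continuous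

instance : CompleteSpace (E 𝕜) := (isClosed_E 𝕜).completeSpace_coe

/-- The basic vectors. -/
noncomputable def ev (k : ℕ) (j : I (k + 1)) : L 𝕜 :=
  sgl 𝕜 k (cv 𝕜 (t k j)) + sgl 𝕜 (k + 1) (cv 𝕜 (s (k + 1) j))

lemma pair_t_ev (k : ℕ) (j j' : I (k + 1)) :
    pair 𝕜 k (t k j') (ev 𝕜 k j) = if j' = j then 1 else 0 := by
  rw [ev, map_add, pair_sgl_same, pair_sgl_ne 𝕜 (Nat.succ_ne_self k).symm, add_zero, htt]
  split_ifs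
  · rw [inv_mul_cancel₀ (by positivity)]
    simp
  · simp

lemma ev_mem (k : ℕ) (j : I (k + 1)) : ev 𝕜 k j ∈ E 𝕜 := by
  intro m j'
  by_cases h1 : m = k
  · subst h1
    rw [pair_t_ev, ev, map_add, pair_sgl_same, pair_sgl_ne 𝕜 (Nat.succ_ne_self m), zero_add, hss]
    split_ifs
    · rw [inv_mul_cancel₀ (by positivity)]
      simp
    · simp
  by_cases h2 : m = k + 1
  · subst h2
    rw [ev, map_add, map_add, pair_sgl_same, pair_sgl_ne 𝕜 (Nat.succ_ne_self k),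
      pair_sgl_ne 𝕜 (by omega : k + 1 + 1 ≠ k), pair_sgl_ne 𝕜 (by omega : k + 1 + 1 ≠ k + 1)]
    have h3 : ∑ g, t (k + 1) j' g * s (k + 1) j g = 0 := by
      rw [← hst (k + 1) j j']
      exact Finset.sum_congr rfl fun g _ => mul_comm _ _
    rw [h3]
    simp
  by_cases h3 : k = m + 1
  · subst h3
    rw [ev, map_add, map_add, pair_sgl_same, pair_sgl_ne 𝕜 (by omega : m ≠ m + 1),
      pair_sgl_ne 𝕜 (by omega : m ≠ m + 1 + 1), pair_sgl_ne 𝕜 (by omega : m + 1 ≠ m + 1 + 1), hst]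
    simp
  · rw [ev, map_add, map_add, pair_sgl_ne 𝕜 h1, pair_sgl_ne 𝕜 h2,
      pair_sgl_ne 𝕜 (by omega : m + 1 ≠ k), pair_sgl_ne 𝕜 (by omega : m + 1 ≠ k + 1)]

lemma norm_cv_le {ι : Type} [Fintype ι] (v : ι → ℝ) (M : ℝ) (hM : 0 ≤ M) (hv : ∀ g, |v g| ≤ M) :
    ‖cv 𝕜 v‖ ≤ M :=
  (pi_norm_le_iff_of_nonneg hM).2 fun g => by
    rw [cv, RCLike.norm_ofReal]
    exact hv g

/-- The basic vectors, in `E`. -/
noncomputable def e (k : ℕ) (j : I (k + 1)) : E 𝕜 := ⟨ev 𝕜 k j, ev_mem 𝕜 k j⟩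

lemma norm_e_le (k : ℕ) (j : I (k + 1)) : ‖e 𝕜 k j‖ ≤ 2 := by
  have h : ‖e 𝕜 k j‖ = ‖ev 𝕜 k j‖ := rfl
  rw [h, ev]
  refine (norm_add_le _ _).trans ?_
  rw [norm_sgl, norm_sgl]
  linarith [norm_cv_le 𝕜 (t k j) 1 zero_le_one (ht k j),
    norm_cv_le 𝕜 (s (k + 1) j) 1 zero_le_one (hs (k + 1) j)]

/-- The trace functionals. -/
noncomputable def beta (k : ℕ) (T : E 𝕜 →L[𝕜] E 𝕜) : 𝕜 :=
  (((2 ^ (k + 1) : ℝ)⁻¹ : ℝ) : 𝕜) * ∑ j, pair 𝕜 k (t k j) (T (e 𝕜 k j) : L 𝕜)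

/-- The test vectors. -/
noncomputable def phi (k : ℕ) (g : I (k + 3)) : E 𝕜 :=
  (((2 ^ (k + 2) : ℝ)⁻¹ : ℝ) : 𝕜) • ∑ j, (t (k + 1) j g : 𝕜) • e 𝕜 (k + 1) j -
    (((2 ^ (k + 1) : ℝ)⁻¹ : ℝ) : 𝕜) • ∑ j, (s (k + 1) j g : 𝕜) • e 𝕜 k j

lemma beta_succ (k : ℕ) (T : E 𝕜 →L[𝕜] E 𝕜) :
    beta 𝕜 (k + 1) T - beta 𝕜 k T =
      (((2 ^ (k + 3) : ℝ)⁻¹ : ℝ) : 𝕜) * ∑ g, crd 𝕜 (k + 1) g (T (phi 𝕜 k g) : L 𝕜) := by
  have h1 : ∀ j, pair 𝕜 k (t k j) (T (e 𝕜 k j) : L 𝕜) =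
      pair 𝕜 (k + 1) (s (k + 1) j) (T (e 𝕜 k j) : L 𝕜) := fun j => (T (e 𝕜 k j)).2 k j
  have h2 : ∀ g, crd 𝕜 (k + 1) g (T (phi 𝕜 k g) : L 𝕜) =
      (((2 ^ (k + 2) : ℝ)⁻¹ : ℝ) : 𝕜) *
        ∑ j, (t (k + 1) j g : 𝕜) * crd 𝕜 (k + 1) g (T (e 𝕜 (k + 1) j) : L 𝕜) -
      (((2 ^ (k + 1) : ℝ)⁻¹ : ℝ) : 𝕜) *
        ∑ j, (s (k + 1) j g : 𝕜) * crd 𝕜 (k + 1) g (T (e 𝕜 k j) : L 𝕜) := by
    intro g
    let ψ : E 𝕜 →L[𝕜] 𝕜 := (crd 𝕜 (k + 1) g).comp ((E 𝕜).subtypeL.comp T)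
    have h3 : ∀ x, crd 𝕜 (k + 1) g (T x : L 𝕜) = ψ x := fun x => rfl
    simp only [h3]
    simp only [phi, map_sub, map_smul, map_sum, smul_eq_mul]
  unfold beta
  simp only [h1, h2, pair_apply]
  rw [Finset.sum_sub_distrib, ← Finset.mul_sum, ← Finset.mul_sum, ← Finset.mul_sum,
    ← Finset.mul_sum, Finset.sum_comm (s := Finset.univ (α := I (k + 1 + 1))),
    Finset.sum_comm (s := Finset.univ (α := I (k + 1)))]
  ring

lemma gam_nonneg (k : ℕ) : 0 ≤ gam k := by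
  unfold gam
  positivity

lemma gam_succ_le (k : ℕ) : gam (k + 1) ≤ 2 * gam k := by
  unfold gam
  have hk : (0 : ℝ) ≤ k := Nat.cast_nonneg k
  have h9 : (1 : ℝ) ≤ √2 := Real.one_le_sqrt.2 (by norm_num)
  have h10 : (√2 : ℝ) ^ k ≤ √2 ^ (k + 1) := pow_le_pow_right₀ h9 (Nat.le_succ k)
  rw [← mul_div_assoc]
  apply div_le_div₀ (by positivity) _ (by positivity) h10
  push_cast
  linarith

lemma norm_phi_le (k : ℕ) (g : I (k + 3)) : ‖phi 𝕜 k g‖ ≤ 5 * gam k := by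
  have hcv : ∀ {ι κ : Type} [Fintype ι] (c : ℝ) (a : ι → ℝ) (v : ι → κ → ℝ),
      (c : 𝕜) • ∑ j, (a j : 𝕜) • cv 𝕜 (v j) = cv 𝕜 (fun h => c * ∑ j, a j * v j h) := by
    intro ι κ _ c a v
    funext h
    simp only [cv, Pi.smul_apply, Finset.sum_apply, smul_eq_mul]
    push_cast
    rfl
  have h1 : (phi 𝕜 k g : L 𝕜) =
      sgl 𝕜 (k + 1) (cv 𝕜 (fun h => (2 ^ (k + 2) : ℝ)⁻¹ * ∑ j, t (k + 1) j g * t (k + 1) j h) -
        cv 𝕜 (fun h => (2 ^ (k + 1) : ℝ)⁻¹ * ∑ j, s (k + 1) j g * s (k + 1) j h)) +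
      sgl 𝕜 (k + 1 + 1)
        (cv 𝕜 (fun h => (2 ^ (k + 2) : ℝ)⁻¹ * ∑ j, t (k + 1) j g * s (k + 1 + 1) j h)) -
      sgl 𝕜 k (cv 𝕜 (fun h => (2 ^ (k + 1) : ℝ)⁻¹ * ∑ j, s (k + 1) j g * t k j h)) := by
    rw [← hcv, ← hcv, ← hcv, ← hcv]
    have h2 : ∀ m j, ((e 𝕜 m j : E 𝕜) : L 𝕜) =
      sgl 𝕜 m (cv 𝕜 (t m j)) + sgl 𝕜 (m + 1) (cv 𝕜 (s (m + 1) j)) := fun m j => rfl
    simp only [phi, Submodule.coe_sub, Submodule.coe_smul, Submodule.coe_sum, h2, map_sub,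
      map_smul, map_sum, smul_add, Finset.sum_add_distrib]
    abel
  have h3 : ‖phi 𝕜 k g‖ = ‖(phi 𝕜 k g : L 𝕜)‖ := rfl
  rw [h3, h1]
  refine (norm_sub_le _ _).trans ((add_le_add (norm_add_le _ _) le_rfl).trans ?_)
  rw [norm_sgl, norm_sgl, norm_sgl]
  have h4 : ‖cv 𝕜 (fun h => (2 ^ (k + 2) : ℝ)⁻¹ * ∑ j, t (k + 1) j g * t (k + 1) j h) -
        cv 𝕜 (fun h => (2 ^ (k + 1) : ℝ)⁻¹ * ∑ j, s (k + 1) j g * s (k + 1) j h)‖ ≤ gam (k + 1) := by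
    refine (pi_norm_le_iff_of_nonneg (gam_nonneg _)).2 fun h => ?_
    simp only [cv, Pi.sub_apply]
    rw [← RCLike.ofReal_sub, RCLike.norm_ofReal, ← div_eq_inv_mul, ← div_eq_inv_mul]
    exact hA (k + 1) g h
  have h5 : ‖cv 𝕜 (fun h => (2 ^ (k + 2) : ℝ)⁻¹ * ∑ j, t (k + 1) j g * s (k + 1 + 1) j h)‖ ≤
      gam (k + 1) := by
    refine norm_cv_le 𝕜 _ _ (gam_nonneg _) fun h => ?_
    rw [← div_eq_inv_mul]
    exact hB (k + 1) g h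
  have h6 : ‖cv 𝕜 (fun h => (2 ^ (k + 1) : ℝ)⁻¹ * ∑ j, s (k + 1) j g * t k j h)‖ ≤ gam k := by
    refine norm_cv_le 𝕜 _ _ (gam_nonneg _) fun h => ?_
    rw [← div_eq_inv_mul]
    have h7 : ∑ j, s (k + 1) j g * t k j h = ∑ j, t k j h * s (k + 1) j g :=
      Finset.sum_congr rfl fun j _ => mul_comm _ _
    rw [h7]
    exact hB k h g
  linarith [gam_succ_le k]

end Pool.Agent.Lib.helper3.NoAP
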