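import Pool.Agent.Lib.helper3.NoAP2

namespace Pool.Agent.Lib.helper3.NoAP

open Finset Filter Topology

variable (𝕜 : Type) [RCLike 𝕜]

lemma sum_sq_pair_le (k : ℕ) (f : L 𝕜) :
    ∑ j, ‖pair 𝕜 k (t k j) f‖ ^ 2 ≤ 2 * ‖f‖ ^ 2 := by
  have h1 := bessel k (fun g => RCLike.re (crd 𝕜 k g f)) ‖f‖
    (fun g => (RCLike.abs_re_le_norm _).trans (norm_crd_le 𝕜 k g f))
  have h2 := bessel k (fun g => RCLike.im (crd 𝕜 k g f)) ‖f‖
    (fun g => (RCLike.abs_im_le_norm _).trans (norm_crd_le 𝕜 k g f))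
  have h3 : ∀ j, ‖pair 𝕜 k (t k j) f‖ ^ 2 =
      ((2 ^ (k + 2) : ℝ)⁻¹ * ∑ g, t k j g * RCLike.re (crd 𝕜 k g f)) ^ 2 +
      ((2 ^ (k + 2) : ℝ)⁻¹ * ∑ g, t k j g * RCLike.im (crd 𝕜 k g f)) ^ 2 := by
    intro j
    rw [RCLike.norm_sq_eq_def, pair_apply, RCLike.re_ofReal_mul, RCLike.im_ofReal_mul, map_sum,
      map_sum]
    simp only [RCLike.re_ofReal_mul, RCLike.im_ofReal_mul]
    ring
  simp only [h3]
  rw [Finset.sum_add_distrib]
  linarith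

lemma tendsto_avg_pair (f : L 𝕜) :
    Tendsto (fun k => (2 ^ (k + 1) : ℝ)⁻¹ * ∑ j, ‖pair 𝕜 k (t k j) f‖) atTop (𝓝 0) := by
  have h1 : ∀ k, (2 ^ (k + 1) : ℝ)⁻¹ * ∑ j, ‖pair 𝕜 k (t k j) f‖ ≤
      √(‖f‖ ^ 2 * (1 / 2) ^ k) := by
    intro k
    apply Real.le_sqrt_of_sq_le
    have h2 : (∑ j, ‖pair 𝕜 k (t k j) f‖) ^ 2 ≤ 2 ^ (k + 1) * (2 * ‖f‖ ^ 2) := by
      refine (sq_sum_le_card_mul_sum_sq (s := Finset.univ)
        (f := fun j => ‖pair 𝕜 k (t k j) f‖)).trans ?_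
      rw [Finset.card_univ, card_I]
      push_cast
      exact mul_le_mul_of_nonneg_left (sum_sq_pair_le 𝕜 k f) (by positivity)
    have h3 : (0 : ℝ) < 2 ^ k := by positivity
    rw [mul_pow]
    calc ((2 ^ (k + 1) : ℝ)⁻¹) ^ 2 * (∑ j, ‖pair 𝕜 k (t k j) f‖) ^ 2 ≤
          ((2 ^ (k + 1) : ℝ)⁻¹) ^ 2 * (2 ^ (k + 1) * (2 * ‖f‖ ^ 2)) :=
          mul_le_mul_of_nonneg_left h2 (by positivity)
      _ = ‖f‖ ^ 2 * (1 / 2) ^ k := by
          rw [one_div, inv_pow 2 k, pow_succ 2 k]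
          field_simp
  have h4 : Tendsto (fun k : ℕ => √(‖f‖ ^ 2 * (1 / 2) ^ k)) atTop (𝓝 0) := by
    have h5 := (tendsto_pow_atTop_nhds_zero_of_lt_one (r := (1 / 2 : ℝ)) (by norm_num)
      (by norm_num)).const_mul (‖f‖ ^ 2)
    have h6 := h5.sqrt
    rwa [mul_zero, Real.sqrt_zero] at h6
  exact squeeze_zero (fun k => by positivity) h1 h4

lemma finRank_repr {X Y : Type} [NormedAddCommGroup X] [NormedSpace 𝕜 X] [NormedAddCommGroup Y]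
    [NormedSpace 𝕜 Y] (S : X →L[𝕜] Y) (hS : FiniteDimensional 𝕜 (LinearMap.range S.toLinearMap)) :
    ∃ (n : ℕ) (c : Fin n → X →L[𝕜] 𝕜) (y : Fin n → Y), ∀ x, S x = ∑ l, c l x • y l := by
  let b := Module.finBasis 𝕜 (LinearMap.range S.toLinearMap)
  let S' : X →L[𝕜] LinearMap.range S.toLinearMap :=
    S.codRestrict (LinearMap.range S.toLinearMap) fun x => ⟨x, rfl⟩
  refine ⟨_, fun l => (LinearMap.toContinuousLinearMap (b.coord l)).comp S',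
    fun l => (b l : Y), fun x => ?_⟩
  have h1 := congrArg (fun z : LinearMap.range S.toLinearMap => (z : Y)) (b.sum_repr (S' x))
  simp only [Submodule.coe_sum, Submodule.coe_smul] at h1
  exact h1.symm

lemma tendsto_beta_finRank (S : E 𝕜 →L[𝕜] E 𝕜)
    (hS : FiniteDimensional 𝕜 (LinearMap.range S.toLinearMap)) :
    Tendsto (fun k => beta 𝕜 k S) atTop (𝓝 0) := by
  obtain ⟨n, c, y, h⟩ := finRank_repr 𝕜 S hS
  have h1 : ∀ k, ‖beta 𝕜 k S‖ ≤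
      ∑ l, (‖c l‖ * 2) * ((2 ^ (k + 1) : ℝ)⁻¹ * ∑ j, ‖pair 𝕜 k (t k j) (y l : L 𝕜)‖) := by
    intro k
    have hN : (0 : ℝ) < (2 ^ (k + 1) : ℝ)⁻¹ := by positivity
    have h2 : ∀ j, ‖pair 𝕜 k (t k j) (S (e 𝕜 k j) : L 𝕜)‖ ≤
        ∑ l, (‖c l‖ * 2) * ‖pair 𝕜 k (t k j) (y l : L 𝕜)‖ := by
      intro j
      let ψ : E 𝕜 →L[𝕜] 𝕜 := (pair 𝕜 k (t k j)).comp (E 𝕜).subtypeL
      have h3 : ∀ x : E 𝕜, pair 𝕜 k (t k j) (x : L 𝕜) = ψ x := fun x => rfl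
      simp only [h3]
      rw [h, map_sum]
      refine (norm_sum_le _ _).trans (Finset.sum_le_sum fun l _ => ?_)
      rw [map_smul, norm_smul]
      refine mul_le_mul_of_nonneg_right ?_ (norm_nonneg _)
      exact ((c l).le_opNorm _).trans
        (mul_le_mul_of_nonneg_left (norm_e_le 𝕜 k j) (c l).opNorm_nonneg)
    unfold beta
    rw [norm_mul, RCLike.norm_ofReal, abs_of_pos hN]
    calc (2 ^ (k + 1) : ℝ)⁻¹ * ‖∑ j, pair 𝕜 k (t k j) (S (e 𝕜 k j) : L 𝕜)‖ ≤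
          (2 ^ (k + 1) : ℝ)⁻¹ * ∑ j, ∑ l, (‖c l‖ * 2) * ‖pair 𝕜 k (t k j) (y l : L 𝕜)‖ :=
          mul_le_mul_of_nonneg_left
            ((norm_sum_le _ _).trans (Finset.sum_le_sum fun j _ => h2 j)) hN.le
      _ = _ := by
          rw [Finset.sum_comm, Finset.mul_sum]
          refine Finset.sum_congr rfl fun l _ => ?_
          rw [← Finset.mul_sum]
          ring
  have h4 : Tendsto (fun k => ∑ l, (‖c l‖ * 2) *
      ((2 ^ (k + 1) : ℝ)⁻¹ * ∑ j, ‖pair 𝕜 k (t k j) (y l : L 𝕜)‖)) atTop (𝓝 0) := by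
    have h5 := tendsto_finsetSum (Finset.univ : Finset (Fin n))
      (fun l _ => (tendsto_avg_pair 𝕜 (y l : L 𝕜)).const_mul (‖c l‖ * 2))
    simpa only [mul_zero, Finset.sum_const_zero] using h5
  exact squeeze_zero_norm h1 h4

lemma beta_sub_one (k : ℕ) (S : E 𝕜 →L[𝕜] E 𝕜) :
    beta 𝕜 k (S - ContinuousLinearMap.id 𝕜 (E 𝕜)) = beta 𝕜 k S - 1 := by
  have h1 : ∀ j, pair 𝕜 k (t k j) ((S - ContinuousLinearMap.id 𝕜 (E 𝕜)) (e 𝕜 k j) : L 𝕜) =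
      pair 𝕜 k (t k j) (S (e 𝕜 k j) : L 𝕜) - 1 := by
    intro j
    have h2 : ((S - ContinuousLinearMap.id 𝕜 (E 𝕜)) (e 𝕜 k j) : L 𝕜) =
        (S (e 𝕜 k j) : L 𝕜) - ev 𝕜 k j := rfl
    rw [h2, map_sub, pair_t_ev, if_pos rfl]
  unfold beta
  simp only [h1]
  rw [Finset.sum_sub_distrib, mul_sub, Finset.sum_const, Finset.card_univ, card_I, nsmul_eq_mul,
    mul_one]
  congr 1
  have h3 : ((2 ^ (k + 1) : ℕ) : 𝕜) = ((2 ^ (k + 1) : ℝ) : 𝕜) := by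
    push_cast
    rfl
  rw [h3, ← RCLike.ofReal_mul, inv_mul_cancel₀ (by positivity), RCLike.ofReal_one]

lemma tendsto_gam : Tendsto (fun k : ℕ => (5 / 4 : ℝ) ^ k * (5 * gam k)) atTop (𝓝 0) := by
  have hr : (0 : ℝ) < √2 := by positivity
  have h0 : (0 : ℝ) ≤ 5 / 4 / √2 := by positivity
  have h1 : (5 / 4 / √2 : ℝ) < 1 := by
    rw [div_lt_one hr]
    apply Real.lt_sqrt_of_sq_lt
    norm_num
  have h2 := ((tendsto_self_mul_const_pow_of_lt_one h0 h1).const_mul 20).add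
    ((tendsto_pow_atTop_nhds_zero_of_lt_one h0 h1).const_mul 50)
  rw [mul_zero, mul_zero, add_zero] at h2
  refine h2.congr fun k => ?_
  unfold gam
  rw [div_pow _ (√2)]
  ring

/-- The space `E` fails the approximation property. -/
theorem no_AP : ∃ K : Set (E 𝕜), IsCompact K ∧ ∀ S : E 𝕜 →L[𝕜] E 𝕜,
    FiniteDimensional 𝕜 (LinearMap.range S.toLinearMap) → ∃ x ∈ K, 1 / 12 < ‖S x - x‖ := by
  let F : (Σ k : ℕ, I (k + 3)) → E 𝕜 := fun p => (((5 / 4 : ℝ) ^ p.1 : ℝ) : 𝕜) • phi 𝕜 p.1 p.2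
  have hF : Tendsto F cofinite (𝓝 0) := by
    have h1 : Tendsto (fun p : (Σ k : ℕ, I (k + 3)) => p.1) cofinite atTop := by
      rw [← Nat.cofinite_eq_atTop]
      refine Filter.Tendsto.cofinite_of_finite_preimage_singleton fun k => ?_
      have h2 : (fun p : (Σ k : ℕ, I (k + 3)) => p.1) ⁻¹' {k} = Set.range (Sigma.mk k) := by
        ext ⟨m, g⟩
        constructor
        · intro h
          have h3 : m = k := h
          subst h3
          exact ⟨g, rfl⟩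
        · rintro ⟨g', h⟩
          exact (congrArg Sigma.fst h).symm
      rw [h2]
      exact Set.finite_range _
    refine squeeze_zero_norm (fun p => ?_) (tendsto_gam.comp h1)
    simp only [F, Function.comp]
    rw [norm_smul, RCLike.norm_ofReal, abs_of_pos (by positivity)]
    exact mul_le_mul_of_nonneg_left (norm_phi_le 𝕜 p.1 p.2) (by positivity)
  refine ⟨insert 0 (Set.range F) ∪ Set.range (e 𝕜 0),
    hF.isCompact_insert_range_of_cofinite.union (Set.finite_range _).isCompact, fun S hS => ?_⟩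
  by_contra hcon
  push Not at hcon
  set T := S - ContinuousLinearMap.id 𝕜 (E 𝕜) with hT
  have hTx : ∀ x, T x = S x - x := fun x => rfl
  have h0 : ‖beta 𝕜 0 T‖ ≤ 1 / 12 := by
    unfold beta
    refine norm_avg_le 𝕜 _ _ fun j => (norm_pair_le 𝕜 0 _ (ht 0 j) _).trans ?_
    exact hcon (e 𝕜 0 j) (Or.inr ⟨j, rfl⟩)
  have h1 : ∀ k, ‖beta 𝕜 (k + 1) T - beta 𝕜 k T‖ ≤ 1 / 12 * (4 / 5) ^ k := by
    intro k
    rw [beta_succ]
    refine norm_avg_le 𝕜 _ _ fun g => (norm_crd_le 𝕜 _ g _).trans ?_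
    have h2 := hcon (F ⟨k, g⟩) (Or.inl (Or.inr ⟨_, rfl⟩))
    rw [← hTx] at h2
    simp only [F] at h2
    rw [map_smul, norm_smul, RCLike.norm_ofReal, abs_of_pos (by positivity)] at h2
    have h3 : ‖(T (phi 𝕜 k g) : L 𝕜)‖ = ‖T (phi 𝕜 k g)‖ := rfl
    rw [h3]
    have h4 : (5 / 4 : ℝ) ^ k * (4 / 5) ^ k = 1 := by
      rw [← mul_pow]
      norm_num
    have h5 : (0 : ℝ) < (4 / 5) ^ k := by positivity
    calc ‖T (phi 𝕜 k g)‖ = ((5 / 4 : ℝ) ^ k * ‖T (phi 𝕜 k g)‖) * (4 / 5) ^ k := by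
          rw [mul_right_comm, h4, one_mul]
      _ ≤ 1 / 12 * (4 / 5) ^ k := mul_le_mul_of_nonneg_right h2 h5.le
  have h2 : ∀ k, ‖beta 𝕜 k T‖ ≤ 1 / 2 - 5 / 12 * (4 / 5) ^ k := by
    intro k
    induction k with
    | zero => linarith
    | succ k ih =>
      have h3 := norm_add_le (beta 𝕜 (k + 1) T - beta 𝕜 k T) (beta 𝕜 k T)
      rw [sub_add_cancel] at h3
      have h4 := h1 k
      rw [pow_succ]
      linarith
  have h3 : Tendsto (fun k => ‖beta 𝕜 k T‖) atTop (𝓝 ‖(0 : 𝕜) - 1‖) := by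
    simp only [hT, beta_sub_one]
    exact ((tendsto_beta_finRank 𝕜 S hS).sub_const 1).norm
  have h4 : ‖(0 : 𝕜) - 1‖ ≤ 1 / 2 := le_of_tendsto' h3 fun k => by
    have h5 : (0 : ℝ) < (4 / 5) ^ k := by positivity
    linarith [h2 k]
  rw [zero_sub, norm_neg, norm_one] at h4
  norm_num at h4

end Pool.Agent.Lib.helper3.NoAP
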