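import Mathlib

set_option autoImplicit false

/-! A soft van der Corput estimate, and generators of diagonal semigroups. -/

namespace Pool.Agent.Lib.H3Osc

open Filter Topology MeasureTheory Complex

lemma osc {h : ℝ → ℂ} {ψ ψ' : ℝ → ℝ} {l m B : ℝ} (hl : 0 < l) (hm : 1 ≤ m)
    (hh : ∀ y, HasDerivAt h (I * l * ψ y * h y) y) (h1 : ∀ y, ‖h y‖ = 1)
    (hψ : ∀ y, HasDerivAt ψ (ψ' y) y) (hc : Continuous ψ') (hB : ∀ y ∈ Set.Icc (0 : ℝ) 1, |ψ' y| ≤ B) :
    ‖∫ y in (0 : ℝ)..1, h y‖ ≤ (∫ y in (0 : ℝ)..1, (1 + m * ψ y ^ 2)⁻¹) + (2 * m + m * B) / l := by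
  have p : ∀ y, 0 < 1 + m * ψ y ^ 2 := fun y => by positivity
  have c1 : Continuous h := continuous_iff_continuousAt.2 fun y => (hh y).continuousAt
  have c2 : Continuous ψ := continuous_iff_continuousAt.2 fun y => (hψ y).continuousAt
  let k : ℝ → ℝ := fun y => m * ψ y / (1 + m * ψ y ^ 2)
  let k' : ℝ → ℝ := fun y => m * ψ' y * ((1 - m * ψ y ^ 2) / (1 + m * ψ y ^ 2) ^ 2)
  have c3 : Continuous k' :=
    (by fun_prop : Continuous fun y => m * ψ' y).mul (Continuous.div (by fun_prop) (by fun_prop)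
      fun y => (pow_pos (p y) 2).ne')
  have c4 : Continuous fun y => (1 + m * ψ y ^ 2)⁻¹ := Continuous.inv₀ (by fun_prop) fun y => (p y).ne'
  have hk : ∀ y, HasDerivAt k (k' y) y := fun y =>
    (((hψ y).const_mul m).div ((((hψ y).pow 2).const_mul m).const_add 1) (p y).ne').congr_deriv
      (by simp only [k', Pi.pow_apply]; push_cast; ring)
  have k1 : ∀ y, ‖h y * k y‖ ≤ m := fun y => by
    rw [norm_mul, h1, one_mul, norm_real, Real.norm_eq_abs, abs_div, abs_of_pos (p y),
      div_le_iff₀ (p y), abs_mul, abs_of_pos (by linarith)]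
    refine mul_le_mul_of_nonneg_left ?_ (by linarith)
    nlinarith [sq_abs (ψ y), sq_nonneg (|ψ y| - 1), sq_nonneg (ψ y)]
  have ftc := intervalIntegral.integral_eq_sub_of_hasDerivAt (a := 0) (b := 1)
    (f := fun y => h y * k y)
    (f' := fun y => I * l * h y - I * l * (h y * ((1 + m * ψ y ^ 2)⁻¹ : ℝ)) + h y * k' y)
    (fun y _ => ((hh y).mul (hk y).ofReal_comp).congr_deriv (by
      have : ((1 + m * ψ y ^ 2 : ℝ) : ℂ) ≠ 0 := by exact_mod_cast (p y).ne'
      simp only [k, ofReal_div, ofReal_inv]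
      field_simp
      push_cast
      ring))
    (Continuous.intervalIntegrable (by fun_prop) _ _)
  rw [intervalIntegral.integral_add (Continuous.intervalIntegrable (by fun_prop) _ _)
    (Continuous.intervalIntegrable (by fun_prop) _ _),
    intervalIntegral.integral_sub (Continuous.intervalIntegrable (by fun_prop) _ _)
    (Continuous.intervalIntegrable (by fun_prop) _ _), intervalIntegral.integral_const_mul,
    intervalIntegral.integral_const_mul, ← mul_sub, ← eq_sub_iff_add_eq] at ftc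
  have n1 : ‖∫ y in (0 : ℝ)..1, h y * ((1 + m * ψ y ^ 2)⁻¹ : ℝ)‖ ≤
      ∫ y in (0 : ℝ)..1, (1 + m * ψ y ^ 2)⁻¹ :=
    intervalIntegral.norm_integral_le_of_norm_le zero_le_one (Eventually.of_forall fun y _ => by
      rw [norm_mul, h1, one_mul, norm_real, Real.norm_of_nonneg (inv_pos.2 (p y)).le])
      (c4.intervalIntegrable _ _)
  have n2 : ‖∫ y in (0 : ℝ)..1, h y * k' y‖ ≤ m * B * |1 - 0| :=
    intervalIntegral.norm_integral_le_of_norm_le_const fun y hy => by
      rw [Set.uIoc_of_le zero_le_one] at hy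
      rw [norm_mul, h1, one_mul, norm_real, Real.norm_eq_abs, abs_mul, abs_mul,
        abs_of_pos (by linarith : 0 < m)]
      have : |(1 - m * ψ y ^ 2) / (1 + m * ψ y ^ 2) ^ 2| ≤ 1 := by
        have q : 0 ≤ m * ψ y ^ 2 := by positivity
        rw [abs_div, abs_of_pos (pow_pos (p y) 2), div_le_one (pow_pos (p y) 2), abs_le]
        constructor <;> nlinarith
      have := hB y (Set.Ioc_subset_Icc_self hy)
      have hB0 : 0 ≤ B := (abs_nonneg _).trans this
      calc _ ≤ m * B * 1 := by gcongr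
        _ = _ := mul_one _
  have n3 := congrArg norm ftc
  rw [norm_mul, norm_mul, norm_I, one_mul, norm_real, Real.norm_of_nonneg hl.le] at n3
  have n4 := n3.le.trans ((norm_sub_le _ _).trans (add_le_add ((norm_sub_le _ _).trans
    (add_le_add (k1 1) (k1 0))) n2))
  rw [← le_div_iff₀' hl, sub_zero, abs_one, mul_one, ← two_mul] at n4
  linarith [norm_sub_norm_le (∫ y in (0 : ℝ)..1, h y)
    (∫ y in (0 : ℝ)..1, h y * ((1 + m * ψ y ^ 2)⁻¹ : ℝ))]

noncomputable def ph (q : ℝ × ℝ × ℝ) (y : ℝ) : ℝ :=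
  q.1 * Real.exp y + q.2.1 * Real.exp (-y) - q.2.2 * (2 * Real.exp y / (1 + Real.exp y ^ 2))

noncomputable def ph' (q : ℝ × ℝ × ℝ) (y : ℝ) : ℝ :=
  q.1 * Real.exp y - q.2.1 * Real.exp (-y) -
    q.2.2 * (2 * Real.exp y * (1 - Real.exp y ^ 2) / (1 + Real.exp y ^ 2) ^ 2)

lemma ph_deriv (q : ℝ × ℝ × ℝ) (y : ℝ) : HasDerivAt (ph q) (ph' q y) y :=
  ((((Real.hasDerivAt_exp y).const_mul q.1).add ((hasDerivAt_neg' y).exp.const_mul q.2.1)).sub
    ((((Real.hasDerivAt_exp y).const_mul 2).div (((Real.hasDerivAt_exp y).pow 2).const_add 1)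
      (show 0 < 1 + Real.exp y ^ 2 by positivity).ne').const_mul q.2.2)).congr_deriv (by
        simp only [ph', Pi.pow_apply]; push_cast; ring)

lemma ph_cont : Continuous fun z : (ℝ × ℝ × ℝ) × ℝ => ph z.1 z.2 :=
  Continuous.sub (by fun_prop) (Continuous.mul (by fun_prop)
    (Continuous.div (by fun_prop) (by fun_prop) fun _ => by positivity))

lemma ph'_cont : Continuous fun z : (ℝ × ℝ × ℝ) × ℝ => ph' z.1 z.2 :=
  Continuous.sub (by fun_prop) (Continuous.mul (by fun_prop)
    (Continuous.div (by fun_prop) (by fun_prop) fun _ => by positivity))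

lemma ph_ae {q : ℝ × ℝ × ℝ} (hq : q ≠ 0) : ∀ᵐ y : ℝ, ph q y ≠ 0 := by
  obtain ⟨a, b, c⟩ := q
  let P : Polynomial ℝ := Polynomial.C a * Polynomial.X ^ 4 +
    Polynomial.C (a + b - 2 * c) * Polynomial.X ^ 2 + Polynomial.C b
  have hP : P ≠ 0 := fun h => by
    have h4 := congrArg (Polynomial.coeff · 4) h
    have h2 := congrArg (Polynomial.coeff · 2) h
    have h0 := congrArg (Polynomial.coeff · 0) h
    simp only [P, Polynomial.coeff_add, Polynomial.coeff_C_mul, Polynomial.coeff_X_pow,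
      Polynomial.coeff_C, Polynomial.coeff_zero] at h4 h2 h0
    norm_num at h4 h2 h0
    exact hq (by rw [h4, h0, show c = 0 by linarith]; rfl)
  have hf := (Polynomial.finite_setOfPred_isRoot hP).preimage Real.exp_injective.injOn
  refine measure_mono_null (fun y hy => ?_) (hf.measure_zero volume)
  replace hy : ph (a, b, c) y = 0 := not_not.1 hy
  simp only [ph, Real.exp_neg] at hy
  simp only [P, Set.mem_preimage, Set.mem_ofPred_eq, Polynomial.IsRoot, Polynomial.eval_add,
    Polynomial.eval_mul, Polynomial.eval_C, Polynomial.eval_pow, Polynomial.eval_X]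
  have := Real.exp_pos y
  field_simp at hy
  linarith

lemma dini {ε : ℝ} (hε : 0 < ε) : ∃ m : ℝ, 1 ≤ m ∧ ∀ q ∈ Metric.sphere (0 : ℝ × ℝ × ℝ) 1,
    ∫ y in (0 : ℝ)..1, (1 + m * ph q y ^ 2)⁻¹ < ε := by
  have c : ∀ m : ℕ, Continuous fun z : (ℝ × ℝ × ℝ) × ℝ => (1 + m * ph z.1 z.2 ^ 2)⁻¹ := fun m =>
    Continuous.inv₀ (by have := ph_cont; fun_prop) fun _ => by positivity
  have c' : ∀ (m : ℕ) q, Continuous fun y => (1 + m * ph q y ^ 2)⁻¹ := fun m q =>
    (c m).comp (Continuous.prodMk_right q)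
  have := Antitone.tendstoUniformlyOn_of_forall_tendsto
    (F := fun (m : ℕ) q => ∫ y in (0 : ℝ)..1, (1 + m * ph q y ^ 2)⁻¹) (f := fun _ => 0)
    (isCompact_sphere (0 : ℝ × ℝ × ℝ) 1)
    (fun m => (intervalIntegral.continuous_parametric_intervalIntegral_of_continuous'
      (f := fun q y => (1 + m * ph q y ^ 2)⁻¹) (c m) 0 1).continuousOn)
    (fun q _ m n hmn => intervalIntegral.integral_mono_on zero_le_one
      ((c' n q).intervalIntegrable _ _) ((c' m q).intervalIntegrable _ _) fun y _ => by gcongr)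
    continuousOn_const fun q hq => by
      have := intervalIntegral.tendsto_integral_filter_of_dominated_convergence (μ := volume)
        (a := 0) (b := 1) (l := atTop) (F := fun (m : ℕ) y => (1 + m * ph q y ^ 2)⁻¹)
        (f := fun _ => 0) (fun _ => 1)
        (Eventually.of_forall fun m => (c' m q).aestronglyMeasurable)
        (Eventually.of_forall fun m => Eventually.of_forall fun y _ => by
          rw [Real.norm_of_nonneg (by positivity)]
          exact inv_le_one_of_one_le₀ (le_add_of_nonneg_right (by positivity)))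
        intervalIntegrable_const (by
          filter_upwards [ph_ae (q := q) (by rintro rfl; simp at hq)] with y hy _
          exact tendsto_inv_atTop_zero.comp (tendsto_atTop_add_const_left _ _
            (tendsto_natCast_atTop_atTop.atTop_mul_const (by positivity))))
      simpa using this
  obtain ⟨m, h1, h2⟩ := ((Metric.tendstoUniformlyOn_iff.1 this ε hε).and
    (eventually_ge_atTop 1)).exists
  refine ⟨m, by exact_mod_cast h2, fun q hq => ?_⟩
  have := h1 q hq
  rw [dist_zero_left] at this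
  exact (le_abs_self _).trans_lt this

noncomputable def chi (y : ℝ) (p : ℝ × ℝ) : ℂ :=
  cexp (I * ((p.1 * Real.exp y - p.2 * Real.exp (-y) : ℝ) : ℂ))

noncomputable def ww (y : ℝ) : ℂ := (I * Real.exp y - 1) / (I * Real.exp y + 1)

lemma chi_norm (y : ℝ) (p : ℝ × ℝ) : ‖chi y p‖ = 1 := by
  rw [chi, mul_comm, norm_exp_ofReal_mul_I]

lemma den1 (y : ℝ) : I * Real.exp y + 1 ≠ 0 := fun h => by simpa using congrArg re h

lemma den2 (y : ℝ) : I * Real.exp y - 1 ≠ 0 := fun h => by simpa using congrArg re h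

lemma ww_norm (y : ℝ) : ‖ww y‖ = 1 := by
  rw [ww, norm_div, div_eq_one_iff_eq (norm_ne_zero_iff.2 (den1 y)), ← norm_neg, ← norm_conj]
  congr 1
  simp only [neg_sub, map_sub, map_one, map_mul, conj_I, conj_ofReal]
  ring

lemma ww_deriv (y : ℝ) :
    HasDerivAt ww (-(I * (2 * Real.exp y / (1 + Real.exp y ^ 2) : ℝ)) * ww y) y := by
  have d : HasDerivAt (fun y : ℝ => I * (Real.exp y : ℂ)) (I * Real.exp y) y :=
    (Real.hasDerivAt_exp y).ofReal_comp.const_mul I
  refine ((d.sub_const 1).div (d.add_const 1) (den1 y)).congr_deriv ?_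
  have h1 := den1 y
  have h2 : (1 + (Real.exp y : ℂ) ^ 2) = -((I * Real.exp y - 1) * (I * Real.exp y + 1)) := by
    linear_combination (Real.exp y : ℂ) ^ 2 * I_sq
  have h3 := den2 y
  rw [ww, ofReal_div, ofReal_add, ofReal_pow, ofReal_one, h2, ofReal_mul, ofReal_ofNat]
  field_simp
  ring

lemma small {ε : ℝ} (hε : 0 < ε) :
    ∃ n : ℕ, ∀ p, ‖∫ y in (0 : ℝ)..1, chi y p * ww y ^ n‖ ≤ ε := by
  obtain ⟨m, hm, h1⟩ := dini (half_pos hε)
  obtain ⟨B, hB⟩ := ((isCompact_sphere (0 : ℝ × ℝ × ℝ) 1).prod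
    (isCompact_Icc (a := (0 : ℝ)) (b := 1))).exists_bound_of_continuousOn ph'_cont.continuousOn
  obtain ⟨n, hn⟩ := exists_nat_gt (|2 * m + m * B| / (ε / 2))
  have n0 : (0 : ℝ) < n := lt_of_le_of_lt (by positivity) hn
  refine ⟨n, fun p => ?_⟩
  let q : ℝ × ℝ × ℝ := (p.1, p.2, n)
  have q1 : (n : ℝ) ≤ ‖q‖ := by
    exact (le_abs_self _).trans ((norm_snd_le q.2).trans (norm_snd_le q))
  have q0 : 0 < ‖q‖ := n0.trans_le q1
  have q2 : ‖q‖⁻¹ • q ∈ Metric.sphere (0 : ℝ × ℝ × ℝ) 1 := by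
    simp [norm_smul, q0.ne']
  have q3 : ∀ y, ‖q‖ * ph (‖q‖⁻¹ • q) y = ph q y := fun y => by
    simp only [ph, Prod.smul_fst, Prod.smul_snd, smul_eq_mul]
    field_simp
  have := osc (h := fun y => chi y p * ww y ^ n) q0 hm (fun y => by
      have d1 : HasDerivAt (fun y => p.1 * Real.exp y - p.2 * Real.exp (-y))
          (p.1 * Real.exp y + p.2 * Real.exp (-y)) y :=
        (((Real.hasDerivAt_exp y).const_mul p.1).sub
          ((hasDerivAt_neg' y).exp.const_mul p.2)).congr_deriv (by ring)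
      refine (((d1.ofReal_comp.const_mul I).cexp).mul ((ww_deriv y).pow n)).congr_deriv ?_
      rw [mul_assoc I, ← ofReal_mul, q3]
      obtain ⟨k, rfl⟩ := Nat.exists_eq_succ_of_ne_zero (n := n) (by exact_mod_cast n0.ne')
      simp only [ph, chi, q, Pi.pow_apply, Nat.succ_sub_one, pow_succ (ww y)]
      push_cast
      ring)
    (fun y => by rw [norm_mul, norm_pow, chi_norm, ww_norm, one_pow, mul_one])
    (ph_deriv _) (ph'_cont.comp (Continuous.prodMk_right _)) fun y hy => hB (_, y) ⟨q2, hy⟩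
  have h2 : (2 * m + m * B) / ‖q‖ ≤ ε / 2 := by
    rw [div_lt_iff₀ (half_pos hε)] at hn
    rw [div_le_iff₀ q0]
    nlinarith [le_abs_self (2 * m + m * B)]
  linarith [h1 _ q2]

section
variable {E : Type*} [NormedAddCommGroup E] [NormedSpace ℂ E] [CompleteSpace E] {ι : Type*}
  (ev : ι → E →L[ℂ] ℂ) (T : ℝ → E →L[ℂ] E) (α : ι → ℂ)

lemma gen_iff (hs : ∀ f g, (∀ i, ev i f = ev i g) → f = g) (hc : ∀ f, Continuous fun t => T t f)
    (hT : ∀ t i f, ev i (T t f) = cexp (t * α i) * ev i f) (f g : E) :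
    Tendsto (fun t : ℝ => t⁻¹ • (T t f - f)) (𝓝[>] 0) (𝓝 g) ↔ ∀ i, ev i g = α i * ev i f := by
  have d : ∀ i (t : ℝ), HasDerivAt (fun t : ℝ => cexp (t * α i) * ev i f)
      (cexp (t * α i) * (α i * ev i f)) t := fun i t =>
    (((ofRealCLM.hasDerivAt (x := t)).mul_const (α i)).cexp.mul_const _).congr_deriv (by
      simp [mul_assoc])
  have hle : 𝓝[>] (0 : ℝ) ≤ 𝓝[≠] 0 := nhdsWithin_mono _ fun t ht => ne_of_gt ht
  constructor
  · intro h i
    have h1 := ((ev i).continuous.tendsto _).comp h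
    have h2 := (hasDerivAt_iff_tendsto_slope_zero.1 (d i 0)).mono_left hle
    refine tendsto_nhds_unique h1 ?_
    simpa [Function.comp_def, hT] using h2
  · intro h
    have e : ∀ t : ℝ, T t f - f = ∫ s in (0 : ℝ)..t, T s g := fun t => hs _ _ fun i => by
      rw [← (ev i).intervalIntegral_comp_comm ((hc g).intervalIntegrable _ _)]
      simp only [hT, h, map_sub]
      rw [intervalIntegral.integral_eq_sub_of_hasDerivAt (fun s _ => d i s)
        (Continuous.intervalIntegrable (by fun_prop) _ _)]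
      simp
    have h2 := (hasDerivAt_iff_tendsto_slope_zero.1 ((hc g).integral_hasStrictDerivAt 0
      0).hasDerivAt).mono_left hle
    have e0 : T 0 g = g := hs _ _ fun i => by simp [hT]
    simpa [e, e0] using h2

lemma exists_res (hc : ∀ f, Continuous fun t => T t f) (h1 : ∀ t f, ‖T t f‖ ≤ ‖f‖)
    (hT : ∀ t i f, ev i (T t f) = cexp (t * α i) * ev i f) (hα : ∀ i, (α i).re = 0) :
    ∃ R : E →L[ℂ] E, ∀ i f, (1 - α i) * ev i (R f) = ev i f := by
  have hb : ∀ f (t : ℝ), ‖cexp (-t) • T t f‖ ≤ Real.exp (-t) * ‖f‖ := fun f t => by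
    rw [norm_smul, norm_exp]
    simpa using mul_le_mul_of_nonneg_left (h1 t f) (Real.exp_pos (-t)).le
  have hi' : ∀ f : E, IntegrableOn (fun t : ℝ => Real.exp (-t) * ‖f‖) (Set.Ioi 0) := fun f =>
    (integrableOn_exp_neg_Ioi 0).mul_const _
  have hi : ∀ f, IntegrableOn (fun t : ℝ => cexp (-t) • T t f) (Set.Ioi 0) := fun f =>
    (hi' f).mono' (Continuous.aestronglyMeasurable (by have := hc f; fun_prop))
      (Eventually.of_forall (hb f))
  let L : E →ₗ[ℂ] E :=
    { toFun := fun f => ∫ t in Set.Ioi (0 : ℝ), cexp (-t) • T t f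
      map_add' := fun f g => by rw [← integral_add (hi f) (hi g)]; simp
      map_smul' := fun c f => by
        rw [RingHom.id_apply, ← integral_smul]
        simp only [map_smul, smul_comm c] }
  refine ⟨L.mkContinuous 1 fun f => (norm_integral_le_of_norm_le (hi' f)
    (Eventually.of_forall (hb f))).trans (by rw [integral_mul_const, integral_exp_neg_Ioi_zero]),
    fun i f => ?_⟩
  change (1 - α i) * ev i (∫ t in Set.Ioi (0 : ℝ), cexp (-t) • T t f) = _
  rw [← (ev i).integral_comp_comm (hi f)]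
  have e : ∀ t : ℝ, ev i (cexp (-t) • T t f) = cexp ((α i - 1) * t) * ev i f := fun t => by
    rw [map_smul, hT, smul_eq_mul, ← mul_assoc, ← Complex.exp_add]
    congr 2; ring
  have h0 : (α i - 1).re < 0 := by simp [hα]
  have h2 : α i - 1 ≠ 0 := fun h => by simp [h] at h0
  simp only [e, integral_mul_const, integral_exp_mul_complex_Ioi h0]
  simp only [ofReal_zero, mul_zero, Complex.exp_zero]
  field_simp
  ring

end

end Pool.Agent.Lib.H3Osc
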