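import Pool.Agent.Lib.helper3.PCore

namespace Pool.Agent.Lib.helper3.PS

open Filter Topology Classical

/-- The data of the construction. -/
structure Dat where
  /-- the twisted identity -/
  S : L (Ix × Ix) →L[ℂ] L (Ix × Ix)
  le : ∀ t, ‖S t‖ ≤ ‖t‖
  st : ∀ t, ad (S t) = S (ad t)

/-- The underlying space. -/
def Alg (_ : Dat) : Type := ℂ × L Ix × L Ix × L (Ix × Ix)

variable (d : Dat)

noncomputable instance : NormedAddCommGroup (Alg d) :=
  inferInstanceAs (NormedAddCommGroup (ℂ × L Ix × L Ix × L (Ix × Ix)))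

noncomputable instance : NormedSpace ℂ (Alg d) :=
  inferInstanceAs (NormedSpace ℂ (ℂ × L Ix × L Ix × L (Ix × Ix)))

instance : CompleteSpace (Alg d) :=
  inferInstanceAs (CompleteSpace (ℂ × L Ix × L Ix × L (Ix × Ix)))

variable {d}

/-- Constructor. -/
def mkA (d : Dat) (c : ℂ) (x v : L Ix) (w : L (Ix × Ix)) : Alg d := (c, x, v, w)

lemma extA {a b : Alg d} (h1 : a.1 = b.1) (h2 : a.2.1 = b.2.1) (h3 : a.2.2.1 = b.2.2.1)
    (h4 : a.2.2.2 = b.2.2.2) : a = b := Prod.ext h1 (Prod.ext h2 (Prod.ext h3 h4))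

noncomputable instance : Mul (Alg d) :=
  ⟨fun a b => mkA d (a.1 * b.1) (b.1 • a.2.1) (a.1 • b.2.2.1) (d.S (tn a.2.1 b.2.2.1))⟩

noncomputable instance : Star (Alg d) :=
  ⟨fun a => mkA d (star a.1) (star a.2.2.1) (star a.2.1) (ad a.2.2.2)⟩

lemma tn_add_l (x y v : L Ix) : tn (x + y) v = tn x v + tn y v := ext' fun p => by
  simp only [tn_ap, add_ap]; ring
lemma tn_add_r (x v y : L Ix) : tn x (v + y) = tn x v + tn x y := ext' fun p => by
  simp only [tn_ap, add_ap]; ring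
lemma tn_smul_l (c : ℂ) (x v : L Ix) : tn (c • x) v = c • tn x v := ext' fun p => by
  simp only [tn_ap, smul_ap]; ring
lemma tn_smul_r (c : ℂ) (x v : L Ix) : tn x (c • v) = c • tn x v := ext' fun p => by
  simp only [tn_ap, smul_ap]; ring
lemma tn_zero_l (v : L Ix) : tn 0 v = 0 := ext' fun p => by
  simp only [tn_ap, zero_ap]; ring
lemma tn_zero_r (v : L Ix) : tn v 0 = 0 := ext' fun p => by
  simp only [tn_ap, zero_ap]; ring

lemma normA (a : Alg d) : ‖a‖ = max ‖a.1‖ (max ‖a.2.1‖ (max ‖a.2.2.1‖ ‖a.2.2.2‖)) := rfl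

lemma n1 (a : Alg d) : ‖a.1‖ ≤ ‖a‖ := le_max_left _ _
lemma n2 (a : Alg d) : ‖a.2.1‖ ≤ ‖a‖ := (le_max_left _ _).trans (le_max_right _ _)
lemma n3 (a : Alg d) : ‖a.2.2.1‖ ≤ ‖a‖ :=
  ((le_max_left _ _).trans (le_max_right _ _)).trans (le_max_right _ _)

noncomputable instance : NonUnitalNormedRing (Alg d) :=
  { (inferInstance : NormedAddCommGroup (Alg d)), (inferInstance : Mul (Alg d)) with
    left_distrib := fun a b c => extA (mul_add a.1 b.1 c.1) (add_smul b.1 c.1 a.2.1)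
      (smul_add a.1 b.2.2.1 c.2.2.1)
      ((congrArg d.S (tn_add_r a.2.1 b.2.2.1 c.2.2.1)).trans (map_add d.S _ _))
    right_distrib := fun a b c => extA (add_mul a.1 b.1 c.1) (smul_add c.1 a.2.1 b.2.1)
      (add_smul a.1 b.1 c.2.2.1)
      ((congrArg d.S (tn_add_l a.2.1 b.2.1 c.2.2.1)).trans (map_add d.S _ _))
    zero_mul := fun a => extA (zero_mul a.1) (smul_zero a.1) (zero_smul ℂ a.2.2.1)
      ((congrArg d.S (tn_zero_l a.2.2.1)).trans (map_zero d.S))
    mul_zero := fun a => extA (mul_zero a.1) (zero_smul ℂ a.2.1) (smul_zero a.1)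
      ((congrArg d.S (tn_zero_r a.2.1)).trans (map_zero d.S))
    mul_assoc := fun a b c => extA (mul_assoc a.1 b.1 c.1)
      ((smul_smul c.1 b.1 a.2.1).trans (congrArg (· • a.2.1) (mul_comm c.1 b.1)))
      (smul_smul a.1 b.1 c.2.2.1).symm
      (congrArg d.S ((tn_smul_l b.1 a.2.1 c.2.2.1).trans (tn_smul_r b.1 a.2.1 c.2.2.1).symm))
    norm_mul_le := fun a b => by
      refine max_le ?_ (max_le ?_ (max_le ?_ ?_))
      · exact (norm_mul_le a.1 b.1).trans
          (mul_le_mul (n1 a) (n1 b) (norm_nonneg _) (norm_nonneg _))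
      · exact (norm_smul_le b.1 a.2.1).trans ((mul_le_mul (n1 b) (n2 a) (norm_nonneg _)
          (norm_nonneg _)).trans_eq (mul_comm _ _))
      · exact (norm_smul_le a.1 b.2.2.1).trans
          (mul_le_mul (n1 a) (n3 b) (norm_nonneg _) (norm_nonneg _))
      · exact (d.le _).trans ((tn_le _ _).trans
          (mul_le_mul (n2 a) (n3 b) (norm_nonneg _) (norm_nonneg _))) }

instance : IsScalarTower ℂ (Alg d) (Alg d) :=
  ⟨fun c a b => extA (mul_assoc c a.1 b.1) (smul_comm b.1 c a.2.1) (mul_smul c a.1 b.2.2.1)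
    ((congrArg d.S (tn_smul_l c a.2.1 b.2.2.1)).trans (map_smul d.S _ _))⟩

instance : SMulCommClass ℂ (Alg d) (Alg d) :=
  ⟨fun c a b => extA (mul_left_comm c a.1 b.1) (mul_smul c b.1 a.2.1).symm
    (smul_comm c a.1 b.2.2.1)
    ((congrArg d.S (tn_smul_r c a.2.1 b.2.2.1)).trans (map_smul d.S _ _)).symm⟩

noncomputable instance : StarRing (Alg d) where
  star_involutive a := extA (star_star a.1) (star_star a.2.1) (star_star a.2.2.1) (ad_ad _)
  star_mul a b := extA (star_mul a.1 b.1) (star_smul a.1 b.2.2.1) (star_smul b.1 a.2.1)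
    ((d.st _).trans (congrArg d.S (ad_tn _ _)))
  star_add a b := extA (star_add a.1 b.1) (star_add a.2.2.1 b.2.2.1) (star_add a.2.1 b.2.1)
    (ad_add _ _)

instance : StarModule ℂ (Alg d) :=
  ⟨fun c a => extA (star_smul c a.1) (star_smul c a.2.2.1) (star_smul c a.2.1) (ad_smul _ _)⟩

lemma norm_starA (a : Alg d) : ‖star a‖ = ‖a‖ := by
  have : Fact ((1 : ENNReal) ≤ 1) := ⟨le_rfl⟩
  change max ‖star a.1‖ (max ‖star a.2.2.1‖ (max ‖star a.2.1‖ ‖ad a.2.2.2‖)) = _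
  rw [norm_star, norm_star, norm_star, norm_ad, normA, max_left_comm ‖a.2.2.1‖]

/-- The corner embedding. -/
noncomputable def inW (d : Dat) : L (Ix × Ix) →L[ℂ] Alg d :=
  (ContinuousLinearMap.inr ℂ ℂ _).comp ((ContinuousLinearMap.inr ℂ (L Ix) _).comp
    (ContinuousLinearMap.inr ℂ (L Ix) _))

/-- The corner projection. -/
noncomputable def prW (d : Dat) : Alg d →ₗ[ℂ] L (Ix × Ix) :=
  (LinearMap.snd ℂ (L Ix) _).comp ((LinearMap.snd ℂ (L Ix) _).comp (LinearMap.snd ℂ ℂ _))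

lemma cube_top (hs : ∀ w, ∃ t ∈ R Ix, d.S t = w) :
    Submodule.span ℂ {y | ∃ a b c : Alg d, y = a * b * c} = ⊤ := by
  refine eq_top_iff.2 fun a _ => ?_
  set V := Submodule.span ℂ {y | ∃ a b c : Alg d, y = a * b * c}
  have hV : ∀ a b c : Alg d, a * b * c ∈ V := fun a b c => Submodule.subset_span ⟨a, b, c, rfl⟩
  have h1 : ∀ t ∈ R Ix, inW d (d.S t) ∈ V := fun t ht => by
    induction ht using Submodule.span_induction with
    | mem t h =>
      obtain ⟨x, v, rfl⟩ := h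
      convert hV (mkA d 0 x 0 0) (mkA d 1 0 0 0) (mkA d 0 0 v 0) using 1
      exact extA (by change (0 : ℂ) = 0 * 1 * 0; simp) (zero_smul ℂ _).symm
        (by change (0 : L Ix) = ((0 : ℂ) * 1) • v; simp)
        (congrArg (fun y => d.S (tn y v)) (one_smul ℂ x).symm)
    | zero => rw [map_zero, map_zero]; exact V.zero_mem
    | add s t _ _ hs ht => rw [map_add, map_add]; exact V.add_mem hs ht
    | smul c t _ ht => rw [map_smul, map_smul]; exact V.smul_mem c ht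
  obtain ⟨t, ht, h2⟩ := hs a.2.2.2
  have h3 := V.add_mem (V.add_mem
    (hV (mkA d a.1 a.2.1 0 0) (mkA d 1 0 0 0) (mkA d 1 0 0 0))
    (hV (mkA d 1 0 0 0) (mkA d 1 0 0 0) (mkA d 0 0 a.2.2.1 0))) (h1 t ht)
  convert h3 using 1
  refine extA ?_ ?_ ?_ ?_
  · change a.1 = a.1 * 1 * 1 + 1 * 1 * 0 + 0
    simp
  · change a.2.1 = (1 : ℂ) • (1 : ℂ) • a.2.1 + (0 : ℂ) • (1 : ℂ) • (0 : L Ix) + 0
    simp
  · change a.2.2.1 = (a.1 * 1) • (0 : L Ix) + ((1 : ℂ) * 1) • a.2.2.1 + 0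
    simp
  · change a.2.2.2 = d.S (tn ((1 : ℂ) • a.2.1) 0) + d.S (tn ((1 : ℂ) • (0 : L Ix)) a.2.2.1) + d.S t
    rw [tn_zero_r, smul_zero, tn_zero_l, map_zero, h2, zero_add, zero_add]

theorem main : ∃ (A : Type) (_ : NonUnitalNormedRing A) (_ : NormedSpace ℂ A)
    (_ : IsScalarTower ℂ A A) (_ : SMulCommClass ℂ A A) (_ : CompleteSpace A) (_ : StarRing A)
    (_ : StarModule ℂ A),
    (∀ a : A, ‖star a‖ = ‖a‖) ∧
    Submodule.span ℂ {y | ∃ a b : A, y = a * b} = ⊤ ∧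
    Submodule.span ℂ {y | ∃ a b c : A, y = a * b * c} = ⊤ ∧
    ∃ f : A →ₗ[ℂ] ℂ, (∀ a : A, 0 ≤ (f (star a * a)).re ∧ (f (star a * a)).im = 0) ∧
      ¬ Continuous f := by
  obtain ⟨S, f, γ, h1, h2, h3, h4, h5⟩ := core
  let d : Dat := ⟨S, h1, h2⟩
  refine ⟨Alg d, inferInstance, inferInstance, inferInstance, inferInstance, inferInstance,
    inferInstance, inferInstance, norm_starA, eq_top_iff.2 ((cube_top h3).ge.trans
      (Submodule.span_mono ?_)), cube_top h3, f.comp (prW d), fun a => ?_, fun hc => h5 ?_⟩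
  · rintro _ ⟨a, b, c, rfl⟩
    exact ⟨a * b, c, rfl⟩
  · have : f.comp (prW d) (star a * a) = star (a.2.2.1 γ) * a.2.2.1 γ :=
      h4 _ (tn_mem (star a.2.2.1) a.2.2.1)
    rw [this, Complex.star_def, mul_comm, Complex.mul_conj]
    exact ⟨by rw [Complex.ofReal_re]; exact Complex.normSq_nonneg _, Complex.ofReal_im _⟩
  · exact hc.comp (inW d).continuous

end Pool.Agent.Lib.helper3.PS
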