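import Pool.Agent.Lib.helper3.PT

namespace Pool.Agent.Lib.helper3.PS

open Filter Topology Classical

lemma not_all_mem {ι : Type} (g : ℕ → ι) (hg : Function.Injective g) : ∃ w, w ∉ R ι := by
  have hgg : Function.Injective fun k => (g k, g k) := fun _ _ h => hg (congrArg Prod.fst h)
  let f : ι × ι → ℂ := Function.extend (fun k => (g k, g k)) (fun k => (1 / 2 : ℂ) ^ k) 0
  have f1 : ∀ k, f (g k, g k) = (1 / 2 : ℂ) ^ k := fun k => hgg.extend_apply _ _ k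
  have f2 : ∀ p, p ∉ Set.range (fun k => (g k, g k)) → f p = 0 := fun p hp =>
    Function.extend_apply' _ _ _ hp
  have n1 : ∀ k : ℕ, ‖(1 / 2 : ℂ) ^ k‖ = (1 / 2 : ℝ) ^ k := fun k => by simp
  have hs : Summable fun p => ‖f p‖ := by
    refine (hgg.summable_iff fun p hp => by rw [f2 p hp, norm_zero]).1 ?_
    simp only [Function.comp_def, f1, n1]
    exact summable_geometric_two
  refine ⟨mk f hs, fun hR => ?_⟩
  obtain ⟨K, hK, hKt⟩ := entry_le hR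
  obtain ⟨k, hk⟩ := exists_pow_lt_of_lt_one (inv_pos.2 hK) (by norm_num : (1 / 2 : ℝ) < 1)
  have e1 : row (g k) (mk f hs) = (1 / 2 : ℂ) ^ k • e (g k) := ext' fun b => by
    rw [row_ap, mk_apply, smul_ap, e_ap]
    split_ifs with hb
    · rw [hb, f1, mul_one]
    · rw [mul_zero, f2]
      rintro ⟨j, hj⟩
      exact hb ((congrArg Prod.snd hj).symm.trans (congrArg Prod.fst hj))
  have e2 : col (g k) (mk f hs) = (1 / 2 : ℂ) ^ k • e (g k) := ext' fun b => by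
    rw [col_ap, mk_apply, smul_ap, e_ap]
    split_ifs with hb
    · rw [hb, f1, mul_one]
    · rw [mul_zero, f2]
      rintro ⟨j, hj⟩
      exact hb ((congrArg Prod.fst hj).symm.trans (congrArg Prod.snd hj))
  have h1 := hKt (g k) (g k)
  rw [e1, e2, mk_apply, f1, norm_smul, norm_e, n1, mul_one] at h1
  have h2 : (0 : ℝ) < (1 / 2) ^ k := by positivity
  have h3 : K * (1 / 2 : ℝ) ^ k < 1 := by
    have := mul_lt_mul_of_pos_left hk hK
    rwa [mul_inv_cancel₀ hK.ne'] at this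
  nlinarith

lemma herm_span {ι : Type} (V : Submodule ℂ (L (ι × ι)))
    (hV : ∀ w, ‖w‖ ≤ 1 → ad w = w → w ∈ V) (w : L (ι × ι)) : w ∈ V := by
  have h1 : ∀ w, ad w = w → w ∈ V := fun w hw => by
    have hp : (0 : ℝ) < ‖w‖ + 1 := by positivity
    have hc : ((‖w‖ + 1 : ℝ) : ℂ) ≠ 0 := Complex.ofReal_ne_zero.2 hp.ne'
    have := V.smul_mem ((‖w‖ + 1 : ℝ) : ℂ) (hV ((((‖w‖ + 1 : ℝ) : ℂ))⁻¹ • w) (by
      rw [norm_smul, norm_inv, Complex.norm_real, Real.norm_of_nonneg hp.le,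
        inv_mul_le_iff₀ hp]
      linarith) (by
      rw [ad_smul, hw, star_inv₀, Complex.star_def, Complex.conj_ofReal]))
    rwa [smul_smul, mul_inv_cancel₀ hc, one_smul] at this
  have h2 := h1 (w + ad w) (by rw [ad_add, ad_ad, add_comm])
  have h3 := h1 (Complex.I • w + (-Complex.I) • ad w) (by
    rw [ad_add, ad_smul, ad_smul, ad_ad, add_comm]; simp)
  have h4 := V.smul_mem (1 / 2 : ℂ) (V.add_mem h2 (V.smul_mem (-Complex.I) h3))
  convert h4 using 1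
  refine ext' fun p => ?_
  simp only [smul_ap, add_ap]
  linear_combination (1 / 2 * (w p - ad w p)) * Complex.I_mul_I

lemma core_abs {ι : Type} [LinearOrder ι] [WellFoundedLT ι] (g : ℕ → ι)
    (hg : Function.Injective g) {z : ι → L (ι × ι)} (h : ∀ γ, ‖z γ‖ ≤ 1)
    (hs : ∀ γ, Below γ (z γ)) (hh : ∀ γ, ad (z γ) = z γ)
    (hall : ∀ w, ‖w‖ ≤ 1 → ad w = w → ∃ γ, z γ = w) :
    ∃ (S : L (ι × ι) →L[ℂ] L (ι × ι)) (f : L (ι × ι) →ₗ[ℂ] ℂ) (γ : ι),
      (∀ t, ‖S t‖ ≤ ‖t‖) ∧ (∀ t, ad (S t) = S (ad t)) ∧ (∀ w, ∃ t ∈ R ι, S t = w) ∧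
      (∀ t ∈ R ι, f (S t) = t (γ, γ)) ∧ ¬ Continuous f := by
  obtain ⟨U, hU⟩ := exists_U h
  have hsurj : ∀ w, ∃ t ∈ R ι, T h U t = w := fun w => by
    refine herm_span ((R ι).map (T h U).toLinearMap) (fun w h1 h2 => ?_) w
    obtain ⟨γ, rfl⟩ := hall w h1 h2
    by_cases hγ : γ ∈ U
    · exact ⟨e (γ, γ), e_mem _, (T_e h U _).trans (by simp [av, hγ])⟩
    · rw [hU] at hγ
      push Not at hγ
      obtain ⟨t, ht, -, h3⟩ := hγ
      exact ⟨t, ht, h3⟩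
  have hne : U.Nonempty := by
    by_contra hne
    rw [Set.not_nonempty_iff_eq_empty] at hne
    obtain ⟨w, hw⟩ := not_all_mem g hg
    obtain ⟨t, ht, rfl⟩ := hsurj w
    have : T h U t = t := (T_hasSum h U t).unique (by simpa [av, hne] using hasSum_e t)
    exact hw (this.symm ▸ ht)
  let γ := wellFounded_lt.min U hne
  have hγ : γ ∈ U := wellFounded_lt.min_mem U hne
  let S0 : R ι →ₗ[ℂ] L (ι × ι) := (T h U).toLinearMap.comp (R ι).subtype
  have hb : Function.Bijective S0 :=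
    ⟨LinearMap.ker_eq_bot.1 (LinearMap.ker_eq_bot'.2 fun t ht =>
      Subtype.ext (T_inj h hs (fun γ hγ => (hU γ).1 hγ) t.2 ht)),
    fun w => let ⟨t, ht, h1⟩ := hsurj w; ⟨⟨t, ht⟩, h1⟩⟩
  let f : L (ι × ι) →ₗ[ℂ] ℂ := ((crd (γ, γ)).toLinearMap.comp (R ι).subtype).comp
    (LinearEquiv.ofBijective S0 hb).symm.toLinearMap
  have hf : ∀ t ∈ R ι, f (T h U t) = t (γ, γ) := fun t ht =>
    congrArg (fun s : R ι => s.1 (γ, γ)) ((LinearEquiv.ofBijective S0 hb).symm_apply_apply ⟨t, ht⟩)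
  refine ⟨T h U, f, γ, T_le h U, T_ad h hh U, hsurj, hf, fun hc => ?_⟩
  have h1 : f (z γ) = 1 := by
    have := hf _ (e_mem (γ, γ))
    rwa [T_e, e_ap, if_pos rfl, show av z U (γ, γ) = z γ by simp [av, hγ]] at this
  have h2 := (⟨f, hc⟩ : L (ι × ι) →L[ℂ] ℂ).hasSum (hasSum_e (z γ))
  change HasSum (fun p => f (z γ p • e p)) (f (z γ)) at h2
  rw [h1] at h2
  refine one_ne_zero (h2.unique ?_)
  convert hasSum_zero using 2 with p
  by_cases hp : z γ p = 0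
  · rw [hp, zero_smul, map_zero]
  · have h3 := (hs γ p hp).1
    have h4 : p.1 ∉ U := fun h' => wellFounded_lt.not_lt_min U h' h3
    have h5 := hf _ (e_mem p)
    rw [T_e, show av z U p = e p by simp [av, h4], e_ap,
      if_neg (fun h' => h3.ne (by rw [← h']))] at h5
    rw [map_smul, h5, smul_zero]

/-- The index set. -/
inductive Ix : Type
  | base : ℕ → Ix
  | new : (ℕ → Ix) → (ℕ × ℕ → ℂ) → Ix

/-- Predecessors. -/
def pr (a b : Ix) : Prop := ∃ p w n, b = Ix.new p w ∧ a = p n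

lemma pr_wf : WellFounded pr := ⟨fun a => by
  induction a with
  | base k => exact ⟨_, fun b ⟨_, _, _, h, _⟩ => by cases h⟩
  | new p w ih => exact ⟨_, fun b ⟨_, _, n, h, hb⟩ => by cases h; exact hb ▸ ih n⟩⟩

/-- Coding of hermitian elements. -/
def good (γ : Ix) (w : L (Ix × Ix)) : Prop := ∃ p w', γ = Ix.new p w' ∧ ‖w‖ ≤ 1 ∧ ad w = w ∧
  (∀ q, w q ≠ 0 → q.1 ∈ Set.range p ∧ q.2 ∈ Set.range p) ∧ ∀ i j, w (p i, p j) = w' (i, j)

lemma good_unique {γ : Ix} {w v : L (Ix × Ix)} (hw : good γ w) (hv : good γ v) : w = v := by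
  obtain ⟨p, w', rfl, -, -, h1, h2⟩ := hw
  obtain ⟨p', v', h, -, -, h3, h4⟩ := hv
  cases h
  refine ext' fun q => ?_
  by_cases hq : q.1 ∈ Set.range p ∧ q.2 ∈ Set.range p
  · obtain ⟨⟨i, hi⟩, ⟨j, hj⟩⟩ := hq
    rw [show q = (p i, p j) from Prod.ext hi.symm hj.symm, h2, h4]
  · rw [not_not.1 fun h => hq (h1 q h), not_not.1 fun h => hq (h3 q h)]

lemma exists_good (w : L (Ix × Ix)) (h1 : ‖w‖ ≤ 1) (h2 : ad w = w) : ∃ γ, good γ w := by
  have hc := (hasSum_nm w).summable.countable_support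
  obtain ⟨p, hp⟩ := (((hc.image Prod.fst).union (hc.image Prod.snd)).insert
    (Ix.base 0)).exists_eq_range (Set.insert_nonempty _ _)
  refine ⟨Ix.new p fun q => w (p q.1, p q.2), p, _, rfl, h1, h2, fun q hq => ?_, fun _ _ => rfl⟩
  rw [← hp]
  exact ⟨Or.inr (Or.inl ⟨q, norm_ne_zero_iff.2 hq, rfl⟩),
    Or.inr (Or.inr ⟨q, norm_ne_zero_iff.2 hq, rfl⟩)⟩

/-- The coded element. -/
noncomputable def zz (γ : Ix) : L (Ix × Ix) := if h : ∃ w, good γ w then h.choose else 0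

lemma zz_cases (γ : Ix) : good γ (zz γ) ∨ zz γ = 0 := by
  unfold zz
  split_ifs with h
  · exact Or.inl h.choose_spec
  · exact Or.inr rfl

lemma core : ∃ (S : L (Ix × Ix) →L[ℂ] L (Ix × Ix)) (f : L (Ix × Ix) →ₗ[ℂ] ℂ) (γ : Ix),
      (∀ t, ‖S t‖ ≤ ‖t‖) ∧ (∀ t, ad (S t) = S (ad t)) ∧ (∀ w, ∃ t ∈ R Ix, S t = w) ∧
      (∀ t ∈ R Ix, f (S t) = t (γ, γ)) ∧ ¬ Continuous f := by
  have : IsWellFounded Ix pr := ⟨pr_wf⟩
  obtain ⟨s, hs, hw⟩ := IsWellFounded.exists_well_order_ge pr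
  letI : LinearOrder Ix := linearOrderOfSTO s
  have : WellFoundedLT Ix := ⟨hw.wf⟩
  refine core_abs Ix.base (fun _ _ h => by cases h; rfl) (z := zz) (fun γ => ?_) (fun γ => ?_)
    (fun γ => ?_) fun w h1 h2 => ?_
  · rcases zz_cases γ with ⟨_, _, _, h, _⟩ | h
    · exact h
    · rw [h, norm_zero]; exact zero_le_one
  · rcases zz_cases γ with ⟨p, w', h1, -, -, h, -⟩ | h
    · intro q hq
      obtain ⟨⟨i, hi⟩, ⟨j, hj⟩⟩ := h q hq
      exact ⟨hs _ _ ⟨p, w', i, h1, hi.symm⟩, hs _ _ ⟨p, w', j, h1, hj.symm⟩⟩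
    · intro q hq
      exact absurd (by rw [h]; rfl) hq
  · rcases zz_cases γ with ⟨_, _, _, _, h, _⟩ | h
    · exact h
    · rw [h]; exact ext' fun p => by rw [ad_ap, zero_ap, zero_ap, star_zero]
  · obtain ⟨γ, hγ⟩ := exists_good w h1 h2
    refine ⟨γ, ?_⟩
    have h : ∃ w, good γ w := ⟨w, hγ⟩
    rw [zz, dif_pos h]
    exact good_unique h.choose_spec hγ

end Pool.Agent.Lib.helper3.PS
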