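import Mathlib

namespace Pool.Agent.Lib.helper3.PS

open Filter Topology Classical

/-- The space `ℓ¹(ι)`. -/
abbrev L (ι : Type) : Type := lp (fun _ : ι => ℂ) 1

variable {ι κ : Type}

/-- Constructor. -/
noncomputable def mk (f : ι → ℂ) (h : Summable fun i => ‖f i‖) : L ι :=
  ⟨f, memℓp_gen (by simpa using h)⟩

lemma mk_apply (f : ι → ℂ) (h : Summable fun i => ‖f i‖) (i : ι) : mk f h i = f i := rfl

lemma hasSum_nm (x : L ι) : HasSum (fun i => ‖x i‖) ‖x‖ := by
  have h := lp.hasSum_norm (E := fun _ : ι => ℂ) (p := 1) (by simp) x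
  simpa only [ENNReal.toReal_one, Real.rpow_one] using h

lemma ext' {x y : L ι} (h : ∀ i, x i = y i) : x = y := lp.ext (funext h)

lemma add_ap (x y : L ι) (i : ι) : (x + y) i = x i + y i := rfl
lemma sub_ap (x y : L ι) (i : ι) : (x - y) i = x i - y i := rfl
lemma smul_ap (c : ℂ) (x : L ι) (i : ι) : (c • x) i = c * x i := rfl
lemma zero_ap (i : ι) : (0 : L ι) i = 0 := rfl
lemma star_ap (x : L ι) (i : ι) : (star x) i = star (x i) := rfl

lemma ap_le (x : L ι) (i : ι) : ‖x i‖ ≤ ‖x‖ := lp.norm_apply_le_norm (by simp) x i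

/-- Coordinates. -/
noncomputable def crd (i : ι) : L ι →L[ℂ] ℂ := lp.evalCLM ℂ (fun _ : ι => ℂ) 1 i

lemma crd_ap (i : ι) (x : L ι) : crd i x = x i := rfl

/-- Unit vectors. -/
noncomputable def e (i : ι) : L ι := lp.single (E := fun _ : ι => ℂ) 1 i 1

lemma e_ap (i j : ι) : e i j = if j = i then 1 else 0 := by
  split_ifs with h
  · subst h; exact lp.single_apply_self (E := fun _ : ι => ℂ) 1 j 1
  · exact lp.single_apply_ne (E := fun _ : ι => ℂ) 1 i 1 h

lemma norm_e (i : ι) : ‖e i‖ = 1 :=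
  (lp.norm_single (E := fun _ : ι => ℂ) (p := 1) (by simp) i 1).trans norm_one

lemma hasSum_e (x : L ι) : HasSum (fun i => x i • e i) x := by
  have h := lp.hasSum_single (E := fun _ : ι => ℂ) (p := 1) (by simp) x
  have h2 : ∀ i, x i • e i = lp.single (E := fun _ : ι => ℂ) 1 i (x i) := fun i =>
    (lp.single_smul (E := fun _ : ι => ℂ) 1 i (x i) (1 : ℂ)).symm.trans
      (by rw [smul_eq_mul, mul_one])
  simp only [h2]
  exact h

section sumL
variable {Z : Type} [NormedAddCommGroup Z] [NormedSpace ℂ Z] [CompleteSpace Z]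

omit [CompleteSpace Z] in
lemma term_le {a : ι → Z} {C : ℝ} (h : ∀ i, ‖a i‖ ≤ C) (x : L ι) (i : ι) :
    ‖x i • a i‖ ≤ ‖x i‖ * C :=
  (norm_smul_le _ _).trans (mul_le_mul_of_nonneg_left (h i) (norm_nonneg _))

lemma term_summable {a : ι → Z} {C : ℝ} (h : ∀ i, ‖a i‖ ≤ C) (x : L ι) :
    Summable fun i => x i • a i :=
  Summable.of_norm_bounded ((hasSum_nm x).summable.mul_right C) (term_le h x)

/-- The operator on `ℓ¹` with given values on the unit vectors. -/
noncomputable def sumL (a : ι → Z) (C : ℝ) (h : ∀ i, ‖a i‖ ≤ C) : L ι →L[ℂ] Z :=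
  LinearMap.mkContinuous
    { toFun := fun x => ∑' i, x i • a i
      map_add' := fun x y => by
        rw [← (term_summable h x).tsum_add (term_summable h y)]
        simp only [add_ap, add_smul]
      map_smul' := fun c x => by
        rw [RingHom.id_apply, ← (term_summable h x).tsum_const_smul c]
        simp only [smul_ap, mul_smul] } C fun x =>
    (tsum_of_norm_bounded ((hasSum_nm x).mul_right C) (term_le h x)).trans_eq (mul_comm _ _)

lemma sumL_le (a : ι → Z) (C : ℝ) (h : ∀ i, ‖a i‖ ≤ C) (x : L ι) :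
    ‖sumL a C h x‖ ≤ C * ‖x‖ :=
  (tsum_of_norm_bounded ((hasSum_nm x).mul_right C) (term_le h x)).trans_eq (mul_comm _ _)

lemma sumL_hasSum (a : ι → Z) (C : ℝ) (h : ∀ i, ‖a i‖ ≤ C) (x : L ι) :
    HasSum (fun i => x i • a i) (sumL a C h x) := (term_summable h x).hasSum

lemma sumL_e (a : ι → Z) (C : ℝ) (h : ∀ i, ‖a i‖ ≤ C) (i : ι) :
    sumL a C h (e i) = a i := by
  change ∑' j, e i j • a j = _
  rw [tsum_eq_single i fun j hj => by rw [e_ap, if_neg hj, zero_smul], e_ap, if_pos rfl, one_smul]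

end sumL

/-- Pull-back along an injection. -/
noncomputable def pb (g : κ → ι) (hg : Function.Injective g) (x : L ι) : L κ :=
  mk (fun k => x (g k)) ((hasSum_nm x).summable.comp_injective hg)

lemma pb_ap (g : κ → ι) (hg : Function.Injective g) (x : L ι) (k : κ) : pb g hg x k = x (g k) :=
  rfl

lemma pb_le (g : κ → ι) (hg : Function.Injective g) (x : L ι) : ‖pb g hg x‖ ≤ ‖x‖ :=
  hasSum_le_inj g hg (fun _ _ => norm_nonneg _) (fun _ => le_rfl) (hasSum_nm (pb g hg x))
    (hasSum_nm x)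

/-- Restriction to a set of coordinates. -/
noncomputable def res (A : Set ι) : L ι →L[ℂ] L ι :=
  LinearMap.mkContinuous
    { toFun := fun x => mk (fun i => if i ∈ A then x i else 0)
        (Summable.of_nonneg_of_le (fun _ => norm_nonneg _)
          (fun i => by split_ifs <;> simp) (hasSum_nm x).summable)
      map_add' := fun x y => ext' fun i => by
        simp only [add_ap, mk_apply]; split_ifs <;> simp
      map_smul' := fun c x => ext' fun i => by
        simp only [smul_ap, mk_apply, RingHom.id_apply]; split_ifs <;> simp } 1 fun x => by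
    rw [one_mul]
    refine hasSum_le (fun i => ?_) (hasSum_nm _) (hasSum_nm x)
    change ‖if i ∈ A then x i else 0‖ ≤ _
    split_ifs <;> simp

lemma res_ap (A : Set ι) (x : L ι) (i : ι) : res A x i = if i ∈ A then x i else 0 := rfl

lemma res_le (A : Set ι) (x : L ι) : ‖res A x‖ ≤ ‖x‖ := by
  refine hasSum_le (fun i => ?_) (hasSum_nm _) (hasSum_nm x)
  rw [res_ap]
  split_ifs <;> simp

/-- Elementary tensors. -/
noncomputable def tn (x v : L ι) : L (ι × ι) :=
  mk (fun p => x p.1 * v p.2) (by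
    simp only [norm_mul]
    exact Summable.mul_of_nonneg (hasSum_nm x).summable (hasSum_nm v).summable
      (fun _ => norm_nonneg _) (fun _ => norm_nonneg _))

lemma tn_ap (x v : L ι) (p : ι × ι) : tn x v p = x p.1 * v p.2 := rfl

lemma tn_le (x v : L ι) : ‖tn x v‖ ≤ ‖x‖ * ‖v‖ := by
  have h := hasSum_nm (tn x v)
  simp only [tn_ap, norm_mul] at h
  exact le_of_eq (h.unique (HasSum.mul (hasSum_nm x) (hasSum_nm v) h.summable))

lemma tn_e (a b : ι) : tn (e a) (e b) = e (a, b) := ext' fun p => by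
  rw [tn_ap, e_ap, e_ap, e_ap]
  by_cases h1 : p.1 = a <;> by_cases h2 : p.2 = b <;> simp [h1, h2, Prod.ext_iff]

/-- Conjugate transpose. -/
noncomputable def ad (w : L (ι × ι)) : L (ι × ι) := star (pb Prod.swap Prod.swap_injective w)

lemma ad_ap (w : L (ι × ι)) (p : ι × ι) : ad w p = star (w p.swap) := rfl

lemma ad_ad (w : L (ι × ι)) : ad (ad w) = w := ext' fun p => by simp [ad_ap]

lemma ad_le (w : L (ι × ι)) : ‖ad w‖ ≤ ‖w‖ := by
  have : Fact ((1 : ENNReal) ≤ 1) := ⟨le_rfl⟩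
  rw [ad, norm_star]; exact pb_le _ _ _

lemma norm_ad (w : L (ι × ι)) : ‖ad w‖ = ‖w‖ :=
  le_antisymm (ad_le w) (by simpa only [ad_ad] using ad_le (ad w))

lemma ad_add (w w' : L (ι × ι)) : ad (w + w') = ad w + ad w' := ext' fun p => by
  simp [ad_ap]

lemma ad_smul (c : ℂ) (w : L (ι × ι)) : ad (c • w) = star c • ad w := ext' fun p => by
  simp [ad_ap]

lemma ad_tn (x v : L ι) : ad (tn x v) = tn (star v) (star x) := ext' fun p => by
  simp [ad_ap, tn_ap, mul_comm]

lemma ad_e (p : ι × ι) : ad (e p) = e p.swap := ext' fun q => by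
  rw [ad_ap, e_ap, e_ap]
  by_cases h : q = p.swap
  · simp [h]
  · rw [if_neg h, if_neg (fun h' => h (by rw [← h', Prod.swap_swap])), star_zero]

/-- Conjugate transpose as an additive map. -/
noncomputable def adH : L (ι × ι) →+ L (ι × ι) := AddMonoidHom.mk' ad ad_add

lemma hasSum_ad {f : κ → L (ι × ι)} {w : L (ι × ι)} (h : HasSum f w) :
    HasSum (fun k => ad (f k)) (ad w) :=
  h.map adH (AddMonoidHomClass.continuous_of_bound adH 1 fun x => by
    rw [one_mul]; exact ad_le x)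

/-- Rows. -/
noncomputable def row (a : ι) (t : L (ι × ι)) : L ι := pb (Prod.mk a) (Prod.mk_right_injective a) t

/-- Columns. -/
noncomputable def col (b : ι) (t : L (ι × ι)) : L ι :=
  pb (fun a => (a, b)) (Prod.mk_left_injective b) t

lemma row_ap (a b : ι) (t : L (ι × ι)) : row a t b = t (a, b) := rfl
lemma col_ap (a b : ι) (t : L (ι × ι)) : col b t a = t (a, b) := rfl

lemma hasSum_row (t : L (ι × ι)) : HasSum (fun a => ‖row a t‖) ‖t‖ :=
  (hasSum_nm t).prod_fiberwise fun a => hasSum_nm (row a t)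

/-- Finite-rank tensors. -/
noncomputable def R (ι : Type) : Submodule ℂ (L (ι × ι)) :=
  Submodule.span ℂ {t | ∃ x v : L ι, t = tn x v}

lemma tn_mem (x v : L ι) : tn x v ∈ R ι := Submodule.subset_span ⟨x, v, rfl⟩

lemma e_mem (p : ι × ι) : e p ∈ R ι := by
  rw [← tn_e p.1 p.2]; exact tn_mem _ _

lemma rows_fd {t : L (ι × ι)} (ht : t ∈ R ι) :
    ∃ V : Submodule ℂ (L ι), FiniteDimensional ℂ V ∧ ∀ a, row a t ∈ V := by
  induction ht using Submodule.span_induction with
  | mem t h =>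
    obtain ⟨x, v, rfl⟩ := h
    refine ⟨ℂ ∙ v, inferInstance, fun a => Submodule.mem_span_singleton.2 ⟨x a, ext' fun b => rfl⟩⟩
  | zero => exact ⟨⊥, inferInstance, fun a => (Submodule.mem_bot ℂ).2 (ext' fun b => rfl)⟩
  | add s t _ _ hs ht =>
    obtain ⟨V, hV, h1⟩ := hs
    obtain ⟨V', hV', h2⟩ := ht
    exact ⟨V ⊔ V', inferInstance, fun a =>
      (show row a (s + t) = row a s + row a t from ext' fun b => rfl) ▸
        Submodule.add_mem_sup (h1 a) (h2 a)⟩
  | smul c t _ ht =>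
    obtain ⟨V, hV, h1⟩ := ht
    exact ⟨V, hV, fun a =>
      (show row a (c • t) = c • row a t from ext' fun b => rfl) ▸ V.smul_mem c (h1 a)⟩

lemma dual_le {E : Type} [NormedAddCommGroup E] [NormedSpace ℂ E] [FiniteDimensional ℂ E]
    (r : ι → E) (hs : Summable fun a => ‖r a‖) (hr : Submodule.span ℂ (Set.range r) = ⊤) :
    ∃ K : ℝ, 0 < K ∧ ∀ (ψ : E →L[ℂ] ℂ) (y : L ι), (∀ a, y a = ψ (r a)) → ‖ψ‖ ≤ K * ‖y‖ := by
  let Λ : (E →L[ℂ] ℂ) →ₗ[ℂ] L ι :=
    { toFun := fun ψ => mk (fun a => ψ (r a)) (Summable.of_nonneg_of_le (fun _ => norm_nonneg _)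
        (fun a => ψ.le_opNorm (r a)) (hs.mul_left ‖ψ‖))
      map_add' := fun ψ ψ' => ext' fun a => rfl
      map_smul' := fun c ψ => ext' fun a => rfl }
  have hk : LinearMap.ker Λ = ⊥ := by
    refine LinearMap.ker_eq_bot'.2 fun ψ hψ => ContinuousLinearMap.coe_injective ?_
    refine LinearMap.ext_on hr ?_
    rintro _ ⟨a, rfl⟩
    exact congrArg (fun x : L ι => x a) hψ
  obtain ⟨K, hK0, hK⟩ := Λ.exists_antilipschitzWith hk
  refine ⟨K, hK0, fun ψ y hy => ?_⟩
  have := hK.le_mul_dist ψ 0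
  rwa [map_zero, dist_zero_right, dist_zero_right,
    show Λ ψ = y from ext' fun a => (hy a).symm] at this

lemma entry_le {t : L (ι × ι)} (ht : t ∈ R ι) :
    ∃ K : ℝ, 0 < K ∧ ∀ a b, ‖t (a, b)‖ ≤ K * ‖col b t‖ * ‖row a t‖ := by
  obtain ⟨V, hV, hr⟩ := rows_fd ht
  let V0 : Submodule ℂ (L ι) := Submodule.span ℂ (Set.range fun a => row a t)
  have : FiniteDimensional ℂ V0 := Submodule.finiteDimensional_of_le
    (show V0 ≤ V from Submodule.span_le.2 (by rintro _ ⟨a, rfl⟩; exact hr a))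
  let r : ι → V0 := fun a => ⟨row a t, Submodule.subset_span ⟨a, rfl⟩⟩
  have hsp : Submodule.span ℂ (Set.range r) = ⊤ := by
    apply Submodule.map_injective_of_injective V0.injective_subtype
    rw [Submodule.map_span, Submodule.map_top, Submodule.range_subtype, ← Set.range_comp]
    rfl
  obtain ⟨K, hK0, hK⟩ := dual_le (E := V0) r (hasSum_row t).summable hsp
  refine ⟨K, hK0, fun a b => ?_⟩
  let ψ : V0 →L[ℂ] ℂ := (crd b).comp V0.subtypeL
  exact (ψ.le_opNorm (r a)).trans
    (mul_le_mul_of_nonneg_right (hK ψ (col b t) fun _ => rfl) (norm_nonneg _))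

end Pool.Agent.Lib.helper3.PS
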