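import Pool.Agent.Lib.helper3.PL1

namespace Pool.Agent.Lib.helper3.PS

open Filter Topology Classical

variable {ι : Type}

/-- Values on unit vectors. -/
noncomputable def av (z : ι → L (ι × ι)) (U : Set ι) (p : ι × ι) : L (ι × ι) :=
  if p.1 = p.2 ∧ p.1 ∈ U then z p.1 else e p

lemma av_le {z : ι → L (ι × ι)} (h : ∀ γ, ‖z γ‖ ≤ 1) (U : Set ι) (p : ι × ι) : ‖av z U p‖ ≤ 1 := by
  unfold av
  split_ifs
  · exact h _
  · exact (norm_e p).le

/-- The twisted identity. -/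
noncomputable def T {z : ι → L (ι × ι)} (h : ∀ γ, ‖z γ‖ ≤ 1) (U : Set ι) :
    L (ι × ι) →L[ℂ] L (ι × ι) := sumL (av z U) 1 (av_le h U)

variable {z : ι → L (ι × ι)} (h : ∀ γ, ‖z γ‖ ≤ 1)

lemma T_le (U : Set ι) (t : L (ι × ι)) : ‖T h U t‖ ≤ ‖t‖ :=
  (sumL_le _ _ _ t).trans_eq (one_mul _)

lemma T_e (U : Set ι) (p : ι × ι) : T h U (e p) = av z U p := sumL_e ..

lemma T_hasSum (U : Set ι) (t : L (ι × ι)) : HasSum (fun p => t p • av z U p) (T h U t) :=
  sumL_hasSum ..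

lemma T_congr {U V : Set ι} (t : L (ι × ι)) (ht : ∀ γ, t (γ, γ) ≠ 0 → (γ ∈ U ↔ γ ∈ V)) :
    T h U t = T h V t := by
  refine (T_hasSum h U t).unique ?_
  convert T_hasSum h V t using 2 with p
  by_cases h0 : t p = 0
  · rw [h0, zero_smul, zero_smul]
  · obtain ⟨a, b⟩ := p
    unfold av
    by_cases hab : a = b
    · subst hab
      simp only [true_and, ht a h0]
    · simp only [hab, false_and, if_false]

lemma T_ad (hh : ∀ γ, ad (z γ) = z γ) (U : Set ι) (t : L (ι × ι)) :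
    ad (T h U t) = T h U (ad t) := by
  refine (hasSum_ad (T_hasSum h U t)).unique ?_
  have h2 := (Equiv.prodComm ι ι).hasSum_iff.2 (T_hasSum h U (ad t))
  convert h2 using 2 with p
  obtain ⟨a, b⟩ := p
  rw [ad_smul]
  change star (t (a, b)) • _ = star (t (a, b)) • av z U (b, a)
  congr 1
  unfold av
  by_cases hab : a = b
  · subst hab
    split_ifs
    · exact hh _
    · exact ad_e _
  · simp only [hab, Ne.symm hab, false_and, if_false]
    exact ad_e _

/-- Defects on the diagonal. -/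
noncomputable def D (z : ι → L (ι × ι)) (U : Set ι) (γ : ι) : L (ι × ι) :=
  e (γ, γ) - av z U (γ, γ)

include h in
lemma D_le (U : Set ι) (γ : ι) : ‖D z U γ‖ ≤ 2 :=
  (norm_sub_le _ _).trans (by have := av_le h U (γ, γ); rw [norm_e]; linarith)

lemma D_not {U : Set ι} {γ : ι} (hγ : γ ∉ U) : D z U γ = 0 := by
  simp [D, av, hγ]

lemma D_mem {U : Set ι} {γ : ι} (hγ : γ ∈ U) : D z U γ = e (γ, γ) - z γ := by
  simp [D, av, hγ]

lemma diag_inj : Function.Injective fun γ : ι => (γ, γ) := fun _ _ h => congrArg Prod.fst h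

lemma D_hasSum {U : Set ι} {t : L (ι × ι)} (ht : T h U t = 0) :
    HasSum (fun γ => t (γ, γ) • D z U γ) t := by
  have h1 := (hasSum_e t).sub (T_hasSum h U t)
  rw [ht, sub_zero] at h1
  have h2 := (diag_inj.hasSum_iff (f := fun p => t p • e p - t p • av z U p) (a := t)
    (fun p hp => by
      have : p.1 ≠ p.2 := fun h' => hp ⟨p.1, Prod.ext rfl h'⟩
      simp [av, this])).2 h1
  simpa only [Function.comp_def, D, smul_sub] using h2

variable [LinearOrder ι]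

/-- Support strictly below `γ`. -/
def Below (γ : ι) (t : L (ι × ι)) : Prop := ∀ p, t p ≠ 0 → p.1 < γ ∧ p.2 < γ

lemma D_ap (hs : ∀ γ, Below γ (z γ)) (U : Set ι) (γ : ι) (p : ι × ι) (hp : D z U γ p ≠ 0) :
    p = (γ, γ) ∨ (p.1 < γ ∧ p.2 < γ) := by
  by_cases hγ : γ ∈ U
  · rw [D_mem hγ, sub_ap, e_ap] at hp
    by_cases h1 : p = (γ, γ)
    · exact Or.inl h1
    · rw [if_neg h1, zero_sub, neg_ne_zero] at hp
      exact Or.inr (hs γ p hp)
  · exact absurd (by rw [D_not hγ]; rfl) hp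

lemma tail_zero (hs : ∀ γ, Below γ (z γ)) {U : Set ι} {t : L (ι × ι)} (hR : t ∈ R ι)
    (ht : T h U t = 0) : ∃ ε : ℝ, 0 < ε ∧ ∀ P : Set ι, IsUpperSet P →
      (∑' γ, if γ ∈ U ∧ γ ∈ P then ‖t (γ, γ)‖ else 0) < ε → ∀ γ ∈ U, γ ∈ P → t (γ, γ) = 0 := by
  obtain ⟨K, hK, hKt⟩ := entry_le hR
  refine ⟨1 / (4 * K), by positivity, fun P hP hlt => ?_⟩
  set c : ι → ℝ := fun γ => if γ ∈ U ∧ γ ∈ P then ‖t (γ, γ)‖ else 0 with hc
  have hc0 : ∀ γ, 0 ≤ c γ := fun γ => by simp only [hc]; split_ifs <;> simp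
  have hcs : Summable c := Summable.of_nonneg_of_le hc0
    (fun γ => by simp only [hc]; split_ifs <;> simp)
    ((hasSum_nm t).summable.comp_injective diag_inj)
  set s := ∑' γ, c γ with hsd
  have hs0 : 0 ≤ s := tsum_nonneg hc0
  set O : Set (ι × ι) := {p | p.1 ∈ P ∨ p.2 ∈ P} with hO
  set t' := res O t with ht'
  have h1 : ‖t'‖ ≤ s * 2 := by
    refine ((res O).hasSum (D_hasSum h ht)).norm_le_of_bounded (hcs.hasSum.mul_right 2)
      fun γ => ?_
    rw [map_smul]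
    by_cases hγ : γ ∈ U ∧ γ ∈ P
    · simp only [hc, if_pos hγ]
      exact (norm_smul_le _ _).trans (mul_le_mul_of_nonneg_left
        ((res_le _ _).trans (D_le h U γ)) (norm_nonneg _))
    · have : res O (D z U γ) = 0 := by
        by_cases hU : γ ∈ U
        · have hγP : γ ∉ P := fun h' => hγ ⟨hU, h'⟩
          refine ext' fun p => ?_
          rw [res_ap, zero_ap]
          split_ifs with hp
          · by_contra hne
            rcases D_ap hs U γ p hne with h' | h'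
            · subst h'; exact hγP (hp.elim id id)
            · exact hp.elim (fun h2 => hγP (hP h'.1.le h2)) (fun h2 => hγP (hP h'.2.le h2))
          · rfl
        · rw [D_not hU, map_zero]
      rw [this, smul_zero, norm_zero]
      exact mul_nonneg (hc0 γ) zero_le_two
  have h2 : s ≤ K * ‖t'‖ * ‖t'‖ := by
    refine hasSum_le (fun γ => ?_) hcs.hasSum ((hasSum_row t').mul_left (K * ‖t'‖))
    simp only [hc]
    split_ifs with hγ
    · have e1 : row γ t' = row γ t := ext' fun b => by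
        rw [row_ap, row_ap, ht', res_ap]; exact if_pos (Or.inl hγ.2)
      have e2 : col γ t' = col γ t := ext' fun b => by
        rw [col_ap, col_ap, ht', res_ap]; exact if_pos (Or.inr hγ.2)
      refine (hKt γ γ).trans ?_
      rw [e1, ← e2]
      exact mul_le_mul_of_nonneg_right (mul_le_mul_of_nonneg_left (pb_le _ _ _) hK.le)
        (norm_nonneg _)
    · positivity
  have h3 : s = 0 := by
    by_contra hne
    have hpos : 0 < s := lt_of_le_of_ne hs0 (Ne.symm hne)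
    have h4 : K * ‖t'‖ * ‖t'‖ ≤ K * (s * 2) * (s * 2) := by gcongr
    rw [lt_div_iff₀ (by positivity)] at hlt
    nlinarith
  intro γ hU hγP
  have h5 : c γ ≤ s := hcs.le_tsum γ fun b _ => hc0 b
  simp only [hc, hU, hγP, and_self, if_true, h3] at h5
  exact norm_le_zero_iff.1 h5

lemma exists_top (hs : ∀ γ, Below γ (z γ)) {U : Set ι} {t : L (ι × ι)} (hR : t ∈ R ι)
    (ht : T h U t = 0) (hne : t ≠ 0) :
    ∃ m ∈ U, t (m, m) ≠ 0 ∧ ∀ γ ∈ U, t (γ, γ) ≠ 0 → γ ≤ m := by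
  obtain ⟨ε, hε, hP⟩ := tail_zero h hs hR ht
  have hsum : Summable fun γ : ι => ‖t (γ, γ)‖ := (hasSum_nm t).summable.comp_injective diag_inj
  obtain ⟨F, hF⟩ := hsum.tsum_vanishing (Iio_mem_nhds hε)
  set G := F.filter fun γ => γ ∈ U ∧ t (γ, γ) ≠ 0 with hG
  have key : ∀ γ ∈ U, (∀ δ ∈ G, δ < γ) → t (γ, γ) = 0 := by
    refine hP {γ | ∀ δ ∈ G, δ < γ} (fun a b hab ha δ hδ => (ha δ hδ).trans_le hab) ?_
    have h1 := hF {γ | (γ ∈ U ∧ t (γ, γ) ≠ 0) ∧ ∀ δ ∈ G, δ < γ} (Set.disjoint_left.2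
      fun γ hγ hγF => lt_irrefl _ (hγ.2 γ (Finset.mem_filter.2 ⟨hγF, hγ.1⟩)))
    rw [tsum_subtype _ (fun γ : ι => ‖t (γ, γ)‖)] at h1
    refine lt_of_eq_of_lt (tsum_congr fun γ => ?_) h1
    rw [Set.indicator_apply]
    by_cases h0 : t (γ, γ) = 0
    · simp [h0]
    · simp [h0]
  have hG0 : G.Nonempty := by
    by_contra hG0
    rw [Finset.not_nonempty_iff_eq_empty] at hG0
    refine hne ((D_hasSum h ht).unique ?_)
    convert hasSum_zero using 2 with γ
    by_cases hγ : γ ∈ U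
    · rw [key γ hγ (by simp [hG0]), zero_smul]
    · rw [D_not hγ, smul_zero]
  obtain ⟨-, h1, h2⟩ := Finset.mem_filter.1 (G.max'_mem hG0)
  refine ⟨G.max' hG0, h1, h2, fun γ hγ h0 => ?_⟩
  by_contra hlt
  exact h0 (key γ hγ fun δ hδ => (G.le_max' δ hδ).trans_lt (not_le.1 hlt))

lemma T_inj (hs : ∀ γ, Below γ (z γ)) {U : Set ι}
    (hU : ∀ γ ∈ U, ∀ t ∈ R ι, Below γ t → T h U t ≠ z γ) {t : L (ι × ι)} (hR : t ∈ R ι)
    (ht : T h U t = 0) : t = 0 := by
  by_contra hne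
  obtain ⟨m, hm, h0, hmax⟩ := exists_top h hs hR ht hne
  have hb : ∀ p, p ≠ (m, m) → t p ≠ 0 → p.1 < m ∧ p.2 < m := by
    intro p hp htp
    by_contra hcon
    refine htp (((crd p).hasSum (D_hasSum h ht)).unique ?_)
    convert hasSum_zero using 2 with γ
    rw [map_smul, crd_ap]
    by_contra hne'
    have h1 : t (γ, γ) ≠ 0 := left_ne_zero_of_smul hne'
    have h2 : D z U γ p ≠ 0 := right_ne_zero_of_smul hne'
    have hγ : γ ∈ U := by
      by_contra hγ
      exact h2 (by rw [D_not hγ]; rfl)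
    have h3 := hmax γ hγ h1
    rcases D_ap hs U γ p h2 with h' | h'
    · subst h'
      have : γ < m := lt_of_le_of_ne h3 fun h'' => hp (by rw [h''])
      exact hcon ⟨this, this⟩
    · exact hcon ⟨h'.1.trans_le h3, h'.2.trans_le h3⟩
  refine hU m hm (e (m, m) - (t (m, m))⁻¹ • t) ((R ι).sub_mem (e_mem _) ((R ι).smul_mem _ hR))
    (fun p hp => ?_) ?_
  · rw [sub_ap, smul_ap, e_ap] at hp
    by_cases h1 : p = (m, m)
    · rw [if_pos h1, h1, inv_mul_cancel₀ h0, sub_self] at hp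
      exact absurd rfl hp
    · rw [if_neg h1, zero_sub, neg_ne_zero] at hp
      exact hb p h1 (right_ne_zero_of_mul hp)
  · rw [map_sub, map_smul, ht, smul_zero, sub_zero, T_e]
    simp [av, hm]

lemma exists_U [WellFoundedLT ι] : ∃ U : Set ι,
    ∀ γ, γ ∈ U ↔ ∀ t ∈ R ι, Below γ t → T h U t ≠ z γ := by
  let F : ∀ γ : ι, (∀ δ, δ < γ → Prop) → Prop := fun γ rc =>
    ∀ t ∈ R ι, Below γ t → T h {δ | ∃ hδ : δ < γ, rc δ hδ} t ≠ z γ
  let u : ι → Prop := wellFounded_lt.fix F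
  refine ⟨{γ | u γ}, fun γ => ?_⟩
  have hu : u γ = F γ fun δ _ => u δ := wellFounded_lt.fix_eq F γ
  change u γ ↔ _
  rw [hu]
  refine forall₃_congr fun t _ hb => ?_
  rw [T_congr h (U := {δ | ∃ _ : δ < γ, u δ}) (V := {γ | u γ}) t fun δ hδ =>
    ⟨fun h' => h'.2, fun h' => ⟨(hb _ hδ).1, h'⟩⟩]

end Pool.Agent.Lib.helper3.PS
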