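import Mathlib

set_option autoImplicit false

/-! Palindromic width of two-generator groups, and a rotation-number quasimorphism. -/

namespace Pool.Agent.Lib.H3Pal

open CircleDeg1Lift
open scoped commutatorElement

lemma fin_width {G : Type} [Group G] (a b : G) (h : Subgroup.closure {a, b} = ⊤) (g : G) :
    ∃ L : List (List G), L.length ≤ 3 ∧ (∀ w ∈ L, w.reverse = w ∧
      ∀ x ∈ w, x ∈ ({a, b, a * b} : Set G) ∨ x⁻¹ ∈ ({a, b, a * b} : Set G)) ∧
      (L.map List.prod).prod = g := by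
  let X : Set G := {a, b, a * b}
  let R : Subgroup (G × G) := Subgroup.closure ((fun x => (x, x⁻¹)) '' X)
  have r0 : ∀ x ∈ X, (x, x⁻¹) ∈ R := fun x hx => Subgroup.subset_closure ⟨x, hx, rfl⟩
  have r1 : ∀ p ∈ R, ∃ w : List G, (∀ x ∈ w, x ∈ X ∨ x⁻¹ ∈ X) ∧ w.prod = p.1 ∧
      w.reverse.prod = p.2⁻¹ := fun p hp => by
    induction hp using Subgroup.closure_induction_left with
    | one => exact ⟨[], by simp, rfl, by simp⟩
    | mul_left x hx y _ ih =>
      obtain ⟨x, hx, rfl⟩ := hx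
      obtain ⟨w, w1, w2, w3⟩ := ih
      exact ⟨x :: w, List.forall_mem_cons.2 ⟨.inl hx, w1⟩, by simp [w2], by simp [w3]⟩
    | inv_mul_cancel x hx y _ ih =>
      obtain ⟨x, hx, rfl⟩ := hx
      obtain ⟨w, w1, w2, w3⟩ := ih
      exact ⟨x⁻¹ :: w, List.forall_mem_cons.2 ⟨.inr (by simpa), w1⟩, by simp [w2], by simp [w3]⟩
  have r2 : ∀ g, g ∈ R.map (MonoidHom.snd G G) := fun g => by
    refine (h.ge.trans ((Subgroup.closure_le _).2 ?_)) trivial
    rintro x (rfl | rfl)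
    · exact ⟨_, R.inv_mem (r0 x (by simp [X])), inv_inv _⟩
    · exact ⟨_, R.inv_mem (r0 x (by simp [X])), inv_inv _⟩
  let N := R.comap (MonoidHom.inr G G)
  have : N.Normal := ⟨fun v hv g => by
    obtain ⟨p, hp, rfl⟩ := r2 g
    have := R.mul_mem (R.mul_mem hp hv) (R.inv_mem hp)
    exact (congrArg (· ∈ R) (Prod.ext (by simp) (by simp))).mp this⟩
  have c : Commute (a : G ⧸ N) b := by
    refine QuotientGroup.eq.2 ?_
    have := R.mul_mem (R.mul_mem (r0 (a * b) (by simp [X])) (R.inv_mem (r0 b (by simp [X]))))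
      (R.inv_mem (r0 a (by simp [X])))
    exact (congrArg (· ∈ R) (Prod.ext (by simp) (by simp [mul_assoc]))).mp this
  have e : ∃ m n : ℤ, ((a ^ m * b ^ n : G) : G ⧸ N) = g := by
    have hg : g ∈ Subgroup.closure {a, b} := h.ge trivial
    simp only [QuotientGroup.mk_mul, QuotientGroup.mk_zpow]
    induction hg using Subgroup.closure_induction with
    | mem x hx =>
      rcases hx with rfl | rfl
      exacts [⟨1, 0, by simp⟩, ⟨0, 1, by simp⟩]
    | one => exact ⟨0, 0, by simp⟩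
    | mul x y _ _ hx hy =>
      obtain ⟨m, n, h1⟩ := hx
      obtain ⟨k, l, h2⟩ := hy
      exact ⟨m + k, n + l, by
        rw [QuotientGroup.mk_mul, ← h1, ← h2, zpow_add, zpow_add,
          (c.zpow_zpow k n).mul_mul_mul_comm]⟩
    | inv x _ hx =>
      obtain ⟨m, n, h1⟩ := hx
      exact ⟨-m, -n, by
        rw [QuotientGroup.mk_inv, ← h1, (c.zpow_zpow m n).eq, mul_inv_rev, zpow_neg, zpow_neg]⟩
  obtain ⟨m, n, e⟩ := e
  obtain ⟨w, w1, w2, w3⟩ := r1 _ (N.inv_mem (QuotientGroup.eq.1 e))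
  have z : ∀ x ∈ X, ∀ m : ℤ, ∃ w : List G, (w.reverse = w ∧ ∀ x ∈ w, x ∈ X ∨ x⁻¹ ∈ X) ∧
      w.prod = x ^ m := fun x hx m => by
    obtain ⟨k, rfl | rfl⟩ := m.eq_nat_or_neg
    · exact ⟨.replicate k x, ⟨by simp, fun y hy => .inl (List.eq_of_mem_replicate hy ▸ hx)⟩,
        by simp⟩
    · exact ⟨.replicate k x⁻¹, ⟨by simp, fun y hy => .inr (by
        rwa [List.eq_of_mem_replicate hy, inv_inv])⟩, by simp⟩
  obtain ⟨u, u1, u2⟩ := z a (by simp [X]) m
  obtain ⟨v, v1, v2⟩ := z b (by simp [X]) n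
  refine ⟨[u, v, w ++ w.reverse], le_rfl, List.forall_mem_cons.2 ⟨u1, List.forall_mem_cons.2 ⟨v1,
    List.forall_mem_singleton.2 ⟨by simp, fun x hx => w1 x (by simpa using hx)⟩⟩⟩, ?_⟩
  simp [u2, v2, w2, w3, mul_assoc]

noncomputable def q (f : CircleDeg1Liftˣ) : ℝ := translationNumber f

lemma q_mul (f g : CircleDeg1Liftˣ) : |q (f * g)| ≤ |q f + q g| + 4 := by
  have h1 := dist_map_zero_translationNumber_le (f * g : CircleDeg1Liftˣ)
  have h2 := dist_map_zero_translationNumber_le f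
  have h3 := dist_map_zero_translationNumber_le g
  have h4 := (dist_map_map_zero_lt f g).le
  rw [Real.dist_eq, abs_le] at h1 h2 h3 h4
  simp only [Units.val_mul, mul_apply, q] at *
  rw [abs_le]
  constructor <;> linarith [h1.1, h1.2, h2.1, h2.2, h3.1, h3.2, h4.1, h4.2,
    le_abs_self (translationNumber f + translationNumber g),
    neg_abs_le (translationNumber f + translationNumber g)]

lemma q_conj (f g : CircleDeg1Liftˣ) : q (f * g * f⁻¹) = q g := translationNumber_conj_eq f g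

lemma q_inv (f : CircleDeg1Liftˣ) : q f⁻¹ = -q f := translationNumber_units_inv f

lemma q_list (l : List CircleDeg1Liftˣ) (h : ∀ f ∈ l, |q f| ≤ 4) : |q l.prod| ≤ 8 * l.length := by
  induction l with
  | nil => simp [q]
  | cons f l ih =>
    obtain ⟨h1, h2⟩ := List.forall_mem_cons.1 h
    rw [List.prod_cons, List.length_cons]
    push_cast
    linarith [q_mul f l.prod, abs_add_le (q f) (q l.prod), ih h2]

lemma q_pal (r : CircleDeg1Liftˣ) (w : List CircleDeg1Liftˣ) (h : ∀ x ∈ w, r * x * r⁻¹ = x⁻¹)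
    (hw : w.reverse = w) : q w.prod = 0 := by
  have e : r * w.prod * r⁻¹ = w.reverse.prod⁻¹ := by
    clear hw
    induction w with
    | nil => simp
    | cons x w ih =>
      obtain ⟨h1, h2⟩ := List.forall_mem_cons.1 h
      rw [List.reverse_cons, List.prod_append, List.prod_singleton, mul_inv_rev, ← ih h2, ← h1, List.prod_cons]
      group
  have := q_conj r w.prod
  rw [e, hw, q_inv] at this
  linarith

lemma exists_abr : ∃ a b r : CircleDeg1Liftˣ, r * a * r⁻¹ = a⁻¹ ∧ r * b * r⁻¹ = b⁻¹ ∧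
    q (a⁻¹ * b * a * b⁻¹) = -1 := by
  have sm : StrictMono fun x : ℝ => x + (Real.cos (2 * Real.pi * x) - 1) / 12 := fun x y h => by
    have := Real.abs_cos_sub_cos_le (2 * Real.pi * x) (2 * Real.pi * y)
    rw [← mul_sub, abs_mul, abs_of_pos Real.two_pi_pos, abs_of_neg (sub_neg.2 h), abs_le] at this
    nlinarith [Real.pi_lt_four, this.2]
  let h0 : CircleDeg1Lift := ⟨⟨_, sm.monotone⟩, fun x => by
    simp only [mul_add, mul_one, Real.cos_add_two_pi]; ring⟩
  obtain ⟨h, hh⟩ : IsUnit h0 := isUnit_iff_bijective.2 ⟨sm.injective,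
    (continuous_iff_surjective h0).1 (by
      change Continuous fun x : ℝ => x + (Real.cos (2 * Real.pi * x) - 1) / 12; fun_prop)⟩
  have h1 : h 0 = 0 := by rw [hh]; change 0 + (Real.cos (2 * Real.pi * 0) - 1) / 12 = _; simp
  have h2 : h (1 / 2) = 1 / 3 := by
    rw [hh]; change 1 / 2 + (Real.cos (2 * Real.pi * (1 / 2)) - 1) / 12 = _
    rw [show 2 * Real.pi * (1 / 2) = Real.pi by ring, Real.cos_pi]; norm_num
  have h3 : h⁻¹ 0 = 0 := by simpa [h1] using units_inv_apply_apply h 0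
  let t : ℝ → CircleDeg1Liftˣ := fun s => translate (.ofAdd s)
  have zc : ∀ f, f * t 1 = t 1 * f := fun f => Units.ext (ext fun x => map_one_add f.1 x)
  let r : ℝ → CircleDeg1Liftˣ := fun s => t s * h * t (1 / 2) * (t s * h)⁻¹
  have r2 : ∀ s, (r s)⁻¹ = r s * (t 1)⁻¹ := fun s => by
    have : t 1 = t (1 / 2) * t (1 / 2) := by
      rw [← map_mul, ← ofAdd_add, add_halves]
    rw [eq_mul_inv_iff_mul_eq, inv_mul_eq_iff_eq_mul, ← mul_inv_eq_iff_eq_mul.2 (zc (t s * h)), this]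
    simp only [r]
    group
  have r3 : ∀ s (m : ℤ), r s (s + m) = s + 1 / 3 + m := fun s m => by
    rw [map_add_int]
    simp only [r, t, mul_inv_rev, Units.val_mul, mul_apply, CircleDeg1Lift.translate_apply,
      translate_inv_apply,
      neg_add_cancel, h3, add_zero, h2]
  have r4 : ∀ s (m : ℤ), (r s)⁻¹ (s + m) = s + 1 / 3 + (m - 1 : ℤ) := fun s m => by
    rw [r2, ← r3]
    simp only [t, Units.val_mul, mul_apply, translate_inv_apply]
    congr 1; push_cast; ring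
  have k : ∀ s, r (2 / 3) * (r s * (r (2 / 3))⁻¹) * (r (2 / 3))⁻¹ = (r s * (r (2 / 3))⁻¹)⁻¹ :=
    fun s => by
      have e1 := r2 s
      have e2 : t 1 = r (2 / 3) * r (2 / 3) :=
        inv_mul_eq_iff_eq_mul.1 (eq_mul_inv_iff_mul_eq.1 (r2 _))
      generalize r (2 / 3) = R at *
      generalize r s = S at *
      rw [mul_inv_rev, inv_inv, e1, e2]
      group
  refine ⟨r (1 / 3) * (r (2 / 3))⁻¹, r 0 * (r (2 / 3))⁻¹, _, k _, k _, ?_⟩
  rw [show (r (1 / 3) * (r (2 / 3))⁻¹)⁻¹ * (r 0 * (r (2 / 3))⁻¹) * (r (1 / 3) * (r (2 / 3))⁻¹) *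
    (r 0 * (r (2 / 3))⁻¹)⁻¹ = r (2 / 3) * ((r (1 / 3))⁻¹ * (r 0 * ((r (2 / 3))⁻¹ *
      (r (1 / 3) * (r 0)⁻¹)))) by group]
  refine (translationNumber_of_eq_add_int _ (x := 0 + (0 : ℤ)) (m := -1) ?_).trans (by norm_num)
  simp only [Units.val_mul, mul_apply]
  rw [r4, zero_add, r3, show (1 / 3 + 1 / 3 : ℝ) = 2 / 3 by norm_num, r4,
    show (2 / 3 + 1 / 3 + (0 - 1 - 1 : ℤ) : ℝ) = 0 + (-1 : ℤ) by norm_num, r3, zero_add, r4,
    show (1 / 3 + 1 / 3 : ℝ) = 2 / 3 by norm_num, r3]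
  norm_num

lemma gen : Subgroup.closure {FreeGroup.of true, FreeGroup.of false} = ⊤ := by
  rw [← FreeGroup.closure_range_of]
  congr 1
  ext x
  simp [or_comm]

theorem main : ∃ φ : FreeGroup Bool →* CircleDeg1Liftˣ,
    (∀ w : List (FreeGroup Bool), (∀ x ∈ w, x ∈ ({.of true, .of false} : Set (FreeGroup Bool)) ∨
      x⁻¹ ∈ ({.of true, .of false} : Set (FreeGroup Bool))) → w.reverse = w → q (φ w.prod) = 0) ∧
    ∀ N : ℕ, ∃ g ∈ commutator (FreeGroup Bool), ∀ l : List (FreeGroup Bool), l.length ≤ N →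
      (∀ c ∈ l, |q (φ c)| ≤ 4) → l.prod ≠ g := by
  obtain ⟨a, b, r, h1, h2, h3⟩ := exists_abr
  let φ : FreeGroup Bool →* CircleDeg1Liftˣ := FreeGroup.lift fun i => cond i a b
  have e : ∀ x ∈ ({.of true, .of false} : Set (FreeGroup Bool)), r * φ x * r⁻¹ = (φ x)⁻¹ := by
    rintro _ (rfl | rfl) <;> simpa [φ]
  refine ⟨φ, fun w hw hr => ?_, fun N => ⟨⁅(FreeGroup.of true)⁻¹, FreeGroup.of false⁆ ^ (8 * N + 1),
    pow_mem (Subgroup.commutator_mem_commutator (Subgroup.mem_top _) (Subgroup.mem_top _)) _, fun l h4 h5 h6 => ?_⟩⟩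
  · rw [map_list_prod]
    refine q_pal r _ (List.forall_mem_map.2 fun x hx => (hw x hx).elim (e x) fun h => ?_)
      (by rw [← List.map_reverse, hr])
    have := congrArg (·⁻¹) (e _ h)
    simpa [mul_assoc] using this
  · have := q_list (l.map φ) (List.forall_mem_map.2 h5)
    rw [← map_list_prod, h6, map_pow, List.length_map, q, Units.val_pow_eq_pow_val,
      translationNumber_pow, show translationNumber (φ ⁅(FreeGroup.of true)⁻¹,
        FreeGroup.of false⁆ : CircleDeg1Liftˣ) = -1 by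
          simpa [commutatorElement_def, φ, q] using h3] at this
    have h7 : (l.length : ℝ) ≤ N := Nat.cast_le.2 h4
    push_cast at this
    linarith [(abs_le.1 this).1]

end Pool.Agent.Lib.H3Pal
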