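import Mathlib

set_option autoImplicit false

namespace Pool.Agent.Lib.helper3.Potapov

open MeasureTheory AddCircle Filter Topology InnerProductSpace Module
open scoped ComplexConjugate

noncomputable section

lemma lurk {F W : Type} [AddCommGroup F] [Module ℂ F] [NormedAddCommGroup W]
    [InnerProductSpace ℂ W] [FiniteDimensional ℂ W] (G1 G2 : F →ₗ[ℂ] W)
    (h : ∀ f, ‖G1 f‖ = ‖G2 f‖) : ∃ U : W ≃ₗᵢ[ℂ] W, ∀ f, U (G1 f) = G2 f := by
  have hk : LinearMap.ker G1 ≤ LinearMap.ker G2 := by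
    intro f hf
    rw [LinearMap.mem_ker] at hf ⊢
    rw [← norm_eq_zero, ← h, hf, norm_zero]
  let L : LinearMap.range G1 →ₗ[ℂ] W :=
    ((LinearMap.ker G1).liftQ G2 hk) ∘ₗ (G1.quotKerEquivRange.symm : LinearMap.range G1 →ₗ[ℂ] _)
  have hL : ∀ f, L ⟨G1 f, LinearMap.mem_range_self _ _⟩ = G2 f := by
    intro f
    simp only [L, LinearMap.comp_apply, LinearEquiv.coe_coe]
    rw [LinearMap.quotKerEquivRange_symm_apply_image]
    rfl
  let L' : LinearMap.range G1 →ₗᵢ[ℂ] W := ⟨L, by
    rintro ⟨_, f, rfl⟩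
    rw [hL, ← h]; rfl⟩
  refine ⟨L'.extend.toLinearIsometryEquiv rfl, fun f => ?_⟩
  have := L'.extend_apply ⟨G1 f, LinearMap.mem_range_self _ _⟩
  exact this.trans (hL f)

lemma geom_zero {a : ℂ} (ha : ‖a‖ < 1) (d : ℕ → ℂ) (M : ℝ) (hM : ∀ k, ‖d k‖ ≤ M)
    (h : ∀ k, d k = a * d (k + 1)) (k : ℕ) : d k = 0 := by
  have h1 : ∀ j, d k = a ^ j * d (k + j) := by
    intro j
    induction j with
    | zero => simp
    | succ j ih => rw [ih, h (k + j), pow_succ, mul_assoc, add_assoc]
  have h2 : Tendsto (fun j : ℕ => ‖a‖ ^ j * M) atTop (𝓝 0) := by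
    simpa using (tendsto_pow_atTop_nhds_zero_of_lt_one (norm_nonneg a) ha).mul_const M
  have h3 : ‖d k‖ ≤ 0 := ge_of_tendsto' h2 fun j => by
    rw [h1 j, norm_mul, norm_pow]
    exact mul_le_mul_of_nonneg_left (hM _) (by positivity)
  exact norm_le_zero_iff.1 h3

def bl (a z : ℂ) : ℂ := (z - a) / (1 - conj a * z)

def zz (t : UnitAddCircle) : ℂ := fourier 1 t

lemma norm_zz (t : UnitAddCircle) : ‖zz t‖ = 1 := by simp [zz]

lemma den_ne {a z : ℂ} (ha : ‖a‖ < 1) (hz : ‖z‖ = 1) : 1 - conj a * z ≠ 0 := by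
  intro h
  have : ‖conj a * z‖ = 1 := by rw [← sub_eq_zero.1 h, norm_one]
  rw [norm_mul, hz, Complex.norm_conj] at this
  linarith

lemma norm_bl {a z : ℂ} (ha : ‖a‖ < 1) (hz : ‖z‖ = 1) : ‖bl a z‖ = 1 := by
  have h0 := den_ne ha hz
  have h1 : z * conj z = 1 := by rw [Complex.mul_conj, Complex.normSq_eq_norm_sq, hz]; simp
  have : z - a = z * conj (1 - conj a * z) := by
    simp only [map_sub, map_one, map_mul, Complex.conj_conj]
    linear_combination a * h1
  rw [bl, norm_div, this, norm_mul, hz, Complex.norm_conj, one_mul, div_self]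
  exact norm_ne_zero_iff.2 h0

lemma cont_zz : Continuous zz := (fourier 1).continuous

lemma cont_bl {a : ℂ} (ha : ‖a‖ < 1) : Continuous fun t => bl a (zz t) :=
  (cont_zz.sub continuous_const).div (continuous_const.sub (continuous_const.mul cont_zz))
    fun t => den_ne ha (norm_zz t)

section coef
variable {V : Type} [NormedAddCommGroup V] [NormedSpace ℂ V]

lemma int_four {g : UnitAddCircle → V} (hg : Integrable g haarAddCircle) (m : ℤ) :
    Integrable (fun t => fourier m t • g t) haarAddCircle :=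
  hg.bdd_smul 1 (fourier m).continuous.aestronglyMeasurable
    (Eventually.of_forall fun t => by simp)

lemma coef_norm (g : UnitAddCircle → V) (m : ℤ) :
    ‖fourierCoeff g m‖ ≤ ∫ t, ‖g t‖ ∂haarAddCircle := by
  refine (norm_integral_le_integral_norm _).trans (le_of_eq ?_)
  simp [norm_smul]

lemma coef_clm {V' : Type} [NormedAddCommGroup V'] [NormedSpace ℂ V'] [CompleteSpace V]
    [CompleteSpace V'] (A : V →L[ℂ] V') {g : UnitAddCircle → V} (hg : Integrable g haarAddCircle)
    (m : ℤ) : fourierCoeff (fun t => A (g t)) m = A (fourierCoeff g m) := by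
  simp only [fourierCoeff]
  rw [← A.integral_comp_comm (int_four hg _)]
  simp

lemma coef_add {f g : UnitAddCircle → V} (hf : Integrable f haarAddCircle)
    (hg : Integrable g haarAddCircle) (m : ℤ) :
    fourierCoeff (fun t => f t + g t) m = fourierCoeff f m + fourierCoeff g m :=
  congrFun (fourierCoeff.add hf hg) m

lemma coef_sub {f g : UnitAddCircle → V} (hf : Integrable f haarAddCircle)
    (hg : Integrable g haarAddCircle) (m : ℤ) :
    fourierCoeff (fun t => f t - g t) m = fourierCoeff f m - fourierCoeff g m := by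
  simp only [fourierCoeff, smul_sub]
  exact integral_sub (int_four hf _) (int_four hg _)

lemma coef_zz (s : UnitAddCircle → ℂ) (m : ℤ) :
    fourierCoeff (fun t => zz t * s t) m = fourierCoeff s (m - 1) := by
  simp only [fourierCoeff, zz, smul_eq_mul]
  congr 1
  funext t
  rw [← mul_assoc, ← fourier_add, show -m + 1 = -(m - 1) by ring]

lemma coef_const [CompleteSpace V] (v : V) {m : ℤ} (hm : m ≠ 0) :
    fourierCoeff (fun _ : UnitAddCircle => v) m = 0 := by
  have h := congrFun (fourierCoeff_fourier (T := 1) 0) m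
  rw [Pi.single_eq_of_ne hm] at h
  simp only [fourierCoeff, fourier_zero, smul_eq_mul, mul_one] at h
  simp only [fourierCoeff]
  rw [integral_smul_const, h, zero_smul]

end coef

lemma int_bl {a : ℂ} (ha : ‖a‖ < 1) {s : UnitAddCircle → ℂ} (hs : Integrable s haarAddCircle) :
    Integrable (fun t => bl a (zz t) * s t) haarAddCircle :=
  hs.bdd_mul (c := 1) (cont_bl ha).aestronglyMeasurable
    (Eventually.of_forall fun t => (norm_bl ha (norm_zz t)).le)

lemma scal {a : ℂ} (ha : ‖a‖ < 1) {s : UnitAddCircle → ℂ} (hs : Integrable s haarAddCircle)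
    (τ : ℕ → ℂ) (M : ℝ) (hM : ∀ k, ‖τ k‖ ≤ M)
    (h : ∀ k : ℕ, τ k - conj a * τ (k + 1) =
      fourierCoeff s (-1 - (k + 1 : ℕ)) - a * fourierCoeff s (-1 - k)) (k : ℕ) :
    fourierCoeff (fun t => bl a (zz t) * s t) (-1 - k) = τ k := by
  set b : UnitAddCircle → ℂ := fun t => bl a (zz t) * s t with hb
  have hbi : Integrable b haarAddCircle := int_bl ha hs
  have hz : ∀ {f : UnitAddCircle → ℂ}, Integrable f haarAddCircle →
      Integrable (fun t => zz t * f t) haarAddCircle := fun hf => int_four hf 1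
  have key : ∀ m : ℤ, fourierCoeff b m - conj a * fourierCoeff b (m - 1) =
      fourierCoeff s (m - 1) - a * fourierCoeff s m := by
    intro m
    rw [← coef_zz, ← coef_zz, ← fourierCoeff.const_mul, ← fourierCoeff.const_mul,
      ← coef_sub hbi ((hz hbi).const_mul _), ← coef_sub (hz hs) (hs.const_mul _)]
    congr 1
    funext t
    have h0 := div_mul_cancel₀ (zz t - a) (den_ne ha (norm_zz t))
    simp only [hb, bl]
    linear_combination (s t) * h0
  have := geom_zero (a := conj a) (by rwa [Complex.norm_conj])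
    (fun k => fourierCoeff b (-1 - k) - τ k) (∫ t, ‖b t‖ ∂haarAddCircle + M)
    (fun k => (norm_sub_le _ _).trans (add_le_add (coef_norm _ _) (hM k)))
    (fun k => by
      have h1 := key (-1 - k)
      have h2 := h k
      have e : (-1 - (k : ℤ) - 1) = -1 - ((k + 1 : ℕ) : ℤ) := by push_cast; ring
      rw [e] at h1
      linear_combination h1 - h2) k
  exact sub_eq_zero.1 this

variable {E : Type} [NormedAddCommGroup E] [InnerProductSpace ℂ E]

def fac (p : ℂ × E) (z : ℂ) : E →L[ℂ] E :=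
  bl p.1 z • rankOne ℂ p.2 p.2 + (1 - rankOne ℂ p.2 p.2)

lemma fac_apply (p : ℂ × E) (z : ℂ) (v : E) :
    fac p z v = v + (bl p.1 z * inner ℂ p.2 v - inner ℂ p.2 v) • p.2 := by
  simp only [fac, _root_.add_apply, _root_.smul_apply, _root_.sub_apply, one_apply_eq_self,
    rankOne_apply, smul_smul, sub_smul]
  abel

lemma norm_upd {w : E} (hw : ‖w‖ = 1) (v : E) (c : ℂ) :
    ‖v + (c - inner ℂ w v) • w‖ ^ 2 = ‖v‖ ^ 2 - ‖inner ℂ w v‖ ^ 2 + ‖c‖ ^ 2 := by
  rw [@norm_add_sq ℂ, inner_smul_right, norm_smul, hw, mul_one, ← inner_conj_symm v w]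
  set s := inner ℂ w v
  simp only [Complex.sq_norm, Complex.normSq_apply, RCLike.re_to_complex, Complex.mul_re,
    Complex.sub_re, Complex.sub_im, Complex.conj_re, Complex.conj_im]
  ring

def Good (p : ℂ × E) : Prop := ‖p.1‖ < 1 ∧ ‖p.2‖ = 1

lemma fac_norm {p : ℂ × E} (hp : Good p) {z : ℂ} (hz : ‖z‖ = 1) (v : E) : ‖fac p z v‖ = ‖v‖ := by
  have := norm_upd hp.2 v (bl p.1 z * inner ℂ p.2 v)
  rw [← fac_apply, norm_mul, norm_bl hp.1 hz, one_mul, sub_add_cancel] at this
  exact (pow_left_inj₀ (norm_nonneg _) (norm_nonneg _) two_ne_zero).1 this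

lemma fac_cont {p : ℂ × E} (hp : Good p) : Continuous fun t => fac p (zz t) :=
  ((cont_bl hp.1).smul continuous_const).add continuous_const

lemma fac_int {p : ℂ × E} (hp : Good p) {g : UnitAddCircle → E} (hg : Integrable g haarAddCircle) :
    Integrable (fun t => fac p (zz t) (g t)) haarAddCircle := by
  simp only [fac_apply]
  have h1 : Integrable (fun t => inner ℂ p.2 (g t)) haarAddCircle := hg.const_inner _
  exact hg.add (((int_bl hp.1 h1).sub h1).smul_const _)

lemma fac_coef [CompleteSpace E] {p : ℂ × E} (hp : Good p) {g : UnitAddCircle → E}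
    (hg : Integrable g haarAddCircle) (τ : ℕ → ℂ) (M : ℝ) (hM : ∀ k, ‖τ k‖ ≤ M)
    (h : ∀ k : ℕ, τ k - conj p.1 * τ (k + 1) =
      inner ℂ p.2 (fourierCoeff g (-1 - (k + 1 : ℕ))) - p.1 * inner ℂ p.2 (fourierCoeff g (-1 - k)))
    (k : ℕ) : fourierCoeff (fun t => fac p (zz t) (g t)) (-1 - k) =
      fourierCoeff g (-1 - k) + (τ k - inner ℂ p.2 (fourierCoeff g (-1 - k))) • p.2 := by
  have h1 : Integrable (fun t => inner ℂ p.2 (g t)) haarAddCircle := hg.const_inner _
  have h2 : ∀ m, fourierCoeff (fun t => inner ℂ p.2 (g t)) m = inner ℂ p.2 (fourierCoeff g m) :=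
    fun m => coef_clm (innerSL ℂ p.2) hg m
  simp only [fac_apply]
  have h5 : Integrable (fun t => bl p.1 (zz t) * inner ℂ p.2 (g t) - inner ℂ p.2 (g t))
      haarAddCircle := (int_bl hp.1 h1).sub h1
  rw [coef_add hg (h5.smul_const _)]
  congr 1
  have h3 := coef_clm (ContinuousLinearMap.toSpanSingleton ℂ p.2) h5 (-1 - k)
  simp only [ContinuousLinearMap.toSpanSingleton_apply] at h3
  rw [h3]
  congr 1
  have h4 := coef_sub (int_bl hp.1 h1) h1 (-1 - k)
  rw [scal hp.1 h1 τ M hM (fun k => by rw [h2, h2]; exact h k), h2] at h4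
  exact h4

def BP (L : List (ℂ × E)) (z : ℂ) : E →L[ℂ] E := (L.map fun p => fac p z).prod

lemma BP_cons (p : ℂ × E) (L : List (ℂ × E)) (z : ℂ) : BP (p :: L) z = fac p z * BP L z := by
  simp [BP]

lemma BP_snoc (p : ℂ × E) (L : List (ℂ × E)) (z : ℂ) : BP (L ++ [p]) z = BP L z * fac p z := by
  simp [BP]

lemma BP_norm {L : List (ℂ × E)} (hL : ∀ p ∈ L, Good p) {z : ℂ} (hz : ‖z‖ = 1) (v : E) :
    ‖BP L z v‖ = ‖v‖ := by
  induction L with
  | nil => simp [BP]
  | cons p L ih =>
    rw [BP_cons, mul_apply_eq_comp, fac_norm (hL p (by simp)) hz,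
      ih fun q hq => hL q (by simp [hq])]

lemma BP_cont {L : List (ℂ × E)} (hL : ∀ p ∈ L, Good p) : Continuous fun t => BP L (zz t) := by
  induction L with
  | nil => simpa [BP] using continuous_const
  | cons p L ih =>
    simp only [BP_cons]
    exact (fac_cont (hL p (by simp))).mul (ih fun q hq => hL q (by simp [hq]))

lemma BP_anal [CompleteSpace E] {L : List (ℂ × E)} (hL : ∀ p ∈ L, Good p) (v : E) (k : ℕ) :
    fourierCoeff (fun t => BP L (zz t) v) (-1 - k) = 0 := by
  induction L generalizing k with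
  | nil => simpa [BP] using coef_const v (m := -1 - k) (by omega)
  | cons p L ih =>
    have hL' : ∀ q ∈ L, Good q := fun q hq => hL q (by simp [hq])
    have hi : Integrable (fun t => BP L (zz t) v) haarAddCircle :=
      ((BP_cont hL').clm_apply continuous_const).integrable_of_hasCompactSupport
        (HasCompactSupport.of_compactSpace _)
    have := fac_coef (hL p (by simp)) hi (fun _ => 0) 0 (by simp) (fun k => by
      rw [ih hL', ih hL']; simp) k
    rw [ih hL'] at this
    simpa [BP_cons, mul_apply_eq_comp] using this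

theorem core [FiniteDimensional ℂ E] (r : ℕ) : ∀ (R : Type) [NormedAddCommGroup R]
    [InnerProductSpace ℂ R] [FiniteDimensional ℂ R], finrank ℂ R = r →
    ∀ (F : Type) [AddCommGroup F] [Module ℂ F] (σ : Module.End ℂ F) (x : F →ₗ[ℂ] R)
      (u y : F →ₗ[ℂ] E), Function.Surjective x →
      (∀ f, ‖x f‖ ^ 2 + ‖y f‖ ^ 2 = ‖x (σ f)‖ ^ 2 + ‖u f‖ ^ 2) →
      (∀ f, Tendsto (fun k => x ((σ ^ k) f)) atTop (𝓝 0)) →
      ∃ (ν : E ≃ₗᵢ[ℂ] E) (L : List (ℂ × E)), L.length = r ∧ (∀ p ∈ L, Good p) ∧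
        ∀ (f : F) (g : UnitAddCircle → E), Integrable g haarAddCircle →
          (∀ k : ℕ, u ((σ ^ k) f) = fourierCoeff g (-1 - k)) →
          ∀ k : ℕ, y ((σ ^ k) f) = fourierCoeff (fun t => ν (BP L (zz t) (g t))) (-1 - k) := by
  have : CompleteSpace E := FiniteDimensional.complete ℂ E
  induction r with
  | zero =>
    intro R _ _ _ hr F _ _ σ x u y _ hen _
    have : Subsingleton R := finrank_zero_iff.1 hr
    obtain ⟨ν, hν⟩ := lurk u y fun f => by
      have := hen f
      rw [Subsingleton.elim (x f) 0, Subsingleton.elim (x (σ f)) 0] at this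
      exact ((pow_left_inj₀ (norm_nonneg _) (norm_nonneg _) two_ne_zero).1 (by linarith)).symm
    refine ⟨ν, [], rfl, by simp, fun f g hg h k => ?_⟩
    rw [← hν, h]
    exact (coef_clm (ν : E →L[ℂ] E) hg _).symm
  | succ r ih =>
    intro R _ _ _ hr F _ _ σ x u y hx hen hlim
    have : Nontrivial R := Module.nontrivial_of_finrank_eq_succ hr
    let W := WithLp 2 (R × E)
    let pr : (F →ₗ[ℂ] R) → (F →ₗ[ℂ] E) → (F →ₗ[ℂ] W) := fun a b =>
      (WithLp.linearEquiv 2 ℂ (R × E)).symm.toLinearMap ∘ₗ a.prod b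
    have hpr : ∀ a b f, pr a b f = WithLp.toLp 2 (a f, b f) := fun a b f => rfl
    obtain ⟨U, hU⟩ := lurk (pr (x ∘ₗ σ) u) (pr x y) fun f => by
      refine (pow_left_inj₀ (norm_nonneg _) (norm_nonneg _) two_ne_zero).1 ?_
      rw [WithLp.prod_norm_sq_eq_of_L2, WithLp.prod_norm_sq_eq_of_L2]
      exact (hen f).symm
    let A : Module.End ℂ R := LinearMap.fst ℂ R E ∘ₗ (WithLp.linearEquiv 2 ℂ (R × E)).toLinearMap ∘ₗ
      U.symm.toLinearEquiv.toLinearMap ∘ₗ (WithLp.linearEquiv 2 ℂ (R × E)).symm.toLinearMap ∘ₗ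
      LinearMap.inl ℂ R E
    obtain ⟨l, hl⟩ := Module.End.exists_eigenvalue A
    obtain ⟨e0, he0⟩ := hl.exists_hasEigenvector
    set e : R := (‖e0‖⁻¹ : ℂ) • e0 with he
    have he1 : ‖e‖ = 1 := by
      rw [he, norm_smul, norm_inv, Complex.norm_real, norm_norm,
        inv_mul_cancel₀ (norm_ne_zero_iff.2 he0.2)]
    have hAe : A e = l • e := by rw [he, map_smul, he0.apply_eq_smul, smul_comm]
    set q : W := U.symm (WithLp.toLp 2 (e, 0)) with hq
    have hq1 : q.fst = l • e := hAe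
    set β : E := q.snd with hβ
    have hn : ‖l‖ ^ 2 + ‖β‖ ^ 2 = 1 := by
      have h1 : ‖q‖ ^ 2 = 1 := by
        rw [hq, U.symm.norm_map, WithLp.prod_norm_sq_eq_of_L2]; simp [he1]
      rw [WithLp.prod_norm_sq_eq_of_L2, hq1, norm_smul, he1, mul_one] at h1
      exact h1
    have hrec : ∀ f, inner ℂ e (x f) = conj l * inner ℂ e (x (σ f)) + inner ℂ β (u f) := by
      intro f
      have h1 : inner ℂ q (pr (x ∘ₗ σ) u f) = inner ℂ (WithLp.toLp 2 (e, (0 : E))) (pr x y f) := by
        rw [← U.inner_map_map, hq, U.apply_symm_apply, hU]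
      rw [WithLp.prod_inner_apply, WithLp.prod_inner_apply] at h1
      change inner ℂ q.fst (x (σ f)) + inner ℂ β (u f) = inner ℂ e (x f) + inner ℂ 0 (y f) at h1
      rw [hq1, inner_smul_left, inner_zero_left, add_zero] at h1
      exact h1.symm
    have hlim' : ∀ f, Tendsto (fun k => inner ℂ e (x ((σ ^ k) f))) atTop (𝓝 0) := fun f => by
      simpa using (tendsto_const_nhds (x := e)).inner (𝕜 := ℂ) (hlim f)
    have hβ0 : β ≠ 0 := by
      intro h0
      rw [h0, norm_zero] at hn
      have hl1 : ‖l‖ = 1 := by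
        have := norm_nonneg l
        nlinarith
      obtain ⟨f, hf⟩ := hx e
      have h1 : ∀ k, ‖inner ℂ e (x ((σ ^ k) f))‖ = 1 := by
        intro k
        induction k with
        | zero => simp [hf, he1]
        | succ k ih =>
          rw [hrec, h0, inner_zero_left, add_zero, norm_mul, Complex.norm_conj, hl1, one_mul] at ih
          rw [pow_succ', Module.End.mul_apply]
          exact ih
      have h2 := (hlim' f).norm
      simp only [h1, norm_zero] at h2
      exact one_ne_zero (tendsto_const_nhds_iff.1 h2)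
    have hρ : 0 < ‖β‖ := norm_pos_iff.2 hβ0
    set ρ : ℂ := (‖β‖ : ℂ) with hρdef
    have hρ0 : ρ ≠ 0 := by rw [hρdef]; exact_mod_cast hρ.ne'
    set w : E := ρ⁻¹ • β with hw
    have hw1 : ‖w‖ = 1 := by
      rw [hw, norm_smul, norm_inv, hρdef, Complex.norm_real, norm_norm, inv_mul_cancel₀ hρ.ne']
    have hβw : ∀ v, inner ℂ β v = ρ * inner ℂ w v := by
      intro v
      rw [hw, inner_smul_left, map_inv₀, hρdef, Complex.conj_ofReal, ← mul_assoc,
        mul_inv_cancel₀ hρ0, one_mul]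
    have hl1 : ‖l‖ < 1 := by
      have := norm_nonneg l
      nlinarith
    have hlρ : l * conj l + ρ ^ 2 = 1 := by
      rw [Complex.mul_conj, Complex.normSq_eq_norm_sq, hρdef]
      exact_mod_cast hn
    have hgood : Good (l, w) := ⟨hl1, hw1⟩
    have : Fact (finrank ℂ R = r + 1) := ⟨hr⟩
    have he0' : e ≠ 0 := by rintro h; rw [h, norm_zero] at he1; exact zero_ne_one he1
    let K : Submodule ℂ R := (ℂ ∙ e)ᗮ
    let x' : F →ₗ[ℂ] K := K.orthogonalProjectionOnto.toLinearMap ∘ₗ x
    let τ : F →ₗ[ℂ] ℂ := ρ • ((innerSL ℂ e).toLinearMap ∘ₗ x ∘ₗ σ) - l • ((innerSL ℂ w).toLinearMap ∘ₗ u)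
    have hτ : ∀ f, τ f = ρ * inner ℂ e (x (σ f)) - l * inner ℂ w (u f) := fun f => rfl
    let u' : F →ₗ[ℂ] E := u + (τ - (innerSL ℂ w).toLinearMap ∘ₗ u).smulRight w
    have hu' : ∀ f, u' f = u f + (τ f - inner ℂ w (u f)) • w := fun f => rfl
    have hx' : ∀ f, ‖x f‖ ^ 2 = ‖inner ℂ e (x f)‖ ^ 2 + ‖x' f‖ ^ 2 := by
      intro f
      rw [Submodule.norm_sq_eq_add_norm_sq_projection (x f) (ℂ ∙ e)]
      congr 2
      show ‖(ℂ ∙ e).starProjection (x f)‖ = _
      rw [Submodule.starProjection_unit_singleton ℂ he1, norm_smul, he1, mul_one]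
    obtain ⟨ν, L, h1, h2, h3⟩ := ih K (Submodule.finrank_orthogonal_span_singleton he0') F σ x' u' y
      (fun a => by
        obtain ⟨f, hf⟩ := hx a
        exact ⟨f, by simp [x', hf]⟩)
      (fun f => by
        have a1 := hen f
        rw [hx' f, hx' (σ f)] at a1
        rw [hu', norm_upd hw1]
        have a2 : ‖inner ℂ e (x f)‖ ^ 2 + ‖τ f‖ ^ 2 =
            ‖inner ℂ e (x (σ f))‖ ^ 2 + ‖inner ℂ w (u f)‖ ^ 2 := by
          rw [hrec f, hβw, hτ]
          set a := inner ℂ e (x (σ f))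
          set b := inner ℂ w (u f)
          have hc : conj ρ = ρ := by rw [hρdef, Complex.conj_ofReal]
          have : ((‖conj l * a + ρ * b‖ ^ 2 + ‖ρ * a - l * b‖ ^ 2 : ℝ) : ℂ) =
              ((‖a‖ ^ 2 + ‖b‖ ^ 2 : ℝ) : ℂ) := by
            simp only [← Complex.normSq_eq_norm_sq, Complex.ofReal_add, ← Complex.mul_conj,
              map_add, map_sub, map_mul, Complex.conj_conj, hc]
            linear_combination (a * conj a + b * conj b) * hlρ
          exact_mod_cast this
        linarith)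
      (fun f => by
        have := (K.orthogonalProjectionOnto.continuous.tendsto 0).comp (hlim f)
        simpa [x', Function.comp_def] using this)
    refine ⟨ν, L ++ [(l, w)], by simp [h1], fun p hp => ?_, fun f g hg h k => ?_⟩
    · rcases List.mem_append.1 hp with hp | hp
      · exact h2 p hp
      · rw [List.mem_singleton.1 hp]; exact hgood
    · simp only [BP_snoc, mul_apply_eq_comp]
      refine h3 f _ (fac_int hgood hg) (fun k => ?_) k
      obtain ⟨M, hM⟩ := (hlim' f).norm.bddAbove_range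
      have hM' : ∀ k, ‖inner ℂ e (x ((σ ^ k) f))‖ ≤ M := fun k => hM ⟨k, rfl⟩
      have hs : ∀ k, σ ((σ ^ k) f) = (σ ^ (k + 1)) f := fun k => by
        rw [pow_succ', Module.End.mul_apply]
      rw [fac_coef hgood hg (fun k => τ ((σ ^ k) f)) (‖ρ‖ * M + ‖l‖ * ∫ t, ‖g t‖ ∂haarAddCircle)
        (fun k => ?_) (fun k => ?_) k, hu', h]
      · rw [hτ, hs, h]
        refine (norm_sub_le _ _).trans (add_le_add ?_ ?_)
        · rw [norm_mul]; exact mul_le_mul_of_nonneg_left (hM' _) (norm_nonneg _)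
        · rw [norm_mul]
          refine mul_le_mul_of_nonneg_left ((norm_inner_le_norm _ _).trans ?_) (norm_nonneg _)
          rw [hw1, one_mul]; exact coef_norm _ _
      · have a1 := hrec ((σ ^ (k + 1)) f)
        rw [hβw] at a1
        simp only [hτ, ← h, hs] at a1 ⊢
        rw [a1]
        linear_combination (inner ℂ w (u ((σ ^ (k + 1)) f))) * hlρ

lemma det_fac {n : ℕ} (p : ℂ × EuclideanSpace ℂ (Fin n)) (hp : ‖p.2‖ = 1) (z : ℂ) :
    (fac p z).det = bl p.1 z := by
  let b := EuclideanSpace.basisFun (Fin n) ℂ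
  have e : fac p z = 1 + rankOne ℂ ((bl p.1 z - 1) • p.2) p.2 := by
    ext1 v
    simp only [fac_apply, _root_.add_apply, one_apply_eq_self, rankOne_apply, smul_smul]
    congr 2; ring
  rw [ContinuousLinearMap.det, ← LinearMap.det_toMatrix b.toBasis, e,
    ContinuousLinearMap.toLinearMap_add, map_add, InnerProductSpace.toMatrix_rankOne,
    ContinuousLinearMap.toLinearMap_one, LinearMap.toMatrix_one,
    Matrix.vecMulVec_eq Unit, Matrix.det_one_add_replicateCol_mul_replicateRow]
  have h : inner ℂ p.2 ((bl p.1 z - 1) • p.2) = bl p.1 z - 1 := by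
    rw [inner_smul_right, inner_self_eq_norm_sq_to_K, hp]; simp
  rw [EuclideanSpace.inner_eq_star_dotProduct, dotProduct_comm] at h
  have h' : star (b.repr p.2).ofLp ⬝ᵥ ⇑(b.toBasis.repr ((bl p.1 z - 1) • p.2)) = bl p.1 z - 1 := by
    refine Eq.trans ?_ h
    congr 1
  rw [h']; ring

lemma det_BP {n : ℕ} {L : List (ℂ × EuclideanSpace ℂ (Fin n))} (hL : ∀ p ∈ L, Good p) (z : ℂ) :
    (BP L z).det = (L.map fun p => bl p.1 z).prod := by
  induction L with
  | nil => simp [BP, ContinuousLinearMap.det]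
  | cons p L ih =>
    rw [BP_cons, List.map_cons, List.prod_cons, ← ih fun q hq => hL q (by simp [hq]),
      ← det_fac p (hL p (by simp)).2 z]
    simp only [ContinuousLinearMap.det, ContinuousLinearMap.toLinearMap_mul, map_mul]

end

end Pool.Agent.Lib.helper3.Potapov
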