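import Pool.Agent.Lib.helper3.PAlg

namespace Pool.Agent.Lib.helper3.SX

open Filter Topology Classical OnePoint

variable {A : Type} [NonUnitalNormedRing A] [NormedSpace ℂ A] [IsScalarTower ℂ A A]
  [SMulCommClass ℂ A A]

/-- A faithful representation in a semisimple unital Banach algebra. -/
structure Rep (A : Type) [NonUnitalNormedRing A] [NormedSpace ℂ A] (B : Type) [NormedRing B]
    [NormedAlgebra ℂ B] where
  /-- the map -/
  th : A →L[ℂ] B
  mul : ∀ a b, th (a * b) = th a * th b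
  inj : ∀ a, th a = 0 → a = 0
  ss : ∀ T : B, (∀ S : B, ∃ W : B, W * S * T + W - 1 = 0) → T = 0

variable {B : Type} [NormedRing B] [NormedAlgebra ℂ B] (ρ : Rep A B)

/-- The extension algebra. -/
def Ex : NonUnitalSubalgebra ℂ (A × C(OnePoint ℕ, B)) where
  carrier := {p | p.2 ∞ = ρ.th p.1}
  add_mem' {p q} hp hq := by
    change p.2 ∞ + q.2 ∞ = ρ.th (p.1 + q.1)
    rw [map_add, hp, hq]
  zero_mem' := (map_zero (ρ.th)).symm
  mul_mem' {p q} hp hq := by
    change p.2 ∞ * q.2 ∞ = ρ.th (p.1 * q.1)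
    rw [ρ.mul, hp, hq]
  smul_mem' c p hp := by
    change c • p.2 ∞ = ρ.th (c • p.1)
    rw [_root_.map_smul, hp]

lemma Ex_closed : IsClosed (Ex ρ : Set (A × C(OnePoint ℕ, B))) :=
  isClosed_eq ((continuous_eval_const ∞).comp continuous_snd)
    ((ρ.th).continuous.comp continuous_fst)

instance [CompleteSpace A] [CompleteSpace B] : CompleteSpace (Ex ρ) :=
  (Ex_closed ρ).completeSpace_coe

noncomputable instance : NormedSpace ℂ (Ex ρ) where
  norm_smul_le c a := norm_smul_le c a.1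

/-- The lift by constants. -/
noncomputable def hat : A →ₗ[ℂ] Ex ρ where
  toFun a := ⟨(a, ContinuousMap.const _ (ρ.th a)), rfl⟩
  map_add' a b := Subtype.ext (Prod.ext rfl (ContinuousMap.ext fun _ => map_add (ρ.th) a b))
  map_smul' c a := Subtype.ext (Prod.ext rfl (ContinuousMap.ext fun _ => _root_.map_smul (ρ.th) c a))

lemma hat_mul (a b : A) : hat ρ (a * b) = hat ρ a * hat ρ b :=
  Subtype.ext (Prod.ext rfl (ContinuousMap.ext fun _ => ρ.mul a b))

lemma hat_le (a : A) : ‖hat ρ a‖ ≤ (‖ρ.th‖ + 1) * ‖a‖ := by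
  refine max_le (le_mul_of_one_le_left (norm_nonneg a)
    (le_add_of_nonneg_left (norm_nonneg ρ.th))) ?_
  refine (ContinuousMap.norm_le _ (by positivity)).2 fun _ => ((ρ.th).le_opNorm a).trans ?_
  nlinarith [norm_nonneg a]

/-- Null sequences. -/
noncomputable def nul (k : ℕ → B) (h : Tendsto k atTop (𝓝 0)) : Ex ρ :=
  ⟨(0, continuousMapMkNat k 0 h), (map_zero (ρ.th)).symm⟩

lemma sq_top (h : Submodule.span ℂ {y | ∃ a b : A, y = a * b} = ⊤) :
    Submodule.span ℂ {y | ∃ a b : Ex ρ, y = a * b} = ⊤ := by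
  refine eq_top_iff.2 fun p _ => ?_
  set V := Submodule.span ℂ {y | ∃ a b : Ex ρ, y = a * b}
  have h1 : ∀ a : A, hat ρ a ∈ V := fun a => by
    have ha : a ∈ Submodule.span ℂ {y | ∃ a b : A, y = a * b} := h ▸ Submodule.mem_top
    induction ha using Submodule.span_induction with
    | mem t h =>
      obtain ⟨x, v, rfl⟩ := h
      exact Submodule.subset_span ⟨_, _, hat_mul ρ x v⟩
    | zero => rw [map_zero]; exact V.zero_mem
    | add s t _ _ hs ht => rw [map_add]; exact V.add_mem hs ht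
    | smul c t _ ht => rw [_root_.map_smul]; exact V.smul_mem c ht
  let k : ℕ → B := fun n => p.1.2 n - ρ.th p.1.1
  have hk : Tendsto k atTop (𝓝 0) := by
    have := ((continuous_iff_from_nat p.1.2).1 p.1.2.continuous).sub_const (ρ.th p.1.1)
    rwa [show p.1.2 ∞ = ρ.th p.1.1 from p.2, sub_self] at this
  have hr : Tendsto (fun n => √‖k n‖) atTop (𝓝 0) := by
    simpa using (tendsto_zero_iff_norm_tendsto_zero.1 hk).sqrt
  have hk1 : Tendsto (fun n => ((√‖k n‖ : ℝ) : ℂ)⁻¹ • k n) atTop (𝓝 0) := by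
    refine squeeze_zero_norm (fun n => ?_) hr
    rw [norm_smul, norm_inv, Complex.norm_real, Real.norm_of_nonneg (Real.sqrt_nonneg _),
      inv_mul_eq_div, Real.div_sqrt]
  have hk2 : Tendsto (fun n => ((√‖k n‖ : ℝ) : ℂ) • (1 : B)) atTop (𝓝 0) := by
    simpa using ((Complex.continuous_ofReal.tendsto 0).comp hr).smul_const (1 : B)
  have h2 : p = hat ρ p.1.1 + nul ρ _ hk1 * nul ρ _ hk2 := by
    refine Subtype.ext (Prod.ext ?_ (ContinuousMap.ext fun n => ?_))
    · change p.1.1 = p.1.1 + 0 * 0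
      rw [mul_zero, add_zero]
    · induction n using OnePoint.rec with
      | infty =>
        change p.1.2 ∞ = ρ.th p.1.1 + 0 * 0
        rw [mul_zero, add_zero]
        exact p.2
      | coe n =>
        change p.1.2 n = ρ.th p.1.1 +
          (((√‖k n‖ : ℝ) : ℂ)⁻¹ • k n) * (((√‖k n‖ : ℝ) : ℂ) • (1 : B))
        rw [mul_smul_comm, mul_one, smul_smul]
        by_cases h0 : k n = 0
        · rw [h0, smul_zero, add_zero]
          exact sub_eq_zero.1 h0
        · rw [mul_inv_cancel₀ (Complex.ofReal_ne_zero.2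
            (Real.sqrt_ne_zero'.2 (norm_pos_iff.2 h0))), one_smul]
          exact (add_sub_cancel _ _).symm
  rw [h2]
  exact V.add_mem (h1 _) (Submodule.subset_span ⟨_, _, rfl⟩)

/-- Evaluation. -/
noncomputable def ev (n : OnePoint ℕ) : Ex ρ →ₙₐ[ℂ] B where
  toFun p := p.1.2 n
  map_smul' _ _ := rfl
  map_zero' := rfl
  map_add' _ _ := rfl
  map_mul' _ _ := rfl

lemma semisimple (p : Ex ρ)
    (h : (p : Unitization ℂ (Ex ρ)) ∈ Ideal.jacobson (⊥ : Ideal (Unitization ℂ (Ex ρ)))) :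
    p = 0 := by
  simp only [Ideal.mem_jacobson_iff, Ideal.mem_bot] at h
  have h1 : ∀ n : ℕ, p.1.2 n = 0 := fun n => by
    refine ρ.ss _ fun S => ?_
    have hb : Tendsto (fun j : ℕ => if j = n then S else 0) atTop (𝓝 0) :=
      tendsto_const_nhds.congr' ((eventually_gt_atTop n).mono fun j hj => (if_neg hj.ne').symm)
    obtain ⟨z, hz⟩ := h (nul ρ _ hb : Ex ρ)
    have h2 := congrArg (Unitization.lift (ev ρ (n : OnePoint ℕ))) hz
    have e : ∀ b : Ex ρ, Unitization.lift (ev ρ (n : OnePoint ℕ)) (b : Unitization ℂ (Ex ρ)) =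
        b.1.2 n := fun b => by
      simp; rfl
    have h3 : (nul ρ _ hb).1.2 n = S := if_pos rfl
    rw [map_sub, map_add, map_mul, map_mul, map_one, map_zero, e, e, h3] at h2
    exact ⟨_, h2⟩
  have h2 : p.1.2 ∞ = 0 := by
    have := (continuous_iff_from_nat p.1.2).1 p.1.2.continuous
    simp only [h1] at this
    exact tendsto_nhds_unique this tendsto_const_nhds
  refine Subtype.ext (Prod.ext (ρ.inj _ (p.2.symm.trans h2)) (ContinuousMap.ext fun n => ?_))
  induction n using OnePoint.rec with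
  | infty => exact h2
  | coe n => exact h1 n

lemma not_S (f : A →ₗ[ℂ] ℂ) (hf : ∀ a b : A, ‖f (a * b)‖ ≤ ‖a‖ * ‖b‖) (hc : ¬ Continuous f)
    (C : ℝ) (hC : 0 < C) (h : ∀ x : Ex ρ, ∃ (n : ℕ) (a b : Fin n → Ex ρ),
      x = ∑ i, a i * b i ∧ ∑ i, ‖a i‖ * ‖b i‖ ≤ C * ‖x‖) : False := by
  refine hc (AddMonoidHomClass.continuous_of_bound f (C * (‖ρ.th‖ + 1)) fun x => ?_)
  obtain ⟨n, a, b, h1, h2⟩ := h (hat ρ x)
  let pr : Ex ρ →+ A := AddMonoidHom.mk' (fun p => p.1.1) fun _ _ => rfl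
  have h3 : x = ∑ i, (a i).1.1 * (b i).1.1 := (congrArg pr h1).trans (map_sum pr _ _)
  have h4 : ‖f x‖ ≤ ∑ i, ‖a i‖ * ‖b i‖ := by
    rw [h3, map_sum]
    exact norm_sum_le_of_le _ fun i _ => (hf _ _).trans (mul_le_mul (norm_fst_le (a i).1)
      (norm_fst_le (b i).1) (norm_nonneg _) (norm_nonneg _))
  rw [mul_assoc]
  exact h4.trans (h2.trans (mul_le_mul_of_nonneg_left (hat_le ρ x) hC.le))

lemma op_zero {E : Type} [NormedAddCommGroup E] [NormedSpace ℂ E] (T : E →L[ℂ] E)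
    (h : ∀ S : E →L[ℂ] E, ∃ W : E →L[ℂ] E, W * S * T + W - 1 = 0) : T = 0 := by
  refine ContinuousLinearMap.ext fun x => ?_
  by_contra hx
  obtain ⟨φ, hφ⟩ := SeparatingDual.exists_eq_one (R := ℂ) hx
  obtain ⟨W, hW⟩ := h (φ.smulRight (-x))
  have h1 : W ((φ (T x)) • (-x)) + W x - x = 0 := congrArg (fun S : E →L[ℂ] E => S x) hW
  rw [hφ, one_smul, map_neg, neg_add_cancel, zero_sub, neg_eq_zero] at h1
  exact hx (by rw [h1, map_zero]; rfl)

/-- The space of the regular representation. -/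
def Sp (A : Type) : Type := A × ℂ

noncomputable instance : NormedAddCommGroup (Sp A) := inferInstanceAs (NormedAddCommGroup (A × ℂ))

noncomputable instance : NormedSpace ℂ (Sp A) := inferInstanceAs (NormedSpace ℂ (A × ℂ))

instance [CompleteSpace A] : CompleteSpace (Sp A) := inferInstanceAs (CompleteSpace (A × ℂ))

/-- Constructor. -/
def mkS (a : A) (c : ℂ) : Sp A := (a, c)

variable (A) in
/-- The left regular representation on `A × ℂ`. -/
noncomputable def th : A →L[ℂ] Sp A →L[ℂ] Sp A :=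
  LinearMap.mkContinuous₂ (LinearMap.mk₂ ℂ (fun (a : A) (y : Sp A) => mkS (a * y.1 + y.2 • a) 0)
    (fun a b y => Prod.ext (by
      change (a + b) * y.1 + y.2 • (a + b) = (a * y.1 + y.2 • a) + (b * y.1 + y.2 • b)
      rw [add_mul, smul_add]; abel) (add_zero _).symm)
    (fun c a y => Prod.ext (by
      change (c • a) * y.1 + y.2 • (c • a) = c • (a * y.1 + y.2 • a)
      rw [smul_mul_assoc, smul_add, smul_comm c y.2]) (mul_zero c).symm)
    (fun a y y' => Prod.ext (by
      change a * (y.1 + y'.1) + (y.2 + y'.2) • a = (a * y.1 + y.2 • a) + (a * y'.1 + y'.2 • a)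
      rw [mul_add, add_smul]; abel) (add_zero _).symm)
    (fun c a y => Prod.ext (by
      change a * (c • y.1) + (c * y.2) • a = c • (a * y.1 + y.2 • a)
      rw [mul_smul_comm, smul_add, mul_smul]) (mul_zero c).symm))
    2 fun a y => by
      change max ‖a * y.1 + y.2 • a‖ ‖(0 : ℂ)‖ ≤ _
      rw [norm_zero, max_eq_left (norm_nonneg _)]
      have h0 : ‖y.1‖ ≤ ‖y‖ := le_max_left _ _
      have h0' : ‖y.2‖ ≤ ‖y‖ := le_max_right _ _
      have h1 := (norm_mul_le a y.1).trans (mul_le_mul_of_nonneg_left h0 (norm_nonneg a))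
      have h2 := (norm_smul_le y.2 a).trans (mul_le_mul_of_nonneg_right h0' (norm_nonneg a))
      linarith [norm_add_le (a * y.1) (y.2 • a)]

variable (A) in
/-- The regular representation. -/
noncomputable def reg : Rep A (Sp A →L[ℂ] Sp A) where
  th := th A
  mul a b := ContinuousLinearMap.ext fun y => Prod.ext (by
    change a * b * y.1 + y.2 • (a * b) = a * (b * y.1 + y.2 • b) + (0 : ℂ) • a
    rw [mul_add, mul_assoc, mul_smul_comm, zero_smul, add_zero]) rfl
  inj a h := by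
    have : a * 0 + (1 : ℂ) • a = 0 := congrArg (fun T : Sp A →L[ℂ] Sp A => (T (mkS 0 1)).1) h
    rwa [mul_zero, zero_add, one_smul] at this
  ss := op_zero

open PS in
lemma base : ∃ (d : Dat) (f : Alg d →ₗ[ℂ] ℂ),
    Submodule.span ℂ {y | ∃ a b : Alg d, y = a * b} = ⊤ ∧
    (∀ a b : Alg d, ‖f (a * b)‖ ≤ ‖a‖ * ‖b‖) ∧ ¬ Continuous f := by
  obtain ⟨S, f, γ, h1, h2, h3, h4, h5⟩ := core
  let d : Dat := ⟨S, h1, h2⟩
  refine ⟨d, f.comp (prW d), eq_top_iff.2 ((cube_top h3).ge.trans (Submodule.span_mono ?_)),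
    fun a b => ?_, fun hc => h5 (hc.comp (inW d).continuous)⟩
  · rintro _ ⟨a, b, c, rfl⟩
    exact ⟨a * b, c, rfl⟩
  · have : f.comp (prW d) (a * b) = a.2.1 γ * b.2.2.1 γ := h4 _ (tn_mem a.2.1 b.2.2.1)
    rw [this, norm_mul]
    exact mul_le_mul ((ap_le _ _).trans (n2 a)) ((ap_le _ _).trans (n3 b)) (norm_nonneg _)
      (norm_nonneg _)

end Pool.Agent.Lib.helper3.SX
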