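import Mathlib

open Filter Topology

namespace Pool.Agent.Lib.helper3.SmoothJ

variable {X : Type*} [NormedAddCommGroup X] [NormedSpace ℂ X]

/-- `X` is smooth: each unit vector has exactly one norming functional of norm one. -/
def IsSmooth (X : Type*) [NormedAddCommGroup X] [NormedSpace ℂ X] : Prop :=
  ∀ x : X, ‖x‖ = 1 → ∃! f : StrongDual ℂ X, ‖f‖ = 1 ∧ f x = 1

/-- The duality map: a functional `J x` with `‖J x‖ = ‖x‖` and `J x x = ‖x‖²`
(the unique one when `X` is smooth). -/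
noncomputable def dualMap (x : X) : StrongDual ℂ X :=
  Classical.epsilon fun f : StrongDual ℂ X => ‖f‖ = ‖x‖ ∧ f x = ((‖x‖ ^ 2 : ℝ) : ℂ)

/-- `T` is self-adjoint: `J (T x) y = J x (T y)`. -/
def IsSA (T : X →L[ℂ] X) : Prop := ∀ x y : X, dualMap (T x) y = dualMap x (T y)

/-- `T` is strongly normal: the square of a self-adjoint operator. -/
def StronglyNormal (T : X →L[ℂ] X) : Prop := ∃ S : X →L[ℂ] X, IsSA S ∧ T = S ^ 2

/-- The minimum modulus. -/
noncomputable def minMod (T : X →L[ℂ] X) : ℝ := ⨅ x : Metric.sphere (0 : X) 1, ‖T x‖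

theorem dualMap_spec (x : X) :
    ‖dualMap x‖ = ‖x‖ ∧ dualMap x x = ((‖x‖ ^ 2 : ℝ) : ℂ) := by
  apply Classical.epsilon_spec
    (p := fun f : StrongDual ℂ X => ‖f‖ = ‖x‖ ∧ f x = ((‖x‖ ^ 2 : ℝ) : ℂ))
  by_cases hx : ‖x‖ = 0
  · exact ⟨0, by simp [hx], by simp [hx]⟩
  · obtain ⟨g, h1, h2⟩ := exists_dual_vector ℂ x hx
    refine ⟨(‖x‖ : ℂ) • g, ?_, ?_⟩
    · rw [norm_smul, h1]; simp
    · rw [ContinuousLinearMap.smul_apply, h2]
      simp [sq]

theorem norm_apply_le (x y : X) : ‖dualMap x y‖ ≤ ‖x‖ * ‖y‖ := by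
  have := (dualMap x).le_opNorm y
  rwa [(dualMap_spec x).1] at this

theorem uniq_aux (hs : IsSmooth X) {x : X} (hx : ‖x‖ ≠ 0) {f g : StrongDual ℂ X}
    (f1 : ‖f‖ = ‖x‖) (f2 : f x = ((‖x‖ ^ 2 : ℝ) : ℂ))
    (g1 : ‖g‖ = ‖x‖) (g2 : g x = ((‖x‖ ^ 2 : ℝ) : ℂ)) : f = g := by
  have hc : ((‖x‖ : ℂ)) ≠ 0 := by exact_mod_cast hx
  have hn : ‖((‖x‖ : ℂ))⁻¹‖ = ‖x‖⁻¹ := by simp
  obtain ⟨k, -, hk⟩ := hs (((‖x‖ : ℂ))⁻¹ • x) (by rw [norm_smul, hn, inv_mul_cancel₀ hx])
  have aux : ∀ h : StrongDual ℂ X, ‖h‖ = ‖x‖ → h x = ((‖x‖ ^ 2 : ℝ) : ℂ) →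
      ((‖x‖ : ℂ))⁻¹ • h = k := by
    intro h h1 h2
    apply hk
    constructor
    · rw [norm_smul, hn, h1, inv_mul_cancel₀ hx]
    · rw [ContinuousLinearMap.smul_apply, map_smul, h2]
      push_cast
      simp only [smul_eq_mul]
      field_simp
  have := (aux f f1 f2).trans (aux g g1 g2).symm
  exact smul_right_injective _ (inv_ne_zero hc) this

theorem eq_dualMap (hs : IsSmooth X) {x : X} {f : StrongDual ℂ X}
    (f1 : ‖f‖ ≤ ‖x‖) (f2 : f x = ((‖x‖ ^ 2 : ℝ) : ℂ)) : f = dualMap x := by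
  by_cases hx : ‖x‖ = 0
  · have h1 : f = 0 := norm_le_zero_iff.1 (hx ▸ f1)
    have h2 : dualMap x = 0 := norm_eq_zero.1 ((dualMap_spec x).1.trans hx)
    rw [h1, h2]
  · refine uniq_aux hs hx (le_antisymm f1 ?_) f2 (dualMap_spec x).1 (dualMap_spec x).2
    have h := f.le_opNorm x
    rw [f2, Complex.norm_real, Real.norm_eq_abs, abs_of_nonneg (sq_nonneg _), sq] at h
    exact le_of_mul_le_mul_right h (lt_of_le_of_ne (norm_nonneg _) (Ne.symm hx))

theorem tendsto_err {ι : Type*} {l : Filter ι} {u v : ι → X} {x : X}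
    (hu : Tendsto u l (𝓝 x)) (hv : Tendsto v l (𝓝 0)) :
    Tendsto (fun i => dualMap (u i) (v i)) l (𝓝 0) := by
  rw [tendsto_zero_iff_norm_tendsto_zero]
  refine squeeze_zero (fun _ => norm_nonneg _) (fun i => norm_apply_le _ _) ?_
  simpa using hu.norm.mul hv.norm

theorem tendsto_dualMap (hs : IsSmooth X) {ι : Type*} {l : Filter ι} {u : ι → X} {x : X}
    (hu : Tendsto u l (𝓝 x)) (y : X) :
    Tendsto (fun i => dualMap (u i) y) l (𝓝 (dualMap x y)) := by
  rw [tendsto_iff_ultrafilter]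
  intro g hg
  have hu' : Tendsto u g (𝓝 x) := hu.mono_left hg
  have hK := WeakDual.isCompact_closedBall (𝕜 := ℂ) (0 : StrongDual ℂ X) (‖x‖ + 1)
  let F : ι → WeakDual ℂ X := fun i => StrongDual.toWeakDual (dualMap (u i))
  have hmem : (↑(g.map F) : Filter (WeakDual ℂ X)) ≤
      𝓟 (WeakDual.toStrongDual ⁻¹' Metric.closedBall (0 : StrongDual ℂ X) (‖x‖ + 1)) := by
    rw [Ultrafilter.coe_map, le_principal_iff, mem_map]
    filter_upwards [hu'.norm.eventually (gt_mem_nhds (lt_add_one ‖x‖))] with i hi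
    simp only [Set.mem_preimage, Metric.mem_closedBall, dist_zero_right, F]
    change ‖dualMap (u i)‖ ≤ _
    rw [(dualMap_spec _).1]
    exact hi.le
  obtain ⟨φ, -, hφ⟩ := hK.ultrafilter_le_nhds (g.map F) hmem
  have hF : Tendsto F g (𝓝 φ) := hφ
  have hev : ∀ z : X, Tendsto (fun i => dualMap (u i) z) g (𝓝 (φ z)) := fun z =>
    ((WeakDual.eval_continuous z).tendsto φ).comp hF
  have e : WeakDual.toStrongDual φ = dualMap x := by
    apply eq_dualMap hs
    · refine ContinuousLinearMap.opNorm_le_bound _ (norm_nonneg _) fun z => ?_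
      exact le_of_tendsto_of_tendsto' (hev z).norm (hu'.norm.mul_const ‖z‖)
        fun i => norm_apply_le _ _
    · have t1 : Tendsto (fun i => dualMap (u i) (x - u i)) g (𝓝 0) :=
        tendsto_err hu' (by simpa using hu'.const_sub x)
      have t2 : Tendsto (fun i => ((‖u i‖ ^ 2 : ℝ) : ℂ)) g (𝓝 ((‖x‖ ^ 2 : ℝ) : ℂ)) :=
        (Complex.continuous_ofReal.tendsto _).comp (hu'.norm.pow 2)
      have t3 := t1.add t2
      rw [zero_add] at t3
      refine tendsto_nhds_unique (hev x) (t3.congr fun i => ?_)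
      rw [← (dualMap_spec (u i)).2, ← map_add, sub_add_cancel]
  have e' : φ y = dualMap x y := by rw [← e]; rfl
  rw [← e']
  exact hev y

theorem tendsto_dualMap₂ (hs : IsSmooth X) {ι : Type*} {l : Filter ι} {u v : ι → X} {x y : X}
    (hu : Tendsto u l (𝓝 x)) (hv : Tendsto v l (𝓝 y)) :
    Tendsto (fun i => dualMap (u i) (v i)) l (𝓝 (dualMap x y)) := by
  have t1 : Tendsto (fun i => dualMap (u i) (v i - y)) l (𝓝 0) :=
    tendsto_err hu (by simpa using hv.sub_const y)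
  have t3 := t1.add (tendsto_dualMap hs hu y)
  rw [zero_add] at t3
  refine t3.congr fun i => ?_
  rw [← map_add, sub_add_cancel]

theorem subgrad (u v : X) : 2 * (dualMap u (v - u)).re ≤ ‖v‖ ^ 2 - ‖u‖ ^ 2 := by
  rw [map_sub, (dualMap_spec u).2, Complex.sub_re, Complex.ofReal_re]
  have h := (Complex.re_le_norm (dualMap u v)).trans (norm_apply_le u v)
  nlinarith [sq_nonneg (‖u‖ - ‖v‖)]

theorem re_real_smul (f : StrongDual ℂ X) (r : ℝ) (y : X) : (f (r • y)).re = r * (f y).re := by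
  rw [← Complex.coe_smul, map_smul, smul_eq_mul, Complex.re_ofReal_mul]

theorem hasDerivAt_normSq (hs : IsSmooth X) {u : ℝ → X} {u' : X} {t : ℝ}
    (hu : HasDerivAt u u' t) :
    HasDerivAt (fun s => ‖u s‖ ^ 2) (2 * (dualMap (u t) u').re) t := by
  have hc : Tendsto u (𝓝[≠] t) (𝓝 (u t)) :=
    hu.continuousAt.tendsto.mono_left nhdsWithin_le_nhds
  rw [hasDerivAt_iff_tendsto_slope] at hu ⊢
  have ta : Tendsto (fun s => 2 * (dualMap (u t) (slope u t s)).re) (𝓝[≠] t)
      (𝓝 (2 * (dualMap (u t) u').re)) :=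
    ((Complex.continuous_re.tendsto _).comp
      (tendsto_dualMap₂ hs tendsto_const_nhds hu)).const_mul 2
  have tb : Tendsto (fun s => 2 * (dualMap (u s) (slope u t s)).re) (𝓝[≠] t)
      (𝓝 (2 * (dualMap (u t) u').re)) :=
    ((Complex.continuous_re.tendsto _).comp (tendsto_dualMap₂ hs hc hu)).const_mul 2
  have tmin := ta.min tb
  have tmax := ta.max tb
  rw [min_self] at tmin
  rw [max_self] at tmax
  have key : ∀ s, s ≠ t →
      (min (2 * (dualMap (u t) (slope u t s)).re) (2 * (dualMap (u s) (slope u t s)).re) ≤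
        slope (fun s => ‖u s‖ ^ 2) t s ∧
      slope (fun s => ‖u s‖ ^ 2) t s ≤
        max (2 * (dualMap (u t) (slope u t s)).re) (2 * (dualMap (u s) (slope u t s)).re)) := by
    intro s hst
    have h1 := subgrad (u t) (u s)
    have h2 := subgrad (u s) (u t)
    rw [← neg_sub (u s) (u t), map_neg, Complex.neg_re] at h2
    rw [slope_def_module u, slope_def_module, re_real_smul, re_real_smul, smul_eq_mul]
    rcases lt_or_gt_of_ne hst with h | h
    · have hn : (s - t)⁻¹ < 0 := inv_lt_zero.2 (by linarith)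
      constructor
      · refine (min_le_right _ _).trans ?_
        nlinarith
      · refine le_trans ?_ (le_max_left _ _)
        nlinarith
    · have hn : 0 < (s - t)⁻¹ := inv_pos.2 (by linarith)
      constructor
      · refine (min_le_left _ _).trans ?_
        nlinarith
      · refine le_trans ?_ (le_max_right _ _)
        nlinarith
  refine tendsto_of_tendsto_of_tendsto_of_le_of_le' tmin tmax ?_ ?_
  · filter_upwards [self_mem_nhdsWithin] with s hst using (key s hst).1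
  · filter_upwards [self_mem_nhdsWithin] with s hst using (key s hst).2

theorem dualMap_smul (hs : IsSmooth X) {r : ℝ} (hr : 0 ≤ r) (x : X) :
    dualMap ((r : ℂ) • x) = (r : ℂ) • dualMap x := by
  symm
  apply eq_dualMap hs
  · rw [norm_smul, norm_smul, (dualMap_spec x).1]
  · rw [ContinuousLinearMap.smul_apply, map_smul, (dualMap_spec x).2, norm_smul, Complex.norm_real,
      Real.norm_eq_abs, abs_of_nonneg hr]
    push_cast
    simp only [smul_eq_mul]
    ring

theorem IsSA.smul (hs : IsSmooth X) {T : X →L[ℂ] X} (hT : IsSA T) {r : ℝ} (hr : 0 ≤ r) :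
    IsSA ((r : ℂ) • T) := by
  intro x y
  rw [ContinuousLinearMap.smul_apply, ContinuousLinearMap.smul_apply, dualMap_smul hs hr,
    ContinuousLinearMap.smul_apply, hT, map_smul]

theorem IsSA.normSq {T : X →L[ℂ] X} (hT : IsSA T) (x : X) :
    (dualMap x (T (T x))).re = ‖T x‖ ^ 2 := by
  rw [← hT, (dualMap_spec _).2, Complex.ofReal_re]

end Pool.Agent.Lib.helper3.SmoothJ
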