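import Pool.Agent.Lib.helper3.SqrtAlg
import Pool.Agent.Lib.helper3.SmoothJ

open Filter Topology

namespace Pool.Agent.Lib.helper3.SmoothJ

variable {X : Type*} [NormedAddCommGroup X] [NormedSpace ℂ X]

theorem ext_re {f g : StrongDual ℂ X} (h : ∀ z, (f z).re = (g z).re) (z : X) : f z = g z := by
  apply Complex.ext (h z)
  have := h (Complex.I • z)
  rw [map_smul, map_smul, smul_eq_mul, smul_eq_mul, Complex.I_mul_re, Complex.I_mul_re] at this
  linarith

/-- from the norm identity to self-adjointness, for an invertible root -/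
theorem isSA_of_identity (hs : IsSmooth X) {T S R : X →L[ℂ] X} (hT : IsSA T) {t : ℝ}
    (hSS : S * S = 1 - t • (T * T)) (hR : S * R = 1)
    (hid : ∀ x, ‖S x‖ ^ 2 = ‖x‖ ^ 2 - t * ‖T x‖ ^ 2) : IsSA S := by
  intro x
  have hd : ∀ h : X, (dualMap (S x) (S h)).re = (dualMap x (S (S h))).re := by
    intro h
    have line : ∀ (a b : X), HasDerivAt (fun s : ℝ => a + s • b) b 0 := by
      intro a b
      simpa using ((hasDerivAt_id (0 : ℝ)).smul_const b).const_add a
    have d1 := hasDerivAt_normSq hs (line (S x) (S h))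
    have d2 := hasDerivAt_normSq hs (line x h)
    have d3 := hasDerivAt_normSq hs (line (T x) (T h))
    simp only [zero_smul, add_zero] at d1 d2 d3
    have d4 := d2.sub (d3.const_mul t)
    have e : (fun s : ℝ => ‖S x + s • S h‖ ^ 2) =
        (fun s : ℝ => ‖x + s • h‖ ^ 2) - fun s : ℝ => t * ‖T x + s • T h‖ ^ 2 := by
      funext s
      have := hid (x + s • h)
      rw [map_add, map_add, ContinuousLinearMap.map_smul_of_tower,
        ContinuousLinearMap.map_smul_of_tower] at this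
      exact this
    rw [e] at d1
    have u := d1.unique d4
    have e2 : S (S h) = h - t • T (T h) := by
      have := congrArg (fun L : X →L[ℂ] X => L h) hSS
      simpa using this
    rw [e2, map_sub, Complex.sub_re, re_real_smul, ← hT x (T h)]
    linarith
  have hz : ∀ z, (dualMap (S x) z).re = (((dualMap x).comp S : StrongDual ℂ X) z).re := by
    intro z
    have e : S (R z) = z := by
      have := congrArg (fun L : X →L[ℂ] X => L z) hR
      simpa using this
    have := hd (R z)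
    rw [e] at this
    exact this
  intro y
  exact ext_re hz y

variable [CompleteSpace X]

theorem exists_root_one (hs : IsSmooth X) {T : X →L[ℂ] X} (hT : IsSA T) (h1 : ‖T‖ ≤ 1) :
    ∃ S : X →L[ℂ] X, IsSA S ∧ S * S = 1 - T * T := by
  have ha : ‖T * T‖ ≤ 1 := (norm_mul_le _ _).trans (by nlinarith [norm_nonneg T])
  obtain ⟨Y, hY0, hsq, hunit, hlim, hder⟩ := SqrtAlg.exists_family (T * T) ha
  have hcurve : ∀ (y : X) (s : ℝ), |s| < 1 →
      HasDerivAt (fun t => ‖Ring.inverse (1 - Y t) y‖ ^ 2 -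
        t * ‖T (Ring.inverse (1 - Y t) y)‖ ^ 2) 0 s := by
    intro y s hs1
    set R := Ring.inverse (1 - Y s) with hRdef
    let ev : (X →L[ℂ] X) →L[ℝ] X := (ContinuousLinearMap.apply ℂ X y).restrictScalars ℝ
    have du : HasDerivAt (fun t => Ring.inverse (1 - Y t) y)
        ((1 / 2 : ℝ) • R (R (T (T (R y))))) s := by
      have := ev.hasFDerivAt.comp_hasDerivAt s (hder s hs1)
      exact this
    have dT : HasDerivAt (fun t => T (Ring.inverse (1 - Y t) y))
        (T ((1 / 2 : ℝ) • R (R (T (T (R y)))))) s :=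
      (T.restrictScalars ℝ).hasFDerivAt.comp_hasDerivAt s du
    have d1 := hasDerivAt_normSq hs du
    have d2 := hasDerivAt_normSq hs dT
    have d3 := d1.sub ((hasDerivAt_id s).mul d2)
    refine HasDerivAt.congr_deriv d3 ?_
    simp only [id, one_mul]
    rw [← hRdef]
    have eS : ∀ z, (1 - Y s) (R z) = z := by
      intro z
      have := congrArg (fun L : X →L[ℂ] X => L z) (Ring.mul_inverse_cancel _ (hunit s hs1))
      exact this
    have e2 : ∀ h, (1 - Y s) ((1 - Y s) h) = h - s • T (T h) := by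
      intro h
      have := congrArg (fun L : X →L[ℂ] X => L h) (hsq s hs1.le)
      exact this
    have e3 := e2 (R (R (T (T (R y)))))
    rw [eS, eS] at e3
    have e4 := hT.normSq (R y)
    rw [e3, map_sub, Complex.sub_re, re_real_smul] at e4
    rw [hT (R y), re_real_smul, ContinuousLinearMap.map_smul_of_tower,
      ContinuousLinearMap.map_smul_of_tower, re_real_smul]
    linarith
  have hSA : ∀ t, 0 ≤ t → t < 1 → IsSA (1 - Y t) := by
    intro t h0 ht
    have hta : |t| < 1 := by rw [abs_of_nonneg h0]; exact ht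
    refine isSA_of_identity hs hT (hsq t hta.le) (Ring.mul_inverse_cancel _ (hunit t hta)) ?_
    intro x
    have hin : ∀ s ∈ Set.Icc (0 : ℝ) t, |s| < 1 := fun s hs => by
      rw [abs_of_nonneg hs.1]; exact lt_of_le_of_lt hs.2 ht
    have hc := constant_of_has_deriv_right_zero (a := 0) (b := t)
      (f := fun r => ‖Ring.inverse (1 - Y r) ((1 - Y t) x)‖ ^ 2 -
        r * ‖T (Ring.inverse (1 - Y r) ((1 - Y t) x))‖ ^ 2)
      (fun s hs => (hcurve _ s (hin s hs)).continuousAt.continuousWithinAt)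
      (fun s hs => (hcurve _ s (hin s (Set.Ico_subset_Icc_self hs))).hasDerivWithinAt)
      t ⟨h0, le_rfl⟩
    have e : Ring.inverse (1 - Y t) ((1 - Y t) x) = x := by
      have := congrArg (fun L : X →L[ℂ] X => L x) (Ring.inverse_mul_cancel _ (hunit t hta))
      exact this
    simp only [e, hY0, sub_zero, Ring.inverse_one, zero_mul] at hc
    rw [hc]
    rfl
  refine ⟨1 - Y 1, ?_, by simpa using hsq 1 (by simp)⟩
  intro x y
  have tS : ∀ z : X, Tendsto (fun t => (1 - Y t) z) (𝓝[<] 1) (𝓝 ((1 - Y 1) z)) := fun z =>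
    ((ContinuousLinearMap.apply ℂ X z).continuous.tendsto _).comp (hlim.const_sub 1)
  have t1 := tendsto_dualMap hs (tS x) y
  have t2 : Tendsto (fun t => dualMap x ((1 - Y t) y)) (𝓝[<] 1) (𝓝 (dualMap x ((1 - Y 1) y))) :=
    ((dualMap x).continuous.tendsto _).comp (tS y)
  refine tendsto_nhds_unique (t1.congr' ?_) t2
  filter_upwards [Ioo_mem_nhdsLT (zero_lt_one' ℝ)] with s hs1
  exact hSA s hs1.1.le hs1.2 x y

theorem exists_root (hs : IsSmooth X) {T : X →L[ℂ] X} (hT : IsSA T) {ρ : ℝ} (h1 : ‖T‖ ≤ ρ) :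
    ∃ S : X →L[ℂ] X, IsSA S ∧ S * S = ((ρ ^ 2 : ℝ) : ℂ) • 1 - T * T := by
  rcases ((norm_nonneg T).trans h1).eq_or_lt with h0 | h0
  · subst h0
    have : T = 0 := norm_le_zero_iff.1 h1
    subst this
    exact ⟨0, hT, by simp⟩
  · have hc : (ρ : ℂ) ≠ 0 := by exact_mod_cast h0.ne'
    obtain ⟨S, hS, e⟩ := exists_root_one hs (hT.smul hs (inv_nonneg.2 h0.le)) (by
      rw [norm_smul, Complex.norm_real, Real.norm_eq_abs, abs_of_nonneg (inv_nonneg.2 h0.le),
        inv_mul_le_iff₀ h0, mul_one]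
      exact h1)
    refine ⟨(ρ : ℂ) • S, hS.smul hs h0.le, ?_⟩
    rw [smul_mul_smul_comm, e, smul_mul_smul_comm, smul_sub, smul_smul]
    push_cast
    congr 1
    · rw [sq]
    · have : (ρ : ℂ) * ρ * ((ρ : ℂ)⁻¹ * (ρ : ℂ)⁻¹) = 1 := by field_simp
      rw [this, one_smul]

theorem q1 (hs : IsSmooth X) {T : X →L[ℂ] X} (hT : IsSA T) :
    StronglyNormal (((‖T‖ ^ 2 : ℝ) : ℂ) • 1 - T ^ 2) := by
  obtain ⟨S, hS, e⟩ := exists_root hs hT le_rfl
  exact ⟨S, hS, by rw [sq T, sq S, e]⟩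

omit [CompleteSpace X] in
theorem minMod_le (T : X →L[ℂ] X) (x : X) : minMod T * ‖x‖ ≤ ‖T x‖ := by
  by_cases hx : ‖x‖ = 0
  · rw [hx, mul_zero]; exact norm_nonneg _
  · have hp : 0 < ‖x‖ := lt_of_le_of_ne (norm_nonneg _) (Ne.symm hx)
    have hn : ‖((‖x‖ : ℂ))⁻¹‖ = ‖x‖⁻¹ := by simp
    have hm : ((‖x‖ : ℂ))⁻¹ • x ∈ Metric.sphere (0 : X) 1 := by
      rw [mem_sphere_zero_iff_norm, norm_smul, hn, inv_mul_cancel₀ hx]
    have h : minMod T ≤ ‖T (((‖x‖ : ℂ))⁻¹ • x)‖ :=
      ciInf_le (f := fun x : Metric.sphere (0 : X) 1 => ‖T x‖)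
        ⟨0, by rintro _ ⟨y, rfl⟩; exact norm_nonneg _⟩ ⟨_, hm⟩
    rw [map_smul, norm_smul, hn, ← div_eq_inv_mul, le_div_iff₀ hp] at h
    exact h

theorem q2 (hs : IsSmooth X) {T : X →L[ℂ] X} (hT : IsSA T) :
    StronglyNormal (T ^ 2 - ((minMod T ^ 2 : ℝ) : ℂ) • 1) := by
  have hm0 : 0 ≤ minMod T := Real.iInf_nonneg fun _ => norm_nonneg _
  set c := ‖T‖ + minMod T with hc
  have hc1 : ‖T‖ ≤ c := by linarith
  have hc2 : 0 ≤ c ^ 2 - minMod T ^ 2 := by nlinarith [norm_nonneg T]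
  obtain ⟨S, hS, e⟩ := exists_root hs hT hc1
  have hn : ‖S‖ ≤ √(c ^ 2 - minMod T ^ 2) := by
    refine ContinuousLinearMap.opNorm_le_bound _ (Real.sqrt_nonneg _) fun x => ?_
    have e2 : S (S x) = (c ^ 2 : ℝ) • x - T (T x) := by
      have := congrArg (fun L : X →L[ℂ] X => L x) e
      rw [← Complex.coe_smul]
      exact this
    have e4 := hS.normSq x
    rw [e2, map_sub, Complex.sub_re, re_real_smul, hT.normSq, (dualMap_spec x).2,
      Complex.ofReal_re] at e4
    have h5 := minMod_le T x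
    have h6 : (minMod T * ‖x‖) ^ 2 ≤ ‖T x‖ ^ 2 :=
      pow_le_pow_left₀ (mul_nonneg hm0 (norm_nonneg _)) h5 2
    apply (pow_le_pow_iff_left₀ (norm_nonneg _)
      (mul_nonneg (Real.sqrt_nonneg _) (norm_nonneg _)) two_ne_zero).1
    rw [mul_pow, Real.sq_sqrt hc2]
    nlinarith
  obtain ⟨U, hU, e'⟩ := exists_root hs hS hn
  refine ⟨U, hU, ?_⟩
  rw [sq U, e', e, Real.sq_sqrt hc2, sq T]
  push_cast
  rw [sub_smul]
  abel

end Pool.Agent.Lib.helper3.SmoothJ
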