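import Mathlib

open Filter Topology

namespace Pool.Agent.Lib.helper3.SqrtAlg

variable {A : Type*} [NormedRing A] [NormedAlgebra ℝ A] [CompleteSpace A]

/-- the iteration `Y ↦ (a + Y²)/2` -/
noncomputable def iter (a : A) : ℕ → A
  | 0 => 0
  | n + 1 => (1 / 2 : ℝ) • (a + iter a n * iter a n)

noncomputable def riter (τ : ℝ) : ℕ → ℝ
  | 0 => 0
  | n + 1 => (1 / 2 : ℝ) * (τ + riter τ n * riter τ n)

theorem riter_bounds {η : ℝ} (h0 : 0 ≤ η) (h1 : η ≤ 1) (n : ℕ) :
    0 ≤ riter (2 * η - η ^ 2) n ∧ riter (2 * η - η ^ 2) n ≤ η := by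
  induction n with
  | zero => simp [riter, h0]
  | succ n ih =>
    obtain ⟨i0, i1⟩ := ih
    simp only [riter]
    constructor
    · nlinarith [mul_nonneg i0 i0, mul_nonneg h0 (sub_nonneg.2 h1)]
    · nlinarith [mul_le_mul i1 i1 i0 h0]

omit [CompleteSpace A] in
theorem iter_comm (a b : A) (h : Commute b a) (n : ℕ) : Commute b (iter a n) := by
  induction n with
  | zero => simp [iter]
  | succ n ih =>
    simp only [iter]
    exact (h.add_right (ih.mul_right ih)).smul_right _

omit [CompleteSpace A] in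
theorem iter_norm (a : A) (τ : ℝ) (ha : ‖a‖ ≤ τ) (n : ℕ) : ‖iter a n‖ ≤ riter τ n := by
  induction n with
  | zero => simp [iter, riter]
  | succ n ih =>
    simp only [iter, riter]
    rw [norm_smul]
    have h1 : ‖a + iter a n * iter a n‖ ≤ τ + riter τ n * riter τ n :=
      (norm_add_le _ _).trans (add_le_add ha ((norm_mul_le _ _).trans
        (mul_le_mul ih ih (norm_nonneg _) ((norm_nonneg _).trans ih))))
    have h2 : ‖(1 / 2 : ℝ)‖ = 1 / 2 := by norm_num
    rw [h2]
    linarith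

omit [CompleteSpace A] in
theorem iter_diff (a : A) (τ : ℝ) (ha : ‖a‖ ≤ τ) (n : ℕ) :
    ‖iter a (n + 1) - iter a n‖ ≤ riter τ (n + 1) - riter τ n := by
  induction n with
  | zero =>
    have := iter_norm a τ ha 1
    simpa [iter, riter] using this
  | succ n ih =>
    have hc : Commute (iter a (n + 1)) (iter a n) :=
      iter_comm a _ (iter_comm a a (Commute.refl a) (n + 1)).symm n
    have e : iter a (n + 1 + 1) - iter a (n + 1) =
        (1 / 2 : ℝ) • ((iter a (n + 1) + iter a n) * (iter a (n + 1) - iter a n)) := by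
      have e1 : iter a (n + 1 + 1) = (1 / 2 : ℝ) • (a + iter a (n + 1) * iter a (n + 1)) := rfl
      have e2 : iter a (n + 1) = (1 / 2 : ℝ) • (a + iter a n * iter a n) := rfl
      rw [e1]
      nth_rewrite 3 [e2]
      rw [← smul_sub]
      congr 1
      rw [add_mul, mul_sub, mul_sub, hc.eq]
      abel
    have e' : riter τ (n + 1 + 1) - riter τ (n + 1) =
        (1 / 2 : ℝ) * ((riter τ (n + 1) + riter τ n) * (riter τ (n + 1) - riter τ n)) := by
      have e1 : riter τ (n + 1 + 1) = (1 / 2 : ℝ) * (τ + riter τ (n + 1) * riter τ (n + 1)) := rfl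
      have e2 : riter τ (n + 1) = (1 / 2 : ℝ) * (τ + riter τ n * riter τ n) := rfl
      rw [e1]
      nth_rewrite 3 [e2]
      ring
    rw [e, e', norm_smul]
    have h2 : ‖(1 / 2 : ℝ)‖ = 1 / 2 := by norm_num
    rw [h2]
    have h3 : ‖iter a (n + 1) + iter a n‖ ≤ riter τ (n + 1) + riter τ n :=
      (norm_add_le _ _).trans (add_le_add (iter_norm a τ ha _) (iter_norm a τ ha _))
    have h4 := (norm_mul_le (iter a (n + 1) + iter a n) (iter a (n + 1) - iter a n)).trans
      (mul_le_mul h3 ih (norm_nonneg _) ((norm_nonneg _).trans h3))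
    linarith

theorem exists_root (a : A) {η : ℝ} (h0 : 0 ≤ η) (h1 : η ≤ 1) (ha : ‖a‖ ≤ 2 * η - η ^ 2) :
    ∃ Y : A, Y = (1 / 2 : ℝ) • (a + Y * Y) ∧ ‖Y‖ ≤ η ∧ ∀ b, Commute b a → Commute b Y := by
  set τ := 2 * η - η ^ 2 with hτ
  have hs : Summable fun n => riter τ (n + 1) - riter τ n := by
    apply summable_of_sum_range_le (c := η)
    · intro n
      exact (norm_nonneg _).trans (iter_diff a τ ha n)
    · intro n
      rw [Finset.sum_range_sub]
      have := (riter_bounds h0 h1 n).2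
      simpa [riter] using this
  have hc : CauchySeq (iter a) := by
    apply cauchySeq_of_dist_le_of_summable _ _ hs
    intro n
    rw [dist_comm, dist_eq_norm]
    exact iter_diff a τ ha n
  obtain ⟨Y, hY⟩ := cauchySeq_tendsto_of_complete hc
  refine ⟨Y, ?_, ?_, ?_⟩
  · have t1 : Tendsto (fun n => iter a (n + 1)) atTop (𝓝 Y) := hY.comp (tendsto_add_atTop_nat 1)
    have t2 : Tendsto (fun n => iter a (n + 1)) atTop (𝓝 ((1 / 2 : ℝ) • (a + Y * Y))) :=
      ((hY.mul hY).const_add a).const_smul _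
    exact tendsto_nhds_unique t1 t2
  · exact le_of_tendsto' hY.norm fun n => (iter_norm a τ ha n).trans (riter_bounds h0 h1 n).2
  · intro b hb
    have t1 : Tendsto (fun n => b * iter a n) atTop (𝓝 (b * Y)) := hY.const_mul b
    have t2 : Tendsto (fun n => b * iter a n) atTop (𝓝 (Y * b)) := by
      have := hY.mul_const b
      refine this.congr fun n => (iter_comm a b hb n).eq.symm
    exact tendsto_nhds_unique t1 t2

/-- A family of square roots `1 - Y t` of `1 - t a`, with the inverse differentiable. -/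
theorem exists_family (a : A) (ha : ‖a‖ ≤ 1) :
    ∃ Y : ℝ → A, Y 0 = 0 ∧ (∀ t, |t| ≤ 1 → (1 - Y t) * (1 - Y t) = 1 - t • a) ∧
      (∀ t, |t| < 1 → IsUnit (1 - Y t)) ∧
      Tendsto Y (𝓝[<] 1) (𝓝 (Y 1)) ∧
      ∀ s, |s| < 1 → HasDerivAt (fun t => Ring.inverse (1 - Y t))
        ((1 / 2 : ℝ) • (Ring.inverse (1 - Y s) * (Ring.inverse (1 - Y s) * a) *
          Ring.inverse (1 - Y s))) s := by
  have key : ∀ t : ℝ, ∃ Y : A, |t| ≤ 1 → (Y = (1 / 2 : ℝ) • (t • a + Y * Y) ∧
      ‖Y‖ ≤ 1 - √(1 - |t|) ∧ ∀ b, Commute b a → Commute b Y) := by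
    intro t
    by_cases ht : |t| ≤ 1
    · have hs0 : 0 ≤ √(1 - |t|) := Real.sqrt_nonneg _
      have hs1 : √(1 - |t|) ≤ 1 := by
        rw [Real.sqrt_le_one]; linarith [abs_nonneg t]
      have hsq : √(1 - |t|) ^ 2 = 1 - |t| := Real.sq_sqrt (by linarith)
      obtain ⟨Y, h1, h2, h3⟩ := exists_root (t • a) (η := 1 - √(1 - |t|)) (by linarith)
        (by linarith) (by
          rw [norm_smul, Real.norm_eq_abs]
          nlinarith [abs_nonneg t, mul_le_mul_of_nonneg_left ha (abs_nonneg t)])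
      exact ⟨Y, fun _ => ⟨h1, h2, fun b hb => h3 b (hb.smul_right t)⟩⟩
    · exact ⟨0, fun h => absurd h ht⟩
  choose Y hY using key
  have hdiff : ∀ s t, |s| ≤ 1 → |t| ≤ 1 →
      Y t - Y s = (1 / 2 : ℝ) • ((t - s) • a + (Y t + Y s) * (Y t - Y s)) := by
    intro s t hs ht
    have hc : Commute (Y t) (Y s) :=
      (hY s hs).2.2 _ ((hY t ht).2.2 a (Commute.refl a)).symm
    have e1 := (hY t ht).1
    have e2 := (hY s hs).1
    calc Y t - Y s = (1 / 2 : ℝ) • (t • a + Y t * Y t) - (1 / 2 : ℝ) • (s • a + Y s * Y s) := by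
          rw [← e1, ← e2]
      _ = _ := by
          rw [← smul_sub]
          congr 1
          rw [add_mul, mul_sub, mul_sub, hc.eq, sub_smul]
          abel
  have hlip : ∀ s t, |s| ≤ 1 → |t| ≤ 1 → ‖Y t - Y s‖ * √(1 - |s|) ≤ |t - s| := by
    intro s t hs ht
    have e := hdiff s t hs ht
    have h2 : ‖(1 / 2 : ℝ)‖ = 1 / 2 := by norm_num
    have h3 : ‖Y t + Y s‖ ≤ 2 - √(1 - |s|) := by
      have := norm_add_le (Y t) (Y s)
      linarith [(hY t ht).2.1, (hY s hs).2.1, Real.sqrt_nonneg (1 - |t|)]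
    have h4 : ‖(t - s) • a‖ ≤ |t - s| := by
      rw [norm_smul, Real.norm_eq_abs]
      nlinarith [abs_nonneg (t - s), mul_le_mul_of_nonneg_left ha (abs_nonneg (t - s))]
    have h5 : ‖Y t - Y s‖ ≤ 1 / 2 * (|t - s| + (2 - √(1 - |s|)) * ‖Y t - Y s‖) := by
      calc ‖Y t - Y s‖ = ‖(1 / 2 : ℝ) • ((t - s) • a + (Y t + Y s) * (Y t - Y s))‖ := by rw [← e]
        _ ≤ _ := by
          rw [norm_smul, h2]
          have := (norm_add_le _ _).trans (add_le_add h4 ((norm_mul_le (Y t + Y s) (Y t - Y s)).trans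
            (mul_le_mul_of_nonneg_right h3 (norm_nonneg _))))
          linarith
    linarith
  have hlt : ∀ t, |t| < 1 → ‖Y t‖ < 1 := by
    intro t ht
    have : 0 < √(1 - |t|) := Real.sqrt_pos.2 (by linarith)
    linarith [(hY t ht.le).2.1]
  have hnear : ∀ s : ℝ, |s| < 1 → ∀ᶠ t in 𝓝 s, |t| < 1 := fun s hs =>
    (continuous_abs.tendsto s).eventually (gt_mem_nhds hs)
  have hcont : ∀ s, |s| < 1 → Tendsto Y (𝓝 s) (𝓝 (Y s)) := by
    intro s hs
    have hp : 0 < √(1 - |s|) := Real.sqrt_pos.2 (by linarith)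
    rw [tendsto_iff_norm_sub_tendsto_zero]
    have t0 : Tendsto (fun t : ℝ => |t - s| / √(1 - |s|)) (𝓝 s) (𝓝 0) := by
      have : Continuous (fun t : ℝ => |t - s| / √(1 - |s|)) := by fun_prop
      simpa using this.tendsto s
    refine squeeze_zero' (Eventually.of_forall fun _ => norm_nonneg _) ?_ t0
    filter_upwards [hnear s hs] with t ht
    rw [le_div_iff₀ hp]
    exact hlip s t hs.le ht.le
  have hunit : ∀ t, |t| < 1 → IsUnit (1 - Y t) := fun t ht =>
    (Units.oneSub (Y t) (hlt t ht)).isUnit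
  refine ⟨Y, ?_, ?_, hunit, ?_, ?_⟩
  · have := (hY 0 (by simp)).2.1
    simpa using this
  · intro t ht
    have e1 := (hY t ht).1
    have e2 : (2 : ℝ) • Y t = t • a + Y t * Y t := by
      nth_rewrite 1 [e1]
      rw [smul_smul]; norm_num
    rw [two_smul] at e2
    calc (1 - Y t) * (1 - Y t) = 1 - (Y t + Y t) + Y t * Y t := by noncomm_ring
      _ = _ := by rw [e2]; abel
  · rw [tendsto_iff_norm_sub_tendsto_zero]
    have t0 : Tendsto (fun s : ℝ => √(1 - |s|)) (𝓝[<] 1) (𝓝 0) := by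
      have : Continuous (fun s : ℝ => √(1 - |s|)) := by fun_prop
      have h := this.tendsto 1
      simp only [abs_one, sub_self, Real.sqrt_zero] at h
      exact h.mono_left nhdsWithin_le_nhds
    refine squeeze_zero' (Eventually.of_forall fun _ => norm_nonneg _) ?_ t0
    filter_upwards [Ioo_mem_nhdsLT (zero_lt_one' ℝ)] with s hs
    have hs' : |s| = s := abs_of_pos hs.1
    have hp : 0 < √(1 - |s|) := Real.sqrt_pos.2 (by rw [hs']; linarith [hs.2])
    have h := hlip s 1 (by rw [hs']; exact hs.2.le) (by simp)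
    have hsq : √(1 - |s|) * √(1 - |s|) = 1 - |s| := Real.mul_self_sqrt (by rw [hs']; linarith [hs.2])
    rw [abs_of_pos (by linarith [hs.2] : (0 : ℝ) < 1 - s)] at h
    rw [norm_sub_rev]
    apply le_of_mul_le_mul_right _ hp
    rw [hsq, hs']
    rwa [hs'] at h
  · intro s hs
    rw [hasDerivAt_iff_tendsto_slope]
    have tR : Tendsto (fun t => Ring.inverse (1 - Y t)) (𝓝 s) (𝓝 (Ring.inverse (1 - Y s))) := by
      obtain ⟨u, hu⟩ := hunit s hs
      have h := (NormedRing.inverse_continuousAt u).tendsto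
      rw [hu] at h
      exact h.comp ((hcont s hs).const_sub 1)
    have tM : Tendsto (fun t => Ring.inverse (1 - (1 / 2 : ℝ) • (Y t + Y s))) (𝓝 s)
        (𝓝 (Ring.inverse (1 - Y s))) := by
      obtain ⟨u, hu⟩ := hunit s hs
      have h := (NormedRing.inverse_continuousAt u).tendsto
      rw [hu] at h
      refine h.comp ?_
      have h2 := (((hcont s hs).add_const (Y s)).const_smul (1 / 2 : ℝ)).const_sub 1
      have e : (1 / 2 : ℝ) • (Y s + Y s) = Y s := by
        rw [← two_smul ℝ, smul_smul]; norm_num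
      rwa [e] at h2
    have tt := (((tR.mul (tM.mul_const a)).mul_const (Ring.inverse (1 - Y s))).const_smul
      (1 / 2 : ℝ)).mono_left (nhdsWithin_le_nhds (s := {s}ᶜ))
    refine tt.congr' ?_
    filter_upwards [nhdsWithin_le_nhds (hnear s hs), self_mem_nhdsWithin] with t ht hts
    have hne : t - s ≠ 0 := sub_ne_zero.2 hts
    have hM : IsUnit (1 - (1 / 2 : ℝ) • (Y t + Y s)) := by
      refine (Units.oneSub _ ?_).isUnit
      rw [norm_smul]
      have h2 : ‖(1 / 2 : ℝ)‖ = 1 / 2 := by norm_num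
      have := norm_add_le (Y t) (Y s)
      rw [h2]
      linarith [hlt t ht, hlt s hs]
    have e1 : (1 - (1 / 2 : ℝ) • (Y t + Y s)) * (Y t - Y s) = ((t - s) * (1 / 2 : ℝ)) • a := by
      have e := hdiff s t hs.le ht.le
      rw [smul_add] at e
      rw [sub_mul, one_mul, smul_mul_assoc, mul_comm (t - s), mul_smul]
      exact sub_eq_of_eq_add e
    have e2 : Y t - Y s = ((t - s) * (1 / 2 : ℝ)) •
        (Ring.inverse (1 - (1 / 2 : ℝ) • (Y t + Y s)) * a) := by
      rw [← mul_smul_comm, ← e1, ← mul_assoc, Ring.inverse_mul_cancel _ hM, one_mul]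
    have e3 : Ring.inverse (1 - Y t) - Ring.inverse (1 - Y s) =
        Ring.inverse (1 - Y t) * (Y t - Y s) * Ring.inverse (1 - Y s) := by
      have f1 := Ring.inverse_mul_cancel _ (hunit t ht)
      have f2 := Ring.mul_inverse_cancel _ (hunit s hs)
      calc _ = Ring.inverse (1 - Y t) * ((1 - Y s) * Ring.inverse (1 - Y s)) -
            (Ring.inverse (1 - Y t) * (1 - Y t)) * Ring.inverse (1 - Y s) := by
            rw [f1, f2, mul_one, one_mul]
        _ = _ := by noncomm_ring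
    rw [slope_def_module, e3, e2, mul_smul_comm, smul_mul_assoc, smul_smul]
    congr 1
    field_simp

end Pool.Agent.Lib.helper3.SqrtAlg
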