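import Pool.Agent.Lib.helper3.THom
import Pool.Agent.Lib.helper3.HNP

namespace Pool.Agent.Lib.helper3.TS

open KS Filter Topology BoundedContinuousFunction

/-- Row indices. -/
abbrev I : Type := ℕ × ℕ

/-- Column indices. -/
abbrev K : Type := I ⊕ ℕ

/-- The space `ℓ¹`. -/
noncomputable def LB : Ban where
  X := lp (fun _ : I => ℂ) 1

/-- Coordinates. -/
noncomputable def crd (i : I) : LB.X →L[ℂ] ℂ := lp.evalCLM ℂ (fun _ : I => ℂ) 1 i

/-- Unit vectors. -/
noncomputable def e (i : I) : LB.X := lp.single (E := fun _ : I => ℂ) 1 i 1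

lemma crd_same (i : I) : crd i (e i) = 1 := lp.single_apply_self (E := fun _ : I => ℂ) 1 i 1

lemma crd_ne {i j : I} (h : i ≠ j) : crd i (e j) = 0 :=
  lp.single_apply_ne (E := fun _ : I => ℂ) 1 j 1 h

lemma norm_e (i : I) : ‖e i‖ = 1 :=
  (lp.norm_single (E := fun _ : I => ℂ) (p := 1) (by simp) i 1).trans norm_one

lemma hasSum_crd (x : LB.X) : HasSum (fun i => ‖crd i x‖) ‖x‖ := by
  have h := lp.hasSum_norm (E := fun _ : I => ℂ) (p := 1) (by simp) x
  simp only [ENNReal.toReal_one, Real.rpow_one] at h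
  exact h

lemma hasSum_e (x : LB.X) : HasSum (fun i => crd i x • e i) x := by
  have h := lp.hasSum_single (E := fun _ : I => ℂ) (p := 1) (by simp) x
  have h2 : ∀ i, crd i x • e i = lp.single (E := fun _ : I => ℂ) 1 i (crd i x) := fun i =>
    (lp.single_smul (E := fun _ : I => ℂ) 1 i (crd i x) (1 : ℂ)).symm.trans
      (by rw [smul_eq_mul, mul_one])
  simp only [h2]
  exact h

lemma L1_ext {Z : Ban} {f g : LB.X →L[ℂ] Z.X} (h : ∀ i, f (e i) = g (e i)) : f = g :=
  ContinuousLinearMap.ext fun x => (f.hasSum (hasSum_e x)).unique (by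
    simp only [map_smul, h]
    simpa only [map_smul] using g.hasSum (hasSum_e x))

lemma term_le {Z : Ban} {a : I → Z.X} {C : ℝ} (h : ∀ i, ‖a i‖ ≤ C) (x : LB.X) (i : I) :
    ‖crd i x • a i‖ ≤ ‖crd i x‖ * C :=
  (norm_smul_le _ _).trans (mul_le_mul_of_nonneg_left (h i) (norm_nonneg _))

lemma term_summable {Z : Ban} {a : I → Z.X} {C : ℝ} (h : ∀ i, ‖a i‖ ≤ C) (x : LB.X) :
    Summable fun i => crd i x • a i :=
  Summable.of_norm_bounded ((hasSum_crd x).summable.mul_right C) (term_le h x)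

/-- The operator on `ℓ¹` with given values on the unit vectors. -/
noncomputable def sumL {Z : Ban} (a : I → Z.X) (C : ℝ) (h : ∀ i, ‖a i‖ ≤ C) : LB.X →L[ℂ] Z.X :=
  LinearMap.mkContinuous
    { toFun := fun x => ∑' i, crd i x • a i
      map_add' := fun x y => by
        rw [← (term_summable h x).tsum_add (term_summable h y)]
        simp only [map_add, add_smul]
      map_smul' := fun c x => by
        rw [RingHom.id_apply, ← (term_summable h x).tsum_const_smul c]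
        simp only [map_smul, smul_assoc] } C fun x =>
    (tsum_of_norm_bounded ((hasSum_crd x).mul_right C) (term_le h x)).trans_eq (mul_comm _ _)

lemma sumL_le {Z : Ban} (a : I → Z.X) (C : ℝ) (h : ∀ i, ‖a i‖ ≤ C) (x : LB.X) :
    ‖sumL a C h x‖ ≤ C * ‖x‖ :=
  (tsum_of_norm_bounded ((hasSum_crd x).mul_right C) (term_le h x)).trans_eq (mul_comm _ _)

lemma sumL_e {Z : Ban} (a : I → Z.X) (C : ℝ) (h : ∀ i, ‖a i‖ ≤ C) (i : I) :
    sumL a C h (e i) = a i := by
  change ∑' j, crd j (e i) • a j = _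
  rw [tsum_eq_single i fun j hj => by rw [crd_ne hj, zero_smul], crd_same, one_smul]

section Bnd

open HS

variable {W : Type} [TopologicalSpace W] {E : Ban}

lemma bev_le (α : W) (x : (Bnd W E).X) : ‖bev W α x‖ ≤ ‖x‖ := norm_coe_le_norm x α

lemma bnd_le (x : (Bnd W E).X) {C : ℝ} (hC : 0 ≤ C) (h : ∀ α, ‖bev W α x‖ ≤ C) : ‖x‖ ≤ C :=
  (norm_le (f := x) hC).2 h

lemma bnd_ext {x y : (Bnd W E).X} (h : ∀ α, bev W α x = bev W α y) : x = y :=
  BoundedContinuousFunction.ext h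

/-- Constructor of bounded families. -/
noncomputable def mkB [DiscreteTopology W] (f : W → E.X) (C : ℝ) (h : ∀ α, ‖f α‖ ≤ C) :
    (Bnd W E).X := ofNormedAddCommGroupDiscrete f C h

lemma bev_mkB [DiscreteTopology W] (f : W → E.X) (C : ℝ) (h : ∀ α, ‖f α‖ ≤ C) (α : W) :
    bev W α (mkB f C h) = f α := rfl

/-- The operator of a bounded family. -/
noncomputable def opr (j : I → W) (ξ : (Bnd W E).X) : LB.X →L[ℂ] E.X :=
  sumL (fun i => bev W (j i) ξ) ‖ξ‖ fun _ => bev_le _ ξ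

lemma opr_e (j : I → W) (ξ : (Bnd W E).X) (i : I) : opr j ξ (e i) = bev W (j i) ξ := sumL_e ..

lemma opr_bil (j : I → W) : IsBil (fun (ξ : (Bnd W E).X) x => opr j ξ x) 1 where
  l x := ⟨fun ξ η => DFunLike.congr_fun (L1_ext (f := opr j (ξ + η)) (g := opr j ξ + opr j η)
      fun i => by simp only [_root_.add_apply, opr_e, map_add]) x,
    fun c ξ => DFunLike.congr_fun (L1_ext (f := opr j (c • ξ)) (g := c • opr j ξ)
      fun i => by simp only [_root_.smul_apply, opr_e, map_smul]) x⟩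
  r ξ := (opr j ξ).toLinearMap.isLinear
  nn := zero_le_one
  le ξ x := by rw [one_mul]; exact sumL_le ..

lemma opr_le (j : I → W) (ξ : (Bnd W E).X) (x : LB.X) : ‖opr j ξ x‖ ≤ ‖ξ‖ * ‖x‖ := sumL_le ..

/-- Composition of a bounded family with columns. -/
noncomputable def cmp {V : Type} [TopologicalSpace V] [DiscreteTopology V] (j : I → W) (k : V → K)
    (ξ : (Bnd W E).X) (η : (Bnd K LB).X) : (Bnd V E).X :=
  mkB (fun κ => opr j ξ (bev K (k κ) η)) (‖ξ‖ * ‖η‖) fun _ =>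
    (opr_le j ξ _).trans (mul_le_mul_of_nonneg_left (bev_le _ η) (norm_nonneg ξ))

lemma bev_cmp {V : Type} [TopologicalSpace V] [DiscreteTopology V] (j : I → W) (k : V → K)
    (ξ : (Bnd W E).X) (η : (Bnd K LB).X) (κ : V) :
    bev V κ (cmp j k ξ η) = opr j ξ (bev K (k κ) η) := rfl

lemma cmp_bil {V : Type} [TopologicalSpace V] [DiscreteTopology V] (j : I → W) (k : V → K) :
    IsBil (E := Bnd W E) (F := Bnd K LB) (Z := Bnd V E) (cmp j k) 1 where
  l η := ⟨fun ξ ξ' => bnd_ext fun κ => by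
      rw [map_add, bev_cmp, bev_cmp, bev_cmp]; exact ((opr_bil j).l _).map_add ξ ξ',
    fun c ξ => bnd_ext fun κ => by
      rw [map_smul, bev_cmp, bev_cmp]; exact ((opr_bil j).l _).map_smul c ξ⟩
  r ξ := ⟨fun η η' => bnd_ext fun κ => by simp only [map_add, bev_cmp],
    fun c η => bnd_ext fun κ => by simp only [map_smul, bev_cmp]⟩
  nn := zero_le_one
  le ξ η := bnd_le _ (by positivity) fun κ => by
    rw [one_mul]
    exact (opr_le j ξ _).trans (mul_le_mul_of_nonneg_left (bev_le _ η) (norm_nonneg ξ))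

lemma cmp_assoc [DiscreteTopology W] (j : I → W) (k : W → K) (hk : ∀ i, k (j i) = Sum.inl i)
    (ξ : (Bnd W E).X) (η ζ : (Bnd K LB).X) :
    cmp j k (cmp j k ξ η) ζ = cmp j k ξ (cmp Sum.inl id η ζ) := bnd_ext fun κ =>
  DFunLike.congr_fun (L1_ext (f := opr j (cmp j k ξ η)) (g := opr j ξ ∘L opr Sum.inl η)
    fun i => by rw [ContinuousLinearMap.comp_apply, opr_e, opr_e, bev_cmp, hk]) _

end Bnd

open HS

/-- The row functions. -/
noncomputable def f : K → K → ℂ
  | Sum.inl j, κ => if κ = Sum.inl j then 1 else 0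
  | Sum.inr n, Sum.inl j => if j.1 = n then 1 else 0
  | Sum.inr n, Sum.inr m => if m = n then n + 1 else 0

/-- The weights. -/
def wt : K → ℝ
  | Sum.inl _ => 1
  | Sum.inr n => n + 1

lemma wt_nn (γ : K) : 0 ≤ wt γ := by
  rcases γ with j | n
  · exact zero_le_one
  · exact (Nat.cast_add_one_pos n).le

lemma f_le (γ κ : K) : ‖f γ κ‖ ≤ wt γ := by
  rcases γ with j | n
  · simp only [f, wt]
    split_ifs <;> simp
  · rcases κ with j | m
    · simp only [f, wt]
      split_ifs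
      · simp
      · rw [norm_zero]; positivity
    · simp only [f, wt]
      split_ifs
      · exact_mod_cast (Complex.norm_natCast (n + 1)).le
      · rw [norm_zero]; positivity

/-- The generators. -/
noncomputable def g (i : I) (γ : K) : (Bnd K LB).X :=
  mkB (fun κ => f γ κ • e i) (wt γ) fun κ => by rw [norm_smul, norm_e, mul_one]; exact f_le γ κ

lemma bev_g (i : I) (γ κ : K) : bev K κ (g i γ) = f γ κ • e i := rfl

lemma g_mul (i i' : I) (γ γ' : K) :
    cmp Sum.inl id (g i γ) (g i' γ') = f γ (Sum.inl i') • g i γ' := bnd_ext fun κ => by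
  rw [bev_cmp, map_smul, id, bev_g, bev_g, map_smul, opr_e, bev_g, smul_comm]

/-- The closed span of the generators. -/
noncomputable def SS : Submodule ℂ (Bnd K LB).X :=
  (Submodule.span ℂ {y | ∃ i γ, y = g i γ}).topologicalClosure

lemma SS_closed : IsClosed (SS : Set (Bnd K LB).X) := Submodule.isClosed_topologicalClosure _

lemma g_mem (i : I) (γ : K) : g i γ ∈ SS :=
  Submodule.le_topologicalClosure _ (Submodule.subset_span ⟨i, γ, rfl⟩)

lemma SS_le (p : Submodule ℂ (Bnd K LB).X) (hp : IsClosed (p : Set (Bnd K LB).X))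
    (h : ∀ i γ, g i γ ∈ p) : SS ≤ p :=
  Submodule.topologicalClosure_minimal _ (Submodule.span_le.2 fun _ ⟨i, γ, e⟩ => e ▸ h i γ) hp

lemma clm_SS (T : (Bnd K LB).X →L[ℂ] (Bnd K LB).X) (h : ∀ i γ, T (g i γ) ∈ SS) {x : (Bnd K LB).X}
    (hx : x ∈ SS) : T x ∈ SS :=
  SS_le (SS.comap T.toLinearMap) (SS_closed.preimage T.continuous) h hx

lemma mul_mem {ξ η : (Bnd K LB).X} (hξ : ξ ∈ SS) (hη : η ∈ SS) : cmp Sum.inl id ξ η ∈ SS :=
  clm_SS ((cmp_bil Sum.inl id).fr η) (fun i γ => clm_SS ((cmp_bil Sum.inl id).fl (g i γ))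
    (fun i' γ' => by rw [IsBil.fl_apply, g_mul]; exact SS.smul_mem _ (g_mem _ _)) hη) hξ

/-- The algebra. -/
noncomputable def AA : BAlg where
  B := Sub (Bnd K LB) SS SS_closed
  m ξ η := ⟨cmp Sum.inl id ξ.1 η.1, mul_mem ξ.2 η.2⟩
  lin_left η := ⟨fun ξ ξ' => Subtype.ext (((cmp_bil _ _).l η.1).map_add ξ.1 ξ'.1),
    fun c ξ => Subtype.ext (((cmp_bil _ _).l η.1).map_smul c ξ.1)⟩
  lin_right ξ := ⟨fun η η' => Subtype.ext (((cmp_bil _ _).r ξ.1).map_add η.1 η'.1),
    fun c η => Subtype.ext (((cmp_bil _ _).r ξ.1).map_smul c η.1)⟩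
  assoc ξ η ζ := Subtype.ext (cmp_assoc Sum.inl id (fun _ => rfl) ξ.1 η.1 ζ.1)
  norm_le ξ η := ((cmp_bil Sum.inl id).le ξ.1 η.1).trans_eq (by rw [one_mul]; rfl)

/-- The inclusion. -/
noncomputable def val : AA.B.X →L[ℂ] (Bnd K LB).X := SS.subtypeL

lemma val_mem (a : AA.B.X) : val a ∈ SS := Subtype.property (p := fun y => y ∈ SS) a

lemma norm_val (a : AA.B.X) : ‖val a‖ = ‖a‖ := rfl

lemma val_inj {a b : AA.B.X} (h : val a = val b) : a = b := Subtype.ext h

lemma val_m (a b : AA.B.X) : val (AA.m a b) = cmp Sum.inl id (val a) (val b) := rfl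

/-- The generators in the algebra. -/
noncomputable def G (i : I) (γ : K) : AA.B.X := (⟨g i γ, g_mem i γ⟩ : SS)

lemma val_G (i : I) (γ : K) : val (G i γ) = g i γ := rfl

lemma G_mul (i i' : I) (γ γ' : K) : AA.m (G i γ) (G i' γ') = f γ (Sum.inl i') • G i γ' :=
  val_inj (by rw [map_smul]; exact g_mul ..)

lemma norm_G (i : I) (γ : K) : ‖G i γ‖ ≤ wt γ := bnd_le (g i γ) (wt_nn γ) fun κ => by
  rw [bev_g, norm_smul, norm_e, mul_one]; exact f_le γ κ

lemma A_ind (p : Submodule ℂ AA.B.X) (hp : IsClosed (p : Set AA.B.X)) (h : ∀ i γ, G i γ ∈ p)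
    (a : AA.B.X) : a ∈ p := by
  have h1 : IsClosed ((p.map val.toLinearMap : Submodule ℂ (Bnd K LB).X) : Set (Bnd K LB).X) :=
    SS_closed.isClosedEmbedding_subtypeVal.isClosedMap _ hp
  obtain ⟨b, hb, e⟩ := SS_le _ h1 (fun i γ => ⟨G i γ, h i γ, rfl⟩) (val_mem a)
  exact val_inj e ▸ hb

lemma tend_A {Λ : Type} {Z : Ban} (F : Filter Λ) (T : Λ → (AA.B.X →L[ℂ] Z.X)) (C : ℝ)
    (h : ∀ l x, ‖T l x‖ ≤ C * ‖x‖) (h0 : ∀ i γ, ∀ᶠ l in F, T l (G i γ) = 0) (a : AA.B.X) :
    Tendsto (fun l => T l a) F (𝓝 0) :=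
  A_ind (tendSub F T) (tendSub_closed F T C h)
    (fun i γ => tendsto_const_nhds.congr' ((h0 i γ).mono fun _ h => h.symm)) a

lemma norm_sum_G {ι : Type} (S : Finset ι) (c : ι → ℂ) (hc : ∀ p, ‖c p‖ ≤ 1) (α β : ι → I)
    (hβ : Function.Injective β) : ‖∑ p ∈ S, c p • G (α p) (Sum.inl (β p))‖ ≤ 1 := by
  rw [← norm_val]
  refine bnd_le _ zero_le_one fun κ => ?_
  simp only [map_sum, map_smul, val_G, bev_g, f]
  by_cases h : ∃ p ∈ S, κ = Sum.inl (β p)
  · obtain ⟨p, hp, rfl⟩ := h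
    rw [Finset.sum_eq_single_of_mem p hp fun q _ hq => by
      rw [if_neg fun h => hq (hβ (Sum.inl_injective h)).symm, zero_smul, smul_zero], if_pos rfl,
      one_smul, norm_smul, norm_e, mul_one]
    exact hc p
  · rw [Finset.sum_eq_zero fun q hq => by rw [if_neg fun h' => h ⟨q, hq, h'⟩, zero_smul, smul_zero],
      norm_zero]
    exact zero_le_one

end Pool.Agent.Lib.helper3.TS
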