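import Pool.Agent.Lib.helper3.TTen

namespace Pool.Agent.Lib.helper3.TS

open KS Filter Topology

variable {A : BAlg}

lemma mB (A : BAlg) : IsBil (E := A.B) (F := A.B) (Z := A.B) A.m 1 :=
  ⟨A.lin_left, A.lin_right, zero_le_one, fun a b => by rw [one_mul]; exact A.norm_le a b⟩

/-- Left multiplication. -/
noncomputable def Lm (a : A.B.X) : A.B.X →L[ℂ] A.B.X := (mB A).fl a

/-- Right multiplication. -/
noncomputable def Rm (b : A.B.X) : A.B.X →L[ℂ] A.B.X := (mB A).fr b

lemma Lm_apply (a b : A.B.X) : Lm a b = A.m a b := rfl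

lemma Rm_apply (a b : A.B.X) : Rm b a = A.m a b := rfl

lemma Lm_le (a b : A.B.X) : ‖Lm a b‖ ≤ ‖a‖ * ‖b‖ := A.norm_le a b

lemma Rm_le (b a : A.B.X) : ‖Rm b a‖ ≤ ‖b‖ * ‖a‖ := (A.norm_le a b).trans_eq (mul_comm _ _)

lemma id_le {E : Ban} (x : E.X) : ‖ContinuousLinearMap.id ℂ E.X x‖ ≤ 1 * ‖x‖ := by simp

variable (X : BiMod A)

/-- A constant for the actions. -/
noncomputable def BiMod.c : ℝ := max X.bound.choose 1

lemma BiMod.one_le : 1 ≤ X.c := le_max_right _ _

lemma BiMod.c_nn : 0 ≤ X.c := zero_le_one.trans X.one_le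

lemma BiMod.lB : IsBil X.l X.c :=
  ⟨X.l_left, X.l_right, X.c_nn, fun a x => (X.bound.choose_spec a x).1.trans (by
    gcongr; exact le_max_left _ _)⟩

lemma BiMod.rB : IsBil X.r X.c :=
  ⟨X.r_left, X.r_right, X.c_nn, fun x a => (X.bound.choose_spec a x).2.trans (by
    rw [mul_right_comm]; gcongr; exact le_max_left _ _)⟩

variable {X}

/-- Elementary tensors in the chain spaces. -/
noncomputable def tc {n : ℕ} (c : (Ch X n).X) (a : A.B.X) : (Ch X (n + 1)).X := tm c a

lemma tc_bil (n : ℕ) : IsBil (tc : (Ch X n).X → A.B.X → (Ch X (n + 1)).X) 1 := tm_bil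

lemma tc_add_l {n : ℕ} (c c' : (Ch X n).X) (a : A.B.X) : tc (c + c') a = tc c a + tc c' a :=
  tm_add_l _ _ _
lemma tc_smul_l {n : ℕ} (t : ℂ) (c : (Ch X n).X) (a : A.B.X) : tc (t • c) a = t • tc c a :=
  tm_smul_l _ _ _
lemma tc_add_r {n : ℕ} (c : (Ch X n).X) (a a' : A.B.X) : tc c (a + a') = tc c a + tc c a' :=
  tm_add_r _ _ _
lemma tc_smul_r {n : ℕ} (t : ℂ) (c : (Ch X n).X) (a : A.B.X) : tc c (t • a) = t • tc c a :=
  tm_smul_r _ _ _
lemma tc_zero_l {n : ℕ} (a : A.B.X) : tc (0 : (Ch X n).X) a = 0 := tm_zero_l _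
lemma tc_le {n : ℕ} (c : (Ch X n).X) (a : A.B.X) : ‖tc c a‖ ≤ ‖c‖ * ‖a‖ := tm_le _ _

lemma Ch_ext {n : ℕ} {Z : Ban} {f g : (Ch X (n + 1)).X →L[ℂ] Z.X}
    (h : ∀ c a, f (tc c a) = g (tc c a)) : f = g := PT_ext h

lemma Ch_ind {n : ℕ} (p : Submodule ℂ (Ch X (n + 1)).X) (hp : IsClosed (p : Set (Ch X (n + 1)).X))
    (h : ∀ c a, tc c a ∈ p) (z : (Ch X (n + 1)).X) : z ∈ p := PT_ind p hp h z

/-- Tensor product of operators on the chain spaces. -/
noncomputable def mc {m n : ℕ} (f : (Ch X m).X →L[ℂ] (Ch X n).X) (g : A.B.X →L[ℂ] A.B.X) :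
    (Ch X (m + 1)).X →L[ℂ] (Ch X (n + 1)).X := mp f g

lemma mc_tc {m n : ℕ} (f : (Ch X m).X →L[ℂ] (Ch X n).X) (g : A.B.X →L[ℂ] A.B.X) (c : (Ch X m).X)
    (a : A.B.X) : mc f g (tc c a) = tc (f c) (g a) := mp_tm f g c a

lemma mc_le {m n : ℕ} {f : (Ch X m).X →L[ℂ] (Ch X n).X} {g : A.B.X →L[ℂ] A.B.X} {α β : ℝ}
    (hα : 0 ≤ α) (hβ : 0 ≤ β) (hf : ∀ x, ‖f x‖ ≤ α * ‖x‖) (hg : ∀ y, ‖g y‖ ≤ β * ‖y‖)
    (z : (Ch X (m + 1)).X) : ‖mc f g z‖ ≤ α * β * ‖z‖ := mp_le hα hβ hf hg z

/-- Lifting from the chain spaces. -/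
noncomputable def lc {n : ℕ} {Z : Ban} {b : (Ch X n).X → A.B.X → Z.X} {C : ℝ} (h : IsBil b C) :
    (Ch X (n + 1)).X →L[ℂ] Z.X := lift h

lemma lc_tc {n : ℕ} {Z : Ban} {b : (Ch X n).X → A.B.X → Z.X} {C : ℝ} (h : IsBil b C)
    (c : (Ch X n).X) (a : A.B.X) : lc h (tc c a) = b c a := lift_tm h c a

variable (X)

/-- The left action on chains. -/
noncomputable def L (a : A.B.X) : (n : ℕ) → ((Ch X n).X →L[ℂ] (Ch X n).X)
  | 0 => X.lB.fl a
  | n + 1 => mc (L a n) (ContinuousLinearMap.id ℂ _)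

/-- The right action on chains. -/
noncomputable def R (b : A.B.X) : (n : ℕ) → ((Ch X n).X →L[ℂ] (Ch X n).X)
  | 0 => X.rB.fr b
  | _ + 1 => mc (ContinuousLinearMap.id ℂ _) (Rm b)

variable {X}

lemma L_tc {n : ℕ} (a : A.B.X) (c : (Ch X n).X) (b : A.B.X) :
    L X a (n + 1) (tc c b) = tc (L X a n c) b := mc_tc _ _ c b

lemma R_tc {n : ℕ} (b : A.B.X) (c : (Ch X n).X) (a : A.B.X) :
    R X b (n + 1) (tc c a) = tc c (A.m a b) := mc_tc _ _ c a

lemma L_add (a a' : A.B.X) (n : ℕ) : L X (a + a') n = L X a n + L X a' n := by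
  induction n with
  | zero => exact ContinuousLinearMap.ext fun x => (X.l_left x).map_add a a'
  | succ n ih =>
    refine Ch_ext fun c b => ?_
    simp only [_root_.add_apply, L_tc, ih, tc_add_l]

lemma L_smul (t : ℂ) (a : A.B.X) (n : ℕ) : L X (t • a) n = t • L X a n := by
  induction n with
  | zero => exact ContinuousLinearMap.ext fun x => (X.l_left x).map_smul t a
  | succ n ih =>
    refine Ch_ext fun c b => ?_
    simp only [_root_.smul_apply, L_tc, ih, tc_smul_l]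

lemma L_le (a : A.B.X) (n : ℕ) : ∀ c, ‖L X a n c‖ ≤ X.c * ‖a‖ * ‖c‖ := by
  induction n with
  | zero => exact X.lB.le a
  | succ n ih =>
    intro c
    have := mc_le (mul_nonneg X.c_nn (norm_nonneg a)) zero_le_one ih id_le c
    rwa [mul_one] at this

lemma L_bil (n : ℕ) : IsBil (fun a c => L X a n c) X.c :=
  ⟨fun c => ⟨fun a a' => by rw [L_add]; rfl, fun t a => by rw [L_smul]; rfl⟩,
    fun a => (L X a n).toLinearMap.isLinear, X.c_nn, fun a => L_le a n⟩

lemma L_bil' (n : ℕ) : IsBil (fun c a => L X a n c) X.c :=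
  ⟨(L_bil n).r, (L_bil n).l, X.c_nn, fun c a => (L_le a n c).trans_eq (by ring)⟩

lemma R_add (a a' : A.B.X) (n : ℕ) : R X (a + a') n = R X a n + R X a' n := by
  cases n with
  | zero => exact ContinuousLinearMap.ext fun x => (X.r_right x).map_add a a'
  | succ n =>
    refine Ch_ext fun c b => ?_
    simp only [_root_.add_apply, R_tc, (A.lin_right b).map_add, tc_add_r]

lemma R_smul (t : ℂ) (a : A.B.X) (n : ℕ) : R X (t • a) n = t • R X a n := by
  cases n with
  | zero => exact ContinuousLinearMap.ext fun x => (X.r_right x).map_smul t a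
  | succ n =>
    refine Ch_ext fun c b => ?_
    simp only [_root_.smul_apply, R_tc, (A.lin_right b).map_smul, tc_smul_r]

lemma R_le (a : A.B.X) (n : ℕ) (c : (Ch X n).X) : ‖R X a n c‖ ≤ X.c * ‖c‖ * ‖a‖ := by
  cases n with
  | zero => exact X.rB.le c a
  | succ n =>
    refine (mc_le zero_le_one (norm_nonneg a) id_le (Rm_le a) c).trans ?_
    rw [mul_right_comm]
    gcongr
    exact X.one_le

lemma R_bil (n : ℕ) : IsBil (fun c a => R X a n c) X.c :=
  ⟨fun a => (R X a n).toLinearMap.isLinear,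
    fun c => ⟨fun a a' => by rw [R_add]; rfl, fun t a => by rw [R_smul]; rfl⟩, X.c_nn,
    fun c a => R_le a n c⟩

variable (X)

/-- The bar differential. -/
noncomputable def Bd : (n : ℕ) → ((Ch X (n + 1)).X →L[ℂ] (Ch X n).X)
  | 0 => lc (R_bil 0)
  | n + 1 => mc (Bd n) (ContinuousLinearMap.id ℂ _) + (-1 : ℂ) ^ (n + 1) • lc (R_bil (n + 1))

/-- The last face. -/
noncomputable def Lf (n : ℕ) : (Ch X (n + 1)).X →L[ℂ] (Ch X n).X := lc (L_bil' n)

/-- The differential. -/
noncomputable def dd (n : ℕ) : (Ch X (n + 1)).X →L[ℂ] (Ch X n).X :=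
  Bd X n + (-1 : ℂ) ^ (n + 1) • Lf X n

variable {X}

lemma Bd_zero (c : (Ch X 0).X) (a : A.B.X) : Bd X 0 (tc c a) = R X a 0 c := lc_tc _ c a

lemma Bd_succ {n : ℕ} (c : (Ch X (n + 1)).X) (a : A.B.X) :
    Bd X (n + 1) (tc c a) = tc (Bd X n c) a + (-1 : ℂ) ^ (n + 1) • R X a (n + 1) c := by
  rw [Bd, _root_.add_apply, _root_.smul_apply, mc_tc, lc_tc]
  rfl

lemma Lf_tc {n : ℕ} (c : (Ch X n).X) (a : A.B.X) : Lf X n (tc c a) = L X a n c := lc_tc _ c a

lemma dd_apply {n : ℕ} (z : (Ch X (n + 1)).X) :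
    dd X n z = Bd X n z + (-1 : ℂ) ^ (n + 1) • Lf X n z := rfl

lemma R_R (a b : A.B.X) (n : ℕ) (c : (Ch X n).X) : R X b n (R X a n c) = R X (A.m a b) n c := by
  cases n with
  | zero => exact (X.r_mul c a b).symm
  | succ n =>
    have : R X b (n + 1) ∘L R X a (n + 1) = R X (A.m a b) (n + 1) := Ch_ext fun c e => by
      simp only [ContinuousLinearMap.comp_apply, R_tc, A.assoc]
    exact DFunLike.congr_fun this c

lemma L_L (a b : A.B.X) (n : ℕ) : ∀ c, L X a n (L X b n c) = L X (A.m a b) n c := by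
  induction n with
  | zero => exact fun c => (X.l_mul a b c).symm
  | succ n ih =>
    have : L X a (n + 1) ∘L L X b (n + 1) = L X (A.m a b) (n + 1) := Ch_ext fun c e => by
      simp only [ContinuousLinearMap.comp_apply, L_tc, ih]
    exact DFunLike.congr_fun this

lemma R_L (a b : A.B.X) (n : ℕ) (c : (Ch X n).X) : R X b n (L X a n c) = L X a n (R X b n c) := by
  cases n with
  | zero => exact X.lr a c b
  | succ n =>
    have : R X b (n + 1) ∘L L X a (n + 1) = L X a (n + 1) ∘L R X b (n + 1) := Ch_ext fun c e => by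
      simp only [ContinuousLinearMap.comp_apply, R_tc, L_tc]
    exact DFunLike.congr_fun this c

lemma Bd_R (b : A.B.X) (n : ℕ) (c : (Ch X (n + 1)).X) :
    Bd X n (R X b (n + 1) c) = R X b n (Bd X n c) := by
  have : Bd X n ∘L R X b (n + 1) = R X b n ∘L Bd X n := Ch_ext fun c e => by
    cases n with
    | zero => simp only [ContinuousLinearMap.comp_apply, R_tc, Bd_zero, R_R]
    | succ n => simp only [ContinuousLinearMap.comp_apply, R_tc, Bd_succ, R_R, map_add, map_smul]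
  exact DFunLike.congr_fun this c

lemma Bd_L (a : A.B.X) (n : ℕ) : ∀ c, Bd X n (L X a (n + 1) c) = L X a n (Bd X n c) := by
  induction n with
  | zero =>
    have : Bd X 0 ∘L L X a (0 + 1) = L X a 0 ∘L Bd X 0 := Ch_ext fun c e => by
      simp only [ContinuousLinearMap.comp_apply, L_tc, Bd_zero, R_L]
    exact DFunLike.congr_fun this
  | succ n ih =>
    have : Bd X (n + 1) ∘L L X a (n + 1 + 1) = L X a (n + 1) ∘L Bd X (n + 1) := Ch_ext fun c e => by
      simp only [ContinuousLinearMap.comp_apply, L_tc, Bd_succ, R_L, map_add, map_smul, ih]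
    exact DFunLike.congr_fun this

lemma Bd_Bd (n : ℕ) : ∀ c, Bd X n (Bd X (n + 1) c) = 0 := by
  induction n with
  | zero =>
    have : Bd X 0 ∘L Bd X (0 + 1) = 0 := Ch_ext fun c e => by
      simp only [ContinuousLinearMap.comp_apply, Bd_succ, map_add, map_smul, Bd_zero, Bd_R,
        _root_.zero_apply]
      module
    exact DFunLike.congr_fun this
  | succ n ih =>
    have : Bd X (n + 1) ∘L Bd X (n + 1 + 1) = 0 := Ch_ext fun c e => by
      simp only [ContinuousLinearMap.comp_apply, Bd_succ, map_add, map_smul, Bd_R, ih, tc_zero_l,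
        _root_.zero_apply, pow_succ]
      module
    exact DFunLike.congr_fun this

lemma Lf_R (b : A.B.X) (n : ℕ) (c : (Ch X (n + 1)).X) :
    Lf X n (R X b (n + 1) c) = Lf X n (L X b (n + 1) c) := by
  have : Lf X n ∘L R X b (n + 1) = Lf X n ∘L L X b (n + 1) := Ch_ext fun c e => by
    simp only [ContinuousLinearMap.comp_apply, R_tc, L_tc, Lf_tc, L_L]
  exact DFunLike.congr_fun this c

lemma dd_tc {n : ℕ} (c : (Ch X (n + 1)).X) (a : A.B.X) :
    dd X (n + 1) (tc c a) = tc (Bd X n c) a + (-1 : ℂ) ^ (n + 1) • R X a (n + 1) c -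
      (-1 : ℂ) ^ (n + 1) • L X a (n + 1) c := by
  rw [dd_apply, Bd_succ, Lf_tc, pow_succ _ (n + 1)]
  module

lemma dd_dd (n : ℕ) (c : (Ch X (n + 1 + 1)).X) : dd X n (dd X (n + 1) c) = 0 := by
  have : dd X n ∘L dd X (n + 1) = 0 := Ch_ext fun c e => by
    have h := Bd_Bd n (tc c e)
    rw [Bd_succ, map_add, map_smul] at h
    simp only [ContinuousLinearMap.comp_apply, dd_tc, map_add, map_sub, map_smul,
      _root_.zero_apply]
    simp only [dd_apply, Lf_tc, Lf_R, Bd_L]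
    linear_combination (norm := module) h
  exact DFunLike.congr_fun this c

lemma el_succ (x : X.M.X) (a : ℕ → A.B.X) (n : ℕ) : el X x a (n + 1) = tc (el X x a n) (a n) := rfl

lemma el_congr (x : X.M.X) {a a' : ℕ → A.B.X} (n : ℕ) (h : ∀ j < n, a j = a' j) :
    el X x a n = el X x a' n := by
  induction n with
  | zero => rfl
  | succ n ih => rw [el_succ, el_succ, ih fun j hj => h j (by omega), h n (by omega)]

lemma L_el (b : A.B.X) (x : X.M.X) (a : ℕ → A.B.X) (n : ℕ) :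
    L X b n (el X x a n) = el X (X.l b x) a n := by
  induction n with
  | zero => rfl
  | succ n ih => rw [el_succ, el_succ, L_tc, ih]

lemma Bd_el (x : X.M.X) (a : ℕ → A.B.X) (n : ℕ) : Bd X n (el X x a (n + 1)) =
    el X (X.r x (a 0)) (fun j => a (j + 1)) n +
      ∑ i ∈ Finset.range n, (-1 : ℂ) ^ (i + 1) • el X x (ctr a i) n := by
  induction n with
  | zero => rw [el_succ, Bd_zero, Finset.sum_range_zero, add_zero]; rfl
  | succ n ih =>
    rw [el_succ, Bd_succ, ih, tc_add_l, Finset.sum_range_succ, add_assoc]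
    congr 2
    · refine (map_sum ((tc_bil n).fr (a (n + 1))) _ _).trans (Finset.sum_congr rfl fun i hi => ?_)
      have hi' := Finset.mem_range.1 hi
      have e : ctr a i n = a (n + 1) := by rw [ctr, if_neg (by omega), if_neg (by omega)]
      rw [IsBil.fr_apply, tc_smul_l, el_succ, e]
    · have e : ctr a n n = A.m (a n) (a (n + 1)) := by rw [ctr, if_neg (by omega), if_pos rfl]
      rw [el_succ, el_succ, R_tc, e, el_congr x n (a := ctr a n) (a' := a) fun j hj => if_pos hj]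

theorem isDiff_dd (X : BiMod A) : IsDiff X fun n => dd X n := fun n =>
  ⟨(dd X n).isBoundedLinearMap, fun x a => by
    change dd X n (el X x a (n + 1)) = _
    rw [dd_apply, Bd_el, el_succ, Lf_tc, L_el]⟩

lemma el_ind (n : ℕ) : ∀ (p : Submodule ℂ (Ch X n).X), IsClosed (p : Set (Ch X n).X) →
    (∀ x a, el X x a n ∈ p) → ∀ z, z ∈ p := by
  induction n with
  | zero => exact fun p _ h z => h z fun _ => 0
  | succ n ih =>
    intro p hp h
    refine Ch_ind p hp fun c b => ih (p.comap ((tc_bil n).fr b).toLinearMap)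
      (hp.preimage ((tc_bil n).fr b).continuous) (fun x a => ?_) c
    have := h x (Function.update a n b)
    rwa [el_succ, Function.update_self, el_congr x n (a' := a) fun j hj =>
      Function.update_of_ne hj.ne _ _] at this

theorem IsDiff.eq {d : ∀ n, (Ch X (n + 1)).X → (Ch X n).X} (h : IsDiff X d) (n : ℕ) :
    d n = dd X n :=
  funext (el_ind (n + 1) (LinearMap.eqLocus (h n).1.toContinuousLinearMap.toLinearMap
    (dd X n).toLinearMap) (isClosed_eq (h n).1.continuous (dd X n).continuous)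
    fun x a => ((h n).2 x a).trans ((isDiff_dd X n).2 x a).symm)

end Pool.Agent.Lib.helper3.TS
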