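import Pool.Agent.Lib.helper3.TCh

namespace Pool.Agent.Lib.helper3.TS

open KS Filter Topology

/-- A one-sided bounded approximate diagonal, with approximate right units for tensors. -/
structure Diag (A : BAlg) where
  Λ : Type
  F : Filter Λ
  ne : F.NeBot
  Δ : Λ → (PT A.B A.B).X
  le : ∀ l, ‖Δ l‖ ≤ 1
  D1 : ∀ b, Tendsto (fun l => A.m (lift (mB A) (Δ l)) b - b) F (𝓝 0)
  D2 : ∀ a b, Tendsto (fun l => mp (ContinuousLinearMap.id ℂ _) (Rm (A.m a b)) (Δ l) -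
    mp (Lm a) (Rm b) (Δ l)) F (𝓝 0)
  H3 : ∀ (E : Ban) (z : (PT E A.B).X), ∀ ε > 0, ∃ b,
    ‖z - mp (ContinuousLinearMap.id ℂ _) (Rm b) z‖ ≤ ε

variable {A : BAlg} {X : BiMod A}

lemma sB (X : BiMod A) (n : ℕ) : IsBil (Z := Hom (Ch X n) (Ch X (n + 1)))
    (fun u v => (tc_bil n).fr u ∘L L X v n) X.c :=
  hom_bil _ X.c_nn fun w =>
    ⟨fun v => (tc_bil n).r (L X v n w),
      fun u => ⟨fun v v' => (congrArg (tc · u) (((L_bil n).l w).map_add v v')).trans (tc_add_l ..),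
        fun t v => (congrArg (tc · u) (((L_bil n).l w).map_smul t v)).trans (tc_smul_l ..)⟩,
      mul_nonneg X.c_nn (norm_nonneg w), fun u v => (tc_le _ _).trans
        ((mul_le_mul_of_nonneg_right (L_le v n w) (norm_nonneg u)).trans_eq (by ring))⟩

lemma uB (X : BiMod A) (b : A.B.X) (n : ℕ) : IsBil (Z := Hom (Ch X n) (Ch X (n + 1)))
    (fun u v => (tc_bil n).fr (A.m v b) ∘L R X u n) (X.c * ‖b‖) :=
  hom_bil _ (mul_nonneg X.c_nn (norm_nonneg b)) fun w =>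
    ⟨fun v => ⟨fun u u' => (congrArg (tc · (A.m v b)) (((R_bil n).r w).map_add u u')).trans
          (tc_add_l ..),
        fun t u => (congrArg (tc · (A.m v b)) (((R_bil n).r w).map_smul t u)).trans (tc_smul_l ..)⟩,
      fun u => ⟨fun v v' => (congrArg (tc (R X u n w)) ((A.lin_left b).map_add v v')).trans
          (tc_add_r ..),
        fun t v => (congrArg (tc (R X u n w)) ((A.lin_left b).map_smul t v)).trans (tc_smul_r ..)⟩,
      mul_nonneg (mul_nonneg X.c_nn (norm_nonneg b)) (norm_nonneg w), fun u v => (tc_le _ _).trans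
        ((mul_le_mul (R_le u n w) (A.norm_le v b) (norm_nonneg _)
          (mul_nonneg (mul_nonneg X.c_nn (norm_nonneg w)) (norm_nonneg u))).trans_eq (by ring))⟩

lemma s'B (X : BiMod A) (n : ℕ) : IsBil (Z := Hom (Ch X (n + 1)) (Ch X (n + 1 + 1)))
    (fun u v => mc ((tc_bil n).fr u) (Lm v)) 1 := by
  have h1 : ∀ u u' v, mc ((tc_bil (X := X) n).fr (u + u')) (Lm v) =
      mc ((tc_bil n).fr u) (Lm v) + mc ((tc_bil n).fr u') (Lm v) := fun u u' v =>
    Ch_ext fun c a => by simp only [_root_.add_apply, mc_tc, IsBil.fr_apply, tc_add_r, tc_add_l]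
  have h2 : ∀ (t : ℂ) u v, mc ((tc_bil (X := X) n).fr (t • u)) (Lm v) =
      t • mc ((tc_bil n).fr u) (Lm v) := fun t u v =>
    Ch_ext fun c a => by simp only [_root_.smul_apply, mc_tc, IsBil.fr_apply, tc_smul_r, tc_smul_l]
  have h3 : ∀ u v v', mc ((tc_bil (X := X) n).fr u) (Lm (v + v')) =
      mc ((tc_bil n).fr u) (Lm v) + mc ((tc_bil n).fr u) (Lm v') := fun u v v' =>
    Ch_ext fun c a => by
      simp only [_root_.add_apply, mc_tc, Lm_apply, (A.lin_left a).map_add, tc_add_r]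
  have h4 : ∀ (t : ℂ) u v, mc ((tc_bil (X := X) n).fr u) (Lm (t • v)) =
      t • mc ((tc_bil n).fr u) (Lm v) := fun t u v =>
    Ch_ext fun c a => by
      simp only [_root_.smul_apply, mc_tc, Lm_apply, (A.lin_left a).map_smul, tc_smul_r]
  exact hom_bil _ zero_le_one fun w =>
    ⟨fun v => ⟨fun u u' => by rw [h1]; rfl, fun t u => by rw [h2]; rfl⟩,
      fun u => ⟨fun v v' => by rw [h3]; rfl, fun t v => by rw [h4]; rfl⟩, by positivity,
      fun u v => (mc_le (norm_nonneg u) (norm_nonneg v)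
        (fun c => (tc_le c u).trans_eq (mul_comm _ _)) (Lm_le v) w).trans_eq (by ring)⟩

/-- An operator-valued lift, as an operator. -/
noncomputable def lo {E F G Z : Ban} {b : E.X → F.X → (Hom G Z).X} {C : ℝ} (h : IsBil b C)
    (Δ : (PT E F).X) : G.X →L[ℂ] Z.X := Hom.op (lift h Δ)

/-- An operator-valued lift, evaluated. -/
noncomputable def lv {E F G Z : Ban} {b : E.X → F.X → (Hom G Z).X} {C : ℝ} (h : IsBil b C)
    (w : G.X) : (PT E F).X →L[ℂ] Z.X := evl Z w ∘L lift h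

lemma lo_eq {E F G Z : Ban} {b : E.X → F.X → (Hom G Z).X} {C : ℝ} (h : IsBil b C)
    (Δ : (PT E F).X) (w : G.X) : lo h Δ w = lv h w Δ := rfl

lemma lv_tm {E F G Z : Ban} {b : E.X → F.X → (Hom G Z).X} {C : ℝ} (h : IsBil b C)
    (w : G.X) (u : E.X) (v : F.X) : lv h w (tm u v) = Hom.op (b u v) w := by
  rw [lv, ContinuousLinearMap.comp_apply, lift_tm, evl_apply]

lemma lo_le {E F G Z : Ban} {b : E.X → F.X → (Hom G Z).X} {C : ℝ} (h : IsBil b C)
    {Δ : (PT E F).X} (hΔ : ‖Δ‖ ≤ 1) (w : G.X) : ‖lo h Δ w‖ ≤ C * ‖w‖ :=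
  (Hom.le _ _).trans (mul_le_mul_of_nonneg_right
    ((lift_le h Δ).trans (mul_le_of_le_one_right h.nn hΔ)) (norm_nonneg w))

lemma sB_tm {n : ℕ} (w : (Ch X n).X) (u v : A.B.X) :
    lv (sB X n) w (tm u v) = tc (L X v n w) u := lv_tm ..

lemma uB_tm {n : ℕ} (b : A.B.X) (w : (Ch X n).X) (u v : A.B.X) :
    lv (uB X b n) w (tm u v) = tc (R X u n w) (A.m v b) := lv_tm ..

lemma s'B_tm {n : ℕ} (c : (Ch X n).X) (a u v : A.B.X) :
    lv (s'B X n) (tc c a) (tm u v) = tc (tc c u) (A.m v a) := (lv_tm ..).trans (mc_tc ..)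

/-- The essential part. -/
noncomputable def Ess (X : BiMod A) (n : ℕ) : Submodule ℂ (Ch X n).X :=
  (Submodule.span ℂ {y | ∃ b w, y = L X b n w}).topologicalClosure

lemma Ess_closed (n : ℕ) : IsClosed (Ess X n : Set (Ch X n).X) :=
  Submodule.isClosed_topologicalClosure _

lemma L_mem (b : A.B.X) {n : ℕ} (w : (Ch X n).X) : L X b n w ∈ Ess X n :=
  Submodule.le_topologicalClosure _ (Submodule.subset_span ⟨b, w, rfl⟩)

lemma Ess_le {n : ℕ} (p : Submodule ℂ (Ch X n).X) (hp : IsClosed (p : Set (Ch X n).X))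
    (h : ∀ b w, L X b n w ∈ p) : Ess X n ≤ p :=
  Submodule.topologicalClosure_minimal _ (Submodule.span_le.2 fun _ ⟨b, w, e⟩ => e ▸ h b w) hp

lemma clm_mem {E F Z : Ban} (f : (PT E F).X →L[ℂ] Z.X) (p : Submodule ℂ Z.X)
    (hp : IsClosed (p : Set Z.X)) (h : ∀ u v, f (tm u v) ∈ p) (Δ : (PT E F).X) : f Δ ∈ p :=
  PT_ind (p.comap f.toLinearMap) (hp.preimage f.continuous) h Δ

lemma Lf_mem {n : ℕ} (z : (Ch X (n + 1)).X) : Lf X n z ∈ Ess X n :=
  Ch_ind ((Ess X n).comap (Lf X n).toLinearMap) ((Ess_closed n).preimage (Lf X n).continuous)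
    (fun c a => show Lf X n (tc c a) ∈ Ess X n by rw [Lf_tc]; exact L_mem a c) z

lemma sB_mem {n : ℕ} (Δ : (PT A.B A.B).X) (w : (Ch X n).X) : lo (sB X n) Δ w ∈ Ess X (n + 1) :=
  clm_mem (lv (sB X n) w) _ (Ess_closed _) (fun u v => by rw [sB_tm, ← L_tc]; exact L_mem _ _) Δ

lemma uB_mem {n : ℕ} (b : A.B.X) (Δ : (PT A.B A.B).X) {w : (Ch X n).X} (hw : w ∈ Ess X n) :
    lo (uB X b n) Δ w ∈ Ess X (n + 1) :=
  Ess_le ((Ess X (n + 1)).comap (lo (uB X b n) Δ).toLinearMap)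
    ((Ess_closed _).preimage (lo (uB X b n) Δ).continuous)
    (fun a w => clm_mem (lv (uB X b n) (L X a n w)) _ (Ess_closed _)
      (fun u v => by rw [uB_tm, R_L, ← L_tc]; exact L_mem _ _) Δ) hw

lemma norm_sg (n : ℕ) : ‖(-1 : ℂ) ^ n‖ = 1 := by simp

lemma sg_sg {E : Ban} (n : ℕ) (x : E.X) : (-1 : ℂ) ^ n • (-1 : ℂ) ^ n • x = x := by
  rw [smul_smul, ← mul_pow]; simp

lemma stage2 (D : Diag A) (n : ℕ) {y : (Ch X (n + 1)).X} (hy : y ∈ Ess X (n + 1)) {ε : ℝ}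
    (hε : 0 < ε) : ∃ w, ‖w‖ ≤ X.c * ‖y‖ ∧ ‖y - dd X (n + 1) w‖ ≤ X.c * ‖dd X n y‖ + ε := by
  let W : D.Λ → ((Ch X (n + 1)).X →L[ℂ] (Ch X (n + 1)).X) := fun l =>
    dd X (n + 1) ∘L lo (sB X (n + 1)) (D.Δ l) - lo (sB X n) (D.Δ l) ∘L dd X n +
      (-1 : ℂ) ^ (n + 1) • ContinuousLinearMap.id ℂ _
  have hW : ∀ l y, W l y = dd X (n + 1) (lo (sB X (n + 1)) (D.Δ l) y) -
      lo (sB X n) (D.Δ l) (dd X n y) + (-1 : ℂ) ^ (n + 1) • y := fun _ _ => rfl
  have hc : IsClosed (tendSub D.F W : Set (Ch X (n + 1)).X) := by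
    refine tendSub_closed _ _ (‖dd X (n + 1)‖ * X.c + X.c * ‖dd X n‖ + 1) fun l y => ?_
    rw [hW]
    have h1 := (dd X (n + 1)).le_of_opNorm_le_of_le le_rfl (lo_le (sB X (n + 1)) (D.le l) y)
    have h2 := (lo_le (sB X n) (D.le l) (dd X n y)).trans
      (mul_le_mul_of_nonneg_left ((dd X n).le_opNorm y) X.c_nn)
    refine (norm_add_le _ _).trans ?_
    rw [norm_smul, norm_sg]
    linarith [norm_sub_le_of_le h1 h2]
  have key : y ∈ tendSub D.F W := by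
    refine Ess_le _ hc (fun b w => Ch_ind ((tendSub D.F W).comap (L X b (n + 1)).toLinearMap)
      (hc.preimage (L X b (n + 1)).continuous) (fun c a => ?_) w) hy
    have e : dd X (n + 1) ∘L lv (sB X (n + 1)) (L X b (n + 1) (tc c a)) -
        lv (sB X n) (dd X n (L X b (n + 1) (tc c a))) =
        -((-1 : ℂ) ^ (n + 1) • (lv (sB X n) c ∘L (mp (ContinuousLinearMap.id ℂ _) (Rm (A.m a b)) -
          mp (Lm a) (Rm b)) + (L_bil (n + 1)).fr (tc c a) ∘L Rm b ∘L lift (mB A))) :=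
      PT_ext fun u v => by
        simp only [_root_.sub_apply, _root_.add_apply, _root_.smul_apply, _root_.neg_apply,
          ContinuousLinearMap.comp_apply, map_sub, mp_tm, sB_tm, lift_tm, dd_tc, IsBil.fr_apply,
          ContinuousLinearMap.id_apply, Rm_apply, Lm_apply]
        simp only [dd_apply, Bd_L, map_add, map_smul, tc_add_l, tc_smul_l]
        simp only [L_tc, R_tc, Lf_tc, L_L, A.assoc]
        module
    have t1 := ((lv (sB X n) c).continuous.tendsto 0).comp (D.D2 a b)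
    have t2 := (((L_bil (n + 1)).fr (tc c a)).continuous.tendsto 0).comp (D.D1 b)
    have t3 := ((t1.add t2).const_smul ((-1 : ℂ) ^ (n + 1))).neg
    rw [map_zero, map_zero, add_zero, smul_zero, neg_zero] at t3
    refine mem_tendSub.2 (t3.congr fun l => ?_)
    have e2 := DFunLike.congr_fun e (D.Δ l)
    change _ = W l (L X b (n + 1) (tc c a))
    rw [hW, lo_eq, lo_eq]
    simp only [_root_.sub_apply, _root_.add_apply, _root_.smul_apply, _root_.neg_apply,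
      ContinuousLinearMap.comp_apply, Function.comp, map_sub, IsBil.fr_apply, Rm_apply] at e2 ⊢
    rw [e2]
    module
  have := D.ne
  obtain ⟨l, hl⟩ := (Metric.tendsto_nhds.1 (mem_tendSub.1 key) ε hε).exists
  rw [dist_zero_right, hW] at hl
  refine ⟨-((-1 : ℂ) ^ (n + 1) • lo (sB X (n + 1)) (D.Δ l) y), ?_, ?_⟩
  · rw [norm_neg, norm_smul, norm_sg, one_mul]
    exact lo_le _ (D.le l) y
  · have e : y - dd X (n + 1) (-((-1 : ℂ) ^ (n + 1) • lo (sB X (n + 1)) (D.Δ l) y)) =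
        (-1 : ℂ) ^ (n + 1) • (lo (sB X n) (D.Δ l) (dd X n y) +
          (dd X (n + 1) (lo (sB X (n + 1)) (D.Δ l) y) - lo (sB X n) (D.Δ l) (dd X n y) +
            (-1 : ℂ) ^ (n + 1) • y)) := by
      rw [map_neg, map_smul, smul_add, smul_add, sg_sg]
      module
    rw [e, norm_smul, norm_sg, one_mul]
    exact norm_add_le_of_le (lo_le _ (D.le l) _) hl.le

/-- An auxiliary operator. -/
noncomputable def kap {n : ℕ} (c : (Ch X n).X) : (PT A.B A.B).X →L[ℂ] (Ch X (n + 1)).X :=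
  mp (Bd X n ∘L (tc_bil n).fl c) (ContinuousLinearMap.id ℂ _)

lemma kap_tm {n : ℕ} (c : (Ch X n).X) (u v : A.B.X) : kap c (tm u v) = tc (Bd X n (tc c u)) v :=
  mp_tm ..

lemma stage1 (D : Diag A) (n : ℕ) {z : (Ch X (n + 1)).X} (hz : dd X n z = 0) {ε : ℝ}
    (hε : 0 < ε) : ∃ w, ∃ y ∈ Ess X (n + 1), ‖w‖ ≤ ‖z‖ + ε ∧ ‖z - dd X (n + 1) w - y‖ ≤ 2 * ε := by
  obtain ⟨b, hb⟩ : ∃ b, ‖z - R X b (n + 1) z‖ ≤ ε := D.H3 (Ch X n) z ε hε
  let W : D.Λ → ((Ch X (n + 1)).X →L[ℂ] (Ch X (n + 1)).X) := fun l =>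
    dd X (n + 1) ∘L lo (s'B X n) (D.Δ l) ∘L R X b (n + 1) - lo (uB X b n) (D.Δ l) ∘L Bd X n +
      (-1 : ℂ) ^ (n + 1) • (lo (sB X n) (D.Δ l) ∘L Lf X n ∘L R X b (n + 1) - R X b (n + 1))
  have hW : ∀ l y, W l y = dd X (n + 1) (lo (s'B X n) (D.Δ l) (R X b (n + 1) y)) -
      lo (uB X b n) (D.Δ l) (Bd X n y) + (-1 : ℂ) ^ (n + 1) •
        (lo (sB X n) (D.Δ l) (Lf X n (R X b (n + 1) y)) - R X b (n + 1) y) := fun _ _ => rfl
  have hc : IsClosed (tendSub D.F W : Set (Ch X (n + 1)).X) := by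
    refine tendSub_closed _ _ (‖dd X (n + 1)‖ * ‖R X b (n + 1)‖ + X.c * ‖b‖ * ‖Bd X n‖ +
      (X.c * (‖Lf X n‖ * ‖R X b (n + 1)‖) + ‖R X b (n + 1)‖)) fun l y => ?_
    rw [hW]
    have h0 := (R X b (n + 1)).le_opNorm y
    have h1 := (dd X (n + 1)).le_of_opNorm_le_of_le le_rfl
      ((lo_le (s'B X n) (D.le l) (R X b (n + 1) y)).trans ((one_mul _).le.trans h0))
    have h2 := (lo_le (uB X b n) (D.le l) (Bd X n y)).trans
      (mul_le_mul_of_nonneg_left ((Bd X n).le_opNorm y) (uB X b n).nn)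
    have h3 := (lo_le (sB X n) (D.le l) _).trans
      (mul_le_mul_of_nonneg_left ((Lf X n).le_of_opNorm_le_of_le le_rfl h0) X.c_nn)
    refine (norm_add_le _ _).trans ?_
    rw [norm_smul, norm_sg]
    linarith [norm_sub_le_of_le h1 h2, norm_sub_le_of_le h3 h0]
  have key : z ∈ tendSub D.F W := by
    refine Ch_ind _ hc (fun c a => ?_) z
    have e : dd X (n + 1) ∘L lv (s'B X n) (R X b (n + 1) (tc c a)) -
        lv (uB X b n) (Bd X n (tc c a)) +
        (-1 : ℂ) ^ (n + 1) • lv (sB X n) (Lf X n (R X b (n + 1) (tc c a))) =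
        kap c ∘L (mp (ContinuousLinearMap.id ℂ _) (Rm (A.m a b)) - mp (Lm a) (Rm b)) +
          (-1 : ℂ) ^ (n + 1) • ((tc_bil n).fl c ∘L Rm (A.m a b) ∘L lift (mB A)) :=
      PT_ext fun u v => by
        simp only [_root_.sub_apply, _root_.add_apply, _root_.smul_apply, R_tc,
          ContinuousLinearMap.comp_apply, map_sub, mp_tm, sB_tm, s'B_tm, uB_tm, lift_tm, dd_tc,
          IsBil.fl_apply, ContinuousLinearMap.id_apply, Rm_apply, Lm_apply, kap_tm, ← Bd_R, L_tc,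
          Lf_tc, L_L, A.assoc]
        module
    have t1 := ((kap c).continuous.tendsto 0).comp (D.D2 a b)
    have t2 := (((tc_bil n).fl c).continuous.tendsto 0).comp (D.D1 (A.m a b))
    have t3 := t1.add (t2.const_smul ((-1 : ℂ) ^ (n + 1)))
    rw [map_zero, map_zero, smul_zero, add_zero] at t3
    refine mem_tendSub.2 (t3.congr fun l => ?_)
    have e2 := DFunLike.congr_fun e (D.Δ l)
    rw [hW, lo_eq, lo_eq, lo_eq]
    simp only [_root_.sub_apply, _root_.add_apply, _root_.smul_apply,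
      ContinuousLinearMap.comp_apply, Function.comp, map_sub, IsBil.fl_apply, Rm_apply] at e2 ⊢
    rw [smul_sub, smul_sub, ← add_sub_assoc, ← add_sub_assoc, e2, R_tc]
  have := D.ne
  obtain ⟨l, hl⟩ := (Metric.tendsto_nhds.1 (mem_tendSub.1 key) ε hε).exists
  rw [dist_zero_right, hW] at hl
  have hB : Bd X n z ∈ Ess X n := by
    rw [dd_apply, add_eq_zero_iff_eq_neg] at hz
    rw [hz]
    exact (Ess X n).neg_mem ((Ess X n).smul_mem _ (Lf_mem z))
  refine ⟨(-1 : ℂ) ^ (n + 1) • lo (s'B X n) (D.Δ l) (R X b (n + 1) z),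
    lo (sB X n) (D.Δ l) (Lf X n (R X b (n + 1) z)) -
      (-1 : ℂ) ^ (n + 1) • lo (uB X b n) (D.Δ l) (Bd X n z),
    Submodule.sub_mem _ (sB_mem _ _) (Submodule.smul_mem _ _ (uB_mem b _ hB)), ?_, ?_⟩
  · rw [norm_smul, norm_sg, one_mul]
    refine (lo_le _ (D.le l) _).trans ?_
    linarith [norm_sub_norm_le (R X b (n + 1) z) z, norm_sub_rev (R X b (n + 1) z) z]
  · have e : z - dd X (n + 1) ((-1 : ℂ) ^ (n + 1) • lo (s'B X n) (D.Δ l) (R X b (n + 1) z)) -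
        (lo (sB X n) (D.Δ l) (Lf X n (R X b (n + 1) z)) -
          (-1 : ℂ) ^ (n + 1) • lo (uB X b n) (D.Δ l) (Bd X n z)) =
        (z - R X b (n + 1) z) - (-1 : ℂ) ^ (n + 1) •
          (dd X (n + 1) (lo (s'B X n) (D.Δ l) (R X b (n + 1) z)) -
            lo (uB X b n) (D.Δ l) (Bd X n z) + (-1 : ℂ) ^ (n + 1) •
            (lo (sB X n) (D.Δ l) (Lf X n (R X b (n + 1) z)) - R X b (n + 1) z)) := by
      rw [map_smul, smul_add, sg_sg]
      module
    rw [e]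
    refine (norm_sub_le _ _).trans ?_
    rw [norm_smul, norm_sg]
    linarith

theorem exact_dd (D : Diag A) (X : BiMod A) (n : ℕ) : Exact (X := X) (fun n => dd X n) n := by
  intro z
  refine ⟨fun hz => surj_of_approx (dd X (n + 1)) (LinearMap.ker (dd X n).toLinearMap) (dd_dd n)
    (2 + X.c * (3 + ‖dd X (n + 1)‖ * 2)) (fun z hz => ?_) z hz, fun ⟨w, hw⟩ => hw ▸ dd_dd n w⟩
  rcases eq_or_lt_of_le (norm_nonneg z) with h0 | h0
  · exact ⟨0, by rw [← h0]; simp, by rw [map_zero, sub_zero, ← h0]; simp⟩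
  have hc := X.one_le
  have hd := norm_nonneg (dd X n)
  have hp : 0 < 3 + 2 * X.c * ‖dd X n‖ := by positivity
  set ε := ‖z‖ / (2 * (3 + 2 * X.c * ‖dd X n‖)) with hε
  have hε0 : 0 < ε := by positivity
  have hε1 : (3 + 2 * X.c * ‖dd X n‖) * ε = 1 / 2 * ‖z‖ := by rw [hε]; field_simp
  have hε2 : ε ≤ ‖z‖ := by
    have : 0 ≤ 2 * X.c * ‖dd X n‖ * ε := by positivity
    nlinarith
  obtain ⟨w, y, hy, h1, h2⟩ := stage1 D n hz hε0
  obtain ⟨w', h3, h4⟩ := stage2 D n hy hε0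
  have e1 : dd X n y = -dd X n (z - dd X (n + 1) w - y) := by
    have hz' : dd X n z = 0 := hz
    rw [map_sub, map_sub, hz', dd_dd]
    module
  have h5 : ‖dd X n y‖ ≤ ‖dd X n‖ * (2 * ε) := by
    rw [e1, norm_neg]
    exact (dd X n).le_of_opNorm_le_of_le le_rfl h2
  have h6 : ‖dd X (n + 1) w‖ ≤ ‖dd X (n + 1)‖ * (2 * ‖z‖) :=
    (dd X (n + 1)).le_of_opNorm_le_of_le le_rfl (by linarith)
  have h7 : ‖y‖ ≤ (3 + ‖dd X (n + 1)‖ * 2) * ‖z‖ := by
    have e : y = z - dd X (n + 1) w - (z - dd X (n + 1) w - y) := by abel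
    have h8 := norm_sub_le_of_le (norm_sub_le_of_le (le_refl ‖z‖) h6) h2
    rw [← e] at h8
    linarith
  refine ⟨w + w', (norm_add_le _ _).trans ?_, ?_⟩
  · have := mul_le_mul_of_nonneg_left h7 X.c_nn
    linarith
  · have e : z - dd X (n + 1) (w + w') = (z - dd X (n + 1) w - y) + (y - dd X (n + 1) w') := by
      rw [map_add]; abel
    rw [e]
    have := mul_le_mul_of_nonneg_left h5 X.c_nn
    linarith [norm_add_le_of_le h2 h4]

end Pool.Agent.Lib.helper3.TS
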