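import Pool.Agent.Lib.helper3.TAlg

namespace Pool.Agent.Lib.helper3.TS

open KS HS Filter Topology

lemma sum_upd {ι : Type} [DecidableEq ι] {E : Ban} (a : ι → E.X) (a0 : E.X)
    {S : Finset ι} {k : ι} (hk : k ∉ S) (ε : ι → ℂ) (c : ℂ) :
    a0 + c • a k + ∑ n ∈ S, ε n • a n = a0 + ∑ n ∈ insert k S, Function.update ε k c n • a n := by
  rw [Finset.sum_insert hk, Function.update_self, add_assoc]
  congr 2
  refine Finset.sum_congr rfl fun n hn => ?_
  rw [Function.update_of_ne (fun h : n = k => hk (h ▸ hn))]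

lemma sign_tm {ι : Type} {E F : Ban} (a : ι → E.X) (y : ι → F.X) (S : Finset ι) :
    ∀ a0 y0, (∀ ε : ι → ℂ, (∀ n, ‖ε n‖ ≤ 1) → ‖a0 + ∑ n ∈ S, ε n • a n‖ ≤ 1) →
      (∀ ε : ι → ℂ, (∀ n, ‖ε n‖ ≤ 1) → ‖y0 + ∑ n ∈ S, ε n • y n‖ ≤ 1) →
      ‖tm a0 y0 + ∑ n ∈ S, tm (a n) (y n)‖ ≤ 1 := by
  classical
  induction S using Finset.induction_on with
  | empty =>
    intro a0 y0 h1 h2
    have h1' := h1 (fun _ => 0) fun _ => by simp
    have h2' := h2 (fun _ => 0) fun _ => by simp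
    simp only [Finset.sum_empty, add_zero] at h1' h2' ⊢
    exact (tm_le _ _).trans (mul_le_one₀ h1' (norm_nonneg _) h2')
  | insert k S hk ih =>
    intro a0 y0 h1 h2
    have hu : ∀ (ε : ι → ℂ) (c : ℂ), (∀ n, ‖ε n‖ ≤ 1) → ‖c‖ ≤ 1 →
        ∀ n, ‖Function.update ε k c n‖ ≤ 1 := fun ε c hε hc n => by
      by_cases hn : n = k
      · rw [hn, Function.update_self]; exact hc
      · rw [Function.update_of_ne hn]; exact hε n
    have key : ∀ c : ℂ, ‖c‖ ≤ 1 → ‖tm (a0 + c • a k) (y0 + c • y k) +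
        ∑ n ∈ S, tm (a n) (y n)‖ ≤ 1 := fun c hc =>
      ih _ _ (fun ε hε => by rw [sum_upd a a0 hk]; exact h1 _ (hu ε c hε hc))
        (fun ε hε => by rw [sum_upd y y0 hk]; exact h2 _ (hu ε c hε hc))
    have k1 := key 1 (by simp)
    have k2 := key (-1) (by simp)
    have e : (2 : ℂ) • (tm a0 y0 + ∑ n ∈ insert k S, tm (a n) (y n)) =
        (tm (a0 + (1 : ℂ) • a k) (y0 + (1 : ℂ) • y k) + ∑ n ∈ S, tm (a n) (y n)) +
        (tm (a0 + (-1 : ℂ) • a k) (y0 + (-1 : ℂ) • y k) + ∑ n ∈ S, tm (a n) (y n)) := by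
      rw [Finset.sum_insert hk]
      simp only [tm_add_l, tm_add_r, tm_smul_l, tm_smul_r]
      module
    have e2 := congrArg norm e
    rw [norm_smul, Complex.norm_two] at e2
    have := norm_add_le_of_le k1 k2
    linarith

/-- The approximate diagonal. -/
noncomputable def Dl (S : Finset I) : (PT AA.B AA.B).X :=
  ((Fintype.card (Equiv.Perm S) : ℂ)⁻¹) • ∑ σ : Equiv.Perm S, ∑ p : S,
    tm (G p.1 (Sum.inl (σ p).1)) (G (σ p).1 (Sum.inl p.1))

lemma Dl_le (S : Finset I) : ‖Dl S‖ ≤ 1 := by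
  have h : ∀ σ : Equiv.Perm S,
      ‖∑ p : S, tm (G p.1 (Sum.inl (σ p).1)) (G (σ p).1 (Sum.inl p.1))‖ ≤ 1 := fun σ => by
    have := sign_tm (fun p : S => G p.1 (Sum.inl (σ p).1)) (fun p : S => G (σ p).1 (Sum.inl p.1))
      Finset.univ 0 0
      (fun ε hε => by
        rw [zero_add]; exact norm_sum_G _ ε hε _ _ (Subtype.val_injective.comp σ.injective))
      (fun ε hε => by rw [zero_add]; exact norm_sum_G _ ε hε _ _ Subtype.val_injective)
    rwa [tm_zero_l, zero_add] at this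
  have h2 := norm_sum_le_of_le Finset.univ fun σ _ => h σ
  rw [Finset.sum_const, Finset.card_univ, nsmul_eq_mul, mul_one] at h2
  rw [Dl, norm_smul, norm_inv, Complex.norm_natCast]
  exact inv_mul_le_one_of_le₀ h2 (Nat.cast_nonneg _)

lemma f_inl (j : I) (κ : K) : f (Sum.inl j) κ = if κ = Sum.inl j then 1 else 0 := rfl

lemma sum_f {Z : Ban} {S : Finset I} (i : S) (y : S → Z.X) :
    ∑ p : S, f (Sum.inl p.1) (Sum.inl i.1) • y p = y i := by
  rw [Finset.sum_eq_single i (fun p _ hp => by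
    rw [f_inl, if_neg fun h => hp (Subtype.ext (Sum.inl_injective h)).symm, zero_smul])
    (fun h => absurd (Finset.mem_univ i) h), f_inl, if_pos rfl, one_smul]

lemma D1 (b : AA.B.X) : Tendsto (fun S => AA.m (lift (mB AA) (Dl S)) b - b) atTop (𝓝 0) := by
  refine tend_A atTop (fun S => Lm (lift (mB AA) (Dl S)) - ContinuousLinearMap.id ℂ _) 2
    (fun S x => ?_) (fun i γ => ?_) b
  · have h1 := (lift_le (mB AA) (Dl S)).trans ((one_mul _).le.trans (Dl_le S))
    have h2 := (Lm_le (lift (mB AA) (Dl S)) x).trans (mul_le_of_le_one_left (norm_nonneg x) h1)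
    exact (norm_sub_le_of_le h2 (le_refl ‖x‖)).trans_eq (by ring)
  · filter_upwards [eventually_finset_mem_atTop i] with S hS
    change Rm (G i γ) (lift (mB AA) (Dl S)) - G i γ = 0
    have e : ∀ p : S, f (Sum.inl p.1) (Sum.inl p.1) = 1 := fun p => if_pos rfl
    simp only [Dl, map_smul, map_sum, lift_tm, G_mul, e, one_smul, Rm_apply]
    simp only [sum_f (⟨i, hS⟩ : S) fun p => G p.1 γ]
    rw [Finset.sum_const, Finset.card_univ, ← Nat.cast_smul_eq_nsmul ℂ, smul_smul,
      inv_mul_cancel₀ (Nat.cast_ne_zero.2 Fintype.card_ne_zero), one_smul, sub_self]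

lemma beta_bil {A : BAlg} {Δ : (PT A.B A.B).X} (hΔ : ‖Δ‖ ≤ 1) : IsBil (Z := PT A.B A.B)
    (fun a b => mp (ContinuousLinearMap.id ℂ _) (Rm (A.m a b)) Δ - mp (Lm a) (Rm b) Δ) 2 := by
  have l1 : ∀ a a' b, A.m (a + a') b = A.m a b + A.m a' b := fun a a' b => (A.lin_left b).map_add a a'
  have l2 : ∀ (c : ℂ) a b, A.m (c • a) b = c • A.m a b := fun c a b => (A.lin_left b).map_smul c a
  have r1 : ∀ a b b', A.m a (b + b') = A.m a b + A.m a b' := fun a => (A.lin_right a).map_add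
  have r2 : ∀ (c : ℂ) a b, A.m a (c • b) = c • A.m a b := fun c a => (A.lin_right a).map_smul c
  let β : A.B.X → A.B.X → ((PT A.B A.B).X →L[ℂ] (PT A.B A.B).X) := fun a b =>
    mp (ContinuousLinearMap.id ℂ _) (Rm (A.m a b)) - mp (Lm a) (Rm b)
  have hβ : ∀ a b u v, β a b (tm u v) = tm u (A.m v (A.m a b)) - tm (A.m a u) (A.m v b) :=
    fun a b u v => by simp only [β, _root_.sub_apply, mp_tm]; rfl
  refine ⟨fun b => ⟨fun a a' => DFunLike.congr_fun (PT_ext (f := β (a + a') b) (g := β a b + β a' b)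
      fun u v => ?_) Δ, fun c a => DFunLike.congr_fun (PT_ext (f := β (c • a) b) (g := c • β a b)
      fun u v => ?_) Δ⟩,
    fun a => ⟨fun b b' => DFunLike.congr_fun (PT_ext (f := β a (b + b')) (g := β a b + β a b')
      fun u v => ?_) Δ, fun c b => DFunLike.congr_fun (PT_ext (f := β a (c • b)) (g := c • β a b)
      fun u v => ?_) Δ⟩, zero_le_two, fun a b => ?_⟩
  · simp only [_root_.add_apply, hβ, l1, r1, tm_add_l, tm_add_r]; abel
  · simp only [_root_.smul_apply, hβ, l2, r2, tm_smul_l, tm_smul_r, smul_sub]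
  · simp only [_root_.add_apply, hβ, r1, tm_add_r]; abel
  · simp only [_root_.smul_apply, hβ, r2, tm_smul_r, smul_sub]
  · have h1 := mp_le zero_le_one (norm_nonneg _) id_le (Rm_le (A.m a b)) Δ
    have h2 := mp_le (norm_nonneg _) (norm_nonneg _) (Lm_le a) (Rm_le b) Δ
    have h3 := A.norm_le a b
    have h4 := mul_le_of_le_one_right (norm_nonneg (A.m a b)) hΔ
    have h5 := mul_le_of_le_one_right (mul_nonneg (norm_nonneg a) (norm_nonneg b)) hΔ
    refine (norm_sub_le_of_le h1 h2).trans ?_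
    linarith

lemma D2 (a b : AA.B.X) : Tendsto (fun S => mp (ContinuousLinearMap.id ℂ _) (Rm (AA.m a b)) (Dl S) -
    mp (Lm a) (Rm b) (Dl S)) atTop (𝓝 0) := by
  refine A_ind (tendSub atTop fun S => (beta_bil (Dl_le S)).fl a)
    (tendSub_closed _ _ (2 * ‖a‖) fun S => (beta_bil (Dl_le S)).le a) (fun i' γ' => ?_) b
  refine tend_A atTop (fun S => (beta_bil (Dl_le S)).fr (G i' γ')) (2 * ‖G i' γ'‖)
    (fun S x => ((beta_bil (Dl_le S)).le x _).trans_eq (by ring)) (fun i γ => ?_) a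
  filter_upwards [eventually_finset_mem_atTop i, eventually_finset_mem_atTop i'] with S hS hS'
  rw [IsBil.fr_apply, sub_eq_zero]
  simp only [Dl, map_smul, map_sum, mp_tm, ContinuousLinearMap.id_apply, Rm_apply, Lm_apply, G_mul,
    (AA.lin_right _).map_smul, tm_smul_l, tm_smul_r]
  congr 1
  have e1 : ∀ σ : Equiv.Perm S, ∑ p : S, f γ (Sum.inl i') • f (Sum.inl p.1) (Sum.inl i) •
      tm (G p.1 (Sum.inl (σ p).1)) (G (σ p).1 γ') =
      f γ (Sum.inl i') • tm (G i (Sum.inl (σ ⟨i, hS⟩).1)) (G (σ ⟨i, hS⟩).1 γ') := fun σ => by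
    rw [← Finset.smul_sum, sum_f (⟨i, hS⟩ : S)]
  have e2 : ∀ σ : Equiv.Perm S, ∑ p : S, f (Sum.inl p.1) (Sum.inl i') • f γ (Sum.inl p.1) •
      tm (G i (Sum.inl (σ p).1)) (G (σ p).1 γ') =
      f γ (Sum.inl i') • tm (G i (Sum.inl (σ ⟨i', hS'⟩).1)) (G (σ ⟨i', hS'⟩).1 γ') := fun σ => by
    rw [sum_f (⟨i', hS'⟩ : S)]
  simp only [e1, e2]
  refine Fintype.sum_equiv (Equiv.mulRight (Equiv.swap (⟨i, hS⟩ : S) ⟨i', hS'⟩)) _ _ fun σ => ?_
  simp only [Equiv.coe_mulRight, Equiv.Perm.mul_apply, Equiv.swap_apply_right]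

/-- The block of a column index. -/
def col : K → ℕ
  | Sum.inl j => j.1
  | Sum.inr n => n

lemma f_col {γ κ : K} (h : col κ ≠ col γ) : f γ κ = 0 := by
  rcases γ with j | n
  · exact if_neg fun h' : κ = Sum.inl j => h (h' ▸ rfl)
  · rcases κ with j | m
    · exact if_neg h
    · exact if_neg h

/-- Truncation of the columns. -/
noncomputable def P0 (N : ℕ) : (Bnd K LB).X →L[ℂ] (Bnd K LB).X :=
  LinearMap.mkContinuous
    { toFun := fun ξ => mkB (fun κ => if col κ < N then bev K κ ξ else 0) ‖ξ‖ fun κ => by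
        split_ifs
        · exact bev_le κ ξ
        · rw [norm_zero]; exact norm_nonneg _
      map_add' := fun ξ η => bnd_ext fun κ => by
        simp only [map_add, bev_mkB]
        split_ifs
        · rfl
        · rw [add_zero]
      map_smul' := fun c ξ => bnd_ext fun κ => by
        simp only [map_smul, bev_mkB, RingHom.id_apply]
        split_ifs
        · rfl
        · rw [smul_zero] } 1 fun ξ => bnd_le _ (by positivity) fun κ => by
      rw [one_mul]
      change ‖if col κ < N then bev K κ ξ else 0‖ ≤ _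
      split_ifs
      · exact bev_le κ ξ
      · rw [norm_zero]; exact norm_nonneg _

lemma bev_P0 (N : ℕ) (ξ : (Bnd K LB).X) (κ : K) :
    bev K κ (P0 N ξ) = if col κ < N then bev K κ ξ else 0 := rfl

lemma P0_g (N : ℕ) (i : I) (γ : K) : P0 N (g i γ) = if col γ < N then g i γ else 0 :=
  bnd_ext fun κ => by
    rw [bev_P0]
    by_cases h : col κ = col γ
    · rw [h]
      split_ifs
      · rfl
      · rw [map_zero]
    · split_ifs
      all_goals simp only [bev_g, f_col h, zero_smul, map_zero]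

/-- Truncation on the algebra. -/
noncomputable def P (N : ℕ) : AA.B.X →L[ℂ] AA.B.X :=
  (P0 N ∘L val).codRestrict SS fun a => clm_SS (P0 N) (fun i γ => by
    rw [P0_g]
    split_ifs
    · exact g_mem i γ
    · exact SS.zero_mem) (val_mem a)

lemma P_G (N : ℕ) (i : I) (γ : K) : P N (G i γ) = if col γ < N then G i γ else 0 :=
  val_inj ((P0_g N i γ).trans (by split_ifs <;> simp only [val_G, map_zero]))

lemma P_le (N : ℕ) (a : AA.B.X) : ‖P N a‖ ≤ ‖a‖ :=
  bnd_le (P0 N (val a)) (norm_nonneg a) fun κ => by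
    rw [bev_P0]
    split_ifs
    · exact bev_le κ (val a)
    · rw [norm_zero]; exact norm_nonneg _

/-- Approximate right units. -/
noncomputable def Q (N m : ℕ) : AA.B.X := ∑ n ∈ Finset.range N,
  (∑ j ∈ Finset.range m, (1 : ℂ) • G (n, j) (Sum.inl (n, j)) -
    ∑ j ∈ Finset.range m, (1 : ℂ) • G (n, m) (Sum.inl (n, j)) + G (n, m) (Sum.inr n))

lemma Q_le (N m : ℕ) : ‖Q N m‖ ≤ ∑ n ∈ Finset.range N, (1 + 1 + wt (Sum.inr n)) :=
  norm_sum_le_of_le _ fun n _ => norm_add_le_of_le (norm_sub_le_of_le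
    (norm_sum_G _ _ (fun _ => norm_one.le) _ _ fun _ _ h => (Prod.ext_iff.1 h).2)
    (norm_sum_G _ _ (fun _ => norm_one.le) (fun _ => (n, m)) _ fun _ _ h => (Prod.ext_iff.1 h).2))
    (norm_G _ _)

lemma G_Q (N : ℕ) (i : I) (γ : K) : ∀ᶠ m in atTop, Lm (G i γ) (Q N m) = P N (G i γ) := by
  have key : ∀ m,
      ∑ j ∈ Finset.range m, f γ (Sum.inl (col γ, j)) • G i (Sum.inl (col γ, j)) -
      ∑ j ∈ Finset.range m, f γ (Sum.inl (col γ, m)) • G i (Sum.inl (col γ, j)) +
        f γ (Sum.inl (col γ, m)) • G i (Sum.inr (col γ)) = G i γ →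
      Lm (G i γ) (Q N m) = P N (G i γ) := by
    intro m hm
    simp only [Q, map_sum, map_add, map_sub, one_smul, Lm_apply, G_mul, P_G]
    have h0 : ∀ n, n ≠ col γ →
        ∑ j ∈ Finset.range m, f γ (Sum.inl (n, j)) • G i (Sum.inl (n, j)) -
        ∑ j ∈ Finset.range m, f γ (Sum.inl (n, m)) • G i (Sum.inl (n, j)) +
          f γ (Sum.inl (n, m)) • G i (Sum.inr n) = 0 := fun n hn => by
      have h : ∀ j, f γ (Sum.inl (n, j)) = 0 := fun j => f_col hn
      simp only [h, zero_smul, Finset.sum_const_zero, sub_self, add_zero]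
    split_ifs with h
    · rw [Finset.sum_eq_single_of_mem _ (Finset.mem_range.2 h) fun n _ hn => h0 n hn, hm]
    · exact Finset.sum_eq_zero fun n hn => h0 n fun e => h (e ▸ Finset.mem_range.1 hn)
  rcases γ with ⟨n0, j0⟩ | n0
  · filter_upwards [eventually_gt_atTop j0] with m hm
    refine key m ?_
    have h1 : f (Sum.inl (n0, j0)) (Sum.inl (n0, m)) = 0 :=
      if_neg fun h => hm.ne' (Prod.ext_iff.1 (Sum.inl_injective h)).2
    simp only [col, h1, zero_smul, Finset.sum_const_zero, sub_zero, add_zero]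
    rw [Finset.sum_eq_single_of_mem j0 (Finset.mem_range.2 hm) fun j _ hj => by
      rw [f_inl, if_neg fun h => hj (Prod.ext_iff.1 (Sum.inl_injective h)).2, zero_smul],
      f_inl, if_pos rfl, one_smul]
  · refine Eventually.of_forall fun m => key m ?_
    have h1 : ∀ j, f (Sum.inr n0) (Sum.inl (n0, j)) = 1 := fun j => if_pos rfl
    simp only [col, h1, sub_self, zero_add, one_smul]

lemma tend_PT {E F : Ban} (S : F.X →L[ℂ] F.X) (T : ℕ → (F.X →L[ℂ] F.X)) {C : ℝ} (hC : 0 ≤ C)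
    (h : ∀ l x, ‖T l x‖ ≤ C * ‖x‖) (h0 : ∀ x, Tendsto (fun l => S x - T l x) atTop (𝓝 0))
    (z : (PT E F).X) {ε : ℝ} (hε : 0 < ε) : ∃ l, ‖mp (ContinuousLinearMap.id ℂ _) S z -
      mp (ContinuousLinearMap.id ℂ _) (T l) z‖ ≤ ε := by
  have key : z ∈ tendSub atTop fun l => mp (ContinuousLinearMap.id ℂ E.X) S -
      mp (ContinuousLinearMap.id ℂ _) (T l) := by
    refine PT_ind _ (tendSub_closed _ _ (1 * ‖S‖ + 1 * C) fun l z => ?_) (fun x y => ?_) z
    · exact (norm_sub_le_of_le (mp_le zero_le_one (norm_nonneg _) id_le S.le_opNorm z)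
        (mp_le zero_le_one hC id_le (h l) z)).trans_eq (by ring)
    · have := ((tm_bil.fl x).continuous.tendsto 0).comp (h0 y)
      rw [map_zero] at this
      refine mem_tendSub.2 (this.congr fun l => ?_)
      simp only [Function.comp, map_sub, _root_.sub_apply, mp_tm, IsBil.fl_apply,
        ContinuousLinearMap.id_apply]
  obtain ⟨l, hl⟩ := (Metric.tendsto_nhds.1 (mem_tendSub.1 key) ε hε).exists
  rw [dist_zero_right] at hl
  exact ⟨l, hl.le⟩

lemma H3 (E : Ban) (z : (PT E AA.B).X) (ε : ℝ) (hε : 0 < ε) :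
    ∃ b, ‖z - mp (ContinuousLinearMap.id ℂ _) (Rm b) z‖ ≤ ε := by
  obtain ⟨N, hN⟩ := tend_PT (ContinuousLinearMap.id ℂ _) P zero_le_one
    (fun l x => (P_le l x).trans (one_mul _).ge)
    (tend_A atTop (fun N => ContinuousLinearMap.id ℂ _ - P N) 2
      (fun l x => (norm_sub_le_of_le (le_refl ‖x‖) (P_le l x)).trans_eq (by ring)) fun i γ => by
        filter_upwards [eventually_gt_atTop (col γ)] with N hN
        rw [_root_.sub_apply, P_G, if_pos hN]
        exact sub_self _) z (half_pos hε)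
  have hQ : ∀ m x, ‖Rm (Q N m) x‖ ≤ (∑ n ∈ Finset.range N, (1 + 1 + wt (Sum.inr n))) * ‖x‖ :=
    fun m x => (Rm_le _ x).trans (mul_le_mul_of_nonneg_right (Q_le N m) (norm_nonneg x))
  obtain ⟨m, hm⟩ := tend_PT (P N) (fun m => Rm (Q N m)) ((norm_nonneg _).trans (Q_le N 0)) hQ
    (tend_A atTop (fun m => P N - Rm (Q N m)) (1 + ∑ n ∈ Finset.range N, (1 + 1 + wt (Sum.inr n)))
      (fun l x => (norm_sub_le_of_le (P_le N x) (hQ l x)).trans_eq (by ring)) fun i γ =>
        (G_Q N i γ).mono fun m hm => sub_eq_zero.2 hm.symm) z (half_pos hε)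
  have e : mp (ContinuousLinearMap.id ℂ E.X) (ContinuousLinearMap.id ℂ AA.B.X) =
      ContinuousLinearMap.id ℂ _ := PT_ext fun x y => mp_tm ..
  rw [e, ContinuousLinearMap.id_apply] at hN
  refine ⟨Q N m, ?_⟩
  have := norm_add_le_of_le hN hm
  rwa [sub_add_sub_cancel, add_halves] at this

/-- The approximate diagonal data. -/
noncomputable def diag : Diag AA where
  Λ := Finset I
  F := atTop
  ne := inferInstance
  Δ := Dl
  le := Dl_le
  D1 := D1
  D2 := D2
  H3 := H3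

/-- The test bimodule. -/
noncomputable def XX : BiMod AA where
  M := Bnd I CB
  l _ _ := 0
  r x a := cmp id Sum.inl x (val a)
  l_left _ := ⟨fun _ _ => (add_zero _).symm, fun _ _ => (smul_zero _).symm⟩
  l_right _ := ⟨fun _ _ => (add_zero _).symm, fun _ _ => (smul_zero _).symm⟩
  r_left a := (cmp_bil id Sum.inl).l (val a)
  r_right x := ⟨fun a b => by rw [map_add]; exact ((cmp_bil id Sum.inl).r x).map_add _ _,
    fun c a => by rw [map_smul]; exact ((cmp_bil id Sum.inl).r x).map_smul _ _⟩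
  l_mul _ _ _ := rfl
  r_mul x a b := (cmp_assoc id Sum.inl (fun _ => rfl) x (val a) (val b)).symm
  lr _ _ b := ((cmp_bil id Sum.inl).l (val b)).map_zero
  bound := ⟨1, fun a x => ⟨norm_zero.trans_le (by positivity),
    ((cmp_bil id Sum.inl).le x (val a)).trans_eq (by rw [norm_val]; ring)⟩⟩

/-- Coordinates of the test bimodule. -/
noncomputable def evX (i : I) : (Ch XX 0).X →L[ℂ] CB.X := bev I i

/-- The pairing with `ℓ¹`. -/
noncomputable def prX (x : (Ch XX 0).X) : LB.X →L[ℂ] CB.X := opr (W := I) (E := CB) id x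

lemma evX_dd (i : I) (x : (Ch XX 0).X) (a : AA.B.X) :
    evX i (dd XX 0 (tc x a)) = prX x (bev K (Sum.inl i) (val a)) := by
  have e : L XX a 0 x = 0 := rfl
  rw [dd_apply, Bd_zero, Lf_tc, e, smul_zero, add_zero]
  rfl

lemma lim_bil (n : ℕ) :
    IsBil (Z := CB) (fun (x : (Ch XX 0).X) (a : AA.B.X) => prX x (bev K (Sum.inr n) (val a))) 1 :=
  ⟨fun _ => (opr_bil (W := I) (E := CB) id).l _,
    fun x => (prX x ∘L bev K (Sum.inr n) ∘L val).toLinearMap.isLinear, zero_le_one,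
    fun x a => ((opr_bil (W := I) (E := CB) id).le x _).trans
      (mul_le_mul_of_nonneg_left (bev_le _ (val a)) (by positivity))⟩

lemma lim_dd (n : ℕ) (z : (Ch XX (0 + 1)).X) : Tendsto
    (fun j => evX (n, j) (dd XX 0 z) - ((n : ℂ) + 1)⁻¹ • lc (lim_bil n) z) atTop (𝓝 0) := by
  have hn : (n : ℂ) + 1 ≠ 0 := Nat.cast_add_one_ne_zero n
  refine Ch_ind (tendSub atTop fun j => evX (n, j) ∘L dd XX 0 - ((n : ℂ) + 1)⁻¹ • lc (lim_bil n))
    (tendSub_closed _ _ (‖dd XX 0‖ + ‖((n : ℂ) + 1)⁻¹ • lc (lim_bil n)‖) fun j z => ?_)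
    (fun x a => ?_) z
  · exact (norm_sub_le_of_le ((bev_le (W := I) (E := CB) (n, j) _).trans ((dd XX 0).le_opNorm z))
      ((((n : ℂ) + 1)⁻¹ • lc (lim_bil n)).le_opNorm z)).trans_eq (by ring)
  · have h := tend_A atTop (fun j => bev K (Sum.inl (n, j)) ∘L val -
        ((n : ℂ) + 1)⁻¹ • (bev K (Sum.inr n) ∘L val))
      (1 + ‖((n : ℂ) + 1)⁻¹ • (bev K (Sum.inr n) ∘L val)‖)
      (fun j a => (norm_sub_le_of_le (bev_le _ (val a)) (ContinuousLinearMap.le_opNorm _ a)).trans_eq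
        (by rw [norm_val]; ring)) (fun i γ => by
        simp only [_root_.sub_apply, _root_.smul_apply, ContinuousLinearMap.comp_apply, val_G, bev_g]
        rcases γ with ⟨n0, j0⟩ | n0
        · filter_upwards [eventually_gt_atTop j0] with m hm
          rw [f_inl, f_inl, if_neg fun h => hm.ne' (Prod.ext_iff.1 (Sum.inl_injective h)).2,
            if_neg Sum.inr_ne_inl, zero_smul, smul_zero, sub_self]
        · refine Eventually.of_forall fun j => ?_
          simp only [f]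
          split_ifs with h
          · rw [← h, smul_smul, inv_mul_cancel₀ hn, sub_self]
          · rw [zero_smul, smul_zero, sub_self]) a
    have h2 := ((prX x).continuous.tendsto 0).comp h
    rw [map_zero] at h2
    refine mem_tendSub.2 (h2.congr fun j => ?_)
    simp only [Function.comp, _root_.sub_apply, _root_.smul_apply, ContinuousLinearMap.comp_apply,
      map_sub, map_smul, evX_dd, lc_tc]

/-- The constant function one. -/
noncomputable def oneX : (Ch XX 0).X :=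
  mkB (W := I) (E := CB) (fun _ => (1 : ℂ)) 1 fun _ => (norm_one (α := ℂ)).le

lemma not_closed : ¬ IsClosed (Set.range (dd XX 0)) := by
  intro hc
  have : CompleteSpace (LinearMap.range (dd XX 0).toLinearMap) := hc.completeSpace_coe
  obtain ⟨C, -, hC⟩ := (dd XX 0).rangeRestrict.exists_preimage_norm_le
    (LinearMap.surjective_rangeRestrict (dd XX 0).toLinearMap)
  obtain ⟨n, hn⟩ := exists_nat_gt C
  let y := dd XX 0 (tc oneX (G (0, 0) (Sum.inr n)))
  have hy : ∀ i, evX i y = f (Sum.inr n) (Sum.inl i) • (show CB.X from (1 : ℂ)) := fun i => by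
    rw [evX_dd, val_G, bev_g, map_smul]
    exact congrArg _ (opr_e (W := I) (E := CB) id oneX (0, 0))
  have hy1 : ‖y‖ ≤ 1 := bnd_le (W := I) (E := CB) y zero_le_one fun i => by
    refine (congrArg norm (hy i)).trans_le ?_
    simp only [f]
    split_ifs
    · rw [one_smul]; exact (norm_one (α := ℂ)).le
    · rw [zero_smul, norm_zero]; exact zero_le_one
  obtain ⟨z, hz, hz'⟩ := hC ⟨y, _, rfl⟩
  have hz1 : dd XX 0 z = y := congrArg Subtype.val hz
  have h1 := lim_dd n z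
  have e : ∀ j, f (Sum.inr n) (Sum.inl (n, j)) = 1 := fun j => if_pos rfl
  simp only [hz1, hy, e, one_smul] at h1
  have h2 := congrArg norm (sub_eq_zero.1 (tendsto_nhds_unique tendsto_const_nhds h1))
  have h3 : ‖lc (lim_bil n) z‖ ≤ 1 * ‖z‖ := lift_le (lim_bil n) z
  have h4 : ‖(n : ℂ) + 1‖ = n + 1 := by exact_mod_cast Complex.norm_natCast (n + 1)
  have h5 : ‖(show CB.X from (1 : ℂ))‖ = 1 := norm_one (α := ℂ)
  rw [norm_smul, norm_inv, h4, h5, eq_inv_mul_iff_mul_eq₀ (by positivity)] at h2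
  have h6 : ‖z‖ ≤ C * ‖y‖ := hz'
  have h7 : 0 ≤ C * ‖y‖ := (norm_nonneg z).trans h6
  nlinarith [norm_nonneg y]

theorem main : ∃ A : BAlg, (∀ X : BiMod A, ∃ d, IsDiff X d) ∧
    (∀ (X : BiMod A) d, IsDiff X d → ∀ k, Exact d k) ∧ ¬ Amenable A :=
  ⟨AA, fun X => ⟨_, isDiff_dd X⟩, fun X d hd k => by
    have e : d = fun n => ⇑(dd X n) := funext hd.eq
    rw [e]
    exact exact_dd diag X k, fun h => not_closed (h XX _ (isDiff_dd XX)).2⟩

end Pool.Agent.Lib.helper3.TS
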