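import Pool.Agent.Lib.helper3.KStmt

namespace Pool.Agent.Lib.helper3.TS

open KS

/-- The two-element family `E`, `F`. -/
def pr (E F : Ban) : Bool → Ban
  | false => E
  | true => F

/-- A complex seminormed space. -/
structure SN where
  X : Type
  [grp : SeminormedAddCommGroup X]
  [spc : NormedSpace ℂ X]

instance (E : SN) : SeminormedAddCommGroup E.X := E.grp

instance (E : SN) : NormedSpace ℂ E.X := E.spc

/-- The algebraic tensor product of the family, with Mathlib's projective seminorm. -/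
noncomputable def AT (E F : Ban) : SN where
  X := PiTensorProduct ℂ fun i => (pr E F i).X

/-- The completed projective tensor product. -/
noncomputable def PT (E F : Ban) : Ban where
  X := UniformSpace.Completion (AT E F).X

/-- The pair `(x, y)` as a section of the family. -/
def sec {E F : Ban} (x : E.X) (y : F.X) : ∀ i, (pr E F i).X
  | false => x
  | true => y

/-- The elementary tensor in the algebraic tensor product. -/
noncomputable def tm0 {E F : Ban} (x : E.X) (y : F.X) : (AT E F).X :=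
  PiTensorProduct.tprod ℂ (sec x y)

/-- The elementary tensor `x ⊗ y`. -/
noncomputable def tm {E F : Ban} (x : E.X) (y : F.X) : (PT E F).X :=
  UniformSpace.Completion.coe' (tm0 x y)

/-- A Banach bimodule. -/
structure BiMod (A : BAlg) where
  M : Ban
  l : A.B.X → M.X → M.X
  r : M.X → A.B.X → M.X
  l_left : ∀ x, IsLinearMap ℂ fun a => l a x
  l_right : ∀ a, IsLinearMap ℂ (l a)
  r_left : ∀ a, IsLinearMap ℂ fun x => r x a
  r_right : ∀ x, IsLinearMap ℂ (r x)
  l_mul : ∀ a b x, l (A.m a b) x = l a (l b x)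
  r_mul : ∀ x a b, r x (A.m a b) = r (r x a) b
  lr : ∀ a x b, r (l a x) b = l a (r x b)
  bound : ∃ C : ℝ, ∀ a x, ‖l a x‖ ≤ C * ‖a‖ * ‖x‖ ∧ ‖r x a‖ ≤ C * ‖a‖ * ‖x‖

variable {A : BAlg}

/-- The chain spaces `X ⊗ A ⊗ ⋯ ⊗ A`. -/
noncomputable def Ch (X : BiMod A) : ℕ → Ban
  | 0 => X.M
  | n + 1 => PT (Ch X n) A.B

/-- The elementary chain `x ⊗ a 0 ⊗ ⋯ ⊗ a (n - 1)`. -/
noncomputable def el (X : BiMod A) (x : X.M.X) (a : ℕ → A.B.X) : (n : ℕ) → (Ch X n).X
  | 0 => x
  | n + 1 => tm (el X x a n) (a n)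

/-- The sequence with the terms `i` and `i + 1` multiplied. -/
def ctr (a : ℕ → A.B.X) (i j : ℕ) : A.B.X :=
  if j < i then a j else if j = i then A.m (a i) (a (i + 1)) else a (j + 1)

/-- `d` is the Hochschild differential: bounded, linear, given by the formula on elementary
chains. -/
def IsDiff (X : BiMod A) (d : ∀ n, (Ch X (n + 1)).X → (Ch X n).X) : Prop :=
  ∀ n, IsBoundedLinearMap ℂ (d n) ∧ ∀ x a, d n (el X x a (n + 1)) =
    el X (X.r x (a 0)) (fun j => a (j + 1)) n +
      ∑ i ∈ Finset.range n, (-1 : ℂ) ^ (i + 1) • el X x (ctr a i) n +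
      (-1 : ℂ) ^ (n + 1) • el X (X.l (a n) x) a n

/-- Vanishing of the homology in degree `k + 1`. -/
def Exact {X : BiMod A} (d : ∀ n, (Ch X (n + 1)).X → (Ch X n).X) (k : ℕ) : Prop :=
  ∀ z, d k z = 0 ↔ ∃ w, d (k + 1) w = z

/-- Amenability: `H₁ = 0` and `H₀` Hausdorff for every bimodule. -/
def Amenable (A : BAlg) : Prop :=
  ∀ (X : BiMod A) d, IsDiff X d → Exact d 0 ∧ IsClosed (Set.range (d 0))

end Pool.Agent.Lib.helper3.TS
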