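import Mathlib

open Filter MeasureTheory AddCircle
open scoped InnerProductSpace ComplexConjugate

namespace Pool.Agent.Lib.helper3.TTOClark

/-- normalised arc length on the circle `ℝ/ℤ` -/
noncomputable abbrev mu : Measure (AddCircle (1 : ℝ)) := haarAddCircle

/-- `L²(𝕋)` -/
abbrev L2 : Type := Lp ℂ 2 mu

/-- the point `e^{2πix}` of the unit circle -/
noncomputable def pt (x : AddCircle (1 : ℝ)) : ℂ := fourier 1 x

/-- `H²`: the negative Fourier coefficients vanish -/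
noncomputable def H2 : Submodule ℂ L2 :=
  (Submodule.span ℂ {g : L2 | ∃ n : ℤ, n < 0 ∧ g = fourierLp 2 n})ᗮ

/-- the model space `H² ⊖ Θ H²` -/
noncomputable def model (Θ : ℂ → ℂ) : Submodule ℂ L2 :=
  H2 ⊓ (Submodule.span ℂ {g : L2 | ∃ h ∈ H2, g =ᵐ[mu] fun x => Θ (pt x) * h x})ᗮ

/-- finite Blaschke product of degree `n` -/
def IsBlaschke (n : ℕ) (Θ : ℂ → ℂ) : Prop :=
  ∃ (c : ℂ) (a : Fin n → ℂ), ‖c‖ = 1 ∧ (∀ k, ‖a k‖ < 1) ∧
    ∀ z, Θ z = c * ∏ k, (z - a k) / (1 - conj (a k) * z)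

/-- `g = φ f` almost everywhere -/
def IsMul (φ : AddCircle (1 : ℝ) → ℂ) (f g : L2) : Prop := g =ᵐ[mu] fun x => φ x * f x

/-- for `f` in the model space, `A f` is the orthogonal projection of `φ f` onto the model space -/
def IsTTO (Θ : ℂ → ℂ) (φ : AddCircle (1 : ℝ) → ℂ) (A : L2 → L2) : Prop :=
  ∀ f ∈ model Θ, A f ∈ model Θ ∧ ∃ g : L2, IsMul φ f g ∧ g - A f ∈ (model Θ)ᗮ

/-- orthonormal basis of the model space -/
def IsONB {n : ℕ} (Θ : ℂ → ℂ) (e : Fin n → L2) : Prop :=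
  Orthonormal ℂ e ∧ Submodule.span ℂ (Set.range e) = model Θ

/-- `M` is the matrix of `A` in the basis `e` -/
def IsMatrixOf {n : ℕ} (M : Matrix (Fin n) (Fin n) ℂ) (A : L2 → L2) (e : Fin n → L2) : Prop :=
  ∀ i j, M i j = ⟪e i, A (e j)⟫_ℂ

/-- `k` is the boundary kernel at `ζ` -/
def IsKernel (Θ : ℂ → ℂ) (α ζ : ℂ) (k : L2) : Prop :=
  k =ᵐ[mu] fun x => (1 - conj α * Θ (pt x)) / (1 - conj ζ * pt x)

/-- `v = w k / ‖k‖` with `k` the boundary kernel at a solution `ζ` of `Θ ζ = α`, `w² = α ζ̄` -/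
def IsClarkVec (Θ : ℂ → ℂ) (α ζ : ℂ) (v : L2) : Prop :=
  ‖ζ‖ = 1 ∧ Θ ζ = α ∧ ∃ (w : ℂ) (k : L2), ‖w‖ = 1 ∧ w ^ 2 = α * conj ζ ∧ IsKernel Θ α ζ k ∧
    v = (w / (‖k‖ : ℂ)) • k

/-- modified Aleksandrov-Clark basis -/
def IsClark {n : ℕ} (Θ : ℂ → ℂ) (e : Fin n → L2) : Prop :=
  IsONB Θ e ∧ ∃ (α : ℂ) (ζ : Fin n → ℂ), ‖α‖ = 1 ∧ Function.Injective ζ ∧
    ∀ j, IsClarkVec Θ α (ζ j) (e j)

theorem norm_pt (x : AddCircle (1 : ℝ)) : ‖pt x‖ = 1 := by
  simp [pt, fourier_apply]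

theorem ptwise {z N a b c : ℂ} (hz : ‖z‖ = 1) (ha : ‖a‖ = 1) (hb : ‖b‖ = 1) (hc : ‖c‖ = 1)
    (h : N ≠ 0 → z ≠ a ∧ z ≠ b ∧ z ≠ c) :
    (b - a) / b * (N / (1 - conj b * z) * conj (N / (1 - conj a * z))) +
    (c - b) / c * (N / (1 - conj c * z) * conj (N / (1 - conj b * z))) +
    (a - c) / a * (N / (1 - conj a * z) * conj (N / (1 - conj c * z))) = 0 := by
  by_cases hN : N = 0
  · simp [hN]
  obtain ⟨h1, h2, h3⟩ := h hN
  have nz : ∀ {u : ℂ}, ‖u‖ = 1 → u ≠ 0 := fun hu h0 => by simp [h0] at hu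
  have e1 : ∀ {u : ℂ}, ‖u‖ = 1 → 1 - conj u * z = (u - z) / u := fun hu => by
    rw [← Complex.inv_eq_conj hu]
    field_simp [nz hu]
  have e2 : ∀ {u : ℂ}, ‖u‖ = 1 → conj (N / (1 - conj u * z)) = conj N / ((z - u) / z) :=
    fun hu => by
      rw [map_div₀, map_sub, map_mul, map_one, Complex.conj_conj, ← Complex.inv_eq_conj hz]
      congr 1
      field_simp [nz hz]
  rw [e2 ha, e2 hb, e2 hc, e1 ha, e1 hb, e1 hc]
  have := nz hz
  have := nz ha
  have := nz hb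
  have := nz hc
  have := sub_ne_zero.2 h1
  have := sub_ne_zero.2 h2
  have := sub_ne_zero.2 h3
  have := sub_ne_zero.2 h1.symm
  have := sub_ne_zero.2 h2.symm
  have := sub_ne_zero.2 h3.symm
  field_simp
  ring

theorem clark_pattern {Θ : ℂ → ℂ} {φ : AddCircle (1 : ℝ) → ℂ} {A : L2 → L2}
    (hA : IsTTO Θ φ A) {e : Fin 3 → L2} (he : IsClark Θ e)
    (h01 : ⟪e 0, A (e 1)⟫_ℂ = 0) (h12 : ⟪e 1, A (e 2)⟫_ℂ = 0) : ⟪e 2, A (e 0)⟫_ℂ = 0 := by
  obtain ⟨⟨hon, hsp⟩, α, ζ, hα, hinj, hj⟩ := he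
  have hem : ∀ j, e j ∈ model Θ := fun j => hsp ▸ Submodule.subset_span ⟨j, rfl⟩
  choose g hg hg' using fun j => (hA (e j) (hem j)).2
  choose w k hw1 hw2 hk hv using fun j => (hj j).2.2
  set c : Fin 3 → ℂ := fun j => w j / (‖k j‖ : ℂ) with hc
  have hc0 : ∀ j, c j ≠ 0 := by
    intro j h0
    have h1 : ‖(e j : L2)‖ = 1 := hon.1 j
    have h2 : (e j : L2) = c j • k j := hv j
    rw [h2, h0, zero_smul, norm_zero] at h1
    exact zero_ne_one h1
  have hin : ∀ i j, ⟪e i, A (e j)⟫_ℂ = ⟪(e i : L2), g j⟫_ℂ := by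
    intro i j
    have := (Submodule.mem_orthogonal _ _).1 (hg' j) _ (hem i)
    rw [inner_sub_right, sub_eq_zero] at this
    exact this.symm
  have hek : ∀ j, (e j : L2) =ᵐ[mu] fun x =>
      c j * ((1 - conj α * Θ (pt x)) / (1 - conj (ζ j) * pt x)) := by
    intro j
    rw [hv j]
    filter_upwards [Lp.coeFn_smul (c j) (k j), hk j] with x h1 h2
    rw [h1, Pi.smul_apply, h2, smul_eq_mul]
  set β : Fin 3 → Fin 3 → ℂ := fun i j => (ζ j - ζ i) / ζ j / (c j * conj (c i)) with hβ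
  have key : β 0 1 * ⟪(e 0 : L2), g 1⟫_ℂ + β 1 2 * ⟪(e 1 : L2), g 2⟫_ℂ +
      β 2 0 * ⟪(e 2 : L2), g 0⟫_ℂ = 0 := by
    simp only [MeasureTheory.L2.inner_def]
    rw [← integral_const_mul, ← integral_const_mul, ← integral_const_mul, ← integral_add,
      ← integral_add]
    · apply integral_eq_zero_of_ae
      filter_upwards [hek 0, hek 1, hek 2, hg 0, hg 1, hg 2] with x a0 a1 a2 b0 b1 b2
      have hp := ptwise (N := 1 - conj α * Θ (pt x)) (norm_pt x) (hj 0).1 (hj 1).1 (hj 2).1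
        (fun hN => by
          have : ∀ j, pt x ≠ ζ j := fun j hx => hN (by
            rw [hx, (hj j).2.1, ← Complex.inv_eq_conj hα, inv_mul_cancel₀, sub_self]
            intro h0
            simp [h0] at hα)
          exact ⟨this 0, this 1, this 2⟩)
      simp only [RCLike.inner_apply, Pi.zero_apply]
      rw [b0, b1, b2, a0, a1, a2]
      simp only [map_mul (starRingEnd ℂ) (c _), hβ]
      generalize (1 - conj α * Θ (pt x)) / (1 - conj (ζ 0) * pt x) = k0 at hp ⊢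
      generalize (1 - conj α * Θ (pt x)) / (1 - conj (ζ 1) * pt x) = k1 at hp ⊢
      generalize (1 - conj α * Θ (pt x)) / (1 - conj (ζ 2) * pt x) = k2 at hp ⊢
      generalize (ζ 1 - ζ 0) / ζ 1 = s1 at hp ⊢
      generalize (ζ 2 - ζ 1) / ζ 2 = s2 at hp ⊢
      generalize (ζ 0 - ζ 2) / ζ 0 = s0 at hp ⊢
      have n0 := hc0 0
      have n1 := hc0 1
      have n2 := hc0 2
      have m0 : conj (c 0) ≠ 0 := (map_ne_zero _).2 n0
      have m1 : conj (c 1) ≠ 0 := (map_ne_zero _).2 n1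
      have m2 : conj (c 2) ≠ 0 := (map_ne_zero _).2 n2
      field_simp
      linear_combination φ x * hp
    · exact ((L2.integrable_inner _ _).const_mul _).add ((L2.integrable_inner _ _).const_mul _)
    · exact (L2.integrable_inner _ _).const_mul _
    · exact (L2.integrable_inner _ _).const_mul _
    · exact (L2.integrable_inner _ _).const_mul _
  rw [← hin, ← hin, ← hin, h01, h12, mul_zero, mul_zero, zero_add, zero_add] at key
  refine (mul_eq_zero.1 key).resolve_left ?_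
  have z0 : ζ 0 ≠ 0 := fun h0 => by
    have := (hj 0).1
    simp [h0] at this
  exact div_ne_zero (div_ne_zero (sub_ne_zero.2 (hinj.ne (by decide))) z0)
    (mul_ne_zero (hc0 0) ((map_ne_zero _).2 (hc0 2)))

/-- Fourier monomials -/
noncomputable def F (n : ℤ) : L2 := fourierLp 2 n

theorem F_inner (m n : ℤ) : ⟪F m, F n⟫_ℂ = if m = n then 1 else 0 :=
  orthonormal_iff_ite.1 orthonormal_fourier m n

theorem F_ae (n : ℤ) : F n =ᵐ[mu] fourier n := coeFn_fourierLp 2 n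

theorem mem_orth_span {s : Set L2} {f : L2} :
    f ∈ (Submodule.span ℂ s)ᗮ ↔ ∀ g ∈ s, ⟪g, f⟫_ℂ = 0 := by
  rw [Submodule.mem_orthogonal]
  refine ⟨fun h g hg => h g (Submodule.subset_span hg), fun h u hu => ?_⟩
  induction hu using Submodule.span_induction with
  | mem x hx => exact h x hx
  | zero => exact inner_zero_left _
  | add x y _ _ hx hy => rw [inner_add_left, hx, hy, add_zero]
  | smul a x _ hx => rw [inner_smul_left, hx, mul_zero]

theorem mem_H2 {f : L2} : f ∈ H2 ↔ ∀ n : ℤ, n < 0 → ⟪F n, f⟫_ℂ = 0 := by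
  rw [H2, mem_orth_span]
  constructor
  · exact fun h n hn => h _ ⟨n, hn, rfl⟩
  · rintro h _ ⟨n, hn, rfl⟩
    exact h n hn

theorem cube (x : AddCircle (1 : ℝ)) : pt x ^ 3 = fourier 3 x := by
  have : (3 : ℤ) = 1 + 1 + 1 := by norm_num
  rw [this, fourier_add, fourier_add, pt]
  ring

theorem F_mem_H2 {n : ℤ} (hn : 0 ≤ n) : F n ∈ H2 :=
  mem_H2.2 fun m hm => by rw [F_inner, if_neg (by omega)]

theorem F_mem_model {m : ℤ} (h0 : 0 ≤ m) (h3 : m < 3) : F m ∈ model fun z => z ^ 3 := by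
  refine ⟨F_mem_H2 h0, ?_⟩
  change F m ∈ Submodule.orthogonal _
  rw [mem_orth_span]
  rintro g ⟨h, hh, hg⟩
  have h1 := mem_H2.1 hh (m - 3) (by omega)
  rw [← inner_conj_symm, map_eq_zero] at h1
  rw [← h1, MeasureTheory.L2.inner_def, MeasureTheory.L2.inner_def]
  apply integral_congr_ae
  filter_upwards [hg, F_ae m, F_ae (m - 3)] with x a1 a2 a3
  simp only [RCLike.inner_apply]
  rw [a1, a2, a3, cube, map_mul, ← fourier_neg, sub_eq_add_neg, fourier_add]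
  ring

theorem F_mem_orth {n : ℤ} (hn : n < 0 ∨ 3 ≤ n) : F n ∈ (model fun z => z ^ 3)ᗮ := by
  rw [Submodule.mem_orthogonal']
  intro f hf
  rcases hn with hn | hn
  · exact mem_H2.1 hf.1 n hn
  · have h2 : f ∈ Submodule.orthogonal _ := hf.2
    rw [mem_orth_span] at h2
    apply h2
    refine ⟨F (n - 3), F_mem_H2 (by omega), ?_⟩
    filter_upwards [F_ae n, F_ae (n - 3)] with x a1 a2
    rw [a1, a2, cube, ← fourier_add]
    congr 2
    ring

theorem expand {f : L2} (hf : f ∈ model fun z => z ^ 3) :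
    f = ⟪F 0, f⟫_ℂ • F 0 + ⟪F 1, f⟫_ℂ • F 1 + ⟪F 2, f⟫_ℂ • F 2 := by
  apply (fourierBasis (T := (1 : ℝ))).repr.injective
  ext n
  rw [HilbertBasis.repr_apply_apply, HilbertBasis.repr_apply_apply, coe_fourierBasis]
  change ⟪F n, f⟫_ℂ = ⟪F n, _⟫_ℂ
  simp only [inner_add_right, inner_smul_right, F_inner]
  by_cases hn : n < 0 ∨ 3 ≤ n
  · rw [(Submodule.mem_orthogonal' _ _).1 (F_mem_orth hn) f hf, if_neg (by omega),
      if_neg (by omega), if_neg (by omega)]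
    simp
  · have : n = 0 ∨ n = 1 ∨ n = 2 := by omega
    rcases this with rfl | rfl | rfl <;> simp

/-- the basis `1, z, z²` -/
noncomputable def e3 (j : Fin 3) : L2 := F (j : ℕ)

/-- the operator -/
noncomputable def A3 (f : L2) : L2 := ⟪F 2, f⟫_ℂ • F 0 + ⟪F 0, f⟫_ℂ • F 2

theorem onb_e3 : IsONB (fun z => z ^ 3) e3 := by
  refine ⟨orthonormal_iff_ite.2 fun i j => ?_, le_antisymm ?_ ?_⟩
  · rw [e3, e3, F_inner]
    simp [Fin.ext_iff]
  · rw [Submodule.span_le]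
    rintro _ ⟨j, rfl⟩
    exact F_mem_model (by positivity) (by have := j.2; omega)
  · intro f hf
    rw [expand hf]
    refine add_mem (add_mem ?_ ?_) ?_
    · exact Submodule.smul_mem _ _ (Submodule.subset_span ⟨0, rfl⟩)
    · exact Submodule.smul_mem _ _ (Submodule.subset_span ⟨1, rfl⟩)
    · exact Submodule.smul_mem _ _ (Submodule.subset_span ⟨2, rfl⟩)

theorem tto_A3 : IsTTO (fun z => z ^ 3) (fun x => fourier 2 x + fourier (-2) x) A3 := by
  intro f hf0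
  refine ⟨add_mem (Submodule.smul_mem _ _ (F_mem_model (by norm_num) (by norm_num)))
    (Submodule.smul_mem _ _ (F_mem_model (by norm_num) (by norm_num))), ?_⟩
  have hf := expand hf0
  have hA : (A3 f : L2) = ⟪F 2, (f : L2)⟫_ℂ • F 0 + ⟪F 0, (f : L2)⟫_ℂ • F 2 := rfl
  generalize ⟪F 0, (f : L2)⟫_ℂ = c0 at hf hA
  generalize ⟪F 1, (f : L2)⟫_ℂ = c1 at hf hA
  generalize ⟪F 2, (f : L2)⟫_ℂ = c2 at hf hA
  have lin : ∀ a b c : ℤ, (c0 • F a + c1 • F b + c2 • F c : L2) =ᵐ[mu]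
      fun x => c0 * fourier a x + c1 * fourier b x + c2 * fourier c x := by
    intro a b c
    filter_upwards [Lp.coeFn_add (c0 • F a + c1 • F b) (c2 • F c), Lp.coeFn_add (c0 • F a) (c1 • F b),
      Lp.coeFn_smul c0 (F a), Lp.coeFn_smul c1 (F b), Lp.coeFn_smul c2 (F c), F_ae a, F_ae b,
      F_ae c] with x a1 a2 a3 a4 a5 a6 a7 a8
    rw [a1, Pi.add_apply, a2, Pi.add_apply, a3, a4, a5, Pi.smul_apply, Pi.smul_apply,
      Pi.smul_apply, a6, a7, a8, smul_eq_mul, smul_eq_mul, smul_eq_mul]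
  refine ⟨(c0 • F (2 + 0) + c1 • F (2 + 1) + c2 • F (2 + 2)) +
    (c0 • F (-2 + 0) + c1 • F (-2 + 1) + c2 • F (-2 + 2)), ?_, ?_⟩
  · rw [hf, IsMul]
    filter_upwards [Lp.coeFn_add (c0 • F (2 + 0) + c1 • F (2 + 1) + c2 • F (2 + 2))
      (c0 • F (-2 + 0) + c1 • F (-2 + 1) + c2 • F (-2 + 2)), lin (2 + 0) (2 + 1) (2 + 2),
      lin (-2 + 0) (-2 + 1) (-2 + 2), lin 0 1 2] with x a1 a2 a3 a4
    rw [a1, Pi.add_apply, a2, a3, a4]
    simp only [fourier_add]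
    ring
  · have e : (c0 • F (2 + 0) + c1 • F (2 + 1) + c2 • F (2 + 2)) +
        (c0 • F (-2 + 0) + c1 • F (-2 + 1) + c2 • F (-2 + 2)) - (A3 f : L2) =
        c1 • F 3 + c2 • F 4 + c0 • F (-2) + c1 • F (-1) := by
      rw [hA]
      norm_num
      abel
    rw [e]
    refine add_mem (add_mem (add_mem ?_ ?_) ?_) ?_ <;>
      exact Submodule.smul_mem _ _ (F_mem_orth (by norm_num))

end Pool.Agent.Lib.helper3.TTOClark
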