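import Pool.Agent.Lib.helper3.TStmt

namespace Pool.Agent.Lib.helper3.TS

open KS Filter Topology

/-- Bounded bilinear maps. -/
structure IsBil {E F Z : Ban} (b : E.X → F.X → Z.X) (C : ℝ) : Prop where
  l : ∀ y, IsLinearMap ℂ fun x => b x y
  r : ∀ x, IsLinearMap ℂ (b x)
  nn : 0 ≤ C
  le : ∀ x y, ‖b x y‖ ≤ C * ‖x‖ * ‖y‖

variable {E F Z : Ban}

lemma sec_eta (v : ∀ i, (pr E F i).X) : sec (E := E) (F := F) (v false) (v true) = v := by
  funext i; cases i <;> rfl

lemma sec_upd_f [DecidableEq Bool] (x x' : E.X) (y : F.X) :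
    Function.update (sec x y) false x' = sec x' y := by
  funext i
  cases i
  · exact Function.update_self ..
  · exact Function.update_of_ne (by simp) ..

lemma sec_upd_t [DecidableEq Bool] (x : E.X) (y y' : F.X) :
    Function.update (sec x y) true y' = sec x y' := by
  funext i
  cases i
  · exact Function.update_of_ne (by simp) ..
  · exact Function.update_self ..

/-- The multilinear map of a bilinear map. -/
def ml {b : E.X → F.X → Z.X} {C : ℝ} (h : IsBil b C) :
    MultilinearMap ℂ (fun i => (pr E F i).X) Z.X where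
  toFun v := b (v false) (v true)
  map_update_add' v i x y := by
    cases i
    · simp only [Function.update_self, Function.update_of_ne Bool.false_ne_true.symm]
      exact (h.l _).map_add x y
    · simp only [Function.update_self, Function.update_of_ne Bool.false_ne_true]
      exact (h.r _).map_add x y
  map_update_smul' v i c x := by
    cases i
    · simp only [Function.update_self, Function.update_of_ne Bool.false_ne_true.symm]
      exact (h.l _).map_smul c x
    · simp only [Function.update_self, Function.update_of_ne Bool.false_ne_true]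
      exact (h.r _).map_smul c x

lemma ml_le {b : E.X → F.X → Z.X} {C : ℝ} (h : IsBil b C) (v : ∀ i, (pr E F i).X) :
    ‖ml h v‖ ≤ C * ∏ i, ‖v i‖ := by
  rw [Fintype.prod_bool, mul_comm ‖v true‖, ← mul_assoc]
  exact h.le _ _

/-- The lift to the algebraic tensor product. -/
noncomputable def lift0 {b : E.X → F.X → Z.X} {C : ℝ} (h : IsBil b C) : (AT E F).X →L[ℂ] Z.X :=
  PiTensorProduct.liftIsometry ℂ (fun i => (pr E F i).X) Z.X ((ml h).mkContinuous C (ml_le h))

lemma lift0_tm0 {b : E.X → F.X → Z.X} {C : ℝ} (h : IsBil b C) (x : E.X) (y : F.X) :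
    lift0 h (tm0 x y) = b x y :=
  (PiTensorProduct.liftIsometry_apply_apply _ _).trans (PiTensorProduct.lift.tprod _)

lemma lift0_le {b : E.X → F.X → Z.X} {C : ℝ} (h : IsBil b C) (z : (AT E F).X) :
    ‖lift0 h z‖ ≤ C * ‖z‖ := by
  have h1 := (PiTensorProduct.liftIsometry_apply_apply ((ml h).mkContinuous C (ml_le h)) z)
  have h2 := PiTensorProduct.norm_eval_le_projectiveSeminorm ((ml h).mkContinuous C (ml_le h)) z
  rw [← h1] at h2
  exact h2.trans (mul_le_mul_of_nonneg_right (MultilinearMap.mkContinuous_norm_le _ h.nn _)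
    (norm_nonneg _))

/-- The lift to the completed tensor product. -/
noncomputable def lift {b : E.X → F.X → Z.X} {C : ℝ} (h : IsBil b C) : (PT E F).X →L[ℂ] Z.X :=
  (lift0 h).fromCompletion

lemma lift_tm {b : E.X → F.X → Z.X} {C : ℝ} (h : IsBil b C) (x : E.X) (y : F.X) :
    lift h (tm x y) = b x y :=
  ((lift0 h).fromCompletion_apply_coe _).trans (lift0_tm0 h x y)

/-- The canonical map to the completion. -/
noncomputable def cpl (E F : Ban) : (AT E F).X →L[ℂ] (PT E F).X := UniformSpace.Completion.toComplL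

lemma norm_cpl (z : (AT E F).X) : ‖cpl E F z‖ = ‖z‖ := UniformSpace.Completion.norm_coe z

lemma cpl_ind {p : (PT E F).X → Prop} (hp : IsClosed {z | p z}) (h : ∀ w, p (cpl E F w))
    (z : (PT E F).X) : p z :=
  UniformSpace.Completion.induction_on (p := p) z hp h

lemma lift_le {b : E.X → F.X → Z.X} {C : ℝ} (h : IsBil b C) (z : (PT E F).X) :
    ‖lift h z‖ ≤ C * ‖z‖ := by
  refine cpl_ind (p := fun z => ‖lift h z‖ ≤ C * ‖z‖) (isClosed_le (by fun_prop) (by fun_prop))
    (fun w => ?_) z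
  have e : lift h (cpl E F w) = lift0 h w := (lift0 h).fromCompletion_apply_coe w
  rw [e, norm_cpl]
  exact lift0_le h w

lemma tm_eq (x : E.X) (y : F.X) : tm x y = cpl E F (tm0 x y) := rfl

lemma tm_bil : IsBil (tm : E.X → F.X → (PT E F).X) 1 where
  l y := ⟨fun x x' => by
      rw [tm_eq, tm_eq, tm_eq, ← map_add]
      congr 1
      have := (PiTensorProduct.tprod ℂ (s := fun i => (pr E F i).X)).map_update_add
        (sec x y) false x x'
      rwa [sec_upd_f, sec_upd_f, sec_upd_f] at this,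
    fun c x => by
      rw [tm_eq, tm_eq, ← map_smul]
      congr 1
      have := (PiTensorProduct.tprod ℂ (s := fun i => (pr E F i).X)).map_update_smul
        (sec x y) false c x
      rwa [sec_upd_f, sec_upd_f] at this⟩
  r x := ⟨fun y y' => by
      rw [tm_eq, tm_eq, tm_eq, ← map_add]
      congr 1
      have := (PiTensorProduct.tprod ℂ (s := fun i => (pr E F i).X)).map_update_add
        (sec x y) true y y'
      rwa [sec_upd_t, sec_upd_t, sec_upd_t] at this,
    fun c y => by
      rw [tm_eq, tm_eq, ← map_smul]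
      congr 1
      have := (PiTensorProduct.tprod ℂ (s := fun i => (pr E F i).X)).map_update_smul
        (sec x y) true c y
      rwa [sec_upd_t, sec_upd_t] at this⟩
  nn := zero_le_one
  le x y := by
    rw [tm_eq, norm_cpl, one_mul]
    have := PiTensorProduct.projectiveSeminorm_tprod_le (𝕜 := ℂ) (sec x y)
    rw [Fintype.prod_bool, mul_comm] at this
    exact this

lemma PT_ind (p : Submodule ℂ (PT E F).X) (hp : IsClosed (p : Set (PT E F).X))
    (h : ∀ x y, tm x y ∈ p) (z : (PT E F).X) : z ∈ p := by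
  refine cpl_ind (p := fun z => z ∈ p) hp (fun w => ?_) z
  refine PiTensorProduct.induction_on (motive := fun w : (AT E F).X => cpl E F w ∈ p) w
    (fun c v => ?_) fun x y hx hy => ?_
  · have e : cpl E F (c • tm0 (E := E) (F := F) (v false) (v true)) ∈ p := by
      rw [map_smul]; exact p.smul_mem c (h _ _)
    rwa [tm0, sec_eta] at e
  · have e : cpl E F ((show (AT E F).X from x) + (show (AT E F).X from y)) ∈ p := by
      rw [map_add]; exact p.add_mem hx hy
    exact e

lemma PT_ext {f g : (PT E F).X →L[ℂ] Z.X} (h : ∀ x y, f (tm x y) = g (tm x y)) : f = g :=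
  ContinuousLinearMap.ext fun z => PT_ind (LinearMap.eqLocus f.toLinearMap g.toLinearMap)
    (isClosed_eq f.continuous g.continuous) h z

lemma tm_add_l (x x' : E.X) (y : F.X) : tm (x + x') y = tm x y + tm x' y := (tm_bil.l y).map_add _ _
lemma tm_smul_l (c : ℂ) (x : E.X) (y : F.X) : tm (c • x) y = c • tm x y := (tm_bil.l y).map_smul _ _
lemma tm_add_r (x : E.X) (y y' : F.X) : tm x (y + y') = tm x y + tm x y' := (tm_bil.r x).map_add _ _
lemma tm_smul_r (c : ℂ) (x : E.X) (y : F.X) : tm x (c • y) = c • tm x y := (tm_bil.r x).map_smul _ _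
lemma tm_zero_l (y : F.X) : tm (0 : E.X) y = 0 := (tm_bil.l y).map_zero
lemma tm_zero_r (x : E.X) : tm x (0 : F.X) = 0 := (tm_bil.r x).map_zero
lemma tm_le (x : E.X) (y : F.X) : ‖tm x y‖ ≤ ‖x‖ * ‖y‖ := by
  have := (tm_bil (E := E) (F := F)).le x y
  rwa [one_mul] at this

/-- A bilinear map with the first variable fixed. -/
noncomputable def IsBil.fl {b : E.X → F.X → Z.X} {C : ℝ} (h : IsBil b C) (x : E.X) :
    F.X →L[ℂ] Z.X :=
  (IsLinearMap.mk' _ (h.r x)).mkContinuous (C * ‖x‖) (h.le x)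

/-- A bilinear map with the second variable fixed. -/
noncomputable def IsBil.fr {b : E.X → F.X → Z.X} {C : ℝ} (h : IsBil b C) (y : F.X) :
    E.X →L[ℂ] Z.X :=
  (IsLinearMap.mk' _ (h.l y)).mkContinuous (C * ‖y‖) fun x => (h.le x y).trans_eq (by ring)

lemma IsBil.fl_apply {b : E.X → F.X → Z.X} {C : ℝ} (h : IsBil b C) (x : E.X) (y : F.X) :
    h.fl x y = b x y := rfl

lemma IsBil.fr_apply {b : E.X → F.X → Z.X} {C : ℝ} (h : IsBil b C) (x : E.X) (y : F.X) :
    h.fr y x = b x y := rfl

variable {E' F' : Ban}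

lemma mp_bil (f : E.X →L[ℂ] E'.X) (g : F.X →L[ℂ] F'.X) :
    IsBil (fun x y => tm (f x) (g y)) (‖f‖ * ‖g‖) where
  l _ := ⟨fun _ _ => by rw [map_add, tm_add_l], fun _ _ => by rw [map_smul, tm_smul_l]⟩
  r _ := ⟨fun _ _ => by rw [map_add, tm_add_r], fun _ _ => by rw [map_smul, tm_smul_r]⟩
  nn := by positivity
  le x y := (tm_le _ _).trans (by
    have h1 := f.le_opNorm x
    have h2 := g.le_opNorm y
    calc ‖f x‖ * ‖g y‖ ≤ (‖f‖ * ‖x‖) * (‖g‖ * ‖y‖) := by gcongr
      _ = _ := by ring)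

/-- The tensor product of two operators. -/
noncomputable def mp (f : E.X →L[ℂ] E'.X) (g : F.X →L[ℂ] F'.X) :
    (PT E F).X →L[ℂ] (PT E' F').X := lift (mp_bil f g)

lemma mp_tm (f : E.X →L[ℂ] E'.X) (g : F.X →L[ℂ] F'.X) (x : E.X) (y : F.X) :
    mp f g (tm x y) = tm (f x) (g y) := lift_tm _ x y

lemma mp_le {f : E.X →L[ℂ] E'.X} {g : F.X →L[ℂ] F'.X} {α β : ℝ} (hα : 0 ≤ α) (hβ : 0 ≤ β)
    (hf : ∀ x, ‖f x‖ ≤ α * ‖x‖) (hg : ∀ y, ‖g y‖ ≤ β * ‖y‖) (z : (PT E F).X) :
    ‖mp f g z‖ ≤ α * β * ‖z‖ := by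
  refine (lift_le _ z).trans ?_
  have h1 := f.opNorm_le_bound hα hf
  have h2 := g.opNorm_le_bound hβ hg
  gcongr

/-- Operators as a Banach space. -/
noncomputable def Hom (E F : Ban) : Ban where
  X := E.X →L[ℂ] F.X

/-- Evaluation of operators. -/
noncomputable def evl (F : Ban) (x : E.X) : (Hom E F).X →L[ℂ] F.X := ContinuousLinearMap.apply ℂ F.X x

/-- An element of `Hom` as an operator. -/
def Hom.op (T : (Hom E F).X) : E.X →L[ℂ] F.X := T

lemma evl_apply (x : E.X) (T : (Hom E F).X) : evl F x T = Hom.op T x := rfl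

lemma Hom.ext {S T : (Hom E F).X} (h : ∀ x, evl F x S = evl F x T) : S = T :=
  ContinuousLinearMap.ext h

lemma Hom.le (T : (Hom E F).X) (x : E.X) : ‖Hom.op T x‖ ≤ ‖T‖ * ‖x‖ := (Hom.op T).le_opNorm x

/-- Operator-valued bilinear maps. -/
lemma hom_bil {G : Ban} (b : E.X → F.X → (G.X →L[ℂ] Z.X)) {C : ℝ} (hC : 0 ≤ C)
    (h : ∀ w, IsBil (fun x y => b x y w) (C * ‖w‖)) : IsBil (Z := Hom G Z) b C where
  l y := ⟨fun x x' => Hom.ext fun w => by rw [map_add]; exact ((h w).l y).map_add x x',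
    fun c x => Hom.ext fun w => by rw [map_smul]; exact ((h w).l y).map_smul c x⟩
  r x := ⟨fun y y' => Hom.ext fun w => by rw [map_add]; exact ((h w).r x).map_add y y',
    fun c y => Hom.ext fun w => by rw [map_smul]; exact ((h w).r x).map_smul c y⟩
  nn := hC
  le x y := (b x y).opNorm_le_bound (by positivity) fun w => ((h w).le x y).trans_eq (by ring)

/-- Vectors on which a family of operators tends to zero. -/
def tendSub {Λ : Type} (𝓕 : Filter Λ) (T : Λ → (E.X →L[ℂ] Z.X)) : Submodule ℂ E.X where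
  carrier := {x | Tendsto (fun l => T l x) 𝓕 (𝓝 0)}
  add_mem' hx hy := by
    have := Tendsto.add hx hy
    rw [add_zero] at this
    exact this.congr fun l => (map_add _ _ _).symm
  zero_mem' := tendsto_const_nhds.congr fun l => (map_zero _).symm
  smul_mem' c x hx := by
    have := Tendsto.const_smul hx c
    rw [smul_zero] at this
    exact this.congr fun l => (map_smul _ _ _).symm

lemma mem_tendSub {Λ : Type} {𝓕 : Filter Λ} {T : Λ → (E.X →L[ℂ] Z.X)} {x : E.X} :
    x ∈ tendSub 𝓕 T ↔ Tendsto (fun l => T l x) 𝓕 (𝓝 0) := Iff.rfl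

lemma tendSub_closed {Λ : Type} (𝓕 : Filter Λ) (T : Λ → (E.X →L[ℂ] Z.X)) (C : ℝ)
    (h : ∀ l x, ‖T l x‖ ≤ C * ‖x‖) : IsClosed (tendSub 𝓕 T : Set E.X) := by
  have h1 : ∀ l, LipschitzWith C.toNNReal (T l) := fun l => LipschitzWith.of_dist_le_mul fun x y => by
    rw [dist_eq_norm, dist_eq_norm, ← map_sub]
    exact (h l _).trans (mul_le_mul_of_nonneg_right (Real.le_coe_toNNReal C) (norm_nonneg _))
  exact (LipschitzWith.uniformEquicontinuous (fun l => (T l : E.X → Z.X)) _
    h1).equicontinuous.isClosed_setOfPred_tendsto continuous_const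

lemma surj_of_approx (T : E.X →L[ℂ] Z.X) (S : Submodule ℂ Z.X) (hT : ∀ w, T w ∈ S) (M : ℝ)
    (h : ∀ z ∈ S, ∃ w, ‖w‖ ≤ M * ‖z‖ ∧ ‖z - T w‖ ≤ 1 / 2 * ‖z‖) : ∀ z ∈ S, ∃ w, T w = z := by
  choose! g hg1 hg2 using h
  intro z hz
  let f : Z.X → Z.X := fun y => y - T (g y)
  have h1 : ∀ n, f^[n] z ∈ S ∧ ‖f^[n] z‖ ≤ (1 / 2) ^ n * ‖z‖ := by
    intro n
    induction n with
    | zero => exact ⟨hz, by simp⟩
    | succ n ih =>
      rw [Function.iterate_succ_apply']
      refine ⟨S.sub_mem ih.1 (hT _), (hg2 _ ih.1).trans ?_⟩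
      rw [pow_succ]
      linarith [ih.2]
  have h2 : Summable fun n => g (f^[n] z) := by
    refine Summable.of_norm_bounded
      (((summable_geometric_two).mul_right ‖z‖).mul_left |M|) fun n => ?_
    refine (hg1 _ (h1 n).1).trans ((mul_le_mul_of_nonneg_right (le_abs_self M)
      (norm_nonneg _)).trans ?_)
    exact mul_le_mul_of_nonneg_left (h1 n).2 (abs_nonneg M)
  refine ⟨_, tendsto_nhds_unique ((T.continuous.tendsto _).comp h2.hasSum.tendsto_sum_nat) ?_⟩
  have h3 : ∀ n, T (∑ i ∈ Finset.range n, g (f^[i] z)) = z - f^[n] z := by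
    intro n
    induction n with
    | zero => simp
    | succ n ih =>
      rw [Finset.sum_range_succ, map_add, ih, Function.iterate_succ_apply']
      simp only [f]
      abel
  have h4 : Tendsto (fun n => f^[n] z) atTop (𝓝 0) := by
    refine squeeze_zero_norm (fun n => (h1 n).2) ?_
    have := (tendsto_pow_atTop_nhds_zero_of_lt_one (by norm_num : (0 : ℝ) ≤ 1 / 2)
      (by norm_num)).mul_const ‖z‖
    rwa [zero_mul] at this
  have h5 := h4.const_sub z
  rw [sub_zero] at h5
  exact h5.congr fun n => (h3 n).symm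

end Pool.Agent.Lib.helper3.TS
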