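import Mathlib

/-! Continuous selections on compact spaces that are F-spaces away from one point. -/

namespace Pool.Agent.Lib.H3Tz

open Set Filter Topology

variable {Y : Type*} [TopologicalSpace Y] [CompactSpace Y] [T2Space Y]

lemma insert_step (l u : Y → ℝ)
    (H : ∀ y (r s : ℝ), r < s → (∀ᶠ x in 𝓝 y, l x ≤ s) ∨ (∀ᶠ x in 𝓝 y, r ≤ u x))
    (ε : ℝ) (h : C(Y, ℝ)) (hε : 0 < ε) (hh : ∀ x, l x - ε ≤ h x ∧ h x ≤ u x + ε) :
    ∃ g : C(Y, ℝ), (∀ x, l x - ε / 2 ≤ g x ∧ g x ≤ u x + ε / 2) ∧ dist h g ≤ 2 * ε := by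
  obtain ⟨g, hg⟩ := exists_continuous_forall_mem_convex_of_local_const
    (t := fun x => Icc (l x - ε / 2) (u x + ε / 2) ∩ Icc (h x - 2 * ε) (h x + 2 * ε))
    (fun x => (convex_Icc _ _).inter (convex_Icc _ _)) (fun y => by
      have hc : ∀ δ > 0, ∀ᶠ x in 𝓝 y, |h x - h y| < δ := fun δ hδ => by
        simpa [Real.dist_eq] using (Metric.tendsto_nhds.mp (h.continuous.tendsto y)) δ hδ
      set P : Set ℝ := {s | ∀ᶠ x in 𝓝 y, l x ≤ s} with hP
      have hP1 : ∀ δ > 0, h y + ε + δ ∈ P := fun δ hδ => by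
        filter_upwards [hc δ hδ] with x hx
        rw [abs_lt] at hx; linarith [(hh x).1]
      have hP2 : BddBelow P := ⟨l y, fun s hs => hs.self_of_nhds⟩
      have hne : P.Nonempty := ⟨_, hP1 1 one_pos⟩
      have ha : sInf P ≤ h y + ε := le_of_forall_pos_le_add fun δ hδ => csInf_le hP2 (hP1 δ hδ)
      obtain ⟨s, hs, hs'⟩ := exists_lt_of_csInf_lt hne (show sInf P < sInf P + ε / 2 by linarith)
      have hb : ∀ᶠ x in 𝓝 y, sInf P - ε / 2 ≤ u x := by
        rcases H y (sInf P - ε / 2) (sInf P - ε / 4) (by linarith) with h1 | h1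
        · linarith [csInf_le hP2 (show sInf P - ε / 4 ∈ P from h1)]
        · exact h1
      refine ⟨max (sInf P) (h y - ε / 2 - ε / 4), ?_⟩
      filter_upwards [hs, hb, hc (ε / 4) (by linarith)] with x h1 h2 h3
      rw [abs_lt] at h3
      have := hh x
      refine ⟨⟨?_, ?_⟩, ?_, ?_⟩
      · exact le_max_of_le_left (by linarith)
      · exact max_le (by linarith) (by linarith)
      · exact le_max_of_le_right (by linarith)
      · exact max_le (by linarith) (by linarith))
  refine ⟨g, fun x => (hg x).1, (ContinuousMap.dist_le (by linarith)).mpr fun x => ?_⟩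
  rw [Real.dist_eq, abs_le]
  constructor <;> linarith [(hg x).2.1, (hg x).2.2]

lemma insert_le (l u : Y → ℝ) (R : ℝ) (hR : 0 < R)
    (hl : ∀ y, l y ≤ R) (hu : ∀ y, -R ≤ u y)
    (H : ∀ y (r s : ℝ), r < s → (∀ᶠ x in 𝓝 y, l x ≤ s) ∨ (∀ᶠ x in 𝓝 y, r ≤ u x)) :
    ∃ g : C(Y, ℝ), ∀ y, l y ≤ g y ∧ g y ≤ u y := by
  choose! F hF1 hF2 using insert_step l u H
  let f : ℕ → C(Y, ℝ) := fun n => Nat.rec 0 (fun n h => F (R / 2 ^ n) h) n
  have good : ∀ n x, l x - R / 2 ^ n ≤ f n x ∧ f n x ≤ u x + R / 2 ^ n := by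
    intro n
    induction n with
    | zero => intro x; simp only [f]; constructor <;> simp <;> linarith [hl x, hu x]
    | succ n ih =>
      have := hF1 (R / 2 ^ n) (f n) (by positivity) ih
      rw [pow_succ, ← div_div]; exact this
  have hc : CauchySeq f := cauchySeq_of_le_geometric_two (C := 4 * R) fun n =>
    (hF2 (R / 2 ^ n) (f n) (by positivity) (good n)).trans (le_of_eq (by ring))
  obtain ⟨g, hg⟩ := cauchySeq_tendsto_of_complete hc
  have h0 : Tendsto (fun n : ℕ => R / 2 ^ n) atTop (𝓝 0) :=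
    tendsto_const_nhds.div_atTop (tendsto_pow_atTop_atTop_of_one_lt one_lt_two)
  refine ⟨g, fun y => ?_⟩
  have hy : Tendsto (fun n => f n y) atTop (𝓝 (g y)) :=
    ((continuous_eval_const y).tendsto g).comp hg
  constructor
  · simpa using le_of_tendsto_of_tendsto' (h0.const_sub (l y)) hy fun n => (good n y).1
  · simpa using le_of_tendsto_of_tendsto' hy (h0.const_add (u y)) fun n => (good n y).2

/-- `Y` is an F-space away from `y0`. -/
def FAway (y0 : Y) : Prop :=
  ∀ f g : C(Y, ℂ), f y0 = 0 → g y0 = 0 → (∀ y, f y = 0 ∨ g y = 0) →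
    ∀ y, y ∈ closure {x | f x ≠ 0} → y ∈ closure {x | g x ≠ 0} → y = y0

lemma exists_zero {E : Type*} [MetricSpace E] {C : Set E} (hC : IsClosed C) :
    ∃ d : C(E, ℝ), ∀ e, d e = 0 ↔ e ∈ C := by
  rcases C.eq_empty_or_nonempty with rfl | hne
  · exact ⟨1, by simp⟩
  · exact ⟨⟨_, Metric.continuous_infDist_pt C⟩, fun e => (hC.mem_iff_infDist_zero hne).symm⟩

omit [CompactSpace Y] [T2Space Y] in
lemma FAway.sep {y0 : Y} (hF : FAway y0) {E : Type*} [MetricSpace E] (φ : C(Y, E)) (p : C(Y, ℝ))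
    (hp : p y0 = 0) {C D : Set E} (hC : IsClosed C) (hD : IsClosed D)
    (hCD : ∀ y, φ y ∈ C ∨ φ y ∈ D) (y : Y) (hy : p y ≠ 0) :
    (∀ᶠ x in 𝓝 y, φ x ∈ C) ∨ (∀ᶠ x in 𝓝 y, φ x ∈ D) := by
  by_contra hcon
  rw [not_or] at hcon
  obtain ⟨c, hc⟩ := exists_zero hC
  obtain ⟨d, hd⟩ := exists_zero hD
  have hpy : ∀ᶠ x in 𝓝 y, p x ≠ 0 := p.continuous.continuousAt.eventually_ne hy
  have key : ∀ (C : Set E) (c : C(E, ℝ)), (∀ e, c e = 0 ↔ e ∈ C) → ¬ (∀ᶠ x in 𝓝 y, φ x ∈ C) →
      y ∈ closure {x | ((p x * c (φ x) : ℝ) : ℂ) ≠ 0} := by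
    intro C c hc h
    rw [mem_closure_iff_frequently]
    refine ((not_eventually.mp h).and_eventually hpy).mono fun x hx => ?_
    simp [hx.2, hc, hx.1]
  have := hF ⟨fun x => ((p x * c (φ x) : ℝ) : ℂ), by fun_prop⟩
    ⟨fun x => ((p x * d (φ x) : ℝ) : ℂ), by fun_prop⟩ (by simp [hp]) (by simp [hp])
    (fun x => by rcases hCD x with h | h <;> simp [hc, hd, h]) y
    (key C c hc hcon.1) (key D d hd hcon.2)
  exact hy (this ▸ hp)

lemma isClosed_proj {E W : Type*} [TopologicalSpace E] [TopologicalSpace W] {S : Set (E × W)}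
    (hS : IsClosed S) {K : Set W} (hK : IsCompact K) : IsClosed {e | ∃ w ∈ K, (e, w) ∈ S} := by
  have : CompactSpace K := isCompact_iff_compactSpace.mp hK
  have := isClosedMap_fst_of_compactSpace (X := E) (Y := K) _
    (hS.preimage (f := fun q : E × K => (q.1, (q.2 : W))) (by fun_prop))
  refine (congrArg IsClosed ?_).mp this
  ext e; simp

lemma FAway.lift_one {y0 : Y} (hF : FAway y0) {E : Type*} [MetricSpace E] (φ : C(Y, E))
    (p : C(Y, ℝ)) (hp : p y0 = 0) {S : Set (E × ℝ)} (hS : IsClosed S)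
    (hc : ∀ y, Convex ℝ {t | (φ y, t) ∈ S}) (hne : ∀ y, ∃ t, (φ y, t) ∈ S)
    (hb : ∀ y t, (φ y, t) ∈ S → |t| ≤ p y) : ∃ g : C(Y, ℝ), ∀ y, (φ y, g y) ∈ S := by
  set T : Y → Set ℝ := fun y => {t | (φ y, t) ∈ S} with hT
  have hR : ∀ y, p y ≤ ‖p‖ + 1 := fun y => by
    linarith [le_abs_self (p y), show |p y| ≤ ‖p‖ from p.norm_coe_le_norm y]
  have hTc : ∀ y, IsCompact (T y) := fun y =>
    (isCompact_Icc (a := -p y) (b := p y)).of_isClosed_subset
      (hS.preimage (f := fun t : ℝ => (φ y, t)) (by fun_prop)) fun t ht => abs_le.mp (hb y t ht)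
  have h1 : ∀ y, sInf (T y) ∈ T y := fun y => (hTc y).sInf_mem (hne y)
  have h2 : ∀ y, sSup (T y) ∈ T y := fun y => (hTc y).sSup_mem (hne y)
  obtain ⟨g, hg⟩ := insert_le (fun y => sInf (T y)) (fun y => sSup (T y)) (‖p‖ + 1)
    (by positivity) (fun y => by linarith [(abs_le.mp (hb y _ (h1 y))).2, hR y])
    (fun y => by linarith [(abs_le.mp (hb y _ (h2 y))).1, hR y]) (fun y r s hrs => by
      by_cases hy : p y = 0
      · rcases lt_or_ge 0 s with h | h
        · left
          filter_upwards [p.continuous.continuousAt.eventually_lt continuousAt_const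
            (show p y < s by linarith)] with x hx
          linarith [(abs_le.mp (hb x _ (h1 x))).2]
        · right
          filter_upwards [p.continuous.continuousAt.eventually_lt continuousAt_const
            (show p y < -r by linarith)] with x hx
          linarith [(abs_le.mp (hb x _ (h2 x))).1]
      · refine (hF.sep φ p hp (isClosed_proj hS (isCompact_Icc (a := -(‖p‖ + 1)) (b := s)))
          (isClosed_proj hS (isCompact_Icc (a := r) (b := ‖p‖ + 1))) (fun x => ?_) y hy).imp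
          (fun h => h.mono fun x ⟨t, ht, ht'⟩ => (csInf_le (hTc x).bddBelow ht').trans ht.2)
          (fun h => h.mono fun x ⟨t, ht, ht'⟩ => ht.1.trans (le_csSup (hTc x).bddAbove ht'))
        obtain ⟨t, ht⟩ := hne x
        have := abs_le.mp (hb x t ht)
        rcases le_total t s with h | h
        · exact Or.inl ⟨t, ⟨by linarith [hR x], h⟩, ht⟩
        · exact Or.inr ⟨t, ⟨by linarith, by linarith [hR x]⟩, ht⟩)
  exact ⟨g, fun y => (hc y).ordConnected.out (h1 y) (h2 y) (hg y)⟩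

/-- real coordinates of `D → ℂ` -/
def coord {D : Type*} (i : D × Bool) (w : D → ℂ) : ℝ := if i.2 then (w i.1).re else (w i.1).im

lemma FAway.lift {y0 : Y} (hF : FAway y0) {E : Type*} [MetricSpace E] (φ : C(Y, E))
    (p : C(Y, ℝ)) (hp : p y0 = 0) {D : Type*} [Fintype D] {S : Set (E × (D → ℂ))}
    (hS : IsClosed S) (hc : ∀ y, Convex ℝ {w | (φ y, w) ∈ S}) (hne : ∀ y, ∃ w, (φ y, w) ∈ S)
    (hb : ∀ y w, (φ y, w) ∈ S → ‖w‖ ≤ p y) : ∃ g : C(Y, D → ℂ), ∀ y, (φ y, g y) ∈ S := by
  classical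
  have hcc : ∀ i : D × Bool, Continuous (coord i) := fun i => by
    unfold coord; split_ifs <;> fun_prop
  have hlin : ∀ (i : D × Bool) (a b : ℝ) (v w : D → ℂ),
      coord i (a • v + b • w) = a * coord i v + b * coord i w := fun i a b v w => by
    unfold coord; split_ifs <;> simp
  have key : ∀ s : Finset (D × Bool), ∃ g : C(Y, D × Bool → ℝ), ∀ y, ∃ w, (φ y, w) ∈ S ∧
      ∀ i ∈ s, coord i w = g y i := by
    intro s
    induction s using Finset.induction_on with
    | empty => exact ⟨0, fun y => by simpa using hne y⟩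
    | insert j s hj ih =>
      obtain ⟨g, hg⟩ := ih
      have hcl : IsClosed {q : ((E × (D × Bool → ℝ)) × ℝ) × (D → ℂ) | (q.1.1.1, q.2) ∈ S ∧
          (∀ i ∈ s, coord i q.2 = q.1.1.2 i) ∧ coord j q.2 = q.1.2} := by
        refine IsClosed.and (hS.preimage (by fun_prop)) (IsClosed.and ?_ ?_)
        · simp only [ofPred_forall]
          exact isClosed_iInter fun i => isClosed_iInter fun _ =>
            isClosed_eq ((hcc i).comp continuous_snd) (by fun_prop)
        · exact isClosed_eq ((hcc j).comp continuous_snd) (by fun_prop)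
      have hR : ∀ y w, (φ y, w) ∈ S → w ∈ Metric.closedBall (0 : D → ℂ) ‖p‖ := fun y w h => by
        rw [mem_closedBall_zero_iff]
        linarith [le_abs_self (p y), show |p y| ≤ ‖p‖ from p.norm_coe_le_norm y, hb y w h]
      obtain ⟨h, hh⟩ := hF.lift_one (φ.prodMk g) p hp
        (isClosed_proj hcl (isCompact_closedBall (0 : D → ℂ) ‖p‖))
        (fun y => by
          rintro t ⟨v, -, v1, v2, v3⟩ t' ⟨w, -, w1, w2, w3⟩ a b ha hb hab
          have := hc y v1 w1 ha hb hab
          refine ⟨a • v + b • w, hR y _ this, this, fun i hi => ?_, ?_⟩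
          · simp only at v2 w2 ⊢
            rw [hlin, v2 i hi, w2 i hi, ← add_mul, hab, one_mul]
          · simp only at v3 w3 ⊢
            rw [hlin, v3, w3]; rfl)
        (fun y => by
          obtain ⟨w, w1, w2⟩ := hg y
          exact ⟨coord j w, w, hR y w w1, w1, w2, rfl⟩)
        (fun y t => by
          rintro ⟨w, -, w1, -, w3⟩
          simp only at w3
          refine le_trans ?_ ((norm_le_pi_norm w j.1).trans (hb y w w1))
          rw [← w3]; unfold coord
          split_ifs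
          exacts [Complex.abs_re_le_norm _, Complex.abs_im_le_norm _])
      refine ⟨⟨fun y => Function.update (g y) j (h y), by fun_prop⟩, fun y => ?_⟩
      obtain ⟨w, -, w1, w2, w3⟩ := hh y
      refine ⟨w, w1, fun i hi => ?_⟩
      rcases Finset.mem_insert.mp hi with rfl | hi
      · simpa using w3
      · have : i ≠ j := fun e => hj (e ▸ hi)
        simpa [this] using w2 i hi
  obtain ⟨g, hg⟩ := key Finset.univ
  refine ⟨⟨fun y d => (g y (d, true) : ℂ) + (g y (d, false) : ℂ) * Complex.I, by fun_prop⟩,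
    fun y => ?_⟩
  obtain ⟨w, w1, w2⟩ := hg y
  have : w = fun d => (g y (d, true) : ℂ) + (g y (d, false) : ℂ) * Complex.I := by
    funext d
    rw [← w2 _ (Finset.mem_univ _), ← w2 _ (Finset.mem_univ _)]
    simp [coord]
  rw [this] at w1
  exact w1

end Pool.Agent.Lib.H3Tz
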