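import Mathlib
import Pool.Agent.Lib.helper3.TzA

/-! The Toeplitz extension property: definitions and the scalar facts. -/

namespace Pool.Agent.Lib.H3Tz

open Set Filter Topology Matrix
open scoped ComplexOrder MatrixOrder Pointwise

/-- A square matrix over a C*-algebra is positive in the C*-algebra `M_n(A)`: it is `B* B`. -/
def Pos {A : Type*} [NonUnitalCStarAlgebra A] {n : Type*} [Fintype n] (M : Matrix n n A) : Prop :=
  ∃ B : Matrix n n A, M = Bᴴ * B

/-- The finite set `Λ ⊆ ℤ^d` has the `A`-extension property. -/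
def ExtProp (A : Type*) [NonUnitalCStarAlgebra A] {d : ℕ} (Λ : Finset (Fin d → ℤ)) : Prop :=
  ∀ a : (Fin d → ℤ) → A, Pos (Matrix.of fun i j : Λ => a (i.1 - j.1)) →
    ∀ K : Finset (Fin d → ℤ), Λ ⊆ K → ∃ b : (Fin d → ℤ) → A,
      (∀ i ∈ Λ, ∀ j ∈ Λ, b (i - j) = a (i - j)) ∧ Pos (Matrix.of fun i j : K => b (i.1 - j.1))

variable {n : Type*} [Fintype n]

lemma pos_iff (M : Matrix n n ℂ) : Pos M ↔ M.PosSemidef := by
  classical
  constructor
  · rintro ⟨B, rfl⟩; exact posSemidef_conjTranspose_mul_self B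
  · intro h
    exact ⟨CFC.sqrt M, by
      rw [(CFC.sqrt_nonneg M).posSemidef.1.eq, CFC.sqrt_mul_sqrt_self M h.nonneg]⟩

lemma isClosed_psd : IsClosed {M : n → n → ℂ | (Matrix.of M).PosSemidef} := by
  simp only [posSemidef_iff_dotProduct_mulVec]
  refine IsClosed.and ?_ ?_
  · simp only [IsHermitian, ← Matrix.ext_iff, ofPred_forall]
    exact isClosed_iInter fun i => isClosed_iInter fun j => isClosed_eq
      (by simp only [conjTranspose_apply, of_apply]; fun_prop) (by simp only [of_apply]; fun_prop)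
  · simp only [ofPred_forall]
    exact isClosed_iInter fun x => isClosed_le continuous_const
      (by simp only [dotProduct, mulVec, of_apply]; fun_prop)

omit [Fintype n] in
lemma entry_le {M : Matrix n n ℂ} (hM : M.PosSemidef) {i j : n} {p : ℝ} (hp : 0 ≤ p)
    (hi : M i i = p) (hj : M j j = p) : ‖M i j‖ ≤ p := by
  have h := (hM.submatrix ![i, j]).det_nonneg
  rw [det_fin_two] at h
  simp only [submatrix_apply, cons_val_zero, cons_val_one, hi, hj, ← hM.1.apply j i,
    RCLike.star_def, Complex.mul_conj, Complex.normSq_eq_norm_sq] at h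
  have h2 : (0:ℝ) ≤ p * p - ‖M i j‖ ^ 2 := by exact_mod_cast h
  nlinarith [norm_nonneg (M i j)]

open scoped Matrix.Norms.L2Operator in
lemma perturb {M X : Matrix n n ℂ} (hM : M.PosSemidef) (hX : X.IsHermitian) :
    ∃ ε : ℝ, 0 < ε ∧ (M + ε • (M * X * M)).PosSemidef ∧ (M - ε • (M * X * M)).PosSemidef := by
  classical
  obtain ⟨B, rfl⟩ := (pos_iff M).mpr hM
  set Z := B * X * Bᴴ with hZ
  have hZs : IsSelfAdjoint Z := isHermitian_mul_mul_conjTranspose B hX
  have h1 := hZs.le_algebraMap_norm_self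
  have h2 := hZs.neg_algebraMap_norm_le_self
  rw [Algebra.algebraMap_eq_smul_one, le_iff] at h1 h2
  have h0 : 0 < ‖Z‖ + 1 := by positivity
  have h3 := ((h1.add PosSemidef.one).smul (inv_nonneg.mpr h0.le)).conjTranspose_mul_mul_same B
  have h4 := ((h2.add PosSemidef.one).smul (inv_nonneg.mpr h0.le)).conjTranspose_mul_mul_same B
  have e : (‖Z‖ + 1)⁻¹ • (‖Z‖ • (1 : Matrix n n ℂ) + 1) = 1 := by
    rw [show ‖Z‖ • (1 : Matrix n n ℂ) + 1 = (‖Z‖ + 1) • 1 by rw [add_smul, one_smul], smul_smul,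
      inv_mul_cancel₀ h0.ne', one_smul]
  refine ⟨(‖Z‖ + 1)⁻¹, by positivity, ?_, ?_⟩
  · rw [sub_neg_eq_add, add_assoc, smul_add, e] at h4
    simpa [hZ, Matrix.mul_add, Matrix.add_mul, Matrix.mul_assoc, add_comm] using h4
  · rw [sub_add_eq_add_sub, smul_sub, e] at h3
    simpa [hZ, Matrix.mul_sub, Matrix.sub_mul, Matrix.mul_assoc] using h3

/-- correlation matrices -/
def Ell (n : Type*) : Set (n → n → ℂ) := {e | (Matrix.of e).PosSemidef ∧ ∀ i, e i i = 1}

lemma extreme_norm {i j k : n} (hc : ∀ a, a = i ∨ a = j ∨ a = k) {e : n → n → ℂ}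
    (he : e ∈ (Ell n).extremePoints ℝ) : ‖e i j‖ = 1 := by
  classical
  obtain ⟨⟨hM, hd⟩, hx⟩ := mem_extremePoints_iff_left.mp he
  set M := Matrix.of e with hMe
  set m := e i j with hm
  have hji : e j i = star m := (hM.1.apply j i).symm
  set x : n → ℂ := Pi.single i 1 - star m • Pi.single j 1
  set y : n → ℂ := Pi.single j 1 - m • Pi.single i 1
  set r := M *ᵥ x with hr
  set s := M *ᵥ y with hs
  have hr' : ∀ a, r a = e a i - star m * e a j := fun a => by
    simp [hr, x, mulVec_sub, mulVec_smul, hMe]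
  have hs' : ∀ a, s a = e a j - m * e a i := fun a => by
    simp [hs, y, mulVec_sub, mulVec_smul, hMe]
  obtain ⟨η, hη0, hη⟩ : ∃ η : ℂ, η ≠ 0 ∧
      η * (r k * star (s k)) + star (η * (r k * star (s k))) = 0 := by
    by_cases h : r k * star (s k) = 0
    · exact ⟨1, one_ne_zero, by rw [h]; simp⟩
    · refine ⟨Complex.I * star (r k * star (s k)), by simpa using h, ?_⟩
      simp; ring
  set X : Matrix n n ℂ := η • vecMulVec x (star y) + (η • vecMulVec x (star y))ᴴ with hX
  have hH : ∀ a b, (M * X * M) a b = η * (r a * star (s b)) + star (η * (r b * star (s a))) := by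
    intro a b
    have h1 : M * (η • vecMulVec x (star y)) * M = η • vecMulVec r (star s) := by
      rw [Matrix.mul_smul, Matrix.smul_mul, mul_vecMulVec, vecMulVec_mul, hs, star_mulVec, hM.1.eq]
    have h2 : M * (η • vecMulVec x (star y))ᴴ * M = (η • vecMulVec r (star s))ᴴ := by
      rw [← h1, conjTranspose_mul, conjTranspose_mul, hM.1.eq, Matrix.mul_assoc]
    rw [hX, Matrix.mul_add, Matrix.add_mul, h1, h2]
    simp [vecMulVec_apply, mul_comm]
  have hrj : r j = 0 := by rw [hr', hji, hd]; ring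
  have hsi : s i = 0 := by rw [hs', hd]; ring
  have hdiag : ∀ a, (M * X * M) a a = 0 := fun a => by
    rw [hH]
    rcases hc a with rfl | rfl | rfl
    · simp [hsi]
    · simp [hrj]
    · exact hη
  obtain ⟨ε, hε, h1, h2⟩ := perturb hM (isHermitian_add_transpose_self (η • vecMulVec x (star y)))
  have hMa : ∀ a b, M a b = e a b := fun a b => rfl
  have := hx (fun a b => (M + ε • (M * X * M)) a b) ⟨h1, fun a => by simp [hdiag, hMa, hd]⟩
    (fun a b => (M - ε • (M * X * M)) a b) ⟨h2, fun a => by simp [hdiag, hMa, hd]⟩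
    ⟨1 / 2, 1 / 2, by norm_num, by norm_num, by norm_num, by
      funext a b; simp [hMa]; ring⟩
  have h3 := congrFun (congrFun this i) j
  simp only [Matrix.add_apply, Matrix.smul_apply, hH, hrj, hMa, add_eq_left] at h3
  rw [hr', hs', hd, hd, hji] at h3
  have h4 : (1 - star m * m) = 0 := by
    have : (ε:ℂ) * η * (1 - star m * m) ^ 2 = 0 := by
      rw [← h3]; simp; ring
    simpa [hε.ne', hη0] using this
  have h5 : ((‖m‖ ^ 2 : ℝ) : ℂ) = 1 := by
    rw [← Complex.normSq_eq_norm_sq, Complex.normSq_eq_conj_mul_self]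
    exact (sub_eq_zero.mp h4).symm
  have h6 : ‖m‖ ^ 2 = 1 := by exact_mod_cast h5
  nlinarith [norm_nonneg m]

lemma rank_one {e : n → n → ℂ} (he : e ∈ Ell n) {o a : n} (h : ‖e o a‖ = 1) (b : n) :
    e b a = star (e o b) * e o a := by
  classical
  obtain ⟨hM, hd⟩ := he
  have h1 : star (e o a) * e o a = 1 := by
    rw [RCLike.star_def, ← Complex.normSq_eq_conj_mul_self, Complex.normSq_eq_norm_sq, h]; simp
  have hao : e a o = star (e o a) := (hM.1.apply a o).symm
  have hbo : e b o = star (e o b) := (hM.1.apply b o).symm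
  have := (hM.dotProduct_mulVec_zero_iff (Pi.single a 1 - e o a • Pi.single o 1)).mp (by
    simp [mulVec_sub, mulVec_smul, hd, hao, star_sub, star_smul, Pi.star_single]
    rw [RCLike.star_def] at h1
    linear_combination -h1)
  have := congrFun this b
  simp [mulVec_sub, mulVec_smul, hbo] at this
  rw [RCLike.star_def]
  linear_combination this

variable {d : ℕ}

/-- extension by zero -/
noncomputable def ext0 {D : Finset (Fin d → ℤ)} (w : D → ℂ) (l : Fin d → ℤ) : ℂ :=
  if h : l ∈ D then w ⟨l, h⟩ else 0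

/-- the graph of the extension relation -/
def SS (Λ K : Finset (Fin d → ℤ)) : Set ((Λ → Λ → ℂ) × ((K - K : Finset (Fin d → ℤ)) → ℂ)) :=
  {q | (Matrix.of fun i j : K => ext0 q.2 (i.1 - j.1)).PosSemidef ∧
    ∀ i j : Λ, ext0 q.2 (i.1 - j.1) = q.1 i j}

lemma isClosed_SS (Λ K : Finset (Fin d → ℤ)) : IsClosed (SS Λ K) := by
  have hc : ∀ l, Continuous fun w : (K - K : Finset (Fin d → ℤ)) → ℂ => ext0 w l := fun l => by
    unfold ext0; split_ifs <;> fun_prop
  refine IsClosed.and (isClosed_psd.preimage (f := fun q : (Λ → Λ → ℂ) ×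
    ((K - K : Finset (Fin d → ℤ)) → ℂ) => fun i j : K => ext0 q.2 (i.1 - j.1)) (by fun_prop)) ?_
  simp only [ofPred_forall]
  exact isClosed_iInter fun i => isClosed_iInter fun j => isClosed_eq (by fun_prop) (by fun_prop)

lemma convex_SS (Λ K : Finset (Fin d → ℤ)) : Convex ℝ (SS Λ K) := by
  rintro q ⟨q1, q2⟩ r ⟨r1, r2⟩ a b ha hb -
  have h : ∀ l, ext0 (a • q + b • r).2 l = a • ext0 q.2 l + b • ext0 r.2 l := fun l => by
    unfold ext0; split_ifs <;> simp
  refine ⟨?_, fun i j => by rw [h, q2, r2]; simp⟩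
  refine (congrArg PosSemidef ?_).mp ((q1.smul ha).add (r1.smul hb))
  ext i j; exact (h _).symm

lemma mem_SS {Λ K : Finset (Fin d → ℤ)} (h : Λ ⊆ K) {e : Λ → Λ → ℂ} {b : (Fin d → ℤ) → ℂ}
    (h1 : ∀ i j : Λ, b (i.1 - j.1) = e i j)
    (h2 : (Matrix.of fun i j : K => b (i.1 - j.1)).PosSemidef) : (e, fun l => b l.1) ∈ SS Λ K := by
  have : ∀ i ∈ K, ∀ j ∈ K, ext0 (D := K - K) (fun l => b l.1) (i - j) = b (i - j) :=
    fun i hi j hj => dif_pos (Finset.sub_mem_sub hi hj)
  refine ⟨(congrArg PosSemidef ?_).mp h2, fun i j => by rw [this _ (h i.2) _ (h j.2), h1]⟩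
  ext i j; simp [this _ i.2 _ j.2]

lemma norm_SS {Λ K : Finset (Fin d → ℤ)} {e : Λ → Λ → ℂ} {w} (h : (e, w) ∈ SS Λ K) (o : Λ)
    {p : ℝ} (hp : 0 ≤ p) (ho : e o o = p) : ‖w‖ ≤ p := by
  refine (pi_norm_le_iff_of_nonneg hp).mpr fun ⟨l, hl⟩ => ?_
  obtain ⟨i, hi, j, hj, rfl⟩ := Finset.mem_sub.mp hl
  have h0 := h.2 o o
  simp only [sub_self, ho] at h0
  have := entry_le h.1 (i := ⟨i, hi⟩) (j := ⟨j, hj⟩) hp (by simpa using h0) (by simpa using h0)
  simpa [ext0, hl] using this

/-- the three-point set -/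
def L0 : Finset (Fin 2 → ℤ) := {![0, 0], ![1, 0], ![0, 1]}

/-- its points -/
def o0 : L0 := ⟨![0, 0], by decide⟩
/-- its points -/
def p0 : L0 := ⟨![1, 0], by decide⟩
/-- its points -/
def q0 : L0 := ⟨![0, 1], by decide⟩

lemma cover : ∀ a : L0, a = o0 ∨ a = p0 ∨ a = q0 := by decide

lemma ell_ext (K : Finset (Fin 2 → ℤ)) (hK : L0 ⊆ K) {e} (he : e ∈ Ell L0) :
    ∃ w, (e, w) ∈ SS L0 K := by
  have hcl : IsClosed (Ell L0) := IsClosed.and isClosed_psd (by
    simp only [ofPred_forall]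
    exact isClosed_iInter fun i => isClosed_eq (by fun_prop) continuous_const)
  have hcp : IsCompact (Ell L0) := (isCompact_closedBall 0 1).of_isClosed_subset hcl fun e he => by
    rw [mem_closedBall_zero_iff, pi_norm_le_iff_of_nonneg zero_le_one]
    intro i
    rw [pi_norm_le_iff_of_nonneg zero_le_one]
    exact fun j => entry_le he.1 zero_le_one (he.2 i) (he.2 j)
  have hcv : Convex ℝ (Ell L0) := by
    rintro q ⟨q1, q2⟩ r ⟨r1, r2⟩ a b ha hb hab
    refine ⟨(q1.smul ha).add (r1.smul hb), fun i => ?_⟩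
    simp only [Pi.add_apply, Pi.smul_apply, q2, r2, ← add_smul, hab, one_smul]
  have hT := isClosed_proj (isClosed_SS L0 K) (isCompact_closedBall 0 1)
  have hTc : Convex ℝ {e | ∃ w ∈ Metric.closedBall 0 1, (e, w) ∈ SS L0 K} := by
    rintro q ⟨v, v1, v2⟩ r ⟨w, w1, w2⟩ a b ha hb hab
    exact ⟨a • v + b • w, convex_closedBall _ _ v1 w1 ha hb hab, convex_SS L0 K v2 w2 ha hb hab⟩
  rw [← closure_convexHull_extremePoints hcp hcv] at he
  refine (closure_minimal (convexHull_min (fun e he => ?_) hTc) hT he).imp fun w hw => hw.2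
  have hp := extreme_norm cover he
  have hq := extreme_norm (i := o0) (j := q0) (k := p0) (by decide) he
  have ho : ‖e o0 o0‖ = 1 := by rw [he.1.2]; simp
  set z := e o0 p0
  set u := e o0 q0
  have hz : z ≠ 0 := by rintro h; simp [h] at hp
  have hu : u ≠ 0 := by rintro h; simp [h] at hq
  set χ : (Fin 2 → ℤ) → ℂ := fun l => z ^ l 0 * u ^ l 1 with hχ
  have hs : ∀ i j, χ (-(i - j)) = star (χ i) * χ j := fun i j => by
    simp only [hχ, neg_sub, Pi.sub_apply, star_mul', star_zpow₀, RCLike.star_def,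
      ← Complex.inv_eq_conj hp, ← Complex.inv_eq_conj hq, zpow_sub₀ hz, zpow_sub₀ hu,
      _root_.inv_zpow]
    field_simp
  have hχe : ∀ a : L0, χ a.1 = e o0 a := fun a => by
    rcases cover a with rfl | rfl | rfl
    · simp [hχ, o0]; exact (he.1.2 _).symm
    · simp [hχ, p0, z]
    · simp [hχ, q0, u]
  have hm := mem_SS hK (e := e) (b := fun l => χ (-l)) (fun i j => by
    rw [hs, hχe, hχe, rank_one he.1 (o := o0) (a := j) ?_ i]
    rcases cover j with rfl | rfl | rfl <;> assumption) (by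
    refine (congrArg PosSemidef ?_).mp (posSemidef_vecMulVec_star_self fun i : K => χ i.1)
    ext i j; simp only [vecMulVec_apply, of_apply, hs, Pi.star_apply])
  exact mem_ofPred.mpr
    ⟨_, mem_closedBall_zero_iff.mpr (norm_SS hm o0 zero_le_one (he.1.2 _)), hm⟩

lemma ext_L0 : ExtProp ℂ L0 := by
  intro a ha K hK
  rw [pos_iff] at ha
  have h0 : 0 ≤ a 0 := by simpa using ha.diag_nonneg (i := o0)
  obtain ⟨p, hp, hpa⟩ : ∃ p : ℝ, 0 ≤ p ∧ a 0 = p :=
    ⟨(a 0).re, (Complex.nonneg_iff.mp h0).1, Complex.ext rfl (Complex.nonneg_iff.mp h0).2.symm⟩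
  rcases hp.eq_or_lt with rfl | hp'
  · refine ⟨0, fun i hi j hj => ?_, 0, by ext; simp⟩
    have := entry_le ha (i := ⟨i, hi⟩) (j := ⟨j, hj⟩) le_rfl (by simpa using hpa)
      (by simpa using hpa)
    simpa [eq_comm] using this
  · obtain ⟨w, w1, w2⟩ := ell_ext K hK (e := fun i j => p⁻¹ • a (i.1 - j.1))
      ⟨ha.smul (inv_nonneg.mpr hp), fun i => by simp [hpa, hp'.ne']⟩
    refine ⟨fun l => p • ext0 w l, fun i hi j hj => ?_, (pos_iff _).mpr (w1.smul hp)⟩
    have := w2 ⟨i, hi⟩ ⟨j, hj⟩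
    simp only at this ⊢
    rw [this, smul_smul, mul_inv_cancel₀ hp'.ne', one_smul]

end Pool.Agent.Lib.H3Tz
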