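import Mathlib
import Pool.Agent.Lib.helper3.TzB

/-! The Toeplitz extension property over commutative C*-algebras. -/

namespace Pool.Agent.Lib.H3Tz

open Set Filter Topology Matrix WeakDual
open scoped ComplexOrder MatrixOrder Pointwise

/-- Disjoint cozero sets in the Gelfand spectrum of `A` have disjoint closures. -/
def FSpec (A : Type*) [NonUnitalCStarAlgebra A] : Prop :=
  ∀ f g : A, f * g = 0 → Disjoint (closure {φ : characterSpace ℂ A | φ f ≠ 0})
    (closure {φ : characterSpace ℂ A | φ g ≠ 0})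

variable {A : Type*} [NonUnitalCStarAlgebra A] {Y : Type*} [TopologicalSpace Y] [CompactSpace Y]
  [T2Space Y] {y0 : Y} {ψ : A →⋆ₙₐ[ℂ] C(Y, ℂ)} {n : Type*} [Fintype n] {d : ℕ}

/-- `ψ` identifies `A` with the continuous functions on `Y` vanishing at `y0`. -/
structure Model (ψ : A →⋆ₙₐ[ℂ] C(Y, ℂ)) (y0 : Y) : Prop where
  inj : Function.Injective ψ
  zero : ∀ a, ψ a y0 = 0
  surj : ∀ f : C(Y, ℂ), f y0 = 0 → ∃ a, ψ a = f

omit [T2Space Y] [CompactSpace Y] in
lemma pos_eval {M : Matrix n n A} (h : Pos M) (y : Y) :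
    (Matrix.of fun i j => ψ (M i j) y).PosSemidef := by
  obtain ⟨B, rfl⟩ := h
  refine (congrArg PosSemidef ?_).mp
    (posSemidef_conjTranspose_mul_self (Matrix.of fun i j => ψ (B i j) y))
  ext i j; simp [mul_apply, map_star]

open scoped Matrix.Norms.L2Operator in
lemma continuousOn_msqrt [DecidableEq n] :
    ContinuousOn (CFC.sqrt : Matrix n n ℂ → _) {a | 0 ≤ a} := CFC.continuousOn_sqrt

omit [T2Space Y] [CompactSpace Y] in
lemma Model.pos (hψ : Model ψ y0) {M : Matrix n n A}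
    (h : ∀ y, (Matrix.of fun i j => ψ (M i j) y).PosSemidef) : Pos M := by
  classical
  have hc : Continuous fun y => CFC.sqrt (Matrix.of fun i j => ψ (M i j) y) :=
    continuousOn_msqrt.comp_continuous (continuous_matrix fun i j => (ψ (M i j)).continuous)
      fun y => (h y).nonneg
  have h0 : (Matrix.of fun i j => ψ (M i j) y0) = 0 := by ext i j; simp [hψ.zero]
  choose B hB using fun i j => hψ.surj ⟨_, hc.matrix_elem i j⟩ (by simp [h0])
  refine ⟨Matrix.of B, Matrix.ext fun i j => hψ.inj (ContinuousMap.ext fun y => ?_)⟩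
  have := congrArg (fun N : Matrix n n ℂ => N i j) (CFC.sqrt_mul_sqrt_self _ (h y).nonneg)
  simp only [of_apply] at this
  rw [← this]
  have hs := (CFC.sqrt_nonneg (Matrix.of fun i j => ψ (M i j) y)).posSemidef.1.apply
  simp only [mul_apply, conjTranspose_apply, of_apply, map_sum, map_mul, map_star,
    ContinuousMap.sum_apply, ContinuousMap.mul_apply, ContinuousMap.star_apply, hB,
    ContinuousMap.coe_mk, hs]

lemma Model.ext_of_F (hψ : Model ψ y0) (hF : FAway y0) {Λ : Finset (Fin d → ℤ)}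
    (h : ExtProp ℂ Λ) : ExtProp A Λ := by
  intro a ha K hK
  rcases Λ.eq_empty_or_nonempty with rfl | ⟨o, ho⟩
  · exact ⟨0, by simp, 0, by ext; simp⟩
  let φ : C(Y, Λ → Λ → ℂ) := ⟨fun y i j => ψ (a (i.1 - j.1)) y, by fun_prop⟩
  have h0 : ∀ y, 0 ≤ ψ (a 0) y := fun y => by
    simpa using (pos_eval (ψ := ψ) ha y).diag_nonneg (i := ⟨o, ho⟩)
  obtain ⟨g, hg⟩ := hF.lift φ ⟨fun y => (ψ (a 0) y).re, by fun_prop⟩ (by simp [hψ.zero])
    (isClosed_SS Λ K)
    (fun y v hv w hw s t hs ht hst => by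
      have := convex_SS Λ K hv hw hs ht hst
      rwa [Prod.smul_mk, Prod.smul_mk, Prod.mk_add_mk, ← add_smul, hst, one_smul] at this)
    (fun y => by
      obtain ⟨b, b1, b2⟩ := h (fun l => ψ (a l) y) ((pos_iff _).mpr (pos_eval ha y)) K hK
      exact ⟨_, mem_SS hK (fun i j => b1 _ i.2 _ j.2) ((pos_iff _).mp b2)⟩)
    (fun y w hw => norm_SS hw ⟨o, ho⟩ (Complex.nonneg_iff.mp (h0 y)).1 (by
      simp only [φ, ContinuousMap.coe_mk, sub_self]
      exact Complex.ext rfl (Complex.nonneg_iff.mp (h0 y)).2.symm))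
  have hg0 : g y0 = 0 := norm_le_zero_iff.mp
    (norm_SS (hg y0) ⟨o, ho⟩ le_rfl (by simp [φ, hψ.zero]))
  choose b hb using fun l => hψ.surj ⟨fun y => ext0 (g y) l, by
    unfold ext0; split_ifs <;> fun_prop⟩ (by simp [hg0, ext0])
  refine ⟨b, fun i hi j hj => hψ.inj (ContinuousMap.ext fun y => ?_), hψ.pos fun y => ?_⟩
  · rw [hb]; exact (hg y).2 ⟨i, hi⟩ ⟨j, hj⟩
  · simpa [hb] using (hg y).1

omit [T2Space Y] [CompactSpace Y] in
lemma Model.ext_C (hψ : Model ψ y0) [Nontrivial A] {Λ : Finset (Fin d → ℤ)}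
    (h : ExtProp A Λ) : ExtProp ℂ Λ := by
  intro a ha K hK
  obtain ⟨c, hc⟩ := exists_ne (0 : A)
  obtain ⟨y, hy⟩ : ∃ y, ψ c y ≠ 0 := by
    by_contra h
    push Not at h
    exact hc (hψ.inj (by ext y; simp [h]))
  have hp : ∀ y, ψ (star c * c) y = (Complex.normSq (ψ c y) : ℝ) := fun y => by
    simp [map_star, Complex.normSq_eq_conj_mul_self]
  have hy' := Complex.normSq_pos.mpr hy
  obtain ⟨b, b1, b2⟩ := h (fun l => a l • (star c * c)) (hψ.pos fun y => by
    refine (congrArg PosSemidef ?_).mp (((pos_iff _).mp ha).smul (Complex.normSq_nonneg (ψ c y)))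
    ext i j; simp only [of_apply, map_smul, ContinuousMap.smul_apply, hp, Matrix.smul_apply]
    simp [mul_comm]) K hK
  refine ⟨fun l => (Complex.normSq (ψ c y))⁻¹ • ψ (b l) y, fun i hi j hj => ?_,
    (pos_iff _).mpr ((pos_eval (ψ := ψ) b2 y).smul (inv_nonneg.mpr hy'.le))⟩
  simp only [b1 i hi j hj, map_smul, ContinuousMap.smul_apply, hp]
  have : ((Complex.normSq (ψ c y) : ℝ) : ℂ) ≠ 0 := by exact_mod_cast hy'.ne'
  simp; field_simp

lemma sidon {B : Type*} (M : L0 → L0 → B) (hp : M p0 p0 = M o0 o0) (hq : M q0 q0 = M o0 o0) :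
    ∃ a : (Fin 2 → ℤ) → B, ∀ i j : L0, a (i.1 - j.1) = M i j := by
  classical
  refine ⟨fun l => if h : ∃ q : L0 × L0, q.1.1 - q.2.1 = l then M h.choose.1 h.choose.2
    else M o0 o0, fun i j => ?_⟩
  have h : ∃ q : L0 × L0, q.1.1 - q.2.1 = i.1 - j.1 := ⟨(i, j), rfl⟩
  have hd : ∀ i, M i i = M o0 o0 := fun i => by rcases cover i with rfl | rfl | rfl <;> simp [*]
  have key : ∀ i j k l : L0, k.1 - l.1 = i.1 - j.1 → (k = l ∧ i = j) ∨ (k = i ∧ l = j) := by decide
  simp only [dif_pos h]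
  rcases key i j _ _ h.choose_spec with ⟨h1, h2⟩ | ⟨h1, h2⟩
  · rw [h1, hd, ← hd j, ← h2]
  · rw [h1, h2]

lemma ker_sub {m : Type*} [Fintype m] {N : Matrix n n ℂ} (hN : N.PosSemidef) (ι : m → n)
    (x : m → ℂ) (h : N.submatrix ι ι *ᵥ x = 0) : N.submatrix id ι *ᵥ x = 0 := by
  obtain ⟨D, rfl⟩ := (pos_iff N).mpr hN
  rw [submatrix_mul _ _ ι id ι Function.bijective_id, ← conjTranspose_submatrix,
    conjTranspose_mul_self_mulVec_eq_zero] at h
  rw [submatrix_mul _ _ id id ι Function.bijective_id, ← mulVec_mulVec, h, mulVec_zero]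

lemma sum_L0 {B : Type*} [AddCommMonoid B] (f : L0 → B) : ∑ i, f i = f o0 + f p0 + f q0 := by
  rw [show (Finset.univ : Finset L0) = {o0, p0, q0} by decide, Finset.sum_insert (by decide),
    Finset.sum_pair (by decide), add_assoc]

lemma Model.F_of_ext (hψ : Model ψ y0) (h : ExtProp A L0) : FAway y0 := by
  intro f g _ _ hfg y1 h1 h2
  by_contra hne
  obtain ⟨c, c0, c1, -⟩ := exists_continuous_zero_one_of_isClosed (isClosed_singleton (x := y0))
    (isClosed_singleton (x := y1)) (by simpa using fun e : y0 = y1 => hne e.symm)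
  have c0 : c y0 = 0 := c0 rfl
  have c1 : c y1 = 1 := c1 rfl
  let t : Y → ℂ := fun y => (‖f y‖ : ℂ) ^ 2 + (‖g y‖ : ℂ) ^ 2
  let β : Y → ℂ := fun y => (‖f y‖ : ℂ) + Complex.I * (‖g y‖ : ℂ)
  let β' : Y → ℂ := fun y => (‖f y‖ : ℂ) - Complex.I * (‖g y‖ : ℂ)
  obtain ⟨s1, e1⟩ := hψ.surj ⟨fun y => (1 + t y) * c y, by fun_prop⟩ (by simp [c0])
  obtain ⟨s2, e2⟩ := hψ.surj ⟨fun y => (1 - t y) * c y, by fun_prop⟩ (by simp [c0])
  obtain ⟨s3, e3⟩ := hψ.surj ⟨fun y => 2 * β y * c y, by fun_prop⟩ (by simp [c0])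
  have ht : ∀ y, star (t y) = t y := fun y => by simp [t]
  have hβ : ∀ y, star (β y) = β' y := fun y => by simp [β, β', sub_eq_add_neg]
  have hβt : ∀ y, β' y * β y = t y := fun y => by
    simp only [β, β', t]; linear_combination (-(‖g y‖ : ℂ) ^ 2) * Complex.I_sq
  let u : L0 → A := fun i => if i = o0 then s1 else if i = p0 then s2 else 0
  let w : L0 → A := fun i => if i = o0 then 0 else if i = p0 then s3 else s1
  have n1 : p0 ≠ o0 := by decide
  have n2 : q0 ≠ o0 := by decide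
  have n3 : q0 ≠ p0 := by decide
  simp only [RCLike.star_def] at ht hβ
  obtain ⟨a, ha⟩ := sidon (fun i j => star (u i) * u j + star (w i) * w j)
    (hψ.inj (ContinuousMap.ext fun y => by
      simp [u, w, n1, map_star, e1, e2, e3, ht, hβ]
      linear_combination (4 * (c y : ℂ) ^ 2) * hβt y)) (by simp [u, w, n2, n3])
  have hG : ∀ y, (Matrix.of fun i j : L0 => ψ (a (i.1 - j.1)) y) =
      vecMulVec (star fun i => ψ (u i) y) (fun i => ψ (u i) y) +
      vecMulVec (star fun i => ψ (w i) y) (fun i => ψ (w i) y) := fun y => by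
    ext i j; simp [ha, map_star, vecMulVec_apply]
  have hK : L0 ⊆ insert ![1, -1] L0 := Finset.subset_insert _ _
  obtain ⟨b, b1, b2⟩ := h a (hψ.pos fun y => by
    simp only [of_apply]
    rw [hG]
    exact (posSemidef_vecMulVec_star_self _).add (posSemidef_vecMulVec_star_self _)) _ hK
  have key : ∀ y, β' y * ((1 - t y) * (1 + t y) * c y ^ 2) + β y * ψ (b ![1, -2]) y = 0 := by
    intro y
    have := ker_sub (pos_eval (ψ := ψ) b2 y) (fun i : L0 => ⟨i.1, hK i.2⟩)
      (fun i => if i = o0 then t y - 1 else if i = p0 then 1 + t y else -2 * β y) (by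
        rw [show submatrix _ _ _ = Matrix.of fun i j : L0 => ψ (a (i.1 - j.1)) y by
          ext i j; simp [b1 _ i.2 _ j.2], hG]
        funext i
        simp only [mulVec, dotProduct, sum_L0]
        simp [vecMulVec_apply, n1, n2, n3, u, w, e1, e2, e3]
        ring)
    have := congrFun this ⟨![1, -1], by decide⟩
    simp only [mulVec, dotProduct, sum_L0, submatrix_apply, of_apply, id] at this
    rw [show ![1, -1] - o0.1 = p0.1 - q0.1 by decide, show ![1, -1] - p0.1 = o0.1 - q0.1 by decide,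
      show ![1, -1] - q0.1 = ![1, -2] by decide, b1 _ p0.2 _ q0.2, b1 _ o0.2 _ q0.2, ha, ha] at this
    simp [u, w, n1, n2, n3, map_star, e1, e3, hβ] at this
    linear_combination (-1 / 2) * this
  have k1 : ψ (b ![1, -2]) y1 = -((1 - t y1) * (1 + t y1) * c y1 ^ 2) ∧ g y1 = 0 := by
    refine closure_minimal (t := {y | ψ (b ![1, -2]) y = -((1 - t y) * (1 + t y) * c y ^ 2) ∧
      g y = 0}) (fun y hy => ?_) (IsClosed.and (isClosed_eq (by fun_prop) (by fun_prop))
        (isClosed_eq (by fun_prop) (by fun_prop))) h1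
    have hg := (hfg y).resolve_left hy
    have hf : (‖f y‖ : ℂ) ≠ 0 := by simpa using hy
    refine ⟨mul_left_cancel₀ hf ?_, hg⟩
    have := key y
    simp only [β, β', hg, norm_zero, Complex.ofReal_zero, mul_zero, add_zero, sub_zero] at this
    linear_combination this
  have k2 : ψ (b ![1, -2]) y1 = ((1 - t y1) * (1 + t y1) * c y1 ^ 2) ∧ f y1 = 0 := by
    refine closure_minimal (t := {y | ψ (b ![1, -2]) y = ((1 - t y) * (1 + t y) * c y ^ 2) ∧
      f y = 0}) (fun y hy => ?_) (IsClosed.and (isClosed_eq (by fun_prop) (by fun_prop))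
        (isClosed_eq (by fun_prop) (by fun_prop))) h2
    have hf := (hfg y).resolve_right hy
    have hg : Complex.I * (‖g y‖ : ℂ) ≠ 0 := by simpa using hy
    refine ⟨mul_left_cancel₀ hg ?_, hf⟩
    have := key y
    simp only [β, β', hf, norm_zero, Complex.ofReal_zero, zero_add, zero_sub] at this
    linear_combination this
  have := k1.1.symm.trans k2.1
  simp [t, k1.2, k2.2, c1] at this
  norm_num at this

lemma Model.spec_of_F (hψ : Model ψ y0) (hF : FAway y0) : FSpec A := by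
  intro f g hfg
  rw [Set.disjoint_left]
  intro φ h1 h2
  obtain ⟨c, hc⟩ : ∃ c, φ c ≠ 0 := by
    by_contra h
    push Not at h
    exact φ.2.1 (DFunLike.ext _ _ h)
  have h0 : ∀ y, ψ f y = 0 ∨ ψ g y = 0 := fun y => by
    have := congrArg (fun a => ψ a y) hfg
    simpa using this
  obtain ⟨e, he⟩ := hF.lift (((ψ f).prodMk (ψ g)).prodMk (ψ c)) ⟨fun y => ‖ψ c y‖, by fun_prop⟩
    (by simp [hψ.zero]) (D := Unit)
    (S := {q | q.2 () * q.1.1.1 = q.1.2 * q.1.1.1 ∧ q.2 () * q.1.1.2 = 0 ∧ ‖q.2‖ ≤ ‖q.1.2‖})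
    (IsClosed.and (isClosed_eq (by fun_prop) (by fun_prop)) (IsClosed.and
      (isClosed_eq (by fun_prop) (by fun_prop)) (isClosed_le (by fun_prop) (by fun_prop))))
    (fun y v ⟨v1, v2, v3⟩ w ⟨w1, w2, w3⟩ s t hs ht hst => by
      have hst' : (s : ℂ) + t = 1 := by exact_mod_cast hst
      refine ⟨?_, ?_, mem_closedBall_zero_iff.mp (convex_closedBall _ _
        (mem_closedBall_zero_iff.mpr v3) (mem_closedBall_zero_iff.mpr w3) hs ht hst)⟩
      · simp only [Pi.add_apply, Pi.smul_apply, Complex.real_smul, ContinuousMap.prod_eval]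
          at v1 w1 ⊢
        linear_combination s * v1 + t * w1 + (ψ c y * ψ f y) * hst'
      · simp only [Pi.add_apply, Pi.smul_apply, Complex.real_smul] at v2 w2 ⊢
        linear_combination s * v2 + t * w2)
    (fun y => by
      rcases h0 y with h | h
      · exact ⟨0, by simp [h]⟩
      · exact ⟨fun _ => ψ c y, by simp [h]⟩)
    (fun y w hw => hw.2.2)
  obtain ⟨a, ha⟩ := hψ.surj ⟨fun y => e y (), by fun_prop⟩ (by
    have := (he y0).2.2
    simp [hψ.zero] at this
    simp [this])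
  have e1 : a * f = c * f := hψ.inj (ContinuousMap.ext fun y => by simpa [ha] using (he y).1)
  have e2 : a * g = 0 := hψ.inj (ContinuousMap.ext fun y => by simpa [ha] using (he y).2.1)
  have hev : ∀ x : A, Continuous fun φ : characterSpace ℂ A => φ x := fun x =>
    (eval_continuous x).comp continuous_subtype_val
  have k1 : φ a = φ c := closure_minimal (t := {φ : characterSpace ℂ A | φ a = φ c})
    (fun χ hχ => mul_right_cancel₀ hχ (by rw [← map_mul, e1, map_mul]))
    (isClosed_eq (hev a) (hev c)) h1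
  have k2 : φ a = 0 := closure_minimal (t := {φ : characterSpace ℂ A | φ a = 0})
    (fun χ hχ => mul_right_cancel₀ hχ (by rw [← map_mul, e2, map_zero, zero_mul]))
    (isClosed_eq (hev a) continuous_const) h2
  exact hc (k1.symm.trans k2)

lemma Model.F_of_spec (hψ : Model ψ y0) (hF : FSpec A) : FAway y0 := by
  intro f g f0 g0 hfg y1 h1 h2
  by_contra hne
  obtain ⟨c, c0, c1, -⟩ := exists_continuous_zero_one_of_isClosed (isClosed_singleton (x := y0))
    (isClosed_singleton (x := y1)) (by simpa using fun e : y0 = y1 => hne e.symm)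
  obtain ⟨c', hc'⟩ := hψ.surj ⟨fun y => c y, by fun_prop⟩ (by simpa using c0 rfl)
  obtain ⟨f, rfl⟩ := hψ.surj f f0
  obtain ⟨g, rfl⟩ := hψ.surj g g0
  let ρ : Y → WeakDual ℂ A := fun y =>
    StrongDual.toWeakDual ⟨⟨⟨fun a => ψ a y, by simp⟩, by simp⟩,
      (continuous_eval_const y).comp (AddMonoidHomClass.continuous_of_bound ψ 1
        (by simpa using NonUnitalStarAlgHom.norm_apply_le ψ))⟩
  have hρ : ∀ y a, ρ y a = ψ a y := fun y a => rfl
  have hc : Continuous ρ := continuous_of_continuous_eval fun a => (ψ a).continuous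
  have hm : ∀ y a, ψ a y ≠ 0 → ρ y ∈ characterSpace ℂ A := fun y a h =>
    ⟨fun e => h (by rw [← hρ, e]; rfl), fun a b => by simp [hρ]⟩
  have hy := hm y1 c' (by simp [hc', c1 rfl])
  have key : ∀ f, y1 ∈ closure {y | ψ f y ≠ 0} →
      (⟨ρ y1, hy⟩ : characterSpace ℂ A) ∈ closure {φ : characterSpace ℂ A | φ f ≠ 0} := by
    intro f h
    rw [closure_subtype]
    exact map_mem_closure (f := ρ) hc h fun y hy => ⟨⟨ρ y, hm y f hy⟩, hy, rfl⟩
  exact Set.disjoint_left.mp (hF f g (hψ.inj (ContinuousMap.ext fun y => by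
    simpa using hfg y))) (key f h1) (key g h2)

end Pool.Agent.Lib.H3Tz
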