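import Mathlib
import Pool.Agent.Lib.helper3.TzC

/-! The Toeplitz extension property: the classification. -/

namespace Pool.Agent.Lib.H3Tz

open Set Filter Topology Matrix WeakDual Unitization
open scoped ComplexOrder

universe u

variable {A : Type*} [NonUnitalCStarAlgebra A] {n : Type*} [Fintype n]

lemma ker_two {N : Matrix n n A} (h : Pos N) (i j : n) (z : Unitization ℂ A)
    (h0 : (N j j : Unitization ℂ A) - (N j i : Unitization ℂ A) * z
      - star z * (N i j : Unitization ℂ A) + star z * (N i i : Unitization ℂ A) * z = 0) (k : n) :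
    (N k j : Unitization ℂ A) = (N k i : Unitization ℂ A) * z := by
  obtain ⟨D, rfl⟩ := h
  let := CStarAlgebra.spectralOrder (Unitization ℂ A)
  have := CStarAlgebra.spectralOrderedRing (Unitization ℂ A)
  have e : ∀ a b, (((Dᴴ * D) a b : A) : Unitization ℂ A) =
      ∑ m, star (D m a : Unitization ℂ A) * (D m b : Unitization ℂ A) := fun a b => by
    refine (map_sum (inrNonUnitalStarAlgHom ℂ A) (fun m => star (D m a) * D m b) _).trans ?_
    simp [inr_star]
  have h1 : ∑ m, star ((D m j : Unitization ℂ A) - D m i * z) * (D m j - D m i * z) = 0 := by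
    rw [← h0]
    simp only [e, Finset.sum_mul, Finset.mul_sum, ← Finset.sum_sub_distrib,
      ← Finset.sum_add_distrib, star_sub, star_mul]
    exact Finset.sum_congr rfl fun m _ => by noncomm_ring
  rw [Finset.sum_eq_zero_iff_of_nonneg fun m _ => star_mul_self_nonneg _] at h1
  simp only [CStarRing.star_mul_self_eq_zero_iff, sub_eq_zero] at h1
  simp only [e, Finset.sum_mul, mul_assoc]
  exact Finset.sum_congr rfl fun m hm => by rw [h1 m hm]

lemma two_unitaries (h : ExtProp A L0) (c : A) (hc : star c = c) (u1 u2 z1 z2 : Unitization ℂ A)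
    (h1 : star u1 * u1 = 1) (h2 : star u2 * u2 = 1) (e1 : u1 * c = c * z1)
    (e2 : u2 * c = c * z2) :
    (c : Unitization ℂ A) * (u1 * u2 - u2 * u1) * c = 0 := by
  have ideal : ∀ z : Unitization ℂ A, ∃ a : A, (a : Unitization ℂ A) = c * z := fun z =>
    ⟨z.fst • c + c * z.snd, by ext <;> simp⟩
  obtain ⟨v1, hv1⟩ := ideal z1
  obtain ⟨v2, hv2⟩ := ideal z2
  have hC : star (c : Unitization ℂ A) = c := by rw [← inr_star, hc]
  have iso : ∀ u z : Unitization ℂ A, star u * u = 1 → u * c = c * z →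
      star z * c * (c * z) = c * c := fun u z h e => by
    have : star z * c = c * star u := by
      have := congrArg star e
      rwa [star_mul, star_mul, hC, eq_comm] at this
    rw [this, ← e, mul_assoc, ← mul_assoc (star u), h, one_mul]
  let V : L0 → A := fun i => if i = o0 then c else if i = p0 then v1 else v2
  have n1 : p0 ≠ o0 := by decide
  have n2 : q0 ≠ o0 := by decide
  have n3 : q0 ≠ p0 := by decide
  obtain ⟨a, ha⟩ := sidon (fun i j => star (V i) * V j)
    (inr_injective (R := ℂ) (by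
      simpa [V, n1, inr_star, hv1, hC] using iso u1 z1 h1 e1))
    (inr_injective (R := ℂ) (by
      simpa [V, n2, n3, inr_star, hv2, hC] using iso u2 z2 h2 e2))
  have hK : L0 ⊆ insert ![1, 1] L0 := Finset.subset_insert _ _
  obtain ⟨b, b1, b2⟩ := h a ⟨Matrix.of fun m i => if m = o0 then V i else 0, by
    ext i j
    simp only [mul_apply, sum_L0]
    simp [ha, n1, n2]⟩ _ hK
  have hb : ∀ i j : L0, b (i.1 - j.1) = star (V i) * V j := fun i j => by
    rw [b1 _ i.2 _ j.2, ha]
  have b0 : b 0 = c * c := by simpa [V, hc] using hb o0 o0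
  have k1 := ker_two b2 ⟨q0.1, hK q0.2⟩ ⟨![1, 1], by decide⟩ z1 (by
    simp only [of_apply, sub_self]
    rw [show ![1, 1] - q0.1 = p0.1 - o0.1 by decide, show q0.1 - ![1, 1] = o0.1 - p0.1 by decide,
      hb, hb, b0]
    simp only [V, n1, if_true, if_false, inr_mul, inr_star, hv1, hC, star_mul]
    linear_combination (norm := noncomm_ring) -(iso u1 z1 h1 e1)) ⟨o0.1, hK o0.2⟩
  have k2 := ker_two b2 ⟨p0.1, hK p0.2⟩ ⟨![1, 1], by decide⟩ z2 (by
    simp only [of_apply, sub_self]
    rw [show ![1, 1] - p0.1 = q0.1 - o0.1 by decide, show p0.1 - ![1, 1] = o0.1 - q0.1 by decide,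
      hb, hb, b0]
    simp only [V, n2, n3, if_true, if_false, inr_mul, inr_star, hv2, hC, star_mul]
    linear_combination (norm := noncomm_ring) -(iso u2 z2 h2 e2)) ⟨o0.1, hK o0.2⟩
  have := k1.symm.trans k2
  simp only [of_apply, hb, V, n1, n2, n3, if_true, if_false, inr_mul, inr_star, hv1, hv2, hC,
    ← e1, ← e2] at this
  calc _ = c * (u1 * (u2 * c)) - c * (u2 * (u1 * c)) := by noncomm_ring
    _ = 0 := by
      rw [e1, e2, sub_eq_zero]
      simpa only [mul_assoc] using this.symm

lemma resolv {B : Type*} [CStarAlgebra B] {h : B} (hh : star h = h) :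
    ∃ r : B, r * (h + Complex.I • 1) = 1 ∧ (h + Complex.I • 1) * r = 1 := by
  have : -Complex.I ∉ spectrum ℂ h := fun H => by
    simpa using IsSelfAdjoint.im_eq_zero_of_mem_spectrum hh H
  obtain ⟨u, hu⟩ := (spectrum.notMem_iff.mp this).neg
  have : (u : B) = h + Complex.I • 1 := by
    rw [hu, Algebra.algebraMap_eq_smul_one]; simp
  exact ⟨↑u⁻¹, this ▸ u.inv_mul, this ▸ u.mul_inv⟩

lemma cayley {B : Type*} [CStarAlgebra B] {h r : B} (hh : star h = h)
    (h1 : r * (h + Complex.I • 1) = 1) (h2 : (h + Complex.I • 1) * r = 1) :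
    star (1 - 2 * h * r) * (1 - 2 * h * r) = 1 ∧ h * r = r * h ∧ h * r = 1 - Complex.I • r := by
  have a1 : r * h = 1 - Complex.I • r := by rw [← h1]; simp [mul_add]
  have a2 : h * r = 1 - Complex.I • r := by rw [← h2]; simp [add_mul]
  have a3 : star r * h = 1 + Complex.I • star r := by
    simpa [hh] using congrArg star a2
  refine ⟨?_, by rw [a1, a2], a2⟩
  have a4 : star r * h * r = star r - Complex.I • (star r * r) := by
    rw [mul_assoc, a2]; simp [mul_sub]
  rw [a3] at a4
  simp only [add_mul, one_mul, smul_mul_assoc] at a4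
  have a5 : 1 - 2 * h * r = (2 * Complex.I) • r - 1 := by
    rw [mul_assoc, a2, two_mul, two_mul, add_smul]; abel
  rw [a5]
  simp only [star_sub, star_smul, star_one, sub_mul, mul_sub, smul_mul_assoc, mul_smul_comm,
    one_mul, mul_one, star_mul', Complex.star_def, Complex.conj_I, Complex.conj_ofNat]
  linear_combination (norm := skip) (-2 * Complex.I) • a4
  match_scalars <;> ring1

lemma cancel {B : Type*} [CStarAlgebra B] {c w : B} (hc : star c = c)
    (h : c * (c * w * c) * c = 0) : c * w * c = 0 := by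
  have h1 : c * (w * c * c) = 0 := by
    rw [← CStarRing.star_mul_self_eq_zero_iff, star_mul, hc]
    calc _ = star (w * c * c) * (c * (c * w * c) * c) := by noncomm_ring
      _ = 0 := by rw [h, mul_zero]
  rw [← CStarRing.mul_star_self_eq_zero_iff, star_mul, hc]
  calc _ = c * (w * c * c) * star (c * w) := by noncomm_ring
    _ = 0 := by rw [h1, zero_mul]

lemma comm_conj (h : ExtProp A L0) (c x y : A) (hc : star c = c) (hx : star x = x)
    (hy : star y = y) : c * x * c * (c * y * c) = c * y * c * (c * x * c) := by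
  apply inr_injective (R := ℂ)
  simp only [inr_mul]
  have hC : star (c : Unitization ℂ A) = c := by rw [← inr_star, hc]
  have hX : star (x : Unitization ℂ A) = x := by rw [← inr_star, hx]
  have hY : star (y : Unitization ℂ A) = y := by rw [← inr_star, hy]
  have sa : ∀ X : Unitization ℂ A, star X = X → star (c * X * c) = c * X * c := fun X hX => by
    rw [star_mul, star_mul, hC, hX, mul_assoc]
  obtain ⟨r, r1, r2⟩ := resolv (sa _ hX)
  obtain ⟨s, s1, s2⟩ := resolv (sa _ hY)
  obtain ⟨r3, r4, r5⟩ := cayley (sa _ hX) r1 r2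
  obtain ⟨s3, s4, s5⟩ := cayley (sa _ hY) s1 s2
  have k := two_unitaries h c hc _ _ (1 - 2 * x * c * r * c) (1 - 2 * y * c * s * c) r3 s3
    (by noncomm_ring) (by noncomm_ring)
  set H := (c : Unitization ℂ A) * x * c with hH
  set K := (c : Unitization ℂ A) * y * c with hK
  have k1 : (1 - 2 * H * r) * (1 - 2 * K * s) - (1 - 2 * K * s) * (1 - 2 * H * r)
      = c * (4 * (x * c * r * s * c * y - y * c * s * r * c * x)) * c := by
    calc _ = 4 * (H * r * (K * s) - K * s * (H * r)) := by noncomm_ring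
      _ = 4 * (H * r * (s * K) - K * s * (r * H)) := by rw [← r4, ← s4]
      _ = _ := by rw [hH, hK]; noncomm_ring
  rw [k1] at k
  have k2 := cancel hC k
  rw [← k1, mul_assoc 2, mul_assoc 2, r5, s5] at k2
  have k3 : r * s = s * r := by
    have : (1 + 1 + 1 + 1 : ℂ) • (Complex.I • r * Complex.I • s - Complex.I • s * Complex.I • r)
        = 0 := by
      rw [← k2]; simp only [add_smul, one_smul]
      generalize Complex.I • r = ρ; generalize Complex.I • s = σ; noncomm_ring
    rw [smul_eq_zero_iff_right (by norm_num), smul_mul_smul_comm, smul_mul_smul_comm,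
      ← smul_sub, smul_eq_zero_iff_right (by simp)] at this
    exact sub_eq_zero.mp this
  have k4 : (H + Complex.I • 1) * (K + Complex.I • 1) =
      (K + Complex.I • 1) * (H + Complex.I • 1) := by
    set a := H + Complex.I • (1 : Unitization ℂ A)
    set b := K + Complex.I • (1 : Unitization ℂ A)
    calc a * b = b * (a * r) * s * (a * b) := by rw [r2, mul_one, s2, one_mul]
      _ = b * a * (r * s) * (a * b) := by noncomm_ring
      _ = b * a * (s * (r * a) * b) := by rw [k3]; noncomm_ring
      _ = _ := by rw [r1, mul_one, s1, mul_one]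
  simp only [mul_add, add_mul, smul_mul_assoc, mul_smul_comm, one_mul, mul_one] at k4
  rw [show (c : Unitization ℂ A) * y * c * (c * x * c) = K * H from rfl]
  linear_combination (norm := module) k4

lemma comm_of_ext (h : ExtProp A L0) (a b : A) : a * b = b * a := by
  let := CStarAlgebra.spectralOrder A
  have := CStarAlgebra.spectralOrderedRing A
  have hU := CStarAlgebra.increasingApproximateUnit A
  have lim : ∀ x : A, Tendsto (fun c => c * x * c) (CStarAlgebra.approximateUnit A) (𝓝 x) := by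
    intro x
    have h1 := (hU.tendsto_mul_left x).sub_const x
    rw [sub_self] at h1
    have h2 := (Filter.isBoundedUnder_le_mul_tendsto_zero (f := fun c : A => c)
      ⟨1, eventually_map.mpr hU.eventually_norm⟩ h1).add (hU.tendsto_mul_right x)
    rw [zero_add] at h2
    exact h2.congr fun c => by noncomm_ring
  have sa : ∀ x y : A, star x = x → star y = y → x * y = y * x := fun x y hx hy =>
    tendsto_nhds_unique ((lim x).mul (lim y)) (((lim y).mul (lim x)).congr'
      (hU.eventually_isSelfAdjoint.mono fun c hc => (comm_conj h c x y hc hx hy).symm))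
  rw [← realPart_add_I_smul_imaginaryPart a, ← realPart_add_I_smul_imaginaryPart b]
  simp only [add_mul, mul_add, smul_mul_assoc, mul_smul_comm]
  rw [sa _ _ (realPart a).2 (realPart b).2, sa _ _ (realPart a).2 (imaginaryPart b).2,
    sa _ _ (imaginaryPart a).2 (realPart b).2, sa _ _ (imaginaryPart a).2 (imaginaryPart b).2]
  simp only [smul_add]; abel

/-- a set without the scalar extension property -/
def L1 : Finset (Fin 2 → ℤ) := {![0, 0], ![1, 0], ![3, 0]}

lemma not_ext_L1 : ¬ ExtProp ℂ L1 := by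
  intro h
  have hK : L1 ⊆ insert ![2, 0] L1 := Finset.subset_insert _ _
  obtain ⟨b, b1, b2⟩ := h (fun l => if |l 0| ≤ 1 then 1 else 0) ((pos_iff _).mpr (by
    refine (congrArg PosSemidef ?_).mp ((posSemidef_vecMulVec_star_self
      fun i : L1 => if i.1 0 ≤ 1 then (1:ℂ) else 0).add (posSemidef_vecMulVec_star_self
      fun i : L1 => if i.1 0 ≤ 1 then (0:ℂ) else 1))
    ext i j
    have : ∀ i j : L1, |i.1 0 - j.1 0| ≤ 1 ↔ (i.1 0 ≤ 1 ↔ j.1 0 ≤ 1) := by decide
    simp only [Matrix.add_apply, vecMulVec_apply, of_apply, Pi.sub_apply, this, Pi.star_apply]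
    by_cases h1 : i.1 0 ≤ 1 <;> by_cases h2 : j.1 0 ≤ 1 <;> simp [h1, h2])) _ hK
  have e0 := b1 ![0, 0] (by decide) ![0, 0] (by decide)
  have e1 := b1 ![0, 0] (by decide) ![1, 0] (by decide)
  have e2 := b1 ![1, 0] (by decide) ![0, 0] (by decide)
  have e3 := b1 ![1, 0] (by decide) ![3, 0] (by decide)
  have := rank_one (e := fun i j : ↥(insert ![2, 0] L1) => b (i.1 - j.1))
    ⟨(pos_iff _).mp b2, fun i => by simpa using e0⟩ (o := ⟨![1, 0], by decide⟩)
    (a := ⟨![2, 0], by decide⟩) (by
      simp only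
      rw [show (![1, 0] - ![2, 0] : Fin 2 → ℤ) = ![0, 0] - ![1, 0] by decide, e1]; simp)
    ⟨![0, 0], by decide⟩
  simp only at this
  rw [show (![1, 0] - ![2, 0] : Fin 2 → ℤ) = ![0, 0] - ![1, 0] by decide,
    show (![0, 0] - ![2, 0] : Fin 2 → ℤ) = ![1, 0] - ![3, 0] by decide, e1, e2, e3] at this
  norm_num at this

lemma exists_model (A : Type u) [NonUnitalCStarAlgebra A] (h : ∀ a b : A, a * b = b * a) :
    ∃ (Y : Type u) (_ : TopologicalSpace Y) (_ : CompactSpace Y) (_ : T2Space Y) (y0 : Y)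
      (ψ : A →⋆ₙₐ[ℂ] C(Y, ℂ)), Model ψ y0 := by
  let : NonUnitalCommCStarAlgebra A := { ‹NonUnitalCStarAlgebra A› with mul_comm := h }
  refine ⟨characterSpace ℂ (Unitization ℂ A), inferInstance, inferInstance, inferInstance,
    CharacterSpace.equivAlgHom.symm (fstHom ℂ A),
    (gelfandStarTransform (Unitization ℂ A) :
      Unitization ℂ A →⋆ₙₐ[ℂ] C(characterSpace ℂ (Unitization ℂ A), ℂ)).comp
      (inrNonUnitalStarAlgHom ℂ A),
    (gelfandStarTransform (Unitization ℂ A)).injective.comp inr_injective, fun a => rfl,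
    fun f hf => ?_⟩
  obtain ⟨x, rfl⟩ := (gelfandStarTransform (Unitization ℂ A)).surjective f
  have : x.fst = 0 := hf
  exact ⟨x.snd, congrArg (gelfandStarTransform (Unitization ℂ A)) (by ext <;> simp [this])⟩

theorem necessary (h : ∀ Λ : Finset (Fin 2 → ℤ), ExtProp ℂ Λ ↔ ExtProp A Λ) :
    Nontrivial A ∧ (∀ a b : A, a * b = b * a) ∧ FSpec A := by
  have h0 := (h L0).mp ext_L0
  refine ⟨?_, comm_of_ext h0, ?_⟩
  · by_contra hn
    rw [not_nontrivial_iff_subsingleton] at hn
    exact not_ext_L1 ((h L1).mpr fun a _ K _ =>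
      ⟨a, fun _ _ _ _ => rfl, 0, Subsingleton.elim _ _⟩)
  · obtain ⟨Y, _, _, _, y0, ψ, hψ⟩ := exists_model A (comm_of_ext h0)
    exact hψ.spec_of_F (hψ.F_of_ext h0)

theorem sufficient (h : Nontrivial A ∧ (∀ a b : A, a * b = b * a) ∧ FSpec A) {d : ℕ}
    (Λ : Finset (Fin d → ℤ)) : ExtProp ℂ Λ ↔ ExtProp A Λ := by
  obtain ⟨_, h1, h2⟩ := h
  obtain ⟨Y, _, _, _, y0, ψ, hψ⟩ := exists_model A h1
  exact ⟨hψ.ext_of_F (hψ.F_of_spec h2), hψ.ext_C⟩

theorem fspec_iff (X : Type*) [TopologicalSpace X] [CompactSpace X] [T2Space X] :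
    FSpec C(X, ℂ) ↔ ∀ f g : C(X, ℂ), f * g = 0 →
      Disjoint (closure {x | f x ≠ 0}) (closure {x | g x ≠ 0}) := by
  refine forall₃_congr fun f g _ => ?_
  have e : ∀ f : C(X, ℂ), closure {x | f x ≠ 0} = CharacterSpace.homeoEval X ℂ ⁻¹'
      closure {φ : characterSpace ℂ C(X, ℂ) | φ f ≠ 0} := fun f => by
    rw [Homeomorph.preimage_closure]; rfl
  rw [e, e, Set.disjoint_preimage_iff (CharacterSpace.homeoEval X ℂ).surjective]

end Pool.Agent.Lib.H3Tz
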