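import Mathlib
import Pool.Agent.Lib.helper3.Hardy

set_option autoImplicit false

namespace Pool.Agent.Lib.H3WCO

open Metric Filter Topology ComplexConjugate Pool.Agent.Lib.H3Hardy
open scoped InnerProductSpace

abbrev H2 : Type := lp (fun _ : ℕ => ℂ) 2

def coeff (f : H2) : ℕ → ℂ := f.1

noncomputable def ev (f : H2) (z : ℂ) : ℂ := ∑' n, coeff f n * z ^ n

def IsWCO (ψ φ : ℂ → ℂ) (T : H2 →L[ℂ] H2) : Prop :=
  ∀ f : H2, ∀ z ∈ ball (0 : ℂ) 1, ev (T f) z = ψ z * ev f (φ z)

lemma ev_inj (f : H2) (h : ∀ z, ‖z‖ < 1 → ev f z = 0) : f = 0 := by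
  let p := FormalMultilinearSeries.ofScalars ℂ (coeff f)
  have hr : (1 : NNReal) ≤ p.radius := p.le_radius_of_bound ‖f‖ fun n => by
    have : ‖coeff f n‖ ≤ ‖f‖ := lp.norm_apply_le_norm (p := 2) (E := fun _ : ℕ => ℂ) (by norm_num) f n
    simpa [p] using this
  have h1 := (p.hasFPowerSeriesOnBall (lt_of_lt_of_le (by simp) hr)).hasFPowerSeriesAt
  have h2 := h1.eq_zero_of_eventually (by
    filter_upwards [ball_mem_nhds (0 : ℂ) one_pos] with z hz
    have := h z (by simpa using hz)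
    simpa [p, FormalMultilinearSeries.sum, ev, mul_comm] using this)
  refine lp.ext (funext fun n => ?_)
  have := congrFun h2 n
  change coeff f n = 0
  simpa [p] using this

/-- A compact weighted composition operator on `H²` whose composition symbol has no fixed point
in the disc has spectrum `{0}`. -/
theorem main (ψ φ : ℂ → ℂ) (hψ : DifferentiableOn ℂ ψ (ball 0 1))
    (hφ : DifferentiableOn ℂ φ (ball 0 1)) (hmaps : Set.MapsTo φ (ball 0 1) (ball 0 1))
    (hfix : ∀ z ∈ ball (0 : ℂ) 1, φ z ≠ z) (T : H2 →L[ℂ] H2) (hT : IsWCO ψ φ T)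
    (hc : IsCompactOperator T) : spectrum ℂ T = {0} := by
  have hm : ∀ z, ‖z‖ < 1 → ‖φ z‖ < 1 := fun z hz => by simpa using hmaps (by simpa using hz)
  have hk : ∀ z : ℂ, ∃ k : H2, ‖z‖ < 1 →
      (∀ a : H2, ⟪k, a⟫_ℂ = ev a z) ∧ ‖k‖ ^ 2 * (1 - ‖z‖ ^ 2) = 1 := fun z => by
    by_cases hz : ‖z‖ < 1
    · obtain ⟨k, hk⟩ := exists_kernel hz
      exact ⟨k, fun _ => hk⟩
    · exact ⟨0, fun h => absurd h hz⟩
  choose k hk using hk
  have k0 : ∀ z, ‖z‖ < 1 → 0 < ‖k z‖ := fun z hz => norm_pos_iff.2 fun h => by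
    simpa [h] using (hk z hz).2
  have k1 : ∀ z, ‖z‖ < 1 → ‖ContinuousLinearMap.adjoint T (k z)‖ = ‖ψ z‖ * ‖k (φ z)‖ :=
    fun z hz => by
      rw [show ContinuousLinearMap.adjoint T (k z) = conj (ψ z) • k (φ z) from
        ext_inner_right ℂ fun a => by
          rw [ContinuousLinearMap.adjoint_inner_left, (hk z hz).1, inner_smul_left,
            (hk _ (hm z hz)).1, hT a z (by simpa using hz), Complex.conj_conj],
        norm_smul, Complex.norm_conj]
  have small : ∀ η : ℝ, 0 < η → ∃ r < 1, ∀ z : ℂ, r < ‖z‖ → ‖z‖ < 1 →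
      ‖ψ z‖ * ‖k (φ z)‖ ≤ η * ‖k z‖ := fun η hη => by
    let l : Filter ℂ := comap norm (𝓝[<] 1)
    have l1 : ∀ᶠ z in l, ‖z‖ < 1 := tendsto_comap.eventually self_mem_nhdsWithin
    have l2 : Tendsto (fun z : ℂ => √(1 - ‖z‖ ^ 2)) l (𝓝 0) := by
      have : Continuous fun t : ℝ => √(1 - t ^ 2) := by fun_prop
      have h := (this.tendsto 1).comp ((tendsto_comap (f := (norm : ℂ → ℝ)) (x := 𝓝[<] (1 : ℝ))).mono_right
        nhdsWithin_le_nhds)
      rw [one_pow, sub_self, Real.sqrt_zero] at h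
      exact h
    let u : ℂ → H2 := fun z => ((‖k z‖⁻¹ : ℝ) : ℂ) • k z
    have u1 : ∀ z, ‖u z‖ ≤ 1 := fun z => by
      simp only [u, norm_smul, Complex.norm_real, norm_inv, norm_norm]
      exact inv_mul_le_one
    have := adj_null hc u u1 (l := l) (weak_null u u1 fun n => by
      refine squeeze_zero_norm' ?_ l2
      filter_upwards [l1] with z hz
      have e : ⟪k z, (lp.single 2 n (1 : ℂ) : lp (fun _ : ℕ => ℂ) 2)⟫_ℂ = z ^ n := by
        refine ((hk z hz).1 _).trans ?_
        rw [ev, tsum_eq_single n fun m hm => by simp [coeff, lp.single_apply, hm]]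
        simp [coeff]
      have e2 : ⟪u z, (lp.single 2 n (1 : ℂ) : lp (fun _ : ℕ => ℂ) 2)⟫_ℂ =
          ((‖k z‖⁻¹ : ℝ) : ℂ) * z ^ n := by
        rw [← e, ← Complex.conj_ofReal]; exact inner_smul_left _ _ _
      refine (congrArg norm e2).le.trans ?_
      rw [norm_mul, Complex.norm_real, norm_inv, norm_norm, norm_pow]
      refine (mul_le_of_le_one_right (by positivity) (pow_le_one₀ (norm_nonneg _) hz.le)).trans ?_
      refine Real.le_sqrt_of_sq_le (le_of_eq ?_)
      have := k0 z hz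
      field_simp
      exact (hk z hz).2.symm) hη
    obtain ⟨r, hr, h⟩ := (nhdsLT_basis (1 : ℝ)).eventually_iff.1 (eventually_comap.1 this)
    refine ⟨r, hr, fun z h1 h2 => ?_⟩
    have := (h ⟨h1, h2⟩ z rfl).le
    simp only [u, map_smul, norm_smul, Complex.norm_real, norm_inv, norm_norm, k1 z h2] at this
    rwa [inv_mul_le_iff₀' (k0 z h2)] at this
  refine Set.eq_singleton_iff_unique_mem.2 ⟨fun hu => ?_, fun μ hμ => ?_⟩
  · have hu' : IsUnit T := by simpa using spectrum.mem_resolventSet_iff.1 hu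
    have h1 : IsCompactOperator (id : H2 → H2) := by
      have := hc.comp_clm (↑hu'.unit⁻¹ : H2 →L[ℂ] H2)
      refine (congrArg IsCompactOperator (funext fun x => ?_)).mp this
      exact congrArg (fun A : H2 →L[ℂ] H2 => A x) hu'.mul_val_inv
    have h2 : FiniteDimensional ℂ H2 := FiniteDimensional.of_isCompactOperator_id (𝕜 := ℂ) h1
    have : Module.Finite ℂ (lp (fun _ : ℕ => ℂ) 2) := h2
    exact Module.Finite.not_linearIndependent_of_infinite _
      (default : HilbertBasis ℕ ℂ (lp (fun _ : ℕ => ℂ) 2)).orthonormal.linearIndependent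
  by_contra hμ0
  obtain ⟨f, hf, hf0⟩ := ((hc.hasEigenvalue_iff_mem_spectrum hμ0).2 hμ).exists_hasEigenvector
  have hf' : T f = μ • f := Module.End.mem_eigenspace_iff.1 hf
  have e : ∀ z, ‖z‖ < 1 → μ * ev f z = ψ z * ev f (φ z) := fun z hz => by
    rw [← hT f z (by simpa using hz), ← (hk z hz).1, ← (hk z hz).1, hf', inner_smul_right]
  refine hf0 (ev_inj f fun z hz => ?_)
  have m0 : 0 < ‖μ‖ := norm_pos_iff.2 hμ0
  rcases escape hφ hm (fun z hz => hfix z (by simpa using hz)) with h | ⟨M, h⟩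
  · obtain ⟨r, hr, hs⟩ := small _ (half_pos m0)
    obtain ⟨N, hN⟩ := eventually_atTop.1 ((h z hz).eventually (lt_mem_nhds hr))
    have h1 : ∀ n, ‖φ^[n] z‖ < 1 := fun n => by
      induction n with
      | zero => exact hz
      | succ n ih => rw [Function.iterate_succ_apply']; exact hm _ ih
    have h2 : ∀ j : ℕ, ∀ n ≥ N, ‖ev f (φ^[n] z)‖ ≤ ‖f‖ * (1 / 2) ^ j * ‖k (φ^[n] z)‖ := by
      intro j
      induction j with
      | zero =>
        intro n _
        rw [← (hk _ (h1 n)).1, pow_zero, mul_one, mul_comm]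
        exact norm_inner_le_norm _ _
      | succ j ih =>
        intro n hn
        have a1 := congrArg norm (e _ (h1 n))
        have a2 := ih (n + 1) (by omega)
        have a3 := hs _ (hN n hn) (h1 n)
        rw [Function.iterate_succ_apply'] at a2
        rw [norm_mul, norm_mul] at a1
        refine le_of_mul_le_mul_left ?_ m0
        calc _ ≤ ‖ψ (φ^[n] z)‖ * (‖f‖ * (1 / 2) ^ j * ‖k (φ (φ^[n] z))‖) := by rw [a1]; gcongr
          _ = ‖f‖ * (1 / 2) ^ j * (‖ψ (φ^[n] z)‖ * ‖k (φ (φ^[n] z))‖) := by ring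
          _ ≤ ‖f‖ * (1 / 2) ^ j * (‖μ‖ / 2 * ‖k (φ^[n] z)‖) := by gcongr
          _ = _ := by ring
    have h3 : ev f (φ^[N] z) = 0 := by
      have := ((tendsto_pow_atTop_nhds_zero_of_lt_one (r := (1 / 2 : ℝ)) (by norm_num)
        (by norm_num)).const_mul ‖f‖).mul_const ‖k (φ^[N] z)‖
      rw [mul_zero, zero_mul] at this
      exact norm_le_zero_iff.1 (ge_of_tendsto' this fun j => h2 j N le_rfl)
    exact Nat.decreasingInduction (motive := fun n _ => ev f (φ^[n] z) = 0) (fun n _ ih => by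
      have := e _ (h1 n)
      rw [Function.iterate_succ_apply'] at ih
      rw [ih, mul_zero] at this
      exact (mul_eq_zero.1 this).resolve_left hμ0) h3 N.zero_le
  · have h0 : ψ z = 0 := by
      refine norm_le_zero_iff.1 (le_of_forall_pos_le_add fun δ hδ => ?_)
      obtain ⟨r, hr, hs⟩ := small (δ / (|M| + 1)) (by positivity)
      obtain ⟨R, R1, R2⟩ := exists_between (max_lt hr hz)
      have R0 : 0 < R := lt_of_le_of_lt ((norm_nonneg z).trans (le_max_right _ _)) R1
      rw [zero_add]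
      refine Complex.norm_le_of_forall_mem_frontier_norm_le (U := ball 0 R) isBounded_ball
        (hψ.mono ?_).diffContOnCl (fun v hv => ?_)
        (subset_closure (by simpa using (le_max_right _ _).trans_lt R1))
      · rw [closure_ball _ R0.ne']; exact closedBall_subset_ball R2
      rw [frontier_ball _ R0.ne', mem_sphere_zero_iff_norm] at hv
      have v1 : ‖v‖ < 1 := hv ▸ R2
      have a1 := hs v (hv ▸ (le_max_left _ _).trans_lt R1) v1
      have a2 := (hk v v1).2
      have a3 := (hk _ (hm v v1)).2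
      have a4 := h v v1
      have a5 := k0 _ (hm v v1)
      have p1 := one_sub_sq_pos v1
      have a6 : ‖k v‖ ≤ (|M| + 1) * ‖k (φ v)‖ := by
        refine le_of_sq_le_sq (le_of_mul_le_mul_right ?_ p1) (by positivity)
        have b1 : M ≤ (|M| + 1) ^ 2 := by nlinarith [le_abs_self M, abs_nonneg M]
        calc _ = ‖k (φ v)‖ ^ 2 * (1 - ‖φ v‖ ^ 2) := by rw [a2, a3]
          _ ≤ ‖k (φ v)‖ ^ 2 * ((|M| + 1) ^ 2 * (1 - ‖v‖ ^ 2)) := by
            gcongr; exact a4.trans (by gcongr)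
          _ = _ := by ring
      refine le_of_mul_le_mul_right (a1.trans ?_) a5
      calc _ ≤ δ / (|M| + 1) * ((|M| + 1) * ‖k (φ v)‖) := by gcongr
        _ = _ := by field_simp
    have := e z hz
    rw [h0, zero_mul] at this
    exact (mul_eq_zero.1 this).resolve_left hμ0

end Pool.Agent.Lib.H3WCO
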