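import Pool.Agent.Lib.helper3.PL1

namespace Pool.Agent.Lib.helper3.WI

open Filter Topology PS

/-- The group `⊕ ℤ/2`. -/
abbrev G : Type := ℕ →₀ ZMod 2

/-- Translation. -/
noncomputable def τ (z : G) : L G →L[ℂ] L G :=
  LinearMap.mkContinuous
    { toFun := pb (fun x => x - z) sub_left_injective
      map_add' := fun _ _ => ext' fun _ => rfl
      map_smul' := fun _ _ => ext' fun _ => rfl } 1 fun f => by
    rw [one_mul]; exact pb_le _ sub_left_injective f

lemma τ_ap (z : G) (f : L G) (x : G) : τ z f x = f (x - z) := rfl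

lemma τ_le (z : G) (f : L G) : ‖τ z f‖ ≤ ‖f‖ := pb_le _ sub_left_injective f

lemma τ_τ (z w : G) (f : L G) : τ z (τ w f) = τ w (τ z f) := ext' fun x => by
  simp only [τ_ap, sub_right_comm]

/-- Convolution. -/
noncomputable def cv (f : L G) : L G →L[ℂ] L G := sumL (fun z => τ z f) ‖f‖ fun z => τ_le z f

lemma cv_hasSum (a f : L G) : HasSum (fun z => a z • τ z f) (cv f a) := sumL_hasSum ..

lemma cv_ap (a f : L G) (x : G) : cv f a x = ∑' y, a y * f (x - y) :=
  ((crd x).hasSum (cv_hasSum a f)).tsum_eq.symm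

lemma cv_τ (z : G) (a f : L G) : cv f (τ z a) = τ z (cv f a) := ext' fun x => by
  rw [τ_ap, cv_ap, cv_ap, ← (Equiv.addRight z).tsum_eq]
  simp only [τ_ap, Equiv.coe_addRight, add_sub_cancel_right, sub_add_eq_sub_sub, sub_right_comm]

lemma τ_cv (z : G) (a f : L G) : cv (τ z f) a = τ z (cv f a) := ext' fun x => by
  rw [τ_ap, cv_ap, cv_ap]
  simp only [τ_ap, sub_right_comm]

lemma cv_neg (a f : L G) : cv (-f) a = -cv f a := ext' fun x => by
  change _ = -(cv f a x)
  rw [cv_ap, cv_ap, ← tsum_neg]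
  exact tsum_congr fun y => mul_neg (a y) (f (x - y))

/-- Characters. -/
noncomputable def χ (k : ℕ) (x : G) : ℂ := if x k = 0 then 1 else -1

lemma χ_le (k : ℕ) (x : G) : ‖χ k x‖ ≤ 1 := by unfold χ; split_ifs <;> simp

lemma χ_add (k : ℕ) (x y : G) : χ k (x + y) = χ k x * χ k y := by
  simp only [χ, Finsupp.add_apply]
  have h : ∀ a b : ZMod 2, (a + b = 0 ↔ (a = 0 ↔ b = 0)) := by decide
  by_cases ha : x k = 0 <;> by_cases hb : y k = 0 <;> simp [h, ha, hb]

/-- Generators. -/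
noncomputable def g (j : ℕ) : G := Finsupp.single j 1

lemma χ_g (k j : ℕ) : χ k (g j) = if j = k then -1 else 1 := by
  by_cases h : j = k <;> simp [χ, g, h]

lemma τ_g (j : ℕ) (f : L G) : τ (g j) (τ (g j) f) = f := ext' fun x => by
  rw [τ_ap, τ_ap, sub_sub, g, ← Finsupp.single_add, show (1 : ZMod 2) + 1 = 0 by decide,
    Finsupp.single_zero, sub_zero]

/-- Fourier coefficients. -/
noncomputable def F (k : ℕ) : L G →L[ℂ] ℂ := sumL (χ k) 1 (χ_le k)

lemma F_ap (k : ℕ) (f : L G) : F k f = ∑' x, f x * χ k x := rfl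

lemma F_τ (k : ℕ) (z : G) (f : L G) : F k (τ z f) = χ k z * F k f := by
  rw [F_ap, F_ap, ← (Equiv.addRight z).tsum_eq, ← tsum_mul_left]
  refine tsum_congr fun x => ?_
  simp only [τ_ap, Equiv.coe_addRight, add_sub_cancel_right, χ_add]
  ring

lemma F_cv (k : ℕ) (a f : L G) : F k (cv f a) = F k a * F k f := by
  refine ((F k).hasSum (cv_hasSum a f)).unique ?_
  simp only [map_smul, F_τ, smul_eq_mul, ← mul_assoc]
  exact (sumL_hasSum (χ k) 1 (χ_le k) a).mul_right (F k f)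

lemma F_tendsto (f : L G) : Tendsto (fun k => F k f) atTop (𝓝 (∑' x, f x * 1)) := by
  refine tendsto_tsum_of_dominated_convergence (hasSum_nm f).summable (fun x => ?_)
    (Eventually.of_forall fun k x => ?_)
  · refine tendsto_const_nhds.congr' ?_
    filter_upwards [eventually_gt_atTop (x.support.sup id)] with k hk
    have : x k = 0 := by
      by_contra h
      exact (Finset.le_sup (f := id) (Finsupp.mem_support_iff.2 h)).not_gt hk
    simp [χ, this]
  · exact (norm_smul_le _ _).trans (mul_le_of_le_one_right (norm_nonneg _) (χ_le k x))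

/-- Averages. -/
noncomputable def v : ℕ → L G
  | 0 => e 0
  | k + 1 => (1 / 2 : ℂ) • (v k + τ (g k) (v k))

/-- Orthogonal idempotents. -/
noncomputable def u (k : ℕ) : L G := (1 / 2 : ℂ) • (v k - τ (g k) (v k))

lemma v_le (k : ℕ) : ‖v k‖ ≤ 1 := by
  induction k with
  | zero => exact (norm_e _).le
  | succ k ih =>
    rw [v, norm_smul, norm_div, norm_one, Complex.norm_two]
    linarith [norm_add_le (v k) (τ (g k) (v k)), τ_le (g k) (v k)]

lemma u_le (k : ℕ) : ‖u k‖ ≤ 1 := by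
  rw [u, norm_smul, norm_div, norm_one, Complex.norm_two]
  linarith [norm_sub_le (v k) (τ (g k) (v k)), τ_le (g k) (v k), v_le k]

lemma τ_v {j k : ℕ} (h : j < k) : τ (g j) (v k) = v k := by
  induction k with
  | zero => exact absurd h (Nat.not_lt_zero j)
  | succ k ih =>
    rw [v, map_smul, map_add]
    rcases Nat.lt_succ_iff_lt_or_eq.1 h with h | rfl
    · rw [τ_τ, ih h]
    · rw [τ_g, add_comm]

lemma τ_u {j k : ℕ} (h : j < k) : τ (g j) (u k) = u k := by
  rw [u, map_smul, map_sub, τ_τ, τ_v h]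

lemma τ_u' (k : ℕ) : τ (g k) (u k) = -u k := by
  rw [u, map_smul, map_sub, τ_g, ← smul_neg, neg_sub]

lemma F_v {k m : ℕ} (h : k ≤ m) : F m (v k) = 1 := by
  induction k with
  | zero => exact (sumL_e ..).trans (by simp [χ])
  | succ k ih =>
    rw [v, map_smul, map_add, F_τ, ih (Nat.le_of_succ_le h), χ_g, if_neg (Nat.ne_of_lt h)]
    norm_num

lemma F_u (k : ℕ) : F k (u k) = 1 := by
  rw [u, map_smul, map_sub, F_τ, F_v le_rfl, χ_g, if_pos rfl]
  norm_num

lemma cv_u {j k : ℕ} (h : j ≠ k) : cv (u k) (u j) = 0 := by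
  have h1 : cv (u k) (u j) = -cv (u k) (u j) := by
    rcases lt_or_gt_of_ne h with h | h
    · rw [← map_neg, ← τ_u', cv_τ, ← τ_cv, τ_u h]
    · rw [← cv_neg, ← τ_u', τ_cv, ← cv_τ, τ_u h]
  exact ext' fun x => self_eq_neg.1 (congrArg (fun f : L G => f x) h1)

lemma F_u' {j k : ℕ} (h : j ≠ k) : F k (u j) = 0 := by
  have := F_cv k (u j) (u k)
  rwa [cv_u h, map_zero, F_u, mul_one, eq_comm] at this

/-- The ideal. -/
noncomputable def J : Submodule ℂ (L G) := ⨅ k, LinearMap.ker (cv (u (2 * k))).toLinearMap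

lemma mem_J {f : L G} : f ∈ J ↔ ∀ k, cv (u (2 * k)) f = 0 := Submodule.mem_iInf _

lemma cv_mem (a : L G) {f : L G} (hf : f ∈ J) : cv f a ∈ J := mem_J.2 fun k =>
  ((cv (u (2 * k))).hasSum (cv_hasSum a f)).unique (by
    simpa only [map_smul, cv_τ, mem_J.1 hf k, map_zero, smul_zero] using hasSum_zero)

lemma F_zero {f : L G} (hf : f ∈ J) : Tendsto (fun k => F k f) atTop (𝓝 0) := by
  have h1 := (F_tendsto f).comp (tendsto_id.const_mul_atTop' (show 0 < 2 by norm_num))
  have h2 : (fun k => F k f) ∘ (fun k => 2 * id k) = fun _ => 0 := funext fun k => by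
    have := F_cv (2 * k) f (u (2 * k))
    rwa [mem_J.1 hf k, map_zero, F_u, mul_one, eq_comm] at this
  rw [h2] at h1
  exact tendsto_nhds_unique h1 tendsto_const_nhds ▸ F_tendsto f

lemma not_fg (n : ℕ) (μ : Fin n → L G) (hμ : ∀ i, μ i ∈ J)
    (h : ∀ f ∈ J, ∃ a : Fin n → L G, f = ∑ i, cv (μ i) (a i)) : False := by
  have h1 : Tendsto (fun k => ∑ i, ‖F (2 * k + 1) (μ i)‖) atTop (𝓝 0) := by
    simpa using tendsto_finsetSum Finset.univ fun i _ => ((F_zero (hμ i)).comp
      (tendsto_atTop_mono (fun k => show id k ≤ 2 * k + 1 by simp; omega) tendsto_id)).norm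
  obtain ⟨φ, hφ, h2⟩ := extraction_forall_of_eventually
    (P := fun j k => ∑ i, ‖F (2 * k + 1) (μ i)‖ < (1 / 2 : ℝ) ^ j * (1 / 2) ^ j)
    fun j => h1.eventually (gt_mem_nhds (by positivity))
  have n1 : ∀ k : ℕ, ‖(1 / 2 : ℂ) ^ k‖ = (1 / 2 : ℝ) ^ k := fun k => by simp
  let c : L ℕ := mk (fun j => (1 / 2 : ℂ) ^ j) (by simpa only [n1] using summable_geometric_two)
  have h3 := sumL_hasSum (fun j => u (2 * φ j + 1)) 1 (fun _ => u_le _) c
  set f := sumL (fun j => u (2 * φ j + 1)) 1 (fun _ => u_le _) c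
  obtain ⟨a, ha⟩ := h f (mem_J.2 fun k => ((cv (u (2 * k))).hasSum h3).unique (by
    convert hasSum_zero using 2 with j
    rw [map_smul, cv_u (by omega), smul_zero]))
  obtain ⟨j, hj⟩ := exists_pow_lt_of_lt_one (show 0 < (‖a‖ + 1)⁻¹ by positivity)
    (by norm_num : (1 / 2 : ℝ) < 1)
  have h4 : F (2 * φ j + 1) f = (1 / 2 : ℂ) ^ j := ((F _).hasSum h3).unique (by
    convert hasSum_single (f := fun i => F (2 * φ j + 1) (c i • u (2 * φ i + 1))) j fun i hi => ?_
    · rw [map_smul, F_u, smul_eq_mul, mul_one]; rfl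
    · rw [map_smul, F_u' fun h' => hi (hφ.injective (by omega)), smul_zero])
  have h5 : ‖F (2 * φ j + 1) f‖ ≤ ‖a‖ * ∑ i, ‖F (2 * φ j + 1) (μ i)‖ := by
    rw [ha, map_sum, Finset.mul_sum]
    refine norm_sum_le_of_le _ fun i _ => ?_
    rw [F_cv, norm_mul]
    exact mul_le_mul_of_nonneg_right (((sumL_le _ _ _ (a i)).trans_eq (one_mul _)).trans
      (norm_le_pi_norm a i)) (norm_nonneg _)
  rw [h4, n1] at h5
  have h6 := h2 j
  have h7 : (0 : ℝ) < (1 / 2) ^ j := by positivity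
  rw [lt_inv_comm₀ h7 (by positivity), lt_inv_comm₀ (by positivity) h7, ← one_div,
    lt_div_iff₀ (by positivity)] at hj
  nlinarith [norm_nonneg a, mul_le_mul_of_nonneg_left h6.le (norm_nonneg a)]

end Pool.Agent.Lib.helper3.WI
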