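import Mathlib

open Filter Topology MeasureTheory Set

namespace Pool.Agent.Lib.helper3.WTrans

variable {Ω : Type*} [MeasurableSpace Ω]

/-- weighted composition at the level of functions -/
def W (φ : Ω → ℂ) (R : Ω → Ω) (f : Ω → ℂ) : Ω → ℂ := fun x => φ x * f (R x)

/-- the orbit approximates every bounded measurable function in measure -/
def Approx (μ : Measure Ω) (φ : Ω → ℂ) (R : Ω → Ω) (f : Ω → ℂ) : Prop :=
  ∀ g : Ω → ℂ, Measurable g → (∃ B : ℝ, ∀ x, ‖g x‖ ≤ B) → ∀ η : ℝ, 0 < η → ∀ δ : ℝ, 0 < δ →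
    ∃ n : ℕ, μ.real {x | η ≤ ‖(W φ R)^[n] f x - g x‖} < δ

variable {μ : Measure Ω} [IsProbabilityMeasure μ] {φ : Ω → ℂ} {R : Ω → Ω} {f : Ω → ℂ}

theorem small_of_antitone {s : ℕ → Set Ω} (hs : ∀ n, NullMeasurableSet (s n) μ) (hm : Antitone s)
    (h0 : μ (⋂ n, s n) = 0) {δ : ℝ} (hδ : 0 < δ) : ∃ n, μ.real (s n) < δ := by
  have h := tendsto_measure_iInter_atTop hs hm ⟨0, measure_ne_top _ _⟩
  rw [h0] at h
  have h2 := (ENNReal.tendsto_toReal ENNReal.zero_ne_top).comp h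
  exact (h2.eventually (gt_mem_nhds (by simpa using hδ))).exists

theorem le3 {s a b c : Set Ω} (h : s ⊆ a ∪ b ∪ c) :
    μ.real s ≤ μ.real a + μ.real b + μ.real c :=
  (measureReal_mono h).trans ((measureReal_union_le _ _).trans
    (add_le_add_left (measureReal_union_le _ _) _))

theorem not_approx_of_zero (hZ : 0 < μ.real {x | φ x = 0}) : ¬ Approx μ φ R f := by
  intro h
  have key : ∀ c : ℂ, ‖c‖ = 1 → μ.real {x | 1 ≤ ‖f x - c‖} < 1 / 2 := by
    intro c hc
    obtain ⟨n, hn⟩ := h (fun _ => c) measurable_const ⟨1, fun _ => hc.le⟩ 1 one_pos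
      (min (μ.real {x | φ x = 0}) (1 / 2)) (lt_min hZ (by norm_num))
    cases n with
    | zero => exact hn.trans_le (min_le_right _ _)
    | succ n =>
      exfalso
      have : {x | φ x = 0} ⊆ {x | 1 ≤ ‖(W φ R)^[n + 1] f x - c‖} := by
        intro x hx
        have hx' : φ x = 0 := hx
        simp only [mem_ofPred_eq, Function.iterate_succ_apply', W, hx', zero_mul, zero_sub,
          norm_neg, hc, le_refl]
      have h2 := measureReal_mono (μ := μ) this
      linarith [min_le_left (μ.real {x | φ x = 0}) (1 / 2)]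
  have h1 := key 1 (by simp)
  have h2 := key (-1) (by simp)
  have hsub : (univ : Set Ω) ⊆ {x | 1 ≤ ‖f x - 1‖} ∪ {x | 1 ≤ ‖f x - (-1)‖} := by
    intro x _
    by_contra hx
    simp only [mem_union, mem_ofPred_eq, not_or, not_le] at hx
    have h3 := norm_sub_le (f x - (-1)) (f x - 1)
    have e : f x - (-1) - (f x - 1) = 2 := by ring
    rw [e] at h3
    have : ‖(2 : ℂ)‖ = 2 := by simp
    linarith [hx.1, hx.2]
  have h4 := (measureReal_mono (μ := μ) hsub).trans (measureReal_union_le _ _)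
  rw [probReal_univ] at h4
  linarith

omit [IsProbabilityMeasure μ] in
theorem aemeasurable_W (hR : MeasurePreserving R μ μ) (hφ : AEMeasurable φ μ) {h : Ω → ℂ}
    (hh : AEMeasurable h μ) : AEMeasurable (W φ R h) μ :=
  hφ.mul (hh.comp_quasiMeasurePreserving hR.quasiMeasurePreserving)

omit [IsProbabilityMeasure μ] in
theorem aemeasurable_iter (hR : MeasurePreserving R μ μ) (hφ : AEMeasurable φ μ)
    (hf : AEMeasurable f μ) (n : ℕ) : AEMeasurable ((W φ R)^[n] f) μ := by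
  induction n with
  | zero => exact hf
  | succ n ih => rw [Function.iterate_succ_apply']; exact aemeasurable_W hR hφ ih

omit [IsProbabilityMeasure μ] in
theorem real_preimage (hR : MeasurePreserving R μ μ) {s : Set Ω} (hs : NullMeasurableSet s μ) :
    μ.real (R ⁻¹' s) = μ.real s := by
  simp only [Measure.real, hR.measure_preimage hs]

omit [IsProbabilityMeasure μ] in
theorem theta_step (hR : MeasurePreserving R μ μ) (hφ : AEMeasurable φ μ)
    (hZ : μ {x | φ x = 0} = 0) (c : ℝ) {h : Ω → ℂ} (hh : AEMeasurable h μ) :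
    μ.real {x | c * ‖W φ R h x‖ < ‖W φ R (W φ R h) x‖} =
      μ.real {x | c * ‖h x‖ < ‖W φ R h x‖} := by
  rw [← real_preimage hR (nullMeasurableSet_lt (hh.norm.const_mul c)
    (aemeasurable_W hR hφ hh).norm)]
  apply measureReal_congr
  have hne : ∀ᵐ x ∂μ, φ x ≠ 0 := by
    rw [ae_iff]; simpa using hZ
  filter_upwards [hne] with x hx
  have hp : 0 < ‖φ x‖ := norm_pos_iff.2 hx
  apply propext
  change c * ‖φ x * h (R x)‖ < ‖φ x * W φ R h (R x)‖ ↔ c * ‖h (R x)‖ < ‖W φ R h (R x)‖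
  rw [norm_mul, norm_mul, mul_left_comm]
  exact mul_lt_mul_iff_right₀ hp

theorem not_approx_of_wandering (hR : MeasurePreserving R μ μ) (hφ : AEMeasurable φ μ)
    (hf : AEMeasurable f μ) {C : ℝ} (hC0 : 0 ≤ C) (hC : ∀ᵐ x ∂μ, ‖φ x‖ ≤ C)
    (hZ : μ {x | φ x = 0} = 0) {J : Set Ω} (hJ : MeasurableSet J) (hJ0 : 0 < μ.real J)
    (hJR : ∀ x ∈ J, R x ∉ J) : ¬ Approx μ φ R f := by
  classical
  intro h
  have hθ : ∀ n, μ.real {x | 2 * C * ‖(W φ R)^[n] f x‖ < ‖W φ R ((W φ R)^[n] f) x‖} =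
      μ.real {x | 2 * C * ‖f x‖ < ‖W φ R f x‖} := by
    intro n
    induction n with
    | zero => rfl
    | succ n ih =>
      rw [Function.iterate_succ_apply', theta_step hR hφ hZ _ (aemeasurable_iter hR hφ hf n), ih]
  set κ := μ.real J with hκ
  obtain ⟨m, hm⟩ := small_of_antitone (μ := μ) (s := fun n : ℕ => {x | ‖φ x‖ < 1 / ((n : ℝ) + 1)})
    (fun n => nullMeasurableSet_lt hφ.norm aemeasurable_const)
    (fun a b hab x hx => lt_of_lt_of_le (b := 1 / ((b : ℝ) + 1)) hx (Nat.one_div_le_one_div hab))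
    (by
      refine measure_mono_null (μ := μ) (t := {x | φ x = 0}) ?_ hZ
      intro x hx
      by_contra hne
      obtain ⟨n, hn⟩ := exists_nat_one_div_lt (norm_pos_iff.2 hne)
      exact absurd (mem_iInter.1 hx n) (not_lt.2 hn.le)) (half_pos hJ0)
  set γ : ℝ := 1 / ((m : ℝ) + 1) with hγ
  have hγ0 : 0 < γ := by positivity
  have hN0 : μ.real {x | ¬ ‖φ x‖ ≤ C} = 0 := by
    simp only [Measure.real, ae_iff.1 hC, ENNReal.toReal_zero]
  obtain ⟨n1, h1⟩ := h (fun _ => 1) measurable_const ⟨1, fun _ => by simp⟩ (1 / 3) (by norm_num)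
    (κ / 8) (by positivity)
  set K : ℝ := 2 + 4 * C / γ with hK
  have hK0 : 0 ≤ K := by positivity
  have hg2 : Measurable fun x => if x ∈ J then (1 : ℂ) else (K : ℂ) :=
    Measurable.ite hJ measurable_const measurable_const
  obtain ⟨n2, h2⟩ := h (fun x => if x ∈ J then (1 : ℂ) else (K : ℂ)) hg2
    ⟨1 + K, fun x => by
      split_ifs
      · simpa using hK0
      · simp [abs_of_nonneg hK0]⟩ 1 one_pos (κ / 8) (by positivity)
  have t1 := hθ n1
  have t2 := hθ n2
  have m1 := aemeasurable_iter hR hφ hf n1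
  have m2 := aemeasurable_iter hR hφ hf n2
  generalize (W φ R)^[n1] f = u at h1 t1 m1
  generalize (W φ R)^[n2] f = v at h2 t2 m2
  have p1 := real_preimage hR (nullMeasurableSet_le (aemeasurable_const (b := (1 / 3 : ℝ)))
    (m1.sub (aemeasurable_const (b := (1 : ℂ)))).norm)
  have p2 := real_preimage hR (nullMeasurableSet_le (aemeasurable_const (b := (1 : ℝ)))
    (m2.sub hg2.aemeasurable).norm)
  have s1 : {x | 2 * C * ‖u x‖ < ‖W φ R u x‖} ⊆ {x | 1 / 3 ≤ ‖u x - 1‖} ∪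
      R ⁻¹' {x | 1 / 3 ≤ ‖u x - 1‖} ∪ {x | ¬ ‖φ x‖ ≤ C} := by
    intro x hx
    by_contra hn
    simp only [mem_union, mem_ofPred_eq, mem_preimage, not_or, not_le] at hn
    obtain ⟨⟨a1, a2⟩, a3⟩ := hn
    have hx' : 2 * C * ‖u x‖ < ‖φ x * u (R x)‖ := hx
    rw [norm_mul] at hx'
    have b1 : 2 / 3 ≤ ‖u x‖ := by
      have := norm_sub_norm_le (1 : ℂ) (u x)
      rw [norm_sub_rev, norm_one] at this
      linarith
    have b2 : ‖u (R x)‖ ≤ 4 / 3 := by
      have := norm_sub_norm_le (u (R x)) (1 : ℂ)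
      rw [norm_one] at this
      linarith
    have b3 := mul_le_mul (not_lt.1 a3) b2 (norm_nonneg _) hC0
    nlinarith
  have s2 : J ⊆ ({x | ‖φ x‖ < γ} ∪ {x | 1 ≤ ‖v x - if x ∈ J then (1 : ℂ) else (K : ℂ)‖} ∪
      R ⁻¹' {x | 1 ≤ ‖v x - if x ∈ J then (1 : ℂ) else (K : ℂ)‖}) ∪
      {x | 2 * C * ‖v x‖ < ‖W φ R v x‖} := by
    intro x hx
    by_contra hn
    simp only [mem_union, mem_ofPred_eq, mem_preimage, not_or, not_le, not_lt, hx, hJR x hx,
      if_true, if_false] at hn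
    obtain ⟨⟨⟨a1, a2⟩, a3⟩, a4⟩ := hn
    have a4' : ‖φ x * v (R x)‖ ≤ 2 * C * ‖v x‖ := a4
    rw [norm_mul] at a4'
    have b1 : ‖v x‖ ≤ 2 := by
      have := norm_sub_norm_le (v x) (1 : ℂ)
      rw [norm_one] at this
      linarith
    have b2 : K - 1 ≤ ‖v (R x)‖ := by
      have := norm_sub_norm_le (K : ℂ) (v (R x))
      rw [norm_sub_rev, Complex.norm_real, Real.norm_eq_abs, abs_of_nonneg hK0] at this
      linarith
    have b3 : γ * (K - 1) = γ + 4 * C := by
      rw [hK]; field_simp; ring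
    have b4 : 0 ≤ K - 1 := by
      have : 0 ≤ 4 * C / γ := by positivity
      linarith
    have b5 := mul_le_mul a1 b2 b4 (norm_nonneg _)
    nlinarith
  have e1 := le3 (μ := μ) s1
  have e2 := (measureReal_mono (μ := μ) s2).trans ((measureReal_union_le _ _).trans
    (add_le_add_left (le3 (μ := μ) Subset.rfl) _))
  simp only [Pi.sub_apply] at p1 p2
  rw [p1, hN0] at e1
  rw [p2] at e2
  linarith

theorem not_approx_of_id (hf : AEMeasurable f μ) (hR : ∀ᵐ x ∂μ, R x = x) :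
    ¬ Approx μ φ R f := by
  intro h
  have hN : μ.real {x | ¬ R x = x} = 0 := by
    simp only [Measure.real, ae_iff.1 hR, ENNReal.toReal_zero]
  have hit : ∀ x, R x = x → ∀ n, (W φ R)^[n] f x = φ x ^ n * f x := by
    intro x hx n
    induction n with
    | zero => simp
    | succ n ih =>
      rw [Function.iterate_succ_apply']
      change φ x * (W φ R)^[n] f (R x) = _
      rw [hx, ih]; ring
  obtain ⟨K, hK⟩ := small_of_antitone (μ := μ) (s := fun n : ℕ => {x | (n : ℝ) ≤ ‖f x‖})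
    (fun n => nullMeasurableSet_le aemeasurable_const hf.norm)
    (fun a b hab x hx => le_trans (b := (b : ℝ)) (Nat.cast_le.2 hab) hx)
    (by
      refine measure_mono_null (μ := μ) (t := ∅) ?_ (measure_empty (μ := μ))
      intro x hx
      obtain ⟨n, hn⟩ := exists_nat_gt ‖f x‖
      exact absurd (mem_iInter.1 hx n) (not_le.2 hn)) (by norm_num : (0 : ℝ) < 1 / 8)
  obtain ⟨m, hm⟩ := small_of_antitone (μ := μ)
    (s := fun n : ℕ => {x | 0 < ‖f x‖} ∩ {x | ‖f x‖ < 1 / ((n : ℝ) + 1)})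
    (fun n => (nullMeasurableSet_lt aemeasurable_const hf.norm).inter
      (nullMeasurableSet_lt hf.norm aemeasurable_const))
    (fun a b hab x hx => ⟨hx.1,
      lt_of_lt_of_le (b := 1 / ((b : ℝ) + 1)) hx.2 (Nat.one_div_le_one_div hab)⟩)
    (by
      refine measure_mono_null (μ := μ) (t := ∅) ?_ (measure_empty (μ := μ))
      intro x hx
      have hx0 : 0 < ‖f x‖ := (mem_iInter.1 hx 0).1
      obtain ⟨n, hn⟩ := exists_nat_one_div_lt hx0
      exact absurd (mem_iInter.1 hx n).2 (not_lt.2 hn.le)) (by norm_num : (0 : ℝ) < 1 / 8)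
  set η : ℝ := 1 / ((m : ℝ) + 1) with hη
  have hη0 : 0 < η := by positivity
  obtain ⟨n1, h1⟩ := h (fun _ => (((K : ℝ) + 1 : ℝ) : ℂ)) measurable_const ⟨_, fun _ => le_rfl⟩
    1 one_pos (1 / 8) (by norm_num)
  obtain ⟨n2, h2⟩ := h (fun _ => ((η / 2 : ℝ) : ℂ)) measurable_const ⟨_, fun _ => le_rfl⟩
    (η / 2) (half_pos hη0) (1 / 8) (by norm_num)
  have s1 : {x | ‖φ x‖ ≤ 1} ⊆ {x | ¬ R x = x} ∪ {x | (K : ℝ) ≤ ‖f x‖} ∪
      {x | 1 ≤ ‖(W φ R)^[n1] f x - (((K : ℝ) + 1 : ℝ) : ℂ)‖} := by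
    intro x hx
    by_contra hn
    simp only [mem_union, mem_ofPred_eq, not_or, not_le, not_not] at hn
    obtain ⟨⟨a1, a2⟩, a3⟩ := hn
    have b1 := norm_sub_norm_le (((K : ℝ) + 1 : ℝ) : ℂ) ((W φ R)^[n1] f x)
    rw [norm_sub_rev, Complex.norm_real, Real.norm_eq_abs, abs_of_nonneg (by positivity)] at b1
    have b2 : ‖(W φ R)^[n1] f x‖ ≤ ‖f x‖ := by
      rw [hit x a1, norm_mul, norm_pow]
      exact mul_le_of_le_one_left (norm_nonneg _) (pow_le_one₀ (norm_nonneg _) hx)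
    linarith
  have s2 : {x | 1 ≤ ‖φ x‖} ⊆ {x | ¬ R x = x} ∪ ({x | 0 < ‖f x‖} ∩ {x | ‖f x‖ < η}) ∪
      {x | η / 2 ≤ ‖(W φ R)^[n2] f x - ((η / 2 : ℝ) : ℂ)‖} := by
    intro x hx
    by_contra hn
    simp only [mem_union, mem_inter_iff, mem_ofPred_eq, not_or, not_le, not_not, not_and,
      not_lt] at hn
    obtain ⟨⟨a1, a2⟩, a3⟩ := hn
    have hn2 : ‖((η / 2 : ℝ) : ℂ)‖ = η / 2 := by
      rw [Complex.norm_real, Real.norm_eq_abs, abs_of_nonneg (by positivity)]
    rcases (norm_nonneg (f x)).eq_or_lt with h0 | h0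
    · rw [hit x a1, norm_eq_zero.1 h0.symm, mul_zero, zero_sub, norm_neg, hn2] at a3
      exact lt_irrefl _ a3
    · have b1 := norm_sub_norm_le ((W φ R)^[n2] f x) ((η / 2 : ℝ) : ℂ)
      have b2 : ‖f x‖ ≤ ‖(W φ R)^[n2] f x‖ := by
        rw [hit x a1, norm_mul, norm_pow]
        exact le_mul_of_one_le_left (norm_nonneg _) (one_le_pow₀ hx)
      linarith [a2 h0]
  have e1 := le3 (μ := μ) s1
  have e2 := le3 (μ := μ) s2
  have hsub : (univ : Set Ω) ⊆ {x | ‖φ x‖ ≤ 1} ∪ {x | 1 ≤ ‖φ x‖} := fun x _ =>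
    le_total ‖φ x‖ 1
  have h4 := (measureReal_mono (μ := μ) hsub).trans (measureReal_union_le _ _)
  rw [probReal_univ] at h4
  linarith

theorem approx_of_dense {p : ENNReal} [Fact (1 ≤ p)] (hR : MeasurePreserving R μ μ)
    (T : Lp ℂ p μ → Lp ℂ p μ) (hT : ∀ g : Lp ℂ p μ, T g =ᵐ[μ] W φ R g) (F : Lp ℂ p μ)
    (hd : Dense (range fun n : ℕ => T^[n] F)) : Approx μ φ R F := by
  have hit : ∀ n, (T^[n] F : Lp ℂ p μ) =ᵐ[μ] (W φ R)^[n] F := by
    intro n
    induction n with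
    | zero => exact EventuallyEq.rfl
    | succ n ih =>
      rw [Function.iterate_succ_apply', Function.iterate_succ_apply']
      filter_upwards [hT (T^[n] F), hR.quasiMeasurePreserving.ae_eq_comp ih] with x h1 h2
      rw [h1]
      exact congrArg (φ x * ·) h2
  rintro g hg ⟨B, hB⟩ η hη δ hδ
  have hm : MemLp g p μ := MemLp.of_bound hg.aestronglyMeasurable B (Eventually.of_forall hB)
  obtain ⟨x, hx, hlim⟩ := mem_closure_iff_seq_limit.1 (hd (hm.toLp g))
  have h1 := tendstoInMeasure_iff_norm.1 (tendstoInMeasure_of_tendsto_Lp hlim) η hη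
  have h2 := (ENNReal.tendsto_toReal ENNReal.zero_ne_top).comp h1
  have hδ' : (0 : ENNReal).toReal < δ := by simpa using hδ
  obtain ⟨k, hk⟩ := (h2.eventually (gt_mem_nhds hδ')).exists
  obtain ⟨n, hn⟩ := hx k
  have hk' : μ.real {y | η ≤ ‖x k y - hm.toLp g y‖} < δ := hk
  have e : μ.real {y | η ≤ ‖(W φ R)^[n] F y - g y‖} = μ.real {y | η ≤ ‖x k y - hm.toLp g y‖} := by
    apply measureReal_congr
    filter_upwards [hit n, hm.coeFn_toLp] with y h3 h4
    apply propext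
    change η ≤ ‖(W φ R)^[n] F y - g y‖ ↔ η ≤ ‖x k y - hm.toLp g y‖
    rw [← hn, h4, ← h3]
  exact ⟨n, e.trans_lt hk'⟩

theorem measurePreserving_fract {α : ℝ} (h0 : 0 ≤ α) (h1 : α ≤ 1) :
    MeasurePreserving (fun x : ℝ => Int.fract (x + α)) (volume.restrict (Icc 0 1))
      (volume.restrict (Icc 0 1)) := by
  have hm : Measurable fun x : ℝ => Int.fract (x + α) := measurable_fract.comp (by fun_prop)
  refine ⟨hm, ?_⟩
  rw [← Measure.restrict_congr_set Ico_ae_eq_Icc]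
  ext s hs
  rw [Measure.map_apply hm hs, Measure.restrict_apply (hm hs), Measure.restrict_apply hs]
  have e1 : (fun x : ℝ => Int.fract (x + α)) ⁻¹' s ∩ Ico 0 1 =
      (fun x => x + α) ⁻¹' (s ∩ Ico α 1) ∪ (fun x => x + (α - 1)) ⁻¹' (s ∩ Ico 0 α) := by
    ext x
    simp only [mem_inter_iff, mem_preimage, mem_Ico, mem_union]
    by_cases hx : x + α < 1
    · constructor
      · rintro ⟨a, b, c⟩
        rw [Int.fract_eq_self.2 ⟨by linarith, hx⟩] at a
        exact Or.inl ⟨a, by linarith, hx⟩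
      · rintro (⟨a, b, c⟩ | ⟨a, b, c⟩)
        · rw [Int.fract_eq_self.2 ⟨by linarith, hx⟩]
          exact ⟨a, by linarith, by linarith⟩
        · exfalso; linarith
    · have hf : x < 1 → Int.fract (x + α) = x + (α - 1) := by
        intro c
        rw [← Int.fract_sub_one, Int.fract_eq_self.2 ⟨by linarith, by linarith⟩]
        ring
      constructor
      · rintro ⟨a, b, c⟩
        rw [hf c] at a
        exact Or.inr ⟨a, by linarith, by linarith⟩
      · rintro (⟨a, b, c⟩ | ⟨a, b, c⟩)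
        · exact absurd c hx
        · rw [hf (by linarith)]
          exact ⟨a, by linarith, by linarith⟩
  have e2 : s ∩ Ico 0 1 = s ∩ Ico α 1 ∪ s ∩ Ico 0 α := by
    rw [← inter_union_distrib_left, union_comm, Ico_union_Ico_eq_Ico h0 h1]
  rw [e1, e2, measure_union, measure_union, measure_preimage_add_right, measure_preimage_add_right]
  · rw [Set.disjoint_left]
    rintro x ⟨-, a, -⟩ ⟨-, -, b⟩
    linarith
  · exact hs.inter measurableSet_Ico
  · rw [Set.disjoint_left]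
    rintro x ⟨-, -, a⟩ ⟨-, b, -⟩
    linarith
  · exact (by fun_prop : Measurable fun x : ℝ => x + (α - 1)) (hs.inter measurableSet_Ico)

end Pool.Agent.Lib.helper3.WTrans
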